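import Pool.Agent.Work.MP_ea8963_ag.G5.Stmts

/-!
Block [ea8963 G5]: statements of the items, field theory and analysis (second half).
Written by helper56.  The field theory items FAX, FBX, FCX, FDX, FEX, FFX, CHX, EXX, GLX and the
implicit function theorem IFX are those of block G4 (proved there).
-/

set_option linter.style.longLine false
set_option linter.unusedVariables false

noncomputable section

open Module Topology
open Pool.Agent.Work.MP_ea8963_ag.G4 (D ZA mem_ZA Full cl rn rn_prod rn_le finrank_map_mono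
  finrank_map_prod_swap pair d_two ZA_mono)

namespace Pool.Agent.Work.MP_ea8963_ag.G5

/-! ## Interface with the first half -/

/-- a configuration of rank 6 has all the properties `Opt` (after normalising the parameters) -/
def OPX : Prop := ∀ s, Gen s → ∀ p l lam, Cfg s p l lam →
  6 ≤ finrank ℂ ((ZS s).map (evB p l)) → ∃ lam1 m, Opt s p l lam1 m

/-- two configurations in general position -/
def TRX : Prop := ∀ s, Gen s → ∀ p l lam m p' l' lam' m', Opt s p l lam m →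
  Opt s p' l' lam' m' → 6 ≤ finrank ℂ ((ZS s ⊓ ZB p l).map (evB p' l')) →
  Trip s p l lam p' l' lam'

/-! ## Part C: field theory -/

/-- ITEM JCX (linear algebra), first half (copy of G4.JCX). -/
def JCX : Prop := ∀ (W : Submodule ℂ D) (p : Fin 4 → E) (l : E),
  6 ≤ finrank ℂ (W.map (evB p l)) → ∃ x : Fin 6 → ℂ, (∀ k, x k ∈ entB p l) ∧ Full W x

/-- ITEM JDX (linear algebra), second half (copy of G4.JDX). -/
def JDX : Prop := ∀ (W : Submodule ℂ D) (p : Fin 4 → E) (l : E) (x : Fin 6 → ℂ),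
  (∀ k, x k ∈ entB p l) → Full W x → 6 ≤ finrank ℂ (W.map (evB p l))

/-- ITEM ICX: independent conjugate (copy of G4.ICX). -/
def ICX : Prop := ∀ (A0 A1 : Set ℂ), A0 ⊆ A1 → A1.Countable → ∀ (p : Fin 4 → E) (l : E),
  6 ≤ finrank ℂ ((ZA A0).map (evB p l)) → ∃ τ : ℂ ≃+* ℂ, (∀ a ∈ cl A0, τ a = a) ∧
    6 ≤ finrank ℂ ((ZA A1).map (evB (mP τ p) (mE τ l)))

/-- ITEM TYX: polynomials over the algebraic closure do not separate `l1` and `l2` (copy of
G4.TYX). -/
def TYX : Prop := ∀ (A : Set ℂ) (σ τ : ℂ ≃+* ℂ) (l1 l2 : E), (∀ a ∈ A, σ a = a) →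
  (∀ a ∈ cl A, τ a = a) → mE σ l1 = l1 → mE σ (mE τ l1) = l2 →
  ∀ H : MvPolynomial (Fin 6) ℂ, (∀ m, H.coeff m ∈ cl A) →
  (MvPolynomial.eval l1 H = 0 ↔ MvPolynomial.eval l2 H = 0)

/-- ITEM LAX: good derivations (copy of G4.LAX). -/
def LAX : Prop := ∀ (A0 A1 : Set ℂ), A0 ⊆ A1 → ∀ (p : Fin 4 → E) (l : E),
  finrank ℂ ((ZA A0).map (evB p l)) ≤ 6 → 6 ≤ finrank ℂ ((ZA A1).map (evB p l)) →
  ∃ S : Set D, (∀ δ ∈ S, δ ∈ ZA A1) ∧
    (∀ δ ∈ S, ∀ g ∈ cl (A0 ∪ entB p l), δ g ∈ cl (A0 ∪ entB p l)) ∧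
    (∀ g ∈ cl (A0 ∪ entB p l), (∀ δ ∈ S, δ g = 0) → g ∈ cl A0)

/-- ITEM LBX: linear disjointness (copy of G4.LBX). -/
def LBX : Prop := ∀ (A0 A1 : Set ℂ), A0 ⊆ A1 → ∀ (p : Fin 4 → E) (l : E),
  finrank ℂ ((ZA A0).map (evB p l)) ≤ 6 → 6 ≤ finrank ℂ ((ZA A1).map (evB p l)) →
  ∀ (n : ℕ) (θ g : Fin n → ℂ), (∀ i, θ i ∈ cl A1) → (∀ i, g i ∈ cl (A0 ∪ entB p l)) →
  (∀ c : Fin n → ℂ, (∀ i, c i ∈ cl A0) → ∑ i, c i * θ i = 0 → ∀ i, c i = 0) →
  ∑ i, θ i * g i = 0 → ∀ i, g i = 0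

/-- ITEM LCX (copy of G4.LCX). -/
def LCX : Prop := ∀ (A0 A1 : Set ℂ), A0 ⊆ A1 → ∀ (p : Fin 4 → E) (l : E),
  finrank ℂ ((ZA A0).map (evB p l)) ≤ 6 → 6 ≤ finrank ℂ ((ZA A1).map (evB p l)) → ∀ l1 : E,
  (∀ H : MvPolynomial (Fin 6) ℂ, (∀ m, H.coeff m ∈ cl A0) →
    MvPolynomial.eval l H = 0 → MvPolynomial.eval l1 H = 0) →
  ∀ F : MvPolynomial (Fin 6) ℂ, (∀ m, F.coeff m ∈ cl A1) →
    MvPolynomial.eval l F = 0 → MvPolynomial.eval l1 F = 0

/-- ITEM CTX: configurations are transported by automorphisms.  (model: G4/I_CTX.lean)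
Proof: apply `σ` to everything: `cov (mT σ s) (mE σ a) (mE σ x) = mE σ (cov s a x)`; for `ind` and
`Nd` transport back with `σ.symm`. -/
def CTX : Prop := ∀ (σ : ℂ ≃+* ℂ) s p l lam, Cfg s p l lam →
  Cfg (mT σ s) (mP σ p) (mE σ l) (mP σ lam)

/-- ITEM TAX: uniqueness of the type of one configuration, relative to a set `A`.
Proof: three steps, each one enlarges `A` by the new entries and keeps the old values of `σ`
(`G4.GLX`, i.e. `G4.GLX_pf G4.c_EXX`; import G4.Final or the item files).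
(1) the 24 coordinates of `p` are free: `ι = Fin 4 × Fin 6`, `R = ∅`.  Derivations: given
`u : Fin 4 → E` choose `w : E` with `w ⬝ᵥ p i = - l ⬝ᵥ u i` (`exists_solution ind`); `(u, w) ∈ TP p l`
(`mem_TP`), `d = 0`.
(2) `l` over `A ∪` entries of `p`: `ι = Fin 6`, `R = {p 0, .., p 3}` (`l ⬝ᵥ p i = 0`); given `u` with
`u ⬝ᵥ p i = 0` the pair `(0, u) ∈ TP p l`, `d = 0`; the derivation kills `A` and `p`.
(3) `lam i 1`, `lam i 2` over `A ∪` entries of `p, l`: `ι = Fin 4 × Fin 2`, `R = ∅`; given `u` take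
`x = 0`, `d i = ![0, u (i, 0), u (i, 1)]`; `lam i 0 = 1 = mu i 0`.
The same for `c, m, mu` over `σ' '' A`, where `σ' '' (A ∪ entries of p) = σ '' A ∪ entries of c`
after step 1, etc. -/
def TAX : Prop := ∀ (A : Set ℂ), A.Countable → ∀ (σ : ℂ ≃+* ℂ) (p : Fin 4 → E) (l : E)
  (lam : Fin 4 → La) (c : Fin 4 → E) (m : E) (mu : Fin 4 → La),
  LinearIndependent ℂ p → LinearIndependent ℂ c → (∀ i, l ⬝ᵥ p i = 0) → (∀ i, m ⬝ᵥ c i = 0) →
  (∀ i, lam i 0 = 1) → (∀ i, mu i 0 = 1) →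
  (∀ x ∈ TP p l, ∀ d : Fin 4 → La, (∀ i, d i 0 = 0) → ∃ δ ∈ ZA A, evC p l lam δ = (x, d)) →
  (∀ x ∈ TP c m, ∀ d : Fin 4 → La, (∀ i, d i 0 = 0) →
    ∃ δ ∈ ZA (σ '' A), evC c m mu δ = (x, d)) →
  ∃ σ' : ℂ ≃+* ℂ, (∀ a ∈ A, σ' a = σ a) ∧ mP σ' p = c ∧ mE σ' l = m ∧ mP σ' lam = mu

/-- ITEM CRX: explicit linear equations for `KB`.
Proof: the covector `v = l u • e_w - l w • e_u` (`e_u = Pi.single u 1`) is killed by `l`.  Conversely let `l u ≠ 0`;
for `l ⬝ᵥ v = 0`: `l u • v = ∑ w, v w • (l u • e_w - l w • e_u)`, so the equations for these vectors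
give the one for `v` (`tri_sum3`, `tri_smul3`); `tri t a (p i) (p i) = ∑ k, a k * tri t e_k ..`. -/
def CRX : Prop := ∀ (p : Fin 4 → E) (l : E) (lam : Fin 4 → La), l ≠ 0 → ∀ t : T3,
  (t ∈ KB p l lam ↔ t ∈ SymT ∧
  (∀ (i : Fin 4) (u w : Fin 6), tri t (lam i) (p i)
    (l u • Pi.single w 1 - l w • Pi.single u 1) = 0) ∧
  ∀ (i : Fin 4) (k : Fin 3), tri t (Pi.single k 1) (p i) (p i) = 0)

/-- ITEM TUX (`TAX → CRX → TUX`): uniqueness of the type.
Proof: `TAX` with `A = ∅`, `σ = refl` (`Trip.full1`) for `(p, l, lam) ↦ (c, m, mu)`; then `TAX` with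
`A = ` the entries of `p, l, lam` (`Trip.full2`; `ZC p l lam ≤ ZA A`), for
`(p', l', lam') ↦ (c', m', mu')`; then `G4.GLX` with `ι = Fin 3 × Fin 6 × Fin 6`, `A = ` the entries
of `p, l, lam, p', l', lam'`, rows `R`: symmetry `s k i j - s k j i = 0` and the equations of `CRX`
for both configurations (`tri_eq`: the coefficients are polynomials in the entries), derivations
from `Trip.full3`. -/
def TUX : Prop := ∀ s p l lam p' l' lam' t c m mu c' m' mu', Trip s p l lam p' l' lam' →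
  Trip t c m mu c' m' mu' →
  ∃ σ : ℂ ≃+* ℂ, mT σ s = t ∧ mP σ p = c ∧ mE σ l = m ∧ mP σ p' = c' ∧ mE σ l' = m'

/-! ## Part D: analysis -/

/-- the space of unknowns: `y i = (p i, lam i)` -/
abbrev Y : Type := Fin 4 → Fin 9 → ℂ

/-- the points -/
def pOf (y : Y) (i : Fin 4) : E := fun k => y i (Fin.castAdd 3 k)

/-- the parameters -/
def laOf (y : Y) (i : Fin 4) : La := fun k => y i (Fin.natAdd 6 k)

/-- the covector `s (lam i) (p i, .)` -/
def om (s : T3) (y : Y) (i : Fin 4) : E := cov s (laOf y i) (pOf y i)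

/-- the derivative of `om` -/
def dom (s : T3) (y dy : Y) (i : Fin 4) : E :=
  cov s (laOf dy i) (pOf y i) + cov s (laOf y i) (pOf dy i)

/-- the target space of the 30 equations -/
abbrev Z30 : Type := (Fin 4 → Fin 3 → ℂ) × (Fin 3 → E)

/-- the equations -/
def Phi (s : T3) (y : Y) : Z30 :=
  (fun i k => tri s (Pi.single k 1) (pOf y i) (pOf y i), fun j => om s y 0 - om s y j.succ)

/-- the partial derivative of `Phi` in `y` -/
def dPhi (s : T3) (y dy : Y) : Z30 :=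
  (fun i k => tri s (Pi.single k 1) (pOf dy i) (pOf y i) + tri s (Pi.single k 1) (pOf y i) (pOf dy i),
    fun j => dom s y dy 0 - dom s y dy j.succ)

/-- a good point: the configuration of `y` -/
def CfgY (s : T3) (y : Y) : Prop := Cfg s (pOf y) (om s y 0) (laOf y)

/-- ITEM SUX: the partial derivative is surjective at a configuration.  (model: G4/I_SUX.lean)
Proof: notation `p i, lam i`; `s` symmetric.  Given the target `(a, η)`.  The three covectors
`cov s e_k (p i)` are independent (`Nd.rank`), so `exists_solution` gives `w i` with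
`2 tri s e_k (p i) (w i) = a i k`.  So (subtract the image of `dy = (w, 0)`) we may assume `a = 0`.
KEY: for each `i` the linear map from `{(v, c) : tri s e (p i) v = 0 for all e}` (dimension 3 + 3) to
covectors, `(v, c) ↦ cov s (lam i) v + cov s c (p i)`, has range `{ω : ω ⬝ᵥ p i = 0}` (dimension 5):
the range is contained in it, and the kernel has dimension ≤ 1: by `Nd.ker` `v = x • p i`, and then
`c = - x lam i` by `Nd.rank`.
Now choose `ω0` with `ω0 ⬝ᵥ p 0 = 0`, `ω0 ⬝ᵥ p j.succ = η j ⬝ᵥ p j.succ` (`exists_solution`, `ind`),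
`ω_{j.succ} = ω0 - η j`. -/
def SUX : Prop := ∀ s ∈ SymT, ∀ y : Y, CfgY s y → ∀ z : Z30, ∃ dy : Y, dPhi s y dy = z

/-- ITEM STX: `Phi` is strictly differentiable, with the right partial derivative.
(model: G4/I_STX.lean) -/
def STX : Prop := ∀ (s : T3) (y : Y), ∃ g' : T3 × Y →L[ℂ] Z30,
  HasStrictFDerivAt (fun z : T3 × Y => Phi z.1 z.2) g' (s, y) ∧ ∀ dy, g' (0, dy) = dPhi s y dy

/-- ITEM JEX (linear algebra).  Proof: `ker L` has dimension 36 - 30 = 6; the 36 coordinate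
functionals span its dual, choose six which restrict to a basis of the dual of `ker L`.  Given
`(z, c)` take `y0` with `L y0 = z` and correct it by an element of `ker L`.
(model: G4/I_JEX.lean) -/
def JEX : Prop := ∀ L : Y →ₗ[ℂ] Z30, Function.Surjective L →
  ∃ J : Fin 6 → Fin 4 × Fin 9, ∀ (z : Z30) (c : Fin 6 → ℂ),
    ∃ y : Y, L y = z ∧ ∀ k, y (J k).1 (J k).2 = c k

/-- ITEM NOX: the node condition is open.  (model: G4/I_NOX.lean)
Proof: `p ≠ 0` (`Nd.rank`), say `p j ≠ 0`.  For `z = (s, p, a)` consider the linear map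
`M z : E × La → (Fin 3 → ℂ) × E × ℂ`, `M z (v, c) = (fun k => tri s e_k p v, cov s a v + cov s c p, v j)`.
(i) `Nd` implies `M z` injective: `v = x • p`, `v j = 0` gives `v = 0`, then `rank`.
(ii) injectivity is open: the images of the 9 basis vectors are linearly independent and depend
continuously on `z` (`isOpen_setOf_linearIndependent`).
(iii) if `M z'` is injective, `tri s' e p' p' = 0` for all `e`, `p' j ≠ 0`, then `Nd` for `z'`:
`rank` from the vectors `(0, c)`; for `ker` apply `M z'` to `(v - x • p', c + x • a')`,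
`x = v j / p' j`. -/
def NOX : Prop := ∀ (s : T3) (p : E) (a : La), Nd s p a →
  ∀ᶠ z : T3 × E × La in 𝓝 (s, p, a), (∀ e : La, tri z.1 e z.2.1 z.2.1 = 0) →
    Nd z.1 z.2.1 z.2.2

/-- ITEM COX (`NOX → COX`): near a configuration every solution of the equations is a configuration.
Proof: `q0` (linearity in the parameter) and `eq` are `Phi = 0` (with `l = om s y 0`); `ind` is open
(`isOpen_setOf_linearIndependent`), `l0` is open, `nd` by NOX; everything depends continuously on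
`(s, y)`.  (model: G4/I_COX.lean) -/
def COX : Prop := ∀ (s : T3) (y : Y), CfgY s y →
  ∀ᶠ z : T3 × Y in 𝓝 (s, y), Phi z.1 z.2 = 0 → CfgY z.1 z.2

/-- ITEM RYX: ranks of `y` and of `(p, l)`.
Proof: a derivation `δ ∈ ZA A` which kills `p i` and `l` kills `lam i` (`Cfg.dlam`, `ZA_ent`).  So
`δ ↦ (δ (x k))_k`, which is onto `ℂ^6`, factors through `evB p l` on `ZA A`.
(model: G4/I_RYX.lean) -/
def RYX : Prop := ∀ s ∈ SymT, ∀ y : Y, CfgY s y → ∀ A : Set ℂ, ent s ⊆ A →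
  ∀ J : Fin 6 → Fin 4 × Fin 9, Full (ZA A) (fun k => y (J k).1 (J k).2) →
  6 ≤ finrank ℂ ((ZA A).map (evB (pOf y) (om s y 0)))

/-- ITEM PTX (`SUX → STX → JEX → COX → RYX → PTX`, and `G4.IFX`, `G4.CHX`): generic configurations
nearby.  (model: G4/I_PTX.lean) -/
def PTX : Prop := ∀ s ∈ SymT, ∀ y : Y, CfgY s y → ∀ A : Set ℂ, A.Countable → ent s ⊆ A →
  ∀ O ∈ 𝓝 (om s y 0), ∃ y' : Y, CfgY s y' ∧ om s y' 0 ∈ O ∧
    6 ≤ finrank ℂ ((ZA A).map (evB (pOf y') (om s y' 0)))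

/-! ## Part E: existence -/

/-- ITEM XEX: one explicit example.
Data (checked by computer): the symmetric matrices with the entries
`s 0`: (0,5) = 1, (1,3) = 1, (2,3) = 1;
`s 1`: (0,2) = -2, (0,4) = -1, (1,5) = 1, (2,3) = -1, (2,4) = -1;
`s 2`: (0,1) = 1, (1,3) = -1, (2,5) = 1, (3,5) = 1
(and the symmetric ones, all other entries 0), `p i = Pi.single i 1` (`i = 0, .., 3`),
`lam = ![![1,0,0], ![0,1,0], ![0,0,1], ![1,1,1]]`, `l = Pi.single 5 1`.  It may help to prove first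
an explicit formula for the covector `cov s a x` (six bilinear polynomials in the entries of `a, x`);
then each `Nd` is a small linear system for `v 0, .., v 5, c 0, c 1, c 2`. -/
def XEX : Prop := ∃ s ∈ SymT, ∃ y : Y, CfgY s y

/-- ITEM XNX (`SUX → STX → COX → XNX`, and `G4.IFX`).  Proof: IFX with `X = T3`,
`g (s, y) = Phi s y`.  (model: G4/I_XNX.lean) -/
def XNX : Prop := ∀ s ∈ SymT, ∀ y : Y, CfgY s y → ∀ᶠ s' in 𝓝 s, s' ∈ SymT → ∃ y' : Y, CfgY s' y'

/-- ITEM XGX (uses `G4.CHX`).  Proof: a symmetric net is determined by its 63 entries `s k i j`,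
`i ≤ j`; choose them near the given ones by CHX (`A = ∅`, `n` = number of these triples,
`Fintype.equivFin`), extend symmetrically.  `Full (ZA ∅)` gives `Gen`.  (model: G4/I_XGX.lean) -/
def XGX : Prop := ∀ s ∈ SymT, ∀ O ∈ 𝓝 s, ∃ s' ∈ O, Gen s'

/-- ITEM XAX (uses `G4.GLX`).  Proof: GLX with `A = ∅`, `ι = Fin 3 × Fin 6 × Fin 6`, `R` = symmetry
equations.  (model: G4/I_XAX.lean) -/
def XAX : Prop := ∀ s t, Gen s → Gen t → ∃ σ : ℂ ≃+* ℂ, mT σ s = t

end Pool.Agent.Work.MP_ea8963_ag.G5
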