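import Pool.Agent.Work.MP_ea8963_ag.G5.Stmts3
import Pool.Agent.Work.MP_ea8963_ag.G5.Stmts2

/-!
Block [ea8963 G5]: assembly, first part.  Captain helper99.
One configuration (`OPX`) and two independent configurations (`TRX`) from the items.
-/

set_option linter.style.longLine false
set_option linter.unusedVariables false

noncomputable section

open Module Topology
open Pool.Agent.Work.MP_ea8963_ag.G4 (D ZA mem_ZA Full cl rn rn_prod rn_le finrank_map_mono
  finrank_map_prod_swap pair d_two ZA_mono)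

namespace Pool.Agent.Work.MP_ea8963_ag.G5

/-! ### One configuration -/

lemma Nd.scale {s : T3} {p : E} {a : La} (h : Nd s p a) {x : ℂ} (hx : x ≠ 0) :
    Nd s p (x • a) := by
  refine ⟨h.rank, fun v c h1 h2 => ?_⟩
  refine h.ker v (x⁻¹ • c) h1 ?_
  have h3 := congrArg (fun z => x⁻¹ • z) h2
  simp only [smul_add, smul_zero, cov_smul_left, smul_smul, inv_mul_cancel₀ hx, one_smul] at h3
  rw [cov_smul_left]
  exact h3

theorem OPX_pf (hLP : LPX) (hFL : FLX) (hGP : GPX) (hNS : NSX) (hCF : CFX) (hCN : CNX) : OPX := by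
  intro s hg p l lam hc hrk
  have hprop := hLP s hg p l lam hc hrk
  obtain ⟨h6, hfull, hK1⟩ := hFL s hg p l lam hc hrk hprop
  have gp := hGP p l lam hprop hfull
  obtain ⟨h0, hfB, hfS, hr⟩ := hNS s hg.1 p l lam hc hprop hfull hK1
  set lam1 : Fin 4 → La := fun i => (lam i 0)⁻¹ • lam i with hlam1
  have gp1 : GP lam1 := by
    intro i j k h1 h2 h3
    simp only [hlam1, dt_smul1, dt_smul2, dt_smul3]
    have := gp i j k h1 h2 h3
    have hi := inv_ne_zero (h0 i)
    have hj := inv_ne_zero (h0 j)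
    have hk := inv_ne_zero (h0 k)
    simp only [ne_eq, mul_eq_zero, not_or]
    tauto
  have heq : ∀ i, cov s (lam1 i) (p i) = (lam i 0)⁻¹ • l := by
    intro i
    simp only [hlam1]
    rw [cov_smul_left, hc.eq]
  have hsK : s ∈ KB p l lam1 := by
    refine ⟨hg.1, fun i v hv => ?_, hc.q0⟩
    rw [tri, heq, smul_dotProduct, hv, smul_zero]
  have cf := hCF s hg.1 p l lam1 hc.ind gp1 hc.lp hsK hfS
  have con := hCN s hg.1 p lam1 gp1 hc.q0 cf
  refine ⟨lam1, fun i => (lam i 0)⁻¹, ?_⟩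
  exact
    { q0 := hc.q0
      eq := heq
      m0 := fun i => inv_ne_zero (h0 i)
      nrm := fun i => by
        simp only [hlam1, Pi.smul_apply, smul_eq_mul]
        exact inv_mul_cancel₀ (h0 i)
      ind := hc.ind
      nd := fun i => (hc.nd i).scale (inv_ne_zero (h0 i))
      l0 := hc.l0
      gp := gp1
      rk6 := h6
      rkS := hr
      fullB := hfB
      fullS := hfS
      cf := cf
      con := con }

/-! ### Two configurations -/

lemma rk_swap {s : T3} {p : Fin 4 → E} {l : E} {lam : Fin 4 → La} {m : Fin 4 → ℂ}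
    {p' : Fin 4 → E} {l' : E} {lam' : Fin 4 → La} {m' : Fin 4 → ℂ} (o : Opt s p l lam m)
    (o' : Opt s p' l' lam' m') (h : 6 ≤ finrank ℂ ((ZS s ⊓ ZB p l).map (evB p' l'))) :
    6 ≤ finrank ℂ ((ZS s ⊓ ZB p' l').map (evB p l)) := by
  have e : finrank ℂ ((ZS s).map (evB p l)) + finrank ℂ ((ZS s ⊓ ZB p l).map (evB p' l')) =
      finrank ℂ ((ZS s).map (evB p' l')) + finrank ℂ ((ZS s ⊓ ZB p' l').map (evB p l)) :=
    rn (evB p l) (evB p' l') (ZS s)
  rw [o.rk6, o'.rk6] at e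
  omega

/-- the second equation of the span of the nodes -/
lemma exists_h {p : Fin 4 → E} (hp : LinearIndependent ℂ p) (l : E) :
    ∃ h : E, (∀ i, h ⬝ᵥ p i = 0) ∧ ∀ c : ℂ, h ≠ c • l := by
  by_contra hcon
  push Not at hcon
  have h1 := finrank_Ann hp
  have h2 : Ann p ≤ Submodule.span ℂ {l} := by
    intro x hx
    obtain ⟨c, hc⟩ := hcon x (fun i => by rw [dotProduct_comm]; exact hx i)
    rw [hc]
    exact Submodule.smul_mem _ _ (Submodule.mem_span_singleton_self l)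
  have h3 := Submodule.finrank_mono h2
  have h4 : finrank ℂ (Submodule.span ℂ {l}) ≤ 1 := by
    have := finrank_span_le_card (R := ℂ) ({l} : Set E)
    simpa using this
  have h5 : finrank ℂ (Ann p) ≤ 1 := h3.trans h4
  omega

/-- four independent forms -/
lemma fi_of {p : Fin 4 → E} {l h : E} {p' : Fin 4 → E} {l' h' : E} (l0 : l ≠ 0) (l0' : l' ≠ 0)
    (lp : ∀ i, l ⬝ᵥ p i = 0) (lp' : ∀ i, l' ⬝ᵥ p' i = 0)
    (hp : ∀ i, h ⬝ᵥ p i = 0) (hp' : ∀ i, h' ⬝ᵥ p' i = 0) (hl : ∀ c : ℂ, h ≠ c • l)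
    (hl' : ∀ c : ℂ, h' ≠ c • l')
    (nn : ∀ f : E, f ≠ 0 → (∀ i, f ⬝ᵥ p i = 0) → (∀ i, f ⬝ᵥ p' i = 0) → False) :
    LinearIndependent ℂ ![l, h, l', h'] := by
  rw [Fintype.linearIndependent_iff]
  intro g hg
  simp only [Fin.sum_univ_four, Matrix.cons_val_zero, Matrix.cons_val_one, Matrix.cons_val] at hg
  have key : ∀ (a b : ℂ) (x y : E), x ≠ 0 → (∀ c : ℂ, y ≠ c • x) → a • x + b • y = 0 →
      a = 0 ∧ b = 0 := by
    intro a b x y hx hy hab
    have hb : b = 0 := by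
      by_contra hb
      apply hy (-(b⁻¹ * a))
      have h1 := congrArg (fun z => b⁻¹ • z) hab
      simp only [smul_add, smul_smul, smul_zero, inv_mul_cancel₀ hb, one_smul] at h1
      rw [neg_smul]
      exact eq_neg_of_add_eq_zero_right h1
    rw [hb, zero_smul, add_zero] at hab
    exact ⟨(smul_eq_zero.1 hab).resolve_right hx, hb⟩
  have hf : g 0 • l + g 1 • h = 0 := by
    by_contra hne
    apply nn _ hne
    · intro i
      rw [add_dotProduct, smul_dotProduct, smul_dotProduct, lp, hp, smul_zero, smul_zero, add_zero]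
    · intro i
      have e : g 0 • l + g 1 • h = -(g 2 • l' + g 3 • h') := by
        rw [eq_neg_iff_add_eq_zero, ← hg]; abel
      rw [e, neg_dotProduct, add_dotProduct, smul_dotProduct, smul_dotProduct, lp', hp', smul_zero,
        smul_zero, add_zero, neg_zero]
  have hf' : g 2 • l' + g 3 • h' = 0 := by
    have e : g 0 • l + g 1 • h + (g 2 • l' + g 3 • h') = 0 := by rw [← hg]; abel
    rwa [hf, zero_add] at e
  obtain ⟨a0, a1⟩ := key _ _ _ _ l0 hl hf
  obtain ⟨a2, a3⟩ := key _ _ _ _ l0' hl' hf'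
  intro i
  fin_cases i
  · exact a0
  · exact a1
  · exact a2
  · exact a3

lemma two_of_opt (hTW : TWX) (hNN : NNX) {s : T3} (hs : Gen s) {p : Fin 4 → E} {l : E}
    {lam : Fin 4 → La} {m : Fin 4 → ℂ} {p' : Fin 4 → E} {l' : E} {lam' : Fin 4 → La}
    {m' : Fin 4 → ℂ} (o : Opt s p l lam m) (o' : Opt s p' l' lam' m')
    (rk : 6 ≤ finrank ℂ ((ZS s ⊓ ZB p l).map (evB p' l'))) :
    ∃ h h', Two s p l lam m p' l' lam' m' h h' := by
  have rk' := rk_swap o o' rk
  have t := hTW s hs.1 p l lam m p' l' lam' m' o o' rk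
  have t' := hTW s hs.1 p' l' lam' m' p l lam m o' o rk'
  obtain ⟨h, hp, hl⟩ := exists_h o.ind l
  obtain ⟨h', hp', hl'⟩ := exists_h o'.ind l'
  refine ⟨h, h', ⟨hs, o, o', rk, rk', t, t', hp, hp', ?_⟩⟩
  exact fi_of o.l0 o'.l0 o.lp o'.lp hp hp' hl hl'
    (fun f hf h1 h2 => hNN s hs p l lam m p' l' lam' m' o o' rk t t' f hf h1 h2)

lemma Rel_swap {p : Fin 4 → E} {l : E} {lam : Fin 4 → La} {p' : Fin 4 → E} {l' : E}
    {lam' : Fin 4 → La} {x : XX × XX} (hx : x ∈ RelM p l lam p' l' lam') :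
    (x.2, x.1) ∈ RelM p' l' lam' p l lam := by
  obtain ⟨h1, h2, h3⟩ := mem_RelM.1 hx
  refine mem_RelM.2 ⟨h2, h1, fun t ht => ?_⟩
  have := h3 t ht
  linear_combination this

lemma val_Tri {p : Fin 4 → E} {lam : Fin 4 → La} {x : XX} (hx : x ∈ Tri p lam) (t : T3) :
    val p lam t x = 0 := by
  obtain ⟨c, rfl⟩ := hx
  simp only [val]
  refine Finset.sum_eq_zero fun i _ => ?_
  rw [tri_smul3, tri_neg1, tri_smul1]
  ring

lemma finrank_Tri (p : Fin 4 → E) (lam : Fin 4 → La) : finrank ℂ (Tri p lam) ≤ 4 := by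
  let f : (Fin 4 → ℂ) →ₗ[ℂ] XX :=
    { toFun := fun c => (fun i => c i • p i, fun i => -(c i • lam i))
      map_add' := by
        intro x y
        ext i j <;> simp <;> ring
      map_smul' := by
        intro a x
        ext i j <;> simp <;> ring }
  have h1 : Tri p lam ≤ LinearMap.range f := by
    rintro x ⟨c, rfl⟩
    exact ⟨c, rfl⟩
  have h2 := Submodule.finrank_mono h1
  have h3 := LinearMap.finrank_range_le f
  simp at h3
  omega

lemma Opt.lam_ne {s : T3} {p : Fin 4 → E} {l : E} {lam : Fin 4 → La} {m : Fin 4 → ℂ}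
    (h : Opt s p l lam m) (i : Fin 4) : lam i ≠ 0 := by
  intro h0
  have := h.nrm i
  rw [h0] at this
  simp at this

lemma Opt.lam_prop {s : T3} {p : Fin 4 → E} {l : E} {lam : Fin 4 → La} {m : Fin 4 → ℂ}
    (h : Opt s p l lam m) (i k : Fin 4) (hik : i ≠ k) (c : ℂ) : lam i ≠ c • lam k := by
  intro h0
  obtain ⟨j, hj1, hj2⟩ : ∃ j : Fin 4, j ≠ i ∧ j ≠ k := by
    fin_cases i <;> fin_cases k <;> first | exact absurd rfl hik | decide
  apply h.gp i j k hj1.symm hik hj2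
  rw [h0, dt_smul1, dt_self13, mul_zero]

/-- relations without `h`-part are trivial -/
lemma rel_triv (hDK : DKB) (hCLX : CLX) (hCLY : CLY) (hGO : GOX) {s : T3} {p : Fin 4 → E} {l : E}
    {lam : Fin 4 → La} {m : Fin 4 → ℂ} {p' : Fin 4 → E} {l' : E} {lam' : Fin 4 → La}
    {m' : Fin 4 → ℂ} {h h' : E} (H : Two s p l lam m p' l' lam' m' h h')
    {x : XX × XX} (hx : x ∈ RelM p l lam p' l' lam') (h1 : ∀ i, h ⬝ᵥ x.1.1 i = 0)
    (h2 : ∀ i, h' ⬝ᵥ x.2.1 i = 0) : x.1 ∈ Tri p lam ∧ x.2 ∈ Tri p' lam' := by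
  have am := hCLX s p l lam m p' l' lam' m' h h' H
  have am' := hCLX s p' l' lam' m' p l lam m h' h H.swap
  obtain ⟨x1, x2, x3⟩ := mem_RelM.1 hx
  have go := hGO s p l lam m p' l' lam' m' h h' H am am' x hx h1 h2
  have go' := hGO s p' l' lam' m' p l lam m h' h H.swap am' am (x.2, x.1) (Rel_swap hx) h2 h1
  have dk : x.2 ∈ Tri p' lam' → x.1 ∈ Tri p lam ∧ x.2 ∈ Tri p' lam' := by
    intro hT
    refine ⟨?_, hT⟩
    refine (hDK p l lam H.o.ind H.o.l0 H.o.lp H.o.lam_ne H.o.lam_prop).2 x.1 x1 fun t ht => ?_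
    have := x3 t ht
    rwa [val_Tri hT, add_zero] at this
  have dk' : x.1 ∈ Tri p lam → x.1 ∈ Tri p lam ∧ x.2 ∈ Tri p' lam' := by
    intro hT
    refine ⟨hT, ?_⟩
    refine (hDK p' l' lam' H.o'.ind H.o'.l0 H.o'.lp H.o'.lam_ne H.o'.lam_prop).2 x.2 x2
      fun t ht => ?_
    have := x3 t ht
    rwa [val_Tri hT, zero_add] at this
  rcases go with hT | ⟨c, d, hcd, hz⟩
  · exact dk hT
  rcases go' with hT | ⟨i, k, hik, hz'⟩
  · exact dk' hT
  exact (hCLY s p l lam m p' l' lam' m' h h' H i k c d hik hcd hz' hz).elim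

/-- all relations are trivial -/
lemma rel_all (hN63 : N63) (hDK : DKB) (hCLX : CLX) (hCLY : CLY) (hNC : NCY) (hHH : HHX)
    (hQX : QXX) (hGO : GOX) (hAL : ALX) (hRP : RPX) {s : T3} {p : Fin 4 → E} {l : E}
    {lam : Fin 4 → La} {m : Fin 4 → ℂ} {p' : Fin 4 → E} {l' : E} {lam' : Fin 4 → La}
    {m' : Fin 4 → ℂ} {h h' : E} (H : Two s p l lam m p' l' lam' m' h h')
    {x : XX × XX} (hx : x ∈ RelM p l lam p' l' lam') : x.1 ∈ Tri p lam ∧ x.2 ∈ Tri p' lam' := by
  have h2 : ∀ i, h' ⬝ᵥ x.2.1 i = 0 := by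
    by_contra hcon
    push Not at hcon
    have am' := hCLX s p' l' lam' m' p l lam m h' h H.swap
    have al := hAL s p l lam m p' l' lam' m' h h' H x hx hcon
    have qx := hQX s p l lam m p' l' lam' m' h h' H x hx
    have rp := hRP s p l lam m p' l' lam' m' h h' H
      (fun y hy y1 y2 => (rel_triv hDK hCLX hCLY hGO H hy y1 y2).1)
      (QQ p l lam p' l' lam' x.2) (fun t ht => ht.1)
    have nc := hNC p' l' lam' h' l h H.swap.side am'
    rw [PP_comm] at nc
    have le : QQ p l lam p' l' lam' x.2 ⊓ KU (PP l h l' h') ≤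
        QQ p l lam p' l' lam' x.2 ⊓ KU (Ann ![l', h']) := by
      rintro t ⟨t1, t2⟩
      exact ⟨t1, nc ⟨t1.1.2, t2⟩⟩
    have le' := Submodule.finrank_mono le
    unfold N63 at hN63
    omega
  exact rel_triv hDK hCLX hCLY hGO H hx (hHH s p l lam m p' l' lam' m' h h' H x hx h2) h2

lemma relM_le (hN63 : N63) (hDK : DKB) (hCLX : CLX) (hCLY : CLY) (hNC : NCY) (hHH : HHX)
    (hQX : QXX) (hGO : GOX) (hAL : ALX) (hRP : RPX) {s : T3} {p : Fin 4 → E} {l : E}
    {lam : Fin 4 → La} {m : Fin 4 → ℂ} {p' : Fin 4 → E} {l' : E} {lam' : Fin 4 → La}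
    {m' : Fin 4 → ℂ} {h h' : E} (H : Two s p l lam m p' l' lam' m' h h') :
    finrank ℂ (RelM p l lam p' l' lam') ≤ 8 := by
  have h1 : RelM p l lam p' l' lam' ≤ (Tri p lam).prod (Tri p' lam') := fun x hx =>
    rel_all hN63 hDK hCLX hCLY hNC hHH hQX hGO hAL hRP H hx
  have h2 := Submodule.finrank_mono h1
  have h3 := finrank_Tri p lam
  have h4 := finrank_Tri p' lam'
  have h5 : finrank ℂ ((Tri p lam).prod (Tri p' lam')) ≤
      finrank ℂ (Tri p lam) + finrank ℂ (Tri p' lam') := by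
    have e : (Tri p lam).prod (Tri p' lam') ≤ (Tri p lam).map (LinearMap.inl ℂ XX XX) ⊔
        (Tri p' lam').map (LinearMap.inr ℂ XX XX) := by
      rintro ⟨a, b⟩ ⟨ha, hb⟩
      have e1 : ((a, b) : XX × XX) = LinearMap.inl ℂ XX XX a + LinearMap.inr ℂ XX XX b := by
        simp
      rw [e1]
      exact Submodule.add_mem_sup ⟨a, ha, rfl⟩ ⟨b, hb, rfl⟩
    calc _ ≤ _ := Submodule.finrank_mono e
      _ ≤ _ := Submodule.finrank_add_le_finrank_add_finrank _ _
      _ ≤ _ := add_le_add (Submodule.finrank_map_le _ _) (Submodule.finrank_map_le _ _)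
  omega

theorem TRX_pf (hN63 : N63) (hDK : DKB) (hTW : TWX) (hNN : NNX) (hCLX : CLX) (hCLY : CLY)
    (hNC : NCY) (hHH : HHX) (hQX : QXX) (hGO : GOX) (hAL : ALX) (hRP : RPX) (hFT : FTX) :
    TRX := by
  intro s hg p l lam m p' l' lam' m' o o' rk
  obtain ⟨h, h', H⟩ := two_of_opt hTW hNN hg o o' rk
  have h8 := relM_le hN63 hDK hCLX hCLY hNC hHH hQX hGO hAL hRP H
  obtain ⟨f2, f3⟩ := hFT s p l lam m p' l' lam' m' h h' H h8
  exact
    { sK := ⟨o.mem_KB hg.1, o'.mem_KB hg.1⟩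
      lp := o.lp
      lp' := o'.lp
      ind := o.ind
      ind' := o'.ind
      nrm := o.nrm
      nrm' := o'.nrm
      l0 := o.l0
      l0' := o'.l0
      full1 := o.fullB
      full2 := f2
      full3 := f3 }

end Pool.Agent.Work.MP_ea8963_ag.G5
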