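import Pool.Agent.Work.MP_ea8963_ag.G5.Stmts2
import Pool.Agent.Work.MP_ea8963_ag.G4.Stmts2

/-!
Block [ea8963 G5]: assembly of the second half (from the statements of the items).  helper56.
-/

set_option linter.style.longLine false
set_option linter.unusedVariables false

noncomputable section

open Module Topology
open Pool.Agent.Work.MP_ea8963_ag.G4 (D ZA mem_ZA Full cl rn rn_prod rn_le finrank_map_mono
  finrank_map_prod_swap pair d_two ZA_mono)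

namespace Pool.Agent.Work.MP_ea8963_ag.G5

lemma CfgY.cfg {s : T3} {y : Y} (h : CfgY s y) : Cfg s (pOf y) (om s y 0) (laOf y) := h

lemma ent_countable (s : T3) : (ent s).Countable := by
  have : ent s = Set.range (fun x : Fin 3 × Fin 6 × Fin 6 => s x.1 x.2.1 x.2.2) := by
    ext z
    constructor
    · rintro ⟨i, j, k, rfl⟩
      exact ⟨(i, j, k), rfl⟩
    · rintro ⟨⟨i, j, k⟩, rfl⟩
      exact ⟨i, j, k, rfl⟩
  rw [this]
  exact Set.countable_range _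

lemma entB_countable (p : Fin 4 → E) (l : E) : (entB p l).Countable := by
  have : entB p l = Set.range (fun x : Fin 4 × Fin 6 => p x.1 x.2) ∪ Set.range l := by
    ext z
    constructor
    · rintro (⟨i, j, rfl⟩ | ⟨j, rfl⟩)
      · exact Or.inl ⟨(i, j), rfl⟩
      · exact Or.inr ⟨j, rfl⟩
    · rintro (⟨⟨i, j⟩, rfl⟩ | ⟨j, rfl⟩)
      · exact Or.inl ⟨i, j, rfl⟩
      · exact Or.inr ⟨j, rfl⟩
  rw [this]
  exact (Set.countable_range _).union (Set.countable_range _)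

lemma ZS_le_ZA (s : T3) : ZS s ≤ ZA (ent s) := by
  intro δ hδ a ha
  obtain ⟨i, j, k, rfl⟩ := ha
  rw [mem_ZS] at hδ
  exact congrFun (congrFun (congrFun hδ i) j) k

/-- a generic configuration where `F` and `G` do not vanish -/
theorem irr (hOP : OPX) (hTR : TRX) (hIC : ICX) (hTU : TUX) (hTY : TYX) (hLC : LCX)
    (hCT : CTX) (hPT : PTX) (hFF : G4.FFX) {s : T3} (hs : Gen s) (F G : MvPolynomial (Fin 6) ℂ)
    {y1 y2 : Y} (h1 : CfgY s y1) (h2 : CfgY s y2)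
    (hF : MvPolynomial.eval (om s y1 0) F ≠ 0) (hG : MvPolynomial.eval (om s y2 0) G ≠ 0) :
    ∃ (p : Fin 4 → E) (l : E) (lam : Fin 4 → La) (m : Fin 4 → ℂ), Opt s p l lam m ∧
      MvPolynomial.eval l F ≠ 0 ∧ MvPolynomial.eval l G ≠ 0 := by
  -- the base fields
  set A0 : Set ℂ := ent s with hA0
  set A1 : Set ℂ := ent s ∪ Set.range (fun m => F.coeff m) with hA1
  have hA01 : A0 ⊆ A1 := Set.subset_union_left
  have hA1c : A1.Countable := (ent_countable s).union (Set.countable_range _)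
  -- first perturbation
  have hcont : ∀ H : MvPolynomial (Fin 6) ℂ, Continuous fun x : E => MvPolynomial.eval x H :=
    fun H => MvPolynomial.continuous_eval H
  obtain ⟨y1', c1, hO1, r1⟩ := hPT s hs.1 y1 h1 A1 hA1c Set.subset_union_left
    {x | MvPolynomial.eval x F ≠ 0} ((isOpen_ne.preimage (hcont F)).mem_nhds hF)
  set p1 := pOf y1' with hp1
  set l1 := om s y1' 0 with hl1
  set A2 : Set ℂ := A1 ∪ entB p1 l1 with hA2
  have hA12 : A1 ⊆ A2 := Set.subset_union_left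
  have hA2c : A2.Countable := hA1c.union (entB_countable _ _)
  obtain ⟨y2', c2, hO2, r2⟩ := hPT s hs.1 y2 h2 A2 hA2c (hA01.trans hA12)
    {x | MvPolynomial.eval x G ≠ 0} ((isOpen_ne.preimage (hcont G)).mem_nhds hG)
  set p2 := pOf y2' with hp2
  set l2 := om s y2' 0 with hl2
  -- independent conjugate of the first point
  obtain ⟨τ, hτ, r3⟩ := hIC A1 A2 hA12 hA2c p1 l1 r1
  have hτs : mT τ s = s := by
    ext i j k
    refine hτ _ ((hFF A1).1 ?_)
    exact Or.inl ⟨i, j, k, rfl⟩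
  have c3 := hCT τ s p1 l1 _ c1.cfg
  rw [hτs] at c3
  have hz1 : ZA A1 ≤ ZS s := ZA_ent Set.subset_union_left
  have hz2 : ZA A2 ≤ ZS s ⊓ ZB p1 l1 :=
    le_inf (ZA_ent (hA01.trans hA12)) (ZA_entB Set.subset_union_right)
  have q1 : 6 ≤ finrank ℂ ((ZS s).map (evB p1 l1)) :=
    r1.trans (finrank_map_mono _ hz1)
  have q2 : 6 ≤ finrank ℂ ((ZS s ⊓ ZB p1 l1).map (evB p2 l2)) :=
    r2.trans (finrank_map_mono _ hz2)
  have q3 : 6 ≤ finrank ℂ ((ZS s ⊓ ZB p1 l1).map (evB (mP τ p1) (mE τ l1))) :=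
    r3.trans (finrank_map_mono _ hz2)
  have q2' : 6 ≤ finrank ℂ ((ZS s).map (evB p2 l2)) :=
    q2.trans (finrank_map_mono _ inf_le_left)
  have q3' : 6 ≤ finrank ℂ ((ZS s).map (evB (mP τ p1) (mE τ l1))) :=
    q3.trans (finrank_map_mono _ inf_le_left)
  obtain ⟨la1, m1, o1⟩ := hOP s hs p1 l1 _ c1.cfg q1
  obtain ⟨la2, m2, o2⟩ := hOP s hs p2 l2 _ c2.cfg q2'
  obtain ⟨la3, m3, o3⟩ := hOP s hs _ _ _ c3 q3'
  have T2 := hTR s hs p1 l1 la1 m1 p2 l2 la2 m2 o1 o2 q2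
  have T3' := hTR s hs p1 l1 la1 m1 (mP τ p1) (mE τ l1) la3 m3 o1 o3 q3
  obtain ⟨σ, e1, e2, e3, e4, e5⟩ := hTU s p1 l1 la1 (mP τ p1) (mE τ l1) la3 s p1 l1 la1 p2 l2 la2
    T3' T2
  have hσ : ∀ a ∈ A0, σ a = a := by
    rintro a ⟨i, j, k, rfl⟩
    exact congrFun (congrFun (congrFun e1 i) j) k
  have hclm : cl A0 ⊆ cl A1 := fun z hz δ hδ => hz δ (ZA_mono hA01 hδ)
  have hty := hTY A0 σ τ l1 l2 hσ (fun a ha => hτ a (hclm ha)) e3 e5
  refine ⟨p2, l2, _, _, o2, ?_, hO2⟩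
  intro h0
  refine hO1 (hLC A0 A1 hA01 p2 l2 ?_ ?_ l1 (fun H hH h => ((hty H hH).2 h)) F ?_ h0)
  · calc finrank ℂ ((ZA A0).map (evB p2 l2)) ≤ finrank ℂ ((ZS s).map (evB p2 l2)) :=
        finrank_map_mono _ (ZA_ent subset_rfl)
      _ ≤ 6 := o2.rk6.le
  · exact r2.trans (finrank_map_mono _ (ZA_mono hA12))
  · intro m
    exact (hFF A1).1 (Or.inr ⟨m, rfl⟩)

/-- pack a configuration -/
def toY (p : Fin 4 → E) (lam : Fin 4 → La) : Y := fun i => Fin.append (p i) (lam i)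

lemma pOf_toY (p : Fin 4 → E) (lam : Fin 4 → La) : pOf (toY p lam) = p := by
  ext i k
  exact Fin.append_left (p i) (lam i) k

lemma laOf_toY (p : Fin 4 → E) (lam : Fin 4 → La) : laOf (toY p lam) = lam := by
  ext i k
  exact Fin.append_right (p i) (lam i) k

lemma om_toY {s : T3} {p : Fin 4 → E} {l : E} {lam : Fin 4 → La} (h : Cfg s p l lam)
    (i : Fin 4) : om s (toY p lam) i = l := by
  rw [om, pOf_toY, laOf_toY]
  exact h.eq i

lemma Cfg.toCfgY {s : T3} {p : Fin 4 → E} {l : E} {lam : Fin 4 → La} (h : Cfg s p l lam) :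
    CfgY s (toY p lam) := by
  rw [CfgY, om_toY h, pOf_toY, laOf_toY]
  exact h

/-- existence of a configuration of rank 6 -/
theorem exi (hOP : OPX) (hCT : CTX) (hPT : PTX) (hXE : XEX) (hXN : XNX) (hXG : XGX) (hXA : XAX)
    {s : T3} (hs : Gen s) :
    ∃ (p : Fin 4 → E) (l : E) (lam : Fin 4 → La) (m : Fin 4 → ℂ), Opt s p l lam m := by
  obtain ⟨s0, hs0, y0, h0⟩ := hXE
  have hev := hXN s0 hs0 y0 h0
  obtain ⟨s1, hs1, hg1⟩ := hXG s0 hs0 _ hev
  obtain ⟨y1, h1⟩ := hs1 hg1.1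
  obtain ⟨σ, hσ⟩ := hXA s1 s hg1 hs
  have h2 := hCT σ s1 _ _ _ h1.cfg
  rw [hσ] at h2
  obtain ⟨y2, h3, -, r⟩ := hPT s hs.1 _ h2.toCfgY (ent s) (ent_countable s) subset_rfl
    Set.univ Filter.univ_mem
  obtain ⟨la, m, o⟩ := hOP s hs _ _ _ h3.cfg (r.trans (finrank_map_mono _ (ZA_ent subset_rfl)))
  exact ⟨_, _, la, m, o⟩

end Pool.Agent.Work.MP_ea8963_ag.G5
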