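import Pool.Agent.Work.MP_ea8963_ag.G4.Defs

/-!
Block [ea8963 G5]: the Severi curve of a very general K3 surface of genus 5 (an intersection of
three quadrics in P^5) is irreducible.  Basic definitions and calculus.  Captain helper99.
The field theory (derivations, `ZA`, `Full`, `cl`, the counting lemmas `rn`, `rn_le`, `pair`) is
taken from block G4.
-/

set_option linter.style.longLine false
set_option linter.unnecessarySeqFocus false
set_option linter.unusedSectionVars false

noncomputable section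

open Module
open Pool.Agent.Work.MP_ea8963_ag.G4 (D ZA mem_ZA Full cl rn rn_prod rn_le finrank_map_mono
  finrank_map_prod_swap pair d_two)

namespace Pool.Agent.Work.MP_ea8963_ag.G5

/-- vectors and covectors -/
abbrev E : Type := Fin 6 → ℂ

/-- points of the net (parameters) -/
abbrev La : Type := Fin 3 → ℂ

/-- nets of bilinear forms: three 6 by 6 matrices -/
abbrev T3 : Type := Fin 3 → Fin 6 → Fin 6 → ℂ

/-- the covector `s (a) (x, .)` -/
def cov (s : T3) (a : La) (x : E) : E := fun j => ∑ k, ∑ i, a k * x i * s k i j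

/-- the value `s (a) (x, y)` -/
def tri (s : T3) (a : La) (x y : E) : ℂ := cov s a x ⬝ᵥ y

/-- nets of symmetric forms -/
def SymT : Submodule ℂ T3 where
  carrier := {s | ∀ k i j, s k i j = s k j i}
  zero_mem' := by intro k i j; rfl
  add_mem' := by
    intro s t hs ht k i j
    simp only [Pi.add_apply]; rw [hs k i j, ht k i j]
  smul_mem' := by
    intro c s hs k i j
    simp only [Pi.smul_apply]; rw [hs k i j]

/-- combination of three covectors -/
def con (r : Fin 3 → E) (a : La) : E := ∑ k, a k • r k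

/-- the net `a ↦ f ⊙ con r a` -/
def pr (f : E) (r : Fin 3 → E) : T3 := fun k i j => f i * r k j + r k i * f j

/-- test nets `a ↦ (c ⬝ᵥ a) f ⊙ g` -/
def sp (c : La) (f g : E) : T3 := pr f (fun k => c k • g)

/-! ### the forms -/

lemma tri_eq (s : T3) (a : La) (x y : E) :
    tri s a x y = ∑ j, ∑ k, ∑ i, a k * x i * s k i j * y j := by
  simp only [tri, cov, dotProduct, Finset.sum_mul]

lemma cov_add_tensor (s t : T3) (a : La) (x : E) : cov (s + t) a x = cov s a x + cov t a x := by
  ext j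
  simp only [cov, Pi.add_apply, ← Finset.sum_add_distrib]
  refine Finset.sum_congr rfl fun i _ => Finset.sum_congr rfl fun j _ => ?_
  ring
lemma cov_smul_tensor (c : ℂ) (s : T3) (a : La) (x : E) : cov (c • s) a x = c • cov s a x := by
  ext k
  simp only [cov, Pi.smul_apply, smul_eq_mul, Finset.mul_sum]
  refine Finset.sum_congr rfl fun i _ => Finset.sum_congr rfl fun j _ => ?_
  ring
lemma cov_add_left (s : T3) (a a' : La) (x : E) : cov s (a + a') x = cov s a x + cov s a' x := by
  ext k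
  simp only [cov, Pi.add_apply, ← Finset.sum_add_distrib]
  refine Finset.sum_congr rfl fun i _ => Finset.sum_congr rfl fun j _ => ?_
  ring
lemma cov_add_right (s : T3) (a : La) (x y : E) : cov s a (x + y) = cov s a x + cov s a y := by
  ext k
  simp only [cov, Pi.add_apply, ← Finset.sum_add_distrib]
  refine Finset.sum_congr rfl fun i _ => Finset.sum_congr rfl fun j _ => ?_
  ring
lemma cov_smul_left (c : ℂ) (s : T3) (a : La) (x : E) : cov s (c • a) x = c • cov s a x := by
  ext k
  simp only [cov, Pi.smul_apply, smul_eq_mul, Finset.mul_sum]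
  refine Finset.sum_congr rfl fun i _ => Finset.sum_congr rfl fun j _ => ?_
  ring
lemma cov_smul_right (c : ℂ) (s : T3) (a : La) (x : E) : cov s a (c • x) = c • cov s a x := by
  ext k
  simp only [cov, Pi.smul_apply, smul_eq_mul, Finset.mul_sum]
  refine Finset.sum_congr rfl fun i _ => Finset.sum_congr rfl fun j _ => ?_
  ring
lemma cov_zero_tensor (a : La) (x : E) : cov 0 a x = 0 := by
  ext k; simp [cov]
lemma cov_zero_left (s : T3) (x : E) : cov s 0 x = 0 := by
  ext k; simp [cov]
lemma cov_zero_right (s : T3) (a : La) : cov s a 0 = 0 := by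
  ext k; simp [cov]

/-- `a ↦ cov s a x` as a linear map -/
def covL (s : T3) (x : E) : La →ₗ[ℂ] E where
  toFun a := cov s a x
  map_add' a a' := cov_add_left s a a' x
  map_smul' c a := cov_smul_left c s a x

/-- `x ↦ cov s a x` as a linear map -/
def covR (s : T3) (a : La) : E →ₗ[ℂ] E where
  toFun x := cov s a x
  map_add' := cov_add_right s a
  map_smul' c x := cov_smul_right c s a x

@[simp] lemma covL_apply (s : T3) (x : E) (a : La) : covL s x a = cov s a x := rfl
@[simp] lemma covR_apply (s : T3) (a : La) (x : E) : covR s a x = cov s a x := rfl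

lemma cov_neg_left (s : T3) (a : La) (x : E) : cov s (-a) x = -cov s a x := (covL s x).map_neg a
lemma cov_neg_right (s : T3) (a : La) (x : E) : cov s a (-x) = -cov s a x := (covR s a).map_neg x
lemma cov_sub_left (s : T3) (a a' : La) (x : E) : cov s (a - a') x = cov s a x - cov s a' x :=
  (covL s x).map_sub a a'
lemma cov_sub_right (s : T3) (a : La) (x y : E) : cov s a (x - y) = cov s a x - cov s a y :=
  (covR s a).map_sub x y
lemma cov_sum_left {ι : Type*} (S : Finset ι) (s : T3) (a : ι → La) (x : E) :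
    cov s (∑ i ∈ S, a i) x = ∑ i ∈ S, cov s (a i) x := map_sum (covL s x) a S
lemma cov_sum_right {ι : Type*} (S : Finset ι) (s : T3) (a : La) (x : ι → E) :
    cov s a (∑ i ∈ S, x i) = ∑ i ∈ S, cov s a (x i) := map_sum (covR s a) x S

lemma tri_add_tensor (s t : T3) (a : La) (x y : E) : tri (s + t) a x y = tri s a x y + tri t a x y := by
  simp [tri, cov_add_tensor, add_dotProduct]
lemma tri_smul_tensor (c : ℂ) (s : T3) (a : La) (x y : E) : tri (c • s) a x y = c * tri s a x y := by
  simp [tri, cov_smul_tensor, smul_dotProduct]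
lemma tri_add1 (s : T3) (a a' : La) (x y : E) : tri s (a + a') x y = tri s a x y + tri s a' x y := by
  simp [tri, cov_add_left, add_dotProduct]
lemma tri_add2 (s : T3) (a : La) (x x' y : E) : tri s a (x + x') y = tri s a x y + tri s a x' y := by
  simp [tri, cov_add_right, add_dotProduct]
lemma tri_add3 (s : T3) (a : La) (x y y' : E) : tri s a x (y + y') = tri s a x y + tri s a x y' := by
  simp [tri, dotProduct_add]
lemma tri_smul1 (c : ℂ) (s : T3) (a : La) (x y : E) : tri s (c • a) x y = c * tri s a x y := by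
  simp [tri, cov_smul_left, smul_dotProduct]
lemma tri_smul2 (c : ℂ) (s : T3) (a : La) (x y : E) : tri s a (c • x) y = c * tri s a x y := by
  simp [tri, cov_smul_right, smul_dotProduct]
lemma tri_smul3 (c : ℂ) (s : T3) (a : La) (x y : E) : tri s a x (c • y) = c * tri s a x y := by
  simp [tri, dotProduct_smul]
lemma tri_zero_tensor (a : La) (x y : E) : tri 0 a x y = 0 := by simp [tri, cov_zero_tensor]
lemma tri_zero1 (s : T3) (x y : E) : tri s 0 x y = 0 := by simp [tri, cov_zero_left]
lemma tri_zero2 (s : T3) (a : La) (y : E) : tri s a 0 y = 0 := by simp [tri, cov_zero_right]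
lemma tri_zero3 (s : T3) (a : La) (x : E) : tri s a x 0 = 0 := by simp [tri]
lemma tri_neg1 (s : T3) (a : La) (x y : E) : tri s (-a) x y = -tri s a x y := by
  rw [tri, cov_neg_left, neg_dotProduct]; rfl
lemma tri_neg2 (s : T3) (a : La) (x y : E) : tri s a (-x) y = -tri s a x y := by
  rw [tri, cov_neg_right, neg_dotProduct]; rfl
lemma tri_neg3 (s : T3) (a : La) (x y : E) : tri s a x (-y) = -tri s a x y := by
  rw [tri, dotProduct_neg]; rfl
lemma tri_sub1 (s : T3) (a a' : La) (x y : E) : tri s (a - a') x y = tri s a x y - tri s a' x y := by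
  rw [tri, cov_sub_left, sub_dotProduct]; rfl
lemma tri_sub2 (s : T3) (a : La) (x x' y : E) : tri s a (x - x') y = tri s a x y - tri s a x' y := by
  rw [tri, cov_sub_right, sub_dotProduct]; rfl
lemma tri_sub3 (s : T3) (a : La) (x y y' : E) : tri s a x (y - y') = tri s a x y - tri s a x y' := by
  rw [tri, dotProduct_sub]; rfl
lemma tri_sum1 {ι : Type*} (S : Finset ι) (s : T3) (a : ι → La) (x y : E) :
    tri s (∑ i ∈ S, a i) x y = ∑ i ∈ S, tri s (a i) x y := by
  rw [tri, cov_sum_left, sum_dotProduct]; rfl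
lemma tri_sum2 {ι : Type*} (S : Finset ι) (s : T3) (a : La) (x : ι → E) (y : E) :
    tri s a (∑ i ∈ S, x i) y = ∑ i ∈ S, tri s a (x i) y := by
  rw [tri, cov_sum_right, sum_dotProduct]; rfl
lemma tri_sum3 {ι : Type*} (S : Finset ι) (s : T3) (a : La) (x : E) (y : ι → E) :
    tri s a x (∑ i ∈ S, y i) = ∑ i ∈ S, tri s a x (y i) := by
  rw [tri, dotProduct_sum]; rfl

/-- `t ↦ tri t a x y` as a linear map -/
def triL (a : La) (x y : E) : T3 →ₗ[ℂ] ℂ where
  toFun t := tri t a x y
  map_add' s t := tri_add_tensor s t a x y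
  map_smul' c t := by simp [tri_smul_tensor]

@[simp] lemma triL_apply (a : La) (x y : E) (t : T3) : triL a x y t = tri t a x y := rfl

lemma tri_comm {s : T3} (hs : s ∈ SymT) (a : La) (x y : E) : tri s a x y = tri s a y x := by
  have e : ∀ x y : E, tri s a x y = ∑ k, ∑ i, ∑ j, a k * x i * s k i j * y j := by
    intro x y
    rw [tri_eq, Finset.sum_comm]
    refine Finset.sum_congr rfl fun k _ => ?_
    rw [Finset.sum_comm]
  rw [e, e]
  refine Finset.sum_congr rfl fun k _ => ?_
  rw [Finset.sum_comm]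
  refine Finset.sum_congr rfl fun i _ => Finset.sum_congr rfl fun j _ => ?_
  rw [hs k j i]; ring

/-- entries of the net from the form -/
lemma tri_single (s : T3) (k : Fin 3) (i j : Fin 6) :
    tri s (Pi.single k 1) (Pi.single i 1) (Pi.single j 1) = s k i j := by
  rw [tri_eq]
  simp [Pi.single_apply]

lemma net_ext {s t : T3} (h : ∀ a x y, tri s a x y = tri t a x y) : s = t := by
  ext k i j
  rw [← tri_single s, ← tri_single t, h]

lemma pr_mem (f : E) (r : Fin 3 → E) : pr f r ∈ SymT := by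
  intro k i j
  simp only [pr]; ring

lemma sp_mem (c : La) (f g : E) : sp c f g ∈ SymT := pr_mem _ _

lemma con_dot (r : Fin 3 → E) (a : La) (x : E) : con r a ⬝ᵥ x = ∑ k, a k * (r k ⬝ᵥ x) := by
  simp only [con, sum_dotProduct, smul_dotProduct, smul_eq_mul]

lemma tri_pr (f : E) (r : Fin 3 → E) (a : La) (x y : E) : tri (pr f r) a x y =
    (f ⬝ᵥ x) * (con r a ⬝ᵥ y) + (con r a ⬝ᵥ x) * (f ⬝ᵥ y) := by
  rw [con_dot, con_dot, tri_eq]
  simp only [pr, dotProduct]
  rw [Finset.sum_mul_sum, Finset.sum_mul_sum]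
  simp only [Finset.mul_sum, Finset.sum_mul, mul_add, add_mul, Finset.sum_add_distrib]
  congr 1
  · rw [Finset.sum_comm]
    rw [Finset.sum_comm (s := (Finset.univ : Finset (Fin 6))) (t := (Finset.univ : Finset (Fin 3)))]
    refine Finset.sum_congr rfl fun k _ => ?_
    rw [Finset.sum_comm]
    refine Finset.sum_congr rfl fun i _ => Finset.sum_congr rfl fun j _ => ?_
    ring
  · rw [Finset.sum_comm]
    refine Finset.sum_congr rfl fun k _ => Finset.sum_congr rfl fun i _ => Finset.sum_congr rfl fun j _ => ?_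
    ring

lemma con_sp (c : La) (g : E) (a : La) : con (fun k => c k • g) a = (c ⬝ᵥ a) • g := by
  simp only [con, dotProduct, Finset.sum_smul, smul_smul]
  refine Finset.sum_congr rfl fun k _ => ?_
  rw [mul_comm]

lemma tri_sp (c : La) (f g : E) (a : La) (x y : E) : tri (sp c f g) a x y =
    (c ⬝ᵥ a) * ((f ⬝ᵥ x) * (g ⬝ᵥ y) + (g ⬝ᵥ x) * (f ⬝ᵥ y)) := by
  rw [sp, tri_pr, con_sp, smul_dotProduct, smul_dotProduct, smul_eq_mul, smul_eq_mul]
  ring

/-! ### derivations -/

/-- apply a derivation to a vector -/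
def dE {ι : Type*} (δ : D) (x : ι → ℂ) : ι → ℂ := fun i => δ (x i)

/-- apply a derivation to a net -/
def dT (δ : D) (s : T3) : T3 := fun k i j => δ (s k i j)

lemma dE_add {ι : Type*} (δ : D) (x y : ι → ℂ) : dE δ (x + y) = dE δ x + dE δ y := by
  ext i; simp [dE]
lemma dE_smul {ι : Type*} (δ : D) (c : ℂ) (x : ι → ℂ) :
    dE δ (c • x) = δ c • x + c • dE δ x := by
  ext i; simp [dE, Derivation.leibniz]; ring
lemma dE_zero {ι : Type*} (δ : D) : dE δ (0 : ι → ℂ) = 0 := by
  ext i; simp [dE]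
lemma dE_neg {ι : Type*} (δ : D) (x : ι → ℂ) : dE δ (-x) = -dE δ x := by
  ext i; simp [dE]
lemma dE_sub {ι : Type*} (δ : D) (x y : ι → ℂ) : dE δ (x - y) = dE δ x - dE δ y := by
  ext i; simp [dE]
lemma dE_sum {ι κ : Type*} (S : Finset κ) (δ : D) (x : κ → ι → ℂ) :
    dE δ (∑ i ∈ S, x i) = ∑ i ∈ S, dE δ (x i) := by
  ext i; simp [dE]
lemma d_dot {ι : Type*} [Fintype ι] (δ : D) (x y : ι → ℂ) :
    δ (x ⬝ᵥ y) = dE δ x ⬝ᵥ y + x ⬝ᵥ dE δ y := by
  simp only [dotProduct, map_sum, Derivation.leibniz, dE, smul_eq_mul, Finset.sum_add_distrib]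
  rw [add_comm]
  congr 1
  refine Finset.sum_congr rfl fun i _ => ?_
  ring
lemma dE_cov (δ : D) (s : T3) (a : La) (x : E) :
    dE δ (cov s a x) = cov (dT δ s) a x + cov s (dE δ a) x + cov s a (dE δ x) := by
  ext k
  simp only [dE, cov, dT, map_sum, Derivation.leibniz, smul_eq_mul, Pi.add_apply,
    ← Finset.sum_add_distrib]
  refine Finset.sum_congr rfl fun i _ => Finset.sum_congr rfl fun j _ => ?_
  ring
lemma d_tri (δ : D) (s : T3) (a : La) (x y : E) :
    δ (tri s a x y) = tri (dT δ s) a x y + tri s (dE δ a) x y + tri s a (dE δ x) y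
      + tri s a x (dE δ y) := by
  simp [tri, d_dot, dE_cov, add_dotProduct]
lemma dT_mem (δ : D) {s : T3} (hs : s ∈ SymT) : dT δ s ∈ SymT := by
  intro k i j
  simp only [dT]; rw [hs k i j]

/-- evaluation of derivations on a vector -/
def evE {ι : Type*} (x : ι → ℂ) : D →ₗ[ℂ] (ι → ℂ) where
  toFun δ := dE δ x
  map_add' a b := by ext i; simp [dE]
  map_smul' c a := by ext i; simp [dE]

/-- evaluation of derivations on a net -/
def evT (s : T3) : D →ₗ[ℂ] T3 where
  toFun δ := dT δ s
  map_add' a b := by ext i j k; simp [dT]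
  map_smul' c a := by ext i j k; simp [dT]

/-- evaluation of derivations on a family of vectors -/
def evP {κ ι : Type*} (p : κ → ι → ℂ) : D →ₗ[ℂ] (κ → ι → ℂ) where
  toFun δ := fun i => dE δ (p i)
  map_add' a b := by ext i j; simp [dE]
  map_smul' c a := by ext i j; simp [dE]

/-- evaluation of derivations on the pair (four vectors, covector) -/
def evB (p : Fin 4 → E) (l : E) : D →ₗ[ℂ] (Fin 4 → E) × E := (evP p).prod (evE l)

/-- evaluation of derivations on the triple (four vectors, covector, four parameters) -/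
def evC (p : Fin 4 → E) (l : E) (lam : Fin 4 → La) :
    D →ₗ[ℂ] ((Fin 4 → E) × E) × (Fin 4 → La) := (evB p l).prod (evP lam)

@[simp] lemma evE_apply {ι : Type*} (x : ι → ℂ) (δ : D) : evE x δ = dE δ x := rfl
@[simp] lemma evT_apply (x : T3) (δ : D) : evT x δ = dT δ x := rfl
@[simp] lemma evP_apply {κ ι : Type*} (x : κ → ι → ℂ) (δ : D) (i : κ) : evP x δ i = dE δ (x i) := rfl
@[simp] lemma evB_apply (p : Fin 4 → E) (l : E) (δ : D) : evB p l δ = (evP p δ, dE δ l) := rfl
@[simp] lemma evC_apply (p : Fin 4 → E) (l : E) (lam : Fin 4 → La) (δ : D) :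
    evC p l lam δ = ((evP p δ, dE δ l), evP lam δ) := rfl

/-- the derivations which kill the net `s` -/
def ZS (s : T3) : Submodule ℂ D := LinearMap.ker (evT s)

/-- the derivations which kill the vector `x` -/
def ZE {ι : Type*} (x : ι → ℂ) : Submodule ℂ D := LinearMap.ker (evE x)

/-- the derivations which kill the family `p` -/
def ZP {κ ι : Type*} (p : κ → ι → ℂ) : Submodule ℂ D := LinearMap.ker (evP p)

/-- the derivations which kill `p` and `l` -/
def ZB (p : Fin 4 → E) (l : E) : Submodule ℂ D := LinearMap.ker (evB p l)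

/-- the derivations which kill `p`, `l` and `lam` -/
def ZC (p : Fin 4 → E) (l : E) (lam : Fin 4 → La) : Submodule ℂ D := LinearMap.ker (evC p l lam)

lemma mem_ZS {s : T3} {δ : D} : δ ∈ ZS s ↔ dT δ s = 0 := LinearMap.mem_ker
lemma mem_ZE {ι : Type*} {x : ι → ℂ} {δ : D} : δ ∈ ZE x ↔ dE δ x = 0 := LinearMap.mem_ker
lemma mem_ZP {κ ι : Type*} {p : κ → ι → ℂ} {δ : D} : δ ∈ ZP p ↔ ∀ i, dE δ (p i) = 0 := by
  rw [ZP, LinearMap.mem_ker]
  exact ⟨fun h i => congrFun h i, fun h => funext h⟩
lemma mem_ZB {p : Fin 4 → E} {l : E} {δ : D} :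
    δ ∈ ZB p l ↔ (∀ i, dE δ (p i) = 0) ∧ dE δ l = 0 := by
  rw [ZB, LinearMap.mem_ker, evB_apply, Prod.mk_eq_zero]
  exact ⟨fun ⟨h1, h2⟩ => ⟨fun i => congrFun h1 i, h2⟩, fun ⟨h1, h2⟩ => ⟨funext h1, h2⟩⟩
lemma mem_ZC {p : Fin 4 → E} {l : E} {lam : Fin 4 → La} {δ : D} :
    δ ∈ ZC p l lam ↔ (∀ i, dE δ (p i) = 0) ∧ dE δ l = 0 ∧ ∀ i, dE δ (lam i) = 0 := by
  rw [ZC, LinearMap.mem_ker, evC_apply, Prod.mk_eq_zero, Prod.mk_eq_zero]
  exact ⟨fun ⟨⟨h1, h2⟩, h3⟩ => ⟨fun i => congrFun h1 i, h2, fun i => congrFun h3 i⟩,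
    fun ⟨h1, h2, h3⟩ => ⟨⟨funext h1, h2⟩, funext h3⟩⟩
lemma ZC_eq (p : Fin 4 → E) (l : E) (lam : Fin 4 → La) : ZC p l lam = ZB p l ⊓ ZP lam := by
  ext δ
  rw [Submodule.mem_inf, mem_ZC, mem_ZB, mem_ZP, and_assoc]

/-! ### three-dimensional vectors -/

/-- the cross product -/
def cr (a b : La) : La := ![a 1 * b 2 - a 2 * b 1, a 2 * b 0 - a 0 * b 2, a 0 * b 1 - a 1 * b 0]

/-- the determinant -/
def dt (a b c : La) : ℂ := a ⬝ᵥ cr b c

lemma dt_def (a b c : La) : dt a b c = a 0 * (b 1 * c 2 - b 2 * c 1) + a 1 * (b 2 * c 0 - b 0 * c 2)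
    + a 2 * (b 0 * c 1 - b 1 * c 0) := by
  simp [dt, cr, dotProduct, Fin.sum_univ_succ]
  ring

lemma dt_add1 (a a' b c : La) : dt (a + a') b c = dt a b c + dt a' b c := by
  simp only [dt_def, Pi.add_apply]; ring
lemma dt_add2 (a b b' c : La) : dt a (b + b') c = dt a b c + dt a b' c := by
  simp only [dt_def, Pi.add_apply]; ring
lemma dt_add3 (a b c c' : La) : dt a b (c + c') = dt a b c + dt a b c' := by
  simp only [dt_def, Pi.add_apply]; ring
lemma dt_smul1 (x : ℂ) (a b c : La) : dt (x • a) b c = x * dt a b c := by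
  simp only [dt_def, Pi.smul_apply, smul_eq_mul]; ring
lemma dt_smul2 (x : ℂ) (a b c : La) : dt a (x • b) c = x * dt a b c := by
  simp only [dt_def, Pi.smul_apply, smul_eq_mul]; ring
lemma dt_smul3 (x : ℂ) (a b c : La) : dt a b (x • c) = x * dt a b c := by
  simp only [dt_def, Pi.smul_apply, smul_eq_mul]; ring
lemma dt_swap12 (a b c : La) : dt b a c = -dt a b c := by simp only [dt_def]; ring
lemma dt_swap23 (a b c : La) : dt a c b = -dt a b c := by simp only [dt_def]; ring
lemma dt_cyc (a b c : La) : dt b c a = dt a b c := by simp only [dt_def]; ring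
lemma dt_self12 (a b : La) : dt a a b = 0 := by simp only [dt_def]; ring
lemma dt_self13 (a b : La) : dt a b a = 0 := by simp only [dt_def]; ring
lemma dt_self23 (a b : La) : dt a b b = 0 := by simp only [dt_def]; ring

/-- Cramer -/
lemma dt_cramer (a b c d : La) :
    dt a b c • d = dt d b c • a + dt a d c • b + dt a b d • c := by
  ext i
  fin_cases i <;> simp [dt_def] <;> ring

end Pool.Agent.Work.MP_ea8963_ag.G5
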