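import Pool.Agent.Work.MP_ea8963_ag.G5.Lin

/-!
Block [ea8963 G5]: definitions and easy facts (all proved).  Captain helper99.

Notation of the comments: `s` a net of quadratic forms in 6 variables, `s (a)` the form with
parameter `a`, `b = (p, l, lam)` a configuration: the section `l = 0` has nodes at `p 0, .., p 3`,
the form `s (lam i)` is singular at `p i` on the hyperplane `l = 0`.  `N = span p`.
`Z*` are spaces of derivations of the complex numbers.
-/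

set_option linter.style.longLine false
set_option linter.unusedVariables false

noncomputable section

open Module Topology
open Pool.Agent.Work.MP_ea8963_ag.G4 (D ZA mem_ZA Full cl rn rn_prod rn_le finrank_map_mono
  finrank_map_prod_swap pair d_two ZA_mono)

namespace Pool.Agent.Work.MP_ea8963_ag.G5

/-! ### Definitions -/

/-- ordinary node at `p`, with multiplier `a` -/
structure Nd (s : T3) (p : E) (a : La) : Prop where
  rank : ∀ c : La, cov s c p = 0 → c = 0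
  ker : ∀ (v : E) (c : La), (∀ e : La, tri s e p v = 0) → cov s a v + cov s c p = 0 →
    ∃ x : ℂ, v = x • p

/-- a configuration: the hyperplane section `l = 0` has nodes at `p 0, .., p 3` -/
structure Cfg (s : T3) (p : Fin 4 → E) (l : E) (lam : Fin 4 → La) : Prop where
  q0 : ∀ i (a : La), tri s a (p i) (p i) = 0
  eq : ∀ i, cov s (lam i) (p i) = l
  ind : LinearIndependent ℂ p
  nd : ∀ i, Nd s (p i) (lam i)
  l0 : l ≠ 0

/-- `s` is a generic net: its derivatives are arbitrary -/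
def Gen (s : T3) : Prop := s ∈ SymT ∧ ∀ v ∈ SymT, ∃ δ : D, dT δ s = v

/-- tangent space of the variety of pairs `(p, l)`, `l (p i) = 0` -/
def TP (p : Fin 4 → E) (l : E) : Submodule ℂ ((Fin 4 → E) × E) where
  carrier := {x | ∀ i, x.2 ⬝ᵥ p i + l ⬝ᵥ x.1 i = 0}
  zero_mem' := by intro i; simp
  add_mem' := by
    intro x y hx hy i
    have h1 : x.2 ⬝ᵥ p i + l ⬝ᵥ x.1 i = 0 := hx i
    have h2 : y.2 ⬝ᵥ p i + l ⬝ᵥ y.1 i = 0 := hy i
    simp only [Prod.snd_add, Prod.fst_add, Pi.add_apply, add_dotProduct, dotProduct_add]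
    linear_combination h1 + h2
  smul_mem' := by
    intro c x hx i
    have h1 : x.2 ⬝ᵥ p i + l ⬝ᵥ x.1 i = 0 := hx i
    simp only [Prod.smul_snd, Prod.smul_fst, Pi.smul_apply, smul_dotProduct, dotProduct_smul,
      smul_eq_mul]
    linear_combination c * h1

/-- symmetric nets `t` with `t (lam i) (p i, .) = 0` and `t (a) (p i, p i) = 0` for all `a`
(any number of points) -/
def K1 {n : ℕ} (p : Fin n → E) (lam : Fin n → La) : Submodule ℂ T3 where
  carrier := {t | t ∈ SymT ∧ (∀ i v, tri t (lam i) (p i) v = 0) ∧ ∀ i a, tri t a (p i) (p i) = 0}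
  zero_mem' := ⟨SymT.zero_mem, fun i v => tri_zero_tensor _ _ _, fun i a => tri_zero_tensor _ _ _⟩
  add_mem' := by
    rintro x y ⟨h1, h2, h3⟩ ⟨g1, g2, g3⟩
    exact ⟨SymT.add_mem h1 g1, fun i v => by rw [tri_add_tensor, h2, g2, add_zero],
      fun i a => by rw [tri_add_tensor, h3, g3, add_zero]⟩
  smul_mem' := by
    rintro c x ⟨h1, h2, h3⟩
    exact ⟨SymT.smul_mem c h1, fun i v => by rw [tri_smul_tensor, h2, mul_zero],
      fun i a => by rw [tri_smul_tensor, h3, mul_zero]⟩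

/-- symmetric nets `t` with `t (lam i) (p i, v) = 0` for `v` in the hyperplane `l = 0` and
`t (a) (p i, p i) = 0` for all `a`: the space `K_b` of the configuration `b = (p, l, lam)` -/
def KB (p : Fin 4 → E) (l : E) (lam : Fin 4 → La) : Submodule ℂ T3 where
  carrier := {t | t ∈ SymT ∧ (∀ i v, l ⬝ᵥ v = 0 → tri t (lam i) (p i) v = 0) ∧
    ∀ i a, tri t a (p i) (p i) = 0}
  zero_mem' := ⟨SymT.zero_mem, fun i v _ => tri_zero_tensor _ _ _,
    fun i a => tri_zero_tensor _ _ _⟩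
  add_mem' := by
    rintro x y ⟨h1, h2, h3⟩ ⟨g1, g2, g3⟩
    exact ⟨SymT.add_mem h1 g1, fun i v hv => by rw [tri_add_tensor, h2 i v hv, g2 i v hv, add_zero],
      fun i a => by rw [tri_add_tensor, h3, g3, add_zero]⟩
  smul_mem' := by
    rintro c x ⟨h1, h2, h3⟩
    exact ⟨SymT.smul_mem c h1, fun i v hv => by rw [tri_smul_tensor, h2 i v hv, mul_zero],
      fun i a => by rw [tri_smul_tensor, h3, mul_zero]⟩

/-- symmetric nets which vanish on the subspace `U` -/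
def KU (U : Submodule ℂ E) : Submodule ℂ T3 where
  carrier := {t | t ∈ SymT ∧ ∀ a, ∀ x ∈ U, ∀ y ∈ U, tri t a x y = 0}
  zero_mem' := ⟨SymT.zero_mem, fun a x _ y _ => tri_zero_tensor _ _ _⟩
  add_mem' := by
    rintro x y ⟨h1, h2⟩ ⟨g1, g2⟩
    exact ⟨SymT.add_mem h1 g1, fun a u hu v hv => by
      rw [tri_add_tensor, h2 a u hu v hv, g2 a u hu v hv, add_zero]⟩
  smul_mem' := by
    rintro c x ⟨h1, h2⟩
    exact ⟨SymT.smul_mem c h1, fun a u hu v hv => by
      rw [tri_smul_tensor, h2 a u hu v hv, mul_zero]⟩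

/-- the coefficients of the functionals attached to a configuration: `v i` (in the hyperplane
`l = 0`) and `mu i` -/
abbrev XX : Type := (Fin 4 → E) × (Fin 4 → La)

/-- the functional of `x = (v, mu)`: the sum of `t (lam i) (p i, v i) + t (mu i) (p i, p i)` -/
def val (p : Fin 4 → E) (lam : Fin 4 → La) (t : T3) (x : XX) : ℂ :=
  ∑ i, (tri t (lam i) (p i) (x.1 i) + tri t (x.2 i) (p i) (p i))

lemma val_add_tensor (p : Fin 4 → E) (lam : Fin 4 → La) (s t : T3) (x : XX) :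
    val p lam (s + t) x = val p lam s x + val p lam t x := by
  simp only [val, tri_add_tensor, Finset.sum_add_distrib]; ring
lemma val_smul_tensor (p : Fin 4 → E) (lam : Fin 4 → La) (c : ℂ) (t : T3) (x : XX) :
    val p lam (c • t) x = c * val p lam t x := by
  simp only [val, tri_smul_tensor, ← mul_add, ← Finset.mul_sum]
lemma val_add (p : Fin 4 → E) (lam : Fin 4 → La) (t : T3) (x y : XX) :
    val p lam t (x + y) = val p lam t x + val p lam t y := by
  simp only [val, Prod.fst_add, Prod.snd_add, Pi.add_apply, tri_add3, tri_add1,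
    Finset.sum_add_distrib]; ring
lemma val_smul (p : Fin 4 → E) (lam : Fin 4 → La) (t : T3) (c : ℂ) (x : XX) :
    val p lam t (c • x) = c * val p lam t x := by
  simp only [val, Prod.smul_fst, Prod.smul_snd, Pi.smul_apply, tri_smul3, tri_smul1, ← mul_add,
    ← Finset.mul_sum]
lemma val_zero (p : Fin 4 → E) (lam : Fin 4 → La) (t : T3) : val p lam t 0 = 0 := by
  simp [val, tri_zero3, tri_zero1]

/-- `val` as a bilinear map -/
def valL (p : Fin 4 → E) (lam : Fin 4 → La) : XX →ₗ[ℂ] Dual ℂ T3 where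
  toFun x :=
    { toFun := fun t => val p lam t x
      map_add' := fun s t => val_add_tensor p lam s t x
      map_smul' := fun c t => by simp [val_smul_tensor] }
  map_add' x y := by ext t; exact val_add p lam _ x y
  map_smul' c x := by ext t; exact val_smul p lam _ c x

@[simp] lemma valL_apply (p : Fin 4 → E) (lam : Fin 4 → La) (x : XX) (t : T3) :
    valL p lam x t = val p lam t x := rfl

/-- `v i` in the hyperplane `l = 0` -/
def RW (l : E) : Submodule ℂ XX where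
  carrier := {x | ∀ i, l ⬝ᵥ x.1 i = 0}
  zero_mem' := by intro i; simp
  add_mem' := by
    intro x y hx hy i
    have h1 : l ⬝ᵥ x.1 i = 0 := hx i
    have h2 : l ⬝ᵥ y.1 i = 0 := hy i
    simp [dotProduct_add, h1, h2]
  smul_mem' := by
    intro c x hx i
    have h1 : l ⬝ᵥ x.1 i = 0 := hx i
    simp [dotProduct_smul, h1]

/-- the trivial elements: `v i = c i • p i`, `mu i = - c i • lam i`; their functional is zero -/
def Tri (p : Fin 4 → E) (lam : Fin 4 → La) : Submodule ℂ XX where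
  carrier := {x | ∃ c : Fin 4 → ℂ, x = (fun i => c i • p i, fun i => -(c i • lam i))}
  zero_mem' := ⟨0, by ext i j <;> simp⟩
  add_mem' := by
    rintro x y ⟨c, rfl⟩ ⟨d, rfl⟩
    refine ⟨c + d, ?_⟩
    ext i j <;> simp <;> ring
  smul_mem' := by
    rintro a x ⟨c, rfl⟩
    refine ⟨a • c, ?_⟩
    ext i j <;> simp <;> ring

/-- relations between the functionals of two configurations -/
def RelM (p : Fin 4 → E) (l : E) (lam : Fin 4 → La) (p' : Fin 4 → E) (l' : E)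
    (lam' : Fin 4 → La) : Submodule ℂ (XX × XX) where
  carrier := {x | x.1 ∈ RW l ∧ x.2 ∈ RW l' ∧ ∀ t ∈ SymT, val p lam t x.1 + val p' lam' t x.2 = 0}
  zero_mem' := ⟨(RW l).zero_mem, (RW l').zero_mem, fun t _ => by
    rw [Prod.fst_zero, Prod.snd_zero, val_zero, val_zero, add_zero]⟩
  add_mem' := by
    rintro x y ⟨h1, h2, h3⟩ ⟨g1, g2, g3⟩
    refine ⟨(RW l).add_mem h1 g1, (RW l').add_mem h2 g2, fun t ht => ?_⟩
    simp only [Prod.fst_add, Prod.snd_add, val_add]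
    linear_combination h3 t ht + g3 t ht
  smul_mem' := by
    rintro c x ⟨h1, h2, h3⟩
    refine ⟨(RW l).smul_mem c h1, (RW l').smul_mem c h2, fun t ht => ?_⟩
    simp only [Prod.smul_fst, Prod.smul_snd, val_smul]
    linear_combination c * h3 t ht

/-- the elements of `RW l` whose functional vanishes on `K` -/
def AK (p : Fin 4 → E) (l : E) (lam : Fin 4 → La) (K : Submodule ℂ T3) : Submodule ℂ XX where
  carrier := {x | x ∈ RW l ∧ ∀ t ∈ K, val p lam t x = 0}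
  zero_mem' := ⟨(RW l).zero_mem, fun t _ => val_zero _ _ _⟩
  add_mem' := by
    rintro x y ⟨h1, h2⟩ ⟨g1, g2⟩
    exact ⟨(RW l).add_mem h1 g1, fun t ht => by rw [val_add, h2 t ht, g2 t ht, add_zero]⟩
  smul_mem' := by
    rintro c x ⟨h1, h2⟩
    exact ⟨(RW l).smul_mem c h1, fun t ht => by rw [val_smul, h2 t ht, mul_zero]⟩

/-- the elements of `RW l` whose functional depends only on the restriction to `P` -/
def AS (p : Fin 4 → E) (l : E) (lam : Fin 4 → La) (P : Submodule ℂ E) : Submodule ℂ XX :=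
  AK p l lam (KU P)

/-- `c` is the coefficient matrix of `t` on `N`: `t (a) (p i, p k) = c i k * det (a, lam i, lam k)` -/
structure CC (p : Fin 4 → E) (lam : Fin 4 → La) (t : T3) (c : Fin 4 → Fin 4 → ℂ) : Prop where
  eq : ∀ i k a, tri t a (p i) (p k) = c i k * dt a (lam i) (lam k)
  anti : ∀ i k, c k i = -c i k

/-- the Pfaffian -/
def Pf (c : Fin 4 → Fin 4 → ℂ) : ℂ := c 0 1 * c 2 3 - c 0 2 * c 1 3 + c 0 3 * c 1 2

/-- any three of the four parameters are independent -/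
def GP (lam : Fin 4 → La) : Prop :=
  ∀ i j k, i ≠ j → i ≠ k → j ≠ k → dt (lam i) (lam j) (lam k) ≠ 0

/-- everything we know about a configuration which is generic over the field of `s`; the
parameters are normalised by `lam i 0 = 1` -/
structure Opt (s : T3) (p : Fin 4 → E) (l : E) (lam : Fin 4 → La) (m : Fin 4 → ℂ) : Prop where
  q0 : ∀ i (a : La), tri s a (p i) (p i) = 0
  eq : ∀ i, cov s (lam i) (p i) = m i • l
  m0 : ∀ i, m i ≠ 0
  nrm : ∀ i, lam i 0 = 1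
  ind : LinearIndependent ℂ p
  nd : ∀ i, Nd s (p i) (lam i)
  l0 : l ≠ 0
  gp : GP lam
  rk6 : finrank ℂ ((ZS s).map (evB p l)) = 6
  rkS : finrank ℂ SymT ≤ finrank ℂ ((ZC p l lam).map (evT s)) + 28
  fullB : ∀ x ∈ TP p l, ∀ d : Fin 4 → La, (∀ i, d i 0 = 0) → ∃ δ : D, evC p l lam δ = (x, d)
  fullS : ∀ t ∈ KB p l lam, ∃ δ ∈ ZC p l lam, dT δ s = t
  cf : ∃ c, CC p lam s c ∧ (∀ i k, i ≠ k → c i k ≠ 0) ∧ Pf c ≠ 0
  con : ∀ x : Fin 4 → ℂ, (∀ a : La, tri s a (∑ i, x i • p i) (∑ i, x i • p i) = 0) →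
    ∃ (j : Fin 4) (c : ℂ), ∑ i, x i • p i = c • p j

/-- everything we need about two independent configurations on the same net -/
structure Trip (s : T3) (p : Fin 4 → E) (l : E) (lam : Fin 4 → La) (p' : Fin 4 → E) (l' : E)
    (lam' : Fin 4 → La) : Prop where
  sK : s ∈ KB p l lam ⊓ KB p' l' lam'
  lp : ∀ i, l ⬝ᵥ p i = 0
  lp' : ∀ i, l' ⬝ᵥ p' i = 0
  ind : LinearIndependent ℂ p
  ind' : LinearIndependent ℂ p'
  nrm : ∀ i, lam i 0 = 1
  nrm' : ∀ i, lam' i 0 = 1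
  l0 : l ≠ 0
  l0' : l' ≠ 0
  full1 : ∀ x ∈ TP p l, ∀ d : Fin 4 → La, (∀ i, d i 0 = 0) → ∃ δ : D, evC p l lam δ = (x, d)
  full2 : ∀ x ∈ TP p' l', ∀ d : Fin 4 → La, (∀ i, d i 0 = 0) →
    ∃ δ ∈ ZC p l lam, evC p' l' lam' δ = (x, d)
  full3 : ∀ t ∈ KB p l lam ⊓ KB p' l' lam', ∃ δ ∈ ZC p l lam ⊓ ZC p' l' lam', dT δ s = t

/-- the entries of the net `s` -/
def ent (s : T3) : Set ℂ := {z | ∃ k i j, z = s k i j}

/-- the entries of the configuration `(p, l)` -/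
def entB (p : Fin 4 → E) (l : E) : Set ℂ := {z | (∃ i j, z = p i j) ∨ ∃ j, z = l j}

/-- apply a field automorphism to a vector -/
def mE {ι : Type*} (σ : ℂ ≃+* ℂ) (x : ι → ℂ) : ι → ℂ := fun i => σ (x i)

/-- apply a field automorphism to a net -/
def mT (σ : ℂ ≃+* ℂ) (s : T3) : T3 := fun k i j => σ (s k i j)

/-- apply a field automorphism to a family of vectors -/
def mP {κ ι : Type*} (σ : ℂ ≃+* ℂ) (p : κ → ι → ℂ) : κ → ι → ℂ := fun i => mE σ (p i)

/-! ### Easy facts, proved here -/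

lemma mem_TP {p : Fin 4 → E} {l : E} {x : (Fin 4 → E) × E} :
    x ∈ TP p l ↔ ∀ i, x.2 ⬝ᵥ p i + l ⬝ᵥ x.1 i = 0 := Iff.rfl
lemma mem_K1 {n : ℕ} {p : Fin n → E} {lam : Fin n → La} {t : T3} : t ∈ K1 p lam ↔
    t ∈ SymT ∧ (∀ i v, tri t (lam i) (p i) v = 0) ∧ ∀ i a, tri t a (p i) (p i) = 0 := Iff.rfl
lemma mem_KB {p : Fin 4 → E} {l : E} {lam : Fin 4 → La} {t : T3} : t ∈ KB p l lam ↔
    t ∈ SymT ∧ (∀ i v, l ⬝ᵥ v = 0 → tri t (lam i) (p i) v = 0) ∧
    ∀ i a, tri t a (p i) (p i) = 0 := Iff.rfl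
lemma mem_KU {U : Submodule ℂ E} {t : T3} : t ∈ KU U ↔
    t ∈ SymT ∧ ∀ a, ∀ x ∈ U, ∀ y ∈ U, tri t a x y = 0 := Iff.rfl
lemma mem_RW {l : E} {x : XX} : x ∈ RW l ↔ ∀ i, l ⬝ᵥ x.1 i = 0 := Iff.rfl
lemma mem_AK {p : Fin 4 → E} {l : E} {lam : Fin 4 → La} {K : Submodule ℂ T3} {x : XX} :
    x ∈ AK p l lam K ↔ x ∈ RW l ∧ ∀ t ∈ K, val p lam t x = 0 := Iff.rfl
lemma mem_AS {p : Fin 4 → E} {l : E} {lam : Fin 4 → La} {P : Submodule ℂ E} {x : XX} :
    x ∈ AS p l lam P ↔ x ∈ RW l ∧ ∀ t ∈ KU P, val p lam t x = 0 := Iff.rfl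
lemma mem_RelM {p : Fin 4 → E} {l : E} {lam : Fin 4 → La} {p' : Fin 4 → E} {l' : E}
    {lam' : Fin 4 → La} {x : XX × XX} : x ∈ RelM p l lam p' l' lam' ↔
    x.1 ∈ RW l ∧ x.2 ∈ RW l' ∧ ∀ t ∈ SymT, val p lam t x.1 + val p' lam' t x.2 = 0 := Iff.rfl

lemma Cfg.lp {s : T3} {p : Fin 4 → E} {l : E} {lam : Fin 4 → La} (h : Cfg s p l lam)
    (i : Fin 4) : l ⬝ᵥ p i = 0 := by
  rw [← h.eq i]; exact h.q0 i (lam i)

lemma Cfg.ev_mem {s : T3} {p : Fin 4 → E} {l : E} {lam : Fin 4 → La} (h : Cfg s p l lam)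
    (δ : D) : evB p l δ ∈ TP p l := by
  intro i
  simp only [evB_apply, evP_apply]
  have h1 := d_dot δ l (p i)
  rw [h.lp i, map_zero] at h1
  exact h1.symm

lemma Opt.lp {s : T3} {p : Fin 4 → E} {l : E} {lam : Fin 4 → La} {m : Fin 4 → ℂ}
    (h : Opt s p l lam m) (i : Fin 4) : l ⬝ᵥ p i = 0 := by
  have h1 : (m i • l) ⬝ᵥ p i = 0 := by rw [← h.eq i]; exact h.q0 i (lam i)
  rw [smul_dotProduct, smul_eq_mul] at h1
  exact (mul_eq_zero.1 h1).resolve_left (h.m0 i)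

lemma Opt.ev_mem {s : T3} {p : Fin 4 → E} {l : E} {lam : Fin 4 → La} {m : Fin 4 → ℂ}
    (h : Opt s p l lam m) (δ : D) : evB p l δ ∈ TP p l := by
  intro i
  simp only [evB_apply, evP_apply]
  have h1 := d_dot δ l (p i)
  rw [h.lp i, map_zero] at h1
  exact h1.symm

lemma Opt.dlam0 {s : T3} {p : Fin 4 → E} {l : E} {lam : Fin 4 → La} {m : Fin 4 → ℂ}
    (h : Opt s p l lam m) (δ : D) (i : Fin 4) : dE δ (lam i) 0 = 0 := by
  have h1 : dE δ (lam i) 0 = δ (lam i 0) := rfl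
  rw [h1, h.nrm i, Derivation.map_one_eq_zero]

/-- the main equation, paired with a vector -/
lemma Opt.dot_eq {s : T3} {p : Fin 4 → E} {l : E} {lam : Fin 4 → La} {m : Fin 4 → ℂ}
    (h : Opt s p l lam m) (i : Fin 4) (v : E) : tri s (lam i) (p i) v = m i * l ⬝ᵥ v := by
  rw [tri, h.eq i, smul_dotProduct, smul_eq_mul]

/-- the derivative of the main equation -/
lemma Opt.d_eq {s : T3} {p : Fin 4 → E} {l : E} {lam : Fin 4 → La} {m : Fin 4 → ℂ}
    (h : Opt s p l lam m) (δ : D) (i : Fin 4) :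
    cov (dT δ s) (lam i) (p i) + cov s (dE δ (lam i)) (p i) + cov s (lam i) (dE δ (p i)) =
      δ (m i) • l + m i • dE δ l := by
  rw [← dE_cov, h.eq i, dE_smul]

/-- the derivative of `s (a) (p i, p i) = 0` -/
lemma Opt.d_q0 {s : T3} (hs : s ∈ SymT) {p : Fin 4 → E} {l : E} {lam : Fin 4 → La}
    {m : Fin 4 → ℂ} (h : Opt s p l lam m) (δ : D) (i : Fin 4) (a : La) :
    tri (dT δ s) a (p i) (p i) + 2 * tri s a (p i) (dE δ (p i)) = 0 := by
  have h1 := d_tri δ s a (p i) (p i)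
  rw [h.q0 i, map_zero, h.q0 i (dE δ a), tri_comm hs a (dE δ (p i)) (p i)] at h1
  linear_combination -h1

lemma Opt.mem_KB {s : T3} (hs : s ∈ SymT) {p : Fin 4 → E} {l : E} {lam : Fin 4 → La}
    {m : Fin 4 → ℂ} (h : Opt s p l lam m) : s ∈ KB p l lam := by
  refine ⟨hs, fun i v hv => ?_, h.q0⟩
  rw [h.dot_eq, hv, mul_zero]

lemma Opt.dT_mem_KB {s : T3} (hs : s ∈ SymT) {p : Fin 4 → E} {l : E} {lam : Fin 4 → La}
    {m : Fin 4 → ℂ} (h : Opt s p l lam m) {δ : D} (hδ : δ ∈ ZC p l lam) :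
    dT δ s ∈ KB p l lam := by
  obtain ⟨h1, h2, h3⟩ := mem_ZC.1 hδ
  refine ⟨dT_mem δ hs, fun i v hv => ?_, fun i a => ?_⟩
  · have h4 := h.d_eq δ i
    rw [h1 i, h2, h3 i, cov_zero_left, cov_zero_right, smul_zero, add_zero, add_zero, add_zero] at h4
    rw [tri, h4, smul_dotProduct, hv, smul_zero]
  · have h4 := h.d_q0 hs δ i a
    rw [h1 i, tri_zero3, mul_zero, add_zero] at h4
    exact h4

/-- a derivation which kills `s` moves `p i` inside the tangent space -/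
lemma Opt.tri_dE {s : T3} (hs : s ∈ SymT) {p : Fin 4 → E} {l : E} {lam : Fin 4 → La}
    {m : Fin 4 → ℂ} (h : Opt s p l lam m) {δ : D} (hδ : δ ∈ ZS s) (i : Fin 4) (a : La) :
    tri s a (p i) (dE δ (p i)) = 0 := by
  have h1 := h.d_q0 hs δ i a
  rw [mem_ZS.1 hδ, tri_zero_tensor, zero_add] at h1
  exact (mul_eq_zero.1 h1).resolve_left two_ne_zero

/-- TAN: the derivative of `l` vanishes at the nodes -/
lemma Opt.dl_p {s : T3} (hs : s ∈ SymT) {p : Fin 4 → E} {l : E} {lam : Fin 4 → La}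
    {m : Fin 4 → ℂ} (h : Opt s p l lam m) {δ : D} (hδ : δ ∈ ZS s) (i : Fin 4) :
    dE δ l ⬝ᵥ p i = 0 := by
  have h1 := h.tri_dE hs hδ i (lam i)
  rw [h.dot_eq] at h1
  have h2 := (mul_eq_zero.1 h1).resolve_left (h.m0 i)
  have h3 := h.ev_mem δ i
  simp only [evB_apply, evP_apply] at h3
  rw [h2, add_zero] at h3
  exact h3

/-- a derivation which kills `s`, `p` and `l` kills `lam` -/
lemma Opt.dlam {s : T3} {p : Fin 4 → E} {l : E} {lam : Fin 4 → La} {m : Fin 4 → ℂ}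
    (h : Opt s p l lam m) {δ : D} (h1 : δ ∈ ZS s) (h2 : δ ∈ ZB p l) (i : Fin 4) :
    dE δ (lam i) = 0 := by
  obtain ⟨h3, h4⟩ := mem_ZB.1 h2
  have h5 := h.d_eq δ i
  rw [h3 i, h4, mem_ZS.1 h1, cov_zero_tensor, cov_zero_right, zero_add, add_zero, smul_zero,
    add_zero] at h5
  have h6 : cov s (dE δ (lam i) - (δ (m i) * (m i)⁻¹) • lam i) (p i) = 0 := by
    rw [cov_sub_left, cov_smul_left, h5, h.eq i, smul_smul, mul_assoc, inv_mul_cancel₀ (h.m0 i),
      mul_one, sub_self]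
  have h7 := (h.nd i).rank _ h6
  have h8 : δ (m i) * (m i)⁻¹ = 0 := by
    have h9 := congrFun h7 0
    rw [Pi.sub_apply, Pi.smul_apply, h.dlam0 δ i, h.nrm i, smul_eq_mul, mul_one, zero_sub,
      Pi.zero_apply, neg_eq_zero] at h9
    exact h9
  rw [h8, zero_smul, sub_zero] at h7
  exact h7

lemma Opt.inf_le_ZC {s : T3} {p : Fin 4 → E} {l : E} {lam : Fin 4 → La} {m : Fin 4 → ℂ}
    (h : Opt s p l lam m) : ZS s ⊓ ZB p l ≤ ZC p l lam ⊓ ZS s := by
  rintro δ ⟨h1, h2⟩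
  refine ⟨mem_ZC.2 ⟨(mem_ZB.1 h2).1, (mem_ZB.1 h2).2, h.dlam h1 h2⟩, h1⟩

/-- the derivative of a configuration -/
lemma Cfg.d_eq {s : T3} {p : Fin 4 → E} {l : E} {lam : Fin 4 → La} (h : Cfg s p l lam) (δ : D)
    (i : Fin 4) : dE δ l =
      cov (dT δ s) (lam i) (p i) + cov s (dE δ (lam i)) (p i) + cov s (lam i) (dE δ (p i)) := by
  rw [← dE_cov, h.eq i]

lemma Cfg.d_q0 {s : T3} (hs : s ∈ SymT) {p : Fin 4 → E} {l : E} {lam : Fin 4 → La}
    (h : Cfg s p l lam) (δ : D) (i : Fin 4) (a : La) :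
    tri (dT δ s) a (p i) (p i) + 2 * tri s a (p i) (dE δ (p i)) = 0 := by
  have h1 := d_tri δ s a (p i) (p i)
  rw [h.q0 i, map_zero, h.q0 i (dE δ a), tri_comm hs a (dE δ (p i)) (p i)] at h1
  linear_combination -h1

/-- a derivation which kills `(p, l, lam)` moves `s` in `K1` -/
lemma Cfg.dT_mem_K1 {s : T3} (hs : s ∈ SymT) {p : Fin 4 → E} {l : E} {lam : Fin 4 → La}
    (h : Cfg s p l lam) {δ : D} (hδ : δ ∈ ZC p l lam) : dT δ s ∈ K1 p lam := by
  obtain ⟨h1, h2, h3⟩ := mem_ZC.1 hδ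
  refine ⟨dT_mem δ hs, fun i v => ?_, fun i a => ?_⟩
  · have h4 := h.d_eq δ i
    rw [h1 i, h2, h3 i, cov_zero_left, cov_zero_right, add_zero, add_zero] at h4
    rw [tri, ← h4, zero_dotProduct]
  · have h4 := h.d_q0 hs δ i a
    rw [h1 i, tri_zero3, mul_zero, add_zero] at h4
    exact h4

/-- a derivation which kills `s`, `p` and `l` kills `lam` -/
lemma Cfg.dlam {s : T3} {p : Fin 4 → E} {l : E} {lam : Fin 4 → La} (h : Cfg s p l lam) {δ : D}
    (h1 : δ ∈ ZS s) (h2 : δ ∈ ZB p l) (i : Fin 4) : dE δ (lam i) = 0 := by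
  obtain ⟨h3, h4⟩ := mem_ZB.1 h2
  have h5 := h.d_eq δ i
  rw [h3 i, h4, mem_ZS.1 h1, cov_zero_tensor, cov_zero_right, zero_add, add_zero] at h5
  exact (h.nd i).rank _ h5.symm

lemma Gen.map_evT {s : T3} (h : Gen s) : (⊤ : Submodule ℂ D).map (evT s) = SymT := by
  ext v
  constructor
  · rintro ⟨δ, -, rfl⟩
    exact dT_mem δ h.1
  · intro hv
    obtain ⟨δ, hδ⟩ := h.2 v hv
    exact ⟨δ, trivial, hδ⟩

lemma ZA_ent {s : T3} {A : Set ℂ} (h : ent s ⊆ A) : ZA A ≤ ZS s := by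
  intro δ hδ
  rw [mem_ZS]
  ext i j k
  exact hδ _ (h ⟨i, j, k, rfl⟩)

lemma ZA_entB {p : Fin 4 → E} {l : E} {A : Set ℂ} (h : entB p l ⊆ A) : ZA A ≤ ZB p l := by
  intro δ hδ
  rw [mem_ZB]
  exact ⟨fun i => funext fun j => hδ _ (h (Or.inl ⟨i, j, rfl⟩)),
    funext fun j => hδ _ (h (Or.inr ⟨j, rfl⟩))⟩

end Pool.Agent.Work.MP_ea8963_ag.G5
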