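import Pool.Agent.Work.MP_ea8963_ag.G5.Stmts3

/-!
Block [ea8963 G5], item AKX: rank formula for the functionals of a configuration on a space of nets.
-/

set_option linter.style.longLine false
set_option linter.unusedVariables false

noncomputable section

open Module
open Pool.Agent.Work.MP_ea8963_ag.G4 (pair)

namespace Pool.Agent.Work.MP_ea8963_ag.G5

/-- the functional of an element of `RW l` on the space `K` of nets -/
def AKX_phi (p : Fin 4 → E) (l : E) (lam : Fin 4 → La) (K : Submodule ℂ T3) :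
    RW l →ₗ[ℂ] Dual ℂ K :=
  K.subtype.dualMap.comp ((valL p lam).comp (RW l).subtype)

lemma AKX_phi_apply (p : Fin 4 → E) (l : E) (lam : Fin 4 → La) (K : Submodule ℂ T3) (x : RW l)
    (t : K) : AKX_phi p l lam K x t = val p lam t.1 x.1 := rfl

lemma AKX_map_ker (p : Fin 4 → E) (l : E) (lam : Fin 4 → La) (K : Submodule ℂ T3) :
    (LinearMap.ker (AKX_phi p l lam K)).map (RW l).subtype = AK p l lam K := by
  ext x
  constructor
  · rintro ⟨y, hy, rfl⟩
    refine ⟨y.2, fun t ht => ?_⟩
    have h1 : AKX_phi p l lam K y = 0 := hy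
    exact LinearMap.congr_fun h1 ⟨t, ht⟩
  · intro hx
    refine ⟨⟨x, hx.1⟩, ?_, rfl⟩
    have h1 : AKX_phi p l lam K ⟨x, hx.1⟩ = 0 := by
      refine LinearMap.ext fun t => ?_
      rw [AKX_phi_apply]
      exact hx.2 t.1 t.2
    exact h1

/-- the inclusion -/
def AKX_inc (l : E) : ((Fin 4 → Ann ![l]) × (Fin 4 → La)) →ₗ[ℂ] XX where
  toFun x := (fun i => (x.1 i).1, x.2)
  map_add' x y := by ext <;> rfl
  map_smul' c x := by ext <;> rfl

lemma AKX_finrank_RW {l : E} (h0 : l ≠ 0) : finrank ℂ (RW l) = 32 := by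
  have h1 : RW l = LinearMap.range (AKX_inc l) := by
    ext x
    constructor
    · intro hx
      refine ⟨(fun i => ⟨x.1 i, fun j => ?_⟩, x.2), rfl⟩
      fin_cases j
      exact hx i
    · rintro ⟨y, rfl⟩ i
      exact (y.1 i).2 0
  have h2 : Function.Injective (AKX_inc l) := by
    rintro ⟨x, x'⟩ ⟨y, y'⟩ h
    have h3 := congrArg Prod.fst h
    have h4 := congrArg Prod.snd h
    refine Prod.ext ?_ h4
    funext i
    exact Subtype.ext (congrFun h3 i)
  have h5 : finrank ℂ (Ann ![l]) + 1 = 6 := finrank_Ann (by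
    rw [linearIndependent_unique_iff]
    simpa using h0)
  have h6 : finrank ℂ (Ann ![l]) = 5 := by omega
  rw [h1, LinearMap.finrank_range_of_inj h2, Module.finrank_prod, Module.finrank_pi_fintype,
    Module.finrank_pi_fintype]
  simp [h6]

lemma AKX_map_coann (p : Fin 4 → E) (l : E) (lam : Fin 4 → La) (K : Submodule ℂ T3)
    (hK : K ≤ SymT) :
    ((LinearMap.range (AKX_phi p l lam K)).dualCoannihilator).map K.subtype =
      (K ⊓ KB p l lam : Submodule ℂ T3) := by
  ext t
  constructor
  · rintro ⟨s, hs, rfl⟩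
    have hs' : ∀ x : RW l, val p lam s.1 x.1 = 0 := fun x =>
      (Submodule.mem_dualCoannihilator s).1 hs _ ⟨x, rfl⟩
    refine ⟨s.2, hK s.2, fun i v hv => ?_, fun i a => ?_⟩
    · have h1 := hs' ⟨(Pi.single i v, 0), fun j => by
        by_cases hj : j = i
        · subst hj; simpa using hv
        · simp [Pi.single_eq_of_ne hj]⟩
      simp only [val] at h1
      rw [Finset.sum_eq_single i] at h1
      · simpa [tri_zero1] using h1
      · intro j _ hj
        simp [Pi.single_eq_of_ne hj, tri_zero3, tri_zero1]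
      · intro h; exact absurd (Finset.mem_univ i) h
    · have h1 := hs' ⟨(0, Pi.single i a), fun j => by simp⟩
      simp only [val] at h1
      rw [Finset.sum_eq_single i] at h1
      · simpa [tri_zero3] using h1
      · intro j _ hj
        simp [Pi.single_eq_of_ne hj, tri_zero3, tri_zero1]
      · intro h; exact absurd (Finset.mem_univ i) h
  · rintro ⟨h0, h1, h2, h3⟩
    refine ⟨⟨t, h0⟩, ?_, rfl⟩
    rw [SetLike.mem_coe, Submodule.mem_dualCoannihilator]
    rintro _ ⟨x, rfl⟩
    rw [AKX_phi_apply]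
    simp only [val]
    refine Finset.sum_eq_zero fun i _ => ?_
    rw [h2 i _ (x.2 i), h3 i, add_zero]

theorem AKX_pf : AKX := by
  intro p l lam h0 K hK
  have h1 := pair (AKX_phi p l lam K)
  have h2 : finrank ℂ (K ⊓ KB p l lam : Submodule ℂ T3) =
      finrank ℂ ((LinearMap.range (AKX_phi p l lam K)).dualCoannihilator) := by
    rw [← AKX_map_coann p l lam K hK, Submodule.finrank_map_subtype_eq]
  have h3 : finrank ℂ (AK p l lam K) = finrank ℂ (LinearMap.ker (AKX_phi p l lam K)) := by
    rw [← AKX_map_ker, Submodule.finrank_map_subtype_eq]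
  rw [AKX_finrank_RW h0, ← h2, ← h3] at h1
  exact h1

end Pool.Agent.Work.MP_ea8963_ag.G5
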