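import Pool.Agent.Work.MP_ea8963_ag.G5.Stmts3

/-!
Block [ea8963 G5], item ALX.
-/

set_option linter.style.longLine false
set_option linter.unusedVariables false

noncomputable section

open Module Topology
open Pool.Agent.Work.MP_ea8963_ag.G4 (D ZA mem_ZA Full cl rn rn_prod rn_le finrank_map_mono
  finrank_map_prod_swap pair d_two ZA_mono)

namespace Pool.Agent.Work.MP_ea8963_ag.G5

/-- the nets `f ⊙ (c k • g)` as a linear map -/
def ALX_map (f g : E) : La →ₗ[ℂ] T3 where
  toFun c := pr f (fun k => c k • g)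
  map_add' c d := by
    ext k i j
    simp only [pr, Pi.add_apply, Pi.smul_apply, smul_eq_mul]
    ring
  map_smul' a c := by
    ext k i j
    simp only [pr, Pi.smul_apply, smul_eq_mul, RingHom.id_apply]
    ring

lemma ALX_mem2 {l m x : E} : x ∈ Ann ![l, m] ↔ l ⬝ᵥ x = 0 ∧ m ⬝ᵥ x = 0 := by
  rw [mem_Ann]
  constructor
  · intro H
    exact ⟨H 0, H 1⟩
  · rintro ⟨h0, h1⟩ i
    fin_cases i
    · exact h0
    · exact h1

lemma ALX_ind2 {l h f g : E} (H : LinearIndependent ℂ ![l, h, f, g]) :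
    LinearIndependent ℂ ![f, g] := by
  have h1 := H.comp ![2, 3] (by decide)
  have e : (![l, h, f, g] : Fin 4 → E) ∘ ![2, 3] = ![f, g] := by
    funext i
    fin_cases i <;> rfl
  rwa [e] at h1

/-- `Ann ![l, h]` is the span of `p` -/
lemma ALX_span {p : Fin 4 → E} {l h : E} (hp : LinearIndependent ℂ p)
    (hl : ∀ i, l ⬝ᵥ p i = 0) (hh : ∀ i, h ⬝ᵥ p i = 0) (hi : LinearIndependent ℂ ![l, h])
    {x : E} (hx : x ∈ Ann ![l, h]) : ∃ c : Fin 4 → ℂ, ∑ i, c i • p i = x := by
  have h1 : Submodule.span ℂ (Set.range p) ≤ Ann ![l, h] := by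
    rw [Submodule.span_le]
    rintro _ ⟨i, rfl⟩
    exact ALX_mem2.2 ⟨hl i, hh i⟩
  have h2 : finrank ℂ (Submodule.span ℂ (Set.range p)) = 4 := by
    rw [finrank_span_eq_card hp]; rfl
  have h3 : finrank ℂ (Ann ![l, h]) = 4 := Nat.add_right_cancel (m := 2) (finrank_Ann hi)
  have h4 : Submodule.span ℂ (Set.range p) = Ann ![l, h] :=
    Submodule.eq_of_le_of_finrank_eq h1 (h2.trans h3.symm)
  rw [← h4] at hx
  exact (Submodule.mem_span_range_iff_exists_fun ℂ).1 hx

theorem ALX_pf (hDEc : DEC) (hRHo : RHO) : ALX := by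
  intro s p l lam m p' l' lam' m' h h' H x hx hex
  obtain ⟨hx1, hx2, hrel⟩ := mem_RelM.1 hx
  have hlp := H.o.lp
  have hlp' := H.o'.lp
  have hind2 : LinearIndependent ℂ ![l', h'] := ALX_ind2 H.fi
  -- Step 1: the relation between the parameters
  have hsum : ∑ i, ((l ⬝ᵥ p' i) * (h' ⬝ᵥ x.2.1 i)) • lam' i = 0 := by
    apply eq_zero_of_dot
    intro e
    have h1 := hrel (sp e l h') (sp_mem _ _ _)
    have h2 : val p lam (sp e l h') x.1 = 0 := by
      apply Finset.sum_eq_zero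
      intro i _
      rw [tri_sp, tri_sp, hlp i, hx1 i]
      ring
    have h3 : val p' lam' (sp e l h') x.2
        = e ⬝ᵥ ∑ i, ((l ⬝ᵥ p' i) * (h' ⬝ᵥ x.2.1 i)) • lam' i := by
      rw [dotProduct_sum]
      apply Finset.sum_congr rfl
      intro i _
      rw [tri_sp, tri_sp, H.hp' i, dotProduct_smul, smul_eq_mul]
      ring
    rw [h2, h3, zero_add] at h1
    exact h1
  obtain ⟨ρ, hρ, -, hρu⟩ := hRHo lam' H.o'.gp
  obtain ⟨κ, hκ⟩ := hρu _ hsum
  have hκ0 : κ ≠ 0 := by
    rintro rfl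
    obtain ⟨i, hi⟩ := hex
    have h1 := congrFun hκ i
    rw [zero_smul, Pi.zero_apply] at h1
    rcases mul_eq_zero.1 h1 with h2 | h2
    · exact H.t' i h2
    · exact hi h2
  have hα : ∀ i, h' ⬝ᵥ x.2.1 i ≠ 0 := by
    intro i h0
    have h1 := congrFun hκ i
    simp only [h0, mul_zero, Pi.smul_apply, smul_eq_mul] at h1
    exact mul_ne_zero hκ0 (hρ i) h1.symm
  -- Step 2: the vector `e`
  obtain ⟨e, he⟩ := exists_solution hind2 ![0, 1]
  have he1 : l' ⬝ᵥ e = 0 := he 0
  have he2 : h' ⬝ᵥ e = 1 := he 1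
  have hl1 : LinearIndependent ℂ (![l'] : Fin 1 → E) := by
    rw [linearIndependent_unique_iff]
    simpa using H.o'.l0
  have hl2 : LinearIndependent ℂ (![l] : Fin 1 → E) := by
    rw [linearIndependent_unique_iff]
    simpa using H.o.l0
  have key : (QQ p l lam p' l' lam' x.2 ⊓ KU (Ann ![l', h']) : Submodule ℂ T3) ≤
      LinearMap.range (ALX_map l' l) := by
    rintro t ⟨⟨htK, hq1, hq2⟩, htU⟩
    obtain ⟨hts, htN⟩ := mem_KU.1 htU
    have hKB := mem_KB.1 (Submodule.mem_inf.1 htK).1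
    have hpU : ∀ i, p' i ∈ Ann ![l', h'] := fun i => ALX_mem2.2 ⟨hlp' i, H.hp' i⟩
    have hnU : ∀ i, x.2.1 i - (h' ⬝ᵥ x.2.1 i) • e ∈ Ann ![l', h'] := by
      intro i
      rw [ALX_mem2, dotProduct_sub, dotProduct_sub, dotProduct_smul, dotProduct_smul, he1, he2,
        hx2 i]
      simp
    have hdec : ∀ i, x.2.1 i = (h' ⬝ᵥ x.2.1 i) • e + (x.2.1 i - (h' ⬝ᵥ x.2.1 i) • e) := by
      intro i
      abel
    have hpe : ∀ i a, tri t a (p' i) e = 0 := by
      intro i a
      have h1 := hq1 i a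
      rw [hdec i, tri_add3, tri_smul3, htN a _ (hpU i) _ (hnU i), add_zero] at h1
      exact (mul_eq_zero.1 h1).resolve_left (hα i)
    have hne : ∀ a, ∀ n ∈ Ann ![l', h'], tri t a n e = 0 := by
      intro a n hn
      obtain ⟨c, rfl⟩ := ALX_span H.o'.ind hlp' H.hp' hind2 hn
      rw [tri_sum2]
      apply Finset.sum_eq_zero
      intro i _
      rw [tri_smul2, hpe i a, mul_zero]
    have hee0 : ∀ i, tri t (lam' i) e e = 0 := by
      intro i
      have h1 := hq2 i e he1
      rw [hpe, mul_zero, add_zero, hdec i, tri_add2, tri_smul2, hne _ _ (hnU i), add_zero] at h1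
      exact (mul_eq_zero.1 h1).resolve_left (hα i)
    have hee : ∀ a, tri t a e e = 0 := fun a =>
      tri_zero_of_dt (H.o'.gp 0 1 2 (by decide) (by decide) (by decide)) (hee0 0) (hee0 1)
        (hee0 2) a
    have hen : ∀ a, ∀ n ∈ Ann ![l', h'], tri t a e n = 0 := by
      intro a n hn
      rw [tri_comm hts]
      exact hne a n hn
    have htL : t ∈ KU (Ann (![l'] : Fin 1 → E)) := by
      refine mem_KU.2 ⟨hts, ?_⟩
      have hsp : ∀ y ∈ Ann (![l'] : Fin 1 → E), ∃ n ∈ Ann ![l', h'], y = (h' ⬝ᵥ y) • e + n := by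
        intro y hy
        have hy0 : l' ⬝ᵥ y = 0 := hy 0
        refine ⟨y - (h' ⬝ᵥ y) • e, ?_, by abel⟩
        rw [ALX_mem2, dotProduct_sub, dotProduct_sub, dotProduct_smul, dotProduct_smul, he1, he2,
          hy0]
        simp
      intro a y hy z hz
      obtain ⟨n, hn, hyn⟩ := hsp y hy
      obtain ⟨n', hn', hzn⟩ := hsp z hz
      rw [hyn, hzn, tri_add2, tri_add3, tri_add3, tri_smul2, tri_smul3, tri_smul2, tri_smul3,
        hee, hen a n' hn', hne a n hn, htN a n hn n' hn']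
      simp
    obtain ⟨r', hr'⟩ := hDEc 1 ![l'] hl1 t htL
    have hr : t = pr l' (r' 0) := by
      rw [hr', Fin.sum_univ_one]; rfl
    have hcp : ∀ i a, con (r' 0) a ⬝ᵥ p i = 0 := by
      intro i a
      have h1 := hKB.2.2 i a
      rw [hr, tri_pr] at h1
      have h2 : (l' ⬝ᵥ p i) * (con (r' 0) a ⬝ᵥ p i) = 0 := by linear_combination (1 / 2) * h1
      exact (mul_eq_zero.1 h2).resolve_left (H.t i)
    have hcv : ∀ v, l ⬝ᵥ v = 0 → ∀ k, r' 0 k ⬝ᵥ v = 0 := by
      intro v hv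
      have h1 : ∀ i, (fun k => r' 0 k ⬝ᵥ v) ⬝ᵥ lam i = 0 := by
        intro i
        have h2 := hKB.2.1 i v hv
        rw [hr, tri_pr, hcp, zero_mul, add_zero] at h2
        have h3 := (mul_eq_zero.1 h2).resolve_left (H.t i)
        rw [con_dot] at h3
        rw [dotProduct_comm]
        exact h3
      have h4 := dot_eq_zero_of_dt (H.o.gp 0 1 2 (by decide) (by decide) (by decide)) (h1 0)
        (h1 1) (h1 2)
      intro k
      exact congrFun h4 k
    have hrk : ∀ k, ∃ c : ℂ, c • l = r' 0 k := by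
      intro k
      have h1 : r' 0 k ∈ Submodule.span ℂ (Set.range (![l] : Fin 1 → E)) :=
        mem_span_of_ann hl2 (fun y hy => hcv y (hy 0) k)
      have h2 : Set.range (![l] : Fin 1 → E) = {l} := by
        ext y
        simp
      rw [h2] at h1
      exact Submodule.mem_span_singleton.1 h1
    choose c hc using hrk
    refine ⟨c, ?_⟩
    change pr l' (fun k => c k • l) = t
    rw [hr]
    congr 1
    funext k
    exact hc k
  calc finrank ℂ (QQ p l lam p' l' lam' x.2 ⊓ KU (Ann ![l', h']) : Submodule ℂ T3)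
      ≤ finrank ℂ (LinearMap.range (ALX_map l' l)) := Submodule.finrank_mono key
    _ ≤ finrank ℂ La := LinearMap.finrank_range_le _
    _ = 3 := by simp

end Pool.Agent.Work.MP_ea8963_ag.G5
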