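import Pool.Agent.Work.MP_ea8963_ag.G5.Stmts

/-!
Block [ea8963 G5], item CCX: existence of the coefficient matrix.
-/

set_option linter.style.longLine false
set_option linter.unusedVariables false

noncomputable section

open Module Topology

namespace Pool.Agent.Work.MP_ea8963_ag.G5

lemma CCX_third : ∀ i k : Fin 4, i ≠ k → ∃ j : Fin 4, j ≠ i ∧ j ≠ k := by decide

lemma CCX_zero1 {p : Fin 4 → E} {l : E} {lam : Fin 4 → La} (hl : ∀ i, l ⬝ᵥ p i = 0) {t : T3}
    (ht : t ∈ KB p l lam) (i k : Fin 4) : tri t (lam i) (p i) (p k) = 0 :=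
  (mem_KB.1 ht).2.1 i (p k) (hl k)

lemma CCX_zero2 {p : Fin 4 → E} {l : E} {lam : Fin 4 → La} (hl : ∀ i, l ⬝ᵥ p i = 0) {t : T3}
    (ht : t ∈ KB p l lam) (i k : Fin 4) : tri t (lam k) (p i) (p k) = 0 := by
  rw [tri_comm (mem_KB.1 ht).1]
  exact CCX_zero1 hl ht k i

lemma CCX_ex {p : Fin 4 → E} {l : E} {lam : Fin 4 → La} (hG : GP lam) (hl : ∀ i, l ⬝ᵥ p i = 0)
    {t : T3} (ht : t ∈ KB p l lam) (i k : Fin 4) :
    ∃ x : ℂ, (∀ a, tri t a (p i) (p k) = x * dt a (lam i) (lam k)) ∧ (i = k → x = 0) := by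
  by_cases hik : i = k
  · subst hik
    refine ⟨0, fun a => ?_, fun _ => rfl⟩
    rw [(mem_KB.1 ht).2.2 i a, zero_mul]
  · obtain ⟨j, hji, hjk⟩ := CCX_third i k hik
    have hd : dt (lam j) (lam i) (lam k) ≠ 0 := hG j i k hji hjk hik
    refine ⟨tri t (lam j) (p i) (p k) / dt (lam j) (lam i) (lam k), fun a => ?_,
      fun h => absurd h hik⟩
    have h1 := congrArg (fun y => tri t y (p i) (p k)) (dt_cramer (lam j) (lam i) (lam k) a)
    simp only [tri_add1, tri_smul1, CCX_zero1 hl ht, CCX_zero2 hl ht, mul_zero, add_zero] at h1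
    rw [div_mul_eq_mul_div, eq_div_iff hd]
    linear_combination h1

theorem CCX_pf : CCX := by
  intro p l lam hG hl t ht
  choose c hc using CCX_ex hG hl ht
  refine ⟨c, fun i k a => (hc i k).1 a, fun i k => ?_⟩
  by_cases hik : i = k
  · subst hik
    rw [(hc i i).2 rfl, neg_zero]
  · obtain ⟨j, hji, hjk⟩ := CCX_third i k hik
    have hd : dt (lam j) (lam i) (lam k) ≠ 0 := hG j i k hji hjk hik
    have h1 := (hc i k).1 (lam j)
    have h2 := (hc k i).1 (lam j)
    rw [tri_comm (mem_KB.1 ht).1, h1, dt_swap23 (lam j) (lam i) (lam k)] at h2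
    have h3 : (c k i + c i k) * dt (lam j) (lam i) (lam k) = 0 := by
      linear_combination h2
    rcases mul_eq_zero.1 h3 with h | h
    · linear_combination h
    · exact absurd h hd

end Pool.Agent.Work.MP_ea8963_ag.G5
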