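import Pool.Agent.Work.MP_ea8963_ag.G5.Stmts

/-!
Block [ea8963 G5], item CFX: the coefficients of the matrix `c` and its Pfaffian are not zero.
-/

set_option linter.style.longLine false
set_option linter.unusedVariables false

noncomputable section

open Module Topology
open Pool.Agent.Work.MP_ea8963_ag.G4 (D)

namespace Pool.Agent.Work.MP_ea8963_ag.G5

lemma CFX_third : ∀ i k : Fin 4, i ≠ k → ∃ j : Fin 4, j ≠ i ∧ j ≠ k := by decide

/-- a derivation which kills three vectors kills their determinant -/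
lemma CFX_dt {δ : D} {a b c : La} (ha : dE δ a = 0) (hb : dE δ b = 0) (hc : dE δ c = 0) :
    δ (dt a b c) = 0 := by
  have ha' : ∀ i, δ (a i) = 0 := fun i => congrFun ha i
  have hb' : ∀ i, δ (b i) = 0 := fun i => congrFun hb i
  have hc' : ∀ i, δ (c i) = 0 := fun i => congrFun hc i
  rw [dt_def]
  simp only [map_add, map_sub, Derivation.leibniz, ha', hb', hc', smul_zero, add_zero, sub_zero]

lemma CFX_mem {p : Fin 4 → E} {l : E} {lam : Fin 4 → La} {a : Fin 4 → E}
    (ha : ∀ i j, a i ⬝ᵥ p j = if i = j then 1 else 0) {i k : Fin 4} (hik : i ≠ k) :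
    sp (cr (lam i) (lam k)) (a i) (a k) ∈ KB p l lam := by
  refine mem_KB.2 ⟨sp_mem _ _ _, fun m v _ => ?_, fun m b => ?_⟩
  · rw [tri_sp]
    by_cases h1 : m = i
    · have h2 : cr (lam i) (lam k) ⬝ᵥ lam m = 0 := by
        rw [h1, dotProduct_comm]
        exact dt_self12 (lam i) (lam k)
      rw [h2, zero_mul]
    · by_cases h3 : m = k
      · have h2 : cr (lam i) (lam k) ⬝ᵥ lam m = 0 := by
          rw [h3, dotProduct_comm]
          exact dt_self13 (lam k) (lam i)
        rw [h2, zero_mul]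
      · rw [ha i m, ha k m, if_neg (Ne.symm h1), if_neg (Ne.symm h3)]
        ring
  · rw [tri_sp, ha i m, ha k m]
    by_cases h1 : i = m
    · have h3 : ¬ k = m := fun h => hik (h1.trans h.symm)
      rw [if_neg h3]
      ring
    · rw [if_neg h1]
      ring

lemma CFX_der {s : T3} {p : Fin 4 → E} {l : E} {lam : Fin 4 → La}
    (hi : LinearIndependent ℂ p) (hG : GP lam)
    (hfull : ∀ t ∈ KB p l lam, ∃ δ ∈ ZC p l lam, dT δ s = t) {c : Fin 4 → Fin 4 → ℂ}
    (hc : CC p lam s c) {i k : Fin 4} (hik : i ≠ k) : ∃ δ : D, ∀ i' k', i' ≠ k' →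
      δ (c i' k') = (if i = i' then 1 else 0) * (if k = k' then 1 else 0) -
        (if k = i' then 1 else 0) * (if i = k' then 1 else 0) := by
  obtain ⟨a, ha⟩ := exists_dual hi
  obtain ⟨δ, hδ, hδt⟩ := hfull _ (CFX_mem (l := l) (lam := lam) ha hik)
  obtain ⟨h1, h2, h3⟩ := mem_ZC.1 hδ
  refine ⟨δ, fun i' k' hik' => ?_⟩
  obtain ⟨j, hji, hjk⟩ := CFX_third i' k' hik'
  have hd : dt (lam j) (lam i') (lam k') ≠ 0 := hG j i' k' hji hjk hik'
  have e1 := d_tri δ s (lam j) (p i') (p k')
  rw [hc.eq i' k' (lam j), δ.leibniz, CFX_dt (h3 j) (h3 i') (h3 k'), smul_zero, zero_add,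
    smul_eq_mul, h3 j, h1 i', h1 k', tri_zero1, tri_zero2, tri_zero3, add_zero, add_zero, add_zero,
    hδt, tri_sp, ha i i', ha k k', ha k i', ha i k', dotProduct_comm] at e1
  change dt (lam j) (lam i') (lam k') * δ (c i' k') = dt (lam j) (lam i) (lam k) * _ at e1
  by_cases g1 : i = i' ∧ k = k'
  · obtain ⟨rfl, rfl⟩ := g1
    have g2 : ¬ k = i := fun h => hik h.symm
    rw [if_pos rfl, if_pos rfl, if_neg g2] at e1 ⊢
    apply mul_left_cancel₀ hd
    linear_combination e1
  · by_cases g2 : k = i' ∧ i = k'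
    · obtain ⟨rfl, rfl⟩ := g2
      have g3 : ¬ k = i := fun h => hik h.symm
      rw [if_pos rfl, if_pos rfl, if_neg g3, if_neg hik] at e1 ⊢
      have e2 := dt_swap23 (lam j) (lam k) (lam i)
      apply mul_left_cancel₀ hd
      rw [e2] at e1
      linear_combination e1
    · have e2 : ((if i = i' then 1 else 0 : ℂ)) * (if k = k' then 1 else 0) = 0 := by
        by_cases g3 : i = i'
        · have g4 : ¬ k = k' := fun h => g1 ⟨g3, h⟩
          rw [if_neg g4, mul_zero]
        · rw [if_neg g3, zero_mul]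
      have e3 : ((if k = i' then 1 else 0 : ℂ)) * (if i = k' then 1 else 0) = 0 := by
        by_cases g3 : k = i'
        · have g4 : ¬ i = k' := fun h => g2 ⟨g3, h⟩
          rw [if_neg g4, mul_zero]
        · rw [if_neg g3, zero_mul]
      rw [e2, e3] at e1 ⊢
      apply mul_left_cancel₀ hd
      linear_combination e1

theorem CFX_pf (hCC : CCX) : CFX := by
  intro s hs p l lam hi hG hl hsK hfull
  obtain ⟨c, hc⟩ := hCC p l lam hG hl s hsK
  have hne : ∀ i k, i ≠ k → c i k ≠ 0 := by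
    intro i k hik h0
    obtain ⟨δ, hδ⟩ := CFX_der hi hG hfull hc hik
    have h1 := hδ i k hik
    have h2 : ¬ k = i := fun h => hik h.symm
    rw [h0, map_zero, if_pos rfl, if_pos rfl, if_neg h2] at h1
    norm_num at h1
  refine ⟨c, hc, hne, fun h0 => ?_⟩
  obtain ⟨δ, hδ⟩ := CFX_der hi hG hfull hc (show (0 : Fin 4) ≠ 1 by decide)
  have h01 := hδ 0 1 (by decide)
  have h23 := hδ 2 3 (by decide)
  have h02 := hδ 0 2 (by decide)
  have h13 := hδ 1 3 (by decide)
  have h03 := hδ 0 3 (by decide)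
  have h12 := hδ 1 2 (by decide)
  simp at h01 h23 h02 h13 h03 h12
  have h1 : δ (Pf c) = c 2 3 := by
    rw [Pf]
    simp only [map_add, map_sub, Derivation.leibniz, smul_eq_mul, h01, h23, h02, h13, h03, h12]
    ring
  rw [h0, map_zero] at h1
  exact hne 2 3 (by decide) h1.symm

end Pool.Agent.Work.MP_ea8963_ag.G5
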