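import Pool.Agent.Work.MP_ea8963_ag.G5.Stmts3

/-! Block [ea8963 G5], item CLX: at most one Pluecker coordinate vanishes. -/

set_option linter.style.longLine false
set_option linter.unusedVariables false

noncomputable section

open Module Topology
open Pool.Agent.Work.MP_ea8963_ag.G4 (D ZA mem_ZA Full cl rn rn_prod rn_le finrank_map_mono
  finrank_map_prod_swap pair d_two ZA_mono)

namespace Pool.Agent.Work.MP_ea8963_ag.G5

/-- the vector `p i - x p k` is in the plane -/
lemma CLX_mem {p : Fin 4 → E} {l h l' h' : E} (hl : ∀ i, l ⬝ᵥ p i = 0) (hh : ∀ i, h ⬝ᵥ p i = 0)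
    (ht : ∀ i, l' ⬝ᵥ p i ≠ 0) {i k : Fin 4} (hz : zz l' h' p i k = 0) :
    p i - ((l' ⬝ᵥ p i) / (l' ⬝ᵥ p k)) • p k ∈ PP l h l' h' := by
  rw [mem_PP]
  have h2 := ht k
  refine ⟨?_, ?_, ?_, ?_⟩
  · rw [dotProduct_sub, dotProduct_smul, hl, hl, smul_zero, sub_zero]
  · rw [dotProduct_sub, dotProduct_smul, hh, hh, smul_zero, sub_zero]
  · rw [dotProduct_sub, dotProduct_smul, smul_eq_mul, div_mul_cancel₀ _ h2, sub_self]
  · rw [dotProduct_sub, dotProduct_smul, smul_eq_mul]
    rw [zz] at hz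
    field_simp
    linear_combination hz

/-- independence of the two vectors -/
lemma CLX_ind {p : Fin 4 → E} (hp : LinearIndependent ℂ p) {x y : ℂ} (hx : x ≠ 0)
    {i k i' k' : Fin 4} (hik : i ≠ k) (hik' : i' ≠ k')
    (hne : ¬ ((i = i' ∧ k = k') ∨ (i = k' ∧ k = i'))) :
    LinearIndependent ℂ ![p i - x • p k, p i' - y • p k'] := by
  rw [LinearIndependent.pair_iff]
  intro a b hab
  rw [Fintype.linearIndependent_iff] at hp
  have key := hp (fun j => a * ((if j = i then 1 else 0) - x * (if j = k then 1 else 0)) +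
    b * ((if j = i' then 1 else 0) - y * (if j = k' then 1 else 0))) (by
      simp only [add_smul, mul_smul, sub_smul, Finset.sum_add_distrib, ← Finset.smul_sum,
        Finset.sum_sub_distrib, ite_smul, one_smul, zero_smul, Finset.sum_ite_eq',
        Finset.mem_univ, if_true]
      exact hab)
  have ha : a = 0 := by
    by_cases h1 : i ≠ i' ∧ i ≠ k'
    · have h2 := key i
      simp only [if_true, if_neg hik, if_neg h1.1, if_neg h1.2] at h2
      linear_combination h2
    · have h3 : k ≠ i' ∧ k ≠ k' := by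
        constructor
        · rintro rfl
          apply h1
          refine ⟨hik, fun h4 => hne (Or.inr ⟨h4, rfl⟩)⟩
        · rintro rfl
          apply h1
          refine ⟨fun h4 => hne (Or.inl ⟨h4, rfl⟩), hik⟩
      have h2 := key k
      simp only [if_true, if_neg hik.symm, if_neg h3.1, if_neg h3.2] at h2
      have h4 : a * x = 0 := by linear_combination -h2
      exact (mul_eq_zero.1 h4).resolve_right hx
  refine ⟨ha, ?_⟩
  have h2 := key i'
  simp only [if_true, if_neg hik', ha] at h2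
  linear_combination h2

/-- the rank bound -/
lemma CLX_rank {p : Fin 4 → E} {l : E} {lam : Fin 4 → La} (x y : ℂ) (i k i' k' : Fin 4) :
    finrank ℂ ((ZC p l lam).map (evP ![p i - x • p k, p i' - y • p k'])) ≤ 2 := by
  have h1 : (ZC p l lam).map (evP ![p i - x • p k, p i' - y • p k']) ≤
      Submodule.span ℂ (Set.range (![![p k, 0], ![0, p k']] : Fin 2 → Fin 2 → E)) := by
    rintro _ ⟨δ, hδ, rfl⟩
    have hp := (mem_ZC.1 hδ).1
    have h2 : evP ![p i - x • p k, p i' - y • p k'] δ =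
        (-(δ x)) • (![p k, 0] : Fin 2 → E) + (-(δ y)) • (![0, p k'] : Fin 2 → E) := by
      funext j
      fin_cases j
      · simp [dE_sub, dE_smul, hp]
      · simp [dE_sub, dE_smul, hp]
    rw [h2]
    refine Submodule.add_mem _ (Submodule.smul_mem _ _ (Submodule.subset_span ⟨0, rfl⟩))
      (Submodule.smul_mem _ _ (Submodule.subset_span ⟨1, rfl⟩))
  refine (Submodule.finrank_mono h1).trans ?_
  have h3 := finrank_range_le_card (R := ℂ) (![![p k, 0], ![0, p k']] : Fin 2 → Fin 2 → E)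
  rw [Fintype.card_fin] at h3
  exact h3

theorem CLX_pf (hPDx : PDX) : CLX := by
  intro s p l lam m p' l' lam' m' h h' H i k i' k' hik hik' hz hz'
  by_contra hne
  have h1 := hPDx s p l lam m p' l' lam' m' h h' H _ _
    (CLX_ind (x := (l' ⬝ᵥ p i) / (l' ⬝ᵥ p k)) (y := (l' ⬝ᵥ p i') / (l' ⬝ᵥ p k')) H.o.ind
      (div_ne_zero (H.t i) (H.t k)) hik hik' hne)
    (CLX_mem H.o.lp H.hp H.t hz) (CLX_mem H.o.lp H.hp H.t hz')
  have h2 := CLX_rank (p := p) (l := l) (lam := lam) ((l' ⬝ᵥ p i) / (l' ⬝ᵥ p k))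
    ((l' ⬝ᵥ p i') / (l' ⬝ᵥ p k')) i k i' k'
  omega

end Pool.Agent.Work.MP_ea8963_ag.G5
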