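import Pool.Agent.Work.MP_ea8963_ag.G5.Stmts3

/-!
Block [ea8963 G5], item CLY.  Author helper9.
-/

set_option linter.style.longLine false

noncomputable section

open Module
open Pool.Agent.Work.MP_ea8963_ag.G4 (D rn_le)

namespace Pool.Agent.Work.MP_ea8963_ag.G5

lemma CLY_single {n k : ℕ} {c : Fin k → Fin n} (hc : Function.Injective c) :
    LinearIndependent ℂ (fun j : Fin k => (Pi.single (c j) 1 : Fin n → ℂ)) := by
  have h1 := (Pi.basisFun ℂ (Fin n)).linearIndependent.comp c hc
  have h2 : (Pi.basisFun ℂ (Fin n)) ∘ c = fun j : Fin k => (Pi.single (c j) 1 : Fin n → ℂ) := by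
    funext j
    simp
  rwa [h2] at h1

/-- the pairs `(a p_k, sum b_j p_j)` -/
def CLY_L (p : Fin 4 → E) (k : Fin 4) : ℂ × (Fin 4 → ℂ) →ₗ[ℂ] (Fin 2 → E) where
  toFun z := ![z.1 • p k, ∑ j, z.2 j • p j]
  map_add' z z' := by
    funext i
    fin_cases i
    · change (z.1 + z'.1) • p k = z.1 • p k + z'.1 • p k
      rw [add_smul]
    · change ∑ j, (z.2 j + z'.2 j) • p j = ∑ j, z.2 j • p j + ∑ j, z'.2 j • p j
      simp only [add_smul, Finset.sum_add_distrib]
  map_smul' c z := by
    funext i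
    fin_cases i
    · change (c * z.1) • p k = c • (z.1 • p k)
      rw [mul_smul]
    · change ∑ j, (c * z.2 j) • p j = c • ∑ j, z.2 j • p j
      simp only [mul_smul, Finset.smul_sum]

/-- the count -/
lemma CLY_count {p : Fin 4 → E} {l : E} {lam : Fin 4 → La} {i j k : Fin 4} (hij : i ≠ j) {x : ℂ}
    {w : Fin 4 → ℂ} (hwi : w i = 0) (hwj : w j = 1) :
    finrank ℂ ((ZC p l lam).map (evP ![p i - x • p k, ∑ j, w j • p j])) ≤ 3 := by
  have hinj : Function.Injective ![i, j] := by
    intro a b hab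
    fin_cases a <;> fin_cases b <;> simp_all
  set B : Submodule ℂ (Fin 4 → ℂ) :=
    Ann (fun t : Fin 2 => (Pi.single (![i, j] t) 1 : Fin 4 → ℂ)) with hB
  have hBf : finrank ℂ B + 2 = 4 := finrank_Ann (CLY_single hinj)
  set Λ : (ℂ × B) →ₗ[ℂ] (Fin 2 → E) := (CLY_L p k).comp (LinearMap.prodMap LinearMap.id B.subtype)
    with hΛ
  have h1 : finrank ℂ (LinearMap.range Λ) ≤ 3 := by
    refine (LinearMap.finrank_range_le Λ).trans ?_
    rw [Module.finrank_prod, Module.finrank_self]
    omega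
  refine (Submodule.finrank_mono ?_).trans h1
  rintro _ ⟨δ, hδ, rfl⟩
  obtain ⟨hp, -, -⟩ := mem_ZC.1 hδ
  have hmem : (fun j => δ (w j)) ∈ B := by
    rw [hB, mem_Ann]
    intro t
    rw [single_dotProduct, one_mul]
    fin_cases t
    · change δ (w i) = 0
      rw [hwi, map_zero]
    · change δ (w j) = 0
      rw [hwj]
      exact Derivation.map_one_eq_zero δ
  refine ⟨(-δ x, ⟨fun j => δ (w j), hmem⟩), ?_⟩
  funext t
  fin_cases t
  · change (-δ x) • p k = dE δ (p i - x • p k)
    rw [dE_sub, dE_smul, hp, hp, smul_zero, add_zero, zero_sub, neg_smul]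
  · change ∑ j, (δ (w j)) • p j = dE δ (∑ j, w j • p j)
    rw [dE_sum]
    refine Finset.sum_congr rfl fun j _ => ?_
    rw [dE_smul, hp, smul_zero, add_zero]

theorem CLY_pf (hPDy : PDY) : CLY := by
  intro s p l lam m p' l' lam' m' h h' H i k c d hik hcd hz hz'
  have hlk : l' ⬝ᵥ p k ≠ 0 := H.t k
  have hli : l' ⬝ᵥ p i ≠ 0 := H.t i
  set x : ℂ := (l' ⬝ᵥ p i) / (l' ⬝ᵥ p k) with hx
  set u1 : E := p i - x • p k with hu1
  have hu1P : u1 ∈ PP l h l' h' := by
    rw [mem_PP]
    refine ⟨?_, ?_, ?_, ?_⟩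
    · rw [hu1, dotProduct_sub, dotProduct_smul, H.o.lp, H.o.lp, smul_zero, sub_zero]
    · rw [hu1, dotProduct_sub, dotProduct_smul, H.hp, H.hp, smul_zero, sub_zero]
    · rw [hu1, dotProduct_sub, dotProduct_smul, hx, smul_eq_mul, div_mul_cancel₀ _ hlk, sub_self]
    · rw [hu1, dotProduct_sub, dotProduct_smul, hx, smul_eq_mul]
      have e : (h' ⬝ᵥ p i) * (l' ⬝ᵥ p k) - (h' ⬝ᵥ p k) * (l' ⬝ᵥ p i) = 0 := hz
      field_simp
      linear_combination e
  have hu10 : u1 ≠ 0 := by
    intro h0
    have h1 := Fintype.linearIndependent_iff.1 H.o.ind (fun j => if j = i then 1 else if j = k then -x else 0)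
      (by
        have e : ∑ j, (if j = i then 1 else if j = k then -x else 0 : ℂ) • p j = u1 := by
          rw [hu1]
          fin_cases i <;> fin_cases k <;> simp [Fin.sum_univ_succ] at hik ⊢ <;> abel
        rw [e, h0]) i
    simp at h1
  -- a second vector of the plane
  have hPf : finrank ℂ (PP l h l' h') + 4 = 6 := finrank_Ann H.fi
  obtain ⟨v, hvP, hv⟩ : ∃ v ∈ PP l h l' h', v ∉ Submodule.span ℂ {u1} := by
    by_contra hcon
    push Not at hcon
    have h1 : PP l h l' h' ≤ Submodule.span ℂ {u1} := fun v hv => hcon v hv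
    have h2 := Submodule.finrank_mono h1
    rw [finrank_span_singleton hu10] at h2
    omega
  -- it is in the span of `p`
  have hlh : LinearIndependent ℂ ![l, h] := by
    have h1 := H.fi.comp ![0, 1] (by decide)
    have e : (![l, h, l', h'] : Fin 4 → E) ∘ ![0, 1] = ![l, h] := by
      funext i
      fin_cases i <;> rfl
    rwa [e] at h1
  have hspan : Submodule.span ℂ (Set.range p) = Ann ![l, h] := by
    apply Submodule.eq_of_le_of_finrank_eq
    · rw [Submodule.span_le]
      rintro _ ⟨j, rfl⟩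
      intro t
      fin_cases t
      · exact H.o.lp j
      · exact H.hp j
    · have h1 : finrank ℂ (Ann ![l, h]) + 2 = 6 := finrank_Ann hlh
      have h2 : finrank ℂ (Submodule.span ℂ (Set.range p)) = 4 := by
        have h3 := finrank_span_eq_card H.o.ind
        rwa [Fintype.card_fin] at h3
      have h4 : finrank ℂ (Ann ![l, h]) = 4 := by omega
      rw [h2]
      exact h4.symm
  have hvs : v ∈ Submodule.span ℂ (Set.range p) := by
    rw [hspan]
    obtain ⟨h0, h1, -, -⟩ := mem_PP.1 hvP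
    intro t
    fin_cases t
    · exact h0
    · exact h1
  obtain ⟨w, hw⟩ := (Submodule.mem_span_range_iff_exists_fun ℂ).1 hvs
  -- subtract a multiple of `u1`
  set w' : Fin 4 → ℂ := fun j => w j - w i * (if j = i then 1 else if j = k then -x else 0) with hw'
  have e1 : ∑ j, (if j = i then 1 else if j = k then -x else 0 : ℂ) • p j = u1 := by
    rw [hu1]
    fin_cases i <;> fin_cases k <;> simp [Fin.sum_univ_succ] at hik ⊢ <;> abel
  have hv' : ∑ j, w' j • p j = v - w i • u1 := by
    rw [← e1, ← hw, Finset.smul_sum, ← Finset.sum_sub_distrib]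
    refine Finset.sum_congr rfl fun j _ => ?_
    rw [hw', sub_smul, mul_smul]
  have hw'i : w' i = 0 := by simp [hw']
  obtain ⟨j, hj⟩ : ∃ j, w' j ≠ 0 := by
    by_contra hcon
    push Not at hcon
    have h0 : v - w i • u1 = 0 := by
      rw [← hv']
      simp [hcon]
    apply hv
    rw [sub_eq_zero.1 h0]
    exact Submodule.smul_mem _ _ (Submodule.mem_span_singleton_self u1)
  have hij : i ≠ j := by
    rintro rfl
    exact hj hw'i
  set w'' : Fin 4 → ℂ := fun t => (w' j)⁻¹ * w' t with hw''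
  have hw''i : w'' i = 0 := by simp [hw'', hw'i]
  have hw''j : w'' j = 1 := by simp [hw'', inv_mul_cancel₀ hj]
  have hu2 : ∑ t, w'' t • p t = (w' j)⁻¹ • (v - w i • u1) := by
    rw [← hv', Finset.smul_sum]
    refine Finset.sum_congr rfl fun t _ => ?_
    rw [hw'', mul_smul]
  have hu2P : ∑ t, w'' t • p t ∈ PP l h l' h' := by
    rw [hu2]
    exact Submodule.smul_mem _ _ (Submodule.sub_mem _ hvP (Submodule.smul_mem _ _ hu1P))
  have hI : LinearIndependent ℂ ![u1, ∑ t, w'' t • p t] := by
    rw [LinearIndependent.pair_iff' hu10]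
    intro a ha
    apply hv
    rw [hu2] at ha
    have h1 : v = (w' j * a + w i) • u1 := by
      have h2 : w' j • (a • u1) = v - w i • u1 := by
        rw [ha, smul_smul, mul_inv_cancel₀ hj, one_smul]
      rw [add_smul, mul_smul, h2, sub_add_cancel]
    rw [h1]
    exact Submodule.smul_mem _ _ (Submodule.mem_span_singleton_self u1)
  have h4 := hPDy s p l lam m p' l' lam' m' h h' H u1 _ hI hu1P hu2P c d hcd hz'
  have h3 := CLY_count (p := p) (l := l) (lam := lam) (k := k) (x := x) hij hw''i hw''j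
  rw [← hu1] at h3
  omega

end Pool.Agent.Work.MP_ea8963_ag.G5
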