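import Pool.Agent.Work.MP_ea8963_ag.G5.Stmts2

/-!
Block [ea8963 G5], item COX: near a configuration every solution is a configuration.
-/

set_option linter.style.longLine false

noncomputable section

open Module Topology

namespace Pool.Agent.Work.MP_ea8963_ag.G5

namespace I_COX

lemma cont_pOf (i : Fin 4) : Continuous (fun z : T3 × Y => pOf z.2 i) := by
  unfold pOf
  fun_prop

lemma cont_laOf (i : Fin 4) : Continuous (fun z : T3 × Y => laOf z.2 i) := by
  unfold laOf
  fun_prop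

lemma cont_cov : Continuous (fun z : T3 × La × E => cov z.1 z.2.1 z.2.2) := by
  unfold cov
  fun_prop

lemma cont_om (i : Fin 4) : Continuous (fun z : T3 × Y => om z.1 z.2 i) := by
  have h2 : Continuous (fun z : T3 × Y => ((z.1, laOf z.2 i, pOf z.2 i) : T3 × La × E)) :=
    continuous_fst.prodMk ((cont_laOf i).prodMk (cont_pOf i))
  have h3 := Continuous.comp cont_cov h2
  exact h3

lemma tri_of_single {s : T3} {p : E} (h : ∀ k, tri s (Pi.single k 1) p p = 0) (a : La) :
    tri s a p p = 0 := by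
  have ha : a = ∑ k, a k • (Pi.single k (1 : ℂ) : La) := by
    funext j
    simp [Finset.sum_apply, Pi.single_apply]
  rw [ha, tri_sum1]
  exact Finset.sum_eq_zero fun k _ => by rw [tri_smul1, h k, mul_zero]

lemma of_Phi {s : T3} {y : Y} (h : Phi s y = 0) :
    (∀ i (a : La), tri s a (pOf y i) (pOf y i) = 0) ∧ ∀ j : Fin 3, om s y 0 = om s y j.succ := by
  have h1 : (fun i k => tri s (Pi.single k 1) (pOf y i) (pOf y i)) = (0 : Fin 4 → Fin 3 → ℂ) :=
    congrArg (fun x => x.1) h
  have h2 : (fun j : Fin 3 => om s y 0 - om s y j.succ) = (0 : Fin 3 → E) :=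
    congrArg (fun x => x.2) h
  exact ⟨fun i => tri_of_single fun k => congrFun (congrFun h1 i) k,
    fun j => sub_eq_zero.1 (congrFun h2 j)⟩

end I_COX

open I_COX in
/-- ITEM COX -/
theorem COX_pf (hNOX : NOX) : COX := by
  intro s y hy
  have h1 : ∀ᶠ z : T3 × Y in 𝓝 (s, y), LinearIndependent ℂ (pOf z.2) := by
    have hc : Continuous (fun z : T3 × Y => pOf z.2) := continuous_pi fun i => cont_pOf i
    have ho : IsOpen {f : Fin 4 → E | LinearIndependent ℂ f} := isOpen_setOfPred_linearIndependent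
    have hm : {f : Fin 4 → E | LinearIndependent ℂ f} ∈ 𝓝 (pOf y) := ho.mem_nhds hy.ind
    exact (hc.tendsto (s, y)) hm
  have h2 : ∀ᶠ z : T3 × Y in 𝓝 (s, y), om z.1 z.2 0 ≠ 0 :=
    (cont_om 0).continuousAt.eventually_ne hy.l0
  have h3 : ∀ i, ∀ᶠ z : T3 × Y in 𝓝 (s, y),
      (∀ e : La, tri z.1 e (pOf z.2 i) (pOf z.2 i) = 0) → Nd z.1 (pOf z.2 i) (laOf z.2 i) := by
    intro i
    have hc : Continuous (fun z : T3 × Y => ((z.1, pOf z.2 i, laOf z.2 i) : T3 × E × La)) :=
      continuous_fst.prodMk ((cont_pOf i).prodMk (cont_laOf i))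
    exact (hc.tendsto (s, y)).eventually (hNOX s (pOf y i) (laOf y i) (hy.nd i))
  filter_upwards [h1, h2, Filter.eventually_all.2 h3] with z g1 g2 g3 hz
  obtain ⟨e1, e2⟩ := of_Phi hz
  refine ⟨e1, ?_, g1, fun i => g3 i (e1 i), g2⟩
  intro i
  refine Fin.cases rfl (fun j => ?_) i
  exact (e2 j).symm

end Pool.Agent.Work.MP_ea8963_ag.G5
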