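import Pool.Agent.Work.MP_ea8963_ag.G5.Stmts2

/-!
Block [ea8963 G5], item CRX: explicit linear equations for `KB`.
-/

set_option linter.style.longLine false
set_option linter.unusedVariables false

noncomputable section

open Module Topology

namespace Pool.Agent.Work.MP_ea8963_ag.G5

namespace I_CRX

lemma dot_pair (l : E) (u w : Fin 6) :
    l ⬝ᵥ (l u • Pi.single w 1 - l w • Pi.single u 1) = 0 := by
  rw [dotProduct_sub, dotProduct_smul, dotProduct_smul, dotProduct_single_one,
    dotProduct_single_one, smul_eq_mul, smul_eq_mul]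
  ring

lemma expand (l v : E) (u : Fin 6) (h : l ⬝ᵥ v = 0) :
    l u • v = ∑ w, v w • (l u • (Pi.single w 1 : E) - l w • Pi.single u 1) := by
  have h1 : ∑ w, v w * l w = 0 := by
    rw [← h, dotProduct]
    exact Finset.sum_congr rfl fun w _ => mul_comm _ _
  have h2 : (∑ w, v w • (Pi.single w 1 : E)) = v := by
    ext j
    simp [Finset.sum_apply, Pi.single_apply]
  simp only [smul_sub, Finset.sum_sub_distrib, smul_smul]
  rw [← Finset.sum_smul, h1, zero_smul, sub_zero]
  conv_lhs => rw [← h2]
  rw [Finset.smul_sum]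
  refine Finset.sum_congr rfl fun w _ => ?_
  rw [smul_smul, mul_comm]

lemma expand_a (a : La) : a = ∑ k, a k • (Pi.single k 1 : La) := by
  ext j
  simp [Finset.sum_apply, Pi.single_apply]

end I_CRX

open I_CRX in
theorem CRX_pf : CRX := by
  intro p l lam hl t
  rw [mem_KB]
  constructor
  · rintro ⟨h1, h2, h3⟩
    exact ⟨h1, fun i u w => h2 i _ (dot_pair l u w), fun i k => h3 i _⟩
  · rintro ⟨h1, h2, h3⟩
    refine ⟨h1, fun i v hv => ?_, fun i a => ?_⟩
    · obtain ⟨u, hu⟩ : ∃ u, l u ≠ 0 := by
        by_contra hcon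
        push Not at hcon
        exact hl (funext hcon)
      have h4 : tri t (lam i) (p i) (l u • v) = 0 := by
        rw [expand l v u hv, tri_sum3]
        refine Finset.sum_eq_zero fun w _ => ?_
        rw [tri_smul3, h2 i u w, mul_zero]
      rw [tri_smul3] at h4
      exact (mul_eq_zero.1 h4).resolve_left hu
    · rw [expand_a a, tri_sum1]
      refine Finset.sum_eq_zero fun k _ => ?_
      rw [tri_smul1, h3 i k, mul_zero]

end Pool.Agent.Work.MP_ea8963_ag.G5
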