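import Pool.Agent.Work.MP_ea8963_ag.G5.Stmts2

/-!
Item CTX of block [ea8963 G5]: configurations are transported by automorphisms (after G4).
-/

set_option linter.style.longLine false
set_option linter.unusedVariables false

noncomputable section

open Module Topology

namespace Pool.Agent.Work.MP_ea8963_ag.G5

namespace I_CTX

variable (σ : ℂ ≃+* ℂ)

lemma mE_add {ι : Type*} (x y : ι → ℂ) : mE σ (x + y) = mE σ x + mE σ y := by
  ext i; simp [mE]

lemma mE_smul {ι : Type*} (c : ℂ) (x : ι → ℂ) : mE σ (c • x) = σ c • mE σ x := by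
  ext i; simp [mE]

lemma mE_zero {ι : Type*} : mE σ (0 : ι → ℂ) = 0 := by
  ext i; simp [mE]

/-- `mE` as an additive map -/
def mEh : E →+ E where
  toFun := mE σ
  map_zero' := mE_zero σ
  map_add' := mE_add σ

lemma mEh_apply (x : E) : mEh σ x = mE σ x := rfl

lemma mE_symm {ι : Type*} (x : ι → ℂ) : mE σ.symm (mE σ x) = x := by
  ext i; simp [mE]

lemma mE_symm' {ι : Type*} (x : ι → ℂ) : mE σ (mE σ.symm x) = x := by
  ext i; simp [mE]

lemma mE_eq_zero {ι : Type*} {x : ι → ℂ} (h : mE σ x = 0) : x = 0 := by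
  rw [← mE_symm σ x, h, mE_zero]

lemma mE_sum {n : ℕ} (g : Fin n → ℂ) (v : Fin n → E) :
    mE σ (∑ i, g i • v i) = ∑ i, σ (g i) • mE σ (v i) := by
  rw [← mEh_apply, map_sum]
  refine Finset.sum_congr rfl fun i _ => ?_
  rw [mEh_apply, mE_smul]

lemma ind {n : ℕ} {v : Fin n → E} (hv : LinearIndependent ℂ v) :
    LinearIndependent ℂ (fun i => mE σ (v i)) := by
  rw [Fintype.linearIndependent_iff] at hv ⊢
  intro g hg i
  have h1 : ∑ i, σ.symm (g i) • v i = 0 := by
    have h2 := congrArg (mE σ.symm) hg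
    rw [mE_sum, mE_zero] at h2
    simpa only [mE_symm] using h2
  have h3 := hv _ h1 i
  simpa using h3

lemma dot_mE (x y : E) : mE σ x ⬝ᵥ mE σ y = σ (x ⬝ᵥ y) := by
  simp [dotProduct, mE, map_sum]

lemma cov_mE (s : T3) (a : La) (x : E) : cov (mT σ s) (mE σ a) (mE σ x) = mE σ (cov s a x) := by
  ext k
  simp [cov, mT, mE, map_sum]

lemma tri_mE (s : T3) (a : La) (x y : E) :
    tri (mT σ s) (mE σ a) (mE σ x) (mE σ y) = σ (tri s a x y) := by
  unfold tri
  rw [cov_mE, dot_mE]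

lemma nd {s : T3} {p : E} {a : La} (h : Nd s p a) : Nd (mT σ s) (mE σ p) (mE σ a) := by
  refine ⟨?_, ?_⟩
  · intro c hc
    have h1 : cov s (mE σ.symm c) p = 0 := by
      apply mE_eq_zero σ
      rw [← cov_mE, mE_symm']
      exact hc
    have h2 := h.rank _ h1
    rw [← mE_symm' σ c, h2, mE_zero]
  · intro v c h1 h2
    have h1' : ∀ e : La, tri s e p (mE σ.symm v) = 0 := by
      intro e
      have h3 := h1 (mE σ e)
      rw [← mE_symm' σ v, tri_mE] at h3
      simpa using h3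
    have h2' : cov s a (mE σ.symm v) + cov s (mE σ.symm c) p = 0 := by
      apply mE_eq_zero σ
      rw [mE_add, ← cov_mE, ← cov_mE, mE_symm', mE_symm']
      exact h2
    obtain ⟨x, hx⟩ := h.ker _ _ h1' h2'
    exact ⟨σ x, by rw [← mE_symm' σ v, hx, mE_smul]⟩

end I_CTX

open I_CTX in
theorem CTX_pf : CTX := by
  intro σ s p l lam h
  refine ⟨fun i a => ?_, fun i => ?_, ?_, fun i => ?_, ?_⟩
  · change tri (mT σ s) a (mE σ (p i)) (mE σ (p i)) = 0
    rw [← mE_symm' σ a, tri_mE, h.q0 i, map_zero]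
  · change cov (mT σ s) (mE σ (lam i)) (mE σ (p i)) = mE σ l
    rw [cov_mE, h.eq i]
  · exact ind σ h.ind
  · exact nd σ (h.nd i)
  · intro h0
    exact h.l0 (mE_eq_zero σ h0)

end Pool.Agent.Work.MP_ea8963_ag.G5
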