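import Pool.Agent.Work.MP_ea8963_ag.G5.Stmts

/-! Block [ea8963 G5], item CUX. -/

set_option linter.style.longLine false
set_option linter.unusedVariables false

noncomputable section

open Module Topology
open Pool.Agent.Work.MP_ea8963_ag.G4 (D ZA mem_ZA Full cl rn rn_prod rn_le finrank_map_mono
  finrank_map_prod_swap pair d_two ZA_mono)

namespace Pool.Agent.Work.MP_ea8963_ag.G5

/-- the algebra of step (5) -/
lemma CUX_core {ρb ρc ρd g wb wc wd cab cac cad cbc cbd ccd X Y Z P Q R : ℂ}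
    (hρb : ρb ≠ 0) (hρc : ρc ≠ 0) (hcab : cab ≠ 0) (hcac : cac ≠ 0) (hcad : cad ≠ 0)
    (hP : P ≠ 0) (hpf : cab * ccd - cac * cbd + cad * cbc ≠ 0)
    (hb : wb * cab = g * ρb) (hc : wc * cac = g * ρc) (hd : wd * cad = g * ρd)
    (eb : cab * X + (wc * (cbc * P) + wd * (cbd * Q)) = 0)
    (ec : cac * Y + (wb * (cbc * P) + wd * (ccd * R)) = 0)
    (ed : cad * Z + (wb * (cbd * Q) + wc * (ccd * R)) = 0)
    (R1 : ρc * P + ρd * Q = 0) (R2 : -ρb * P + ρd * R = 0)
    (R3 : ρb * X + ρc * Y + ρd * Z = 0) :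
    (wb = 0 ∧ wc = 0 ∧ wd = 0) ∧ X = 0 ∧ Y = 0 := by
  have hg : g = 0 := by
    have h1 : g * (2 * (ρb * ρc * P * (cab * ccd - cac * cbd + cad * cbc))) = 0 := by
      linear_combination (ρb * cac * cad) * eb + (ρc * cab * cad) * ec + (ρd * cab * cac) * ed
        - (cab * cac * cad) * R3
        - (ρc * cad * (cbc * P) + ρd * cac * (cbd * Q)) * hb
        - (ρb * cad * (cbc * P) + ρd * cab * (ccd * R)) * hc
        - (ρb * cac * (cbd * Q) + ρc * cab * (ccd * R)) * hd
        - (2 * g * ρb * cac * cbd) * R1 - (2 * g * ρc * cab * ccd) * R2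
    have h2 : 2 * (ρb * ρc * P * (cab * ccd - cac * cbd + cad * cbc)) ≠ 0 := by
      refine mul_ne_zero two_ne_zero (mul_ne_zero (mul_ne_zero (mul_ne_zero hρb hρc) hP) hpf)
    exact (mul_eq_zero.1 h1).resolve_right h2
  rw [hg, zero_mul] at hb hc hd
  have wb0 := (mul_eq_zero.1 hb).resolve_right hcab
  have wc0 := (mul_eq_zero.1 hc).resolve_right hcac
  have wd0 := (mul_eq_zero.1 hd).resolve_right hcad
  rw [wc0, wd0, zero_mul, zero_mul, add_zero, add_zero] at eb
  rw [wb0, wd0, zero_mul, zero_mul, add_zero, add_zero] at ec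
  exact ⟨⟨wb0, wc0, wd0⟩, (mul_eq_zero.1 eb).resolve_left hcab,
    (mul_eq_zero.1 ec).resolve_left hcac⟩

/-- steps (5) and (6) for one index `i`; `j, k, n` are the other three -/
lemma CUX_perm {lam : Fin 4 → La} (hgp : GP lam) {ρ : Fin 4 → ℂ} (hρ : ∀ i, ρ i ≠ 0)
    {c : Fin 4 → Fin 4 → ℂ} (hanti : ∀ i k, c k i = -c i k) (hc0 : ∀ i k, i ≠ k → c i k ≠ 0)
    {i j k n : Fin 4} (hij : i ≠ j) (hik : i ≠ k) (hin : i ≠ n) (hjk : j ≠ k)
    (hsum : ∀ F : Fin 4 → ℂ, ∑ x, F x = F i + F j + F k + F n)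
    (hrel : ρ i • lam i + ρ j • lam j + ρ k • lam k + ρ n • lam n = 0)
    (hpf : c i j * c k n - c i k * c j n + c i n * c j k ≠ 0)
    {W : Fin 4 → ℂ} {g : ℂ} (hg : ∀ x, x ≠ i → W x * c i x = g * ρ x)
    {ν : La} (hν : ν 0 = 0) (h1 : lam i 0 = 1)
    (hK : ∀ x, x ≠ i → c i x * dt ν (lam i) (lam x) +
      ∑ y, W y * (c y x * dt (lam i) (lam y) (lam x)) = 0) :
    (W j = 0 ∧ W k = 0 ∧ W n = 0) ∧ ν = 0 := by
  have e1 := hK j hij.symm
  have e2 := hK k hik.symm
  have e3 := hK n hin.symm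
  rw [hsum, dt_self12, dt_self23] at e1 e2 e3
  have hP : dt (lam i) (lam j) (lam k) ≠ 0 := hgp i j k hij hik hjk
  have key := CUX_core (ρb := ρ j) (ρc := ρ k) (ρd := ρ n) (g := g) (wb := W j) (wc := W k)
    (wd := W n) (cab := c i j) (cac := c i k) (cad := c i n) (cbc := c j k) (cbd := c j n)
    (ccd := c k n) (X := dt ν (lam i) (lam j)) (Y := dt ν (lam i) (lam k))
    (Z := dt ν (lam i) (lam n)) (P := dt (lam i) (lam j) (lam k))
    (Q := dt (lam i) (lam j) (lam n)) (R := dt (lam i) (lam k) (lam n))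
    (hρ j) (hρ k) (hc0 i j hij) (hc0 i k hik) (hc0 i n hin) hP hpf (hg j hij.symm)
    (hg k hik.symm) (hg n hin.symm)
    (by
      rw [hanti j k, hanti j n, dt_swap23 (lam i) (lam j) (lam k),
        dt_swap23 (lam i) (lam j) (lam n)] at e1
      linear_combination e1)
    (by
      rw [hanti k n, dt_swap23 (lam i) (lam k) (lam n)] at e2
      linear_combination e2)
    (by linear_combination e3)
    (by
      have h2 := congrArg (dt (lam i) (lam j)) hrel
      rw [dt_add3, dt_add3, dt_add3, dt_smul3, dt_smul3, dt_smul3, dt_smul3, dt_self13,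
        dt_self23] at h2
      have h3 : dt (lam i) (lam j) 0 = 0 := by simp [dt_def]
      rw [h3] at h2
      linear_combination h2)
    (by
      have h2 := congrArg (dt (lam i) (lam k)) hrel
      rw [dt_add3, dt_add3, dt_add3, dt_smul3, dt_smul3, dt_smul3, dt_smul3, dt_self13,
        dt_self23, dt_swap23 (lam i) (lam j) (lam k)] at h2
      have h3 : dt (lam i) (lam k) 0 = 0 := by simp [dt_def]
      rw [h3] at h2
      linear_combination h2)
    (by
      have h2 := congrArg (dt ν (lam i)) hrel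
      rw [dt_add3, dt_add3, dt_add3, dt_smul3, dt_smul3, dt_smul3, dt_smul3, dt_self23] at h2
      have h3 : dt ν (lam i) 0 = 0 := by simp [dt_def]
      rw [h3] at h2
      linear_combination h2)
  obtain ⟨hW, hX, hY⟩ := key
  refine ⟨hW, ?_⟩
  have h4 := dt_cramer (lam i) (lam j) (lam k) ν
  have h5 : dt (lam i) ν (lam k) = 0 := by rw [dt_swap12, hY, neg_zero]
  have h6 : dt (lam i) (lam j) ν = 0 := by rw [← hX, ← dt_cyc ν (lam i) (lam j)]
  rw [h5, h6, zero_smul, zero_smul, add_zero, add_zero] at h4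
  have h7 := congrFun h4 0
  rw [Pi.smul_apply, Pi.smul_apply, hν, h1, smul_zero, smul_eq_mul, mul_one] at h7
  rw [← h7, zero_smul] at h4
  exact (smul_eq_zero.1 h4).resolve_left hP

theorem CUX_pf (hRH : RHO) (hRP : RHP) : CUX := by
  intro s hs p l lam m h f hf hlf δ hδf hδs
  obtain ⟨c, hc, hc0, hpf⟩ := h.cf
  obtain ⟨ρ, hρ0, hρs, hρu⟩ := hRH lam h.gp
  have hpA : ∀ i, p i ∈ Ann ![f] := by
    intro i
    rw [mem_Ann]
    intro j
    fin_cases j
    exact hf i
  have hfd : ∀ i, f ⬝ᵥ dE δ (p i) = 0 := by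
    intro i
    have h1 := d_dot δ f (p i)
    rw [hf i, map_zero, hδf, zero_dotProduct, zero_add] at h1
    exact h1.symm
  -- (1)
  have s1 : ∀ i (a : La), tri s a (p i) (dE δ (p i)) = 0 := by
    intro i a
    have h1 := h.d_q0 hs δ i a
    rw [(mem_KU.1 hδs).2 a _ (hpA i) _ (hpA i), zero_add] at h1
    exact (mul_eq_zero.1 h1).resolve_left two_ne_zero
  -- (2)
  have s2 : ∀ i (x : E), x ∈ Ann ![f] → tri s (dE δ (lam i)) (p i) x +
      tri s (lam i) (dE δ (p i)) x = δ (m i) * (l ⬝ᵥ x) + m i * (dE δ l ⬝ᵥ x) := by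
    intro i x hx
    have h1 := congrArg (fun y => y ⬝ᵥ x) (h.d_eq δ i)
    simp only [add_dotProduct, smul_dotProduct, smul_eq_mul] at h1
    have h2 : cov (dT δ s) (lam i) (p i) ⬝ᵥ x = 0 :=
      (mem_KU.1 hδs).2 (lam i) _ (hpA i) _ hx
    rw [h2, zero_add] at h1
    exact h1
  have hlp : ∀ i, dE δ l ⬝ᵥ p i = 0 := by
    intro i
    have h1 := s2 i (p i) (hpA i)
    rw [h.q0, tri_comm hs, s1, h.lp, mul_zero, add_zero, zero_add] at h1
    exact (mul_eq_zero.1 h1.symm).resolve_left (h.m0 i)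
  have hld : ∀ i, l ⬝ᵥ dE δ (p i) = 0 := by
    intro i
    have h1 := h.ev_mem δ i
    simp only [evB_apply, evP_apply] at h1
    rw [hlp i, zero_add] at h1
    exact h1
  -- (3)
  have hspan : Submodule.span ℂ (Set.range p) = Ann ![l, f] := by
    apply Submodule.eq_of_le_of_finrank_eq
    · rw [Submodule.span_le]
      rintro _ ⟨i, rfl⟩
      rw [SetLike.mem_coe, mem_Ann]
      intro j
      fin_cases j
      · exact h.lp i
      · exact hf i
    · rw [finrank_span_eq_card h.ind, Fintype.card_fin]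
      have h1 : finrank ℂ (Ann ![l, f]) + 2 = 6 := finrank_Ann hlf
      change 4 = finrank ℂ (Ann ![l, f])
      omega
  have hdl : ∃ c d : ℂ, dE δ l = c • l + d • f := by
    have h1 : dE δ l ∈ Submodule.span ℂ (Set.range ![l, f]) := by
      apply mem_span_of_ann hlf
      intro x hx
      have h2 : x ∈ Submodule.span ℂ (Set.range p) := by
        rw [hspan, mem_Ann]
        exact hx
      obtain ⟨w, hw⟩ := (Submodule.mem_span_range_iff_exists_fun ℂ).1 h2
      rw [← hw, dotProduct_sum]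
      refine Finset.sum_eq_zero fun k _ => ?_
      rw [dotProduct_smul, hlp, smul_zero]
    obtain ⟨w, hw⟩ := (Submodule.mem_span_range_iff_exists_fun ℂ).1 h1
    refine ⟨w 0, w 1, ?_⟩
    rw [← hw, Fin.sum_univ_two]
    rfl
  have hdp : ∀ i, ∃ w : Fin 4 → ℂ, ∑ k, w k • p k = dE δ (p i) := by
    intro i
    apply (Submodule.mem_span_range_iff_exists_fun ℂ).1
    rw [hspan, mem_Ann]
    intro j
    fin_cases j
    · exact hld i
    · exact hfd i
  choose W hW using hdp
  -- (4)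
  have s4 : ∀ i, ∃ g : ℂ, ∀ k, k ≠ i → W i k * c i k = g * ρ k := by
    intro i
    apply hRP lam h.gp ρ hρ0 hρs hρu i (fun k => W i k * c i k)
    intro a
    have h1 := s1 i a
    rw [← hW i, tri_sum3] at h1
    rw [← h1]
    refine Finset.sum_congr rfl fun k _ => ?_
    rw [tri_smul3, hc.eq i k a]
    ring
  choose g hg using s4
  -- (5)
  have s5 : ∀ i x, x ≠ i → c i x * dt (dE δ (lam i)) (lam i) (lam x) +
      ∑ y, W i y * (c y x * dt (lam i) (lam y) (lam x)) = 0 := by
    intro i x hx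
    have h1 := s2 i (p x) (hpA x)
    rw [h.lp, hlp, mul_zero, mul_zero, add_zero, hc.eq i x, ← hW i, tri_sum2] at h1
    rw [← h1]
    congr 1
    refine Finset.sum_congr rfl fun k _ => ?_
    rw [tri_smul2, hc.eq k x]
  have hrel : ρ 0 • lam 0 + ρ 1 • lam 1 + ρ 2 • lam 2 + ρ 3 • lam 3 = 0 := by
    rw [← hρs, Fin.sum_univ_four]
  have hpf' : c 0 1 * c 2 3 - c 0 2 * c 1 3 + c 0 3 * c 1 2 ≠ 0 := hpf
  have main : ∀ i, (∀ k, k ≠ i → W i k = 0) ∧ dE δ (lam i) = 0 := by
    intro i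
    fin_cases i
    · obtain ⟨⟨w1, w2, w3⟩, hν⟩ := CUX_perm h.gp hρ0 hc.anti hc0 (i := 0) (j := 1) (k := 2)
        (n := 3) (by decide) (by decide) (by decide) (by decide)
        (fun F => by rw [Fin.sum_univ_four]) hrel hpf' (hg 0) (h.dlam0 δ 0) (h.nrm 0) (s5 0)
      refine ⟨fun k hk => ?_, hν⟩
      fin_cases k
      · exact absurd rfl hk
      · exact w1
      · exact w2
      · exact w3
    · obtain ⟨⟨w1, w2, w3⟩, hν⟩ := CUX_perm h.gp hρ0 hc.anti hc0 (i := 1) (j := 0) (k := 2)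
        (n := 3) (by decide) (by decide) (by decide) (by decide)
        (fun F => by rw [Fin.sum_univ_four]; ring) (by rw [← hrel]; abel)
        (by
          intro h0
          apply hpf'
          rw [hc.anti 0 1] at h0
          linear_combination -h0) (hg 1) (h.dlam0 δ 1) (h.nrm 1) (s5 1)
      refine ⟨fun k hk => ?_, hν⟩
      fin_cases k
      · exact w1
      · exact absurd rfl hk
      · exact w2
      · exact w3
    · obtain ⟨⟨w1, w2, w3⟩, hν⟩ := CUX_perm h.gp hρ0 hc.anti hc0 (i := 2) (j := 0) (k := 1)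
        (n := 3) (by decide) (by decide) (by decide) (by decide)
        (fun F => by rw [Fin.sum_univ_four]; ring) (by rw [← hrel]; abel)
        (by
          intro h0
          apply hpf'
          rw [hc.anti 0 2, hc.anti 1 2] at h0
          linear_combination h0) (hg 2) (h.dlam0 δ 2) (h.nrm 2) (s5 2)
      refine ⟨fun k hk => ?_, hν⟩
      fin_cases k
      · exact w1
      · exact w2
      · exact absurd rfl hk
      · exact w3
    · obtain ⟨⟨w1, w2, w3⟩, hν⟩ := CUX_perm h.gp hρ0 hc.anti hc0 (i := 3) (j := 0) (k := 1)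
        (n := 2) (by decide) (by decide) (by decide) (by decide)
        (fun F => by rw [Fin.sum_univ_four]; ring) (by rw [← hrel]; abel)
        (by
          intro h0
          apply hpf'
          rw [hc.anti 0 3, hc.anti 1 3, hc.anti 2 3] at h0
          linear_combination -h0) (hg 3) (h.dlam0 δ 3) (h.nrm 3) (s5 3)
      refine ⟨fun k hk => ?_, hν⟩
      fin_cases k
      · exact w1
      · exact w2
      · exact w3
      · exact absurd rfl hk
  refine ⟨fun i => ⟨W i i, ?_⟩, fun i => (main i).2, hdl⟩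
  rw [← hW i, Finset.sum_eq_single i]
  · intro k _ hk
    rw [(main i).1 k hk, zero_smul]
  · intro hi
    exact absurd (Finset.mem_univ i) hi

end Pool.Agent.Work.MP_ea8963_ag.G5
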