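import Pool.Agent.Work.MP_ea8963_ag.G5.Stmts

/-!
Block [ea8963 G5], item DEC: decomposition of nets vanishing on a subspace.
-/

set_option linter.style.longLine false
set_option linter.unusedVariables false

noncomputable section

open Module Topology
open Pool.Agent.Work.MP_ea8963_ag.G4 (D ZA mem_ZA Full cl rn rn_prod rn_le finrank_map_mono
  finrank_map_prod_swap pair d_two ZA_mono)

namespace Pool.Agent.Work.MP_ea8963_ag.G5

lemma DEC_cov_single (t : T3) (e : La) (x : E) :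
    ∑ k, e k • cov t (Pi.single k 1) x = cov t e x := by
  have h : e = ∑ k, e k • (Pi.single k (1 : ℂ) : La) := by
    ext i
    simp [Finset.sum_apply, Pi.single_apply]
  conv_rhs => rw [h]
  rw [cov_sum_left]
  exact Finset.sum_congr rfl fun k _ => (cov_smul_left _ _ _ _).symm

lemma DEC_tri_single (t : T3) (e : La) (x y : E) :
    ∑ k, e k * tri t (Pi.single k 1) x y = tri t e x y := by
  rw [tri, ← DEC_cov_single t e x, sum_dotProduct]
  exact Finset.sum_congr rfl fun k _ => by rw [smul_dotProduct, smul_eq_mul, tri]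

/-- the vectors of the decomposition -/
def DEC_r {k : ℕ} (a w : Fin k → E) (t : T3) (j : Fin k) : Fin 3 → E := fun q =>
  cov t (Pi.single q 1) (w j) - ∑ m, ((1 / 2 : ℂ) * tri t (Pi.single q 1) (w j) (w m)) • a m

lemma DEC_con {k : ℕ} (a w : Fin k → E) (t : T3) (j : Fin k) (e : La) (y : E) :
    con (DEC_r a w t j) e ⬝ᵥ y =
      tri t e (w j) y - ∑ m, (1 / 2 : ℂ) * tri t e (w j) (w m) * (a m ⬝ᵥ y) := by
  rw [con_dot]
  have h : ∀ q, e q * (DEC_r a w t j q ⬝ᵥ y) = e q * tri t (Pi.single q 1) (w j) y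
      - ∑ m, (1 / 2 : ℂ) * (e q * tri t (Pi.single q 1) (w j) (w m)) * (a m ⬝ᵥ y) := by
    intro q
    rw [DEC_r, sub_dotProduct, sum_dotProduct, mul_sub, Finset.mul_sum]
    congr 1
    refine Finset.sum_congr rfl fun m _ => ?_
    rw [smul_dotProduct, smul_eq_mul]
    ring
  rw [Finset.sum_congr rfl fun q _ => h q, Finset.sum_sub_distrib, DEC_tri_single,
    Finset.sum_comm]
  congr 1
  refine Finset.sum_congr rfl fun m _ => ?_
  rw [← Finset.sum_mul, ← Finset.mul_sum, DEC_tri_single]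

theorem DEC_pf : DEC := by
  intro k a ha t ht
  obtain ⟨w, hw⟩ := exists_dual ha
  have haw : ∀ i j, a i ⬝ᵥ w j = if i = j then 1 else 0 := by
    intro i j
    rw [dotProduct_comm, hw]
    exact if_congr eq_comm rfl rfl
  have hz : ∀ x : E, x - ∑ j, (a j ⬝ᵥ x) • w j ∈ Ann a := by
    intro x i
    rw [dotProduct_sub, dotProduct_sum]
    simp only [dotProduct_smul, smul_eq_mul, haw, mul_ite, mul_one, mul_zero]
    simp
  refine ⟨DEC_r a w t, net_ext fun e x y => ?_⟩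
  have h1 : tri (∑ j, pr (a j) (DEC_r a w t j)) e x y
      = ∑ j, tri (pr (a j) (DEC_r a w t j)) e x y := map_sum (triL e x y) _ _
  have h2 := ht.2 e _ (hz x) _ (hz y)
  rw [tri_sub2, tri_sub3, tri_sub3, tri_sum2, tri_sum3] at h2
  simp only [tri_smul2, tri_smul3, tri_sum3] at h2
  rw [h1]
  simp only [tri_pr, DEC_con]
  have hs : ∀ j, tri t e x (w j) = tri t e (w j) x := fun j => tri_comm ht.1 e _ _
  simp only [hs] at h2
  have hG : ∑ j, ∑ m, (a m ⬝ᵥ x) * (tri t e (w j) (w m) * (a j ⬝ᵥ y))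
      = ∑ j, ∑ m, (a j ⬝ᵥ x) * (tri t e (w j) (w m) * (a m ⬝ᵥ y)) := by
    rw [Finset.sum_comm]
    refine Finset.sum_congr rfl fun j _ => Finset.sum_congr rfl fun m _ => ?_
    rw [tri_comm ht.1 e (w m) (w j)]
  have e1 : ∑ j, ((a j ⬝ᵥ x) * (tri t e (w j) y
        - ∑ m, (1 / 2 : ℂ) * tri t e (w j) (w m) * (a m ⬝ᵥ y))
      + (tri t e (w j) x - ∑ m, (1 / 2 : ℂ) * tri t e (w j) (w m) * (a m ⬝ᵥ x)) * (a j ⬝ᵥ y))
      = ∑ j, (a j ⬝ᵥ x) * tri t e (w j) y + ∑ j, (a j ⬝ᵥ y) * tri t e (w j) x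
        - (1 / 2 : ℂ) * (∑ j, ∑ m, (a j ⬝ᵥ x) * (tri t e (w j) (w m) * (a m ⬝ᵥ y)))
        - (1 / 2 : ℂ) * (∑ j, ∑ m, (a m ⬝ᵥ x) * (tri t e (w j) (w m) * (a j ⬝ᵥ y))) := by
    rw [Finset.mul_sum, Finset.mul_sum, ← Finset.sum_add_distrib, ← Finset.sum_sub_distrib,
      ← Finset.sum_sub_distrib]
    refine Finset.sum_congr rfl fun j _ => ?_
    rw [mul_sub, sub_mul, Finset.mul_sum, Finset.sum_mul, Finset.mul_sum, Finset.mul_sum]
    have e2 : ∑ m, (a j ⬝ᵥ x) * ((1 / 2 : ℂ) * tri t e (w j) (w m) * (a m ⬝ᵥ y))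
        = ∑ m, (1 / 2 : ℂ) * ((a j ⬝ᵥ x) * (tri t e (w j) (w m) * (a m ⬝ᵥ y))) :=
      Finset.sum_congr rfl fun m _ => by ring
    have e3 : ∑ m, (1 / 2 : ℂ) * tri t e (w j) (w m) * (a m ⬝ᵥ x) * (a j ⬝ᵥ y)
        = ∑ m, (1 / 2 : ℂ) * ((a m ⬝ᵥ x) * (tri t e (w j) (w m) * (a j ⬝ᵥ y))) :=
      Finset.sum_congr rfl fun m _ => by ring
    rw [e2, e3]
    ring
  rw [e1, hG]
  have e4 : ∑ m, (a m ⬝ᵥ y) * tri t e (∑ j, (a j ⬝ᵥ x) • w j) (w m)
      = ∑ j, ∑ m, (a j ⬝ᵥ x) * (tri t e (w j) (w m) * (a m ⬝ᵥ y)) := by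
    rw [Finset.sum_comm]
    refine Finset.sum_congr rfl fun m _ => ?_
    rw [tri_sum2, Finset.mul_sum]
    refine Finset.sum_congr rfl fun j _ => ?_
    rw [tri_smul2]
    ring
  rw [e4] at h2
  linear_combination h2

end Pool.Agent.Work.MP_ea8963_ag.G5
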