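import Pool.Agent.Work.MP_ea8963_ag.G5.Stmts

/-!
Block [ea8963 G5], item DKB: the dimension of the space of nets of a configuration.
-/

set_option linter.style.longLine false
set_option linter.unusedVariables false

noncomputable section

open Module
open Pool.Agent.Work.MP_ea8963_ag.G4 (pair)

namespace Pool.Agent.Work.MP_ea8963_ag.G5

/-- the functional of an element of `RW l` on symmetric nets -/
def DKB_phi (p : Fin 4 → E) (l : E) (lam : Fin 4 → La) : RW l →ₗ[ℂ] Dual ℂ SymT :=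
  SymT.subtype.dualMap.comp ((valL p lam).comp (RW l).subtype)

lemma DKB_phi_apply (p : Fin 4 → E) (l : E) (lam : Fin 4 → La) (x : RW l) (t : SymT) :
    DKB_phi p l lam x t = val p lam t.1 x.1 := rfl

/-- the test equation -/
lemma DKB_test {p : Fin 4 → E} {lam : Fin 4 → La} {x : XX} {a : Fin 4 → E}
    (ha : ∀ i j, a i ⬝ᵥ p j = if i = j then 1 else 0)
    (h : ∀ t ∈ SymT, val p lam t x = 0) (i : Fin 4) (c : La) (g : E) :
    (c ⬝ᵥ lam i) * (g ⬝ᵥ x.1 i) + ∑ j, (c ⬝ᵥ lam j) * ((g ⬝ᵥ p j) * (a i ⬝ᵥ x.1 j))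
      + 2 * (c ⬝ᵥ x.2 i) * (g ⬝ᵥ p i) = 0 := by
  have h1 := h (sp c (a i) g) (sp_mem _ _ _)
  have h2 : val p lam (sp c (a i) g) x =
      ∑ j, ((a i ⬝ᵥ p j) * ((c ⬝ᵥ lam j) * (g ⬝ᵥ x.1 j) + 2 * (c ⬝ᵥ x.2 j) * (g ⬝ᵥ p j))
        + (c ⬝ᵥ lam j) * ((g ⬝ᵥ p j) * (a i ⬝ᵥ x.1 j))) := by
    rw [val]
    refine Finset.sum_congr rfl fun j _ => ?_
    rw [tri_sp, tri_sp]
    ring
  rw [h2, Finset.sum_add_distrib] at h1
  simp only [ha, ite_mul, one_mul, zero_mul, Finset.sum_ite_eq, Finset.mem_univ, if_true] at h1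
  linear_combination h1

/-- the kernel -/
lemma DKB_ker {p : Fin 4 → E} {lam : Fin 4 → La} (hp : LinearIndependent ℂ p)
    (hl : ∀ i, lam i ≠ 0) (hn : ∀ i k, i ≠ k → ∀ c : ℂ, lam i ≠ c • lam k) (x : XX)
    (h : ∀ t ∈ SymT, val p lam t x = 0) : x ∈ Tri p lam := by
  obtain ⟨a, ha⟩ := exists_dual hp
  have hT := DKB_test ha h
  -- the off-diagonal coefficients
  have h1 : ∀ i k, i ≠ k → a k ⬝ᵥ x.1 i = 0 := by
    intro i k hik
    have h2 : (a k ⬝ᵥ x.1 i) • lam i + (a i ⬝ᵥ x.1 k) • lam k = 0 := by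
      apply eq_zero_of_dot
      intro c
      have h3 := hT i c (a k)
      simp only [ha, ite_mul, one_mul, zero_mul, mul_ite, mul_zero, Finset.sum_ite_eq,
        Finset.mem_univ, if_true, if_neg (Ne.symm hik)] at h3
      rw [dotProduct_add, dotProduct_smul, dotProduct_smul, smul_eq_mul, smul_eq_mul]
      linear_combination h3
    by_contra hc
    apply hn i k hik (-((a k ⬝ᵥ x.1 i)⁻¹ * (a i ⬝ᵥ x.1 k)))
    have h4 : lam i = (a k ⬝ᵥ x.1 i)⁻¹ • ((a k ⬝ᵥ x.1 i) • lam i) := by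
      rw [smul_smul, inv_mul_cancel₀ hc, one_smul]
    rw [h4, eq_neg_of_add_eq_zero_left h2, smul_neg, smul_smul, neg_smul]
  -- the diagonal coefficients
  have h5 : ∀ i, x.2 i = -((a i ⬝ᵥ x.1 i) • lam i) := by
    intro i
    apply dot_ext
    intro c
    have h3 := hT i c (a i)
    simp only [ha, ite_mul, one_mul, zero_mul, mul_ite, mul_zero, Finset.sum_ite_eq,
      Finset.mem_univ, if_true] at h3
    rw [dotProduct_neg, dotProduct_smul, smul_eq_mul]
    linear_combination (1 / 2 : ℂ) * h3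
  -- the vectors are in the span
  have h6 : ∀ i, x.1 i = (a i ⬝ᵥ x.1 i) • p i := by
    intro i
    have h7 : x.1 i ∈ Submodule.span ℂ (Set.range p) := by
      apply mem_span_of_ann hp
      intro g hg
      have hg' : ∀ j, g ⬝ᵥ p j = 0 := fun j => by rw [dotProduct_comm]; exact hg j
      obtain ⟨c, hc⟩ : ∃ c : La, c ⬝ᵥ lam i ≠ 0 := by
        by_contra hcon
        push Not at hcon
        exact hl i (eq_zero_of_dot hcon)
      have h8 := hT i c g
      simp only [hg', zero_mul, mul_zero, Finset.sum_const_zero, add_zero] at h8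
      rw [dotProduct_comm]
      exact (mul_eq_zero.1 h8).resolve_left hc
    obtain ⟨w, hw⟩ := (Submodule.mem_span_range_iff_exists_fun ℂ).1 h7
    have h9 : ∀ k, a k ⬝ᵥ x.1 i = w k := by
      intro k
      rw [← hw, dotProduct_sum]
      simp [dotProduct_smul, ha]
    have h10 : ∑ k, w k • p k = w i • p i := by
      apply Finset.sum_eq_single i
      · intro k _ hk
        rw [← h9 k, h1 i k (Ne.symm hk), zero_smul]
      · intro hi
        exact absurd (Finset.mem_univ i) hi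
    rw [h9 i, ← h10, hw]
  exact ⟨fun i => a i ⬝ᵥ x.1 i, Prod.ext (funext h6) (funext h5)⟩

lemma DKB_Tri_val (p : Fin 4 → E) (lam : Fin 4 → La) {x : XX} (hx : x ∈ Tri p lam) (t : T3) :
    val p lam t x = 0 := by
  obtain ⟨c, rfl⟩ := hx
  rw [val]
  refine Finset.sum_eq_zero fun i _ => ?_
  simp only
  rw [tri_smul3, tri_neg1, tri_smul1, add_neg_cancel]

lemma DKB_Tri_le {p : Fin 4 → E} {l : E} (lam : Fin 4 → La) (h : ∀ i, l ⬝ᵥ p i = 0) :
    Tri p lam ≤ RW l := by
  rintro x ⟨c, rfl⟩ i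
  simp only
  rw [dotProduct_smul, h i, smul_zero]

lemma DKB_map_ker {p : Fin 4 → E} {l : E} {lam : Fin 4 → La} (hp : LinearIndependent ℂ p)
    (h : ∀ i, l ⬝ᵥ p i = 0)
    (hl : ∀ i, lam i ≠ 0) (hn : ∀ i k, i ≠ k → ∀ c : ℂ, lam i ≠ c • lam k) :
    (LinearMap.ker (DKB_phi p l lam)).map (RW l).subtype = Tri p lam := by
  ext x
  constructor
  · rintro ⟨y, hy, rfl⟩
    refine DKB_ker hp hl hn _ fun t ht => ?_
    have h1 : DKB_phi p l lam y = 0 := hy
    exact LinearMap.congr_fun h1 ⟨t, ht⟩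
  · intro hx
    refine ⟨⟨x, DKB_Tri_le lam h hx⟩, ?_, rfl⟩
    have h1 : DKB_phi p l lam ⟨x, DKB_Tri_le lam h hx⟩ = 0 := by
      refine LinearMap.ext fun t => ?_
      rw [DKB_phi_apply]
      exact DKB_Tri_val p lam hx t.1
    exact h1

/-- the parametrisation of `Tri` -/
def DKB_par (p : Fin 4 → E) (lam : Fin 4 → La) : (Fin 4 → ℂ) →ₗ[ℂ] XX where
  toFun c := (fun i => c i • p i, fun i => -(c i • lam i))
  map_add' c d := by
    refine Prod.ext (funext fun i => ?_) (funext fun i => ?_)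
    · simp [add_smul]
    · simp [add_smul, add_comm]
  map_smul' r c := by
    refine Prod.ext (funext fun i => ?_) (funext fun i => ?_)
    · simp [mul_smul]
    · simp [mul_smul]

lemma DKB_finrank_Tri {p : Fin 4 → E} {lam : Fin 4 → La} (hl : ∀ i, lam i ≠ 0) :
    finrank ℂ (Tri p lam) = 4 := by
  have h1 : Tri p lam = LinearMap.range (DKB_par p lam) := by
    ext x
    constructor
    · rintro ⟨c, rfl⟩
      exact ⟨c, rfl⟩
    · rintro ⟨c, rfl⟩
      exact ⟨c, rfl⟩
  have h2 : Function.Injective (DKB_par p lam) := by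
    rw [← LinearMap.ker_eq_bot, LinearMap.ker_eq_bot']
    intro c hc
    funext i
    have h3 := congrFun (congrArg Prod.snd hc) i
    have h4 : -(c i • lam i) = 0 := h3
    exact (smul_eq_zero.1 (neg_eq_zero.1 h4)).resolve_right (hl i)
  rw [h1, LinearMap.finrank_range_of_inj h2]
  simp

/-- the inclusion -/
def DKB_inc (l : E) : ((Fin 4 → Ann ![l]) × (Fin 4 → La)) →ₗ[ℂ] XX where
  toFun x := (fun i => (x.1 i).1, x.2)
  map_add' x y := by ext <;> rfl
  map_smul' c x := by ext <;> rfl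

lemma DKB_finrank_RW {l : E} (h0 : l ≠ 0) : finrank ℂ (RW l) = 32 := by
  have h1 : RW l = LinearMap.range (DKB_inc l) := by
    ext x
    constructor
    · intro hx
      refine ⟨(fun i => ⟨x.1 i, fun j => ?_⟩, x.2), rfl⟩
      fin_cases j
      exact hx i
    · rintro ⟨y, rfl⟩ i
      exact (y.1 i).2 0
  have h2 : Function.Injective (DKB_inc l) := by
    rintro ⟨x, x'⟩ ⟨y, y'⟩ h
    have h3 := congrArg Prod.fst h
    have h4 := congrArg Prod.snd h
    refine Prod.ext ?_ h4
    funext i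
    exact Subtype.ext (congrFun h3 i)
  have h5 : finrank ℂ (Ann ![l]) + 1 = 6 := finrank_Ann (by
    rw [linearIndependent_unique_iff]
    simpa using h0)
  have h6 : finrank ℂ (Ann ![l]) = 5 := by omega
  rw [h1, LinearMap.finrank_range_of_inj h2, Module.finrank_prod, Module.finrank_pi_fintype,
    Module.finrank_pi_fintype]
  simp [h6]

lemma DKB_map_coann (p : Fin 4 → E) (l : E) (lam : Fin 4 → La) :
    ((LinearMap.range (DKB_phi p l lam)).dualCoannihilator).map SymT.subtype = KB p l lam := by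
  ext t
  constructor
  · rintro ⟨s, hs, rfl⟩
    have hs' : ∀ x : RW l, val p lam s.1 x.1 = 0 := fun x =>
      (Submodule.mem_dualCoannihilator s).1 hs _ ⟨x, rfl⟩
    refine ⟨s.2, fun i v hv => ?_, fun i a => ?_⟩
    · have h1 := hs' ⟨(Pi.single i v, 0), fun j => by
        by_cases hj : j = i
        · subst hj; simpa using hv
        · simp [Pi.single_eq_of_ne hj]⟩
      simp only [val] at h1
      rw [Finset.sum_eq_single i] at h1
      · simpa [tri_zero1] using h1
      · intro j _ hj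
        simp [Pi.single_eq_of_ne hj, tri_zero3, tri_zero1]
      · intro h; exact absurd (Finset.mem_univ i) h
    · have h1 := hs' ⟨(0, Pi.single i a), fun j => by simp⟩
      simp only [val] at h1
      rw [Finset.sum_eq_single i] at h1
      · simpa [tri_zero3] using h1
      · intro j _ hj
        simp [Pi.single_eq_of_ne hj, tri_zero3, tri_zero1]
      · intro h; exact absurd (Finset.mem_univ i) h
  · rintro ⟨h1, h2, h3⟩
    refine ⟨⟨t, h1⟩, ?_, rfl⟩
    rw [SetLike.mem_coe, Submodule.mem_dualCoannihilator]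
    rintro _ ⟨x, rfl⟩
    rw [DKB_phi_apply]
    simp only [val]
    refine Finset.sum_eq_zero fun i _ => ?_
    rw [h2 i _ (x.2 i), h3 i, add_zero]

theorem DKB_pf : DKB := by
  intro p l lam hp h0 hlp hl hn
  refine ⟨?_, fun x _ h => DKB_ker hp hl hn x h⟩
  have h1 := pair (DKB_phi p l lam)
  have h2 : finrank ℂ (KB p l lam) =
      finrank ℂ ((LinearMap.range (DKB_phi p l lam)).dualCoannihilator) := by
    rw [← DKB_map_coann, Submodule.finrank_map_subtype_eq]
  have h3 : finrank ℂ (LinearMap.ker (DKB_phi p l lam)) = 4 := by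
    have h4 := DKB_finrank_Tri (p := p) hl
    rw [← DKB_map_ker hp hlp hl hn, Submodule.finrank_map_subtype_eq] at h4
    exact h4
  rw [DKB_finrank_RW h0, h3, ← h2] at h1
  omega

end Pool.Agent.Work.MP_ea8963_ag.G5
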