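import Pool.Agent.Work.MP_ea8963_ag.G5.Stmts3

/-!
Block [ea8963 G5], item DKX: dimension of the intersection of the spaces of nets of two
configurations.
-/

set_option linter.style.longLine false
set_option linter.unusedVariables false

noncomputable section

open Module
open Pool.Agent.Work.MP_ea8963_ag.G4 (pair)

namespace Pool.Agent.Work.MP_ea8963_ag.G5

/-- the functional of a pair of elements of `RW l`, `RW l'` on symmetric nets -/
def DKX_phi (p : Fin 4 → E) (l : E) (lam : Fin 4 → La) (p' : Fin 4 → E) (l' : E)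
    (lam' : Fin 4 → La) : (RW l × RW l') →ₗ[ℂ] Dual ℂ SymT :=
  SymT.subtype.dualMap.comp (((valL p lam).comp (RW l).subtype).coprod
    ((valL p' lam').comp (RW l').subtype))

lemma DKX_phi_apply (p : Fin 4 → E) (l : E) (lam : Fin 4 → La) (p' : Fin 4 → E) (l' : E)
    (lam' : Fin 4 → La) (x : RW l × RW l') (t : SymT) :
    DKX_phi p l lam p' l' lam' x t = val p lam t.1 x.1.1 + val p' lam' t.1 x.2.1 := rfl

/-- the inclusion of the parameter space -/
def DKX_emb (l l' : E) : (RW l × RW l') →ₗ[ℂ] XX × XX :=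
  (RW l).subtype.prodMap (RW l').subtype

lemma DKX_emb_injective (l l' : E) : Function.Injective (DKX_emb l l') := by
  rintro ⟨x, x'⟩ ⟨y, y'⟩ h
  have h1 := congrArg Prod.fst h
  have h2 := congrArg Prod.snd h
  exact Prod.ext (Subtype.ext h1) (Subtype.ext h2)

lemma DKX_map_ker (p : Fin 4 → E) (l : E) (lam : Fin 4 → La) (p' : Fin 4 → E) (l' : E)
    (lam' : Fin 4 → La) :
    (LinearMap.ker (DKX_phi p l lam p' l' lam')).map (DKX_emb l l') =
      RelM p l lam p' l' lam' := by
  ext x
  constructor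
  · rintro ⟨y, hy, rfl⟩
    refine mem_RelM.2 ⟨y.1.2, y.2.2, fun t ht => ?_⟩
    have h1 : DKX_phi p l lam p' l' lam' y = 0 := hy
    exact LinearMap.congr_fun h1 ⟨t, ht⟩
  · intro hx
    obtain ⟨h1, h2, h3⟩ := mem_RelM.1 hx
    refine ⟨(⟨x.1, h1⟩, ⟨x.2, h2⟩), ?_, rfl⟩
    have h4 : DKX_phi p l lam p' l' lam' (⟨x.1, h1⟩, ⟨x.2, h2⟩) = 0 := by
      refine LinearMap.ext fun t => ?_
      rw [DKX_phi_apply]
      exact h3 t.1 t.2
    exact h4

/-- the parametrisation of `RW` -/
def DKX_inc (l : E) : ((Fin 4 → Ann ![l]) × (Fin 4 → La)) →ₗ[ℂ] XX where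
  toFun x := (fun i => (x.1 i).1, x.2)
  map_add' x y := by ext <;> rfl
  map_smul' c x := by ext <;> rfl

lemma DKX_finrank_RW {l : E} (h0 : l ≠ 0) : finrank ℂ (RW l) = 32 := by
  have h1 : RW l = LinearMap.range (DKX_inc l) := by
    ext x
    constructor
    · intro hx
      refine ⟨(fun i => ⟨x.1 i, fun j => ?_⟩, x.2), rfl⟩
      fin_cases j
      exact hx i
    · rintro ⟨y, rfl⟩ i
      exact (y.1 i).2 0
  have h2 : Function.Injective (DKX_inc l) := by
    rintro ⟨x, x'⟩ ⟨y, y'⟩ h
    have h3 := congrArg Prod.fst h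
    have h4 := congrArg Prod.snd h
    refine Prod.ext ?_ h4
    funext i
    exact Subtype.ext (congrFun h3 i)
  have h5 : finrank ℂ (Ann ![l]) + 1 = 6 := finrank_Ann (by
    rw [linearIndependent_unique_iff]
    simpa using h0)
  have h6 : finrank ℂ (Ann ![l]) = 5 := by omega
  rw [h1, LinearMap.finrank_range_of_inj h2, Module.finrank_prod, Module.finrank_pi_fintype,
    Module.finrank_pi_fintype]
  simp [h6]

/-- a net on which all the functionals of one side vanish -/
lemma DKX_mem_KB {p : Fin 4 → E} {l : E} {lam : Fin 4 → La} {s : T3} (hs : s ∈ SymT)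
    (hs' : ∀ x ∈ RW l, val p lam s x = 0) : s ∈ KB p l lam := by
  refine ⟨hs, fun i v hv => ?_, fun i a => ?_⟩
  · have h1 := hs' (Pi.single i v, 0) (fun j => by
      by_cases hj : j = i
      · subst hj; simpa using hv
      · simp [Pi.single_eq_of_ne hj])
    simp only [val] at h1
    rw [Finset.sum_eq_single i] at h1
    · simpa [tri_zero1] using h1
    · intro j _ hj
      simp [Pi.single_eq_of_ne hj, tri_zero3, tri_zero1]
    · intro h; exact absurd (Finset.mem_univ i) h
  · have h1 := hs' (0, Pi.single i a) (fun j => by simp)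
    simp only [val] at h1
    rw [Finset.sum_eq_single i] at h1
    · simpa [tri_zero3] using h1
    · intro j _ hj
      simp [Pi.single_eq_of_ne hj, tri_zero3, tri_zero1]
    · intro h; exact absurd (Finset.mem_univ i) h

lemma DKX_val_zero {p : Fin 4 → E} {l : E} {lam : Fin 4 → La} {t : T3} (ht : t ∈ KB p l lam)
    {x : XX} (hx : x ∈ RW l) : val p lam t x = 0 := by
  obtain ⟨h1, h2, h3⟩ := ht
  simp only [val]
  refine Finset.sum_eq_zero fun i _ => ?_
  rw [h2 i _ (hx i), h3 i, add_zero]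

lemma DKX_map_coann (p : Fin 4 → E) (l : E) (lam : Fin 4 → La) (p' : Fin 4 → E) (l' : E)
    (lam' : Fin 4 → La) :
    ((LinearMap.range (DKX_phi p l lam p' l' lam')).dualCoannihilator).map SymT.subtype =
      (KB p l lam ⊓ KB p' l' lam' : Submodule ℂ T3) := by
  ext t
  constructor
  · rintro ⟨s, hs, rfl⟩
    have hs' : ∀ x : RW l × RW l', val p lam s.1 x.1.1 + val p' lam' s.1 x.2.1 = 0 := fun x =>
      (Submodule.mem_dualCoannihilator s).1 hs _ ⟨x, rfl⟩
    refine ⟨DKX_mem_KB s.2 fun x hx => ?_, DKX_mem_KB s.2 fun x hx => ?_⟩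
    · have h1 := hs' (⟨x, hx⟩, 0)
      have h2 : val p' lam' s.1 (0 : XX) = 0 := val_zero _ _ _
      simp only [ZeroMemClass.coe_zero] at h1
      rw [h2, add_zero] at h1
      exact h1
    · have h1 := hs' (0, ⟨x, hx⟩)
      have h2 : val p lam s.1 (0 : XX) = 0 := val_zero _ _ _
      simp only [ZeroMemClass.coe_zero] at h1
      rw [h2, zero_add] at h1
      exact h1
  · rintro ⟨h1, h2⟩
    refine ⟨⟨t, h1.1⟩, ?_, rfl⟩
    rw [SetLike.mem_coe, Submodule.mem_dualCoannihilator]
    rintro _ ⟨x, rfl⟩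
    rw [DKX_phi_apply, DKX_val_zero h1 x.1.2, DKX_val_zero h2 x.2.2, add_zero]

theorem DKX_pf : DKX := by
  intro p l lam p' l' lam' h0 h0'
  have h1 := pair (DKX_phi p l lam p' l' lam')
  have h2 : finrank ℂ (KB p l lam ⊓ KB p' l' lam' : Submodule ℂ T3) =
      finrank ℂ ((LinearMap.range (DKX_phi p l lam p' l' lam')).dualCoannihilator) := by
    rw [← DKX_map_coann, Submodule.finrank_map_subtype_eq]
  have h3 : finrank ℂ (RelM p l lam p' l' lam') =
      finrank ℂ (LinearMap.ker (DKX_phi p l lam p' l' lam')) := by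
    rw [← DKX_map_ker]
    exact ((Submodule.equivMapOfInjective _ (DKX_emb_injective l l')
      (LinearMap.ker (DKX_phi p l lam p' l' lam'))).finrank_eq).symm
  rw [Module.finrank_prod, DKX_finrank_RW h0, DKX_finrank_RW h0', ← h2, ← h3] at h1
  omega

end Pool.Agent.Work.MP_ea8963_ag.G5
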