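import Pool.Agent.Work.MP_ea8963_ag.G5.Stmts

/-!
Block [ea8963 G5], item DTP (helper50).
-/

noncomputable section

open Module

namespace Pool.Agent.Work.MP_ea8963_ag.G5

/-- the linear map `(dp, dl) ↦ (dl ⬝ᵥ p i + l ⬝ᵥ dp i)_i` -/
def DTP_map (p : Fin 4 → E) (l : E) : ((Fin 4 → E) × E) →ₗ[ℂ] (Fin 4 → ℂ) where
  toFun x := fun i => x.2 ⬝ᵥ p i + l ⬝ᵥ x.1 i
  map_add' x y := by
    funext i
    simp only [Prod.snd_add, Prod.fst_add, Pi.add_apply, add_dotProduct, dotProduct_add]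
    ring
  map_smul' c x := by
    funext i
    simp only [Prod.smul_snd, Prod.smul_fst, Pi.smul_apply, smul_dotProduct, dotProduct_smul,
      RingHom.id_apply, smul_eq_mul]
    ring

lemma DTP_ker (p : Fin 4 → E) (l : E) : LinearMap.ker (DTP_map p l) = TP p l := by
  ext x
  rw [LinearMap.mem_ker, mem_TP]
  exact ⟨fun h i => congrFun h i, fun h => funext h⟩

lemma DTP_surj (p : Fin 4 → E) (l : E) (hp : LinearIndependent ℂ p) :
    Function.Surjective (DTP_map p l) := by
  intro y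
  obtain ⟨x, hx⟩ := exists_solution hp y
  refine ⟨(0, x), ?_⟩
  funext i
  change x ⬝ᵥ p i + l ⬝ᵥ (0 : Fin 4 → E) i = y i
  rw [Pi.zero_apply, dotProduct_zero, add_zero, dotProduct_comm, hx]

theorem DTP_pf : DTP := by
  intro p l hp
  have h1 := LinearMap.finrank_range_add_finrank_ker (DTP_map p l)
  rw [LinearMap.range_eq_top.2 (DTP_surj p l hp), DTP_ker] at h1
  have h2 : finrank ℂ ((Fin 4 → E) × E) = 30 := by
    simp [Module.finrank_prod, Module.finrank_pi_fintype]
  rw [h2, finrank_top] at h1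
  have h3 : finrank ℂ (Fin 4 → ℂ) = 4 := by simp
  omega

end Pool.Agent.Work.MP_ea8963_ag.G5
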