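import Pool.Agent.Work.MP_ea8963_ag.G5.Stmts

/-!
Block [ea8963 G5], item FLX: all counts for a generic configuration are sharp.
-/

set_option linter.style.longLine false
set_option linter.unusedVariables false

noncomputable section

open Module Topology
open Pool.Agent.Work.MP_ea8963_ag.G4 (D ZA mem_ZA Full cl rn rn_prod rn_le finrank_map_mono
  finrank_map_prod_swap pair d_two ZA_mono)

namespace Pool.Agent.Work.MP_ea8963_ag.G5

lemma FLX_ne {s : T3} {p : Fin 4 → E} {l : E} {lam : Fin 4 → La} (h : Cfg s p l lam) (i : Fin 4) :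
    lam i ≠ 0 := by
  intro h0
  apply h.l0
  rw [← h.eq i, h0, cov_zero_left]

/-- the space in which the derivatives of a configuration lie -/
def FLX_T (p : Fin 4 → E) (l : E) : Submodule ℂ (((Fin 4 → E) × E) × (Fin 4 → La)) :=
  LinearMap.range ((TP p l).subtype.prodMap (LinearMap.id : (Fin 4 → La) →ₗ[ℂ] (Fin 4 → La)))

lemma FLX_mem (p : Fin 4 → E) (l : E) (x : (Fin 4 → E) × E) (hx : x ∈ TP p l) (d : Fin 4 → La) :
    (x, d) ∈ FLX_T p l :=
  ⟨(⟨x, hx⟩, d), rfl⟩

lemma FLX_finrank (hDT : DTP) {p : Fin 4 → E} (l : E) (hp : LinearIndependent ℂ p) :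
    finrank ℂ (FLX_T p l) = 38 := by
  have h1 : finrank ℂ (FLX_T p l) = finrank ℂ ((TP p l) × (Fin 4 → La)) := by
    refine LinearMap.finrank_range_of_inj ?_
    rintro ⟨x, d⟩ ⟨y, e⟩ hxy
    have h2 := congrArg Prod.fst hxy
    have h3 := congrArg Prod.snd hxy
    have h4 : (x : (Fin 4 → E) × E) = y := h2
    have h5 : d = e := h3
    rw [Subtype.ext h4, h5]
  rw [h1, finrank_prod, hDT p l hp, finrank_pi_fintype]
  simp

theorem FLX_pf (hGK : GKP) (hDT : DTP) : FLX := by
  intro s hs p l lam h h6 hlam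
  have hrn := rn (evT s) (evC p l lam) ⊤
  rw [top_inf_eq, top_inf_eq, hs.map_evT] at hrn
  change finrank ℂ SymT + finrank ℂ ((ZS s).map (evC p l lam)) =
    finrank ℂ ((⊤ : Submodule ℂ D).map (evC p l lam)) +
      finrank ℂ ((ZC p l lam).map (evT s)) at hrn
  have h0 : finrank ℂ ((ZS s).map (evB p l)) ≤ finrank ℂ ((ZS s).map (evC p l lam)) := by
    have h1 := rn_prod (evB p l) (evP lam) (ZS s)
    have e : (ZS s).map (evC p l lam) = (ZS s).map ((evB p l).prod (evP lam)) := rfl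
    rw [e, h1]
    omega
  have h1 : (⊤ : Submodule ℂ D).map (evC p l lam) ≤ FLX_T p l := by
    rintro _ ⟨δ, -, rfl⟩
    exact FLX_mem p l _ (h.ev_mem δ) _
  have h2 : (ZC p l lam).map (evT s) ≤ K1 p lam := by
    rintro _ ⟨δ, hδ, rfl⟩
    exact h.dT_mem_K1 hs.1 hδ
  have h3 := hGK 4 p lam h.ind (FLX_ne h) ∅ (by
    rintro i k hik ⟨c, hc⟩
    exact absurd hc (hlam i k hik.ne c))
  rw [Finset.card_empty] at h3
  have h4 := FLX_finrank hDT l h.ind
  have h1' := Submodule.finrank_mono h1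
  have h2' := Submodule.finrank_mono h2
  refine ⟨by omega, ?_, ?_⟩
  · have he : (⊤ : Submodule ℂ D).map (evC p l lam) = FLX_T p l :=
      Submodule.eq_of_le_of_finrank_eq h1 (by omega)
    intro x hx d
    have hm := FLX_mem p l x hx d
    rw [← he] at hm
    obtain ⟨δ, -, hδ⟩ := hm
    exact ⟨δ, hδ⟩
  · have he : (ZC p l lam).map (evT s) = K1 p lam :=
      Submodule.eq_of_le_of_finrank_eq h2 (by omega)
    intro t ht
    rw [← he] at ht
    obtain ⟨δ, hδZ, hδ⟩ := ht
    exact ⟨δ, hδZ, hδ⟩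

end Pool.Agent.Work.MP_ea8963_ag.G5
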