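import Pool.Agent.Work.MP_ea8963_ag.G5.Stmts3

/-!
Block [ea8963 G5], item GAL.  Two indices `j, k` have `τ ≠ 0`; take for `a, b` the two others.
`c a b = 0` gives `G a = G b = 0` directly, (A) gives `c a j = 0`, hence `G j = 0`, so `G = 0` and
all `c i k` with `τ i ≠ 0` or `τ k ≠ 0` vanish.  (The hypothesis `AM` is not needed.)
-/

set_option linter.style.longLine false
set_option linter.unusedVariables false

noncomputable section

namespace Pool.Agent.Work.MP_ea8963_ag.G5

lemma GAL_pick (τ : Fin 4 → ℂ) (hs : ∑ i, τ i = 0) (h : ∃ i, τ i ≠ 0) :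
    ∃ a b : Fin 4, a ≠ b ∧ ∀ i, i ≠ a → i ≠ b → τ i ≠ 0 := by
  obtain ⟨j, hj⟩ := h
  obtain ⟨k, hkj, hk⟩ : ∃ k, k ≠ j ∧ τ k ≠ 0 := by
    by_contra hcon
    push Not at hcon
    rw [Finset.sum_eq_single j (fun b _ hb => hcon b hb) (by simp)] at hs
    exact hj hs
  have key : ∀ j k : Fin 4, k ≠ j → ∃ a b : Fin 4, a ≠ b ∧ ∀ i, i ≠ a → i ≠ b → i = j ∨ i = k := by
    decide
  obtain ⟨a, b, hab, h⟩ := key j k hkj
  refine ⟨a, b, hab, fun i h1 h2 => ?_⟩
  rcases h i h1 h2 with rfl | rfl
  · exact hj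
  · exact hk

theorem GAL_pf : GAL := by
  intro ρ f g τ V hρ hf hs hτ hV hAM
  obtain ⟨a, b, hab, hall⟩ := GAL_pick τ hs hτ
  refine ⟨a, b, ?_⟩
  rintro c hc ⟨G, hG⟩ h0
  have hA : ∀ i k, i ≠ k → (g i * f k - g k * f i) * ρ k * G i = ρ i * τ k * c i k := by
    intro i k hik
    have h1 := hG i k hik
    have h2 := hV i k hik
    linear_combination c i k * h2 - (g i * f k - g k * f i) * h1
  have st1 : ∀ i k, i ≠ k → c i k = 0 → G i = 0 := by
    intro i k hik h
    have h1 := hG i k hik
    rw [h, zero_mul] at h1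
    exact (mul_eq_zero.mp h1.symm).resolve_left (hρ k)
  have cs : ∀ i k, c i k = 0 → c k i = 0 := by
    intro i k h
    rw [hc i k, h, neg_zero]
  have st2 : ∀ i k, i ≠ k → G i = 0 → τ k ≠ 0 → c i k = 0 := by
    intro i k hik h1 h2
    have h3 := hA i k hik
    rw [h1, mul_zero] at h3
    exact (mul_eq_zero.mp h3.symm).resolve_left (mul_ne_zero (hρ i) h2)
  have Ga : G a = 0 := st1 a b hab h0
  have Gb : G b = 0 := st1 b a hab.symm (cs a b h0)
  have G0 : ∀ i, G i = 0 := by
    intro i
    by_cases hia : i = a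
    · rw [hia]; exact Ga
    by_cases hib : i = b
    · rw [hib]; exact Gb
    exact st1 i a hia (cs a i (st2 a i (Ne.symm hia) Ga (hall i hia hib)))
  intro i k
  by_cases hik : i = k
  · subst hik
    have h1 := hc i i
    linear_combination (1 / 2 : ℂ) * h1
  by_cases hk : τ k = 0
  · by_cases hi : τ i = 0
    · have e1 : i = a ∨ i = b := by
        by_contra hcon
        push Not at hcon
        exact hall i hcon.1 hcon.2 hi
      have e2 : k = a ∨ k = b := by
        by_contra hcon
        push Not at hcon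
        exact hall k hcon.1 hcon.2 hk
      rcases e1 with rfl | rfl
      · rcases e2 with rfl | rfl
        · exact absurd rfl hik
        · exact h0
      · rcases e2 with rfl | rfl
        · exact cs _ _ h0
        · exact absurd rfl hik
    · exact cs k i (st2 k i (Ne.symm hik) (G0 k) hi)
  · exact st2 i k hik (G0 i) hk

end Pool.Agent.Work.MP_ea8963_ag.G5
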