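import Pool.Agent.Work.MP_ea8963_ag.G5.Stmts

/-!
Block [ea8963 G5], item GKP (number of conditions, any number of points).  helper26.
-/

set_option linter.style.longLine false
set_option linter.unusedVariables false

noncomputable section

open Module
open Pool.Agent.Work.MP_ea8963_ag.G4 (pair)

namespace Pool.Agent.Work.MP_ea8963_ag.G5

namespace I_GKP

variable {n : ℕ}

/-- the functional on symmetric nets defined by a family of pairs -/
def func (p : Fin n → E) (lam : Fin n → La) :
    ((Fin n → E) × (Fin n → La)) →ₗ[ℂ] Dual ℂ SymT where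
  toFun x :=
    { toFun := fun t => ∑ i, (tri (t : T3) (lam i) (p i) (x.1 i) + tri (t : T3) (x.2 i) (p i) (p i))
      map_add' := fun s t => by
        simp only [Submodule.coe_add, tri_add_tensor, ← Finset.sum_add_distrib]
        exact Finset.sum_congr rfl fun i _ => by ring
      map_smul' := fun c t => by
        simp only [Submodule.coe_smul, tri_smul_tensor, Finset.mul_sum, RingHom.id_apply,
          smul_eq_mul, mul_add] }
  map_add' v w := by
    ext t
    simp only [LinearMap.coe_mk, AddHom.coe_mk, LinearMap.add_apply, Pi.add_apply, Prod.fst_add,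
      Prod.snd_add, tri_add3, tri_add1, ← Finset.sum_add_distrib]
    exact Finset.sum_congr rfl fun i _ => by ring
  map_smul' c v := by
    ext t
    simp only [LinearMap.coe_mk, AddHom.coe_mk, LinearMap.smul_apply, Pi.smul_apply, Prod.smul_fst,
      Prod.smul_snd, tri_smul3, tri_smul1, Finset.mul_sum, RingHom.id_apply, smul_eq_mul, mul_add]

lemma func_apply (p : Fin n → E) (lam : Fin n → La) (x : (Fin n → E) × (Fin n → La)) (t : SymT) :
    func p lam x t = ∑ i, (tri (t : T3) (lam i) (p i) (x.1 i) + tri (t : T3) (x.2 i) (p i) (p i)) :=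
  rfl

lemma map_coann (p : Fin n → E) (lam : Fin n → La) :
    ((LinearMap.range (func p lam)).dualCoannihilator).map SymT.subtype = K1 p lam := by
  classical
  ext t
  rw [mem_K1]
  constructor
  · rintro ⟨s, hs, rfl⟩
    refine ⟨s.2, fun i v => ?_, fun i a => ?_⟩
    · have h1 := (Submodule.mem_dualCoannihilator _).1 hs (func p lam (Pi.single i v, 0))
        (LinearMap.mem_range_self _ _)
      rw [func_apply, Finset.sum_eq_single i] at h1
      · simpa [tri_zero1] using h1
      · intro j _ hj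
        simp only [Pi.single_eq_of_ne hj, Pi.zero_apply, tri_zero3, tri_zero1, add_zero]
      · intro hi
        exact absurd (Finset.mem_univ i) hi
    · have h1 := (Submodule.mem_dualCoannihilator _).1 hs (func p lam (0, Pi.single i a))
        (LinearMap.mem_range_self _ _)
      rw [func_apply, Finset.sum_eq_single i] at h1
      · simpa [tri_zero3] using h1
      · intro j _ hj
        simp only [Pi.single_eq_of_ne hj, Pi.zero_apply, tri_zero3, tri_zero1, add_zero]
      · intro hi
        exact absurd (Finset.mem_univ i) hi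
  · rintro ⟨ht, h, h'⟩
    refine ⟨⟨t, ht⟩, ?_, rfl⟩
    rw [SetLike.mem_coe, Submodule.mem_dualCoannihilator]
    rintro _ ⟨x, rfl⟩
    rw [func_apply]
    exact Finset.sum_eq_zero fun i _ => by
      rw [h i (x.1 i), h' i (x.2 i), add_zero]

/-- the test identity -/
lemma test {p : Fin n → E} {lam : Fin n → La} {a : Fin n → E}
    (ha : ∀ i j, a i ⬝ᵥ p j = if i = j then 1 else 0) (x : (Fin n → E) × (Fin n → La))
    (h : ∀ t ∈ SymT, ∑ i, (tri t (lam i) (p i) (x.1 i) + tri t (x.2 i) (p i) (p i)) = 0)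
    (i : Fin n) (c : La) (g : E) :
    (c ⬝ᵥ lam i) * (g ⬝ᵥ x.1 i) + ∑ j, (c ⬝ᵥ lam j) * ((g ⬝ᵥ p j) * (a i ⬝ᵥ x.1 j)) +
      2 * (c ⬝ᵥ x.2 i) * (g ⬝ᵥ p i) = 0 := by
  have h1 := h (sp c (a i) g) (sp_mem _ _ _)
  simp only [tri_sp, ha] at h1
  rw [← h1]
  have h2 : ∀ f : Fin n → ℂ, ∑ j, (if i = j then f j else 0) = f i := by
    intro f
    rw [Finset.sum_ite_eq Finset.univ i f, if_pos (Finset.mem_univ i)]
  have h3 : (c ⬝ᵥ lam i) * (g ⬝ᵥ x.1 i) =
      ∑ j, (if i = j then (c ⬝ᵥ lam j) * (g ⬝ᵥ x.1 j) else 0) :=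
    (h2 fun j => (c ⬝ᵥ lam j) * (g ⬝ᵥ x.1 j)).symm
  have h4 : 2 * (c ⬝ᵥ x.2 i) * (g ⬝ᵥ p i) =
      ∑ j, (if i = j then 2 * (c ⬝ᵥ x.2 j) * (g ⬝ᵥ p j) else 0) :=
    (h2 fun j => 2 * (c ⬝ᵥ x.2 j) * (g ⬝ᵥ p j)).symm
  rw [h3, h4, ← Finset.sum_add_distrib, ← Finset.sum_add_distrib]
  refine Finset.sum_congr rfl fun j _ => ?_
  by_cases hj : i = j
  · simp only [if_pos hj]; ring
  · simp only [if_neg hj]; ring

/-- the kernel is detected by the diagonal coefficients and those of the pairs in `S` -/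
lemma key {p : Fin n → E} {lam : Fin n → La} (hp : LinearIndependent ℂ p) {a : Fin n → E}
    (ha : ∀ i j, a i ⬝ᵥ p j = if i = j then 1 else 0) (hl : ∀ i, lam i ≠ 0)
    {S : Finset (Fin n × Fin n)} (hS : ∀ i k, i < k → (∃ c : ℂ, lam i = c • lam k) → (i, k) ∈ S)
    (x : (Fin n → E) × (Fin n → La))
    (h : ∀ t ∈ SymT, ∑ i, (tri t (lam i) (p i) (x.1 i) + tri t (x.2 i) (p i) (p i)) = 0)
    (h1 : ∀ i, a i ⬝ᵥ x.1 i = 0) (h2 : ∀ q ∈ S, a q.2 ⬝ᵥ x.1 q.1 = 0) : x = 0 := by
  have T := test ha x h
  -- off diagonal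
  have h3 : ∀ i k, i ≠ k → (a k ⬝ᵥ x.1 i) • lam i + (a i ⬝ᵥ x.1 k) • lam k = 0 := by
    intro i k hik
    apply eq_zero_of_dot
    intro c
    have h4 := T i c (a k)
    rw [Finset.sum_eq_single k, ha k k, ha k i, if_pos rfl, if_neg (Ne.symm hik)] at h4
    · rw [dotProduct_add, dotProduct_smul, dotProduct_smul, smul_eq_mul, smul_eq_mul]
      linear_combination h4
    · intro j _ hj
      rw [ha k j, if_neg (Ne.symm hj)]; ring
    · intro hk
      exact absurd (Finset.mem_univ k) hk
  have h5 : ∀ i k, i < k → a k ⬝ᵥ x.1 i = 0 ∧ a i ⬝ᵥ x.1 k = 0 := by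
    intro i k hik
    have h6 := h3 i k hik.ne
    have h7 : a k ⬝ᵥ x.1 i = 0 := by
      by_cases hm : (i, k) ∈ S
      · exact h2 (i, k) hm
      · by_contra hne
        apply hm
        refine hS i k hik ⟨-((a k ⬝ᵥ x.1 i)⁻¹ * (a i ⬝ᵥ x.1 k)), ?_⟩
        have h8 : (a k ⬝ᵥ x.1 i) • lam i = -((a i ⬝ᵥ x.1 k) • lam k) := eq_neg_of_add_eq_zero_left h6
        have h9 := congrArg (fun y => (a k ⬝ᵥ x.1 i)⁻¹ • y) h8
        simp only [smul_smul, inv_mul_cancel₀ hne, one_smul, smul_neg] at h9
        rw [h9, neg_smul]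
    refine ⟨h7, ?_⟩
    rw [h7, zero_smul, zero_add] at h6
    exact (smul_eq_zero.1 h6).resolve_right (hl k)
  have h6 : ∀ i k, a k ⬝ᵥ x.1 i = 0 := by
    intro i k
    rcases lt_trichotomy i k with hik | hik | hik
    · exact (h5 i k hik).1
    · subst hik; exact h1 i
    · exact (h5 k i hik).2
  -- the vectors lie in the span
  have h7 : ∀ i, x.1 i ∈ Submodule.span ℂ (Set.range p) := by
    intro i
    refine mem_span_of_ann hp fun g hg => ?_
    obtain ⟨c, hc⟩ : ∃ c : La, c ⬝ᵥ lam i ≠ 0 := by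
      by_contra hcon
      simp only [not_exists, not_not] at hcon
      exact hl i (eq_zero_of_dot hcon)
    have h8 := T i c g
    have h9 : ∀ j, g ⬝ᵥ p j = 0 := fun j => by rw [dotProduct_comm]; exact hg j
    simp only [h9, zero_mul, mul_zero, Finset.sum_const_zero, add_zero] at h8
    rw [dotProduct_comm]
    exact (mul_eq_zero.1 h8).resolve_left hc
  have h8 : ∀ i, x.1 i = 0 := by
    intro i
    obtain ⟨w, hw⟩ := (Submodule.mem_span_range_iff_exists_fun ℂ).1 (h7 i)
    have h9 : ∀ k, w k = 0 := by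
      intro k
      have h10 := h6 i k
      rw [← hw, dotProduct_sum, Finset.sum_eq_single k] at h10
      · rw [dotProduct_smul, ha k k, if_pos rfl, smul_eq_mul, mul_one] at h10
        exact h10
      · intro j _ hj
        rw [dotProduct_smul, ha k j, if_neg (Ne.symm hj), smul_zero]
      · intro hk
        exact absurd (Finset.mem_univ k) hk
    rw [← hw]
    exact Finset.sum_eq_zero fun k _ => by rw [h9 k, zero_smul]
  have h9 : ∀ i, x.2 i = 0 := by
    intro i
    apply eq_zero_of_dot
    intro c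
    have h10 := T i c (a i)
    simp only [h8, dotProduct_zero, mul_zero, Finset.sum_const_zero, zero_add] at h10
    rw [ha i i, if_pos rfl] at h10
    linear_combination (1 / 2 : ℂ) * h10
  exact Prod.ext (funext h8) (funext h9)

/-- the coefficients which detect the kernel -/
def coef (a : Fin n → E) (S : Finset (Fin n × Fin n)) :
    ((Fin n → E) × (Fin n → La)) →ₗ[ℂ] (Fin n → ℂ) × (S → ℂ) where
  toFun x := (fun i => a i ⬝ᵥ x.1 i, fun q => a q.1.2 ⬝ᵥ x.1 q.1.1)
  map_add' x y := by
    ext i <;> simp [dotProduct_add]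
  map_smul' c x := by
    ext i <;> simp [dotProduct_smul]

end I_GKP

open I_GKP in
theorem GKP_pf : GKP := by
  classical
  intro n p lam hp hl S hS
  obtain ⟨a, ha⟩ := exists_dual hp
  have h1 := pair (I_GKP.func p lam)
  have h2 : finrank ℂ (K1 p lam) =
      finrank ℂ ((LinearMap.range (I_GKP.func p lam)).dualCoannihilator : Submodule ℂ SymT) := by
    rw [← I_GKP.map_coann p lam]
    exact Submodule.finrank_map_subtype_eq SymT _
  have h3 : finrank ℂ ((Fin n → E) × (Fin n → La)) = 9 * n := by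
    have hE : finrank ℂ (Fin n → E) = n * 6 := by
      rw [Module.finrank_pi_fintype]
      simp only [E, Module.finrank_fintype_fun_eq_card, Fintype.card_fin, Finset.sum_const,
        Finset.card_univ, smul_eq_mul]
    have hLa : finrank ℂ (Fin n → La) = n * 3 := by
      rw [Module.finrank_pi_fintype]
      simp only [La, Module.finrank_fintype_fun_eq_card, Fintype.card_fin, Finset.sum_const,
        Finset.card_univ, smul_eq_mul]
    rw [Module.finrank_prod, hE, hLa]
    ring
  have h4 : finrank ℂ (LinearMap.ker (I_GKP.func p lam)) ≤ n + S.card := by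
    have h5 : Function.Injective ((coef a S).comp (LinearMap.ker (I_GKP.func p lam)).subtype) := by
      rw [← LinearMap.ker_eq_bot, LinearMap.ker_eq_bot']
      rintro ⟨x, hx⟩ h6
      apply Subtype.ext
      change x = 0
      have h7 : coef a S x = 0 := h6
      refine key hp ha hl hS x (fun t ht => ?_) (fun i => congrFun (congrArg Prod.fst h7) i)
        (fun q hq => congrFun (congrArg Prod.snd h7) ⟨q, hq⟩)
      have h8 := congrArg (fun f : Dual ℂ SymT => f ⟨t, ht⟩) (LinearMap.mem_ker.1 hx)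
      simpa only [func_apply, LinearMap.zero_apply] using h8
    have h6 := LinearMap.finrank_le_finrank_of_injective h5
    have h7 : finrank ℂ ((Fin n → ℂ) × (S → ℂ)) = n + S.card := by
      rw [Module.finrank_prod, Module.finrank_fintype_fun_eq_card,
        Module.finrank_fintype_fun_eq_card, Fintype.card_fin, Fintype.card_coe]
    rw [h7] at h6
    exact h6
  omega

end Pool.Agent.Work.MP_ea8963_ag.G5
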