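import Pool.Agent.Work.MP_ea8963_ag.G5.Stmts3

/-!
Block [ea8963 G5]: ITEM GOX (`N63`, `RHO`, `RHP`, `CCX`, `TAU`, `GAL`, `NCY`, `K0X`, `RAS`, `QXX`
imply `GOX`).
-/

set_option linter.style.longLine false
set_option linter.unusedVariables false

noncomputable section

open Module Topology
open Pool.Agent.Work.MP_ea8963_ag.G4 (D ZA mem_ZA Full cl rn rn_prod rn_le finrank_map_mono
  finrank_map_prod_swap pair d_two ZA_mono)

namespace Pool.Agent.Work.MP_ea8963_ag.G5

/-- one functional costs at most one dimension -/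
lemma GOX_fin (Q K : Submodule ℂ T3) (φ : T3 →ₗ[ℂ] ℂ) (H : ∀ t ∈ Q, φ t = 0 → t ∈ K) :
    finrank ℂ Q ≤ finrank ℂ K + 1 := by
  have h1 := LinearMap.finrank_range_add_finrank_ker (φ.comp Q.subtype)
  have h2 : finrank ℂ (LinearMap.range (φ.comp Q.subtype)) ≤ 1 := by
    have := Submodule.finrank_le (LinearMap.range (φ.comp Q.subtype))
    simpa using this
  have h3 : (LinearMap.ker (φ.comp Q.subtype)).map Q.subtype ≤ K := by
    rintro _ ⟨⟨y, hy⟩, hyk, rfl⟩
    exact H y hy hyk
  have h4 : finrank ℂ ((LinearMap.ker (φ.comp Q.subtype)).map Q.subtype) =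
      finrank ℂ (LinearMap.ker (φ.comp Q.subtype)) :=
    Submodule.finrank_map_subtype_eq Q _
  have h5 := Submodule.finrank_mono h3
  omega

/-- the span of the four nodes is the common kernel of the two forms -/
lemma GOX_span {p : Fin 4 → E} {l h : E} (hp : LinearIndependent ℂ p)
    (h1 : ∀ i, l ⬝ᵥ p i = 0) (h2 : ∀ i, h ⬝ᵥ p i = 0) (h3 : LinearIndependent ℂ ![l, h])
    {x : E} (hx : x ∈ Ann ![l, h]) : ∃ c : Fin 4 → ℂ, x = ∑ k, c k • p k := by
  have h4 : Submodule.span ℂ (Set.range p) ≤ Ann ![l, h] := by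
    rw [Submodule.span_le]
    rintro _ ⟨i, rfl⟩
    rw [SetLike.mem_coe, mem_Ann]
    intro k
    fin_cases k
    · exact h1 i
    · exact h2 i
  have h5 : finrank ℂ (Ann ![l, h]) + 2 = 6 := finrank_Ann h3
  have h6 : finrank ℂ (Submodule.span ℂ (Set.range p)) = 4 := by
    rw [finrank_span_eq_card hp]; rfl
  have h7 : Submodule.span ℂ (Set.range p) = Ann ![l, h] := by
    apply Submodule.eq_of_le_of_finrank_eq h4
    rw [h6]
    exact (Nat.add_right_cancel (m := 2) h5).symm
  rw [← h7] at hx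
  obtain ⟨c, hc⟩ := (Submodule.mem_span_range_iff_exists_fun ℂ).1 hx
  exact ⟨c, hc.symm⟩

/-- a third index -/
lemma GOX_idx (a b : Fin 4) : ∃ j : Fin 4, j ≠ a ∧ j ≠ b := by
  revert a b
  decide

theorem GOX_pf (hN63 : N63) (hRHo : RHO) (hRHp : RHP) (hCCx : CCX) (hTAu : TAU) (hGAl : GAL)
    (hNCy : NCY) (hK0x : K0X) (hRAs : RAS) (hQXx : QXX) : GOX := by
  intro s p l lam m p' l' lam' m' h h' H hA1 hA2 x hx hx1 hx2
  obtain ⟨ρ, hρ0, hρ1, hρ2⟩ := hRHo lam' H.o'.gp
  have hS := H.swap.side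
  have hAS := (hRAs s p l lam m p' l' lam' m' h h' H x hx hx1 hx2).2
  rw [← PP_comm] at hAS
  obtain ⟨V, τ, hV, hVτ, hτ, hTri⟩ := hTAu p' l' lam' h' l h hS ρ ⟨hρ0, hρ1, hρ2⟩ x.2 hAS
  by_cases hτ0 : ∀ i, τ i = 0
  · by_cases hz : ∃ i k, i ≠ k ∧ zz l h p' i k = 0
    · exact Or.inr hz
    · left
      push Not at hz
      apply hTri
      intro i k hik
      have h1 := hVτ i k hik
      rw [hτ0 k, mul_zero] at h1
      exact (mul_eq_zero.1 h1).resolve_left (hz i k hik)
  · exfalso
    push Not at hτ0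
    obtain ⟨a, b, hab⟩ := hGAl ρ (fun i => l ⬝ᵥ p' i) (fun i => h ⬝ᵥ p' i) τ V hρ0 H.t' hτ hτ0
      hVτ hA2
    obtain ⟨j, hja, hjb⟩ := GOX_idx a b
    have hK := hK0x s p l lam m p' l' lam' m' h h' H
    have hQ := hQXx s p l lam m p' l' lam' m' h h' H x hx
    have hind : LinearIndependent ℂ ![l', h'] := by
      have h1 := H.fi.comp ![2, 3] (by decide)
      have e : (![l, h, l', h'] : Fin 4 → E) ∘ ![2, 3] = ![l', h'] := by
        funext i
        fin_cases i <;> rfl
      rwa [e] at h1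
    have key : ∀ t ∈ QQ p l lam p' l' lam' x.2, triL (lam' j) (p' a) (p' b) t = 0 →
        t ∈ (KB p l lam ⊓ KB p' l' lam' ⊓ KU (Ann ![l, h]) ⊓ KU (Ann ![l', h']) :
          Submodule ℂ T3) := by
      intro t ht hφ
      obtain ⟨⟨ht1, ht2⟩, ht3, -⟩ := ht
      obtain ⟨c, hc⟩ := hCCx p' l' lam' H.o'.gp H.o'.lp t ht2
      -- the family G
      have hG : ∀ i, ∃ g : ℂ, ∀ k, k ≠ i → V i k * c i k = g * ρ k := by
        intro i
        refine hRHp lam' H.o'.gp ρ hρ0 hρ1 hρ2 i (fun k => V i k * c i k) (fun e => ?_)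
        have h1 := ht3 i e
        rw [hV i, tri_sum3] at h1
        rw [← h1]
        refine Finset.sum_congr rfl fun k _ => ?_
        rw [tri_smul3, hc.eq i k e]
        ring
      choose G hG using hG
      have hcab : c a b = 0 := by
        by_cases hab' : a = b
        · subst hab'
          have h1 := hc.anti a a
          have h2 : 2 * c a a = 0 := by linear_combination h1
          exact (mul_eq_zero.1 h2).resolve_left two_ne_zero
        · rw [triL_apply, hc.eq a b (lam' j)] at hφ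
          exact (mul_eq_zero.1 hφ).resolve_right (H.o'.gp j a b hja hjb hab')
      have hc0 : ∀ i k, c i k = 0 := by
        refine hab c hc.anti ⟨G, fun i k hik => ?_⟩ hcab
        have h1 := hG i k (Ne.symm hik)
        linear_combination h1
      have hp0 : ∀ i k e, tri t e (p' i) (p' k) = 0 := by
        intro i k e
        rw [hc.eq i k e, hc0 i k, zero_mul]
      have hKU' : t ∈ KU (Ann ![l', h']) := by
        refine ⟨ht1.1, fun e u hu v hv => ?_⟩
        obtain ⟨cu, rfl⟩ := GOX_span H.o'.ind H.o'.lp H.hp' hind hu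
        obtain ⟨cv, rfl⟩ := GOX_span H.o'.ind H.o'.lp H.hp' hind hv
        rw [tri_sum2]
        refine Finset.sum_eq_zero fun i _ => ?_
        rw [tri_sum3]
        refine Finset.sum_eq_zero fun k _ => ?_
        rw [tri_smul2, tri_smul3, hp0, mul_zero, mul_zero]
      have hKP : t ∈ KU (PP l h l' h') := by
        refine ⟨ht1.1, fun e u hu v hv => hKU'.2 e u ?_ v ?_⟩
        · rw [mem_PP] at hu
          rw [mem_Ann]
          intro i
          fin_cases i
          · exact hu.2.2.1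
          · exact hu.2.2.2
        · rw [mem_PP] at hv
          rw [mem_Ann]
          intro i
          fin_cases i
          · exact hv.2.2.1
          · exact hv.2.2.2
      have hKU : t ∈ KU (Ann ![l, h]) := hNCy p l lam h l' h' H.side hA1 ⟨ht1, hKP⟩
      exact ⟨⟨⟨ht1, ht2⟩, hKU⟩, hKU'⟩
    have hF := GOX_fin _ _ _ key
    have h63 : 63 ≤ finrank ℂ SymT := hN63
    omega

end Pool.Agent.Work.MP_ea8963_ag.G5
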