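import Pool.Agent.Work.MP_ea8963_ag.G5.Stmts

/-!
Block [ea8963 G5], item GPX.
-/

set_option linter.style.longLine false
set_option linter.unusedVariables false

noncomputable section

open Module Topology
open Pool.Agent.Work.MP_ea8963_ag.G4 (D ZA mem_ZA Full cl rn rn_prod rn_le finrank_map_mono
  finrank_map_prod_swap pair d_two ZA_mono)

namespace Pool.Agent.Work.MP_ea8963_ag.G5

lemma GPX_d_dt (δ : D) (a b c : La) :
    δ (dt a b c) = dt (dE δ a) b c + dt a (dE δ b) c + dt a b (dE δ c) := by
  simp only [dt_def, map_add, map_sub, Derivation.leibniz, smul_eq_mul, dE]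
  ring

lemma GPX_zero13 (a b : La) : dt a 0 b = 0 := by simp [dt_def]
lemma GPX_zero33 (a b : La) : dt a b 0 = 0 := by simp [dt_def]

/-- if all determinants `dt e b c` vanish then `b`, `c` are proportional -/
lemma GPX_prop (b c : La) (h : ∀ e : La, dt e b c = 0) :
    (∃ x : ℂ, b = x • c) ∨ (∃ x : ℂ, c = x • b) := by
  have h0 : b 1 * c 2 - b 2 * c 1 = 0 := by
    have := h (Pi.single 0 1)
    simpa [dt_def] using this
  have h1 : b 2 * c 0 - b 0 * c 2 = 0 := by
    have := h (Pi.single 1 1)
    simpa [dt_def] using this
  have h2 : b 0 * c 1 - b 1 * c 0 = 0 := by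
    have := h (Pi.single 2 1)
    simpa [dt_def] using this
  by_cases hc : c = 0
  · right
    exact ⟨0, by rw [hc, zero_smul]⟩
  · left
    have hne : ∃ m, c m ≠ 0 := by
      by_contra hcon
      push Not at hcon
      exact hc (funext hcon)
    obtain ⟨m, hm⟩ := hne
    refine ⟨b m / c m, ?_⟩
    funext i
    rw [Pi.smul_apply, smul_eq_mul, div_mul_eq_mul_div, eq_div_iff hm]
    fin_cases m <;> fin_cases i <;>
      simp only [Fin.zero_eta, Fin.mk_one, Fin.reduceFinMk] <;>
      first
        | ring1
        | linear_combination h0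
        | linear_combination h1
        | linear_combination h2
        | linear_combination -h0
        | linear_combination -h1
        | linear_combination -h2

theorem GPX_pf : GPX := by
  intro p l lam hne hfull i j k hij hik hjk h0
  have hall : ∀ e : La, dt e (lam j) (lam k) = 0 := by
    intro e
    obtain ⟨δ, hδ⟩ := hfull 0 (Submodule.zero_mem _) (Pi.single i e)
    have h5 : evP lam δ = (Pi.single i e : Fin 4 → La) := congrArg Prod.snd hδ
    have h6 : dE δ (lam i) = e := by
      have := congrFun h5 i
      simpa using this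
    have h7 : dE δ (lam j) = 0 := by
      have h8 := congrFun h5 j
      rw [Pi.single_apply, if_neg (Ne.symm hij)] at h8
      exact h8
    have h9 : dE δ (lam k) = 0 := by
      have h8 := congrFun h5 k
      rw [Pi.single_apply, if_neg (Ne.symm hik)] at h8
      exact h8
    have h10 := GPX_d_dt δ (lam i) (lam j) (lam k)
    rw [h0, map_zero, h6, h7, h9, GPX_zero13, GPX_zero33, add_zero, add_zero] at h10
    exact h10.symm
  rcases GPX_prop _ _ hall with ⟨x, hx⟩ | ⟨x, hx⟩
  · exact hne j k hjk x hx
  · exact hne k j (Ne.symm hjk) x hx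

end Pool.Agent.Work.MP_ea8963_ag.G5
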