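import Pool.Agent.Work.MP_ea8963_ag.G5.Stmts3

/-!
Block [ea8963 G5], item HHX.
-/

set_option linter.style.longLine false
set_option linter.unusedVariables false

noncomputable section

open Module Topology
open Pool.Agent.Work.MP_ea8963_ag.G4 (D ZA mem_ZA Full cl rn rn_prod rn_le finrank_map_mono
  finrank_map_prod_swap pair d_two ZA_mono)

namespace Pool.Agent.Work.MP_ea8963_ag.G5

lemma HHX_ann {p : Fin 4 → E} {l h : E} (hind : LinearIndependent ℂ p)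
    (hl : ∀ i, l ⬝ᵥ p i = 0) (hh : ∀ i, h ⬝ᵥ p i = 0)
    (hlh : LinearIndependent ℂ ![l, h]) :
    Submodule.span ℂ (Set.range p) = Ann ![l, h] := by
  apply Submodule.eq_of_le_of_finrank_eq
  · rw [Submodule.span_le]
    rintro _ ⟨i, rfl⟩ j
    fin_cases j
    · exact hl i
    · exact hh i
  · have h1 : finrank ℂ (Ann ![l, h]) + 2 = 6 := finrank_Ann hlh
    rw [finrank_span_eq_card hind, Fintype.card_fin]
    exact Nat.add_right_cancel (m := 2) h1.symm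

lemma HHX_sum {p : Fin 4 → E} {lam : Fin 4 → La} {h f : E} {x : XX} (hp : ∀ i, h ⬝ᵥ p i = 0)
    (e : La) : val p lam (sp e f h) x =
    e ⬝ᵥ ∑ i, ((f ⬝ᵥ p i) * (h ⬝ᵥ x.1 i)) • lam i := by
  rw [val, dotProduct_sum]
  refine Finset.sum_congr rfl fun i _ => ?_
  rw [tri_sp, tri_sp, hp i, dotProduct_smul, smul_eq_mul]
  ring

lemma HHX_zero {p : Fin 4 → E} {lam : Fin 4 → La} {h f : E} {x : XX} (hp : ∀ i, f ⬝ᵥ p i = 0)
    (hx : ∀ i, f ⬝ᵥ x.1 i = 0) (e : La) : val p lam (sp e f h) x = 0 := by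
  rw [val]
  refine Finset.sum_eq_zero fun i _ => ?_
  rw [tri_sp, tri_sp, hp i, hx i]
  ring

theorem HHX_pf (hRHo : RHO) : HHX := by
  intro s p l lam m p' l' lam' m' h h' T x hx hv i
  obtain ⟨hx1, hx2, hx3⟩ := mem_RelM.1 hx
  obtain ⟨ρ, hρ0, -, hρu⟩ := hRHo lam T.o.gp
  have key : ∀ f : E, (∀ i, f ⬝ᵥ p' i = 0) → (∀ i, f ⬝ᵥ x.2.1 i = 0) →
      ∑ i, ((f ⬝ᵥ p i) * (h ⬝ᵥ x.1.1 i)) • lam i = 0 := by
    intro f h1 h2
    apply eq_zero_of_dot
    intro e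
    have h3 := hx3 (sp e f h) (sp_mem e f h)
    rw [HHX_zero h1 h2, add_zero, HHX_sum T.hp] at h3
    exact h3
  obtain ⟨κ, hκ⟩ := hρu _ (key l' T.o'.lp hx2)
  obtain ⟨κ', hκ'⟩ := hρu _ (key h' T.hp' hv)
  have e1 : ∀ i, (l' ⬝ᵥ p i) * (h ⬝ᵥ x.1.1 i) = κ * ρ i := fun i => congrFun hκ i
  have e2 : ∀ i, (h' ⬝ᵥ p i) * (h ⬝ᵥ x.1.1 i) = κ' * ρ i := fun i => congrFun hκ' i
  by_cases h0 : κ = 0
  · have h3 := e1 i
    rw [h0, zero_mul] at h3
    exact (mul_eq_zero.1 h3).resolve_left (T.t i)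
  exfalso
  have ha : ∀ i, h ⬝ᵥ x.1.1 i ≠ 0 := by
    intro j hj
    have h3 := e1 j
    rw [hj, mul_zero] at h3
    exact mul_ne_zero h0 (hρ0 j) h3.symm
  have hw : ∀ j, (κ • h' - κ' • l') ⬝ᵥ p j = 0 := by
    intro j
    rw [sub_dotProduct, smul_dotProduct, smul_dotProduct, smul_eq_mul, smul_eq_mul]
    have h3 : (κ * h' ⬝ᵥ p j - κ' * l' ⬝ᵥ p j) * (h ⬝ᵥ x.1.1 j) = 0 := by
      linear_combination κ * e2 j - κ' * e1 j
    exact (mul_eq_zero.1 h3).resolve_right (ha j)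
  have hlh : LinearIndependent ℂ ![l, h] := by
    have h3 := T.fi.comp ![0, 1] (by decide)
    convert h3 using 1
    funext j
    fin_cases j <;> rfl
  have hmem : κ • h' - κ' • l' ∈ Submodule.span ℂ (Set.range ![l, h]) := by
    apply mem_span_of_ann hlh
    intro y hy
    have hy' : y ∈ Submodule.span ℂ (Set.range p) := by
      rw [HHX_ann T.o.ind T.o.lp T.hp hlh]; exact hy
    obtain ⟨c, hc⟩ := (Submodule.mem_span_range_iff_exists_fun ℂ).1 hy'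
    rw [← hc, dotProduct_sum]
    refine Finset.sum_eq_zero fun j _ => ?_
    rw [dotProduct_smul, hw j, smul_zero]
  obtain ⟨c, hc⟩ := (Submodule.mem_span_range_iff_exists_fun ℂ).1 hmem
  rw [Fin.sum_univ_two] at hc
  have h4 := Fintype.linearIndependent_iff.1 T.fi ![c 0, c 1, κ', -κ] (by
    rw [Fin.sum_univ_four]
    simp only [Matrix.cons_val_zero, Matrix.cons_val_one, Matrix.cons_val] at hc ⊢
    rw [hc]
    module) 3
  have h5 : -κ = 0 := h4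
  exact h0 (neg_eq_zero.1 h5)

end Pool.Agent.Work.MP_ea8963_ag.G5
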