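import Pool.Agent.Work.MP_ea8963_ag.G5.Stmts3

/-!
Block [ea8963 G5], item INJ (helper95).
-/

set_option linter.style.longLine false
set_option linter.unusedVariables false

noncomputable section

open Module

namespace Pool.Agent.Work.MP_ea8963_ag.G5

lemma INJ_tri_sum (s : T3) (a : La) (u : E) (v : Fin 4 → ℂ) (p : Fin 4 → E) :
    tri s a u (∑ k, v k • p k) = ∑ k, v k * tri s a u (p k) := by
  simp only [Fin.sum_univ_four, tri_add3, tri_smul3]

lemma INJ_ind {l h f g : E} (H : LinearIndependent ℂ ![l, h, f, g]) (c : ℂ) :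
    LinearIndependent ℂ ![l, h, g - c • f] := by
  rw [Fintype.linearIndependent_iff] at H ⊢
  intro w hw
  have h1 := H ![w 0, w 1, -(w 2 * c), w 2] (by
    rw [Fin.sum_univ_three] at hw
    rw [Fin.sum_univ_four]
    simp only [Matrix.cons_val_zero, Matrix.cons_val_one, Matrix.cons_val] at hw ⊢
    rw [← hw]
    module)
  have e0 := h1 0
  have e1 := h1 1
  have e3 := h1 3
  simp only [Matrix.cons_val_zero, Matrix.cons_val_one, Matrix.cons_val] at e0 e1 e3
  intro i
  fin_cases i
  · exact e0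
  · exact e1
  · exact e3

lemma INJ_form {p : Fin 4 → E} {l : E} {lam : Fin 4 → La} {h f g : E} (S : Side p l lam h f g)
    (i : Fin 4) (hz : ∀ k, k ≠ i → zz f g p i k = 0) : False := by
  set c : ℂ := (g ⬝ᵥ p i) / (f ⬝ᵥ p i) with hc
  have hfi := S.fp i
  have hk : ∀ k, (g - c • f) ⬝ᵥ p k = 0 := by
    intro k
    have e : (g ⬝ᵥ p i) * (f ⬝ᵥ p k) - (g ⬝ᵥ p k) * (f ⬝ᵥ p i) = 0 := by
      by_cases hki : k = i
      · rw [hki]; ring
      · exact hz k hki
    rw [sub_dotProduct, smul_dotProduct, smul_eq_mul, hc]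
    field_simp
    linear_combination -e
  have h1 := finrank_le_of_ann (INJ_ind S.fi c) (U := Submodule.span ℂ (Set.range p)) (by
    intro x hx
    have key : Submodule.span ℂ (Set.range p) ≤ Ann ![l, h, g - c • f] := by
      rw [Submodule.span_le]
      rintro y ⟨k, rfl⟩
      rw [SetLike.mem_coe, mem_Ann]
      intro j
      fin_cases j
      · exact S.lp k
      · exact S.hp k
      · exact hk k
    exact fun j => (mem_Ann.1 (key hx)) j)
  have h2 : finrank ℂ (Submodule.span ℂ (Set.range p)) = 4 := by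
    rw [finrank_span_eq_card S.ind]; rfl
  have h3 : finrank ℂ (Submodule.span ℂ (Set.range p)) + 3 ≤ 6 := h1
  rw [h2] at h3
  exact absurd h3 (by decide)

theorem INJ_pf (hTAu : TAU) (hRHo : RHO) (hRHp : RHP) : INJ := by
  intro p l lam h f g S s c hC hc hPf x hx hT
  obtain ⟨ρ, hρ, hsum, huniq⟩ := hRHo lam S.gp
  obtain ⟨V, τ, hV, hz, hτ, htri⟩ := hTAu p l lam h f g S ρ ⟨hρ, hsum, huniq⟩ x hx
  have hG0 : ∀ i, ∃ G : ℂ, ∀ k, k ≠ i → V i k * c i k = G * ρ k := by
    intro i
    exact hRHp lam S.gp ρ hρ hsum huniq i (fun k => V i k * c i k) (by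
      intro a
      have h1 := hT i a
      rw [hV i, INJ_tri_sum] at h1
      rw [← h1]
      refine Finset.sum_congr rfl fun k _ => ?_
      rw [hC.eq i k a]
      ring)
  choose G hG using hG0
  have zanti : ∀ i k, zz f g p k i = -zz f g p i k := by
    intro i k
    simp only [zz]
    ring
  have hA : ∀ i k, i ≠ k → ρ i * τ k * c i k = ρ k * G i * zz f g p i k := by
    intro i k hik
    have h1 := hz i k hik
    have h2 := hG i k hik.symm
    linear_combination zz f g p i k * h2 - c i k * h1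
  have hB : ∀ i k, i ≠ k → ρ k * τ i * c i k = ρ i * G k * zz f g p i k := by
    intro i k hik
    have h1 := hA k i hik.symm
    rw [zanti i k, hC.anti i k] at h1
    linear_combination -h1
  by_cases ht : ∀ k, τ k = 0
  · have hGz : ∀ i, G i = 0 := by
      intro i
      by_contra hGi
      apply INJ_form S i
      intro k hk
      have h1 := hA i k hk.symm
      rw [ht k, mul_zero, zero_mul] at h1
      exact (mul_eq_zero.1 h1.symm).resolve_left (mul_ne_zero (hρ k) hGi)
    apply htri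
    intro i k hik
    have h1 := hG i k hik.symm
    rw [hGz i, zero_mul] at h1
    exact (mul_eq_zero.1 h1).resolve_right (hc i k hik)
  · exfalso
    push Not at ht
    obtain ⟨k, hk⟩ := ht
    obtain ⟨k', hkk', hk'⟩ : ∃ k', k' ≠ k ∧ τ k' ≠ 0 := by
      by_contra hcon
      push Not at hcon
      rw [Finset.sum_eq_single k (fun b _ hb => hcon b hb) (by simp)] at hτ
      exact hk hτ
    have s1 : ∀ i j, i ≠ j → τ j ≠ 0 → G i ≠ 0 ∧ zz f g p i j ≠ 0 := by
      intro i j hij hj
      have h1 := hA i j hij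
      have h2 : ρ i * τ j * c i j ≠ 0 := mul_ne_zero (mul_ne_zero (hρ i) hj) (hc i j hij)
      rw [h1] at h2
      exact ⟨fun h0 => h2 (by rw [h0]; ring), fun h0 => h2 (by rw [h0]; ring)⟩
    have hGne : ∀ i, G i ≠ 0 := by
      intro i
      by_cases hik : i = k
      · rw [hik]; exact (s1 k k' hkk'.symm hk').1
      · exact (s1 i k hik hk).1
    have hτne : ∀ i, τ i ≠ 0 := by
      intro i
      by_cases hik : i = k
      · rw [hik]; exact hk
      · intro h0
        have h1 := hB i k hik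
        rw [h0, mul_zero, zero_mul] at h1
        exact mul_ne_zero (mul_ne_zero (hρ i) (hGne k)) (s1 i k hik hk).2 h1.symm
    set κ : ℂ := G 0 * τ 0 / (ρ 0) ^ 2 with hκ
    have hκ0 : G 0 * τ 0 = κ * ρ 0 ^ 2 := by
      rw [hκ, div_mul_cancel₀ _ (pow_ne_zero 2 (hρ 0))]
    have hκi : ∀ i, G i * τ i = κ * ρ i ^ 2 := by
      intro i
      by_cases hi : i = 0
      · rw [hi]; exact hκ0
      have h1 := hA i 0 hi
      have h2 := hB i 0 hi
      have hcz : c i 0 * zz f g p i 0 ≠ 0 := mul_ne_zero (hc i 0 hi) (s1 i 0 hi (hτne 0)).2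
      have h3 : (G i * τ i * ρ 0 ^ 2 - G 0 * τ 0 * ρ i ^ 2) * (c i 0 * zz f g p i 0) = 0 := by
        linear_combination (ρ 0 * G i * zz f g p i 0) * h2 - (ρ i * G 0 * zz f g p i 0) * h1
      have h4 := (mul_eq_zero.1 h3).resolve_right hcz
      have h5 : ρ 0 ^ 2 * (G i * τ i - κ * ρ i ^ 2) = 0 := by
        linear_combination h4 + ρ i ^ 2 * hκ0
      have h6 := (mul_eq_zero.1 h5).resolve_left (pow_ne_zero 2 (hρ 0))
      linear_combination h6
    have hcc : ∀ i j, i ≠ j → c i j * τ i * τ j = κ * ρ i * ρ j * zz f g p i j := by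
      intro i j hij
      have h1 := hA i j hij
      have h2 := hκi i
      have h3 : ρ i * (c i j * τ i * τ j - κ * ρ i * ρ j * zz f g p i j) = 0 := by
        linear_combination τ i * h1 + ρ j * zz f g p i j * h2
      have h4 := (mul_eq_zero.1 h3).resolve_left (hρ i)
      linear_combination h4
    have hprod : Pf c * (τ 0 * τ 1 * τ 2 * τ 3) = 0 := by
      have e01 := hcc 0 1 (by decide)
      have e23 := hcc 2 3 (by decide)
      have e02 := hcc 0 2 (by decide)
      have e13 := hcc 1 3 (by decide)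
      have e03 := hcc 0 3 (by decide)
      have e12 := hcc 1 2 (by decide)
      have hPz : zz f g p 0 1 * zz f g p 2 3 - zz f g p 0 2 * zz f g p 1 3
          + zz f g p 0 3 * zz f g p 1 2 = 0 := by
        simp only [zz]
        ring
      have e1 : Pf c * (τ 0 * τ 1 * τ 2 * τ 3) = (c 0 1 * τ 0 * τ 1) * (c 2 3 * τ 2 * τ 3)
          - (c 0 2 * τ 0 * τ 2) * (c 1 3 * τ 1 * τ 3)
          + (c 0 3 * τ 0 * τ 3) * (c 1 2 * τ 1 * τ 2) := by
        simp only [Pf]
        ring
      rw [e1, e01, e23, e02, e13, e03, e12]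
      linear_combination (κ ^ 2 * ρ 0 * ρ 1 * ρ 2 * ρ 3) * hPz
    have hne : τ 0 * τ 1 * τ 2 * τ 3 ≠ 0 :=
      mul_ne_zero (mul_ne_zero (mul_ne_zero (hτne 0) (hτne 1)) (hτne 2)) (hτne 3)
    exact hPf ((mul_eq_zero.1 hprod).resolve_right hne)

end Pool.Agent.Work.MP_ea8963_ag.G5
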