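import Pool.Agent.Work.MP_ea8963_ag.G5.Stmts3

/-!
Item K0X of the block [ea8963 G5]: nets of `K_b cap K_b'` which vanish on `N` and on `N'`.
-/

set_option linter.style.longLine false

noncomputable section

open Module Topology
open Pool.Agent.Work.MP_ea8963_ag.G4 (D ZA mem_ZA Full cl rn rn_prod rn_le finrank_map_mono
  finrank_map_prod_swap pair d_two ZA_mono)

namespace Pool.Agent.Work.MP_ea8963_ag.G5

/-- the form is linear in the parameter -/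
lemma K0X_tri_dot (t : T3) (a : La) (x y : E) :
    tri t a x y = a ⬝ᵥ (fun k => tri t (Pi.single k 1) x y) := by
  have h : a = ∑ k, a k • (Pi.single k (1 : ℂ) : La) := by
    ext j
    simp [Finset.sum_apply, Pi.single_apply]
  conv_lhs => rw [h]
  rw [tri_sum1]
  simp only [tri_smul1, dotProduct]

/-- membership in the annihilator of two covectors -/
lemma K0X_mem2 {l h x : E} (h1 : l ⬝ᵥ x = 0) (h2 : h ⬝ᵥ x = 0) : x ∈ Ann ![l, h] := by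
  rw [mem_Ann]
  intro i
  fin_cases i
  · exact h1
  · exact h2

/-- decomposition of a vector along the dual vectors -/
lemma K0X_dec {l h l' h' e1 e2 e3 e4 : E}
    (H1 : l ⬝ᵥ e1 = 1 ∧ h ⬝ᵥ e1 = 0 ∧ l' ⬝ᵥ e1 = 0 ∧ h' ⬝ᵥ e1 = 0)
    (H2 : l ⬝ᵥ e2 = 0 ∧ h ⬝ᵥ e2 = 1 ∧ l' ⬝ᵥ e2 = 0 ∧ h' ⬝ᵥ e2 = 0)
    (H3 : l ⬝ᵥ e3 = 0 ∧ h ⬝ᵥ e3 = 0 ∧ l' ⬝ᵥ e3 = 1 ∧ h' ⬝ᵥ e3 = 0)
    (H4 : l ⬝ᵥ e4 = 0 ∧ h ⬝ᵥ e4 = 0 ∧ l' ⬝ᵥ e4 = 0 ∧ h' ⬝ᵥ e4 = 1) (y : E) :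
    ∃ z : E, l ⬝ᵥ z = 0 ∧ h ⬝ᵥ z = 0 ∧ l' ⬝ᵥ z = 0 ∧ h' ⬝ᵥ z = 0 ∧
      y = ((l ⬝ᵥ y) • e1 + (h ⬝ᵥ y) • e2 + z) + ((l' ⬝ᵥ y) • e3 + (h' ⬝ᵥ y) • e4) := by
  obtain ⟨a1, a2, a3, a4⟩ := H1
  obtain ⟨b1, b2, b3, b4⟩ := H2
  obtain ⟨c1, c2, c3, c4⟩ := H3
  obtain ⟨d1, d2, d3, d4⟩ := H4
  refine ⟨y - ((l ⬝ᵥ y) • e1 + (h ⬝ᵥ y) • e2 + (l' ⬝ᵥ y) • e3 + (h' ⬝ᵥ y) • e4), ?_, ?_, ?_, ?_, ?_⟩
  · simp only [dotProduct_sub, dotProduct_add, dotProduct_smul, smul_eq_mul, a1, b1, c1, d1]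
    ring
  · simp only [dotProduct_sub, dotProduct_add, dotProduct_smul, smul_eq_mul, a2, b2, c2, d2]
    ring
  · simp only [dotProduct_sub, dotProduct_add, dotProduct_smul, smul_eq_mul, a3, b3, c3, d3]
    ring
  · simp only [dotProduct_sub, dotProduct_add, dotProduct_smul, smul_eq_mul, a4, b4, c4, d4]
    ring
  · abel

/-- three forms can not kill the four nodes -/
lemma K0X_indep {l h l' h' : E} {p : Fin 4 → E} (fi : LinearIndependent ℂ ![l, h, l', h'])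
    (ind : LinearIndependent ℂ p) (hl : ∀ i, l ⬝ᵥ p i = 0) (hh : ∀ i, h ⬝ᵥ p i = 0) (κ : ℂ)
    (hκ : ∀ i, h' ⬝ᵥ p i = κ * (l' ⬝ᵥ p i)) : False := by
  have h3 : LinearIndependent ℂ ![l, h, h' - κ • l'] := by
    rw [Fintype.linearIndependent_iff] at fi ⊢
    intro g hg
    rw [Fin.sum_univ_three] at hg
    simp only [Matrix.cons_val_zero, Matrix.cons_val_one, Matrix.cons_val] at hg
    have h4 := fi ![g 0, g 1, -(κ * g 2), g 2] (by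
      rw [Fin.sum_univ_four]
      simp only [Matrix.cons_val_zero, Matrix.cons_val_one, Matrix.cons_val]
      rw [← hg, smul_sub, smul_smul, neg_smul, mul_comm κ]
      abel)
    intro i
    fin_cases i
    · exact h4 0
    · exact h4 1
    · exact h4 3
  have h4 := finrank_le_of_ann h3 (U := Submodule.span ℂ (Set.range p)) (by
    intro x hx i
    induction hx using Submodule.span_induction with
    | mem x hx =>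
      obtain ⟨j, rfl⟩ := hx
      fin_cases i
      · exact hl j
      · exact hh j
      · change (h' - κ • l') ⬝ᵥ p j = 0
        rw [sub_dotProduct, smul_dotProduct, smul_eq_mul, hκ j, sub_self]
    | zero => exact dotProduct_zero _
    | add x y _ _ hx hy => rw [dotProduct_add, hx, hy, add_zero]
    | smul c x _ hx => rw [dotProduct_smul, hx, smul_zero])
  rw [finrank_span_eq_card ind, Fintype.card_fin] at h4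
  omega

/-- the equations of `K_b` for nets which vanish on `N'` -/
lemma K0X_eq {t : T3} (hs : t ∈ SymT) {p : Fin 4 → E} {l h l' h' : E} {lam : Fin 4 → La}
    (ht : t ∈ KB p l lam) (hp : ∀ i, l ⬝ᵥ p i = 0) (hh : ∀ i, h ⬝ᵥ p i = 0)
    (hN' : t ∈ KU (Ann ![l', h'])) {e1 e2 e3 e4 : E}
    (H1 : l ⬝ᵥ e1 = 1 ∧ h ⬝ᵥ e1 = 0 ∧ l' ⬝ᵥ e1 = 0 ∧ h' ⬝ᵥ e1 = 0)
    (H2 : l ⬝ᵥ e2 = 0 ∧ h ⬝ᵥ e2 = 1 ∧ l' ⬝ᵥ e2 = 0 ∧ h' ⬝ᵥ e2 = 0)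
    (H3 : l ⬝ᵥ e3 = 0 ∧ h ⬝ᵥ e3 = 0 ∧ l' ⬝ᵥ e3 = 1 ∧ h' ⬝ᵥ e3 = 0)
    (H4 : l ⬝ᵥ e4 = 0 ∧ h ⬝ᵥ e4 = 0 ∧ l' ⬝ᵥ e4 = 0 ∧ h' ⬝ᵥ e4 = 1) (i : Fin 4) :
    (l' ⬝ᵥ p i) * tri t (lam i) e2 e3 + (h' ⬝ᵥ p i) * tri t (lam i) e2 e4 = 0 := by
  obtain ⟨z, z1, z2, z3, z4, hz⟩ := K0X_dec H1 H2 H3 H4 (p i)
  have h1 := (mem_KB.1 ht).2.1 i e2 H2.1
  rw [hz, hp i, hh i, zero_smul, zero_smul, zero_add, zero_add] at h1
  rw [tri_add2, tri_add2, tri_smul2, tri_smul2] at h1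
  have h2 : tri t (lam i) z e2 = 0 :=
    (mem_KU.1 hN').2 (lam i) z (K0X_mem2 z3 z4) e2 (K0X_mem2 H2.2.2.1 H2.2.2.2)
  rw [h2, zero_add, tri_comm hs _ e3 e2, tri_comm hs _ e4 e2] at h1
  exact h1

/-- a net which vanishes on `N` and `N'` and on the four pairs is zero -/
lemma K0X_zero {t : T3} (hs : t ∈ SymT) {l h l' h' : E}
    (hN : t ∈ KU (Ann ![l, h])) (hN' : t ∈ KU (Ann ![l', h'])) {e1 e2 e3 e4 : E}
    (H1 : l ⬝ᵥ e1 = 1 ∧ h ⬝ᵥ e1 = 0 ∧ l' ⬝ᵥ e1 = 0 ∧ h' ⬝ᵥ e1 = 0)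
    (H2 : l ⬝ᵥ e2 = 0 ∧ h ⬝ᵥ e2 = 1 ∧ l' ⬝ᵥ e2 = 0 ∧ h' ⬝ᵥ e2 = 0)
    (H3 : l ⬝ᵥ e3 = 0 ∧ h ⬝ᵥ e3 = 0 ∧ l' ⬝ᵥ e3 = 1 ∧ h' ⬝ᵥ e3 = 0)
    (H4 : l ⬝ᵥ e4 = 0 ∧ h ⬝ᵥ e4 = 0 ∧ l' ⬝ᵥ e4 = 0 ∧ h' ⬝ᵥ e4 = 1)
    (hA : ∀ a, tri t a e1 e3 = 0) (hB : ∀ a, tri t a e1 e4 = 0) (hC : ∀ a, tri t a e2 e3 = 0)
    (hD : ∀ a, tri t a e2 e4 = 0) : t = 0 := by
  -- vectors of `N'` against the vectors of the span of `e3, e4`
  have key : ∀ (a : La) (x y : E), ∀ z : E, l ⬝ᵥ z = 0 → h ⬝ᵥ z = 0 →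
      tri t a ((l ⬝ᵥ x) • e1 + (h ⬝ᵥ x) • e2 + z) ((l' ⬝ᵥ y) • e3 + (h' ⬝ᵥ y) • e4) = 0 := by
    intro a x y z hz1 hz2
    have h1 : tri t a z e3 = 0 :=
      (mem_KU.1 hN).2 a z (K0X_mem2 hz1 hz2) e3 (K0X_mem2 H3.1 H3.2.1)
    have h2 : tri t a z e4 = 0 :=
      (mem_KU.1 hN).2 a z (K0X_mem2 hz1 hz2) e4 (K0X_mem2 H4.1 H4.2.1)
    simp only [tri_add2, tri_add3, tri_smul2, tri_smul3, hA a, hB a, hC a, hD a, h1, h2, mul_zero,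
      add_zero]
  refine net_ext fun a x y => ?_
  rw [tri_zero_tensor]
  obtain ⟨z, z1, z2, z3, z4, hz⟩ := K0X_dec H1 H2 H3 H4 x
  obtain ⟨w, w1, w2, w3, w4, hw⟩ := K0X_dec H1 H2 H3 H4 y
  have m1 : (l ⬝ᵥ x) • e1 + (h ⬝ᵥ x) • e2 + z ∈ Ann ![l', h'] := by
    refine K0X_mem2 ?_ ?_
    · simp only [dotProduct_add, dotProduct_smul, H1.2.2.1, H2.2.2.1, z3, smul_zero, add_zero]
    · simp only [dotProduct_add, dotProduct_smul, H1.2.2.2, H2.2.2.2, z4, smul_zero, add_zero]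
  have m2 : (l ⬝ᵥ y) • e1 + (h ⬝ᵥ y) • e2 + w ∈ Ann ![l', h'] := by
    refine K0X_mem2 ?_ ?_
    · simp only [dotProduct_add, dotProduct_smul, H1.2.2.1, H2.2.2.1, w3, smul_zero, add_zero]
    · simp only [dotProduct_add, dotProduct_smul, H1.2.2.2, H2.2.2.2, w4, smul_zero, add_zero]
  have m3 : (l' ⬝ᵥ x) • e3 + (h' ⬝ᵥ x) • e4 ∈ Ann ![l, h] := by
    refine K0X_mem2 ?_ ?_
    · simp only [dotProduct_add, dotProduct_smul, H3.1, H4.1, smul_zero, add_zero]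
    · simp only [dotProduct_add, dotProduct_smul, H3.2.1, H4.2.1, smul_zero, add_zero]
  have m4 : (l' ⬝ᵥ y) • e3 + (h' ⬝ᵥ y) • e4 ∈ Ann ![l, h] := by
    refine K0X_mem2 ?_ ?_
    · simp only [dotProduct_add, dotProduct_smul, H3.1, H4.1, smul_zero, add_zero]
    · simp only [dotProduct_add, dotProduct_smul, H3.2.1, H4.2.1, smul_zero, add_zero]
  have k1 := key a x y z z1 z2
  have k2 := key a y x w w1 w2
  rw [tri_comm hs] at k2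
  have k3 := (mem_KU.1 hN').2 a _ m1 _ m2
  have k4 := (mem_KU.1 hN).2 a _ m3 _ m4
  have hx : tri t a x y = tri t a (((l ⬝ᵥ x) • e1 + (h ⬝ᵥ x) • e2 + z) +
      ((l' ⬝ᵥ x) • e3 + (h' ⬝ᵥ x) • e4)) (((l ⬝ᵥ y) • e1 + (h ⬝ᵥ y) • e2 + w) +
      ((l' ⬝ᵥ y) • e3 + (h' ⬝ᵥ y) • e4)) := congrArg₂ (tri t a) hz hw
  rw [hx, tri_add2 _ _ ((l ⬝ᵥ x) • e1 + (h ⬝ᵥ x) • e2 + z),
    tri_add3 _ _ _ ((l ⬝ᵥ y) • e1 + (h ⬝ᵥ y) • e2 + w),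
    tri_add3 _ _ _ ((l ⬝ᵥ y) • e1 + (h ⬝ᵥ y) • e2 + w), k1, k2, k3, k4]
  ring

/-- ITEM K0X -/
theorem K0X_pf (hRHo : RHO) : K0X := by
  intro s p l lam m p' l' lam' m' h h' T
  have val4 : ∀ v : Fin 4 → ℂ, ∃ x : E, l ⬝ᵥ x = v 0 ∧ h ⬝ᵥ x = v 1 ∧ l' ⬝ᵥ x = v 2 ∧
      h' ⬝ᵥ x = v 3 := by
    intro v
    obtain ⟨x, hx⟩ := exists_solution T.fi v
    exact ⟨x, hx 0, hx 1, hx 2, hx 3⟩
  obtain ⟨e1, H1⟩ := val4 ![1, 0, 0, 0]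
  obtain ⟨e2, H2⟩ := val4 ![0, 1, 0, 0]
  obtain ⟨e3, H3⟩ := val4 ![0, 0, 1, 0]
  obtain ⟨e4, H4⟩ := val4 ![0, 0, 0, 1]
  simp only [Matrix.cons_val_zero, Matrix.cons_val_one, Matrix.cons_val] at H1 H2 H3 H4
  obtain ⟨ρ, ρ0, ρr, ρu⟩ := hRHo lam T.o.gp
  have lp := T.o.lp
  have lp' := T.o'.lp
  -- the parameter `ζ`
  set ζ : La := ∑ i, (ρ i * (h' ⬝ᵥ p i) / (l' ⬝ᵥ p i)) • lam i with hζ
  have ζ0 : ζ ≠ 0 := by
    intro h0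
    obtain ⟨κ, hκ⟩ := ρu (fun i => ρ i * (h' ⬝ᵥ p i) / (l' ⬝ᵥ p i)) h0
    refine K0X_indep T.fi T.o.ind lp T.hp κ fun i => ?_
    have h1 := congrFun hκ i
    rw [Pi.smul_apply, smul_eq_mul] at h1
    have h2 : ρ i * (h' ⬝ᵥ p i) / (l' ⬝ᵥ p i) = κ * ρ i := h1
    rw [div_eq_iff (T.t i)] at h2
    have h3 : ρ i * (h' ⬝ᵥ p i - κ * (l' ⬝ᵥ p i)) = 0 := by linear_combination h2
    exact sub_eq_zero.1 ((mul_eq_zero.1 h3).resolve_left (ρ0 i))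
  set S : Submodule ℂ T3 := KB p l lam ⊓ KB p' l' lam' ⊓ KU (Ann ![l, h]) ⊓ KU (Ann ![l', h'])
    with hS
  have hmem : ∀ t ∈ S, t ∈ SymT ∧ t ∈ KB p l lam ∧ t ∈ KB p' l' lam' ∧ t ∈ KU (Ann ![l, h]) ∧
      t ∈ KU (Ann ![l', h']) := by
    intro t ht
    obtain ⟨⟨⟨h1, h2⟩, h3⟩, h4⟩ := ht
    exact ⟨(mem_KB.1 h1).1, h1, h2, h3, h4⟩
  have eqC : ∀ t ∈ S, ∀ i, (l' ⬝ᵥ p i) * tri t (lam i) e2 e3 + (h' ⬝ᵥ p i) * tri t (lam i) e2 e4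
      = 0 := by
    intro t ht i
    obtain ⟨h1, h2, h3, h4, h5⟩ := hmem t ht
    exact K0X_eq h1 h2 lp T.hp h5 H1 H2 H3 H4 i
  have eqB : ∀ t ∈ S, ∀ i, (l ⬝ᵥ p' i) * tri t (lam' i) e4 e1 + (h ⬝ᵥ p' i) * tri t (lam' i) e4 e2
      = 0 := by
    intro t ht i
    obtain ⟨h1, h2, h3, h4, h5⟩ := hmem t ht
    refine K0X_eq (l := l') (h := h') (l' := l) (h' := h) h1 h3 lp' T.hp' h4
      (e1 := e3) (e2 := e4) (e3 := e1) (e4 := e2) ?_ ?_ ?_ ?_ i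
    · exact ⟨H3.2.2.1, H3.2.2.2, H3.1, H3.2.1⟩
    · exact ⟨H4.2.2.1, H4.2.2.2, H4.1, H4.2.1⟩
    · exact ⟨H1.2.2.1, H1.2.2.2, H1.1, H1.2.1⟩
    · exact ⟨H2.2.2.1, H2.2.2.2, H2.1, H2.2.1⟩
  have hz : ∀ t ∈ S, tri t ζ e2 e4 = 0 := by
    intro t ht
    rw [hζ, tri_sum1]
    have h1 : ∀ i, tri t ((ρ i * (h' ⬝ᵥ p i) / (l' ⬝ᵥ p i)) • lam i) e2 e4 =
        -tri t (ρ i • lam i) e2 e3 := by
      intro i
      rw [tri_smul1, tri_smul1]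
      have h2 := eqC t ht i
      have h3 := T.t i
      field_simp
      linear_combination ρ i * h2
    rw [Finset.sum_congr rfl fun i _ => h1 i, Finset.sum_neg_distrib, ← tri_sum1, ρr, tri_zero1,
      neg_zero]
  -- the two coordinates
  let f1 : S →ₗ[ℂ] La := LinearMap.pi fun k => (triL (Pi.single k 1) e1 e3).comp S.subtype
  let f2 : S →ₗ[ℂ] La := LinearMap.pi fun k => (triL (Pi.single k 1) e2 e4).comp S.subtype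
  have hf2 : ∀ t, f2 t ∈ Ann ![ζ] := by
    rintro ⟨t, ht⟩
    rw [mem_Ann]
    intro i
    have h1 := hz t ht
    rw [K0X_tri_dot] at h1
    rw [Subsingleton.elim i 0]
    exact h1
  let F : S →ₗ[ℂ] La × Ann ![ζ] := f1.prod (f2.codRestrict (Ann ![ζ]) hf2)
  have hF : Function.Injective F := by
    rw [← LinearMap.ker_eq_bot, LinearMap.ker_eq_bot']
    rintro ⟨t, ht⟩ h0
    have g1 : f1 ⟨t, ht⟩ = 0 := congrArg Prod.fst h0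
    have g2 : f2 ⟨t, ht⟩ = 0 := congrArg Subtype.val (congrArg Prod.snd h0)
    have g1' : ∀ a, tri t a e1 e3 = 0 := by
      intro a
      rw [K0X_tri_dot]
      have : (fun k => tri t (Pi.single k 1) e1 e3) = (0 : La) := g1
      rw [this, dotProduct_zero]
    have g2' : ∀ a, tri t a e2 e4 = 0 := by
      intro a
      rw [K0X_tri_dot]
      have : (fun k => tri t (Pi.single k 1) e2 e4) = (0 : La) := g2
      rw [this, dotProduct_zero]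
    obtain ⟨h1, h2, h3, h4, h5⟩ := hmem t ht
    have g3 : ∀ i, tri t (lam i) e2 e3 = 0 := by
      intro i
      have h6 := eqC t ht i
      rw [g2', mul_zero, add_zero] at h6
      exact (mul_eq_zero.1 h6).resolve_left (T.t i)
    have g4 : ∀ i, tri t (lam' i) e1 e4 = 0 := by
      intro i
      have h6 := eqB t ht i
      rw [tri_comm h1 _ e4 e2, g2', mul_zero, add_zero, tri_comm h1 _ e4 e1] at h6
      exact (mul_eq_zero.1 h6).resolve_left (T.t' i)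
    have g3' : ∀ a, tri t a e2 e3 = 0 :=
      tri_zero_of_dt (T.o.gp 0 1 2 (by decide) (by decide) (by decide)) (g3 0) (g3 1) (g3 2)
    have g4' : ∀ a, tri t a e1 e4 = 0 :=
      tri_zero_of_dt (T.o'.gp 0 1 2 (by decide) (by decide) (by decide)) (g4 0) (g4 1) (g4 2)
    have h7 : t = 0 := K0X_zero h1 h4 h5 H1 H2 H3 H4 g1' g4' g3' g2'
    exact Subtype.ext h7
  have h8 := LinearMap.finrank_le_finrank_of_injective hF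
  have h9 : LinearIndependent ℂ ![ζ] := linearIndependent_unique_iff.2 ζ0
  have h10 := finrank_Ann h9
  rw [Module.finrank_prod, Module.finrank_fin_fun] at h8
  change finrank ℂ S ≤ 5
  omega

end Pool.Agent.Work.MP_ea8963_ag.G5
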