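import Pool.Agent.Work.MP_ea8963_ag.G5.Stmts2
import Pool.Agent.Work.MP_ea8963_ag.G4.Stmts2

/-!
Block [ea8963 G5], item LBX: linear disjointness.
-/

set_option linter.style.longLine false

noncomputable section

open Module Topology
open Pool.Agent.Work.MP_ea8963_ag.G4 (D ZA mem_ZA Full cl rn rn_prod rn_le finrank_map_mono
  finrank_map_prod_swap pair d_two ZA_mono FAX FBX FCX FDX FEX FFX CHX EXX)

namespace Pool.Agent.Work.MP_ea8963_ag.G5

namespace I_LBX

/-- the induction on the number of non-zero terms -/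
lemma main (hFFX : FFX) {A0 A1 B : Set ℂ} (S : Set D) (hS1 : ∀ δ ∈ S, δ ∈ ZA A1)
    (hS2 : ∀ δ ∈ S, ∀ g ∈ cl B, δ g ∈ cl B)
    (hS3 : ∀ g ∈ cl B, (∀ δ ∈ S, δ g = 0) → g ∈ cl A0) {n : ℕ} {θ : Fin n → ℂ}
    (hθ : ∀ i, θ i ∈ cl A1)
    (hind : ∀ c : Fin n → ℂ, (∀ i, c i ∈ cl A0) → ∑ i, c i * θ i = 0 → ∀ i, c i = 0) (m : ℕ) :
    ∀ g : Fin n → ℂ, (Finset.univ.filter fun i => g i ≠ 0).card ≤ m → (∀ i, g i ∈ cl B) →
      ∑ i, θ i * g i = 0 → ∀ i, g i = 0 := by
  induction m with
  | zero =>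
    intro g hm _ _ i
    by_contra hi
    have : i ∈ Finset.univ.filter fun i => g i ≠ 0 := by simp [hi]
    have h1 := Finset.card_pos.2 ⟨i, this⟩
    omega
  | succ m ih =>
    intro g hm hg hsum i₀
    by_contra hi
    obtain ⟨-, -, -, hB⟩ := hFFX B
    set g' : Fin n → ℂ := fun i => g i * (g i₀)⁻¹ with hg'
    have hg'B : ∀ i, g' i ∈ cl B := fun i =>
      (hB _ (hg i) _ ((hB _ (hg i₀) _ (hg i₀)).2.2.2)).2.1
    have hone : g' i₀ = 1 := mul_inv_cancel₀ hi
    have hsum' : ∑ i, θ i * g' i = 0 := by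
      have : ∑ i, θ i * g' i = (∑ i, θ i * g i) * (g i₀)⁻¹ := by
        rw [Finset.sum_mul]
        exact Finset.sum_congr rfl fun i _ => by simp only [hg']; ring
      rw [this, hsum, zero_mul]
    have hder : ∀ δ ∈ S, ∀ i, δ (g' i) = 0 := by
      intro δ hδ
      refine ih (fun i => δ (g' i)) ?_ (fun i => hS2 δ hδ _ (hg'B i)) ?_
      · have hsub : (Finset.univ.filter fun i => δ (g' i) ≠ 0) ⊆
            (Finset.univ.filter fun i => g i ≠ 0).erase i₀ := by
          intro i hi'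
          simp only [Finset.mem_filter, Finset.mem_univ, true_and] at hi'
          rw [Finset.mem_erase]
          refine ⟨?_, ?_⟩
          · rintro rfl
            rw [hone, δ.map_one_eq_zero] at hi'
            exact hi' rfl
          · simp only [Finset.mem_filter, Finset.mem_univ, true_and]
            intro h0
            apply hi'
            simp [hg', h0]
        have h1 := Finset.card_le_card hsub
        have h2 : i₀ ∈ Finset.univ.filter fun i => g i ≠ 0 := by simp [hi]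
        rw [Finset.card_erase_of_mem h2] at h1
        omega
      · have h1 : δ (∑ i, θ i * g' i) = 0 := by rw [hsum', map_zero]
        rw [map_sum] at h1
        rw [← h1]
        refine Finset.sum_congr rfl fun i _ => ?_
        have h2 : δ (θ i * g' i) = θ i • δ (g' i) + g' i • δ (θ i) := Derivation.leibniz _ _ _
        rw [h2, hθ i δ (hS1 δ hδ), smul_zero, add_zero, smul_eq_mul]
    have hA0 : ∀ i, g' i ∈ cl A0 := fun i => hS3 _ (hg'B i) fun δ hδ => hder δ hδ i
    have h1 := hind g' hA0 (by rw [← hsum']; exact Finset.sum_congr rfl fun i _ => mul_comm _ _) i₀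
    rw [hone] at h1
    exact one_ne_zero h1

end I_LBX

theorem LBX_pf (hFFX : FFX) (hLAX : LAX) : LBX := by
  intro A0 A1 hA p l h1 h2 n θ g hθ hg hind hsum
  obtain ⟨S, hS1, hS2, hS3⟩ := hLAX A0 A1 hA p l h1 h2
  exact I_LBX.main hFFX S hS1 hS2 hS3 hθ hind _ g le_rfl hg hsum

end Pool.Agent.Work.MP_ea8963_ag.G5
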