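import Pool.Agent.Work.MP_ea8963_ag.G5.Stmts

/-!
Block [ea8963 G5], item LMX: if the hyperplane of a configuration is projectively constant along a
derivation which kills the net, then so are the nodes.
-/

set_option linter.style.longLine false
set_option linter.unusedVariables false

noncomputable section

open Module Topology
open Pool.Agent.Work.MP_ea8963_ag.G4 (D ZA mem_ZA Full cl rn rn_prod rn_le finrank_map_mono
  finrank_map_prod_swap pair d_two ZA_mono)

namespace Pool.Agent.Work.MP_ea8963_ag.G5

theorem LMX_pf : LMX := by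
  intro s hs p l lam m h δ hδ c hc i
  have hd := h.d_eq δ i
  rw [mem_ZS.1 hδ, cov_zero_tensor, zero_add, hc] at hd
  have hm := h.m0 i
  have hl := h.eq i
  refine (h.nd i).ker (dE δ (p i)) (dE δ (lam i) - ((δ (m i) + m i * c) * (m i)⁻¹) • lam i)
    (fun e => h.tri_dE hs hδ i e) ?_
  rw [cov_sub_left, cov_smul_left, hl]
  have key : cov s (lam i) (dE δ (p i)) + cov s (dE δ (lam i)) (p i) =
      (δ (m i) + m i * c) • l := by
    rw [add_comm, hd, smul_smul, ← add_smul]
  have h2 : ((δ (m i) + m i * c) * (m i)⁻¹) • m i • l = (δ (m i) + m i * c) • l := by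
    rw [smul_smul, mul_assoc, inv_mul_cancel₀ hm, mul_one]
  rw [h2, ← add_sub_assoc, key, sub_self]

end Pool.Agent.Work.MP_ea8963_ag.G5
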