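import Pool.Agent.Work.MP_ea8963_ag.G5.Stmts

/-!
Block [ea8963 G5], item LNX.
-/

set_option linter.style.longLine false

noncomputable section

open Module

namespace Pool.Agent.Work.MP_ea8963_ag.G5

/-- the linear map `(c, d) ↦ (fun i => c i • p i, d • l)` -/
def LNX_F (p : Fin 4 → E) (l : E) : ((Fin 4 → ℂ) × ℂ) →ₗ[ℂ] (Fin 4 → E) × E where
  toFun x := (fun i => x.1 i • p i, x.2 • l)
  map_add' a b := by
    ext i <;> simp [add_mul]
  map_smul' c a := by
    ext i <;> simp [mul_assoc]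

theorem LNX_pf (hLMX : LMX) : LNX := by
  intro s hs p l lam mu h W hW hr
  by_contra hcon
  push Not at hcon
  have hle : W.map (evB p l) ≤ LinearMap.range (LNX_F p l) := by
    rintro x ⟨δ, hδ, rfl⟩
    obtain ⟨c, hc⟩ := hcon δ hδ
    have h1 := hLMX s hs p l lam mu h δ (hW hδ) c hc
    choose c' hc' using h1
    refine ⟨(c', c), ?_⟩
    simp only [LNX_F, LinearMap.coe_mk, AddHom.coe_mk, evB_apply]
    refine Prod.ext ?_ hc.symm
    funext i
    exact (hc' i).symm
  have h1 := Submodule.finrank_mono hle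
  have h2 := LinearMap.finrank_range_le (LNX_F p l)
  have h3 : finrank ℂ ((Fin 4 → ℂ) × ℂ) = 5 := by simp
  omega

end Pool.Agent.Work.MP_ea8963_ag.G5
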