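import Pool.Agent.Work.MP_ea8963_ag.G5.Stmts

/-!
Block [ea8963 G5], item LPX.
-/

set_option linter.style.longLine false
set_option linter.unusedVariables false

noncomputable section

open Module Topology
open Pool.Agent.Work.MP_ea8963_ag.G4 (D ZA mem_ZA Full cl rn rn_prod rn_le finrank_map_mono
  finrank_map_prod_swap pair d_two ZA_mono)

namespace Pool.Agent.Work.MP_ea8963_ag.G5

lemma LPX_ne {s : T3} {p : Fin 4 → E} {l : E} {lam : Fin 4 → La} (h : Cfg s p l lam) (i : Fin 4) :
    lam i ≠ 0 := by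
  intro h0
  apply h.l0
  rw [← h.eq i, h0, cov_zero_left]

/-- the relation is symmetric -/
lemma LPX_symm {lam : Fin 4 → La} (hne : ∀ i, lam i ≠ 0) {i k : Fin 4}
    (h : ∃ c : ℂ, lam i = c • lam k) : ∃ c : ℂ, lam k = c • lam i := by
  obtain ⟨c, hc⟩ := h
  have hc0 : c ≠ 0 := by
    rintro rfl
    exact hne i (by rw [hc, zero_smul])
  exact ⟨c⁻¹, by rw [hc, smul_smul, inv_mul_cancel₀ hc0, one_smul]⟩

/-- no three parameters are proportional -/
lemma LPX_three (hRK : RKF) {s : T3} (hs : Gen s) {p : Fin 4 → E} {l : E} {lam : Fin 4 → La}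
    (h : Cfg s p l lam) {k i j : Fin 4} (hki : k ≠ i) (hkj : k ≠ j) (hij : i ≠ j)
    (h1 : ∃ c : ℂ, lam i = c • lam k) (h2 : ∃ c : ℂ, lam j = c • lam k) : False := by
  have hne := LPX_ne h
  obtain ⟨c, hc⟩ := h1
  obtain ⟨e, he⟩ := h2
  have hc0 : c ≠ 0 := by
    rintro rfl
    exact hne i (by rw [hc, zero_smul])
  have he0 : e ≠ 0 := by
    rintro rfl
    exact hne j (by rw [he, zero_smul])
  have e1 : cov s (lam k) (p k - c • p i) = 0 := by
    have h3 := h.eq i
    rw [hc, cov_smul_left] at h3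
    rw [cov_sub_right, cov_smul_right, h3, h.eq k, sub_self]
  have e2 : cov s (lam k) (p k - e • p j) = 0 := by
    have h3 := h.eq j
    rw [he, cov_smul_left] at h3
    rw [cov_sub_right, cov_smul_right, h3, h.eq k, sub_self]
  refine hRK s hs (lam k) (hne k) (p k - c • p i) (p k - e • p j) ?_ e1 e2
  obtain ⟨a, ha⟩ := exists_dual h.ind
  rw [LinearIndependent.pair_iff]
  intro x y hxy
  have g1 := congrArg (fun v => a i ⬝ᵥ v) hxy
  have g2 := congrArg (fun v => a j ⬝ᵥ v) hxy
  simp only [dotProduct_add, dotProduct_smul, dotProduct_sub, ha, dotProduct_zero, smul_eq_mul,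
    if_neg hki.symm, if_neg hij, if_neg hkj.symm, if_neg hij.symm, if_true] at g1 g2
  have g3 : x * c = 0 := by linear_combination -g1
  have g4 : y * e = 0 := by linear_combination -g2
  exact ⟨(mul_eq_zero.1 g3).resolve_right hc0, (mul_eq_zero.1 g4).resolve_right he0⟩

lemma LPX_step3 (lam : Fin 4 → La) (k : Fin 4) (W : Submodule ℂ D) :
    finrank ℂ (W.map (evP lam)) ≤
      3 + finrank ℂ ((W ⊓ LinearMap.ker (evE (lam k))).map (evP lam)) := by
  have h1 := rn_le (evP lam) (evE (lam k)) W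
  have h2 : finrank ℂ (W.map (evE (lam k))) ≤ 3 := by
    refine (Submodule.finrank_le _).trans ?_
    simp
  omega

lemma LPX_step1 (lam : Fin 4 → La) {i k : Fin 4} (hik : ∃ c : ℂ, lam i = c • lam k)
    (W : Submodule ℂ D) (hW : W ≤ LinearMap.ker (evE (lam k))) :
    finrank ℂ (W.map (evP lam)) ≤
      1 + finrank ℂ ((W ⊓ LinearMap.ker (evE (lam i))).map (evP lam)) := by
  obtain ⟨c, hc⟩ := hik
  have h1 := rn_le (evP lam) (evE (lam i)) W
  have h2 : W.map (evE (lam i)) ≤ Submodule.span ℂ {lam k} := by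
    rintro _ ⟨δ, hδ, rfl⟩
    have h3 : dE δ (lam k) = 0 := LinearMap.mem_ker.1 (hW hδ)
    rw [evE_apply, hc, dE_smul, h3, smul_zero, add_zero]
    exact Submodule.smul_mem _ _ (Submodule.mem_span_singleton_self _)
  have h3 : finrank ℂ (W.map (evE (lam i))) ≤ 1 := by
    refine (Submodule.finrank_mono h2).trans ?_
    have h4 := finrank_span_le_card (R := ℂ) ({lam k} : Set La)
    simpa using h4
  omega

lemma LPX_zero (lam : Fin 4 → La) {i k j m : Fin 4} (hall : ∀ x, x = i ∨ x = k ∨ x = j ∨ x = m)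
    (W : Submodule ℂ D) :
    finrank ℂ ((((((W ⊓ LinearMap.ker (evE (lam k))) ⊓ LinearMap.ker (evE (lam i))) ⊓
      LinearMap.ker (evE (lam m))) ⊓ LinearMap.ker (evE (lam j)))).map (evP lam)) = 0 := by
  have h1 : (((((W ⊓ LinearMap.ker (evE (lam k))) ⊓ LinearMap.ker (evE (lam i))) ⊓
      LinearMap.ker (evE (lam m))) ⊓ LinearMap.ker (evE (lam j)))).map (evP lam) = ⊥ := by
    rw [eq_bot_iff]
    rintro _ ⟨δ, ⟨⟨⟨⟨_, h2⟩, h3⟩, h4⟩, h5⟩, rfl⟩
    rw [Submodule.mem_bot]
    funext x
    have h2' : dE δ (lam k) = 0 := LinearMap.mem_ker.1 h2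
    have h3' : dE δ (lam i) = 0 := LinearMap.mem_ker.1 h3
    have h4' : dE δ (lam m) = 0 := LinearMap.mem_ker.1 h4
    have h5' : dE δ (lam j) = 0 := LinearMap.mem_ker.1 h5
    rw [evP_apply]
    rcases hall x with rfl | rfl | rfl | rfl
    · exact h3'
    · exact h2'
    · exact h5'
    · exact h4'
  rw [h1, finrank_bot]

/-- the count -/
lemma LPX_count (hGK : GKP) (hDT : DTP) {s : T3} (hs : Gen s) {p : Fin 4 → E} {l : E}
    {lam : Fin 4 → La} (h : Cfg s p l lam) (h6 : 6 ≤ finrank ℂ ((ZS s).map (evB p l)))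
    (S : Finset (Fin 4 × Fin 4))
    (hS : ∀ i k, i < k → (∃ c : ℂ, lam i = c • lam k) → (i, k) ∈ S) :
    12 ≤ finrank ℂ ((⊤ : Submodule ℂ D).map (evP lam)) + S.card := by
  have c1 := rn (evT s) (evC p l lam) ⊤
  rw [hs.map_evT] at c1
  have c2 : finrank ℂ ((ZS s).map (evB p l)) ≤
      finrank ℂ (((⊤ : Submodule ℂ D) ⊓ LinearMap.ker (evT s)).map (evC p l lam)) := by
    rw [top_inf_eq]
    have := rn_prod (evB p l) (evP lam) (ZS s)
    have e : (ZS s).map (evC p l lam) = (ZS s).map ((evB p l).prod (evP lam)) := rfl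
    show finrank ℂ ((ZS s).map (evB p l)) ≤ finrank ℂ ((ZS s).map (evC p l lam))
    rw [e, this]
    omega
  have c3 : finrank ℂ ((⊤ : Submodule ℂ D).map (evC p l lam)) ≤
      26 + finrank ℂ ((⊤ : Submodule ℂ D).map (evP lam)) := by
    have h1 := rn_prod (evB p l) (evP lam) ⊤
    have e : (⊤ : Submodule ℂ D).map (evC p l lam) =
      (⊤ : Submodule ℂ D).map ((evB p l).prod (evP lam)) := rfl
    rw [e, h1]
    have h2 : finrank ℂ ((⊤ : Submodule ℂ D).map (evB p l)) ≤ 26 := by
      rw [← hDT p l h.ind]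
      refine Submodule.finrank_mono ?_
      rintro _ ⟨δ, -, rfl⟩
      exact h.ev_mem δ
    have h3 := finrank_map_mono (evP lam)
      (inf_le_left : (⊤ : Submodule ℂ D) ⊓ LinearMap.ker (evB p l) ≤ ⊤)
    omega
  have c4 : finrank ℂ (((⊤ : Submodule ℂ D) ⊓ LinearMap.ker (evC p l lam)).map (evT s)) ≤
      finrank ℂ (K1 p lam) := by
    refine Submodule.finrank_mono ?_
    rintro _ ⟨δ, ⟨-, hδ⟩, rfl⟩
    exact h.dT_mem_K1 hs.1 hδ
  have c5 := hGK 4 p lam h.ind (LPX_ne h) S hS
  omega

lemma LPX_idx : ∀ i k : Fin 4, i < k → ∃ j m : Fin 4, j < m ∧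
    ∀ x, x = i ∨ x = k ∨ x = j ∨ x = m := by decide

theorem LPX_pf (hGK : GKP) (hRK : RKF) (hDT : DTP) : LPX := by
  intro s hs p l lam h h6
  have hne := LPX_ne h
  -- ordered version
  have key : ∀ i k : Fin 4, i < k → ¬ ∃ c : ℂ, lam i = c • lam k := by
    intro i k hik hR
    obtain ⟨j, m, hjm, hall⟩ := LPX_idx i k hik
    have hR' := LPX_symm hne hR
    -- pairs with exactly one index in `{i, k}`
    have hmix : ∀ a, a ≠ i → a ≠ k → (¬ ∃ c : ℂ, lam a = c • lam i) ∧ (¬ ∃ c : ℂ, lam a = c • lam k) := by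
      intro a hai hak
      constructor
      · intro h1
        exact LPX_three hRK hs h (k := i) (i := k) (j := a) hik.ne hai.symm hak.symm hR' h1
      · intro h1
        exact LPX_three hRK hs h (k := k) (i := i) (j := a) hik.ne' hak.symm hai.symm hR h1
    have hpairs : ∀ a b, a < b → (∃ c : ℂ, lam a = c • lam b) → (a, b) = (i, k) ∨
        (a ≠ i ∧ a ≠ k ∧ b ≠ i ∧ b ≠ k) := by
      intro a b hab h1
      by_cases ha : a = i ∨ a = k
      · by_cases hb : b = i ∨ b = k
        · left
          rcases ha with rfl | rfl <;> rcases hb with rfl | rfl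
          · exact absurd hab (lt_irrefl _)
          · rfl
          · exact absurd hab (not_lt.2 hik.le)
          · exact absurd hab (lt_irrefl _)
        · push Not at hb
          have h2 := LPX_symm hne h1
          rcases ha with rfl | rfl
          · exact absurd h2 (hmix b hb.1 hb.2).1
          · exact absurd h2 (hmix b hb.1 hb.2).2
      · push Not at ha
        by_cases hb : b = i ∨ b = k
        · rcases hb with rfl | rfl
          · exact absurd h1 (hmix a ha.1 ha.2).1
          · exact absurd h1 (hmix a ha.1 ha.2).2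
        · push Not at hb
          exact Or.inr ⟨ha.1, ha.2, hb.1, hb.2⟩
    have hother : ∀ a b, a < b → a ≠ i → a ≠ k → b ≠ i → b ≠ k → (a, b) = (j, m) := by
      intro a b hab h1 h2 h3 h4
      have h5 : a = j ∨ a = m := by
        rcases hall a with h | h | h | h
        · exact absurd h h1
        · exact absurd h h2
        · exact Or.inl h
        · exact Or.inr h
      have h6 : b = j ∨ b = m := by
        rcases hall b with h | h | h | h
        · exact absurd h h3
        · exact absurd h h4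
        · exact Or.inl h
        · exact Or.inr h
      rcases h5 with rfl | rfl <;> rcases h6 with rfl | rfl
      · exact absurd hab (lt_irrefl _)
      · rfl
      · exact absurd hab (not_lt.2 hjm.le)
      · exact absurd hab (lt_irrefl _)
    have z := LPX_zero lam hall ⊤
    have s1 := LPX_step3 lam k ⊤
    have s2 := LPX_step1 lam hR ((⊤ : Submodule ℂ D) ⊓ LinearMap.ker (evE (lam k))) inf_le_right
    have s3 := LPX_step3 lam m (((⊤ : Submodule ℂ D) ⊓ LinearMap.ker (evE (lam k))) ⊓
      LinearMap.ker (evE (lam i)))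
    by_cases hj : ∃ c : ℂ, lam j = c • lam m
    · have s4 := LPX_step1 lam hj (((((⊤ : Submodule ℂ D) ⊓ LinearMap.ker (evE (lam k))) ⊓
        LinearMap.ker (evE (lam i))) ⊓ LinearMap.ker (evE (lam m)))) inf_le_right
      have c1 := LPX_count hGK hDT hs h h6 {(i, k), (j, m)} (by
        intro a b hab h1
        rw [Finset.mem_insert, Finset.mem_singleton]
        rcases hpairs a b hab h1 with h2 | ⟨h2, h3, h4, h5⟩
        · exact Or.inl h2
        · exact Or.inr (hother a b hab h2 h3 h4 h5))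
      have c2 : ({(i, k), (j, m)} : Finset (Fin 4 × Fin 4)).card ≤ 2 := Finset.card_le_two
      omega
    · have s4 := LPX_step3 lam j (((((⊤ : Submodule ℂ D) ⊓ LinearMap.ker (evE (lam k))) ⊓
        LinearMap.ker (evE (lam i))) ⊓ LinearMap.ker (evE (lam m))))
      have c1 := LPX_count hGK hDT hs h h6 {(i, k)} (by
        intro a b hab h1
        rw [Finset.mem_singleton]
        rcases hpairs a b hab h1 with h2 | ⟨h2, h3, h4, h5⟩
        · exact h2
        · have h7 := hother a b hab h2 h3 h4 h5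
          rw [Prod.mk.injEq] at h7
          obtain ⟨rfl, rfl⟩ := h7
          exact absurd h1 hj)
      rw [Finset.card_singleton] at c1
      omega
  intro i k hik c hc
  rcases lt_or_gt_of_ne hik with h1 | h1
  · exact key i k h1 ⟨c, hc⟩
  · exact key k i h1 (LPX_symm hne ⟨c, hc⟩)

end Pool.Agent.Work.MP_ea8963_ag.G5
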