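import Pool.Agent.Work.MP_ea8963_ag.G5.Stmts

set_option linter.style.longLine false

noncomputable section

open Module

namespace Pool.Agent.Work.MP_ea8963_ag.G5

/-- index set of the free entries -/
abbrev N63_I : Type := Fin 3 × {q : Fin 6 × Fin 6 // q.1 ≤ q.2}

lemma N63_le (i j : Fin 6) : (min i j, max i j).1 ≤ (min i j, max i j).2 := min_le_max

/-- the net with given entries above the diagonal -/
def N63_map : (N63_I → ℂ) →ₗ[ℂ] SymT where
  toFun x := ⟨fun k i j => x (k, ⟨(min i j, max i j), N63_le i j⟩), by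
    intro k i j
    have h : (⟨(min i j, max i j), N63_le i j⟩ : {q : Fin 6 × Fin 6 // q.1 ≤ q.2}) =
        ⟨(min j i, max j i), N63_le j i⟩ := by
      apply Subtype.ext
      show (min i j, max i j) = (min j i, max j i)
      rw [min_comm, max_comm]
    show x (k, ⟨(min i j, max i j), N63_le i j⟩) = x (k, ⟨(min j i, max j i), N63_le j i⟩)
    rw [h]⟩
  map_add' x y := by
    apply Subtype.ext
    rfl
  map_smul' c x := by
    apply Subtype.ext
    rfl

lemma N63_inj : Function.Injective N63_map := by
  intro x y h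
  funext ⟨k, ⟨⟨i, j⟩, hij⟩⟩
  have h1 : (N63_map x : T3) k i j = (N63_map y : T3) k i j := by rw [h]
  have hij' : i ≤ j := hij
  have h2 : (⟨(min i j, max i j), N63_le i j⟩ : {q : Fin 6 × Fin 6 // q.1 ≤ q.2}) =
      ⟨(i, j), hij⟩ := by
    apply Subtype.ext
    show (min i j, max i j) = (i, j)
    rw [min_eq_left hij', max_eq_right hij']
  have h3 : x (k, ⟨(min i j, max i j), N63_le i j⟩) = y (k, ⟨(min i j, max i j), N63_le i j⟩) := h1
  rwa [h2] at h3

lemma N63_card : Fintype.card N63_I = 63 := by
  rw [Fintype.card_prod, Fintype.card_fin]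
  have : Fintype.card {q : Fin 6 × Fin 6 // q.1 ≤ q.2} = 21 := by decide
  rw [this]

theorem N63_pf : N63 := by
  show 63 ≤ finrank ℂ SymT
  have h := LinearMap.finrank_le_finrank_of_injective N63_inj
  rwa [finrank_fintype_fun_eq_card, N63_card] at h

end Pool.Agent.Work.MP_ea8963_ag.G5
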