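import Pool.Agent.Work.MP_ea8963_ag.G5.Stmts

/-!
Item NCX of block [ea8963 G5].
-/

set_option linter.style.longLine false

noncomputable section

open Module

namespace Pool.Agent.Work.MP_ea8963_ag.G5

lemma NCX_pick (i : Fin 4) : ∃ k k' : Fin 4, i ≠ k ∧ i ≠ k' ∧ k ≠ k' := by
  fin_cases i
  · exact ⟨1, 2, by decide, by decide, by decide⟩
  · exact ⟨0, 2, by decide, by decide, by decide⟩
  · exact ⟨0, 1, by decide, by decide, by decide⟩
  · exact ⟨0, 1, by decide, by decide, by decide⟩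

theorem NCX_pf : NCX := by
  intro s hs p l lam m h δ hδ hne i c hc
  have h1 := h.d_eq δ i
  rw [mem_ZS.1 hδ, cov_zero_tensor, zero_add, hc, cov_smul_right, h.eq i] at h1
  set ν := dE δ (lam i) with hν
  obtain ⟨C, hC, hC0, -⟩ := h.cf
  -- the determinants vanish
  have h2 : ∀ k, i ≠ k → dt ν (lam i) (lam k) = 0 := by
    intro k hk
    have h3 := congrArg (fun x => x ⬝ᵥ p k) h1
    simp only [add_dotProduct, smul_dotProduct, smul_eq_mul] at h3
    rw [h.lp k, h.dl_p hs hδ k] at h3
    have h4 : tri s ν (p i) (p k) = 0 := by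
      rw [tri]
      linear_combination h3
    rw [hC.eq i k ν] at h4
    exact (mul_eq_zero.1 h4).resolve_left (hC0 i k hk)
  obtain ⟨k, k', hk, hk', hkk⟩ := NCX_pick i
  have h3 := dt_cramer (lam i) (lam k) (lam k') ν
  have h4 : dt (lam i) ν (lam k') = 0 := by
    rw [dt_swap12, h2 k' hk', neg_zero]
  have h5 : dt (lam i) (lam k) ν = 0 := by
    rw [← dt_cyc, dt_swap12, dt_swap23, dt_swap12]
    have := h2 k hk
    simp only [dt_def] at this ⊢
    linear_combination this
  rw [h4, h5, zero_smul, zero_smul, add_zero, add_zero] at h3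
  have h6 := congrFun h3 0
  simp only [Pi.smul_apply, smul_eq_mul] at h6
  have h9 : ν 0 = 0 := h.dlam0 δ i
  rw [h.nrm i, h9, mul_zero, mul_one] at h6
  rw [← h6, zero_smul] at h3
  have h7 : ν = 0 := (smul_eq_zero.1 h3).resolve_left (h.gp i k k' hk hk' hkk)
  rw [h7, cov_zero_left, zero_add] at h1
  apply hne ((m i)⁻¹ * (c * m i - δ (m i)))
  have h8 : m i • dE δ l = (c * m i - δ (m i)) • l := by
    rw [sub_smul, mul_smul, h1]
    module
  rw [mul_smul, ← h8, smul_smul, inv_mul_cancel₀ (h.m0 i), one_smul]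

end Pool.Agent.Work.MP_ea8963_ag.G5
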