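import Pool.Agent.Work.MP_ea8963_ag.G5.Stmts

/-!
Block [ea8963 G5], item NFK: number of conditions for a fifth point.  helper85.
-/

set_option linter.style.longLine false
set_option linter.unusedVariables false

noncomputable section

open Module
open Pool.Agent.Work.MP_ea8963_ag.G4 (D ZA mem_ZA Full cl rn rn_prod rn_le finrank_map_mono
  finrank_map_prod_swap pair d_two ZA_mono)

namespace Pool.Agent.Work.MP_ea8963_ag.G5

namespace I_NFK

/-- the functionals on symmetric nets -/
def func (p : Fin 4 → E) (l : E) (lam : Fin 4 → La) (q : E) (a : La) :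
    (RW l × (E × La)) →ₗ[ℂ] Dual ℂ SymT where
  toFun x :=
    { toFun := fun t => val p lam (t : T3) (x.1 : XX) + (tri (t : T3) a q x.2.1
        + tri (t : T3) x.2.2 q q)
      map_add' := fun s t => by
        simp only [Submodule.coe_add, tri_add_tensor, val_add_tensor]
        ring
      map_smul' := fun c t => by
        simp only [Submodule.coe_smul, tri_smul_tensor, val_smul_tensor, RingHom.id_apply,
          smul_eq_mul]
        ring }
  map_add' v w := by
    ext t
    simp only [LinearMap.coe_mk, AddHom.coe_mk, LinearMap.add_apply, Prod.fst_add, Prod.snd_add,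
      Submodule.coe_add, val_add, tri_add3, tri_add1]
    ring
  map_smul' c v := by
    ext t
    simp only [LinearMap.coe_mk, AddHom.coe_mk, LinearMap.smul_apply, Prod.smul_fst, Prod.smul_snd,
      Submodule.coe_smul, val_smul, tri_smul3, tri_smul1, RingHom.id_apply, smul_eq_mul]
    ring

lemma func_apply (p : Fin 4 → E) (l : E) (lam : Fin 4 → La) (q : E) (a : La)
    (x : RW l × (E × La)) (t : SymT) : func p l lam q a x t =
      val p lam (t : T3) (x.1 : XX) + (tri (t : T3) a q x.2.1 + tri (t : T3) x.2.2 q q) := rfl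

lemma val_single1 (p : Fin 4 → E) (lam : Fin 4 → La) (t : T3) (i : Fin 4) (v : E) :
    val p lam t (Pi.single i v, 0) = tri t (lam i) (p i) v := by
  rw [val, Finset.sum_eq_single i]
  · simp [tri_zero1]
  · intro j _ hj
    simp [Pi.single_eq_of_ne hj, tri_zero1, tri_zero3]
  · intro h
    exact absurd (Finset.mem_univ i) h

lemma val_single2 (p : Fin 4 → E) (lam : Fin 4 → La) (t : T3) (i : Fin 4) (c : La) :
    val p lam t (0, Pi.single i c) = tri t c (p i) (p i) := by
  rw [val, Finset.sum_eq_single i]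
  · simp [tri_zero3]
  · intro j _ hj
    simp [Pi.single_eq_of_ne hj, tri_zero1, tri_zero3]
  · intro h
    exact absurd (Finset.mem_univ i) h

lemma map_coann (p : Fin 4 → E) (l : E) (lam : Fin 4 → La) (q : E) (a : La) :
    ((LinearMap.range (func p l lam q a)).dualCoannihilator).map SymT.subtype =
      KQ p l lam q a := by
  ext t
  constructor
  · rintro ⟨s, hs, rfl⟩
    have h0 : ∀ x : RW l × (E × La), val p lam (s : T3) (x.1 : XX) + (tri (s : T3) a q x.2.1
        + tri (s : T3) x.2.2 q q) = 0 := fun x =>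
      (Submodule.mem_dualCoannihilator _).1 hs (func p l lam q a x) (LinearMap.mem_range_self _ _)
    refine ⟨⟨s.2, fun i v hv => ?_, fun i c => ?_⟩, s.2, fun i v => ?_, fun i c => ?_⟩
    · have hm : ((Pi.single i v, 0) : XX) ∈ RW l := by
        intro j
        by_cases hj : j = i
        · subst hj; simpa using hv
        · simp [Pi.single_eq_of_ne hj]
      have h1 := h0 (⟨(Pi.single i v, 0), hm⟩, (0, 0))
      simp only [val_single1, tri_zero3, tri_zero1, add_zero] at h1
      exact h1
    · have hm : ((0, Pi.single i c) : XX) ∈ RW l := by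
        intro j
        simp
      have h1 := h0 (⟨(0, Pi.single i c), hm⟩, (0, 0))
      simp only [val_single2, tri_zero3, tri_zero1, add_zero] at h1
      exact h1
    · have h1 := h0 (0, (v, 0))
      simp only [Submodule.coe_zero, val_zero, tri_zero1, add_zero, zero_add] at h1
      fin_cases i
      simpa using h1
    · have h1 := h0 (0, (0, c))
      simp only [Submodule.coe_zero, val_zero, tri_zero3, zero_add] at h1
      fin_cases i
      simpa using h1
  · rintro ⟨⟨ht, h1, h2⟩, -, h3, h4⟩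
    refine ⟨⟨t, ht⟩, ?_, rfl⟩
    rw [SetLike.mem_coe, Submodule.mem_dualCoannihilator]
    rintro _ ⟨x, rfl⟩
    rw [func_apply]
    have h5 : val p lam t (x.1 : XX) = 0 := by
      rw [val]
      refine Finset.sum_eq_zero fun i _ => ?_
      rw [h1 i _ (x.1.2 i), h2 i, add_zero]
    have h6 := h3 0 x.2.1
    have h7 := h4 0 x.2.2
    simp only [Matrix.cons_val_fin_one] at h6 h7
    change val p lam t (x.1 : XX) + (tri t a q x.2.1 + tri t x.2.2 q q) = 0
    rw [h5, h6, h7, add_zero, add_zero]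

/-- the test with the dual family -/
lemma key {n : ℕ} {P : Fin n → E} (L : Fin n → La) (hL : ∀ i, L i ≠ 0)
    {d : Fin n → E} (hd : ∀ i j, d i ⬝ᵥ P j = if i = j then 1 else 0) (hP : LinearIndependent ℂ P)
    (v : Fin n → E) (mu : Fin n → La)
    (h : ∀ t ∈ SymT, ∑ i, (tri t (L i) (P i) (v i) + tri t (mu i) (P i) (P i)) = 0) :
    (∀ i, v i = ∑ k, (d k ⬝ᵥ v i) • P k) ∧
    (∀ i k, i ≠ k → (d k ⬝ᵥ v i) • L i + (d i ⬝ᵥ v k) • L k = 0) ∧
    (∀ i, mu i = -((d i ⬝ᵥ v i) • L i)) := by
  -- the general test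
  have T : ∀ (c : La) (i : Fin n) (g : E), (c ⬝ᵥ L i) * (g ⬝ᵥ v i) +
      ∑ j, (c ⬝ᵥ L j) * ((d i ⬝ᵥ v j) * (g ⬝ᵥ P j)) + 2 * ((c ⬝ᵥ mu i) * (g ⬝ᵥ P i)) = 0 := by
    intro c i g
    have h1 := h (sp c (d i) g) (sp_mem _ _ _)
    have h2 : ∀ j, tri (sp c (d i) g) (L j) (P j) (v j) + tri (sp c (d i) g) (mu j) (P j) (P j) =
        (if i = j then (c ⬝ᵥ L j) * (g ⬝ᵥ v j) else 0) +
        (c ⬝ᵥ L j) * ((d i ⬝ᵥ v j) * (g ⬝ᵥ P j)) +
        (if i = j then 2 * ((c ⬝ᵥ mu j) * (g ⬝ᵥ P j)) else 0) := by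
      intro j
      rw [tri_sp, tri_sp, hd i j]
      split_ifs <;> ring
    rw [Finset.sum_congr rfl fun j _ => h2 j, Finset.sum_add_distrib, Finset.sum_add_distrib,
      Finset.sum_ite_eq, Finset.sum_ite_eq, if_pos (Finset.mem_univ i),
      if_pos (Finset.mem_univ i)] at h1
    exact h1
  -- `g` which kills all points
  have A : ∀ i (g : E), (∀ j, g ⬝ᵥ P j = 0) → g ⬝ᵥ v i = 0 := by
    intro i g hg
    obtain ⟨c, hc⟩ : ∃ c : La, c ⬝ᵥ L i ≠ 0 := by
      by_contra hcon
      push Not at hcon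
      exact hL i (eq_zero_of_dot hcon)
    have h1 := T c i g
    simp only [hg, mul_zero, Finset.sum_const_zero, add_zero] at h1
    exact (mul_eq_zero.1 h1).resolve_left hc
  have B : ∀ i, v i = ∑ k, (d k ⬝ᵥ v i) • P k := by
    intro i
    apply dot_ext
    intro g
    -- subtract from `g` its part along the dual family
    have h1 := A i (g - ∑ k, (g ⬝ᵥ P k) • d k) (by
      intro j
      rw [sub_dotProduct, sum_dotProduct]
      simp only [smul_dotProduct, smul_eq_mul, hd, mul_ite, mul_one, mul_zero]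
      rw [Finset.sum_ite_eq' Finset.univ j (fun k => g ⬝ᵥ P k), if_pos (Finset.mem_univ j), sub_self])
    rw [sub_dotProduct, sum_dotProduct, sub_eq_zero] at h1
    rw [h1, dotProduct_sum]
    refine Finset.sum_congr rfl fun k _ => ?_
    rw [smul_dotProduct, dotProduct_smul, smul_eq_mul, smul_eq_mul, mul_comm]
  refine ⟨B, fun i k hik => ?_, fun i => ?_⟩
  · apply eq_zero_of_dot
    intro c
    have h1 := T c i (d k)
    have h2 : ∑ j, (c ⬝ᵥ L j) * ((d i ⬝ᵥ v j) * (d k ⬝ᵥ P j)) = (c ⬝ᵥ L k) * (d i ⬝ᵥ v k) := by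
      rw [Finset.sum_eq_single k]
      · rw [hd k k, if_pos rfl, mul_one]
      · intro j _ hj
        rw [hd k j, if_neg (Ne.symm hj), mul_zero, mul_zero]
      · intro hh
        exact absurd (Finset.mem_univ k) hh
    rw [h2, hd k i, if_neg (Ne.symm hik), mul_zero, mul_zero, add_zero] at h1
    rw [dotProduct_add, dotProduct_smul, dotProduct_smul, smul_eq_mul, smul_eq_mul]
    linear_combination h1
  · have h3 : mu i + (d i ⬝ᵥ v i) • L i = 0 := by
      apply eq_zero_of_dot
      intro c
      have h1 := T c i (d i)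
      have h2 : ∑ j, (c ⬝ᵥ L j) * ((d i ⬝ᵥ v j) * (d i ⬝ᵥ P j)) = (c ⬝ᵥ L i) * (d i ⬝ᵥ v i) := by
        rw [Finset.sum_eq_single i]
        · rw [hd i i, if_pos rfl, mul_one]
        · intro j _ hj
          rw [hd i j, if_neg (Ne.symm hj), mul_zero, mul_zero]
        · intro hh
          exact absurd (Finset.mem_univ i) hh
      rw [h2, hd i i, if_pos rfl, mul_one] at h1
      rw [dotProduct_add, dotProduct_smul, smul_eq_mul]
      linear_combination (1 / 2 : ℂ) * h1
    exact eq_neg_of_add_eq_zero_left h3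

/-- `RW l` is large -/
lemma finrank_RW (l : E) : 32 ≤ finrank ℂ (RW l) := by
  let f : XX →ₗ[ℂ] (Fin 4 → ℂ) :=
    { toFun := fun x i => l ⬝ᵥ x.1 i
      map_add' := fun x y => by ext i; simp [dotProduct_add]
      map_smul' := fun c x => by ext i; simp [dotProduct_smul] }
  have h1 := LinearMap.finrank_range_add_finrank_ker f
  have h2 : LinearMap.ker f = RW l := by
    ext x
    rw [LinearMap.mem_ker, mem_RW]
    exact ⟨fun h i => congrFun h i, fun h => funext h⟩
  have h3 : finrank ℂ (LinearMap.range f) ≤ 4 := by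
    have := Submodule.finrank_le (LinearMap.range f)
    simpa using this
  have h4 : finrank ℂ XX = 36 := by
    simp [XX, Module.finrank_pi_fintype, E, La]
  rw [h2, h4] at h1
  omega

lemma finrank_dom (l : E) : 41 ≤ finrank ℂ (RW l × (E × La)) := by
  have h1 := finrank_RW l
  have h2 : finrank ℂ (RW l × (E × La)) = finrank ℂ (RW l) + 9 := by
    rw [Module.finrank_prod]
    simp [E, La]
  omega

/-- the coordinates of the kernel -/
def co (l : E) (d : Fin 5 → E) (e : E) :
    (RW l × (E × La)) →ₗ[ℂ] (ℂ × (Fin 4 → ℂ)) × ℂ where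
  toFun x := ((d 0 ⬝ᵥ x.2.1, fun i => d i.succ ⬝ᵥ (x.1 : XX).1 i), e ⬝ᵥ x.2.1)
  map_add' x y := by
    simp only [Prod.fst_add, Prod.snd_add, Submodule.coe_add, Pi.add_apply, dotProduct_add,
      Prod.mk_add_mk]
    rfl
  map_smul' c x := by
    simp only [Prod.smul_fst, Prod.smul_snd, Submodule.coe_smul, Pi.smul_apply, dotProduct_smul,
      Prod.smul_mk, RingHom.id_apply]
    rfl

/-- the coordinates of the kernel, generic case -/
def co' (l : E) (d : Fin 5 → E) :
    (RW l × (E × La)) →ₗ[ℂ] ℂ × (Fin 4 → ℂ) where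
  toFun x := (d 0 ⬝ᵥ x.2.1, fun i => d i.succ ⬝ᵥ (x.1 : XX).1 i)
  map_add' x y := by
    simp only [Prod.fst_add, Prod.snd_add, Submodule.coe_add, Pi.add_apply, dotProduct_add,
      Prod.mk_add_mk]
    rfl
  map_smul' c x := by
    simp only [Prod.smul_fst, Prod.smul_snd, Submodule.coe_smul, Pi.smul_apply, dotProduct_smul,
      Prod.smul_mk, RingHom.id_apply]
    rfl

lemma fin5 {P : Fin 5 → Prop} (h0 : P 0) (h1 : ∀ i : Fin 4, P i.succ) : ∀ i, P i := fun i =>
  Fin.cases h0 h1 i

/-- the kernel is determined by its coordinates -/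
lemma inj {p : Fin 4 → E} {l : E} {lam : Fin 4 → La} {q : E} {a : La}
    (hP : LinearIndependent ℂ (Fin.cons q p : Fin 5 → E)) (hlam : ∀ i, lam i ≠ 0)
    (hne : ∀ i k, i ≠ k → ∀ c : ℂ, lam i ≠ c • lam k) (ha : a ≠ 0) {d : Fin 5 → E}
    (hd : ∀ i j, d i ⬝ᵥ (Fin.cons q p : Fin 5 → E) j = if i = j then 1 else 0)
    (x : RW l × (E × La)) (hx : func p l lam q a x = 0) (h0 : d 0 ⬝ᵥ x.2.1 = 0)
    (h1 : ∀ i : Fin 4, d i.succ ⬝ᵥ (x.1 : XX).1 i = 0)
    (h2 : ∀ k : Fin 4, (∃ c : ℂ, a = c • lam k) → d k.succ ⬝ᵥ x.2.1 = 0) : x = 0 := by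
  set L : Fin 5 → La := Fin.cons a lam with hLdef
  set V : Fin 5 → E := Fin.cons x.2.1 (x.1 : XX).1 with hV
  set MU : Fin 5 → La := Fin.cons x.2.2 (x.1 : XX).2 with hMU
  have hL : ∀ i, L i ≠ 0 := fin5 ha hlam
  have hk := key L hL hd hP V MU (by
    intro t ht
    have h3 := congrArg (fun f : Dual ℂ SymT => f ⟨t, ht⟩) hx
    simp only [func_apply, LinearMap.zero_apply] at h3
    rw [Fin.sum_univ_succ]
    simp only [hLdef, hV, hMU, Fin.cons_zero, Fin.cons_succ]
    rw [val] at h3
    linear_combination h3)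
  obtain ⟨kV, kW, kM⟩ := hk
  -- diagonal coefficients
  have hdiag : ∀ i, d i ⬝ᵥ V i = 0 := fin5 h0 h1
  -- coefficients of pairs
  have hpair : ∀ i k : Fin 5, i ≠ k → d k ⬝ᵥ V i = 0 := by
    -- one coefficient zero implies the other one zero
    have step : ∀ i k : Fin 5, i ≠ k → d k ⬝ᵥ V i = 0 → d i ⬝ᵥ V k = 0 := by
      intro i k hik h3
      have h4 := kW i k hik
      rw [h3, zero_smul, zero_add] at h4
      exact (smul_eq_zero.1 h4).resolve_right (hL k)
    -- a nonzero coefficient gives a proportionality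
    have prop : ∀ i k : Fin 5, i ≠ k → d k ⬝ᵥ V i ≠ 0 → ∃ c : ℂ, L i = c • L k := by
      intro i k hik h3
      have h4 := kW i k hik
      refine ⟨-((d k ⬝ᵥ V i)⁻¹ * (d i ⬝ᵥ V k)), ?_⟩
      have h5 : (d k ⬝ᵥ V i) • L i = -((d i ⬝ᵥ V k) • L k) := eq_neg_of_add_eq_zero_left h4
      have h6 : L i = (d k ⬝ᵥ V i)⁻¹ • ((d k ⬝ᵥ V i) • L i) := by
        rw [smul_smul, inv_mul_cancel₀ h3, one_smul]
      rw [h6, h5, smul_neg, smul_smul, neg_smul]
    have c0 : ∀ k : Fin 4, d k.succ ⬝ᵥ V 0 = 0 := by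
      intro k
      by_contra hcon
      obtain ⟨c, hc⟩ := prop 0 k.succ (Fin.succ_ne_zero k).symm hcon
      exact hcon (h2 k ⟨c, hc⟩)
    have c1 : ∀ i k : Fin 4, i ≠ k → d k.succ ⬝ᵥ V i.succ = 0 := by
      intro i k hik
      by_contra hcon
      obtain ⟨c, hc⟩ := prop i.succ k.succ (fun h => hik (Fin.succ_injective _ h)) hcon
      exact hne i k hik c hc
    intro i k hik
    induction i using Fin.cases with
    | zero =>
      induction k using Fin.cases with
      | zero => exact absurd rfl hik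
      | succ k => exact c0 k
    | succ i =>
      induction k using Fin.cases with
      | zero => exact step 0 i.succ (Fin.succ_ne_zero i).symm (c0 i)
      | succ k => exact c1 i k (fun h => hik (by rw [h]))
  have hV0 : ∀ i, V i = 0 := by
    intro i
    rw [kV i]
    refine Finset.sum_eq_zero fun k _ => ?_
    by_cases hk : i = k
    · subst hk
      rw [hdiag i, zero_smul]
    · rw [hpair i k hk, zero_smul]
  have hM0 : ∀ i, MU i = 0 := by
    intro i
    rw [kM i, hdiag i, zero_smul, neg_zero]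
  have e1 : x.2.1 = 0 := hV0 0
  have e2 : x.2.2 = 0 := hM0 0
  have e3 : (x.1 : XX) = 0 := Prod.ext (funext fun i => hV0 i.succ) (funext fun i => hM0 i.succ)
  exact Prod.ext (Subtype.ext e3) (Prod.ext e1 e2)

end I_NFK

theorem NFK_pf : NFK := by
  intro p l lam q a hP hl hlp hlq hlam hne ha
  obtain ⟨d, hd⟩ := exists_dual hP
  have h1 := pair (I_NFK.func p l lam q a)
  have h2 : finrank ℂ (KQ p l lam q a) = finrank ℂ
      ((LinearMap.range (I_NFK.func p l lam q a)).dualCoannihilator : Submodule ℂ SymT) := by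
    rw [← I_NFK.map_coann p l lam q a]
    exact Submodule.finrank_map_subtype_eq SymT _
  rw [← h2] at h1
  have h3 := I_NFK.finrank_dom l
  -- generic case
  have G : (∀ i (c : ℂ), a ≠ c • lam i) →
      finrank ℂ (LinearMap.ker (I_NFK.func p l lam q a)) ≤ 5 := by
    intro hgen
    have h4 : Function.Injective ((I_NFK.co' l d).comp
        (LinearMap.ker (I_NFK.func p l lam q a)).subtype) := by
      refine (injective_iff_map_eq_zero _).2 ?_
      rintro ⟨x, hx⟩ h5
      apply Subtype.ext
      have h6 : d 0 ⬝ᵥ x.2.1 = 0 := congrArg Prod.fst h5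
      have h7 := congrArg Prod.snd h5
      exact I_NFK.inj hP hlam hne ha hd x (LinearMap.mem_ker.1 hx) h6 (fun i => congrFun h7 i)
        (fun k ⟨c, hc⟩ => absurd hc (hgen k c))
    have h5 := LinearMap.finrank_le_finrank_of_injective h4
    simpa using h5
  refine ⟨?_, fun hgen => ?_⟩
  · have h4 : finrank ℂ (LinearMap.ker (I_NFK.func p l lam q a)) ≤ 6 := by
      by_cases hex : ∃ k, ∃ c : ℂ, a = c • lam k
      · obtain ⟨k0, c0, hc0⟩ := hex
        have huniq : ∀ k, (∃ c : ℂ, a = c • lam k) → k = k0 := by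
          rintro k ⟨c, hc⟩
          by_contra hkk
          have hcne : c ≠ 0 := by
            rintro rfl
            rw [zero_smul] at hc
            exact ha hc
          refine hne k k0 hkk (c⁻¹ * c0) ?_
          rw [← smul_smul, ← hc0, hc, smul_smul, inv_mul_cancel₀ hcne, one_smul]
        have h4 : Function.Injective ((I_NFK.co l d (d k0.succ)).comp
            (LinearMap.ker (I_NFK.func p l lam q a)).subtype) := by
          refine (injective_iff_map_eq_zero _).2 ?_
          rintro ⟨x, hx⟩ h5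
          apply Subtype.ext
          have h6 : d 0 ⬝ᵥ x.2.1 = 0 := congrArg (fun z => z.1.1) h5
          have h7 := congrArg (fun z => z.1.2) h5
          have h8 : d k0.succ ⬝ᵥ x.2.1 = 0 := congrArg (fun z => z.2) h5
          refine I_NFK.inj hP hlam hne ha hd x (LinearMap.mem_ker.1 hx) h6
            (fun i => congrFun h7 i) (fun k hk => ?_)
          rw [huniq k hk]
          exact h8
        have h5 := LinearMap.finrank_le_finrank_of_injective h4
        simpa using h5
      · push Not at hex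
        exact (G (fun i c => hex i c)).trans (by norm_num)
    omega
  · have h4 := G hgen
    omega

end Pool.Agent.Work.MP_ea8963_ag.G5
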