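import Pool.Agent.Work.MP_ea8963_ag.G5.Stmts

/-! Item NFX of block [ea8963 G5] (there is no fifth singular point).  Author helper89. -/

set_option linter.style.longLine false
set_option linter.unusedVariables false

noncomputable section

open Module
open Pool.Agent.Work.MP_ea8963_ag.G4 (D ZA mem_ZA Full cl rn rn_prod rn_le finrank_map_mono
  finrank_map_prod_swap pair d_two ZA_mono)

namespace Pool.Agent.Work.MP_ea8963_ag.G5

/-- a derivation which kills the configuration, `q` and `a` moves `s` in `KQ` -/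
lemma NFX_mem {s : T3} (hs : s ∈ SymT) {p : Fin 4 → E} {l : E} {lam : Fin 4 → La} {m : Fin 4 → ℂ}
    (h : Opt s p l lam m) {q : E} (hq2 : ∀ e : La, tri s e q q = 0) {a : La}
    (ha : cov s a q = l) {δ : D} (hδ : δ ∈ ZC p l lam) (h1 : dE δ q = 0) (h2 : dE δ a = 0) :
    dT δ s ∈ KQ p l lam q a := by
  refine Submodule.mem_inf.2 ⟨h.dT_mem_KB hs hδ, ?_⟩
  rw [mem_K1]
  refine ⟨dT_mem δ hs, fun i v => ?_, fun i e => ?_⟩
  · fin_cases i
    change tri (dT δ s) a q v = 0
    have h3 : dE δ l = dE δ (cov s a q) := by rw [ha]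
    rw [(mem_ZC.1 hδ).2.1, dE_cov, h1, h2, cov_zero_left, cov_zero_right, add_zero, add_zero] at h3
    rw [tri, ← h3, zero_dotProduct]
  · fin_cases i
    change tri (dT δ s) e q q = 0
    have h3 := d_tri δ s e q q
    rw [hq2 e, map_zero, hq2 (dE δ e), h1, tri_zero2, tri_zero3, add_zero, add_zero, add_zero] at h3
    exact h3.symm

lemma NFX_core (hNK : NFK) {s : T3} (hs : Gen s) {p : Fin 4 → E} {l : E} {lam : Fin 4 → La}
    {m : Fin 4 → ℂ} (h : Opt s p l lam m) {q : E} {j : Fin 6} (hj : q j = 1)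
    (hq2 : ∀ e : La, tri s e q q = 0) {a : La} (ha : cov s a q = l)
    (hq : q ∉ Submodule.span ℂ (Set.range p)) : False := by
  have ha0 : a ≠ 0 := by
    rintro rfl
    exact h.l0 (by rw [← ha, cov_zero_left])
  have hlq : l ⬝ᵥ q = 0 := by
    rw [← ha]
    exact hq2 a
  have hl0 := h.l0
  have hind : LinearIndependent ℂ (Fin.cons q p : Fin 5 → E) :=
    linearIndependent_finCons.2 ⟨h.ind, hq⟩
  have hlam : ∀ i, lam i ≠ 0 := by
    intro i h0
    have h1 := h.nrm i
    rw [h0] at h1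
    simp at h1
  have hprop : ∀ i k, i ≠ k → ∀ c : ℂ, lam i ≠ c • lam k := by
    intro i k hik c hc
    obtain ⟨r, hr1, hr2⟩ : ∃ r : Fin 4, r ≠ i ∧ r ≠ k := by
      revert hik
      revert i k
      intro i k _ _
      fin_cases i <;> fin_cases k <;> decide
    refine h.gp i k r hik hr1.symm hr2.symm ?_
    rw [hc, dt_def]
    simp only [Pi.smul_apply, smul_eq_mul]
    ring
  have hN := hNK p l lam q a hind hl0 (fun i => h.lp i) hlq hlam hprop ha0
  have hi2 : LinearIndependent ℂ ![l, Pi.single j 1] := by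
    rw [LinearIndependent.pair_iff]
    intro x y hxy
    have h1 := congrArg (fun z => z ⬝ᵥ q) hxy
    simp only [add_dotProduct, smul_dotProduct, hlq, single_dotProduct, hj, zero_dotProduct,
      smul_eq_mul, mul_zero, zero_add, mul_one] at h1
    rw [h1, zero_smul, add_zero] at hxy
    exact ⟨(smul_eq_zero.1 hxy).resolve_right hl0, h1⟩
  have c1 : finrank ℂ ((ZC p l lam).map (evE q)) + 2 ≤ 6 := by
    apply finrank_le_of_ann hi2
    rintro _ ⟨δ, hδ, rfl⟩ i
    have hδ' := mem_ZC.1 hδ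
    rw [evE_apply]
    fin_cases i
    · have h1 := d_dot δ l q
      rw [hlq, map_zero, hδ'.2.1, zero_dotProduct, zero_add] at h1
      exact h1.symm
    · change Pi.single j 1 ⬝ᵥ dE δ q = 0
      rw [single_dotProduct, one_mul]
      change δ (q j) = 0
      rw [hj]
      exact δ.map_one_eq_zero
  have c2 := rn_le (evT s) ((evE q).prod (evE a)) (ZC p l lam)
  obtain ⟨G, hG⟩ : ∃ G : Submodule ℂ La,
      G = (ZC p l lam ⊓ LinearMap.ker (evE q)).map (evE a) := ⟨_, rfl⟩
  have c3 : finrank ℂ ((ZC p l lam).map ((evE q).prod (evE a))) =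
      finrank ℂ ((ZC p l lam).map (evE q)) + finrank ℂ G := by
    rw [hG]
    exact rn_prod (evE q) (evE a) (ZC p l lam)
  have c4 : finrank ℂ ((ZC p l lam ⊓ LinearMap.ker ((evE q).prod (evE a))).map (evT s) :
      Submodule ℂ T3) ≤ finrank ℂ (KQ p l lam q a) := by
    apply Submodule.finrank_mono
    rintro _ ⟨δ, ⟨hδ, hδq⟩, rfl⟩
    rw [evT_apply]
    have h1 : (dE δ q, dE δ a) = (0 : E × La) := hδq
    rw [Prod.mk_eq_zero] at h1
    exact NFX_mem hs.1 h hq2 ha hδ h1.1 h1.2
  have c6 := h.rkS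
  by_cases hc : ∀ i (c : ℂ), a ≠ c • lam i
  · have c7 := hN.2 hc
    have c8 : finrank ℂ G ≤ 3 := by
      have := Submodule.finrank_le G
      simpa using this
    omega
  · push Not at hc
    obtain ⟨i, c, hic⟩ := hc
    have c7 := hN.1
    have c8 : finrank ℂ G ≤ 1 := by
      have h1 : G ≤ Submodule.span ℂ {lam i} := by
        rw [hG]
        rintro _ ⟨δ, ⟨hδ, -⟩, rfl⟩
        rw [evE_apply, hic, dE_smul, (mem_ZC.1 hδ).2.2 i, smul_zero, add_zero]
        exact Submodule.smul_mem _ _ (Submodule.mem_span_singleton_self _)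
      refine (Submodule.finrank_mono h1).trans ?_
      rw [finrank_span_singleton (hlam i)]
    omega

theorem NFX_pf (hNK : NFK) : NFX := by
  intro s hs p l lam m h q hq0 hq2 a ha
  by_cases hq : q ∈ Submodule.span ℂ (Set.range p)
  · obtain ⟨x, hx⟩ := (Submodule.mem_span_range_iff_exists_fun ℂ).1 hq
    obtain ⟨j, c, hc⟩ := h.con x (by intro e; rw [hx]; exact hq2 e)
    exact ⟨j, c, by rw [← hx]; exact hc⟩
  exfalso
  obtain ⟨j, hj⟩ : ∃ j, q j ≠ 0 := by
    by_contra hcon
    push Not at hcon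
    exact hq0 (funext hcon)
  refine NFX_core hNK hs h (q := (q j)⁻¹ • q) (j := j) ?_ ?_ (a := q j • a) ?_ ?_
  · simp [hj]
  · intro e
    rw [tri_smul2, tri_smul3, hq2]
    ring
  · rw [cov_smul_left, cov_smul_right, smul_smul, mul_inv_cancel₀ hj, one_smul, ha]
  · intro hcon
    apply hq
    have := Submodule.smul_mem _ (q j) hcon
    rwa [smul_smul, mul_inv_cancel₀ hj, one_smul] at this

end Pool.Agent.Work.MP_ea8963_ag.G5
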