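import Pool.Agent.Work.MP_ea8963_ag.G5.Stmts

/-!
Item [ea8963 G5 NKA]: nets vanishing on the four points and on the hyperplane f = 0.
-/

set_option linter.style.longLine false
set_option linter.unusedVariables false

noncomputable section

open Module

namespace Pool.Agent.Work.MP_ea8963_ag.G5

/-- the linear map of the nets divisible by `f` -/
def NKA_prL (f : E) : (Fin 3 → E) →ₗ[ℂ] T3 where
  toFun r := pr f r
  map_add' r r' := by
    ext k i j
    simp only [pr, Pi.add_apply]; ring
  map_smul' c r := by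
    ext k i j
    simp only [pr, Pi.smul_apply, smul_eq_mul, RingHom.id_apply]; ring

lemma NKA_prL_apply (f : E) (r : Fin 3 → E) : NKA_prL f r = pr f r := rfl

lemma NKA_inj (f : E) (hf : f ≠ 0) : Function.Injective (NKA_prL f) := by
  rw [injective_iff_map_eq_zero]
  intro r hr
  obtain ⟨i, hi⟩ : ∃ i, f i ≠ 0 := by
    by_contra h
    push Not at h
    exact hf (funext h)
  have h0 : ∀ k a b, f a * r k b + r k a * f b = 0 := by
    intro k a b
    have := congrFun (congrFun (congrFun hr k) a) b
    simpa [NKA_prL_apply, pr] using this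
  have h1 : ∀ k, r k i = 0 := by
    intro k
    have h := h0 k i i
    have h2 : (2 * f i) * r k i = 0 := by linear_combination h
    rcases mul_eq_zero.mp h2 with h3 | h3
    · exact absurd h3 (mul_ne_zero two_ne_zero hi)
    · exact h3
  ext k j
  have h := h0 k i j
  rw [h1 k, zero_mul, add_zero] at h
  rcases mul_eq_zero.mp h with h3 | h3
  · exact absurd h3 hi
  · simpa using h3

/-- the four conditions -/
def NKA_cond (p : Fin 4 → E) (lam : Fin 4 → La) : (Fin 3 → E) →ₗ[ℂ] (Fin 4 → ℂ) where
  toFun r := fun i => con r (lam i) ⬝ᵥ p i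
  map_add' r r' := by
    ext i
    simp only [con_dot, Pi.add_apply, add_dotProduct, mul_add, Finset.sum_add_distrib]
  map_smul' c r := by
    ext i
    simp only [con_dot, Pi.smul_apply, smul_dotProduct, smul_eq_mul, RingHom.id_apply,
      Finset.mul_sum]
    refine Finset.sum_congr rfl fun k _ => ?_
    ring

lemma NKA_cond_apply (p : Fin 4 → E) (lam : Fin 4 → La) (r : Fin 3 → E) (i : Fin 4) :
    NKA_cond p lam r i = con r (lam i) ⬝ᵥ p i := rfl

theorem NKA_pf : NKA := by
  intro p l lam f hf hfp
  have hker : 14 ≤ finrank ℂ (LinearMap.ker (NKA_cond p lam)) := by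
    have h1 := LinearMap.finrank_range_add_finrank_ker (NKA_cond p lam)
    have h2 : finrank ℂ (Fin 3 → E) = 18 := by
      rw [Module.finrank_pi_fintype]
      simp [E]
    have h3 : finrank ℂ (LinearMap.range (NKA_cond p lam)) ≤ 4 := by
      have := Submodule.finrank_le (LinearMap.range (NKA_cond p lam))
      simpa using this
    omega
  have hmap : finrank ℂ ((LinearMap.ker (NKA_cond p lam)).map (NKA_prL f)) =
      finrank ℂ (LinearMap.ker (NKA_cond p lam)) :=
    (Submodule.equivMapOfInjective (NKA_prL f) (NKA_inj f hf) _).finrank_eq.symm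
  have hle : (LinearMap.ker (NKA_cond p lam)).map (NKA_prL f) ≤
      (KB p l lam ⊓ KU (Ann ![f]) : Submodule ℂ T3) := by
    rintro t ⟨r, hr, rfl⟩
    have hr' : ∀ i, con r (lam i) ⬝ᵥ p i = 0 := fun i => congrFun (LinearMap.mem_ker.mp hr) i
    rw [NKA_prL_apply]
    refine ⟨⟨pr_mem f r, fun i v hv => ?_, fun i a => ?_⟩, ⟨pr_mem f r, fun a x hx y hy => ?_⟩⟩
    · rw [tri_pr, hfp i, hr' i]; ring
    · rw [tri_pr, hfp i]; ring
    · have hx' : f ⬝ᵥ x = 0 := by simpa using hx 0
      have hy' : f ⬝ᵥ y = 0 := by simpa using hy 0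
      rw [tri_pr, hx', hy']; ring
  have hfin := Submodule.finrank_mono hle
  omega

end Pool.Agent.Work.MP_ea8963_ag.G5
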