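import Pool.Agent.Work.MP_ea8963_ag.G5.Stmts

/-!
Item [ea8963 G5 NKB]: nets vanishing on both configurations and on the hyperplane f = 0.
-/

set_option linter.style.longLine false
set_option linter.unusedVariables false

noncomputable section

open Module
open Pool.Agent.Work.MP_ea8963_ag.G4 (pair)

namespace Pool.Agent.Work.MP_ea8963_ag.G5

/-- the linear map of the nets divisible by `f` -/
def NKB_prL (f : E) : (Fin 3 → E) →ₗ[ℂ] T3 where
  toFun r := pr f r
  map_add' r r' := by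
    ext k i j
    simp only [pr, Pi.add_apply]; ring
  map_smul' c r := by
    ext k i j
    simp only [pr, Pi.smul_apply, smul_eq_mul, RingHom.id_apply]; ring

lemma NKB_prL_apply (f : E) (r : Fin 3 → E) : NKB_prL f r = pr f r := rfl

/-- the functional of the coefficients -/
def NKB_val (p : Fin 4 → E) (lam : Fin 4 → La) (r : Fin 3 → E) (al : Fin 4 → ℂ) : ℂ :=
  ∑ i, al i * (con r (lam i) ⬝ᵥ p i)

lemma NKB_con_add (r r' : Fin 3 → E) (a : La) (x : E) :
    con (r + r') a ⬝ᵥ x = con r a ⬝ᵥ x + con r' a ⬝ᵥ x := by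
  simp only [con_dot, Pi.add_apply, add_dotProduct, mul_add, Finset.sum_add_distrib]

lemma NKB_con_smul (c : ℂ) (r : Fin 3 → E) (a : La) (x : E) :
    con (c • r) a ⬝ᵥ x = c * (con r a ⬝ᵥ x) := by
  simp only [con_dot, Pi.smul_apply, smul_dotProduct, smul_eq_mul, Finset.mul_sum]
  refine Finset.sum_congr rfl fun k _ => ?_
  ring

/-- the pairing -/
def NKB_phi (p : Fin 4 → E) (lam : Fin 4 → La) (p' : Fin 4 → E) (lam' : Fin 4 → La) :
    ((Fin 4 → ℂ) × (Fin 4 → ℂ)) →ₗ[ℂ] Dual ℂ (Fin 3 → E) where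
  toFun x :=
    { toFun := fun r => NKB_val p lam r x.1 + NKB_val p' lam' r x.2
      map_add' := fun r r' => by
        simp only [NKB_val, NKB_con_add, mul_add, Finset.sum_add_distrib]; ring
      map_smul' := fun c r => by
        simp only [NKB_val, NKB_con_smul, RingHom.id_apply, smul_eq_mul, mul_add, Finset.mul_sum]
        congr 1 <;> exact Finset.sum_congr rfl fun k _ => by ring }
  map_add' x y := by
    apply LinearMap.ext
    intro r
    change NKB_val p lam r (x.1 + y.1) + NKB_val p' lam' r (x.2 + y.2) =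
      (NKB_val p lam r x.1 + NKB_val p' lam' r x.2) + (NKB_val p lam r y.1 + NKB_val p' lam' r y.2)
    simp only [NKB_val, Pi.add_apply, add_mul, Finset.sum_add_distrib]
    ring
  map_smul' c x := by
    apply LinearMap.ext
    intro r
    change NKB_val p lam r (c • x.1) + NKB_val p' lam' r (c • x.2) =
      c * (NKB_val p lam r x.1 + NKB_val p' lam' r x.2)
    simp only [NKB_val, Pi.smul_apply, smul_eq_mul, mul_add, Finset.mul_sum, mul_assoc]

lemma NKB_phi_apply (p : Fin 4 → E) (lam : Fin 4 → La) (p' : Fin 4 → E) (lam' : Fin 4 → La)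
    (x : (Fin 4 → ℂ) × (Fin 4 → ℂ)) (r : Fin 3 → E) :
    NKB_phi p lam p' lam' x r = NKB_val p lam r x.1 + NKB_val p' lam' r x.2 := rfl

/-- a covector which is not a multiple of `l` is not zero somewhere on the hyperplane `l = 0` -/
lemma NKB_exists {l f q : E} (hf : f ≠ 0) (hlq : l ⬝ᵥ q ≠ 0) (hfq : f ⬝ᵥ q = 0) :
    ∃ v : E, l ⬝ᵥ v = 0 ∧ f ⬝ᵥ v ≠ 0 := by
  by_contra hcon
  push Not at hcon
  have hl : l ≠ 0 := by
    rintro rfl
    exact hlq (zero_dotProduct q)
  have hli : LinearIndependent ℂ ![l] := LinearIndependent.of_subsingleton (0 : Fin 1) hl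
  have h1 : f ∈ Submodule.span ℂ (Set.range ![l]) :=
    mem_span_of_ann hli fun x hx => hcon x (by simpa using hx 0)
  have h2 : Set.range ![l] = {l} := by
    ext z
    simp [Matrix.range_cons, Matrix.range_empty]
  rw [h2, Submodule.mem_span_singleton] at h1
  obtain ⟨c, hc⟩ := h1
  have h3 : c * (l ⬝ᵥ q) = 0 := by
    rw [← smul_eq_mul, ← smul_dotProduct, hc, hfq]
  rcases mul_eq_zero.1 h3 with h4 | h4
  · apply hf
    rw [← hc, h4, zero_smul]
  · exact hlq h4

lemma NKB_cond {l f q : E} {p : Fin 4 → E} {lam : Fin 4 → La} {r : Fin 3 → E} (hf : f ≠ 0)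
    (hlq : l ⬝ᵥ q ≠ 0) (hfq : f ⬝ᵥ q = 0) (hfp : ∀ i, f ⬝ᵥ p i = 0)
    (h : pr f r ∈ KB p l lam) (i : Fin 4) : con r (lam i) ⬝ᵥ p i = 0 := by
  obtain ⟨v, hv1, hv2⟩ := NKB_exists hf hlq hfq
  have h1 := (mem_KB.1 h).2.1 i v hv1
  rw [tri_pr, hfp i, zero_mul, zero_add] at h1
  exact (mul_eq_zero.1 h1).resolve_right hv2

lemma NKB_ker (hRH : RHO) {p : Fin 4 → E} {lam : Fin 4 → La} {p' : Fin 4 → E} {lam' : Fin 4 → La}
    {l' : E} (hp' : LinearIndependent ℂ p') (hgp : GP lam) (hlam' : ∀ i, lam' i ≠ 0)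
    (hl'p' : ∀ i, l' ⬝ᵥ p' i = 0) (hl'p : ∀ i, l' ⬝ᵥ p i ≠ 0) :
    finrank ℂ (LinearMap.ker (NKB_phi p lam p' lam')) ≤ 1 := by
  obtain ⟨ρ, hρ0, hρ, hρu⟩ := hRH lam hgp
  set K := LinearMap.ker (NKB_phi p lam p' lam') with hK
  set ψ : K →ₗ[ℂ] ℂ := (LinearMap.proj (0 : Fin 4)).comp
    ((LinearMap.fst ℂ (Fin 4 → ℂ) (Fin 4 → ℂ)).comp K.subtype) with hψ
  have hinj : Function.Injective ψ := by
    rw [injective_iff_map_eq_zero]
    rintro ⟨⟨al, al'⟩, hx⟩ h0
    have h0' : al 0 = 0 := h0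
    have hx' : ∀ r : Fin 3 → E, NKB_val p lam r al + NKB_val p' lam' r al' = 0 := by
      intro r
      have := congrArg (fun g => g r) (LinearMap.mem_ker.1 hx)
      simpa [NKB_phi_apply] using this
    -- the first coefficients
    have h1 : ∑ i, (al i * (l' ⬝ᵥ p i)) • lam i = 0 := by
      apply eq_zero_of_dot
      intro c
      have h2 := hx' (fun k => c k • l')
      simp only [NKB_val, con_sp, smul_dotProduct, smul_eq_mul, hl'p', mul_zero,
        Finset.sum_const_zero, add_zero] at h2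
      rw [dotProduct_sum, ← h2]
      refine Finset.sum_congr rfl fun i _ => ?_
      rw [dotProduct_smul, smul_eq_mul]
      ring
    obtain ⟨κ, hκ⟩ := hρu _ h1
    have hκ0 : κ = 0 := by
      have h2 := congrFun hκ 0
      simp only [h0', zero_mul, Pi.smul_apply, smul_eq_mul] at h2
      exact (mul_eq_zero.1 h2.symm).resolve_right (hρ0 0)
    have hal : al = 0 := by
      ext i
      have h2 := congrFun hκ i
      simp only [hκ0, zero_smul, Pi.zero_apply] at h2
      exact (mul_eq_zero.1 h2).resolve_right (hl'p i)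
    -- the second coefficients
    obtain ⟨a, ha⟩ := exists_dual hp'
    have hal' : al' = 0 := by
      ext i
      have h2 : ∀ c : La, al' i * (c ⬝ᵥ lam' i) = 0 := by
        intro c
        have h3 := hx' (fun k => c k • a i)
        simp only [NKB_val, con_sp, smul_dotProduct, smul_eq_mul, hal, Pi.zero_apply, zero_mul,
          Finset.sum_const_zero, zero_add, ha, mul_ite, mul_one, mul_zero, Finset.sum_ite_eq,
          Finset.mem_univ, if_true] at h3
        exact h3
      by_contra hne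
      exact hlam' i (eq_zero_of_dot fun c => (mul_eq_zero.1 (h2 c)).resolve_left hne)
    subst hal
    subst hal'
    rfl
  have h2 := LinearMap.finrank_le_finrank_of_injective hinj
  simpa using h2

theorem NKB_pf (hDE : DEC) (hRH : RHO) : NKB := by
  intro p l lam p' l' lam' f hf hp hp' hgp hgp' hlam' hfp hfp' hlp hl'p' hl'p hlp'
  set φ := NKB_phi p lam p' lam' with hφ
  set R : Submodule ℂ (Fin 3 → E) := (LinearMap.range φ).dualCoannihilator with hR
  have hle : (KB p l lam ⊓ KB p' l' lam' ⊓ KU (Ann ![f]) : Submodule ℂ T3) ≤ R.map (NKB_prL f) := by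
    rintro t ⟨⟨ht1, ht2⟩, ht3⟩
    have hfi : LinearIndependent ℂ ![f] := LinearIndependent.of_subsingleton (0 : Fin 1) hf
    obtain ⟨r, hr⟩ := hDE 1 ![f] hfi t ht3
    have hr' : t = pr f (r 0) := by simpa using hr
    refine ⟨r 0, ?_, by rw [NKB_prL_apply, hr']⟩
    rw [hr'] at ht1 ht2
    have h1 : ∀ i, con (r 0) (lam i) ⬝ᵥ p i = 0 :=
      fun i => NKB_cond hf (hlp' 0) (hfp' 0) hfp ht1 i
    have h2 : ∀ i, con (r 0) (lam' i) ⬝ᵥ p' i = 0 :=
      fun i => NKB_cond hf (hl'p 0) (hfp 0) hfp' ht2 i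
    rw [hR, SetLike.mem_coe, Submodule.mem_dualCoannihilator]
    rintro g ⟨x, rfl⟩
    rw [hφ, NKB_phi_apply]
    simp only [NKB_val, h1, h2, mul_zero, Finset.sum_const_zero, add_zero]
  have h1 := Submodule.finrank_mono hle
  have h2 : finrank ℂ (R.map (NKB_prL f)) ≤ finrank ℂ R := Submodule.finrank_map_le _ _
  have h3 := pair φ
  have h4 := NKB_ker hRH hp' hgp hlam' hl'p' hl'p (p := p)
  have h5 : finrank ℂ (Fin 3 → E) = 18 := by
    rw [Module.finrank_pi_fintype]
    simp [E]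
  have h6 : finrank ℂ ((Fin 4 → ℂ) × (Fin 4 → ℂ)) = 8 := by
    rw [Module.finrank_prod]
    simp
  rw [h5, h6] at h3
  rw [← hR] at h3
  have h7 : finrank ℂ (LinearMap.ker φ) ≤ 1 := h4
  omega

end Pool.Agent.Work.MP_ea8963_ag.G5
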