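import Pool.Agent.Work.MP_ea8963_ag.G5.Stmts

/-!
Block [ea8963 G5], item NLX: there is no line in the surface.  helper82.
-/

set_option linter.style.longLine false

noncomputable section

open Module
open Pool.Agent.Work.MP_ea8963_ag.G4 (D ZA mem_ZA Full cl rn rn_prod rn_le finrank_map_mono
  finrank_map_prod_swap pair d_two)

namespace Pool.Agent.Work.MP_ea8963_ag.G5

lemma NLX_minor {u v : E} (h : LinearIndependent ℂ ![u, v]) :
    ∃ i j : Fin 6, u i * v j - u j * v i ≠ 0 := by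
  by_contra hcon
  push Not at hcon
  rw [LinearIndependent.pair_iff] at h
  have hu : ∃ i, u i ≠ 0 := by
    by_contra h0
    push Not at h0
    have h1 : u = 0 := funext h0
    have h2 := h 1 0 (by rw [h1]; simp)
    exact one_ne_zero h2.1
  obtain ⟨i, hi⟩ := hu
  have h2 := h (v i) (-u i) (by
    ext j
    simp only [Pi.add_apply, Pi.smul_apply, smul_eq_mul, Pi.zero_apply]
    linear_combination -hcon i j)
  exact hi (neg_eq_zero.1 h2.2)

/-- symmetric nets which vanish on the plane of `u`, `v` -/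
def NLX_K (u v : E) : Submodule ℂ T3 where
  carrier := {t | t ∈ SymT ∧ ∀ a, tri t a u u = 0 ∧ tri t a u v = 0 ∧ tri t a v v = 0}
  zero_mem' := ⟨SymT.zero_mem, fun a => ⟨tri_zero_tensor _ _ _, tri_zero_tensor _ _ _,
    tri_zero_tensor _ _ _⟩⟩
  add_mem' := by
    rintro x y ⟨h1, h2⟩ ⟨g1, g2⟩
    refine ⟨SymT.add_mem h1 g1, fun a => ⟨?_, ?_, ?_⟩⟩
    · rw [tri_add_tensor, (h2 a).1, (g2 a).1, add_zero]
    · rw [tri_add_tensor, (h2 a).2.1, (g2 a).2.1, add_zero]
    · rw [tri_add_tensor, (h2 a).2.2, (g2 a).2.2, add_zero]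
  smul_mem' := by
    rintro c x ⟨h1, h2⟩
    refine ⟨SymT.smul_mem c h1, fun a => ⟨?_, ?_, ?_⟩⟩
    · rw [tri_smul_tensor, (h2 a).1, mul_zero]
    · rw [tri_smul_tensor, (h2 a).2.1, mul_zero]
    · rw [tri_smul_tensor, (h2 a).2.2, mul_zero]

/-- the functionals `t ↦ t a (u, u) + t b (u, v) + t c (v, v)` -/
def NLX_func (u v : E) : (La × La × La) →ₗ[ℂ] Dual ℂ SymT where
  toFun x :=
    { toFun := fun t => tri (t : T3) x.1 u u + tri (t : T3) x.2.1 u v + tri (t : T3) x.2.2 v v
      map_add' := fun s t => by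
        simp only [Submodule.coe_add, tri_add_tensor]
        ring
      map_smul' := fun c t => by
        simp only [Submodule.coe_smul, tri_smul_tensor, RingHom.id_apply, smul_eq_mul]
        ring }
  map_add' x y := by
    ext t
    simp only [LinearMap.coe_mk, AddHom.coe_mk, LinearMap.add_apply, Prod.fst_add, Prod.snd_add,
      tri_add1]
    ring
  map_smul' c x := by
    ext t
    simp only [LinearMap.coe_mk, AddHom.coe_mk, LinearMap.smul_apply, Prod.smul_fst,
      Prod.smul_snd, tri_smul1, RingHom.id_apply, smul_eq_mul]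
    ring

lemma NLX_func_apply (u v : E) (x : La × La × La) (t : SymT) : NLX_func u v x t =
    tri (t : T3) x.1 u u + tri (t : T3) x.2.1 u v + tri (t : T3) x.2.2 v v := rfl

lemma NLX_ker {u v : E} (h : LinearIndependent ℂ ![u, v]) :
    LinearMap.ker (NLX_func u v) = ⊥ := by
  rw [LinearMap.ker_eq_bot']
  rintro ⟨a, b, c⟩ hx
  obtain ⟨w, hw⟩ := exists_dual h
  have f1 : w 0 ⬝ᵥ u = 1 := by simpa using hw 0 0
  have f2 : w 0 ⬝ᵥ v = 0 := by simpa using hw 0 1
  have f3 : w 1 ⬝ᵥ u = 0 := by simpa using hw 1 0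
  have f4 : w 1 ⬝ᵥ v = 1 := by simpa using hw 1 1
  have key : ∀ t ∈ SymT, tri t a u u + tri t b u v + tri t c v v = 0 := by
    intro t ht
    have h1 := congrArg (fun f : Dual ℂ SymT => f ⟨t, ht⟩) hx
    simpa only [NLX_func_apply, LinearMap.zero_apply] using h1
  have ha : a = 0 := by
    apply eq_zero_of_dot
    intro e
    have h1 := key (sp e (w 0) (w 0)) (sp_mem _ _ _)
    rw [tri_sp, tri_sp, tri_sp, f1, f2] at h1
    linear_combination (1 / 2 : ℂ) * h1
  have hc : c = 0 := by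
    apply eq_zero_of_dot
    intro e
    have h1 := key (sp e (w 1) (w 1)) (sp_mem _ _ _)
    rw [tri_sp, tri_sp, tri_sp, f3, f4] at h1
    linear_combination (1 / 2 : ℂ) * h1
  have hb : b = 0 := by
    apply eq_zero_of_dot
    intro e
    have h1 := key (sp e (w 0) (w 1)) (sp_mem _ _ _)
    rw [tri_sp, tri_sp, tri_sp, f1, f2, f3, f4] at h1
    linear_combination h1
  rw [ha, hb, hc]
  rfl

lemma NLX_map (u v : E) :
    ((LinearMap.range (NLX_func u v)).dualCoannihilator).map SymT.subtype = NLX_K u v := by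
  ext t
  constructor
  · rintro ⟨s, hs, rfl⟩
    have h1 : ∀ x : La × La × La, tri (s : T3) x.1 u u + tri (s : T3) x.2.1 u v +
        tri (s : T3) x.2.2 v v = 0 := fun x =>
      (Submodule.mem_dualCoannihilator _).1 hs (NLX_func u v x) (LinearMap.mem_range_self _ _)
    refine ⟨s.2, fun a => ⟨?_, ?_, ?_⟩⟩
    · have h2 := h1 (a, 0, 0)
      simp only [tri_zero1, add_zero] at h2
      exact h2
    · have h2 := h1 (0, a, 0)
      simp only [tri_zero1, add_zero, zero_add] at h2
      exact h2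
    · have h2 := h1 (0, 0, a)
      simp only [tri_zero1, zero_add] at h2
      exact h2
  · rintro ⟨ht, h⟩
    refine ⟨⟨t, ht⟩, ?_, rfl⟩
    rw [SetLike.mem_coe, Submodule.mem_dualCoannihilator]
    rintro _ ⟨x, rfl⟩
    rw [NLX_func_apply]
    change tri t x.1 u u + tri t x.2.1 u v + tri t x.2.2 v v = 0
    rw [(h _).1, (h _).2.1, (h _).2.2, add_zero, add_zero]

/-- symmetric nets which vanish on a plane: nine conditions -/
lemma NLX_count {u v : E} (h : LinearIndependent ℂ ![u, v]) :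
    finrank ℂ (NLX_K u v) + 9 = finrank ℂ SymT := by
  have h1 := pair (NLX_func u v)
  rw [NLX_ker h, finrank_bot, add_zero] at h1
  have h2 : finrank ℂ (NLX_K u v) =
      finrank ℂ ((LinearMap.range (NLX_func u v)).dualCoannihilator : Submodule ℂ SymT) := by
    rw [← NLX_map]
    exact Submodule.finrank_map_subtype_eq SymT _
  have h3 : finrank ℂ (La × La × La) = 9 := by
    simp
  rw [h2, ← h3]
  exact h1

lemma NLX_core {s : T3} (hs : Gen s) {u v : E} {i j : Fin 6} (hui : u i = 1)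
    (huj : u j = 0) (hvi : v i = 0) (hvj : v j = 1)
    (h1 : ∀ a, tri s a u u = 0) (h2 : ∀ a, tri s a u v = 0) (h3 : ∀ a, tri s a v v = 0) :
    False := by
  have hij : LinearIndependent ℂ ![(Pi.single i 1 : E), (Pi.single j 1 : E)] := by
    rw [LinearIndependent.pair_iff]
    intro a b hab
    have e1 := congrArg (fun x => x ⬝ᵥ u) hab
    have e2 := congrArg (fun x => x ⬝ᵥ v) hab
    simp only [add_dotProduct, smul_dotProduct, single_dotProduct, zero_dotProduct, smul_eq_mul,
      one_mul, hui, huj, hvi, hvj] at e1 e2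
    exact ⟨by linear_combination e1, by linear_combination e2⟩
  have huv : LinearIndependent ℂ ![u, v] := by
    rw [LinearIndependent.pair_iff]
    intro a b hab
    have e1 := congrFun hab i
    have e2 := congrFun hab j
    simp only [Pi.add_apply, Pi.smul_apply, smul_eq_mul, Pi.zero_apply, hui, huj, hvi, hvj] at e1 e2
    exact ⟨by linear_combination e1, by linear_combination e2⟩
  have d0 : ∀ (δ : D), dE δ u i = 0 ∧ dE δ u j = 0 ∧ dE δ v i = 0 ∧ dE δ v j = 0 := by
    intro δ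
    refine ⟨?_, ?_, ?_, ?_⟩
    · simp [dE, hui]
    · simp [dE, huj]
    · simp [dE, hvi]
    · simp [dE, hvj]
  have c1 : finrank ℂ ((⊤ : Submodule ℂ D).map (evE u)) + 2 ≤ 6 := by
    refine finrank_le_of_ann hij ?_
    rintro _ ⟨δ, -, rfl⟩ k
    rw [evE_apply]
    fin_cases k
    · change Pi.single i 1 ⬝ᵥ dE δ u = 0
      rw [single_dotProduct, (d0 δ).1, mul_zero]
    · change Pi.single j 1 ⬝ᵥ dE δ u = 0
      rw [single_dotProduct, (d0 δ).2.1, mul_zero]
  have c2 : finrank ℂ ((⊤ ⊓ LinearMap.ker (evE u) : Submodule ℂ D).map (evE v)) + 2 ≤ 6 := by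
    refine finrank_le_of_ann hij ?_
    rintro _ ⟨δ, -, rfl⟩ k
    rw [evE_apply]
    fin_cases k
    · change Pi.single i 1 ⬝ᵥ dE δ v = 0
      rw [single_dotProduct, (d0 δ).2.2.1, mul_zero]
    · change Pi.single j 1 ⬝ᵥ dE δ v = 0
      rw [single_dotProduct, (d0 δ).2.2.2, mul_zero]
  have c3 : finrank ℂ (((⊤ ⊓ LinearMap.ker (evE u)) ⊓ LinearMap.ker (evE v) :
      Submodule ℂ D).map (evT s)) ≤ finrank ℂ (NLX_K u v) := by
    apply Submodule.finrank_mono
    rintro _ ⟨δ, hδ, rfl⟩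
    have hδu : dE δ u = 0 := LinearMap.mem_ker.1 hδ.1.2
    have hδv : dE δ v = 0 := LinearMap.mem_ker.1 hδ.2
    rw [evT_apply]
    have r : ∀ (a : La) (x y : E), dE δ x = 0 → dE δ y = 0 → (∀ b, tri s b x y = 0) →
        tri (dT δ s) a x y = 0 := by
      intro a x y hx hy h
      have e := d_tri δ s a x y
      rw [h, map_zero, hx, hy, tri_zero2, tri_zero3, add_zero, add_zero, h, add_zero] at e
      exact e.symm
    exact ⟨dT_mem δ hs.1, fun a => ⟨r a u u hδu hδu h1, r a u v hδu hδv h2, r a v v hδv hδv h3⟩⟩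
  have c4 := NLX_count huv
  have c5 := rn_le (evT s) (evE u) ⊤
  rw [hs.map_evT] at c5
  have c6 := rn_le (evT s) (evE v) (⊤ ⊓ LinearMap.ker (evE u))
  omega

theorem NLX_pf : NLX := by
  intro s hs u v hI h1 h2 h3
  obtain ⟨i, j, hd⟩ := NLX_minor hI
  set d := u i * v j - u j * v i with hdd
  have h2' : ∀ a, tri s a v u = 0 := fun a => by rw [tri_comm hs.1]; exact h2 a
  have hT : ∀ (e : La) (a b a' b' : ℂ), tri s e (a • u + b • v) (a' • u + b' • v) = 0 := by
    intro e a b a' b'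
    simp only [tri_add2, tri_add3, tri_smul2, tri_smul3, h1, h2, h2', h3]
    ring
  refine NLX_core hs (u := (d⁻¹ * v j) • u + (-(d⁻¹ * u j)) • v)
    (v := (-(d⁻¹ * v i)) • u + (d⁻¹ * u i) • v) (i := i) (j := j) ?_ ?_ ?_ ?_
    (fun e => hT e _ _ _ _) (fun e => hT e _ _ _ _) (fun e => hT e _ _ _ _)
  · simp only [Pi.add_apply, Pi.smul_apply, smul_eq_mul]
    have : d⁻¹ * d = 1 := inv_mul_cancel₀ hd
    rw [← this, hdd]; ring
  · simp only [Pi.add_apply, Pi.smul_apply, smul_eq_mul]; ring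
  · simp only [Pi.add_apply, Pi.smul_apply, smul_eq_mul]; ring
  · simp only [Pi.add_apply, Pi.smul_apply, smul_eq_mul]
    have : d⁻¹ * d = 1 := inv_mul_cancel₀ hd
    rw [← this, hdd]; ring

end Pool.Agent.Work.MP_ea8963_ag.G5
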