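import Pool.Agent.Work.MP_ea8963_ag.G5.Stmts

/-!
Block [ea8963 G5], item NNX: no hyperplane contains all eight nodes.
-/

set_option linter.style.longLine false

noncomputable section

open Module Topology
open Pool.Agent.Work.MP_ea8963_ag.G4 (D ZA mem_ZA Full cl rn rn_prod rn_le finrank_map_mono
  finrank_map_prod_swap pair d_two ZA_mono)

namespace Pool.Agent.Work.MP_ea8963_ag.G5

lemma NNX_span_zero {p : Fin 4 → E} {f : E} (hf : ∀ i, f ⬝ᵥ p i = 0) {x : E}
    (hx : x ∈ Submodule.span ℂ (Set.range p)) : f ⬝ᵥ x = 0 := by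
  induction hx using Submodule.span_induction with
  | mem x h =>
    obtain ⟨i, rfl⟩ := h
    exact hf i
  | zero => simp
  | add x y _ _ h1 h2 => rw [dotProduct_add, h1, h2, add_zero]
  | smul c x _ h1 => rw [dotProduct_smul, h1, smul_zero]

/-- the derivatives of `f` -/
lemma NNX_ev_f_le {p : Fin 4 → E} {l : E} {lam : Fin 4 → La} {f : E} (hp : LinearIndependent ℂ p)
    {j : Fin 6} (hj : f j = 1) (hf : ∀ i, f ⬝ᵥ p i = 0) :
    finrank ℂ ((ZC p l lam).map (evE f)) ≤ 1 := by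
  have hind : LinearIndependent ℂ (Fin.cons (Pi.single j (1 : ℂ)) p : Fin 5 → E) := by
    refine linearIndependent_finCons.2 ⟨hp, fun h => ?_⟩
    have h1 := NNX_span_zero hf h
    rw [dotProduct_single_one, hj] at h1
    exact one_ne_zero h1
  have h := finrank_le_of_ann hind (U := (ZC p l lam).map (evE f)) ?_
  · omega
  · rintro _ ⟨δ, hδ, rfl⟩ i
    have hδ' := mem_ZC.1 hδ
    refine Fin.cases ?_ (fun i => ?_) i
    · rw [Fin.cons_zero, single_one_dotProduct, evE_apply, dE, hj]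
      exact δ.map_one_eq_zero
    · rw [Fin.cons_succ, evE_apply, dotProduct_comm]
      have h1 := d_dot δ f (p i)
      rw [hf i, map_zero, hδ'.1 i, dotProduct_zero, add_zero] at h1
      exact h1.symm

/-- dimension of the image in a quotient -/
lemma NNX_mkQ (A K : Submodule ℂ T3) :
    finrank ℂ (A.map K.mkQ) + finrank ℂ (A ⊓ K : Submodule ℂ T3) = finrank ℂ A := by
  have h := rn K.mkQ (LinearMap.id : T3 →ₗ[ℂ] T3) A
  rw [Submodule.ker_mkQ, Submodule.map_id, Submodule.map_id, LinearMap.ker_id, inf_bot_eq,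
    Submodule.map_bot, finrank_bot, add_zero] at h
  exact h

/-- the space of the elements `((c i • p' i), c • l' + d • f), 0)` -/
def NNX_par (p' : Fin 4 → E) (l' f : E) :
    ((Fin 4 → ℂ) × (ℂ × ℂ)) →ₗ[ℂ] (((Fin 4 → E) × E) × (Fin 4 → La)) where
  toFun x := ((fun i => x.1 i • p' i, x.2.1 • l' + x.2.2 • f), 0)
  map_add' x y := by
    ext i j
    · simp [add_mul]
    · simp only [Prod.snd_add, Prod.fst_add, Pi.add_apply, Pi.smul_apply, smul_eq_mul]; ring
    · simp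
  map_smul' c x := by
    ext i j
    · simp [mul_assoc]
    · simp only [Prod.smul_snd, Prod.smul_fst, Pi.add_apply, Pi.smul_apply, smul_eq_mul,
        RingHom.id_apply]; ring
    · simp

lemma NNX_par_le (p' : Fin 4 → E) (l' f : E) :
    finrank ℂ (LinearMap.range (NNX_par p' l' f)) ≤ 6 := by
  refine (LinearMap.finrank_range_le _).trans ?_
  simp

/-- CUX for the second configuration -/
lemma NNX_ev_le (hCU : CUX) {s : T3} (hs : s ∈ SymT) {p' : Fin 4 → E} {l' : E}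
    {lam' : Fin 4 → La} {m' : Fin 4 → ℂ} (h' : Opt s p' l' lam' m') {f : E}
    (hf' : ∀ i, f ⬝ᵥ p' i = 0) (hli : LinearIndependent ℂ ![l', f]) (W : Submodule ℂ D)
    (hW : ∀ δ ∈ W, dE δ f = 0 ∧ dT δ s ∈ KU (Ann ![f])) :
    finrank ℂ (W.map (evC p' l' lam')) ≤ 6 := by
  refine le_trans (Submodule.finrank_mono ?_) (NNX_par_le p' l' f)
  rintro _ ⟨δ, hδ, rfl⟩
  obtain ⟨h1, h2⟩ := hW δ hδ
  obtain ⟨h3, h4, c, d, h5⟩ := hCU s hs p' l' lam' m' h' f hf' hli δ h1 h2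
  choose e he using h3
  refine ⟨(e, (c, d)), ?_⟩
  refine Prod.ext (Prod.ext (funext fun i => ?_) ?_) (funext fun i => ?_)
  · exact (he i).symm
  · exact h5.symm
  · exact (h4 i).symm

lemma NNX_prop {lam : Fin 4 → La} (hg : GP lam) (i k : Fin 4) (hik : i ≠ k) (c : ℂ) :
    lam i ≠ c • lam k := by
  intro h
  have key : ∀ i k : Fin 4, ∃ j : Fin 4, i ≠ j ∧ k ≠ j := by decide
  obtain ⟨j, h1, h2⟩ := key i k
  have h3 := hg i k j hik h1 h2
  rw [h, dt_smul1, dt_self12, mul_zero] at h3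
  exact h3 rfl

lemma NNX_main (hDK : DKB) (hCU : CUX) (hNA : NKA) (hNB : NKB) {s : T3} (hs : Gen s)
    {p : Fin 4 → E} {l : E} {lam : Fin 4 → La} {m : Fin 4 → ℂ}
    {p' : Fin 4 → E} {l' : E} {lam' : Fin 4 → La} {m' : Fin 4 → ℂ} (h : Opt s p l lam m)
    (h' : Opt s p' l' lam' m') (h6 : 6 ≤ finrank ℂ ((ZS s ⊓ ZB p l).map (evB p' l')))
    (hl' : ∀ i, l' ⬝ᵥ p i ≠ 0) (hl : ∀ i, l ⬝ᵥ p' i ≠ 0) {f : E} {j : Fin 6} (hj : f j = 1)
    (hf : ∀ i, f ⬝ᵥ p i = 0) (hf' : ∀ i, f ⬝ᵥ p' i = 0) : False := by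
  have hf0 : f ≠ 0 := by
    rintro rfl
    simp at hj
  have hlam : ∀ i, lam i ≠ 0 := fun i h0 => by
    have := h.nrm i
    rw [h0] at this
    simp at this
  have hlam' : ∀ i, lam' i ≠ 0 := fun i h0 => by
    have := h'.nrm i
    rw [h0] at this
    simp at this
  have hli : LinearIndependent ℂ ![l', f] := by
    rw [LinearIndependent.pair_iff]
    intro a b hab
    have h3 := congrArg (fun x => x ⬝ᵥ p 0) hab
    simp only [add_dotProduct, smul_dotProduct, zero_dotProduct, smul_eq_mul,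
      hf 0, mul_zero, add_zero] at h3
    have ha : a = 0 := (mul_eq_zero.1 h3).resolve_right (hl' 0)
    refine ⟨ha, ?_⟩
    rw [ha, zero_smul, zero_add] at hab
    exact (smul_eq_zero.1 hab).resolve_right hf0
  set W : Submodule ℂ D := ZC p l lam with hW
  set F := (evT s).prod (evC p' l' lam') with hF
  -- (1)
  have a1 : finrank ℂ (W.map F) = finrank ℂ (W.map (evT s)) +
      finrank ℂ ((W ⊓ LinearMap.ker (evT s)).map (evC p' l' lam') :
      Submodule ℂ (((Fin 4 → E) × E) × (Fin 4 → La))) := rn_prod (evT s) (evC p' l' lam') W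
  have a2 : finrank ℂ SymT ≤ finrank ℂ (W.map (evT s)) + 28 := h.rkS
  have a3 : 6 ≤ finrank ℂ ((W ⊓ LinearMap.ker (evT s)).map (evC p' l' lam') :
      Submodule ℂ (((Fin 4 → E) × E) × (Fin 4 → La))) := by
    refine h6.trans ?_
    have e : (ZS s ⊓ ZB p l).map (evB p' l') = ((ZS s ⊓ ZB p l).map (evC p' l' lam')).map
        (LinearMap.fst ℂ ((Fin 4 → E) × E) (Fin 4 → La)) := by
      rw [← Submodule.map_comp]
      rfl
    rw [e]
    refine (Submodule.finrank_map_le _ _).trans ?_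
    exact finrank_map_mono _ h.inf_le_ZC
  -- (2)
  have b1 := rn_le F (evE f) W
  have b2 : finrank ℂ (W.map (evE f)) ≤ 1 := NNX_ev_f_le h.ind hj hf
  set W1 : Submodule ℂ D := W ⊓ LinearMap.ker (evE f) with hW1
  -- (3)
  set K : Submodule ℂ T3 := KU (Ann ![f]) with hK
  set g := K.mkQ.comp (evT s) with hg
  have c1 := rn_le F g W1
  have c2 : finrank ℂ (W1.map g) ≤ finrank ℂ ((KB p l lam).map K.mkQ) := by
    refine Submodule.finrank_mono ?_
    rintro _ ⟨δ, hδ, rfl⟩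
    exact ⟨dT δ s, h.dT_mem_KB hs.1 hδ.1, rfl⟩
  have c3 := NNX_mkQ (KB p l lam) K
  have c4 := (hDK p l lam h.ind h.l0 h.lp hlam (NNX_prop h.gp)).1
  have c5 : 14 ≤ finrank ℂ (KB p l lam ⊓ K : Submodule ℂ T3) := hNA p l lam f hf0 hf
  set W2 : Submodule ℂ D := W1 ⊓ LinearMap.ker g with hW2
  -- (4)
  have d1 : finrank ℂ (W2.map F) = finrank ℂ (W2.map (evC p' l' lam')) +
      finrank ℂ ((W2 ⊓ LinearMap.ker (evC p' l' lam')).map (evT s) : Submodule ℂ T3) := by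
    rw [hF, finrank_map_prod_swap, rn_prod]
  have hgK : ∀ δ ∈ W2, dT δ s ∈ K := by
    intro δ hδ
    have h1 : K.mkQ (dT δ s) = 0 := hδ.2
    rwa [Submodule.mkQ_apply, Submodule.Quotient.mk_eq_zero] at h1
  have d2 : finrank ℂ (W2.map (evC p' l' lam')) ≤ 6 :=
    NNX_ev_le hCU hs.1 h' hf' hli W2 fun δ hδ => ⟨hδ.1.2, hgK δ hδ⟩
  have d3 : finrank ℂ ((W2 ⊓ LinearMap.ker (evC p' l' lam')).map (evT s) : Submodule ℂ T3)
      ≤ 11 := by
    refine le_trans (Submodule.finrank_mono ?_) (hNB p l lam p' l' lam' f hf0 h.ind h'.ind h.gp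
      h'.gp hlam' hf hf' h.lp h'.lp hl' hl)
    rintro _ ⟨δ, hδ, rfl⟩
    exact ⟨⟨h.dT_mem_KB hs.1 hδ.1.1.1, h'.dT_mem_KB hs.1 hδ.2⟩, hgK δ hδ.1⟩
  omega

theorem NNX_pf (hDK : DKB) (hCU : CUX) (hNA : NKA) (hNB : NKB) : NNX := by
  intro s hs p l lam m p' l' lam' m' h h' h6 hl' hl f hf0 hf hf'
  obtain ⟨j, hj⟩ : ∃ j, f j ≠ 0 := by
    by_contra hcon
    push Not at hcon
    exact hf0 (funext hcon)
  refine NNX_main hDK hCU hNA hNB hs h h' h6 hl' hl (f := (f j)⁻¹ • f) (j := j) ?_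
    (fun i => ?_) (fun i => ?_)
  · simp [hj]
  · rw [smul_dotProduct, hf i, smul_zero]
  · rw [smul_dotProduct, hf' i, smul_zero]

end Pool.Agent.Work.MP_ea8963_ag.G5
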