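import Pool.Agent.Work.MP_ea8963_ag.G5.Stmts2

/-!
Item NOX: the node condition is open.
-/

set_option linter.style.longLine false
set_option linter.unusedVariables false

noncomputable section

open Module Topology

namespace Pool.Agent.Work.MP_ea8963_ag.G5

namespace I_NOX

abbrev Z : Type := T3 × E × La
abbrev Tg : Type := (Fin 3 → ℂ) × E × ℂ

/-- the linear map `v ↦ (tri s e_k p v, cov s a v, v j)` -/
def L (j : Fin 6) (z : Z) : E →ₗ[ℂ] Tg where
  toFun v := (fun k => tri z.1 (Pi.single k 1) z.2.1 v, cov z.1 z.2.2 v, v j)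
  map_add' v w := by
    simp only [tri_add3, cov_add_right, Pi.add_apply, Prod.mk_add_mk]
    rfl
  map_smul' c v := by
    simp only [tri_smul3, cov_smul_right, Pi.smul_apply, smul_eq_mul, Prod.smul_mk,
      RingHom.id_apply]
    rfl

/-- the images of the basis vectors -/
def F (j : Fin 6) (z : Z) : Fin 6 ⊕ Fin 3 → Tg
  | .inl i => L j z (Pi.single i 1)
  | .inr k => (0, cov z.1 (Pi.single k 1) z.2.1, 0)

lemma sum_F (j : Fin 6) (z : Z) (g : Fin 6 ⊕ Fin 3 → ℂ) :
    ∑ i, g i • F j z i = (fun k => tri z.1 (Pi.single k 1) z.2.1 (fun i => g (.inl i)),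
      cov z.1 z.2.2 (fun i => g (.inl i)) + cov z.1 (fun i => g (.inr i)) z.2.1, g (.inl j)) := by
  rw [Fintype.sum_sum_type]
  have h1 : ∑ i : Fin 6, g (.inl i) • F j z (.inl i) = L j z (fun i => g (.inl i)) := by
    have h2 : (fun i => g (.inl i) : E) = ∑ i : Fin 6, g (.inl i) • (Pi.single i 1 : E) := by
      exact pi_eq_sum_univ' _
    conv_rhs => rw [h2]
    rw [map_sum]
    refine Finset.sum_congr rfl fun i _ => ?_
    rw [map_smul]
    rfl
  have h3 : ∑ k : Fin 3, g (.inr k) • F j z (.inr k)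
      = (0, cov z.1 (fun i => g (.inr i)) z.2.1, 0) := by
    have h2 : (fun i => g (.inr i) : La) = ∑ i : Fin 3, g (.inr i) • (Pi.single i 1 : La) := by
      exact pi_eq_sum_univ' _
    conv_rhs => rw [h2, cov_sum_left]
    simp only [F, Prod.smul_mk, smul_zero, cov_smul_left, Fin.sum_univ_three, Prod.mk_add_mk,
      add_zero]
  rw [h1, h3]
  simp only [L, LinearMap.coe_mk, AddHom.coe_mk, Prod.mk_add_mk, add_zero]

lemma cont_cov : Continuous fun z : T3 × La × E => cov z.1 z.2.1 z.2.2 := by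
  unfold cov
  fun_prop

lemma cont_dot : Continuous fun z : E × E => z.1 ⬝ᵥ z.2 := by
  unfold dotProduct
  fun_prop

lemma cont_F (j : Fin 6) : Continuous (F j) := by
  have hc : ∀ v : E, Continuous fun z : Z => cov z.1 z.2.2 v := fun v =>
    cont_cov.comp (f := fun z : Z => (z.1, z.2.2, v)) (by fun_prop)
  have hc' : ∀ e : La, Continuous fun z : Z => cov z.1 e z.2.1 := fun e =>
    cont_cov.comp (f := fun z : Z => (z.1, e, z.2.1)) (by fun_prop)
  refine continuous_pi fun i => ?_
  rcases i with i | i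
  · simp only [F, L, LinearMap.coe_mk, AddHom.coe_mk]
    have h2 : ∀ k, Continuous fun z : Z => tri z.1 (Pi.single k 1) z.2.1 (Pi.single i 1 : E) :=
      fun k => cont_dot.comp ((hc' _).prodMk continuous_const)
    have h3 := hc (Pi.single i 1)
    fun_prop
  · simp only [F]
    have h3 := hc' (Pi.single i 1)
    fun_prop

lemma tri_all (s : T3) (p v : E) (h : ∀ k : Fin 3, tri s (Pi.single k 1) p v = 0) (e : La) :
    tri s e p v = 0 := by
  have h2 : e = ∑ i : Fin 3, e i • (Pi.single i 1 : La) := pi_eq_sum_univ' _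
  rw [h2, tri_sum1]
  exact Finset.sum_eq_zero fun i _ => by rw [tri_smul1, h, mul_zero]

lemma li_of_nd (j : Fin 6) (z : Z) (hj : z.2.1 j ≠ 0) (h : Nd z.1 z.2.1 z.2.2) :
    LinearIndependent ℂ (F j z) := by
  rw [Fintype.linearIndependent_iff]
  intro g hg
  rw [sum_F] at hg
  simp only [Prod.mk_eq_zero] at hg
  obtain ⟨h1, h2, h3⟩ := hg
  obtain ⟨c, hc⟩ := h.ker _ _ (tri_all _ _ _ fun k => congrFun h1 k) h2
  have h5 : c * z.2.1 j = 0 := by
    have := congrFun hc j
    simp only [Pi.smul_apply, smul_eq_mul] at this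
    rw [← this, h3]
  have h6 : c = 0 := (mul_eq_zero.1 h5).resolve_right hj
  rw [h6, zero_smul] at hc
  rw [hc, cov_zero_right, zero_add] at h2
  have h7 := h.rank _ h2
  rintro (i | i)
  · exact congrFun hc i
  · exact congrFun h7 i

lemma nd_of_li (j : Fin 6) (z : Z) (hj : z.2.1 j ≠ 0) (h : LinearIndependent ℂ (F j z))
    (h1 : ∀ e : La, tri z.1 e z.2.1 z.2.1 = 0) : Nd z.1 z.2.1 z.2.2 := by
  rw [Fintype.linearIndependent_iff] at h
  have key : ∀ (v : E) (c : La), (∀ e : La, tri z.1 e z.2.1 v = 0) →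
      cov z.1 z.2.2 v + cov z.1 c z.2.1 = 0 → v j = 0 → v = 0 ∧ c = 0 := by
    intro v c e1 e2 e3
    have e5 := h (Sum.elim v c) (by
      rw [sum_F]
      simp only [Sum.elim_inl, Sum.elim_inr]
      simp only [Prod.mk_eq_zero]
      exact ⟨funext fun k => e1 _, e2, e3⟩)
    exact ⟨funext fun i => e5 (.inl i), funext fun i => e5 (.inr i)⟩
  constructor
  · intro c hc
    exact (key 0 c (fun e => tri_zero3 _ _ _) (by rw [cov_zero_right, zero_add, hc]) rfl).2
  · intro v c e1 e2
    refine ⟨v j / z.2.1 j, ?_⟩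
    set x := v j / z.2.1 j with hx
    have e := key (v - x • z.2.1) (c + x • z.2.2)
      (fun e => by rw [tri_sub3, tri_smul3, e1, h1]; ring)
      (by
        rw [← e2, cov_sub_right, cov_smul_right, cov_add_left, cov_smul_left]
        module)
      (by
        simp only [Pi.sub_apply, Pi.smul_apply, smul_eq_mul]
        rw [hx, div_mul_cancel₀ _ hj, sub_self])
    exact sub_eq_zero.1 e.1

end I_NOX

theorem NOX_pf : NOX := by
  intro s p a h
  have hp : p ≠ 0 := by
    rintro rfl
    have h1 := h.rank 1 (cov_zero_right _ _)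
    exact one_ne_zero h1
  obtain ⟨j, hj⟩ : ∃ j, p j ≠ 0 := by
    by_contra hc
    push Not at hc
    exact hp (funext hc)
  have h1 := I_NOX.li_of_nd j (s, p, a) hj h
  have h2 : ∀ᶠ z in 𝓝 ((s, p, a) : I_NOX.Z), LinearIndependent ℂ (I_NOX.F j z) :=
    ((I_NOX.cont_F j).continuousAt).eventually (isOpen_setOfPred_linearIndependent.mem_nhds h1)
  have h3 : ∀ᶠ z in 𝓝 ((s, p, a) : I_NOX.Z), z.2.1 j ≠ 0 := by
    have hc : Continuous fun z : I_NOX.Z => z.2.1 j := by fun_prop
    exact hc.continuousAt.eventually_ne hj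
  filter_upwards [h2, h3] with z h2 h3 h4
  exact I_NOX.nd_of_li j z h3 h2 h4

end Pool.Agent.Work.MP_ea8963_ag.G5
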