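import Pool.Agent.Work.MP_ea8963_ag.G5.Stmts

/-!
Block [ea8963 G5], item NPX: there is no plane on which the net has rank at most one.
Author helper9.
-/

set_option linter.style.longLine false

noncomputable section

open Module
open Pool.Agent.Work.MP_ea8963_ag.G4 (D rn_le)

namespace Pool.Agent.Work.MP_ea8963_ag.G5

/-- a linearly independent family has a basis of its span with an identity submatrix -/
lemma NPX_norm {k n : ℕ} {v : Fin k → Fin n → ℂ} (hv : LinearIndependent ℂ v) :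
    ∃ (G : Fin k → Fin k → ℂ) (c : Fin k → Fin n), Function.Injective c ∧
      ∀ i j, (∑ l, G i l • v l) (c j) = if i = j then 1 else 0 := by
  have hsur := dotL_surjective hv
  obtain ⟨κ, a, ha, hsp, hli⟩ := exists_linearIndependent' ℂ (fun (j : Fin n) (i : Fin k) => v i j)
  have htop : Submodule.span ℂ (Set.range (fun (j : Fin n) (i : Fin k) => v i j)) = ⊤ := by
    rw [eq_top_iff]
    rintro y -
    obtain ⟨x, rfl⟩ := hsur y
    have h1 : dotL v x = ∑ j, x j • (fun (i : Fin k) => v i j) := by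
      ext i
      rw [dotL_apply, dotProduct]
      simp [mul_comm]
    rw [h1]
    exact Submodule.sum_mem _ fun j _ => Submodule.smul_mem _ _ (Submodule.subset_span ⟨j, rfl⟩)
  have : Finite κ := Finite.of_injective a ha
  have := Fintype.ofFinite κ
  have hb := Module.finrank_eq_card_basis (Basis.mk hli (by rw [hsp, htop]))
  rw [Module.finrank_fintype_fun_eq_card, Fintype.card_fin] at hb
  have e : κ ≃ Fin k := Fintype.equivFinOfCardEq hb.symm
  set c : Fin k → Fin n := a ∘ e.symm with hc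
  set M : Matrix (Fin k) (Fin k) ℂ := Matrix.of fun i j => v i (c j) with hM
  have hM1 : LinearIndependent ℂ M.col := hli.comp e.symm e.symm.injective
  have hU : IsUnit M := Matrix.linearIndependent_cols_iff_isUnit.1 hM1
  refine ⟨(M⁻¹ : Matrix (Fin k) (Fin k) ℂ), c, ha.comp e.symm.injective, fun i j => ?_⟩
  have h1 : M⁻¹ * M = 1 := Matrix.nonsing_inv_mul M ((Matrix.isUnit_iff_isUnit_det M).1 hU)
  have h2 := congrFun (congrFun h1 i) j
  rw [Matrix.mul_apply, Matrix.one_apply] at h2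
  rw [← h2, Finset.sum_apply]
  refine Finset.sum_congr rfl fun l _ => ?_
  have h3 : M l j = v l (c j) := rfl
  rw [h3, Pi.smul_apply, smul_eq_mul]

/-- a normalised vector has few derivatives -/
lemma NPX_cnt {k n : ℕ} {c : Fin k → Fin n} (hc : Function.Injective c) {x : Fin n → ℂ}
    (hx : ∀ (δ : D) (j : Fin k), δ (x (c j)) = 0) (W : Submodule ℂ D) :
    finrank ℂ (W.map (evE x)) + k ≤ n := by
  have hI : LinearIndependent ℂ (fun j : Fin k => (Pi.single (c j) 1 : Fin n → ℂ)) := by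
    have h1 := (Pi.basisFun ℂ (Fin n)).linearIndependent.comp c hc
    have h2 : (Pi.basisFun ℂ (Fin n)) ∘ c = fun j : Fin k => (Pi.single (c j) 1 : Fin n → ℂ) := by
      funext j
      simp
    rwa [h2] at h1
  refine finrank_le_of_ann hI ?_
  rintro _ ⟨δ, -, rfl⟩ j
  rw [evE_apply, single_dotProduct, one_mul]
  exact hx δ j

/-- the pairs `i ≤ j` -/
abbrev NPX_Q : Type := {q : Fin 3 × Fin 3 // q.1 ≤ q.2}

/-- the twelve conditions -/
def NPX_Psi (u : Fin 3 → E) (A : Fin 2 → La) : SymT →ₗ[ℂ] (Fin 2 × NPX_Q → ℂ) :=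
  LinearMap.pi fun z => (triL (A z.1) (u z.2.1.1) (u z.2.1.2)).comp SymT.subtype

lemma NPX_Psi_apply (u : Fin 3 → E) (A : Fin 2 → La) (t : SymT) (z : Fin 2 × NPX_Q) :
    NPX_Psi u A t z = tri t.1 (A z.1) (u z.2.1.1) (u z.2.1.2) := rfl

lemma NPX_surj {u : Fin 3 → E} {A : Fin 2 → La} (hu : LinearIndependent ℂ u)
    (hA : LinearIndependent ℂ A) : Function.Surjective (NPX_Psi u A) := by
  intro y
  obtain ⟨f, hf⟩ := exists_dual hu
  obtain ⟨e, he⟩ := exists_dual hA
  have hle : ∀ i j : Fin 3, min i j ≤ max i j := fun i j => min_le_max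
  set X : Fin 2 → Fin 3 → Fin 3 → ℂ := fun m i j => y (m, ⟨(min i j, max i j), hle i j⟩) with hX
  have hXs : ∀ m i j, X m j i = X m i j := by
    intro m i j
    simp only [hX, min_comm j i, max_comm j i]
  set t : T3 := ∑ m, ∑ i, ∑ j, (X m i j / 2) • sp (e m) (f i) (f j) with ht
  have htS : t ∈ SymT := Submodule.sum_mem _ fun m _ => Submodule.sum_mem _ fun i _ =>
    Submodule.sum_mem _ fun j _ => Submodule.smul_mem _ _ (sp_mem _ _ _)
  refine ⟨⟨t, htS⟩, ?_⟩
  funext z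
  rw [NPX_Psi_apply]
  obtain ⟨m, ⟨⟨k, l⟩, hkl⟩⟩ := z
  change tri t (A m) (u k) (u l) = _
  have h1 : tri t (A m) (u k) (u l) = (X m k l + X m l k) / 2 := by
    rw [← triL_apply, ht]
    simp only [map_sum, map_smul, triL_apply, tri_sp, hf, he, smul_eq_mul]
    fin_cases m <;> fin_cases k <;> fin_cases l <;>
      simp [Fin.sum_univ_succ] <;> ring
  rw [h1, hXs m k l, add_self_div_two]
  change y (m, ⟨(min k l, max k l), _⟩) = y (m, ⟨(k, l), hkl⟩)
  congr 3
  rw [min_eq_left hkl, max_eq_right hkl]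

lemma NPX_core {s : T3} (hs : Gen s) {u : Fin 3 → E} {A : Fin 2 → La} {c : Fin 3 → Fin 6}
    {d : Fin 2 → Fin 3} (hc : Function.Injective c) (hd : Function.Injective d)
    (hu : ∀ i j, u i (c j) = if i = j then 1 else 0)
    (hA : ∀ i j, A i (d j) = if i = j then 1 else 0)
    (h : ∀ m i j, tri s (A m) (u i) (u j) = 0) : False := by
  have huI : LinearIndependent ℂ u := by
    rw [Fintype.linearIndependent_iff]
    intro g hg j
    have h1 := congrFun hg (c j)
    simpa [Finset.sum_apply, hu] using h1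
  have hAI : LinearIndependent ℂ A := by
    rw [Fintype.linearIndependent_iff]
    intro g hg j
    have h1 := congrFun hg (d j)
    simpa [Finset.sum_apply, hA] using h1
  have du : ∀ (i : Fin 3) (δ : D) (j : Fin 3), δ (u i (c j)) = 0 := by
    intro i δ j
    rw [hu]
    split_ifs
    · exact Derivation.map_one_eq_zero δ
    · exact map_zero δ
  have dA : ∀ (i : Fin 2) (δ : D) (j : Fin 2), δ (A i (d j)) = 0 := by
    intro i δ j
    rw [hA]
    split_ifs
    · exact Derivation.map_one_eq_zero δ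
    · exact map_zero δ
  have c0 := rn_le (evT s) (evE (u 0)) ⊤
  have c1 := rn_le (evT s) (evE (u 1)) (⊤ ⊓ LinearMap.ker (evE (u 0)))
  have c2 := rn_le (evT s) (evE (u 2)) (⊤ ⊓ LinearMap.ker (evE (u 0)) ⊓ LinearMap.ker (evE (u 1)))
  have c3 := rn_le (evT s) (evE (A 0)) (⊤ ⊓ LinearMap.ker (evE (u 0)) ⊓ LinearMap.ker (evE (u 1)) ⊓
    LinearMap.ker (evE (u 2)))
  have c4 := rn_le (evT s) (evE (A 1)) (⊤ ⊓ LinearMap.ker (evE (u 0)) ⊓ LinearMap.ker (evE (u 1)) ⊓
    LinearMap.ker (evE (u 2)) ⊓ LinearMap.ker (evE (A 0)))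
  have b0 := NPX_cnt hc (du 0) ⊤
  have b1 := NPX_cnt hc (du 1) (⊤ ⊓ LinearMap.ker (evE (u 0)))
  have b2 := NPX_cnt hc (du 2) (⊤ ⊓ LinearMap.ker (evE (u 0)) ⊓ LinearMap.ker (evE (u 1)))
  have b3 := NPX_cnt hd (dA 0) (⊤ ⊓ LinearMap.ker (evE (u 0)) ⊓ LinearMap.ker (evE (u 1)) ⊓
    LinearMap.ker (evE (u 2)))
  have b4 := NPX_cnt hd (dA 1) (⊤ ⊓ LinearMap.ker (evE (u 0)) ⊓ LinearMap.ker (evE (u 1)) ⊓
    LinearMap.ker (evE (u 2)) ⊓ LinearMap.ker (evE (A 0)))
  rw [hs.map_evT] at c0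
  -- the last space
  have h5 : finrank ℂ ((⊤ ⊓ LinearMap.ker (evE (u 0)) ⊓ LinearMap.ker (evE (u 1)) ⊓
      LinearMap.ker (evE (u 2)) ⊓ LinearMap.ker (evE (A 0)) ⊓ LinearMap.ker (evE (A 1)) :
      Submodule ℂ D).map (evT s)) ≤ finrank ℂ (LinearMap.ker (NPX_Psi u A)) := by
    rw [← Submodule.finrank_map_subtype_eq SymT (LinearMap.ker (NPX_Psi u A))]
    apply Submodule.finrank_mono
    rintro _ ⟨δ, hδ, rfl⟩
    obtain ⟨⟨⟨⟨⟨-, e0⟩, e1⟩, e2⟩, e3⟩, e4⟩ := hδ
    have hu0 : ∀ i, dE δ (u i) = 0 := by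
      intro i
      fin_cases i
      · exact LinearMap.mem_ker.1 e0
      · exact LinearMap.mem_ker.1 e1
      · exact LinearMap.mem_ker.1 e2
    have hA0 : ∀ i, dE δ (A i) = 0 := by
      intro i
      fin_cases i
      · exact LinearMap.mem_ker.1 e3
      · exact LinearMap.mem_ker.1 e4
    refine ⟨⟨dT δ s, dT_mem δ hs.1⟩, ?_, rfl⟩
    rw [SetLike.mem_coe, LinearMap.mem_ker]
    funext z
    rw [NPX_Psi_apply, Pi.zero_apply]
    have h1 := d_tri δ s (A z.1) (u z.2.1.1) (u z.2.1.2)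
    rw [h, map_zero, hA0, hu0, hu0, tri_zero1, tri_zero2, tri_zero3, add_zero, add_zero,
      add_zero] at h1
    exact h1.symm
  have h6 := LinearMap.finrank_range_add_finrank_ker (NPX_Psi u A)
  rw [LinearMap.range_eq_top.2 (NPX_surj huI hAI), finrank_top,
    Module.finrank_fintype_fun_eq_card] at h6
  have h7 : Fintype.card (Fin 2 × NPX_Q) = 12 := by decide
  omega

theorem NPX_pf : NPX := by
  intro s hs u a b hu hab h1 h2
  obtain ⟨G, c, hc, hG⟩ := NPX_norm hu
  obtain ⟨H, d, hd, hH⟩ := NPX_norm hab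
  refine NPX_core hs hc hd hG hH ?_
  intro m i j
  have h3 : ∀ (k : Fin 2) (i j : Fin 3), tri s (![a, b] k) (u i) (u j) = 0 := by
    intro k i j
    fin_cases k
    · exact h1 i j
    · exact h2 i j
  simp only [tri_sum1, tri_sum2, tri_sum3, tri_smul1, tri_smul2, tri_smul3, h3, mul_zero,
    Finset.sum_const_zero]

end Pool.Agent.Work.MP_ea8963_ag.G5
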