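import Pool.Agent.Work.MP_ea8963_ag.G5.Stmts

/-!
Item NSX of the block [ea8963 G5]: normalised parameters.
-/

set_option linter.style.longLine false

noncomputable section

open Module Topology
open Pool.Agent.Work.MP_ea8963_ag.G4 (D ZA mem_ZA Full cl rn rn_prod rn_le finrank_map_mono
  finrank_map_prod_swap pair d_two ZA_mono)

namespace Pool.Agent.Work.MP_ea8963_ag.G5

/-- a covector which kills the hyperplane `l = 0` is a multiple of `l` -/
lemma NSX_mult {l v : E} (hl : l ≠ 0) (h : ∀ x : E, l ⬝ᵥ x = 0 → v ⬝ᵥ x = 0) :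
    ∃ c : ℂ, v = c • l := by
  obtain ⟨j, hj⟩ : ∃ j, l j ≠ 0 := by
    by_contra hcon
    push Not at hcon
    exact hl (funext hcon)
  refine ⟨v j * (l j)⁻¹, funext fun k => ?_⟩
  have h1 := h (l j • Pi.single k (1 : ℂ) - l k • Pi.single j (1 : ℂ)) (by
    simp only [dotProduct_sub, dotProduct_smul, dotProduct_single, smul_eq_mul, mul_one]
    ring)
  simp only [dotProduct_sub, dotProduct_smul, dotProduct_single, smul_eq_mul, mul_one] at h1
  rw [Pi.smul_apply, smul_eq_mul]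
  field_simp
  linear_combination h1

/-- derivative of the normalised parameter, when the derivative of `lam` is a multiple of `lam` -/
lemma NSX_dE_norm {a : La} (ha : a 0 ≠ 0) (δ : D) (c : ℂ) (h : dE δ a = c • a) :
    dE δ ((a 0)⁻¹ • a) = 0 := by
  have h0 : δ (a 0) = c * a 0 := by
    have h1 := congrFun h 0
    rw [Pi.smul_apply, smul_eq_mul] at h1
    exact h1
  have h2 : δ ((a 0)⁻¹) = -(c * (a 0)⁻¹) := by
    have h3 : δ ((a 0)⁻¹ * a 0) = 0 := by
      rw [inv_mul_cancel₀ ha, Derivation.map_one_eq_zero]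
    rw [Derivation.leibniz, smul_eq_mul, smul_eq_mul, h0] at h3
    field_simp at h3
    field_simp
    linear_combination h3
  rw [dE_smul, h, h2, smul_smul, ← add_smul]
  rw [show -(c * (a 0)⁻¹) + (a 0)⁻¹ * c = 0 by ring, zero_smul]

/-- derivative of the normalised parameter, when `δ` kills the first coordinate -/
lemma NSX_dE_norm' {a : La} (ha : a 0 ≠ 0) (δ : D) (d : La) (hd : d 0 = 0)
    (h : dE δ a = a 0 • d) : dE δ ((a 0)⁻¹ • a) = d := by
  have h0 : δ (a 0) = 0 := by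
    have h1 := congrFun h 0
    rw [Pi.smul_apply, smul_eq_mul, hd, mul_zero] at h1
    exact h1
  have h2 : δ ((a 0)⁻¹) = 0 := by
    have h3 : δ ((a 0)⁻¹ * a 0) = 0 := by
      rw [inv_mul_cancel₀ ha, Derivation.map_one_eq_zero]
    rw [Derivation.leibniz, smul_eq_mul, smul_eq_mul, h0, mul_zero, zero_add] at h3
    exact (mul_eq_zero.1 h3).resolve_left ha
  rw [dE_smul, h, h2, zero_smul, zero_add, smul_smul, inv_mul_cancel₀ ha, one_smul]

/-- ITEM NSX -/
theorem NSX_pf (hDK : DKB) : NSX := by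
  intro s hs p l lam hC hne hfull hK
  -- (0)
  have h0 : ∀ i, lam i 0 ≠ 0 := by
    intro i hi
    obtain ⟨δ, hδ⟩ := hfull 0 (TP p l).zero_mem (fun _ => Pi.single 0 1)
    rw [evC_apply] at hδ
    have h3 : evP lam δ = fun _ => Pi.single 0 1 := (Prod.ext_iff.1 hδ).2
    have h1 : evP lam δ i 0 = 1 := by
      rw [h3]
      simp
    rw [evP_apply] at h1
    have h2 : dE δ (lam i) 0 = δ (lam i 0) := rfl
    rw [h2, hi, map_zero] at h1
    exact zero_ne_one h1
  -- (1)
  have h1 : ∀ x ∈ TP p l, ∀ d : Fin 4 → La, (∀ i, d i 0 = 0) →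
      ∃ δ : D, evC p l (fun i => (lam i 0)⁻¹ • lam i) δ = (x, d) := by
    intro x hx d hd
    obtain ⟨δ, hδ⟩ := hfull x hx (fun i => lam i 0 • d i)
    refine ⟨δ, ?_⟩
    rw [evC_apply] at hδ ⊢
    refine Prod.ext (Prod.ext_iff.1 hδ).1 (funext fun i => ?_)
    have h2 : evP lam δ i = lam i 0 • d i := congrFun (Prod.ext_iff.1 hδ).2 i
    exact NSX_dE_norm' (h0 i) δ (d i) (hd i) h2
  -- (2)
  have h2 : ∀ t ∈ KB p l (fun i => (lam i 0)⁻¹ • lam i),
      ∃ δ ∈ ZC p l (fun i => (lam i 0)⁻¹ • lam i), dT δ s = t := by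
    intro t ht
    obtain ⟨ht1, ht2, ht3⟩ := mem_KB.1 ht
    have hc : ∀ i, ∃ c : ℂ, cov t (lam i) (p i) = c • l := by
      intro i
      refine NSX_mult hC.l0 fun v hv => ?_
      have h3 := ht2 i v hv
      rw [tri_smul1] at h3
      exact (mul_eq_zero.1 h3).resolve_left (inv_ne_zero (h0 i))
    choose c hc using hc
    obtain ⟨δ1, hδ1⟩ := hfull 0 (TP p l).zero_mem (fun i => -(c i) • lam i)
    rw [evC_apply] at hδ1
    have hp1 : ∀ i, dE δ1 (p i) = 0 := fun i =>
      congrFun (Prod.ext_iff.1 (Prod.ext_iff.1 hδ1).1).1 i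
    have hl1 : dE δ1 l = 0 := (Prod.ext_iff.1 (Prod.ext_iff.1 hδ1).1).2
    have hlam1 : ∀ i, dE δ1 (lam i) = -(c i) • lam i := fun i =>
      congrFun (Prod.ext_iff.1 hδ1).2 i
    have hcov : ∀ i, cov (dT δ1 s) (lam i) (p i) = c i • l := by
      intro i
      have h3 := hC.d_eq δ1 i
      rw [hl1, hlam1 i, hp1 i, cov_zero_right, add_zero, cov_smul_left, hC.eq i, neg_smul] at h3
      rw [← sub_eq_add_neg] at h3
      exact (sub_eq_zero.1 h3.symm)
    have hq : ∀ i a, tri (dT δ1 s) a (p i) (p i) = 0 := by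
      intro i a
      have h3 := hC.d_q0 hs δ1 i a
      rw [hp1 i, tri_zero3, mul_zero, add_zero] at h3
      exact h3
    have hmem : t - dT δ1 s ∈ K1 p lam := by
      refine mem_K1.2 ⟨SymT.sub_mem ht1 (dT_mem δ1 hs), fun i v => ?_, fun i a => ?_⟩
      · have h3 : t = (t - dT δ1 s) + dT δ1 s := (sub_add_cancel _ _).symm
        have h4 : tri t (lam i) (p i) v = tri (t - dT δ1 s) (lam i) (p i) v
            + tri (dT δ1 s) (lam i) (p i) v := by
          conv_lhs => rw [h3]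
          rw [tri_add_tensor]
        rw [tri, hc i] at h4
        rw [show tri (dT δ1 s) (lam i) (p i) v = (c i • l) ⬝ᵥ v by rw [tri, hcov i]] at h4
        linear_combination -h4
      · have h3 : t = (t - dT δ1 s) + dT δ1 s := (sub_add_cancel _ _).symm
        have h4 : tri t a (p i) (p i) = tri (t - dT δ1 s) a (p i) (p i)
            + tri (dT δ1 s) a (p i) (p i) := by
          conv_lhs => rw [h3]
          rw [tri_add_tensor]
        rw [ht3 i a, hq i a] at h4
        linear_combination -h4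
    obtain ⟨δ2, hδ2, hδ2t⟩ := hK _ hmem
    obtain ⟨hp2, hl2, hlam2⟩ := mem_ZC.1 hδ2
    have hadd : ∀ {ι : Type} (x : ι → ℂ), dE (δ1 + δ2) x = dE δ1 x + dE δ2 x := by
      intro ι x
      exact map_add (evE x) δ1 δ2
    refine ⟨δ1 + δ2, mem_ZC.2 ⟨fun i => ?_, ?_, fun i => ?_⟩, ?_⟩
    · rw [hadd, hp1 i, hp2 i, add_zero]
    · rw [hadd, hl1, hl2, add_zero]
    · refine NSX_dE_norm (h0 i) (δ1 + δ2) (-(c i)) ?_
      rw [hadd, hlam1 i, hlam2 i, add_zero]
    · have h3 : dT (δ1 + δ2) s = dT δ1 s + dT δ2 s := map_add (evT s) δ1 δ2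
      rw [h3, hδ2t, add_sub_cancel]
  refine ⟨h0, h1, h2, ?_⟩
  -- (3)
  have h3 : KB p l (fun i => (lam i 0)⁻¹ • lam i) ≤
      (ZC p l (fun i => (lam i 0)⁻¹ • lam i)).map (evT s) := by
    intro t ht
    obtain ⟨δ, hδ, hδt⟩ := h2 t ht
    exact ⟨δ, hδ, hδt⟩
  have h4 : ∀ i, (fun i => (lam i 0)⁻¹ • lam i : Fin 4 → La) i ≠ 0 := by
    intro i h5
    have h6 := congrFun h5 0
    simp only [Pi.smul_apply, smul_eq_mul, Pi.zero_apply] at h6
    rw [inv_mul_cancel₀ (h0 i)] at h6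
    exact one_ne_zero h6
  have h5 : ∀ i k, i ≠ k → ∀ c : ℂ, (fun i => (lam i 0)⁻¹ • lam i : Fin 4 → La) i ≠
      c • (fun i => (lam i 0)⁻¹ • lam i : Fin 4 → La) k := by
    intro i k hik c h6
    refine hne i k hik (lam i 0 * (c * (lam k 0)⁻¹)) ?_
    have h7 : lam i = lam i 0 • ((lam i 0)⁻¹ • lam i) := by
      rw [smul_smul, mul_inv_cancel₀ (h0 i), one_smul]
    have h8 : (lam i 0)⁻¹ • lam i = c • ((lam k 0)⁻¹ • lam k) := h6
    rw [h8, smul_smul, smul_smul, mul_assoc] at h7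
    exact h7
  have h6 := (hDK p l (fun i => (lam i 0)⁻¹ • lam i) hC.ind hC.l0 hC.lp h4 h5).1
  have h7 := Submodule.finrank_mono h3
  omega

end Pool.Agent.Work.MP_ea8963_ag.G5
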