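import Pool.Agent.Work.MP_ea8963_ag.G5.Off
import Pool.Agent.Work.MP_ea8963_ag.G4.Stmts2

/-!
Block [ea8963 G5], item OCX: the tensor of a net of quadratic forms with algebraically independent
coefficients is generic.  Author helper88 (modelled on G4/I_OCX.lean of helper50).
-/

set_option linter.style.longLine false
set_option linter.unusedVariables false

noncomputable section

open Module Topology MvPolynomial
open Pool.Agent.Work.MP_ea8963_ag.G4 (D ZA mem_ZA Full cl rn rn_prod rn_le finrank_map_mono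
  finrank_map_prod_swap pair d_two ZA_mono)

namespace Pool.Agent.Work.MP_ea8963_ag.G5

namespace I_OCX

/-- the exponent `e_i + e_j` -/
def ex2 (i j : Fin 6) : Fin 6 →₀ ℕ := Finsupp.single i 1 + Finsupp.single j 1

lemma ex2_degree (i j : Fin 6) : (ex2 i j).degree = 2 := by
  simp [ex2, Finsupp.degree_single]

/-- the numerical factor -/
def cf (i j : Fin 6) : ℂ := ((((Finsupp.single i 1 : Fin 6 →₀ ℕ) j : ℕ) : ℂ) + 1)

lemma cf_ne (i j : Fin 6) : cf i j ≠ 0 := by
  unfold cf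
  exact Nat.cast_add_one_ne_zero _

lemma sten_eq (f : Fin 3 → MvPolynomial (Fin 6) ℂ) (k : Fin 3) (i j : Fin 6) :
    sten f k i j = (1 / 2 : ℂ) * ((f k).coeff (ex2 i j) * cf i j) := by
  unfold sten
  congr 1
  have h0 : ∀ p : MvPolynomial (Fin 6) ℂ, eval 0 p = coeff 0 p := by
    intro p
    rw [← MvPolynomial.constantCoeff_eq, MvPolynomial.eval_zero]
  rw [h0, coeff_pderiv, coeff_pderiv]
  simp only [zero_add, ex2, cf, Finsupp.coe_zero, Pi.zero_apply, Nat.cast_zero, mul_one]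

lemma perm2 {j k j' k' : Fin 6} (h : ex2 j k = ex2 j' k') :
    (j = j' ∧ k = k') ∨ (j = k' ∧ k = j') := by
  unfold ex2 at h
  rw [Finsupp.single_add_single_eq_single_add_single one_ne_zero one_ne_zero] at h
  rcases h with h | h | h
  · exact Or.inl h
  · exact Or.inr h.2
  · exact absurd h.1 (by norm_num)

lemma sym_eq {t : T3} (ht : t ∈ SymT) (k : Fin 3) {i j i' j' : Fin 6}
    (h : ex2 i j = ex2 i' j') : t k i j = t k i' j' := by
  rcases perm2 h with ⟨rfl, rfl⟩ | ⟨rfl, rfl⟩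
  · rfl
  · exact ht k _ _

/-- a derivation with given values on the coefficients -/
lemma exists_der (hFBX : G4.FBX) (f : Fin 3 → MvPolynomial (Fin 6) ℂ)
    (hf : AlgebraicIndependent ℚ
      (fun x : Fin 3 × {m : Fin 6 →₀ ℕ // m.degree = 2} => (f x.1).coeff x.2.1))
    (w : Fin 3 × {m : Fin 6 →₀ ℕ // m.degree = 2} → ℂ) :
    ∃ δ : D, ∀ x : Fin 3 × {m : Fin 6 →₀ ℕ // m.degree = 2}, δ ((f x.1).coeff x.2.1) = w x := by
  have hfin0 : Finite {m : Fin 6 →₀ ℕ // m.degree = 2} :=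
    (Finsupp.finite_of_degree_eq (σ := Fin 6) 2).to_subtype
  have hfin : Finite (Fin 3 × {m : Fin 6 →₀ ℕ // m.degree = 2}) := inferInstance
  obtain ⟨n, ⟨e⟩⟩ := Finite.exists_equiv_fin (Fin 3 × {m : Fin 6 →₀ ℕ // m.degree = 2})
  have h1 : AlgebraicIndependent ℚ
      ((fun x : Fin 3 × {m : Fin 6 →₀ ℕ // m.degree = 2} => (f x.1).coeff x.2.1) ∘ e.symm) :=
    hf.comp _ e.symm.injective
  have h2 : Algebra.IsAlgebraic ℚ (IntermediateField.adjoin ℚ (∅ : Set ℂ)) := by
    rw [IntermediateField.adjoin_empty]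
    infer_instance
  have h3 := h1.extendScalars (IntermediateField.adjoin ℚ (∅ : Set ℂ))
  obtain ⟨δ, -, hδ⟩ := hFBX ∅ n _ h3 (fun i => w (e.symm i))
  refine ⟨δ, fun m => ?_⟩
  have := hδ (e m)
  simpa using this

end I_OCX

open I_OCX in
theorem OCX_pf (hFBX : G4.FBX) (hOBX : OBX) : OCX := by
  classical
  intro f hf2 hf
  have hs : sten f ∈ SymT := (hOBX f hf2).1
  refine ⟨hs, fun v hv => ?_⟩
  obtain ⟨δ, hδ⟩ := exists_der hFBX f hf (fun x =>
    if h : ∃ q : Fin 6 × Fin 6, ex2 q.1 q.2 = x.2.1 then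
      2 * (cf h.choose.1 h.choose.2)⁻¹ * v x.1 h.choose.1 h.choose.2 else 0)
  refine ⟨δ, ?_⟩
  funext k i j
  have hex : ∃ q : Fin 6 × Fin 6, ex2 q.1 q.2 = ex2 i j := ⟨(i, j), rfl⟩
  have h1 := hδ (k, ⟨ex2 i j, ex2_degree i j⟩)
  simp only [dif_pos hex] at h1
  have hq := hex.choose_spec
  set q := hex.choose with hqdef
  rw [← sym_eq (dT_mem δ hs) k hq, ← sym_eq hv k hq]
  have h2 : dT δ (sten f) k q.1 q.2 = δ (sten f k q.1 q.2) := rfl
  have hc : ∀ (n : ℕ), δ (n : ℂ) = 0 := fun n => by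
    have := δ.map_natCast n
    exact this
  have h3 : δ (cf q.1 q.2) = 0 := by
    unfold cf
    rw [map_add, hc]
    simp
  have h4 : δ (1 / 2 : ℂ) = 0 := by
    have h5 : δ (((1 / 2 : ℚ) : ℂ)) = 0 := by
      have := δ.map_algebraMap (1 / 2 : ℚ)
      simpa using this
    simpa using h5
  rw [h2, sten_eq, Derivation.leibniz, Derivation.leibniz, h3, h4, hq, h1]
  simp only [smul_eq_mul, mul_zero, zero_add, add_zero]
  have h6 := cf_ne q.1 q.2
  field_simp

end Pool.Agent.Work.MP_ea8963_ag.G5
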