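import Pool.Agent.Work.MP_ea8963_ag.G5.Off

/-!
Block [ea8963 G5], item ODX: a point of the Severi curve gives a configuration.
-/

set_option linter.style.longLine false
set_option linter.unusedVariables false

noncomputable section

open Module MvPolynomial

namespace Pool.Agent.Work.MP_ea8963_ag.G5

namespace I_ODX

/-- expansion of the parameter in the standard basis -/
theorem expand (a : La) : a = ∑ k, a k • (Pi.single k 1 : La) := by
  ext i
  simp [Finset.sum_apply, Pi.single_apply]

theorem cov_expand (s : T3) (a : La) (x : E) :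
    cov s a x = ∑ k, a k • cov s (Pi.single k 1) x := by
  conv_lhs => rw [expand a]
  rw [cov_sum_left]
  exact Finset.sum_congr rfl fun k _ => cov_smul_left _ _ _ _

theorem tri_expand (s : T3) (a : La) (x y : E) :
    tri s a x y = ∑ k, a k * tri s (Pi.single k 1) x y := by
  conv_lhs => rw [expand a]
  rw [tri_sum1]
  exact Finset.sum_congr rfl fun k _ => tri_smul1 _ _ _ _ _

/-- the multiplier of a singular point -/
theorem exists_comb {s : T3} {p l g0 g1 g2 : E} (hr : ∀ c : La, cov s c p = 0 → c = 0)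
    (e0 : g0 = (2 : ℂ) • cov s (Pi.single 0 1) p) (e1 : g1 = (2 : ℂ) • cov s (Pi.single 1 1) p)
    (e2 : g2 = (2 : ℂ) • cov s (Pi.single 2 1) p)
    (h : ¬ LinearIndependent ℂ ![g0, g1, g2, l]) : ∃ a : La, cov s a p = l := by
  rw [Fintype.not_linearIndependent_iff] at h
  obtain ⟨g, hg, i, hi⟩ := h
  have hg' : g 0 • g0 + g 1 • g1 + g 2 • g2 + g 3 • l = 0 := by
    have h1 := hg
    rw [Fin.sum_univ_four] at h1
    simpa using h1
  have hc : cov s ![2 * g 0, 2 * g 1, 2 * g 2] p + g 3 • l = 0 := by
    rw [← hg', cov_expand, Fin.sum_univ_three, e0, e1, e2]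
    simp only [Matrix.cons_val_zero, Matrix.cons_val_one, Matrix.cons_val, smul_smul]
    rw [mul_comm 2 (g 0), mul_comm 2 (g 1), mul_comm 2 (g 2)]
  by_cases h3 : g 3 = 0
  · exfalso
    rw [h3, zero_smul, add_zero] at hc
    have h4 := hr _ hc
    have a0 : g 0 = 0 := by
      have := congrFun h4 0
      simpa using this
    have a1 : g 1 = 0 := by
      have := congrFun h4 1
      simpa using this
    have a2 : g 2 = 0 := by
      have := congrFun h4 2
      simpa using this
    apply hi
    fin_cases i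
    · exact a0
    · exact a1
    · exact a2
    · exact h3
  · refine ⟨(-(g 3)⁻¹) • ![2 * g 0, 2 * g 1, 2 * g 2], ?_⟩
    rw [cov_smul_left, eq_neg_of_add_eq_zero_left hc, smul_neg, neg_smul, neg_neg, smul_smul,
      inv_mul_cancel₀ h3, one_smul]

end I_ODX

open I_ODX in
theorem ODX_pf (hSMX : SMX) (hPIX : PIX) (hOBX : OBX) : ODX := by
  intro f hf hs l hl
  obtain ⟨hsym, hB1, hB2, hB3⟩ := hOBX f hf
  obtain ⟨hl0, p, hnode, hpair, -⟩ := hl
  have hp0 : ∀ i, p i ≠ 0 := fun i => (hnode i).1.1
  have hq : ∀ i (a : La), tri (sten f) a (p i) (p i) = 0 := by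
    intro i a
    rw [tri_expand]
    refine Finset.sum_eq_zero fun k _ => ?_
    rw [← hB1 k (p i), (hnode i).1.2.1 k, mul_zero]
  have hrank : ∀ i (c : La), cov (sten f) c (p i) = 0 → c = 0 :=
    fun i c hc => hSMX (sten f) hs (p i) (hp0 i) (hq i) c hc
  have hcomb : ∀ i, ∃ a : La, cov (sten f) a (p i) = l := fun i =>
    exists_comb (hrank i) (hB2 0 (p i)) (hB2 1 (p i)) (hB2 2 (p i)) (hnode i).1.2.2.2
  choose lam heq using hcomb
  have hg : ∀ i k (w : E), grad (f k) (p i) ⬝ᵥ w = 2 * tri (sten f) (Pi.single k 1) (p i) w :=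
    fun i k w => by
      rw [hB2 k (p i), smul_dotProduct, smul_eq_mul]; rfl
  have hlw : ∀ i (w : E), l ⬝ᵥ w = tri (sten f) (lam i) (p i) w := fun i w => by
    rw [tri, heq i]
  refine ⟨p, lam, hq, heq, ?_, fun i => ⟨hrank i, ?_⟩, hl0⟩
  · exact hPIX (sten f) hs p l lam hl0 hq heq hp0 hpair
  · intro v c h1 h2
    refine (hnode i).2.2 ((1 / 2 : ℂ) • lam i) (-1) (Or.inr (by norm_num)) ?_ v ?_ ?_ ?_
    · have h3 : ∑ k, ((1 / 2 : ℂ) • lam i) k • grad (f k) (p i) = l := by
        rw [← heq i, cov_expand]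
        refine Finset.sum_congr rfl fun k _ => ?_
        rw [hB2 k (p i), smul_smul, Pi.smul_apply, smul_eq_mul]
        congr 1
        ring
      rw [h3, neg_one_smul, add_neg_cancel]
    · intro k
      rw [hg, h1, mul_zero]
    · rw [hlw i, h1]
    · intro w hw1 hw2
      have h3 : ∀ k, tri (sten f) (Pi.single k 1) (p i) w = 0 := by
        intro k
        have h4 := hw1 k
        rw [hg] at h4
        exact (mul_eq_zero.1 h4).resolve_left (by norm_num)
      have h5 : tri (sten f) (lam i) v w + tri (sten f) c (p i) w = 0 := by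
        rw [tri, tri, ← add_dotProduct, h2, zero_dotProduct]
      have h6 : tri (sten f) c (p i) w = 0 := by
        rw [tri_expand]
        exact Finset.sum_eq_zero fun k _ => by rw [h3 k, mul_zero]
      rw [h6, add_zero, tri_expand] at h5
      rw [← h5]
      refine Finset.sum_congr rfl fun k _ => ?_
      rw [hB3, Pi.smul_apply, smul_eq_mul]
      ring

end Pool.Agent.Work.MP_ea8963_ag.G5
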