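import Pool.Agent.Work.MP_ea8963_ag.G5.Off

/-! Block [ea8963 G5], item OEX. -/

set_option linter.style.longLine false
set_option linter.unusedVariables false

noncomputable section

open Module Topology MvPolynomial
open Pool.Agent.Work.MP_ea8963_ag.G4 (D ZA mem_ZA Full cl rn rn_prod rn_le finrank_map_mono
  finrank_map_prod_swap pair d_two ZA_mono)

namespace Pool.Agent.Work.MP_ea8963_ag.G5

namespace I_OEX

lemma la_eq (a : La) : a = ∑ k, a k • (Pi.single k 1 : La) := by
  ext i
  simp [Finset.sum_apply, Pi.single_apply]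

lemma cov_expand (s : T3) (a : La) (x : E) :
    cov s a x = ∑ k, a k • cov s (Pi.single k 1) x := by
  conv_lhs => rw [la_eq a]
  rw [cov_sum_left]
  exact Finset.sum_congr rfl fun k _ => cov_smul_left _ _ _ _

lemma tri_expand (s : T3) (a : La) (x y : E) :
    tri s a x y = ∑ k, a k * tri s (Pi.single k 1) x y := by
  conv_lhs => rw [la_eq a]
  rw [tri_sum1]
  exact Finset.sum_congr rfl fun k _ => tri_smul1 _ _ _ _ _

lemma indep {s : T3} {p : E} (h : ∀ c : La, cov s c p = 0 → c = 0) :
    LinearIndependent ℂ (fun k : Fin 3 => cov s (Pi.single k 1) p) := by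
  rw [Fintype.linearIndependent_iff]
  intro c hc
  have h1 : c = 0 := h c (by rw [cov_expand]; exact hc)
  intro i
  rw [h1]; rfl

lemma exists_of_dep {g : Fin 3 → E} {l : E} (h2 : LinearIndependent ℂ g)
    (h : ¬ LinearIndependent ℂ ![(2 : ℂ) • g 0, (2 : ℂ) • g 1, (2 : ℂ) • g 2, l]) :
    ∃ c : La, l = ∑ k, c k • g k := by
  by_contra hcon
  push Not at hcon
  apply h
  rw [Fintype.linearIndependent_iff]
  intro x hx
  rw [Fin.sum_univ_four] at hx
  simp only [Matrix.cons_val_zero, Matrix.cons_val_one, Matrix.cons_val] at hx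
  have hc : x 3 = 0 := by
    by_contra hc
    apply hcon ![-(x 3)⁻¹ * (2 * x 0), -(x 3)⁻¹ * (2 * x 1), -(x 3)⁻¹ * (2 * x 2)]
    rw [Fin.sum_univ_three]
    simp only [Matrix.cons_val_zero, Matrix.cons_val_one, Matrix.cons_val]
    have h3 : x 3 • l = -(x 0 • (2 : ℂ) • g 0 + x 1 • (2 : ℂ) • g 1 + x 2 • (2 : ℂ) • g 2) := by
      rw [eq_neg_iff_add_eq_zero, add_comm]
      exact hx
    have h4 : l = (x 3)⁻¹ • (x 3 • l) := by rw [smul_smul, inv_mul_cancel₀ hc, one_smul]
    rw [h4, h3]
    module
  rw [hc, zero_smul, add_zero] at hx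
  rw [Fintype.linearIndependent_iff] at h2
  have h5 := h2 ![x 0 * 2, x 1 * 2, x 2 * 2] (by
    rw [Fin.sum_univ_three]
    simp only [Matrix.cons_val_zero, Matrix.cons_val_one, Matrix.cons_val]
    rw [← hx]
    module)
  have h50 : x 0 * 2 = 0 := by simpa using h5 0
  have h51 : x 1 * 2 = 0 := by simpa using h5 1
  have h52 : x 2 * 2 = 0 := by simpa using h5 2
  intro i
  fin_cases i
  · exact (mul_eq_zero.1 h50).resolve_right (by norm_num)
  · exact (mul_eq_zero.1 h51).resolve_right (by norm_num)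
  · exact (mul_eq_zero.1 h52).resolve_right (by norm_num)
  · exact hc

lemma dep_of {g : Fin 3 → E} {l : E} {c : La} (h : l = ∑ k, c k • g k) :
    ¬ LinearIndependent ℂ ![(2 : ℂ) • g 0, (2 : ℂ) • g 1, (2 : ℂ) • g 2, l] := by
  intro hli
  rw [Fintype.linearIndependent_iff] at hli
  have h1 := hli ![c 0 / 2, c 1 / 2, c 2 / 2, -1] (by
    rw [Fin.sum_univ_four]
    simp only [Matrix.cons_val_zero, Matrix.cons_val_one, Matrix.cons_val]
    rw [h, Fin.sum_univ_three]
    module) 3
  simp at h1

lemma finrank_of {g : Fin 3 → E} {l : E} {c : La} (h2 : LinearIndependent ℂ g)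
    (h : l = ∑ k, c k • g k) :
    finrank ℂ (Submodule.span ℂ (Set.range
      ![(2 : ℂ) • g 0, (2 : ℂ) • g 1, (2 : ℂ) • g 2, l])) = 3 := by
  have e : Submodule.span ℂ (Set.range ![(2 : ℂ) • g 0, (2 : ℂ) • g 1, (2 : ℂ) • g 2, l]) =
      Submodule.span ℂ (Set.range g) := by
    have hg : ∀ k, g k ∈ Submodule.span ℂ (Set.range g) := fun k => Submodule.subset_span ⟨k, rfl⟩
    apply le_antisymm
    · rw [Submodule.span_le]
      rintro x ⟨i, rfl⟩
      fin_cases i
      · exact Submodule.smul_mem _ _ (hg 0)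
      · exact Submodule.smul_mem _ _ (hg 1)
      · exact Submodule.smul_mem _ _ (hg 2)
      · show l ∈ Submodule.span ℂ (Set.range g)
        rw [h]
        exact Submodule.sum_mem _ fun k _ => Submodule.smul_mem _ _ (hg k)
    · rw [Submodule.span_le]
      rintro x ⟨i, rfl⟩
      have key : ∀ y : E, (2 : ℂ) • y ∈ Submodule.span ℂ (Set.range
          ![(2 : ℂ) • g 0, (2 : ℂ) • g 1, (2 : ℂ) • g 2, l]) → y ∈ Submodule.span ℂ (Set.range
          ![(2 : ℂ) • g 0, (2 : ℂ) • g 1, (2 : ℂ) • g 2, l]) := by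
        intro y hy
        have h4 := Submodule.smul_mem _ (2 : ℂ)⁻¹ hy
        rw [smul_smul, inv_mul_cancel₀ (by norm_num : (2 : ℂ) ≠ 0), one_smul] at h4
        exact h4
      fin_cases i
      · exact key _ (Submodule.subset_span ⟨0, rfl⟩)
      · exact key _ (Submodule.subset_span ⟨1, rfl⟩)
      · exact key _ (Submodule.subset_span ⟨2, rfl⟩)
  rw [e, finrank_span_eq_card h2]
  simp

end I_OEX

open I_OEX in
theorem OEX_pf (hSMX : SMX) (hNFX : NFX) (hOBX : OBX) : OEX := by
  intro f hf hgen p l lam m ho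
  obtain ⟨hsym, hB1, hB2, hB3⟩ := hOBX f hf
  have hp0 : ∀ i, p i ≠ 0 := fun i => ho.ind.ne_zero i
  have hl : ∀ i, l = ∑ k, ((m i)⁻¹ • lam i) k • cov (sten f) (Pi.single k 1) (p i) := by
    intro i
    rw [← cov_expand, cov_smul_left, ho.eq i, smul_smul, inv_mul_cancel₀ (ho.m0 i), one_smul]
  have hind : ∀ i, LinearIndependent ℂ (fun k : Fin 3 => cov (sten f) (Pi.single k 1) (p i)) :=
    fun i => indep (ho.nd i).rank
  have hsing : ∀ i, IsSing f l (p i) := by
    intro i
    refine ⟨hp0 i, fun k => ?_, ho.lp i, ?_⟩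
    · rw [hB1]; exact ho.q0 i _
    · rw [hB2, hB2, hB2]
      exact dep_of (g := fun k : Fin 3 => cov (sten f) (Pi.single k 1) (p i)) (hl i)
  refine ⟨ho.l0, p, ?_, ?_, ?_⟩
  · intro i
    refine ⟨hsing i, ?_, ?_⟩
    · rw [hB2, hB2, hB2]
      exact finrank_of (g := fun k : Fin 3 => cov (sten f) (Pi.single k 1) (p i)) (hind i) (hl i)
    · intro a c hac hrel v hv1 hv2 hv3
      have hv1' : ∀ k, cov (sten f) (Pi.single k 1) (p i) ⬝ᵥ v = 0 := by
        intro k
        have h1 := hv1 k
        rw [hB2, smul_dotProduct, smul_eq_mul] at h1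
        exact (mul_eq_zero.1 h1).resolve_left (by norm_num)
      have hcov : cov (sten f) ((2 : ℂ) • a + (c * (m i)⁻¹) • lam i) (p i) = 0 := by
        rw [cov_add_left, cov_smul_left, cov_smul_left, ho.eq i, smul_smul, mul_assoc,
          inv_mul_cancel₀ (ho.m0 i), mul_one, ← hrel, cov_expand, Finset.smul_sum]
        congr 1
        refine Finset.sum_congr rfl fun k _ => ?_
        rw [hB2, smul_comm]
      have h0 := (ho.nd i).rank _ hcov
      have hcne : c ≠ 0 := by
        intro hc0
        rw [hc0, zero_mul, zero_smul, add_zero] at h0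
        have ha : a = 0 := (smul_eq_zero.1 h0).resolve_left (by norm_num)
        rcases hac with h | h
        · exact h ha
        · exact h hc0
      have hspan := mem_span_of_ann (hind i) (c := cov (sten f) (lam i) v) (by
        intro x hx
        have hlx : l ⬝ᵥ x = 0 := by
          rw [hl i, sum_dotProduct]
          refine Finset.sum_eq_zero fun k _ => ?_
          rw [smul_dotProduct, hx k, smul_zero]
        have h2 := hv3 x (fun k => by rw [hB2, smul_dotProduct, hx k, smul_zero]) hlx
        have h4 : cov (sten f) (lam i) v ⬝ᵥ x = tri (sten f) (lam i) v x := rfl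
        rw [h4]
        have h5 : tri (sten f) ((2 : ℂ) • a + (c * (m i)⁻¹) • lam i) v x = 0 := by
          rw [h0, tri_zero1]
        rw [tri_add1, tri_smul1, tri_smul1, tri_expand (sten f) a] at h5
        have h6 : 2 * ∑ k, a k * tri (sten f) (Pi.single k 1) v x = 0 := by
          rw [← h2, Finset.mul_sum]
          refine Finset.sum_congr rfl fun k _ => ?_
          rw [hB3]; ring
        rw [h6, zero_add] at h5
        exact (mul_eq_zero.1 h5).resolve_left (mul_ne_zero hcne (inv_ne_zero (ho.m0 i))))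
      rw [Submodule.mem_span_range_iff_exists_fun] at hspan
      obtain ⟨g, hg⟩ := hspan
      refine (ho.nd i).ker v (-g) ?_ ?_
      · intro e
        rw [tri_expand]
        refine Finset.sum_eq_zero fun k _ => ?_
        have h7 : tri (sten f) (Pi.single k 1) (p i) v = 0 := hv1' k
        rw [h7, mul_zero]
      · rw [cov_neg_left, ← hg, cov_expand (sten f) g]
        exact add_neg_cancel _
  · intro i j hij t h
    have hli := ho.ind
    rw [Fintype.linearIndependent_iff] at hli
    have h1 := hli (Pi.single i 1 - Pi.single j t) (by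
      simp only [Pi.sub_apply, sub_smul, Finset.sum_sub_distrib]
      rw [Finset.sum_eq_single i, Finset.sum_eq_single j]
      · simp [h]
      · intro k _ hk; simp [hk]
      · intro hk; exact absurd (Finset.mem_univ _) hk
      · intro k _ hk; simp [hk]
      · intro hk; exact absurd (Finset.mem_univ _) hk) i
    simp [hij] at h1
  · intro q hq
    obtain ⟨hq0, hq2, hq3, hq4⟩ := hq
    have hz : ∀ a : La, tri (sten f) a q q = 0 := by
      intro a
      rw [tri_expand]
      refine Finset.sum_eq_zero fun k _ => ?_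
      rw [← hB1 k q, hq2 k, mul_zero]
    have hli := indep (hSMX (sten f) hgen q hq0 hz)
    rw [hB2, hB2, hB2] at hq4
    obtain ⟨a, ha⟩ := exists_of_dep (g := fun k : Fin 3 => cov (sten f) (Pi.single k 1) q) hli hq4
    exact hNFX (sten f) hgen p l lam m ho q hq0 hz a (by rw [cov_expand, ha])

end Pool.Agent.Work.MP_ea8963_ag.G5
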