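import Pool.Agent.Work.MP_ea8963_ag.G5.Stmts3

/-!
Block [ea8963 G5], item PAX (helper35): two derivation-constant vectors in the span of the nodes
bound the dimension of the values of `(p, l)` by 22.
-/

set_option linter.style.longLine false
set_option linter.unusedSectionVars false

noncomputable section

open Module
open Pool.Agent.Work.MP_ea8963_ag.G4 (D ZA mem_ZA Full cl rn rn_prod rn_le finrank_map_mono
  finrank_map_prod_swap pair d_two)

namespace Pool.Agent.Work.MP_ea8963_ag.G5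

/-- the span of `p` is the annihilator of `l, h` -/
lemma PAX_span {p : Fin 4 → E} {l h : E} (hp : LinearIndependent ℂ p)
    (hl : ∀ i, l ⬝ᵥ p i = 0) (hh : ∀ i, h ⬝ᵥ p i = 0) (hlh : LinearIndependent ℂ ![l, h])
    {u : E} (h1 : l ⬝ᵥ u = 0) (h2 : h ⬝ᵥ u = 0) : ∃ z : Fin 4 → ℂ, ∑ i, z i • p i = u := by
  have e : Submodule.span ℂ (Set.range p) = Ann ![l, h] := by
    apply Submodule.eq_of_le_of_finrank_eq
    · rw [Submodule.span_le]
      rintro _ ⟨i, rfl⟩
      intro j
      fin_cases j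
      · exact hl i
      · exact hh i
    · have h3 := finrank_Ann hlh
      have h4 : finrank ℂ (Submodule.span ℂ (Set.range p)) = 4 := by
        rw [finrank_span_eq_card hp]; simp
      have h5 : finrank ℂ (Ann ![l, h]) = 4 := by omega
      rw [h5]; exact h4
  have h3 : u ∈ Submodule.span ℂ (Set.range p) := by
    rw [e]
    intro j
    fin_cases j
    · exact h1
    · exact h2
  exact (Submodule.mem_span_range_iff_exists_fun ℂ).1 h3

/-- the coefficients are independent -/
lemma PAX_ind {p : Fin 4 → E} {u1 u2 : E} (hu : LinearIndependent ℂ ![u1, u2])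
    {z w : Fin 4 → ℂ} (hz : ∑ i, z i • p i = u1) (hw : ∑ i, w i • p i = u2) :
    LinearIndependent ℂ ![z, w] := by
  apply LinearIndependent.of_comp (Fintype.linearCombination ℂ p)
  convert hu using 1
  funext j
  fin_cases j
  · show Fintype.linearCombination ℂ p z = u1
    rw [Fintype.linearCombination_apply, hz]
  · show Fintype.linearCombination ℂ p w = u2
    rw [Fintype.linearCombination_apply, hw]

/-- the condition on `dp` -/
lemma PAX_cond {p : Fin 4 → E} {h u : E} (hh : ∀ i, h ⬝ᵥ p i = 0) {z : Fin 4 → ℂ}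
    (hz : ∑ i, z i • p i = u) {δ : D} (hδ : dE δ u = 0) :
    z ⬝ᵥ (fun i => h ⬝ᵥ dE δ (p i)) = 0 := by
  rw [← hz, dE_sum] at hδ
  have h1 := congrArg (fun y => h ⬝ᵥ y) hδ
  simp only [dE_smul, dotProduct_sum, dotProduct_add, dotProduct_smul, hh, smul_eq_mul, mul_zero,
    zero_add, dotProduct_zero] at h1
  exact h1

/-- `δ ↦ (h ⬝ᵥ dE δ (p i))_i` -/
def PAX_g (p : Fin 4 → E) (h : E) : D →ₗ[ℂ] (Fin 4 → ℂ) where
  toFun δ := fun i => h ⬝ᵥ dE δ (p i)
  map_add' a b := by
    ext i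
    have : dE (a + b) (p i) = dE a (p i) + dE b (p i) := by ext j; simp [dE]
    simp only [this, dotProduct_add, Pi.add_apply]
  map_smul' c a := by
    ext i
    have : dE (c • a) (p i) = c • dE a (p i) := by ext j; simp [dE]
    simp only [this, dotProduct_smul, Pi.smul_apply, RingHom.id_apply]

/-- four vectors in a space `U`, and zero -/
def PAX_j (U : Submodule ℂ E) : (Fin 4 → U) →ₗ[ℂ] (Fin 4 → E) × E where
  toFun c := (fun i => (c i : E), 0)
  map_add' a b := by
    apply Prod.ext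
    · ext i j; simp
    · simp
  map_smul' c a := by
    apply Prod.ext
    · ext i j; simp
    · simp

lemma PAX_rank {U : Submodule ℂ E} {T : Submodule ℂ ((Fin 4 → E) × E)}
    (hT : ∀ x ∈ T, (∀ i, x.1 i ∈ U) ∧ x.2 = 0) : finrank ℂ T ≤ 4 * finrank ℂ U := by
  have h1 : T ≤ LinearMap.range (PAX_j U) := by
    intro x hx
    obtain ⟨h2, h3⟩ := hT x hx
    exact ⟨fun i => ⟨x.1 i, h2 i⟩, Prod.ext rfl h3.symm⟩
  have h2 := Submodule.finrank_mono h1
  have h3 := LinearMap.finrank_range_le (PAX_j U)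
  have h4 : finrank ℂ (Fin 4 → U) = 4 * finrank ℂ U := by
    rw [Module.finrank_pi_fintype]; simp
  omega

theorem PAX_pf : PAX := by
  intro p l h u1 u2 hp hl hh hlh hu hl1 hh1 hl2 hh2 W hW
  obtain ⟨z, hz⟩ := PAX_span hp hl hh hlh hl1 hh1
  obtain ⟨w, hw⟩ := PAX_span hp hl hh hlh hl2 hh2
  have hzw := PAX_ind hu hz hw
  -- the values of `l`
  have a1 : finrank ℂ (W.map (evE l)) + 2 ≤ 6 := by
    apply finrank_le_of_ann hu
    rintro _ ⟨δ, hδ, rfl⟩ j
    have hδ2 := hW hδ
    rw [Submodule.mem_inf, mem_ZE, mem_ZE] at hδ2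
    fin_cases j
    · have h3 := d_dot δ l u1
      rw [hl1, map_zero, hδ2.1, dotProduct_zero, add_zero] at h3
      show u1 ⬝ᵥ dE δ l = 0
      rw [dotProduct_comm]; exact h3.symm
    · have h3 := d_dot δ l u2
      rw [hl2, map_zero, hδ2.2, dotProduct_zero, add_zero] at h3
      show u2 ⬝ᵥ dE δ l = 0
      rw [dotProduct_comm]; exact h3.symm
  have a2 := rn_le (evB p l) (evE l) W
  -- the values of `h ⬝ᵥ dp`
  have a3 := rn_le (evB p l) (PAX_g p h) (W ⊓ LinearMap.ker (evE l))
  have a4 : finrank ℂ ((W ⊓ LinearMap.ker (evE l)).map (PAX_g p h)) + 2 ≤ 4 := by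
    apply finrank_le_of_ann hzw
    rintro _ ⟨δ, hδ, rfl⟩ j
    have hδ2 := hW (Submodule.mem_inf.1 hδ).1
    rw [Submodule.mem_inf, mem_ZE, mem_ZE] at hδ2
    fin_cases j
    · exact PAX_cond hh hz hδ2.1
    · exact PAX_cond hh hw hδ2.2
  have a5 : finrank ℂ ((W ⊓ LinearMap.ker (evE l) ⊓ LinearMap.ker (PAX_g p h)).map (evB p l))
      ≤ 4 * finrank ℂ (Ann ![l, h]) := by
    apply PAX_rank
    rintro _ ⟨δ, hδ, rfl⟩
    have h1 := Submodule.mem_inf.1 hδ
    have h2 := Submodule.mem_inf.1 h1.1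
    have h3 : dE δ l = 0 := h2.2
    have h4 : ∀ i, h ⬝ᵥ dE δ (p i) = 0 := fun i => congrFun (LinearMap.mem_ker.1 h1.2) i
    refine ⟨fun i => ?_, h3⟩
    intro j
    fin_cases j
    · have h5 := d_dot δ l (p i)
      rw [hl i, map_zero, h3, zero_dotProduct, zero_add] at h5
      exact h5.symm
    · exact h4 i
  have a6 := finrank_Ann hlh
  omega

end Pool.Agent.Work.MP_ea8963_ag.G5
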