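import Pool.Agent.Work.MP_ea8963_ag.G5.Stmts3

/-! Item PAY of block [ea8963 G5]: the count of the derivatives of one configuration when two vectors
of the plane `P` are fixed and one Plücker coordinate vanishes. -/

set_option linter.style.longLine false

noncomputable section

open Module
open Pool.Agent.Work.MP_ea8963_ag.G4 (D rn rn_prod rn_le)

namespace Pool.Agent.Work.MP_ea8963_ag.G5

/-- the span of `p` is the common kernel of `l`, `h` -/
lemma PAY_coord {p : Fin 4 → E} {l h u : E} (hp : LinearIndependent ℂ p) (hl : ∀ i, l ⬝ᵥ p i = 0)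
    (hh : ∀ i, h ⬝ᵥ p i = 0) (hlh : LinearIndependent ℂ ![l, h]) (h1 : l ⬝ᵥ u = 0)
    (h2 : h ⬝ᵥ u = 0) : ∃ z : Fin 4 → ℂ, ∑ i, z i • p i = u := by
  have e1 : finrank ℂ (Ann ![l, h]) + 2 = 6 := finrank_Ann hlh
  have e2 : finrank ℂ (Submodule.span ℂ (Set.range p)) = 4 := by
    rw [finrank_span_eq_card hp]; simp
  have e3 : Submodule.span ℂ (Set.range p) ≤ Ann ![l, h] := by
    rw [Submodule.span_le]
    rintro _ ⟨i, rfl⟩
    intro j
    fin_cases j
    · exact hl i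
    · exact hh i
  have e6 : finrank ℂ (Ann ![l, h]) = 4 := by omega
  have e4 := Submodule.eq_of_le_of_finrank_eq e3 (e2.trans e6.symm)
  have e5 : u ∈ Submodule.span ℂ (Set.range p) := by
    rw [e4]
    intro j
    fin_cases j
    · exact h1
    · exact h2
  exact (Submodule.mem_span_range_iff_exists_fun ℂ).1 e5

/-- the seven conditions -/
def PAY_L (l h F : E) (z w : Fin 4 → ℂ) (a b : ℂ) (c d : Fin 4) :
    (Fin 4 → E) →ₗ[ℂ] (Fin 4 → ℂ) × ℂ × ℂ × ℂ where
  toFun q := (fun i => l ⬝ᵥ q i, ∑ i, z i * (h ⬝ᵥ q i), ∑ i, w i * (h ⬝ᵥ q i),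
    a * (F ⬝ᵥ q c) + b * (F ⬝ᵥ q d))
  map_add' x y := by
    simp only [Pi.add_apply, dotProduct_add, mul_add, Finset.sum_add_distrib, Prod.mk_add_mk]
    congr 1
    congr 1
    congr 1
    ring
  map_smul' t x := by
    simp only [Pi.smul_apply, dotProduct_smul, smul_eq_mul, RingHom.id_apply, Prod.smul_mk,
      Finset.mul_sum]
    congr 1
    congr 1
    · exact Finset.sum_congr rfl fun i _ => by ring
    · congr 1
      · exact Finset.sum_congr rfl fun i _ => by ring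
      · ring

lemma PAY_rank (l h F : E) (z w : Fin 4 → ℂ) (a b : ℂ) (c d : Fin 4) (hcd : c ≠ d) (ha : a ≠ 0)
    (hi : LinearIndependent ℂ ![l, h, F]) (hzw : LinearIndependent ℂ ![z, w]) :
    finrank ℂ (LinearMap.ker (PAY_L l h F z w a b c d)) + 7 = 24 := by
  have hs : Function.Surjective (PAY_L l h F z w a b c d) := by
    rintro ⟨y, t1, t2, t3⟩
    obtain ⟨e1, he1⟩ := exists_solution hi ![1, 0, 0]
    obtain ⟨e2, he2⟩ := exists_solution hi ![0, 1, 0]
    obtain ⟨e3, he3⟩ := exists_solution hi ![0, 0, 1]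
    obtain ⟨β, hβ⟩ := exists_solution hzw ![t1, t2]
    have l1 : l ⬝ᵥ e1 = 1 := he1 0
    have h1 : h ⬝ᵥ e1 = 0 := he1 1
    have f1 : F ⬝ᵥ e1 = 0 := he1 2
    have l2 : l ⬝ᵥ e2 = 0 := he2 0
    have h2 : h ⬝ᵥ e2 = 1 := he2 1
    have f2 : F ⬝ᵥ e2 = 0 := he2 2
    have l3 : l ⬝ᵥ e3 = 0 := he3 0
    have h3 : h ⬝ᵥ e3 = 0 := he3 1
    have f3 : F ⬝ᵥ e3 = 1 := he3 2
    have b1 : z ⬝ᵥ β = t1 := hβ 0
    have b2 : w ⬝ᵥ β = t2 := hβ 1
    refine ⟨fun i => y i • e1 + β i • e2 + (Pi.single c (t3 / a) : Fin 4 → ℂ) i • e3, ?_⟩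
    simp only [PAY_L, LinearMap.coe_mk, AddHom.coe_mk, dotProduct_add, dotProduct_smul, l1, l2, l3,
      h1, h2, h3, f1, f2, f3, smul_eq_mul, mul_one, mul_zero, add_zero, zero_add]
    rw [Pi.single_eq_same, Pi.single_eq_of_ne (Ne.symm hcd)]
    rw [← b1, ← b2]
    simp only [dotProduct]
    congr 1
    congr 1
    congr 1
    field_simp
    ring
  have e1 := LinearMap.finrank_range_add_finrank_ker (PAY_L l h F z w a b c d)
  rw [LinearMap.range_eq_top.2 hs, finrank_top] at e1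
  have e2 : finrank ℂ ((Fin 4 → ℂ) × ℂ × ℂ × ℂ) = 7 := by simp
  have e3 : finrank ℂ (Fin 4 → E) = 24 := by
    rw [Module.finrank_pi_fintype]
    simp
  omega

theorem PAY_pf : PAY := by
  intro p l h u1 u2 hp hl hh hlh hu l1 h1 l2 h2 c d a b x y hcd ha hrel W hW
  obtain ⟨z, hz⟩ := PAY_coord hp hl hh hlh l1 h1
  obtain ⟨w, hw⟩ := PAY_coord hp hl hh hlh l2 h2
  have hzw : LinearIndependent ℂ ![z, w] := by
    rw [LinearIndependent.pair_iff] at hu ⊢
    intro s t hst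
    apply hu
    rw [← hz, ← hw, Finset.smul_sum, Finset.smul_sum, ← Finset.sum_add_distrib]
    refine Finset.sum_eq_zero fun i _ => ?_
    have := congrFun hst i
    simp only [Pi.add_apply, Pi.smul_apply, smul_eq_mul, Pi.zero_apply] at this
    rw [smul_smul, smul_smul, ← add_smul, this, zero_smul]
  -- the form F
  obtain ⟨A, hA⟩ := exists_dual hp
  obtain ⟨ψ, hψ, hψ0⟩ : ∃ ψ : Fin 4 → ℂ, (∀ i, (![z, w, Pi.single d 1] : Fin 3 → Fin 4 → ℂ) i ⬝ᵥ ψ = 0) ∧
      ψ ≠ 0 := by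
    have e1 : LinearMap.ker (dotL (![z, w, Pi.single d 1] : Fin 3 → Fin 4 → ℂ)) ≠ ⊥ :=
      LinearMap.ker_ne_bot_of_finrank_lt (by simp)
    obtain ⟨ψ, hψ, hψ0⟩ := Submodule.exists_mem_ne_zero_of_ne_bot e1
    exact ⟨ψ, fun i => congrFun (LinearMap.mem_ker.1 hψ) i, hψ0⟩
  set F : E := ∑ i, ψ i • A i with hF
  have hFp : ∀ j, F ⬝ᵥ p j = ψ j := by
    intro j
    rw [hF, sum_dotProduct]
    simp only [smul_dotProduct, hA, smul_eq_mul, mul_ite, mul_one, mul_zero]
    simp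
  have hz0 : z ⬝ᵥ ψ = 0 := hψ 0
  have hw0 : w ⬝ᵥ ψ = 0 := hψ 1
  have hd0 : ψ d = 0 := by
    have := hψ 2
    simpa using this
  have hFu : ∀ (v : Fin 4 → ℂ) (u : E), ∑ i, v i • p i = u → v ⬝ᵥ ψ = 0 → F ⬝ᵥ u = 0 := by
    intro v u hv h0
    rw [← hv, dotProduct_sum]
    simp only [dotProduct_smul, hFp, smul_eq_mul]
    exact h0
  have hFu1 := hFu z u1 hz hz0
  have hFu2 := hFu w u2 hw hw0
  have hFd : F ⬝ᵥ p d = 0 := by rw [hFp, hd0]
  have hFc : F ⬝ᵥ p c = 0 := by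
    have e1 := congrArg (fun v => F ⬝ᵥ v) hrel
    simp only [dotProduct_add, dotProduct_smul, hFu1, hFu2, hFd, smul_eq_mul, mul_zero, add_zero] at e1
    exact (mul_eq_zero.1 e1).resolve_left ha
  have hi : LinearIndependent ℂ ![l, h, F] := by
    rw [Fintype.linearIndependent_iff]
    intro g hg
    rw [Fin.sum_univ_three] at hg
    simp only [Matrix.cons_val_zero, Matrix.cons_val_one, Matrix.cons_val] at hg
    have e1 : g 2 = 0 := by
      obtain ⟨j, hj⟩ := Function.ne_iff.1 hψ0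
      have e2 := congrArg (fun v => v ⬝ᵥ p j) hg
      simp only [add_dotProduct, smul_dotProduct, hl, hh, hFp, smul_eq_mul, mul_zero, zero_add,
        zero_dotProduct] at e2
      exact (mul_eq_zero.1 e2).resolve_right hj
    rw [e1, zero_smul, add_zero] at hg
    obtain ⟨e2, e3⟩ := LinearIndependent.pair_iff.1 hlh _ _ hg
    intro i
    fin_cases i
    · exact e2
    · exact e3
    · exact e1
  -- the count
  have hu1 : ∀ δ ∈ W, dE δ u1 = 0 := fun δ hδ => mem_ZE.1 (hW hδ).1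
  have hu2 : ∀ δ ∈ W, dE δ u2 = 0 := fun δ hδ => mem_ZE.1 (hW hδ).2
  have c1 := rn_le (evB p l) (evE l) W
  have c2 : finrank ℂ (W.map (evE l)) + 2 ≤ 6 := by
    refine finrank_le_of_ann hu ?_
    rintro _ ⟨δ, hδ, rfl⟩ i
    rw [evE_apply]
    have key : ∀ u : E, l ⬝ᵥ u = 0 → dE δ u = 0 → u ⬝ᵥ dE δ l = 0 := by
      intro u hlu hdu
      have e1 := d_dot δ l u
      rw [hlu, hdu, map_zero, dotProduct_zero, add_zero] at e1
      rw [dotProduct_comm]
      exact e1.symm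
    fin_cases i
    · exact key u1 l1 (hu1 δ hδ)
    · exact key u2 l2 (hu2 δ hδ)
  set W0 : Submodule ℂ D := W ⊓ LinearMap.ker (evE l) with hW0
  have c3 := rn_prod (evP p) (evE l) W0
  have c4 : finrank ℂ ((W0 ⊓ LinearMap.ker (evP p)).map (evE l) : Submodule ℂ E) = 0 := by
    have : (W0 ⊓ LinearMap.ker (evP p)).map (evE l) = ⊥ := by
      rw [eq_bot_iff]
      rintro _ ⟨δ, hδ, rfl⟩
      exact hδ.1.2
    rw [this]
    simp
  have c5 : finrank ℂ (W0.map (evP p)) ≤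
      finrank ℂ (LinearMap.ker (PAY_L l h F z w a b c d)) := by
    refine Submodule.finrank_mono ?_
    rintro _ ⟨δ, hδ, rfl⟩
    have hδW : δ ∈ W := hδ.1
    have hδl : dE δ l = 0 := hδ.2
    rw [LinearMap.mem_ker]
    have e1 : ∀ i, l ⬝ᵥ dE δ (p i) = 0 := by
      intro i
      have := d_dot δ l (p i)
      rw [hl, hδl, map_zero, zero_dotProduct, zero_add] at this
      exact this.symm
    have e2 : ∀ (v : Fin 4 → ℂ) (u : E), ∑ i, v i • p i = u → dE δ u = 0 →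
        ∑ i, v i * (h ⬝ᵥ dE δ (p i)) = 0 := by
      intro v u hv hdu
      rw [← hv, dE_sum] at hdu
      have := congrArg (fun q => h ⬝ᵥ q) hdu
      simp only [dE_smul, dotProduct_sum, dotProduct_add, dotProduct_smul, hh, smul_eq_mul, mul_zero,
        zero_add, dotProduct_zero] at this
      exact this
    have e3 : a * (F ⬝ᵥ dE δ (p c)) + b * (F ⬝ᵥ dE δ (p d)) = 0 := by
      have := congrArg (fun q => F ⬝ᵥ dE δ q) hrel
      simp only [dE_add, dE_smul, dotProduct_add, dotProduct_smul, hFc, hFd, hFu1, hFu2,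
        hu1 δ hδW, hu2 δ hδW, smul_eq_mul, mul_zero, zero_add, add_zero, dotProduct_zero] at this
      exact this
    refine Prod.ext (funext e1) (Prod.ext ?_ (Prod.ext ?_ ?_))
    · exact e2 z u1 hz (hu1 δ hδW)
    · exact e2 w u2 hw (hu2 δ hδW)
    · exact e3
  have c6 := PAY_rank l h F z w a b c d hcd ha hi hzw
  have c7 : finrank ℂ (W0.map (evB p l)) = finrank ℂ (W0.map (evP p)) := by
    rw [evB, c3, c4, add_zero]
  omega

end Pool.Agent.Work.MP_ea8963_ag.G5
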