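import Pool.Agent.Work.MP_ea8963_ag.G5.Stmts3

/-!
Block [ea8963 G5], item PBX: the possible derivatives of the parameters (helper57).
-/

set_option linter.style.longLine false
set_option linter.unusedVariables false

noncomputable section

open Module
open Pool.Agent.Work.MP_ea8963_ag.G4 (pair)

namespace Pool.Agent.Work.MP_ea8963_ag.G5

/-- the pairing between the elements `x` and the families `d` of parameters -/
def PBX_phi (s : T3) (p : Fin 4 → E) (A : Submodule ℂ XX) : A →ₗ[ℂ] Dual ℂ (Fin 4 → La) where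
  toFun x :=
    { toFun := fun d => ∑ i, tri s (d i) (p i) (x.1.1 i)
      map_add' := fun d e => by
        simp only [Pi.add_apply, tri_add1, Finset.sum_add_distrib]
      map_smul' := fun c d => by
        simp only [Pi.smul_apply, tri_smul1, ← Finset.mul_sum, RingHom.id_apply, smul_eq_mul] }
  map_add' x y := by
    refine LinearMap.ext (fun d => ?_)
    simp only [LinearMap.coe_mk, AddHom.coe_mk, LinearMap.add_apply, Submodule.coe_add,
      Prod.fst_add, Pi.add_apply, tri_add3, Finset.sum_add_distrib]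
  map_smul' c x := by
    refine LinearMap.ext (fun d => ?_)
    simp only [LinearMap.coe_mk, AddHom.coe_mk, LinearMap.smul_apply, Submodule.coe_smul,
      Prod.smul_fst, Pi.smul_apply, tri_smul3, ← Finset.mul_sum, RingHom.id_apply, smul_eq_mul]

lemma PBX_phi_apply (s : T3) (p : Fin 4 → E) (A : Submodule ℂ XX) (x : A) (d : Fin 4 → La) :
    PBX_phi s p A x d = ∑ i, tri s (d i) (p i) (x.1.1 i) := rfl

/-- `c ↦ (c i • lam i)_i` -/
def PBX_mul (lam : Fin 4 → La) : (Fin 4 → ℂ) →ₗ[ℂ] (Fin 4 → La) where
  toFun c := fun i => c i • lam i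
  map_add' c d := by ext i j; simp [add_mul]
  map_smul' a c := by ext i j; simp [mul_assoc]

lemma PBX_mul_apply (lam : Fin 4 → La) (c : Fin 4 → ℂ) (i : Fin 4) :
    PBX_mul lam c i = c i • lam i := rfl

/-- `c ↦ (c i • p i, - c i • lam i)_i` -/
def PBX_tri (p : Fin 4 → E) (lam : Fin 4 → La) : (Fin 4 → ℂ) →ₗ[ℂ] XX where
  toFun c := (fun i => c i • p i, fun i => -(c i • lam i))
  map_add' c d := by ext i j <;> simp <;> ring
  map_smul' a c := by ext i j <;> simp <;> ring

lemma PBX_finrank_Tri (p : Fin 4 → E) (lam : Fin 4 → La) : finrank ℂ (Tri p lam) ≤ 4 := by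
  have h1 : Tri p lam ≤ LinearMap.range (PBX_tri p lam) := by
    rintro x ⟨c, rfl⟩
    exact ⟨c, rfl⟩
  have h2 := Submodule.finrank_mono h1
  have h3 := LinearMap.finrank_range_le (PBX_tri p lam)
  simp only [Module.finrank_fintype_fun_eq_card, Fintype.card_fin] at h3
  omega

theorem PBX_pf (hINj : INJ) : PBX := by
  intro p l lam h f g hS s c hc hc0 hpf hl
  set A := AS p l lam (PP l h f g) with hA
  have hpair := pair (PBX_phi s p A)
  have h12 : finrank ℂ (Fin 4 → La) = 12 := by
    simp [Module.finrank_pi_fintype]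
  -- the kernel
  have hker : finrank ℂ (LinearMap.ker (PBX_phi s p A)) ≤ 4 := by
    have h1 : (LinearMap.ker (PBX_phi s p A)).map A.subtype ≤ Tri p lam := by
      rintro _ ⟨x, hx, rfl⟩
      refine hINj p l lam h f g hS s c hc hc0 hpf x.1 x.2 (fun i a => ?_)
      have h2 : PBX_phi s p A x (Pi.single i a) = 0 := by
        rw [LinearMap.mem_ker.1 hx]; rfl
      rw [PBX_phi_apply, Finset.sum_eq_single i] at h2
      · rwa [Pi.single_eq_same] at h2
      · intro j _ hj
        rw [Pi.single_eq_of_ne hj, tri_zero1]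
      · intro hi; exact absurd (Finset.mem_univ i) hi
    have h2 := Submodule.finrank_mono h1
    rw [Submodule.finrank_map_subtype_eq] at h2
    exact h2.trans (PBX_finrank_Tri p lam)
  -- the coannihilator
  set C := (LinearMap.range (PBX_phi s p A)).dualCoannihilator with hC
  have hmemC : ∀ d : Fin 4 → La, (∀ x ∈ A, ∑ i, tri s (d i) (p i) (x.1 i) = 0) → d ∈ C := by
    intro d hd
    rw [hC, Submodule.mem_dualCoannihilator]
    rintro _ ⟨x, rfl⟩
    exact hd x.1 x.2
  have hUD : UD s p A ≤ C := fun d hd => hmemC d hd.2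
  have hL : LinearMap.range (PBX_mul lam) ≤ C := by
    rintro _ ⟨a, rfl⟩
    refine hmemC _ (fun x hx => ?_)
    refine Finset.sum_eq_zero (fun i _ => ?_)
    rw [PBX_mul_apply, tri_smul1, hl i _ (hx.1 i), mul_zero]
  have hinj : Function.Injective (PBX_mul lam) := by
    rw [injective_iff_map_eq_zero]
    intro a ha
    ext i
    have h1 := congrFun (congrFun ha i) 0
    rw [PBX_mul_apply, Pi.smul_apply, hS.nrm i, smul_eq_mul, mul_one] at h1
    exact h1
  have hLr : finrank ℂ (LinearMap.range (PBX_mul lam)) = 4 := by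
    rw [LinearMap.finrank_range_of_inj hinj]; simp
  have hdis : UD s p A ⊓ LinearMap.range (PBX_mul lam) = ⊥ := by
    rw [eq_bot_iff]
    rintro _ ⟨h1, ⟨a, rfl⟩⟩
    have h2 : a = 0 := by
      ext i
      have h3 := h1.1 i
      rw [PBX_mul_apply, Pi.smul_apply, hS.nrm i, smul_eq_mul, mul_one] at h3
      exact h3
    rw [h2, map_zero]
    exact Submodule.zero_mem _
  have hsup := Submodule.finrank_sup_add_finrank_inf_eq (UD s p A) (LinearMap.range (PBX_mul lam))
  rw [hdis, finrank_bot, hLr] at hsup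
  have hle := Submodule.finrank_mono (sup_le hUD hL)
  omega

end Pool.Agent.Work.MP_ea8963_ag.G5
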