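import Pool.Agent.Work.MP_ea8963_ag.G5.Stmts3

/-!
Block [ea8963 G5]: item PCX.
-/

set_option linter.style.longLine false
set_option linter.unusedVariables false

noncomputable section

open Module Topology
open Pool.Agent.Work.MP_ea8963_ag.G4 (D ZA mem_ZA Full cl rn rn_prod rn_le finrank_map_mono
  finrank_map_prod_swap pair d_two ZA_mono)

namespace Pool.Agent.Work.MP_ea8963_ag.G5

/-- the functional of a net `pr f r` is zero if `f` kills all the vectors -/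
lemma PCX_val_pr (f : E) (r : Fin 3 → E) (p : Fin 4 → E) (lam : Fin 4 → La) (x : XX)
    (h1 : ∀ i, f ⬝ᵥ p i = 0) (h2 : ∀ i, f ⬝ᵥ x.1 i = 0) : val p lam (pr f r) x = 0 := by
  unfold val
  refine Finset.sum_eq_zero fun i _ => ?_
  rw [tri_pr, tri_pr, h1 i, h2 i]
  ring

lemma PCX_val_sp (c : La) (f g : E) (p : Fin 4 → E) (lam : Fin 4 → La) (x : XX)
    (h1 : ∀ i, g ⬝ᵥ p i = 0) (h2 : ∀ i, g ⬝ᵥ x.1 i = 0) : val p lam (sp c f g) x = 0 := by
  unfold val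
  refine Finset.sum_eq_zero fun i _ => ?_
  rw [tri_sp, tri_sp, h1 i, h2 i]
  ring

lemma PCX_pr_KU {f : E} {U : Submodule ℂ E} (hf : ∀ x ∈ U, f ⬝ᵥ x = 0) (r : Fin 3 → E) :
    pr f r ∈ KU U := by
  refine mem_KU.2 ⟨pr_mem _ _, fun a x hx y hy => ?_⟩
  rw [tri_pr, hf x hx, hf y hy]
  ring

lemma PCX_pr_KB {p : Fin 4 → E} {l : E} {lam : Fin 4 → La} (lp : ∀ i, l ⬝ᵥ p i = 0)
    (r : Fin 3 → E) : pr l r ∈ KB p l lam := by
  refine mem_KB.2 ⟨pr_mem _ _, fun i v hv => ?_, fun i a => ?_⟩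
  · rw [tri_pr, lp i, hv]
    ring
  · rw [tri_pr, lp i]
    ring

lemma PCX_pr_KB' {p : Fin 4 → E} {l h : E} {lam : Fin 4 → La} (hp : ∀ i, h ⬝ᵥ p i = 0)
    {r : Fin 3 → E} (hr : ∀ i, con r (lam i) ⬝ᵥ p i = 0) : pr h r ∈ KB p l lam := by
  refine mem_KB.2 ⟨pr_mem _ _, fun i v hv => ?_, fun i a => ?_⟩
  · rw [tri_pr, hp i, hr i]
    ring
  · rw [tri_pr, hp i]
    ring

lemma PCX_lh {l h f g : E} (H : LinearIndependent ℂ ![l, h, f, g]) :
    LinearIndependent ℂ ![l, h] := by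
  have h1 := H.comp ![0, 1] (by decide)
  have e : (![l, h, f, g] : Fin 4 → E) ∘ ![0, 1] = ![l, h] := by
    funext i
    fin_cases i <;> rfl
  rwa [e] at h1

/-- a form which kills the points is a combination of `l` and `h` -/
lemma PCX_span {p : Fin 4 → E} {l h : E} (ip : LinearIndependent ℂ p)
    (il : LinearIndependent ℂ ![l, h]) (lp : ∀ i, l ⬝ᵥ p i = 0) (hp : ∀ i, h ⬝ᵥ p i = 0) {F : E}
    (hF : ∀ i, F ⬝ᵥ p i = 0) : ∃ c d : ℂ, F = c • l + d • h := by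
  have h1 : Submodule.span ℂ (Set.range p) ≤ Ann ![l, h] := by
    rw [Submodule.span_le]
    rintro _ ⟨i, rfl⟩
    rw [SetLike.mem_coe, mem_Ann]
    intro j
    fin_cases j
    · exact lp i
    · exact hp i
  have h2 : finrank ℂ (Submodule.span ℂ (Set.range p)) = 4 := by
    rw [finrank_span_eq_card ip]
    simp
  have h3 : finrank ℂ (Ann ![l, h]) + 2 = 4 + 2 := finrank_Ann il
  have h3' : finrank ℂ (Ann ![l, h]) = 4 := Nat.add_right_cancel h3
  have h4 : Submodule.span ℂ (Set.range p) = Ann ![l, h] :=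
    Submodule.eq_of_le_of_finrank_eq h1 (h2.trans h3'.symm)
  have h5 : F ∈ Submodule.span ℂ (Set.range ![l, h]) := by
    apply mem_span_of_ann il
    intro x hx
    have hx' : x ∈ Submodule.span ℂ (Set.range p) := by
      rw [h4]
      exact hx
    obtain ⟨c, rfl⟩ := (Submodule.mem_span_range_iff_exists_fun ℂ).1 hx'
    rw [dotProduct_sum]
    refine Finset.sum_eq_zero fun i _ => ?_
    rw [dotProduct_smul, hF i, smul_zero]
  obtain ⟨c, hc⟩ := (Submodule.mem_span_range_iff_exists_fun ℂ).1 h5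
  refine ⟨c 0, c 1, ?_⟩
  rw [← hc, Fin.sum_univ_two]
  rfl

/-- the linear system for `a`, `b` -/
lemma PCX_solve (hRHo : RHO) {p : Fin 4 → E} {l : E} {lam : Fin 4 → La} {h f g : E}
    (H : Side p l lam h f g) (y : Fin 4 → ℂ) : ∃ a b : La, ∀ i,
    (a ⬝ᵥ lam i) * (f ⬝ᵥ p i) + (b ⬝ᵥ lam i) * (g ⬝ᵥ p i) = y i := by
  obtain ⟨ρ, hρ0, hρ1, hρ2⟩ := hRHo lam H.gp
  let A : Fin 4 → Fin (3 + 3) → ℂ := fun i =>
    Fin.append ((f ⬝ᵥ p i) • lam i) ((g ⬝ᵥ p i) • lam i)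
  have hA : LinearIndependent ℂ A := by
    rw [Fintype.linearIndependent_iff]
    intro x hx
    have e1 : ∑ i, (x i * (f ⬝ᵥ p i)) • lam i = 0 := by
      funext k
      have := congrFun hx (Fin.castAdd 3 k)
      simp only [Finset.sum_apply, Pi.smul_apply, smul_eq_mul, A, Fin.append_left,
        Pi.zero_apply] at this ⊢
      rw [← this]
      refine Finset.sum_congr rfl fun i _ => ?_
      ring
    have e2 : ∑ i, (x i * (g ⬝ᵥ p i)) • lam i = 0 := by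
      funext k
      have := congrFun hx (Fin.natAdd 3 k)
      simp only [Finset.sum_apply, Pi.smul_apply, smul_eq_mul, A, Fin.append_right,
        Pi.zero_apply] at this ⊢
      rw [← this]
      refine Finset.sum_congr rfl fun i _ => ?_
      ring
    obtain ⟨κ, hκ⟩ := hρ2 _ e1
    obtain ⟨κ', hκ'⟩ := hρ2 _ e2
    have hκ1 : ∀ i, x i * (f ⬝ᵥ p i) = κ * ρ i := fun i => congrFun hκ i
    have hκ2 : ∀ i, x i * (g ⬝ᵥ p i) = κ' * ρ i := fun i => congrFun hκ' i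
    have hκ0 : κ = 0 := by
      by_contra hne
      have hF : ∀ i, (g - (κ' / κ) • f) ⬝ᵥ p i = 0 := by
        intro i
        have hxi : x i ≠ 0 := by
          intro h0
          have := hκ1 i
          rw [h0, zero_mul] at this
          exact mul_ne_zero hne (hρ0 i) this.symm
        rw [sub_dotProduct, smul_dotProduct, smul_eq_mul]
        apply mul_left_cancel₀ hxi
        have h1 := hκ1 i
        have h2 := hκ2 i
        have h3 : κ' / κ * κ = κ' := div_mul_cancel₀ _ hne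
        rw [mul_zero]
        linear_combination h2 - (κ' / κ) * h1 - ρ i * h3
      obtain ⟨c, d, hcd⟩ := PCX_span H.ind (PCX_lh H.fi) H.lp H.hp hF
      have h4 := Fintype.linearIndependent_iff.1 H.fi ![c, d, κ' / κ, -1] (by
        rw [Fin.sum_univ_four]
        show c • l + d • h + (κ' / κ) • f + (-1 : ℂ) • g = 0
        rw [← hcd]
        module) 3
      exact (neg_ne_zero.2 one_ne_zero) h4
    intro i
    have := hκ1 i
    rw [hκ0, zero_mul] at this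
    exact (mul_eq_zero.1 this).resolve_right (H.fp i)
  obtain ⟨z, hz⟩ := exists_solution hA y
  refine ⟨fun k => z (Fin.castAdd 3 k), fun k => z (Fin.natAdd 3 k), fun i => ?_⟩
  rw [← hz i]
  simp only [dotProduct, Fin.sum_univ_add, A, Fin.append_left, Fin.append_right, Pi.smul_apply,
    smul_eq_mul]
  rw [Finset.sum_mul, Finset.sum_mul]
  congr 1
  · refine Finset.sum_congr rfl fun k _ => ?_
    ring
  · refine Finset.sum_congr rfl fun k _ => ?_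
    ring

/-- step 2: if all `h' ⬝ᵥ v i` vanish then `x` is in `A` -/
lemma PCX_step2 (hDEc : DEC) (hRHo : RHO) {p : Fin 4 → E} {l : E} {lam : Fin 4 → La} {h f g : E}
    (H : Side p l lam h f g) {p' : Fin 4 → E} {lam' : Fin 4 → La}
    (fp' : ∀ i, f ⬝ᵥ p' i = 0) (gp' : ∀ i, g ⬝ᵥ p' i = 0) {x : XX}
    (hx : x ∈ AK p' f lam' (KB p l lam ⊓ KU (PP l h f g))) (hg : ∀ i, g ⬝ᵥ x.1 i = 0) :
    x ∈ AS p' f lam' (PP l h f g) := by
  obtain ⟨hx1, hx2⟩ := mem_AK.1 hx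
  refine mem_AS.2 ⟨hx1, fun t ht => ?_⟩
  have hf : ∀ i, f ⬝ᵥ x.1 i = 0 := hx1
  obtain ⟨r, hr⟩ := hDEc 4 ![l, h, f, g] H.fi t ht
  rw [Fin.sum_univ_four] at hr
  have hr' : t = pr l (r 0) + pr h (r 1) + pr f (r 2) + pr g (r 3) := hr
  have hl0 : ∀ y ∈ PP l h f g, l ⬝ᵥ y = 0 := fun y hy => (mem_PP.1 hy).1
  have hh0 : ∀ y ∈ PP l h f g, h ⬝ᵥ y = 0 := fun y hy => (mem_PP.1 hy).2.1
  have v1 : val p' lam' (pr l (r 0)) x = 0 :=
    hx2 _ ⟨PCX_pr_KB H.lp _, PCX_pr_KU hl0 _⟩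
  have v3 : val p' lam' (pr f (r 2)) x = 0 := PCX_val_pr _ _ _ _ _ fp' hf
  have v4 : val p' lam' (pr g (r 3)) x = 0 := PCX_val_pr _ _ _ _ _ gp' hg
  obtain ⟨a, b, hab⟩ := PCX_solve hRHo H (fun i => -(con (r 1) (lam i) ⬝ᵥ p i))
  have e : pr h (fun k => r 1 k + a k • f + b k • g) = pr h (r 1) + sp a h f + sp b h g := by
    funext k i j
    simp only [pr, sp, Pi.add_apply, Pi.smul_apply, smul_eq_mul]
    ring
  have hc : ∀ i, con (fun k => r 1 k + a k • f + b k • g) (lam i) ⬝ᵥ p i = 0 := by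
    intro i
    rw [con_dot]
    have h1 := hab i
    rw [con_dot] at h1
    have ha : a ⬝ᵥ lam i = ∑ k, a k * lam i k := rfl
    have hb : b ⬝ᵥ lam i = ∑ k, b k * lam i k := rfl
    simp only [add_dotProduct, smul_dotProduct, smul_eq_mul]
    have h2 : ∑ k, lam i k * (r 1 k ⬝ᵥ p i + a k * (f ⬝ᵥ p i) + b k * (g ⬝ᵥ p i)) =
        ∑ k, lam i k * (r 1 k ⬝ᵥ p i) + (a ⬝ᵥ lam i) * (f ⬝ᵥ p i) +
        (b ⬝ᵥ lam i) * (g ⬝ᵥ p i) := by
      rw [ha, hb, Finset.sum_mul, Finset.sum_mul, ← Finset.sum_add_distrib,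
        ← Finset.sum_add_distrib]
      refine Finset.sum_congr rfl fun k _ => ?_
      ring
    rw [h2]
    linear_combination h1
  have v2 : val p' lam' (pr h (r 1)) x = 0 := by
    have h1 : val p' lam' (pr h (fun k => r 1 k + a k • f + b k • g)) x = 0 :=
      hx2 _ ⟨PCX_pr_KB' H.hp hc, PCX_pr_KU hh0 _⟩
    rw [e, val_add_tensor, val_add_tensor, PCX_val_sp a h f _ _ _ fp' hf,
      PCX_val_sp b h g _ _ _ gp' hg, add_zero, add_zero] at h1
    exact h1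
  rw [hr', val_add_tensor, val_add_tensor, val_add_tensor, v1, v2, v3, v4]
  simp

/-- step 1: the numbers `h' ⬝ᵥ v i` vanish as soon as one of them vanishes -/
lemma PCX_step1 (hRHo : RHO) {p : Fin 4 → E} {l : E} {lam : Fin 4 → La} {h f g : E}
    (H : Side p l lam h f g) {p' : Fin 4 → E} {lam' : Fin 4 → La} (gp' : GP lam')
    (lp' : ∀ i, l ⬝ᵥ p' i ≠ 0) (hg' : ∀ i, g ⬝ᵥ p' i = 0) {x : XX}
    (hx : x ∈ AK p' f lam' (KB p l lam ⊓ KU (PP l h f g))) (hg : g ⬝ᵥ x.1 0 = 0) (i : Fin 4) :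
    g ⬝ᵥ x.1 i = 0 := by
  obtain ⟨hx1, hx2⟩ := mem_AK.1 hx
  obtain ⟨ρ, hρ0, hρ1, hρ2⟩ := hRHo lam' gp'
  have hl0 : ∀ y ∈ PP l h f g, l ⬝ᵥ y = 0 := fun y hy => (mem_PP.1 hy).1
  have e1 : ∀ e : La, e ⬝ᵥ (∑ i, ((l ⬝ᵥ p' i) * (g ⬝ᵥ x.1 i)) • lam' i) = 0 := by
    intro e
    have h1 : val p' lam' (sp e l g) x = 0 := hx2 _ ⟨PCX_pr_KB H.lp _, PCX_pr_KU hl0 _⟩
    rw [← h1, dotProduct_sum]
    unfold val
    refine Finset.sum_congr rfl fun i _ => ?_
    rw [tri_sp, tri_sp, hg' i, dotProduct_smul, smul_eq_mul]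
    ring
  obtain ⟨κ, hκ⟩ := hρ2 _ (eq_zero_of_dot e1)
  have hκ1 : ∀ i, (l ⬝ᵥ p' i) * (g ⬝ᵥ x.1 i) = κ * ρ i := fun i => congrFun hκ i
  have h0 := hκ1 0
  rw [hg, mul_zero] at h0
  have hκ0 : κ = 0 := (mul_eq_zero.1 h0.symm).resolve_right (hρ0 0)
  have h1 := hκ1 i
  rw [hκ0, zero_mul] at h1
  exact (mul_eq_zero.1 h1).resolve_left (lp' i)

/-- the functional `x ↦ g ⬝ᵥ x.1 0` -/
def PCX_phi (g : E) : XX →ₗ[ℂ] ℂ where
  toFun x := g ⬝ᵥ x.1 0
  map_add' x y := by simp [dotProduct_add]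
  map_smul' c x := by simp [dotProduct_smul]

theorem PCX_pf (hDEc : DEC) (hRHo : RHO) : PCX := by
  intro s p l lam m p' l' lam' m' h h' H
  set R := AK p' l' lam' (KB p l lam ⊓ KU (PP l h l' h')) with hR
  set A := AS p' l' lam' (PP l h l' h') with hA
  have h1 := rn_le (LinearMap.id : XX →ₗ[ℂ] XX) (PCX_phi h') R
  have h2 : finrank ℂ (R.map (PCX_phi h')) ≤ 1 := by
    have := Submodule.finrank_le (R.map (PCX_phi h'))
    rwa [Module.finrank_self] at this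
  have h3 : finrank ℂ ((R ⊓ LinearMap.ker (PCX_phi h')).map (LinearMap.id : XX →ₗ[ℂ] XX) :
      Submodule ℂ XX) ≤ finrank ℂ A := by
    apply Submodule.finrank_mono
    rw [Submodule.map_id]
    rintro x ⟨hx, hk⟩
    have hk' : h' ⬝ᵥ x.1 0 = 0 := hk
    exact PCX_step2 hDEc hRHo H.side H.o'.lp H.hp' hx
      (fun i => PCX_step1 hRHo H.side H.o'.gp H.t' H.hp' hx hk' i)
  rw [Submodule.map_id] at h1
  omega

end Pool.Agent.Work.MP_ea8963_ag.G5
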