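import Pool.Agent.Work.MP_ea8963_ag.G5.Stmts3

/-!
Block [ea8963 G5], item PDY: the plane `P` moves in at least four dimensions.
-/

set_option linter.style.longLine false
set_option linter.unusedVariables false

noncomputable section

open Module Topology
open Pool.Agent.Work.MP_ea8963_ag.G4 (D ZA mem_ZA Full cl rn rn_prod rn_le finrank_map_mono
  finrank_map_prod_swap pair d_two ZA_mono)

namespace Pool.Agent.Work.MP_ea8963_ag.G5

lemma PDY_prop {lam : Fin 4 → La} (hg : GP lam) (i k : Fin 4) (hik : i ≠ k) (c : ℂ) :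
    lam i ≠ c • lam k := by
  intro h
  have key : ∀ i k : Fin 4, ∃ j : Fin 4, i ≠ j ∧ k ≠ j := by decide
  obtain ⟨j, h1, h2⟩ := key i k
  have h3 := hg i k j hik h1 h2
  rw [h, dt_smul1, dt_self12, mul_zero] at h3
  exact h3 rfl

/-- a vector of `P` is a combination of `u1`, `u2` -/
lemma PDY_comb {l h f g u1 u2 v : E} (hfi : LinearIndependent ℂ ![l, h, f, g])
    (hu : LinearIndependent ℂ ![u1, u2]) (h1 : u1 ∈ PP l h f g) (h2 : u2 ∈ PP l h f g)
    (hv : v ∈ PP l h f g) : ∃ x y : ℂ, v = x • u1 + y • u2 := by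
  have hd : finrank ℂ (PP l h f g) + 4 = 6 := finrank_Ann hfi
  have hs : finrank ℂ (Submodule.span ℂ (Set.range ![u1, u2])) = 2 := by
    rw [finrank_span_eq_card hu]; rfl
  have hle : Submodule.span ℂ (Set.range ![u1, u2]) ≤ PP l h f g := by
    rw [Submodule.span_le]
    rintro _ ⟨i, rfl⟩
    fin_cases i
    · exact h1
    · exact h2
  have heq := Submodule.eq_of_le_of_finrank_eq hle (by omega)
  rw [← heq, Matrix.range_cons, Matrix.range_cons, Matrix.range_empty, Set.union_empty,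
    Set.singleton_union, Submodule.mem_span_pair] at hv
  obtain ⟨x, y, hxy⟩ := hv
  exact ⟨x, y, hxy.symm⟩

/-- the derivatives of the parameters -/
lemma PDY_UD {s : T3} (hs : s ∈ SymT) {p : Fin 4 → E} {l : E} {lam : Fin 4 → La}
    {m : Fin 4 → ℂ} (h : Opt s p l lam m) {P : Submodule ℂ E} {δ : D} (hB : δ ∈ ZB p l)
    (hK : dT δ s ∈ KU P) : evP lam δ ∈ UD s p (AS p l lam P) := by
  rw [mem_UD]
  refine ⟨fun i => h.dlam0 δ i, fun x hx => ?_⟩
  obtain ⟨hx1, hx2⟩ := mem_AS.1 hx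
  have hx3 := mem_RW.1 hx1
  obtain ⟨hp, hl⟩ := mem_ZB.1 hB
  have h1 := hx2 _ hK
  have h2 : ∀ i, tri s (evP lam δ i) (p i) (x.1 i) =
      -(tri (dT δ s) (lam i) (p i) (x.1 i) + tri (dT δ s) (x.2 i) (p i) (p i)) := by
    intro i
    have h3 := h.d_q0 hs δ i (x.2 i)
    rw [hp i, tri_zero3, mul_zero, add_zero] at h3
    have h4 := congrArg (fun z => z ⬝ᵥ x.1 i) (h.d_eq δ i)
    simp only [hp i, hl, cov_zero_right, smul_zero, add_zero, add_dotProduct, smul_dotProduct,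
      hx3 i] at h4
    rw [h3, evP_apply, tri, tri]
    linear_combination h4
  rw [Finset.sum_congr rfl fun i _ => h2 i, Finset.sum_neg_distrib, neg_eq_zero]
  exact h1

theorem PDY_pf (hDKb : DKB) (hAKx : AKX) (hPAy : PAY) (hPBx : PBX) (hPCx : PCX) : PDY := by
  intro s p l lam m p' l' lam' m' h h' H u1 u2 hu hu1 hu2 c d hcd hz
  have hs : s ∈ SymT := H.g.1
  have hlam : ∀ i, lam i ≠ 0 := fun i h0 => by
    have := H.o.nrm i
    rw [h0] at this
    simp at this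
  set P : Submodule ℂ E := PP l h l' h' with hP
  have hPc : PP l' h' l h = P := PP_comm l h l' h'
  have m1 := mem_PP.1 hu1
  have m2 := mem_PP.1 hu2
  set W : Submodule ℂ D := ZC p l lam with hW
  set F := (evT s).prod (evC p' l' lam') with hF
  -- (1)
  have a1 : finrank ℂ (W.map F) = finrank ℂ (W.map (evT s)) +
      finrank ℂ ((W ⊓ LinearMap.ker (evT s)).map (evC p' l' lam') :
      Submodule ℂ (((Fin 4 → E) × E) × (Fin 4 → La))) := rn_prod (evT s) (evC p' l' lam') W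
  have a2 : finrank ℂ SymT ≤ finrank ℂ (W.map (evT s)) + 28 := H.o.rkS
  have a3 : 6 ≤ finrank ℂ ((W ⊓ LinearMap.ker (evT s)).map (evC p' l' lam') :
      Submodule ℂ (((Fin 4 → E) × E) × (Fin 4 → La))) := by
    refine H.rk.trans ?_
    have e : (ZS s ⊓ ZB p l).map (evB p' l') = ((ZS s ⊓ ZB p l).map (evC p' l' lam')).map
        (LinearMap.fst ℂ ((Fin 4 → E) × E) (Fin 4 → La)) := by
      rw [← Submodule.map_comp]
      rfl
    rw [e]
    refine (Submodule.finrank_map_le _ _).trans ?_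
    exact finrank_map_mono _ H.o.inf_le_ZC
  -- (2)
  have b1 := rn_le F (evP ![u1, u2]) W
  set W1 : Submodule ℂ D := W ⊓ LinearMap.ker (evP ![u1, u2]) with hW1
  -- (3)
  set g := (KU P).mkQ.comp (evT s) with hg
  have c1 := rn_le F g W1
  have c2 : finrank ℂ (W1.map g) ≤ finrank ℂ ((KB p l lam).map (KU P).mkQ) := by
    refine Submodule.finrank_mono ?_
    rintro _ ⟨δ, hδ, rfl⟩
    exact ⟨dT δ s, H.o.dT_mem_KB hs hδ.1, rfl⟩
  have c3 := finrank_map_mkQ (KB p l lam) (KU P)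
  have c4 := (hDKb p l lam H.o.ind H.o.l0 H.o.lp hlam (PDY_prop H.o.gp)).1
  set W2 : Submodule ℂ D := W1 ⊓ LinearMap.ker g with hW2
  set K : Submodule ℂ T3 := KB p l lam ⊓ KU P with hK
  -- (4)
  have d1 : finrank ℂ (W2.map F) = finrank ℂ (W2.map (evC p' l' lam')) +
      finrank ℂ ((W2 ⊓ LinearMap.ker (evC p' l' lam')).map (evT s) : Submodule ℂ T3) := by
    rw [hF, finrank_map_prod_swap, rn_prod]
  have hgK : ∀ δ ∈ W2, dT δ s ∈ KU P := by
    intro δ hδ
    have h1 : (KU P).mkQ (dT δ s) = 0 := hδ.2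
    rwa [Submodule.mkQ_apply, Submodule.Quotient.mk_eq_zero] at h1
  have d2 : finrank ℂ ((W2 ⊓ LinearMap.ker (evC p' l' lam')).map (evT s) : Submodule ℂ T3)
      ≤ finrank ℂ (K ⊓ KB p' l' lam' : Submodule ℂ T3) := by
    refine Submodule.finrank_mono ?_
    rintro _ ⟨δ, hδ, rfl⟩
    exact ⟨⟨H.o.dT_mem_KB hs hδ.1.1.1, hgK δ hδ.1⟩, H.o'.dT_mem_KB hs hδ.2⟩
  have d3 := hAKx p' l' lam' H.o'.l0 K (fun t ht => ht.1.1)
  have d4 : finrank ℂ (AK p' l' lam' K) ≤ finrank ℂ (AS p' l' lam' P) + 1 :=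
    hPCx s p l lam m p' l' lam' m' h h' H
  -- (5)
  have e1 : finrank ℂ (W2.map (evC p' l' lam')) = finrank ℂ (W2.map (evB p' l')) +
      finrank ℂ ((W2 ⊓ LinearMap.ker (evB p' l')).map (evP lam') : Submodule ℂ (Fin 4 → La)) :=
    rn_prod (evB p' l') (evP lam') W2
  have e2 : finrank ℂ (W2.map (evB p' l')) ≤ 21 := by
    have hv : (l ⬝ᵥ p' d) • p' c + (-(l ⬝ᵥ p' c)) • p' d ∈ PP l h l' h' := by
      rw [mem_PP]
      simp only [dotProduct_add, dotProduct_smul, smul_eq_mul, H.o'.lp, H.hp', mul_zero, add_zero,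
        and_self, and_true]
      refine ⟨by ring, ?_⟩
      rw [zz] at hz
      linear_combination hz
    obtain ⟨x, y, hxy⟩ := PDY_comb H.fi hu hu1 hu2 hv
    have hli : LinearIndependent ℂ ![l', h'] := by
      have h1 := H.fi.comp ![2, 3] (by decide)
      have e : (![l, h, l', h'] : Fin 4 → E) ∘ ![2, 3] = ![l', h'] := by
        funext i
        fin_cases i <;> rfl
      rwa [e] at h1
    refine hPAy p' l' h' u1 u2 H.o'.ind H.o'.lp H.hp' hli hu m1.2.2.1 m1.2.2.2 m2.2.2.1 m2.2.2.2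
      c d (l ⬝ᵥ p' d) (-(l ⬝ᵥ p' c)) x y hcd (H.t' d) hxy W2 ?_
    intro δ hδ
    have h1 := mem_ZP.1 (show δ ∈ ZP ![u1, u2] from hδ.1.2)
    exact ⟨mem_ZE.2 (h1 0), mem_ZE.2 (h1 1)⟩
  have e3 : finrank ℂ ((W2 ⊓ LinearMap.ker (evB p' l')).map (evP lam') :
      Submodule ℂ (Fin 4 → La)) ≤ finrank ℂ (UD s p' (AS p' l' lam' P)) := by
    refine Submodule.finrank_mono ?_
    rintro _ ⟨δ, hδ, rfl⟩
    exact PDY_UD hs H.o' hδ.2 (hgK δ hδ.1)
  have e4 : finrank ℂ (UD s p' (AS p' l' lam' P)) + finrank ℂ (AS p' l' lam' P) ≤ 12 := by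
    obtain ⟨cc, h1, h2, h3⟩ := H.o'.cf
    have := hPBx p' l' lam' h' l h H.swap.side s cc h1 h2 h3 (H.o'.mem_KB hs).2.1
    rwa [hPc] at this
  omega

end Pool.Agent.Work.MP_ea8963_ag.G5
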