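import Pool.Agent.Work.MP_ea8963_ag.G5.Stmts2
import Pool.Agent.Work.MP_ea8963_ag.G4.Stmts2

/-!
Block [ea8963 G5], item PTX: generic configurations nearby (model: the item of block G4).
-/

set_option linter.style.longLine false
set_option linter.unusedVariables false

noncomputable section

open Module Topology
open Pool.Agent.Work.MP_ea8963_ag.G4 (D ZA mem_ZA Full cl rn rn_prod rn_le finrank_map_mono
  finrank_map_prod_swap pair d_two ZA_mono)

namespace Pool.Agent.Work.MP_ea8963_ag.G5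

namespace I_PTX

lemma phi_zero {s : T3} {y : Y} (h : CfgY s y) : Phi s y = 0 := by
  refine Prod.ext (funext fun i => funext fun k => h.q0 i _) (funext fun j => ?_)
  change om s y 0 - cov s (laOf y j.succ) (pOf y j.succ) = 0
  rw [h.eq j.succ, sub_self]

lemma continuous_om (s : T3) : Continuous (fun y : Y => om s y 0) := by
  unfold om cov pOf laOf
  fun_prop

/-- the linear map `(c, y) ↦ (coordinates J of y) - c` -/
def RR (J : Fin 6 → Fin 4 × Fin 9) : (Fin 6 → ℂ) × Y →L[ℂ] (Fin 6 → ℂ) :=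
  ContinuousLinearMap.pi (fun k =>
    ((ContinuousLinearMap.proj (R := ℂ) (φ := fun _ : Fin 9 => ℂ) (J k).2).comp
      (ContinuousLinearMap.proj (R := ℂ) (φ := fun _ : Fin 4 => Fin 9 → ℂ) (J k).1)).comp
        (ContinuousLinearMap.snd ℂ (Fin 6 → ℂ) Y)
    - (ContinuousLinearMap.proj (R := ℂ) (φ := fun _ : Fin 6 => ℂ) k).comp
        (ContinuousLinearMap.fst ℂ (Fin 6 → ℂ) Y))

lemma RR_apply (J : Fin 6 → Fin 4 × Fin 9) (z : (Fin 6 → ℂ) × Y) :
    RR J z = fun k => z.2 (J k).1 (J k).2 - z.1 k := rfl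

/-- freeze the first variable and add a dummy variable -/
lemma strict_freeze {X Y' Z C : Type} [NormedAddCommGroup X] [NormedSpace ℂ X]
    [NormedAddCommGroup Y'] [NormedSpace ℂ Y'] [NormedAddCommGroup Z] [NormedSpace ℂ Z]
    [NormedAddCommGroup C] [NormedSpace ℂ C] {g : X × Y' → Z} {g' : X × Y' →L[ℂ] Z} {s : X} {y : Y'}
    (h : HasStrictFDerivAt g g' (s, y)) (c0 : C) :
    HasStrictFDerivAt (fun z : C × Y' => g (s, z.2))
      (g'.comp ((0 : C × Y' →L[ℂ] X).prod (ContinuousLinearMap.snd ℂ C Y'))) (c0, y) :=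
  HasStrictFDerivAt.comp (c0, y) (g := g) h
    ((hasStrictFDerivAt_const s (c0, y)).prodMk hasStrictFDerivAt_snd)

end I_PTX

open I_PTX

theorem PTX_pf (hSUX : SUX) (hSTX : STX) (hIFX : G4.IFX) (hJEX : JEX) (hCOX : COX) (hRYX : RYX)
    (hCHX : G4.CHX) : PTX := by
  intro s hs y hy A hA hsA O hO
  obtain ⟨g', hg', hgd⟩ := hSTX s y
  -- the six coordinates
  obtain ⟨J, hJ⟩ := hJEX (g'.comp (ContinuousLinearMap.inr ℂ T3 Y)).toLinearMap (by
    intro z
    obtain ⟨dy, hdy⟩ := hSUX s hs y hy z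
    refine ⟨dy, ?_⟩
    rw [← hdy, ← hgd dy]
    rfl)
  -- the function and its derivative
  set c0 : Fin 6 → ℂ := fun k => y (J k).1 (J k).2 with hc0
  have h1 := strict_freeze hg' c0
  have h2 : HasStrictFDerivAt (fun z : (Fin 6 → ℂ) × Y => RR J z) (RR J) (c0, y) :=
    (RR J).hasStrictFDerivAt
  have h3 := h1.prodMk h2
  -- the neighbourhood
  have hU : {y' : Y | (Phi s y' = 0 → CfgY s y') ∧ om s y' 0 ∈ O} ∈ 𝓝 y := by
    have hc : Filter.Tendsto (fun y' : Y => ((s, y') : T3 × Y)) (𝓝 y) (𝓝 (s, y)) :=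
      (Continuous.prodMk_right s).tendsto y
    have e1 : ∀ᶠ y' in 𝓝 y, Phi s y' = 0 → CfgY s y' := hc.eventually (hCOX s y hy)
    have e2 : ∀ᶠ y' in 𝓝 y, om s y' 0 ∈ O := (continuous_om s).continuousAt.eventually_mem hO
    filter_upwards [e1, e2] with y' a b using ⟨a, b⟩
  have h4 := hIFX (Fin 6 → ℂ) Y (Z30 × (Fin 6 → ℂ)) _ _ c0 y h3 (by
    rintro ⟨z, c⟩
    obtain ⟨dy, hdy, hdc⟩ := hJ z c
    refine ⟨dy, Prod.ext ?_ ?_⟩
    · exact hdy
    · change RR J (0, dy) = c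
      rw [RR_apply]
      funext k
      have := hdc k
      simp [this]) _ hU
  obtain ⟨ε, hε, hball⟩ := Metric.eventually_nhds_iff.1 h4
  obtain ⟨c, hc, hfull⟩ := hCHX A hA 6 c0 ε hε
  obtain ⟨y', hyU, hyg⟩ := hball (y := c) ((dist_pi_lt_iff hε).2 fun k => by
    rw [dist_eq_norm]; exact hc k)
  have h5 : Phi s y' = Phi s y := congrArg Prod.fst hyg
  have h6 : RR J (c, y') = RR J (c0, y) := congrArg Prod.snd hyg
  have h7 : (fun k => y' (J k).1 (J k).2) = c := by
    funext k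
    have h8 := congrFun h6 k
    rw [RR_apply, RR_apply] at h8
    simp only [hc0, sub_self] at h8
    exact sub_eq_zero.1 h8
  have h8 : CfgY s y' := hyU.1 (h5.trans (phi_zero hy))
  refine ⟨y', h8, hyU.2, hRYX s hs y' h8 A hsA J ?_⟩
  rw [h7]
  exact hfull

end Pool.Agent.Work.MP_ea8963_ag.G5
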