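import Pool.Agent.Work.MP_ea8963_ag.G5.Stmts3

/-!
Block [ea8963 G5], item QXX: the nets in `K_b ⊓ K_b'` whose functional `L_(x,t)` vanishes form a
space of codimension at most 56 in the symmetric nets.
-/

set_option linter.style.longLine false
set_option linter.unusedVariables false

noncomputable section

open Module Topology
open Pool.Agent.Work.MP_ea8963_ag.G4 (D ZA mem_ZA Full cl rn rn_prod rn_le finrank_map_mono
  finrank_map_prod_swap pair d_two ZA_mono)

namespace Pool.Agent.Work.MP_ea8963_ag.G5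

/-- the space of the derivatives of `(p', lam')` -/
abbrev QXX_Y : Type := (Fin 4 → E) × (Fin 4 → La)

/-- the functional `L t` -/
def QXX_L (p' : Fin 4 → E) (lam' : Fin 4 → La) (x : XX) : T3 →ₗ[ℂ] Dual ℂ QXX_Y where
  toFun t :=
    { toFun := fun y => ∑ i, (tri t (y.2 i) (p' i) (x.1 i) + tri t (lam' i) (y.1 i) (x.1 i)
        + 2 * tri t (x.2 i) (p' i) (y.1 i))
      map_add' := fun y z => by
        rw [← Finset.sum_add_distrib]
        refine Finset.sum_congr rfl fun i _ => ?_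
        simp only [Prod.fst_add, Prod.snd_add, Pi.add_apply, tri_add1, tri_add2, tri_add3]
        ring
      map_smul' := fun c y => by
        rw [RingHom.id_apply, smul_eq_mul, Finset.mul_sum]
        refine Finset.sum_congr rfl fun i _ => ?_
        simp only [Prod.smul_fst, Prod.smul_snd, Pi.smul_apply, tri_smul1, tri_smul2, tri_smul3]
        ring }
  map_add' t u := by
    refine LinearMap.ext fun y => ?_
    simp only [LinearMap.add_apply, LinearMap.coe_mk, AddHom.coe_mk]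
    rw [← Finset.sum_add_distrib]
    refine Finset.sum_congr rfl fun i _ => ?_
    simp only [tri_add_tensor]
    ring
  map_smul' c t := by
    refine LinearMap.ext fun y => ?_
    simp only [LinearMap.smul_apply, LinearMap.coe_mk, AddHom.coe_mk, RingHom.id_apply,
      smul_eq_mul]
    rw [Finset.mul_sum]
    refine Finset.sum_congr rfl fun i _ => ?_
    simp only [tri_smul_tensor]
    ring

lemma QXX_L_apply (p' : Fin 4 → E) (lam' : Fin 4 → La) (x : XX) (t : T3) (y : QXX_Y) :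
    QXX_L p' lam' x t y = ∑ i, (tri t (y.2 i) (p' i) (x.1 i) + tri t (lam' i) (y.1 i) (x.1 i)
      + 2 * tri t (x.2 i) (p' i) (y.1 i)) := rfl

/-- the possible derivatives -/
def QXX_T (l' : E) : Submodule ℂ QXX_Y where
  carrier := {y | (∀ i, l' ⬝ᵥ y.1 i = 0) ∧ ∀ i, y.2 i 0 = 0}
  zero_mem' := ⟨fun i => by simp, fun i => rfl⟩
  add_mem' := by
    rintro y z ⟨h1, h2⟩ ⟨g1, g2⟩
    refine ⟨fun i => ?_, fun i => ?_⟩
    · rw [Prod.fst_add, Pi.add_apply, dotProduct_add, h1, g1, add_zero]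
    · rw [Prod.snd_add, Pi.add_apply, Pi.add_apply, h2, g2, add_zero]
  smul_mem' := by
    rintro c y ⟨h1, h2⟩
    refine ⟨fun i => ?_, fun i => ?_⟩
    · rw [Prod.smul_fst, Pi.smul_apply, dotProduct_smul, h1, smul_zero]
    · rw [Prod.smul_snd, Pi.smul_apply, Pi.smul_apply, h2, smul_zero]

lemma QXX_mem_T {l' : E} {y : QXX_Y} : y ∈ QXX_T l' ↔
    (∀ i, l' ⬝ᵥ y.1 i = 0) ∧ ∀ i, y.2 i 0 = 0 := Iff.rfl

lemma QXX_T_le {l' : E} (hl : l' ≠ 0) : finrank ℂ (QXX_T l') ≤ 28 := by
  have hind : LinearIndependent ℂ (![l'] : Fin 1 → E) := by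
    rw [linearIndependent_unique_iff]
    exact hl
  have h1 := finrank_Ann hind
  let ψ : QXX_T l' →ₗ[ℂ] (Fin 4 → Ann (![l'] : Fin 1 → E)) × (Fin 4 → Fin 2 → ℂ) :=
    { toFun := fun y => (fun i => ⟨y.1.1 i, fun k => by
          rw [Subsingleton.elim k 0]; exact y.2.1 i⟩, fun i k => y.1.2 i k.succ)
      map_add' := fun y z => rfl
      map_smul' := fun c y => rfl }
  have hψ : Function.Injective ψ := by
    rintro ⟨⟨y1, y2⟩, hy⟩ ⟨⟨z1, z2⟩, hz⟩ heq
    have e1 := congrArg Prod.fst heq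
    have e2 := congrArg Prod.snd heq
    have f1 : y1 = z1 := by
      funext i
      exact congrArg Subtype.val (congrFun e1 i)
    have f2 : y2 = z2 := by
      funext i k
      refine Fin.cases ?_ (fun k => ?_) k
      · exact (hy.2 i).trans (hz.2 i).symm
      · exact congrFun (congrFun e2 i) k
    subst f1
    subst f2
    rfl
  have h2 := LinearMap.finrank_le_finrank_of_injective hψ
  have h3 : finrank ℂ ((Fin 4 → Ann (![l'] : Fin 1 → E)) × (Fin 4 → Fin 2 → ℂ)) = 28 := by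
    rw [finrank_prod, finrank_pi_fintype, finrank_pi_fintype]
    simp only [finrank_fin_fun, Finset.sum_const, Finset.card_univ, Fintype.card_fin, smul_eq_mul]
    omega
  omega

/-- the codimension count -/
lemma QXX_count {V Y : Type*} [AddCommGroup V] [Module ℂ V] [AddCommGroup Y] [Module ℂ Y]
    [FiniteDimensional ℂ V] [FiniteDimensional ℂ Y] (L : V →ₗ[ℂ] Dual ℂ Y) (M Q : Submodule ℂ V)
    (S T : Submodule ℂ Y) (hST : S ≤ T) (hS : ∀ t ∈ M, ∀ y ∈ S, L t y = 0)
    (hQ : ∀ t ∈ M, (∀ y ∈ T, L t y = 0) → t ∈ Q) :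
    finrank ℂ M + finrank ℂ S ≤ finrank ℂ Q + finrank ℂ T := by
  set ψ : M →ₗ[ℂ] Dual ℂ T := (T.dualRestrict.comp L).comp M.subtype with hψ
  have h1 := LinearMap.finrank_range_add_finrank_ker ψ
  have h2 : LinearMap.range ψ ≤ (S.comap T.subtype).dualAnnihilator := by
    rintro _ ⟨t, rfl⟩
    rw [Submodule.mem_dualAnnihilator]
    rintro ⟨y, hy⟩ hyS
    exact hS t.1 t.2 y hyS
  have h3 := Submodule.finrank_mono h2
  have h4 := Subspace.finrank_add_finrank_dualAnnihilator_eq (S.comap T.subtype)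
  have h5 : finrank ℂ (S.comap T.subtype) = finrank ℂ S :=
    (Submodule.comapSubtypeEquivOfLe hST).finrank_eq
  have h6 : finrank ℂ (LinearMap.ker ψ) ≤ finrank ℂ Q := by
    rw [← Submodule.finrank_map_subtype_eq M (LinearMap.ker ψ)]
    refine Submodule.finrank_mono ?_
    rintro _ ⟨t, ht, rfl⟩
    refine hQ t.1 t.2 fun y hy => ?_
    have h7 : ψ t = 0 := ht
    exact LinearMap.congr_fun h7 ⟨y, hy⟩
  omega

/-- the key identity: `δ` applied to the relation -/
lemma QXX_key {p : Fin 4 → E} {l : E} {lam : Fin 4 → La} {p' : Fin 4 → E} {l' : E}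
    {lam' : Fin 4 → La} {x : XX × XX} (hx : x ∈ RelM p l lam p' l' lam') {t : T3}
    (ht : t ∈ KB p l lam ⊓ KB p' l' lam') {δ : D} (hδ : δ ∈ ZC p l lam) (hδ' : dE δ l' = 0) :
    QXX_L p' lam' x.2 t (evP p' δ, evP lam' δ) = 0 := by
  obtain ⟨d1, d2, d3⟩ := mem_ZC.1 hδ
  obtain ⟨hx1, hx2, hx3⟩ := mem_RelM.1 hx
  obtain ⟨⟨hs, k1, k2⟩, ⟨-, k1', k2'⟩⟩ := ht
  have hsδ : dT δ t ∈ SymT := dT_mem δ hs
  have e1 := congrArg δ (hx3 t hs)
  rw [map_zero, map_add] at e1
  have e2 : δ (val p lam t x.1) = val p lam (dT δ t) x.1 := by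
    simp only [val, map_sum, map_add]
    refine Finset.sum_congr rfl fun i _ => ?_
    have g1 : l ⬝ᵥ dE δ (x.1.1 i) = 0 := by
      have g2 := d_dot δ l (x.1.1 i)
      rw [hx1 i, map_zero, d2, zero_dotProduct, zero_add] at g2
      exact g2.symm
    rw [d_tri, d_tri, d1 i, d3 i, k1 i _ g1, k2 i]
    simp only [tri_zero1, tri_zero2, tri_zero3, add_zero]
  have e3 : δ (val p' lam' t x.2) = val p' lam' (dT δ t) x.2 +
      QXX_L p' lam' x.2 t (evP p' δ, evP lam' δ) := by
    rw [QXX_L_apply]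
    simp only [val, map_sum, map_add]
    rw [← Finset.sum_add_distrib]
    refine Finset.sum_congr rfl fun i _ => ?_
    have g1 : l' ⬝ᵥ dE δ (x.2.1 i) = 0 := by
      have g2 := d_dot δ l' (x.2.1 i)
      rw [hx2 i, map_zero, hδ', zero_dotProduct, zero_add] at g2
      exact g2.symm
    simp only [evP_apply]
    rw [d_tri, d_tri, k1' i _ g1, k2' i, tri_comm hs (x.2.2 i) (dE δ (p' i)) (p' i)]
    ring
  have e4 := hx3 _ hsδ
  rw [e2, e3] at e1
  linear_combination e1 - e4

theorem QXX_pf (hDKx : DKX) : QXX := by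
  intro s p l lam m p' l' lam' m' h h' H x hx
  set W : Submodule ℂ D := ZC p l lam with hW
  set M : Submodule ℂ T3 := KB p l lam ⊓ KB p' l' lam' with hM
  have a0 := rn (evT s) (evC p' l' lam') W
  have a2 : finrank ℂ SymT ≤ finrank ℂ (W.map (evT s)) + 28 := H.o.rkS
  have a3 : 6 ≤ finrank ℂ ((W ⊓ LinearMap.ker (evT s)).map (evC p' l' lam') :
      Submodule ℂ (((Fin 4 → E) × E) × (Fin 4 → La))) := by
    refine H.rk.trans ?_
    have e : (ZS s ⊓ ZB p l).map (evB p' l') = ((ZS s ⊓ ZB p l).map (evC p' l' lam')).map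
        (LinearMap.fst ℂ ((Fin 4 → E) × E) (Fin 4 → La)) := by
      rw [← Submodule.map_comp]
      rfl
    rw [e]
    refine (Submodule.finrank_map_le _ _).trans ?_
    exact finrank_map_mono _ H.o.inf_le_ZC
  have a4 : finrank ℂ ((W ⊓ LinearMap.ker (evC p' l' lam')).map (evT s) : Submodule ℂ T3) ≤
      finrank ℂ M := by
    refine Submodule.finrank_mono ?_
    rintro _ ⟨δ, hδ, rfl⟩
    exact ⟨H.o.dT_mem_KB H.g.1 hδ.1, H.o'.dT_mem_KB H.g.1 hδ.2⟩
  have b1 := rn_le (evC p' l' lam') (evE l') W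
  have b2 : finrank ℂ (W.map (evE l')) ≤ 6 := by
    refine (Submodule.finrank_le _).trans ?_
    simp
  set W1 : Submodule ℂ D := W ⊓ LinearMap.ker (evE l') with hW1
  set S : Submodule ℂ QXX_Y := W1.map ((evP p').prod (evP lam')) with hS
  have b3 : finrank ℂ (W1.map (evC p' l' lam')) ≤ finrank ℂ S := by
    let ι : QXX_Y →ₗ[ℂ] ((Fin 4 → E) × E) × (Fin 4 → La) :=
      ((LinearMap.fst ℂ (Fin 4 → E) (Fin 4 → La)).prod 0).prod
        (LinearMap.snd ℂ (Fin 4 → E) (Fin 4 → La))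
    refine le_trans (Submodule.finrank_mono ?_) (Submodule.finrank_map_le ι S)
    rintro _ ⟨δ, hδ, rfl⟩
    refine ⟨(evP p' δ, evP lam' δ), ⟨δ, hδ, rfl⟩, ?_⟩
    have h1 : dE δ l' = 0 := hδ.2
    rw [evC_apply, h1]
    rfl
  have c1 : S ≤ QXX_T l' := by
    rintro _ ⟨δ, hδ, rfl⟩
    have h1 : dE δ l' = 0 := hδ.2
    refine ⟨fun i => ?_, fun i => H.o'.dlam0 δ i⟩
    have h2 := d_dot δ l' (p' i)
    rw [H.o'.lp i, map_zero, h1, zero_dotProduct, zero_add] at h2
    exact h2.symm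
  have c2 := QXX_count (QXX_L p' lam' x.2) M (QQ p l lam p' l' lam' x.2) S (QXX_T l') c1 ?_ ?_
  · have c3 := QXX_T_le H.o'.l0
    omega
  · rintro t ht _ ⟨δ, hδ, rfl⟩
    exact QXX_key hx ht hδ.1 hδ.2
  · intro t ht hL
    obtain ⟨hx1, hx2, hx3⟩ := mem_RelM.1 hx
    obtain ⟨⟨hs, k1, k2⟩, ⟨-, k1', k2'⟩⟩ := id ht
    refine ⟨ht, fun i a => ?_, fun i w hw => ?_⟩
    · have h1 : ∀ b : La, b 0 = 0 → tri t b (p' i) (x.2.1 i) = 0 := by
        intro b hb
        have h2 := hL ((0 : Fin 4 → E), Pi.single i b) ⟨fun k => by simp, fun k => by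
          by_cases hk : k = i
          · subst hk
            simpa using hb
          · simp [Pi.single_eq_of_ne hk]⟩
        rw [QXX_L_apply, Finset.sum_eq_single i] at h2
        · simpa [tri_zero2, tri_zero3] using h2
        · intro k _ hk
          simp [Pi.single_eq_of_ne hk, tri_zero1, tri_zero2, tri_zero3]
        · intro h3
          exact absurd (Finset.mem_univ i) h3
      have h4 := h1 (a - a 0 • lam' i) (by
        rw [Pi.sub_apply, Pi.smul_apply, H.o'.nrm i, smul_eq_mul, mul_one, sub_self])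
      rw [tri_sub1, tri_smul1, k1' i _ (hx2 i), mul_zero, sub_zero] at h4
      exact h4
    · have h2 := hL (Pi.single i w, (0 : Fin 4 → La)) ⟨fun k => by
        by_cases hk : k = i
        · subst hk
          simpa using hw
        · simp [Pi.single_eq_of_ne hk], fun k => rfl⟩
      rw [QXX_L_apply, Finset.sum_eq_single i] at h2
      · rw [tri_comm hs (lam' i) (x.2.1 i) w]
        simpa [tri_zero1] using h2
      · intro k _ hk
        simp [Pi.single_eq_of_ne hk, tri_zero1, tri_zero2, tri_zero3]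
      · intro h3
        exact absurd (Finset.mem_univ i) h3

end Pool.Agent.Work.MP_ea8963_ag.G5
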