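import Pool.Agent.Work.MP_ea8963_ag.G5.Stmts3

/-!
Block [ea8963 G5], item RAS.
-/

set_option linter.style.longLine false
set_option linter.unusedVariables false

noncomputable section

open Module Topology
open Pool.Agent.Work.MP_ea8963_ag.G4 (D ZA mem_ZA Full cl rn rn_prod rn_le finrank_map_mono
  finrank_map_prod_swap pair d_two ZA_mono)

namespace Pool.Agent.Work.MP_ea8963_ag.G5

lemma RAS_val {p : Fin 4 → E} (lam : Fin 4 → La) {f : E} (r : Fin 3 → E) {x : XX}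
    (h1 : ∀ i, f ⬝ᵥ p i = 0) (h2 : ∀ i, f ⬝ᵥ x.1 i = 0) : val p lam (pr f r) x = 0 := by
  refine Finset.sum_eq_zero fun i _ => ?_
  rw [tri_pr, tri_pr, h1 i, h2 i]
  ring

theorem RAS_pf (hDEc : DEC) : RAS := by
  intro s p l lam m p' l' lam' m' h h' H x hx hh hh'
  obtain ⟨hx1, hx2, hx3⟩ := mem_RelM.1 hx
  have key : ∀ t ∈ KU (PP l h l' h'), val p lam t x.1 = 0 ∧ val p' lam' t x.2 = 0 := by
    intro t ht
    obtain ⟨r, hr⟩ := hDEc 4 ![l, h, l', h'] H.fi t ht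
    rw [Fin.sum_univ_four] at hr
    simp only [Matrix.cons_val_zero, Matrix.cons_val_one, Matrix.cons_val] at hr
    have a1 : val p lam (pr l (r 0)) x.1 = 0 := RAS_val lam _ H.o.lp hx1
    have a2 : val p lam (pr h (r 1)) x.1 = 0 := RAS_val lam _ H.hp hh
    have b1 : val p' lam' (pr l' (r 2)) x.2 = 0 := RAS_val lam' _ H.o'.lp hx2
    have b2 : val p' lam' (pr h' (r 3)) x.2 = 0 := RAS_val lam' _ H.hp' hh'
    have c1 := hx3 _ (pr_mem l (r 0))
    have c2 := hx3 _ (pr_mem h (r 1))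
    have c3 := hx3 _ (pr_mem l' (r 2))
    have c4 := hx3 _ (pr_mem h' (r 3))
    rw [a1, zero_add] at c1
    rw [a2, zero_add] at c2
    rw [b1, add_zero] at c3
    rw [b2, add_zero] at c4
    rw [hr]
    simp only [val_add_tensor, a1, a2, b1, b2, c1, c2, c3, c4, add_zero, and_self]
  exact ⟨mem_AS.2 ⟨hx1, fun t ht => (key t ht).1⟩, mem_AS.2 ⟨hx2, fun t ht => (key t ht).2⟩⟩

end Pool.Agent.Work.MP_ea8963_ag.G5
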