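import Pool.Agent.Work.MP_ea8963_ag.G5.Stmts

/-! Block [ea8963 G5], item RHO: the linear relation between four parameters in general position. -/

set_option autoImplicit false

noncomputable section

namespace Pool.Agent.Work.MP_ea8963_ag.G5

theorem RHO_pf : RHO := by
  intro lam h
  have h012 := h 0 1 2 (by decide) (by decide) (by decide)
  have h013 := h 0 1 3 (by decide) (by decide) (by decide)
  have h023 := h 0 2 3 (by decide) (by decide) (by decide)
  have h123 := h 1 2 3 (by decide) (by decide) (by decide)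
  refine ⟨![dt (lam 1) (lam 2) (lam 3), -dt (lam 0) (lam 2) (lam 3), dt (lam 0) (lam 1) (lam 3),
    -dt (lam 0) (lam 1) (lam 2)], ?_, ?_, ?_⟩
  · intro i
    fin_cases i
    · exact h123
    · exact neg_ne_zero.2 h023
    · exact h013
    · exact neg_ne_zero.2 h012
  · rw [Fin.sum_univ_four]
    ext j
    fin_cases j <;> simp [dt_def] <;> ring
  · intro x hx
    rw [Fin.sum_univ_four] at hx
    have hx0 := congrFun hx 0
    have hx1 := congrFun hx 1
    have hx2 := congrFun hx 2
    simp only [Pi.add_apply, Pi.smul_apply, smul_eq_mul, Pi.zero_apply] at hx0 hx1 hx2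
    have e0 : x 0 * dt (lam 0) (lam 1) (lam 2) = -(x 3 * dt (lam 1) (lam 2) (lam 3)) := by
      simp only [dt_def]
      linear_combination (lam 1 1 * lam 2 2 - lam 1 2 * lam 2 1) * hx0 +
        (lam 1 2 * lam 2 0 - lam 1 0 * lam 2 2) * hx1 +
        (lam 1 0 * lam 2 1 - lam 1 1 * lam 2 0) * hx2
    have e1 : x 1 * dt (lam 0) (lam 1) (lam 2) = x 3 * dt (lam 0) (lam 2) (lam 3) := by
      simp only [dt_def]
      linear_combination (lam 2 1 * lam 0 2 - lam 2 2 * lam 0 1) * hx0 +
        (lam 2 2 * lam 0 0 - lam 2 0 * lam 0 2) * hx1 +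
        (lam 2 0 * lam 0 1 - lam 2 1 * lam 0 0) * hx2
    have e2 : x 2 * dt (lam 0) (lam 1) (lam 2) = -(x 3 * dt (lam 0) (lam 1) (lam 3)) := by
      simp only [dt_def]
      linear_combination (lam 0 1 * lam 1 2 - lam 0 2 * lam 1 1) * hx0 +
        (lam 0 2 * lam 1 0 - lam 0 0 * lam 1 2) * hx1 +
        (lam 0 0 * lam 1 1 - lam 0 1 * lam 1 0) * hx2
    refine ⟨-(x 3 / dt (lam 0) (lam 1) (lam 2)), ?_⟩
    ext i
    fin_cases i
    · change x 0 = -(x 3 / dt (lam 0) (lam 1) (lam 2)) * dt (lam 1) (lam 2) (lam 3)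
      field_simp
      linear_combination e0
    · change x 1 = -(x 3 / dt (lam 0) (lam 1) (lam 2)) * -dt (lam 0) (lam 2) (lam 3)
      field_simp
      linear_combination e1
    · change x 2 = -(x 3 / dt (lam 0) (lam 1) (lam 2)) * dt (lam 0) (lam 1) (lam 3)
      field_simp
      linear_combination e2
    · change x 3 = -(x 3 / dt (lam 0) (lam 1) (lam 2)) * -dt (lam 0) (lam 1) (lam 2)
      field_simp

end Pool.Agent.Work.MP_ea8963_ag.G5
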