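import Pool.Agent.Work.MP_ea8963_ag.G5.Stmts

/-!
Block [ea8963 G5], item RHP (helper12).
-/

set_option linter.style.longLine false
set_option linter.unusedVariables false

noncomputable section

open Module

namespace Pool.Agent.Work.MP_ea8963_ag.G5

lemma RHP_sum (a b : La) (w : Fin 4 → ℂ) (lam : Fin 4 → La) :
    dt a b (∑ k, w k • lam k) = ∑ k, w k * dt a b (lam k) := by
  simp only [Fin.sum_univ_four, dt_add3, dt_smul3]

lemma RHP_par (b v : La) (h : ∀ a, dt a b v = 0) (hb : b ≠ 0) : ∃ c : ℂ, v = c • b := by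
  have h0 : b 1 * v 2 - b 2 * v 1 = 0 := by
    have := h ![1, 0, 0]
    simpa [dt_def] using this
  have h1 : b 2 * v 0 - b 0 * v 2 = 0 := by
    have := h ![0, 1, 0]
    simpa [dt_def] using this
  have h2 : b 0 * v 1 - b 1 * v 0 = 0 := by
    have := h ![0, 0, 1]
    simpa [dt_def] using this
  have hex : b 0 ≠ 0 ∨ b 1 ≠ 0 ∨ b 2 ≠ 0 := by
    by_contra hcon
    push Not at hcon
    apply hb
    ext j
    fin_cases j
    · exact hcon.1
    · exact hcon.2.1
    · exact hcon.2.2
  rcases hex with hj | hj | hj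
  · refine ⟨v 0 / b 0, ?_⟩
    ext j
    fin_cases j
    · show v 0 = v 0 / b 0 * b 0
      field_simp
    · show v 1 = v 0 / b 0 * b 1
      field_simp
      linear_combination h2
    · show v 2 = v 0 / b 0 * b 2
      field_simp
      linear_combination -h1
  · refine ⟨v 1 / b 1, ?_⟩
    ext j
    fin_cases j
    · show v 0 = v 1 / b 1 * b 0
      field_simp
      linear_combination -h2
    · show v 1 = v 1 / b 1 * b 1
      field_simp
    · show v 2 = v 1 / b 1 * b 2
      field_simp
      linear_combination h0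
  · refine ⟨v 2 / b 2, ?_⟩
    ext j
    fin_cases j
    · show v 0 = v 2 / b 2 * b 0
      field_simp
      linear_combination h1
    · show v 1 = v 2 / b 2 * b 1
      field_simp
      linear_combination -h0
    · show v 2 = v 2 / b 2 * b 2
      field_simp

lemma RHP_ne {lam : Fin 4 → La} (h : GP lam) (i : Fin 4) : lam i ≠ 0 := by
  obtain ⟨j, k, hij, hik, hjk⟩ : ∃ j k : Fin 4, i ≠ j ∧ i ≠ k ∧ j ≠ k := by
    revert i; decide
  intro h0
  apply h i j k hij hik hjk
  rw [h0]
  simp [dt_def]

theorem RHP_pf : RHP := by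
  intro lam hgp ρ hρ hsum huniq i w hw
  obtain ⟨c, hc⟩ := RHP_par (lam i) (∑ k, w k • lam k)
    (fun a => by rw [RHP_sum]; exact hw a) (RHP_ne hgp i)
  obtain ⟨κ, hκ⟩ := huniq (fun k => w k - if k = i then c else 0) (by
    have h1 : ∑ k, (w k - if k = i then c else 0) • lam k
        = ∑ k, w k • lam k - ∑ k, (if k = i then c else 0) • lam k := by
      rw [← Finset.sum_sub_distrib]
      exact Finset.sum_congr rfl fun k _ => sub_smul _ _ _
    have h2 : ∑ k, (if k = i then c else 0) • lam k = c • lam i := by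
      simp [ite_smul]
    rw [h1, h2, hc, sub_self])
  refine ⟨κ, fun k hk => ?_⟩
  have := congrFun hκ k
  simpa [hk] using this

end Pool.Agent.Work.MP_ea8963_ag.G5
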