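import Pool.Agent.Work.MP_ea8963_ag.G5.Stmts

/-!
Block [ea8963 G5], item RKF: every form of the net has rank at least 5.  Author helper62.
-/

set_option linter.style.longLine false
set_option linter.unusedVariables false

noncomputable section

open Module
open Pool.Agent.Work.MP_ea8963_ag.G4 (D ZA mem_ZA Full cl rn rn_prod rn_le finrank_map_mono
  finrank_map_prod_swap pair d_two ZA_mono)

namespace Pool.Agent.Work.MP_ea8963_ag.G5

/-- the nets with `t (a) (u, .) = 0 = t (a) (v, .)` -/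
def RKF_K (a : La) (u v : E) : Submodule ℂ T3 where
  carrier := {t | t ∈ SymT ∧ cov t a u = 0 ∧ cov t a v = 0}
  zero_mem' := ⟨SymT.zero_mem, cov_zero_tensor _ _, cov_zero_tensor _ _⟩
  add_mem' := by
    rintro x y ⟨h1, h2, h3⟩ ⟨g1, g2, g3⟩
    exact ⟨SymT.add_mem h1 g1, by rw [cov_add_tensor, h2, g2, add_zero],
      by rw [cov_add_tensor, h3, g3, add_zero]⟩
  smul_mem' := by
    rintro c x ⟨h1, h2, h3⟩
    exact ⟨SymT.smul_mem c h1, by rw [cov_smul_tensor, h2, smul_zero],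
      by rw [cov_smul_tensor, h3, smul_zero]⟩

lemma RKF_mem_K {a : La} {u v : E} {t : T3} :
    t ∈ RKF_K a u v ↔ t ∈ SymT ∧ cov t a u = 0 ∧ cov t a v = 0 := Iff.rfl

/-- the functionals `t ↦ t (a) (u, x) + t (a) (v, y)` -/
def RKF_phi (a : La) (u v : E) : (E × E) →ₗ[ℂ] Dual ℂ SymT where
  toFun z :=
    { toFun := fun t => tri (t : T3) a u z.1 + tri (t : T3) a v z.2
      map_add' := fun s t => by
        simp only [Submodule.coe_add, tri_add_tensor]; ring
      map_smul' := fun c t => by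
        simp only [Submodule.coe_smul, tri_smul_tensor, RingHom.id_apply, smul_eq_mul]; ring }
  map_add' z w := by
    ext t
    simp only [LinearMap.coe_mk, AddHom.coe_mk, LinearMap.add_apply, Prod.fst_add, Prod.snd_add,
      tri_add3]
    ring
  map_smul' c z := by
    ext t
    simp only [LinearMap.coe_mk, AddHom.coe_mk, LinearMap.smul_apply, Prod.smul_fst,
      Prod.smul_snd, tri_smul3, RingHom.id_apply, smul_eq_mul]
    ring

lemma RKF_phi_apply (a : La) (u v : E) (z : E × E) (t : SymT) :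
    RKF_phi a u v z t = tri (t : T3) a u z.1 + tri (t : T3) a v z.2 := rfl

lemma RKF_map_coann (a : La) (u v : E) :
    ((LinearMap.range (RKF_phi a u v)).dualCoannihilator).map SymT.subtype = RKF_K a u v := by
  ext t
  rw [RKF_mem_K]
  constructor
  · rintro ⟨s, hs, rfl⟩
    have h1 : ∀ z : E × E, tri (s : T3) a u z.1 + tri (s : T3) a v z.2 = 0 := by
      intro z
      have h2 := (Submodule.mem_dualCoannihilator _).1 hs (RKF_phi a u v z)
        (LinearMap.mem_range_self _ _)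
      rwa [RKF_phi_apply] at h2
    refine ⟨s.2, ?_, ?_⟩
    · refine eq_zero_of_dot fun w => ?_
      have h2 := h1 (w, 0)
      simp only [tri_zero3, add_zero] at h2
      rw [dotProduct_comm]
      exact h2
    · refine eq_zero_of_dot fun w => ?_
      have h2 := h1 (0, w)
      simp only [tri_zero3, zero_add] at h2
      rw [dotProduct_comm]
      exact h2
  · rintro ⟨ht, h1, h2⟩
    refine ⟨⟨t, ht⟩, ?_, rfl⟩
    rw [SetLike.mem_coe, Submodule.mem_dualCoannihilator]
    rintro _ ⟨z, rfl⟩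
    rw [RKF_phi_apply]
    simp only [tri, h1, h2, zero_dotProduct, add_zero]

/-- the kernel of the pairing is contained in a line -/
lemma RKF_ker {a : La} (ha : a ≠ 0) {u v : E} (huv : LinearIndependent ℂ ![u, v]) :
    finrank ℂ (LinearMap.ker (RKF_phi a u v)) ≤ 1 := by
  obtain ⟨f, hf⟩ := exists_dual huv
  obtain ⟨c, hc⟩ : ∃ c : La, c ⬝ᵥ a ≠ 0 := by
    by_contra hcon
    push Not at hcon
    exact ha (eq_zero_of_dot hcon)
  have f00 : f 0 ⬝ᵥ u = 1 := by simpa using hf 0 0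
  have f01 : f 0 ⬝ᵥ v = 0 := by simpa using hf 0 1
  have f10 : f 1 ⬝ᵥ u = 0 := by simpa using hf 1 0
  have f11 : f 1 ⬝ᵥ v = 1 := by simpa using hf 1 1
  refine finrank_le_one (⟨(v, -u), ?_⟩ : LinearMap.ker (RKF_phi a u v)) ?_
  · rw [LinearMap.mem_ker]
    ext t
    rw [RKF_phi_apply]
    simp only [tri_neg3, LinearMap.zero_apply]
    rw [tri_comm t.2 a v u, add_neg_cancel]
  · rintro ⟨⟨x, y⟩, hz⟩
    have key : ∀ g h : E, (g ⬝ᵥ u) * (h ⬝ᵥ x) + (h ⬝ᵥ u) * (g ⬝ᵥ x) +
        ((g ⬝ᵥ v) * (h ⬝ᵥ y) + (h ⬝ᵥ v) * (g ⬝ᵥ y)) = 0 := by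
      intro g h
      have h1 := congrArg (fun F : Dual ℂ SymT => F ⟨sp c g h, sp_mem _ _ _⟩)
        (LinearMap.mem_ker.1 hz)
      simp only [RKF_phi_apply, LinearMap.zero_apply, tri_sp] at h1
      have h2 : (c ⬝ᵥ a) * ((g ⬝ᵥ u) * (h ⬝ᵥ x) + (h ⬝ᵥ u) * (g ⬝ᵥ x) +
        ((g ⬝ᵥ v) * (h ⬝ᵥ y) + (h ⬝ᵥ v) * (g ⬝ᵥ y))) = 0 := by linear_combination h1
      exact (mul_eq_zero.1 h2).resolve_left hc
    have x0 : f 0 ⬝ᵥ x = 0 := by
      have h1 := key (f 0) (f 0)
      rw [f00, f01] at h1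
      linear_combination (1 / 2 : ℂ) * h1
    have y1 : f 1 ⬝ᵥ y = 0 := by
      have h1 := key (f 1) (f 1)
      rw [f10, f11] at h1
      linear_combination (1 / 2 : ℂ) * h1
    have xy : f 1 ⬝ᵥ x + f 0 ⬝ᵥ y = 0 := by
      have h1 := key (f 0) (f 1)
      rw [f00, f01, f10, f11] at h1
      linear_combination h1
    refine ⟨f 1 ⬝ᵥ x, ?_⟩
    apply Subtype.ext
    change (f 1 ⬝ᵥ x) • ((v, -u) : E × E) = (x, y)
    rw [Prod.smul_mk, Prod.mk.injEq]
    constructor
    · refine dot_ext fun g => ?_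
      have h1 := key (f 0) g
      rw [f00, f01, x0] at h1
      rw [dotProduct_smul, smul_eq_mul]
      linear_combination -h1 + (g ⬝ᵥ v) * xy
    · refine dot_ext fun g => ?_
      have h1 := key (f 1) g
      rw [f10, f11, y1] at h1
      rw [dotProduct_smul, dotProduct_neg, smul_eq_mul]
      linear_combination -h1

lemma RKF_count {a : La} (ha : a ≠ 0) {u v : E} (huv : LinearIndependent ℂ ![u, v]) :
    finrank ℂ (RKF_K a u v) + 11 ≤ finrank ℂ SymT := by
  have h1 := pair (RKF_phi a u v)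
  have h2 : finrank ℂ (RKF_K a u v) =
      finrank ℂ ((LinearMap.range (RKF_phi a u v)).dualCoannihilator : Submodule ℂ SymT) := by
    rw [← RKF_map_coann a u v]
    exact Submodule.finrank_map_subtype_eq SymT _
  have h3 : finrank ℂ (E × E) = 12 := by
    rw [Module.finrank_prod]; simp
  have h4 := RKF_ker ha huv
  rw [← h2, h3] at h1
  omega

lemma RKF_minor {u v : E} (h : LinearIndependent ℂ ![u, v]) :
    ∃ i j : Fin 6, u i * v j - u j * v i ≠ 0 := by
  by_contra hcon
  push Not at hcon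
  rw [LinearIndependent.pair_iff] at h
  have hu : ∃ i, u i ≠ 0 := by
    by_contra h0
    push Not at h0
    have h1 : u = 0 := funext h0
    have h2 := h 1 0 (by rw [h1]; simp)
    exact one_ne_zero h2.1
  obtain ⟨i, hi⟩ := hu
  have h2 := h (v i) (-u i) (by
    ext j
    simp only [Pi.add_apply, Pi.smul_apply, smul_eq_mul, Pi.zero_apply]
    linear_combination -hcon i j)
  exact hi (neg_eq_zero.1 h2.2)

/-- two coordinates -/
lemma RKF_ev {i j : Fin 6} (hij : i ≠ j) {w : E} (h : ∀ δ : D, dE δ w i = 0 ∧ dE δ w j = 0)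
    (W : Submodule ℂ D) : finrank ℂ (W.map (evE w)) + 2 ≤ 6 := by
  have hI : LinearIndependent ℂ ![(Pi.single i 1 : E), (Pi.single j 1 : E)] := by
    rw [LinearIndependent.pair_iff]
    intro a b hab
    have e1 := congrFun hab i
    have e2 := congrFun hab j
    simp only [Pi.add_apply, Pi.smul_apply, smul_eq_mul, Pi.zero_apply, Pi.single_eq_same,
      Pi.single_eq_of_ne hij, Pi.single_eq_of_ne hij.symm] at e1 e2
    exact ⟨by linear_combination e1, by linear_combination e2⟩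
  refine finrank_le_of_ann hI ?_
  rintro _ ⟨δ, -, rfl⟩ k
  rw [evE_apply]
  fin_cases k
  · change Pi.single i 1 ⬝ᵥ dE δ w = 0
    rw [single_dotProduct, (h δ).1, mul_zero]
  · change Pi.single j 1 ⬝ᵥ dE δ w = 0
    rw [single_dotProduct, (h δ).2, mul_zero]

/-- one coordinate -/
lemma RKF_eva {k : Fin 3} {a : La} (h : ∀ δ : D, dE δ a k = 0)
    (W : Submodule ℂ D) : finrank ℂ (W.map (evE a)) + 1 ≤ 3 := by
  have hI : LinearIndependent ℂ ![(Pi.single k 1 : La)] := by
    rw [Fintype.linearIndependent_iff]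
    intro g hg m
    have e1 := congrFun hg k
    fin_cases m
    simpa using e1
  refine finrank_le_of_ann hI ?_
  rintro _ ⟨δ, -, rfl⟩ m
  rw [evE_apply]
  fin_cases m
  change Pi.single k 1 ⬝ᵥ dE δ a = 0
  rw [single_dotProduct, h δ, mul_zero]

lemma RKF_core {s : T3} (hs : Gen s) {a : La} {k : Fin 3} (hak : a k = 1) {u v : E} {i j : Fin 6}
    (hui : u i = 1) (huj : u j = 0) (hvi : v i = 0) (hvj : v j = 1)
    (hu : cov s a u = 0) (hv : cov s a v = 0) : False := by
  have hij : i ≠ j := by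
    rintro rfl
    rw [hui] at huj
    exact one_ne_zero huj
  have ha : a ≠ 0 := by
    rintro rfl
    exact zero_ne_one hak
  have huv : LinearIndependent ℂ ![u, v] := by
    rw [LinearIndependent.pair_iff]
    intro x y hab
    have e1 := congrFun hab i
    have e2 := congrFun hab j
    simp only [Pi.add_apply, Pi.smul_apply, smul_eq_mul, Pi.zero_apply, hui, huj, hvi, hvj] at e1 e2
    exact ⟨by linear_combination e1, by linear_combination e2⟩
  have du : ∀ δ : D, dE δ u i = 0 ∧ dE δ u j = 0 := fun δ =>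
    ⟨by simp [dE, hui], by simp [dE, huj]⟩
  have dv : ∀ δ : D, dE δ v i = 0 ∧ dE δ v j = 0 := fun δ =>
    ⟨by simp [dE, hvi], by simp [dE, hvj]⟩
  have da : ∀ δ : D, dE δ a k = 0 := fun δ => by simp [dE, hak]
  have c1 := RKF_ev hij du ⊤
  have c2 := RKF_ev hij dv (⊤ ⊓ LinearMap.ker (evE u))
  have c3 := RKF_eva da ((⊤ ⊓ LinearMap.ker (evE u)) ⊓ LinearMap.ker (evE v))
  have c4 : finrank ℂ ((((⊤ ⊓ LinearMap.ker (evE u)) ⊓ LinearMap.ker (evE v)) ⊓
      LinearMap.ker (evE a) : Submodule ℂ D).map (evT s)) ≤ finrank ℂ (RKF_K a u v) := by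
    apply Submodule.finrank_mono
    rintro _ ⟨δ, hδ, rfl⟩
    have hδu : dE δ u = 0 := LinearMap.mem_ker.1 hδ.1.1.2
    have hδv : dE δ v = 0 := LinearMap.mem_ker.1 hδ.1.2
    have hδa : dE δ a = 0 := LinearMap.mem_ker.1 hδ.2
    rw [evT_apply]
    refine ⟨dT_mem δ hs.1, ?_, ?_⟩
    · have e := dE_cov δ s a u
      rw [hu, dE_zero, hδu, hδa, cov_zero_left, cov_zero_right, add_zero, add_zero] at e
      exact e.symm
    · have e := dE_cov δ s a v
      rw [hv, dE_zero, hδv, hδa, cov_zero_left, cov_zero_right, add_zero, add_zero] at e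
      exact e.symm
  have c5 := rn_le (evT s) (evE u) ⊤
  rw [hs.map_evT] at c5
  have c6 := rn_le (evT s) (evE v) (⊤ ⊓ LinearMap.ker (evE u))
  have c7 := rn_le (evT s) (evE a) ((⊤ ⊓ LinearMap.ker (evE u)) ⊓ LinearMap.ker (evE v))
  have c8 := RKF_count ha huv
  omega

/-- Every form of a generic net has rank at least 5. -/
theorem RKF_pf : RKF := by
  intro s hs a ha u v hI h1 h2
  obtain ⟨i, j, hd⟩ := RKF_minor hI
  set d := u i * v j - u j * v i with hdd
  obtain ⟨k, hk⟩ : ∃ k, a k ≠ 0 := by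
    by_contra hcon
    push Not at hcon
    exact ha (funext hcon)
  have hC : ∀ e x y : ℂ, cov s (e • a) (x • u + y • v) = 0 := by
    intro e x y
    rw [cov_smul_left, cov_add_right, cov_smul_right, cov_smul_right, h1, h2]
    simp
  refine RKF_core hs (a := (a k)⁻¹ • a) (k := k) (by simp [hk])
    (u := (d⁻¹ * v j) • u + (-(d⁻¹ * u j)) • v)
    (v := (-(d⁻¹ * v i)) • u + (d⁻¹ * u i) • v) (i := i) (j := j) ?_ ?_ ?_ ?_
    (hC _ _ _) (hC _ _ _)
  · simp only [Pi.add_apply, Pi.smul_apply, smul_eq_mul]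
    have : d⁻¹ * d = 1 := inv_mul_cancel₀ hd
    rw [← this, hdd]; ring
  · simp only [Pi.add_apply, Pi.smul_apply, smul_eq_mul]; ring
  · simp only [Pi.add_apply, Pi.smul_apply, smul_eq_mul]; ring
  · simp only [Pi.add_apply, Pi.smul_apply, smul_eq_mul]
    have : d⁻¹ * d = 1 := inv_mul_cancel₀ hd
    rw [← this, hdd]; ring

end Pool.Agent.Work.MP_ea8963_ag.G5
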