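import Pool.Agent.Work.MP_ea8963_ag.G5.I_TAU
import Pool.Agent.Work.MP_ea8963_ag.G5.I_PCX

/-!
Block [ea8963 G5], item RPX: the restriction of a net to the plane `P`.
-/

set_option linter.style.longLine false
set_option linter.unusedVariables false

noncomputable section

open Module
open Pool.Agent.Work.MP_ea8963_ag.G4 (pair)

namespace Pool.Agent.Work.MP_ea8963_ag.G5

/-- the nine coordinates of the restriction -/
abbrev RPb_Z : Type := Fin 3 → Fin 3 → ℂ

def RPb_s0 : Fin 3 → Fin 2 := ![0, 0, 1]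
def RPb_s1 : Fin 3 → Fin 2 := ![0, 1, 1]

/-- the restriction of a net to the span of `u 0`, `u 1` -/
def RPb_R (u : Fin 2 → E) : T3 →ₗ[ℂ] RPb_Z where
  toFun t := fun k m => tri t (Pi.single k 1) (u (RPb_s0 m)) (u (RPb_s1 m))
  map_add' s t := by
    ext k m
    simp [tri_add_tensor]
  map_smul' c t := by
    ext k m
    simp [tri_smul_tensor]

lemma RPb_R_apply (u : Fin 2 → E) (t : T3) (k m : Fin 3) :
    RPb_R u t k m = tri t (Pi.single k 1) (u (RPb_s0 m)) (u (RPb_s1 m)) := rfl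

lemma RPb_surj {u : Fin 2 → E} (hu : LinearIndependent ℂ u) (y : RPb_Z) :
    ∃ t ∈ SymT, RPb_R u t = y := by
  obtain ⟨a, ha⟩ := exists_dual hu
  refine ⟨∑ k : Fin 3, ∑ m : Fin 3, (y k m * (![1 / 2, 1, 1 / 2] : Fin 3 → ℂ) m) •
    sp (Pi.single k 1) (a (RPb_s0 m)) (a (RPb_s1 m)), ?_, ?_⟩
  · exact Submodule.sum_mem _ fun k _ => Submodule.sum_mem _ fun m _ =>
      Submodule.smul_mem _ _ (sp_mem _ _ _)
  · rw [map_sum]
    ext k' m'
    simp only [map_sum, map_smul, Finset.sum_apply, Pi.smul_apply, smul_eq_mul, RPb_R_apply, tri_sp,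
      ha]
    rw [Finset.sum_eq_single k']
    · have h1 : (Pi.single k' 1 : La) ⬝ᵥ Pi.single k' 1 = 1 := by simp
      simp only [h1, one_mul]
      fin_cases m' <;> simp [Fin.sum_univ_three, RPb_s0, RPb_s1] <;> ring
    · intro k _ hk
      have h1 : (Pi.single k 1 : La) ⬝ᵥ Pi.single k' 1 = 0 := by
        simp [Pi.single_apply, hk, Ne.symm hk]
      simp only [h1, zero_mul, mul_zero, Finset.sum_const_zero]
    · intro h
      exact absurd (Finset.mem_univ _) h

/-- antisymmetric matrices -/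
def RPb_mat (y : Fin 6 → ℂ) : Fin 4 → Fin 4 → ℂ :=
  ![![0, y 0, y 1, y 2], ![-y 0, 0, y 3, y 4], ![-y 1, -y 3, 0, y 5], ![-y 2, -y 4, -y 5, 0]]

lemma RPb_mat_eq {c : Fin 4 → Fin 4 → ℂ} (h : ∀ i k, c k i = -c i k) :
    RPb_mat ![c 0 1, c 0 2, c 0 3, c 1 2, c 1 3, c 2 3] = c := by
  have h0 : ∀ i, c i i = 0 := fun i => by
    have := h i i
    linear_combination (1 / 2 : ℂ) * this
  have hc : ∀ i k, -c i k = c k i := fun i k => (h i k).symm
  ext i k
  fin_cases i <;> fin_cases k <;> simp [RPb_mat, h0, hc]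

lemma RPb_mat_add (x y : Fin 6 → ℂ) : RPb_mat (x + y) = RPb_mat x + RPb_mat y := by
  ext i k
  fin_cases i <;> fin_cases k <;> simp [RPb_mat] <;> ring

lemma RPb_mat_smul (a : ℂ) (x : Fin 6 → ℂ) : RPb_mat (a • x) = a • RPb_mat x := by
  ext i k
  fin_cases i <;> fin_cases k <;> simp [RPb_mat]

/-- the restriction of a net of `K_b` as a function of its matrix -/
def RPb_L (w : Fin 2 → Fin 4 → ℂ) (lam : Fin 4 → La) : (Fin 6 → ℂ) →ₗ[ℂ] RPb_Z where
  toFun y := fun k m => ∑ i, ∑ j, w (RPb_s0 m) i * w (RPb_s1 m) j *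
    (RPb_mat y i j * dt (Pi.single k 1) (lam i) (lam j))
  map_add' x y := by
    ext k m
    simp only [RPb_mat_add, Pi.add_apply, ← Finset.sum_add_distrib]
    refine Finset.sum_congr rfl fun i _ => Finset.sum_congr rfl fun j _ => ?_
    ring
  map_smul' a x := by
    ext k m
    simp only [RPb_mat_smul, Pi.smul_apply, smul_eq_mul, Finset.mul_sum, RingHom.id_apply]
    refine Finset.sum_congr rfl fun i _ => Finset.sum_congr rfl fun j _ => ?_
    ring

lemma RPb_six (hCCx : CCX) {p : Fin 4 → E} {l : E} {lam : Fin 4 → La} (gp : GP lam)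
    (lp : ∀ i, l ⬝ᵥ p i = 0) {u : Fin 2 → E} {w : Fin 2 → Fin 4 → ℂ}
    (hw : ∀ j, u j = ∑ i, w j i • p i) : finrank ℂ ((KB p l lam).map (RPb_R u)) ≤ 6 := by
  have h1 : (KB p l lam).map (RPb_R u) ≤ LinearMap.range (RPb_L w lam) := by
    rintro _ ⟨t, ht, rfl⟩
    obtain ⟨c, hc⟩ := hCCx p l lam gp lp t ht
    refine ⟨![c 0 1, c 0 2, c 0 3, c 1 2, c 1 3, c 2 3], ?_⟩
    ext k m
    have e : RPb_L w lam ![c 0 1, c 0 2, c 0 3, c 1 2, c 1 3, c 2 3] k m =
      ∑ i, ∑ j, w (RPb_s0 m) i * w (RPb_s1 m) j *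
        (RPb_mat ![c 0 1, c 0 2, c 0 3, c 1 2, c 1 3, c 2 3] i j *
          dt (Pi.single k 1) (lam i) (lam j)) := rfl
    rw [e, RPb_mat_eq hc.anti, RPb_R_apply, hw, hw, tri_sum2]
    refine Finset.sum_congr rfl fun i _ => ?_
    rw [tri_sum3]
    refine Finset.sum_congr rfl fun j _ => ?_
    rw [tri_smul2, tri_smul3, hc.eq]
    ring
  have h2 := Submodule.finrank_mono h1
  have h3 := LinearMap.finrank_range_le (RPb_L w lam)
  simp at h3
  omega

lemma RPb_val_single1 (p : Fin 4 → E) (lam : Fin 4 → La) (t : T3) (i : Fin 4) (v : E) :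
    val p lam t (Pi.single i v, 0) = tri t (lam i) (p i) v := by
  simp only [val]
  rw [Finset.sum_eq_single i]
  · simp [tri_zero1]
  · intro k _ hk
    simp [Pi.single_apply, hk, tri_zero1, tri_zero3]
  · intro h
    exact absurd (Finset.mem_univ _) h

lemma RPb_val_single2 (p : Fin 4 → E) (lam : Fin 4 → La) (t : T3) (i : Fin 4) (a : La) :
    val p lam t (0, Pi.single i a) = tri t a (p i) (p i) := by
  simp only [val]
  rw [Finset.sum_eq_single i]
  · simp [tri_zero3]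
  · intro k _ hk
    simp [Pi.single_apply, hk, tri_zero1, tri_zero3]
  · intro h
    exact absurd (Finset.mem_univ _) h

/-- double annihilator: a functional which vanishes on `K_b` -/
lemma RPb_dual (p : Fin 4 → E) (l : E) (lam : Fin 4 → La) (ψ : Dual ℂ T3)
    (h : ∀ t ∈ KB p l lam, ψ t = 0) : ∃ x ∈ RW l, ∀ t ∈ SymT, ψ t = val p lam t x := by
  set W : Submodule ℂ (Dual ℂ T3) := (RW l).map (valL p lam) ⊔ SymT.dualAnnihilator with hW
  have h1 : W.dualCoannihilator ≤ KB p l lam := by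
    intro t ht
    rw [Submodule.mem_dualCoannihilator] at ht
    have hs : t ∈ SymT := by
      rw [← Subspace.dualAnnihilator_dualCoannihilator_eq (W := SymT),
        Submodule.mem_dualCoannihilator]
      intro φ hφ
      exact ht φ (Submodule.mem_sup_right hφ)
    have hv : ∀ x ∈ RW l, val p lam t x = 0 := fun x hx =>
      ht (valL p lam x) (Submodule.mem_sup_left ⟨x, hx, rfl⟩)
    refine ⟨hs, fun i v hv' => ?_, fun i a => ?_⟩
    · rw [← RPb_val_single1]
      apply hv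
      intro k
      by_cases hk : k = i
      · subst hk
        simpa using hv'
      · simp [Pi.single_apply, hk]
    · rw [← RPb_val_single2]
      apply hv
      intro k
      simp
  have h2 : ψ ∈ W := by
    rw [← Subspace.dualCoannihilator_dualAnnihilator_eq (W := W), Submodule.mem_dualAnnihilator]
    intro t ht
    exact h t (h1 ht)
  obtain ⟨_, ⟨x, hx, rfl⟩, b, hb, rfl⟩ := Submodule.mem_sup.1 h2
  refine ⟨x, hx, fun t ht => ?_⟩
  rw [LinearMap.add_apply, valL_apply, (Submodule.mem_dualAnnihilator b).1 hb t ht, add_zero]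

lemma RPb_basis {l h f g : E} (fi : LinearIndependent ℂ ![l, h, f, g]) :
    ∃ u : Fin 2 → E, LinearIndependent ℂ u ∧ (∀ j, u j ∈ PP l h f g) ∧
      ∀ x ∈ PP l h f g, ∃ c : Fin 2 → ℂ, x = ∑ j, c j • u j := by
  have h1 : finrank ℂ (PP l h f g) + 4 = 6 := finrank_Ann fi
  have h2 : finrank ℂ (PP l h f g) = 2 := by omega
  let b := Module.finBasisOfFinrankEq ℂ (PP l h f g) h2
  refine ⟨fun j => (b j).1, ?_, fun j => (b j).2, fun x hx => ?_⟩
  · exact b.linearIndependent.map' (PP l h f g).subtype (Submodule.ker_subtype _)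
  · refine ⟨fun j => b.repr ⟨x, hx⟩ j, ?_⟩
    have := congrArg Subtype.val (b.sum_repr ⟨x, hx⟩)
    simp only [Submodule.coe_sum, Submodule.coe_smul] at this
    exact this.symm

lemma RPb_ker {U : Submodule ℂ E} {u : Fin 2 → E} (hu : ∀ j, u j ∈ U)
    (hb : ∀ x ∈ U, ∃ c : Fin 2 → ℂ, x = ∑ j, c j • u j) {t : T3} (ht : t ∈ SymT)
    (h : RPb_R u t = 0) : t ∈ KU U := by
  refine ⟨ht, fun a x hx y hy => ?_⟩
  have e0 : ∀ k : Fin 3, tri t (Pi.single k 1) (u 0) (u 0) = 0 := fun k =>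
    congrFun (congrFun h k) 0
  have e1 : ∀ k : Fin 3, tri t (Pi.single k 1) (u 0) (u 1) = 0 := fun k =>
    congrFun (congrFun h k) 1
  have e2 : ∀ k : Fin 3, tri t (Pi.single k 1) (u 1) (u 1) = 0 := fun k =>
    congrFun (congrFun h k) 2
  have e3 : ∀ k : Fin 3, tri t (Pi.single k 1) (u 1) (u 0) = 0 := fun k => by
    rw [tri_comm ht]; exact e1 k
  have ea : a = ∑ k, a k • (Pi.single k 1 : La) := by
    ext i
    simp [Finset.sum_apply, Pi.single_apply]
  obtain ⟨c, rfl⟩ := hb x hx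
  obtain ⟨d, rfl⟩ := hb y hy
  rw [ea, tri_sum1]
  refine Finset.sum_eq_zero fun k _ => ?_
  rw [tri_smul1, Fin.sum_univ_two, Fin.sum_univ_two, tri_add2, tri_add3, tri_add3, tri_smul2,
    tri_smul2, tri_smul2, tri_smul2, tri_smul3, tri_smul3, tri_smul3, tri_smul3, e0, e1, e2, e3]
  ring

lemma RPb_rank (Q : Submodule ℂ T3) (f : T3 →ₗ[ℂ] RPb_Z) :
    finrank ℂ (Q.map f) + finrank ℂ (Q ⊓ LinearMap.ker f : Submodule ℂ T3) = finrank ℂ Q := by
  have h1 := LinearMap.finrank_range_add_finrank_ker (f.comp Q.subtype)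
  have h2 : LinearMap.range (f.comp Q.subtype) = Q.map f := by
    rw [LinearMap.range_comp, Submodule.range_subtype]
  have h3 : (LinearMap.ker (f.comp Q.subtype)).map Q.subtype = Q ⊓ LinearMap.ker f := by
    ext x
    constructor
    · rintro ⟨⟨y, hy⟩, hyk, rfl⟩
      exact ⟨hy, hyk⟩
    · rintro ⟨hx, hk⟩
      exact ⟨⟨x, hx⟩, hk, rfl⟩
  have h4 : finrank ℂ ((LinearMap.ker (f.comp Q.subtype)).map Q.subtype) =
      finrank ℂ (LinearMap.ker (f.comp Q.subtype)) :=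
    Submodule.finrank_map_subtype_eq Q _
  rw [h3] at h4
  rw [h2] at h1
  omega

/-- a functional of `RW l` vanishing on `KU P` has no `h`-part -/
lemma RPb_h {p : Fin 4 → E} {l : E} {lam : Fin 4 → La} {h f g : E} (hRHo : RHO)
    (S : Side p l lam h f g) {x : XX} (hx : x ∈ AS p l lam (PP l h f g)) (i : Fin 4) :
    h ⬝ᵥ x.1 i = 0 := by
  obtain ⟨ρ, hρ⟩ := hRHo lam S.gp
  obtain ⟨V, τ, h1, -, -, -⟩ := TAU_pf p l lam h f g S ρ hρ x hx
  rw [h1 i, dotProduct_sum]
  refine Finset.sum_eq_zero fun k _ => ?_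
  rw [dotProduct_smul, S.hp, smul_zero]

theorem RPX_pf (hDKb : DKB) (hRHo : RHO) (hCCx : CCX) : RPX := by
  intro s p l lam m p' l' lam' m' h h' H hyp Q hQ
  obtain ⟨u, hu, huP, hub⟩ := RPb_basis H.fi
  have S := H.side
  have S' := H.swap.side
  obtain ⟨a, ha⟩ := exists_dual H.o.ind
  obtain ⟨a', ha'⟩ := exists_dual H.o'.ind
  have hw : ∀ j, u j = ∑ k, (a k ⬝ᵥ u j) • p k := fun j =>
    TAU_span p l h H.o.ind H.o.lp H.hp (PCX_lh H.fi) a ha (u j) (mem_PP.1 (huP j)).1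
      (mem_PP.1 (huP j)).2.1
  have hw' : ∀ j, u j = ∑ k, (a' k ⬝ᵥ u j) • p' k := fun j =>
    TAU_span p' l' h' H.o'.ind H.o'.lp H.hp' (PCX_lh H.swap.fi) a' ha' (u j)
      (mem_PP.1 (huP j)).2.2.1 (mem_PP.1 (huP j)).2.2.2
  have d1 := RPb_six hCCx (l := l) H.o.gp H.o.lp hw
  have d2 := RPb_six hCCx (l := l') H.o'.gp H.o'.lp hw'
  have htop : (KB p l lam).map (RPb_R u) ⊔ (KB p' l' lam').map (RPb_R u) = ⊤ := by
    by_contra hne
    obtain ⟨φ, hφ0, hφ⟩ := Submodule.exists_le_ker_of_lt_top _ (lt_top_iff_ne_top.2 hne)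
    apply hφ0
    let ψ : Dual ℂ T3 := φ.comp (RPb_R u)
    have k1 : ∀ t ∈ KB p l lam, ψ t = 0 := fun t ht =>
      hφ (Submodule.mem_sup_left ⟨t, ht, rfl⟩)
    have k2 : ∀ t ∈ KB p' l' lam', ψ t = 0 := fun t ht =>
      hφ (Submodule.mem_sup_right ⟨t, ht, rfl⟩)
    obtain ⟨x1, hx1, e1⟩ := RPb_dual p l lam ψ k1
    obtain ⟨x2, hx2, e2⟩ := RPb_dual p' l' lam' ψ k2
    have k3 : ∀ t ∈ KU (PP l h l' h'), ψ t = 0 := by
      intro t ht
      have : RPb_R u t = 0 := by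
        ext k j
        exact ht.2 _ _ (huP _) _ (huP _)
      change φ (RPb_R u t) = 0
      rw [this, map_zero]
    have a1 : x1 ∈ AS p l lam (PP l h l' h') :=
      ⟨hx1, fun t ht => by rw [← e1 t ht.1, k3 t ht]⟩
    have a2 : x2 ∈ AS p' l' lam' (PP l' h' l h) := by
      refine ⟨hx2, fun t ht => ?_⟩
      rw [PP_comm] at ht
      rw [← e2 t ht.1, k3 t ht]
    have r : ((x1, -x2) : XX × XX) ∈ RelM p l lam p' l' lam' := by
      refine ⟨hx1, (RW l').neg_mem hx2, fun t ht => ?_⟩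
      have e3 : val p' lam' t (-x2) = -val p' lam' t x2 := by
        have := val_smul p' lam' t (-1) x2
        rw [neg_one_smul, neg_one_mul] at this
        exact this
      change val p lam t x1 + val p' lam' t (-x2) = 0
      rw [e3, ← e1 t ht, ← e2 t ht, add_neg_cancel]
    have b1 : ∀ i, h ⬝ᵥ x1.1 i = 0 := RPb_h hRHo S a1
    have b2 : ∀ i, h' ⬝ᵥ x2.1 i = 0 := RPb_h hRHo S' a2
    have T := hyp (x1, -x2) r b1 (fun i => by
      change h' ⬝ᵥ (-x2.1 i) = 0
      rw [dotProduct_neg, b2 i, neg_zero])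
    refine LinearMap.ext fun y => ?_
    obtain ⟨t, ht, rfl⟩ := RPb_surj hu y
    have e4 : φ (RPb_R u t) = val p lam t x1 := e1 t ht
    rw [e4]
    obtain ⟨c, hc⟩ := T
    have hc' : x1 = (fun i => c i • p i, fun i => -(c i • lam i)) := hc
    rw [hc']
    change ∑ i, (tri t (lam i) (p i) (c i • p i) + tri t (-(c i • lam i)) (p i) (p i)) = 0
    refine Finset.sum_eq_zero fun i _ => ?_
    rw [tri_smul3, tri_neg1, tri_smul1]
    ring
  have c1 := Submodule.finrank_sup_add_finrank_inf_eq ((KB p l lam).map (RPb_R u))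
    ((KB p' l' lam').map (RPb_R u))
  have c2 : finrank ℂ (⊤ : Submodule ℂ RPb_Z) = 9 := by
    rw [finrank_top, Module.finrank_pi_fintype]
    simp
  rw [htop, c2] at c1
  have c3 : Q.map (RPb_R u) ≤ (KB p l lam).map (RPb_R u) ⊓ (KB p' l' lam').map (RPb_R u) :=
    le_inf (Submodule.map_mono (fun t ht => (hQ ht).1)) (Submodule.map_mono (fun t ht => (hQ ht).2))
  have c4 := Submodule.finrank_mono c3
  have c5 := RPb_rank Q (RPb_R u)
  have c6 : Q ⊓ LinearMap.ker (RPb_R u) ≤ Q ⊓ KU (PP l h l' h') := by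
    rintro t ⟨t1, t2⟩
    exact ⟨t1, RPb_ker huP hub (hQ t1).1.1 t2⟩
  have c7 := Submodule.finrank_mono c6
  omega

end Pool.Agent.Work.MP_ea8963_ag.G5
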