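import Pool.Agent.Work.MP_ea8963_ag.G5.Stmts2

/-!
Block [ea8963 G5], item RYX: ranks of `y` and of `(p, l)`.
-/

set_option linter.style.longLine false

noncomputable section

open Module Topology
open Pool.Agent.Work.MP_ea8963_ag.G4 (D ZA mem_ZA Full cl rn rn_prod rn_le finrank_map_mono
  finrank_map_prod_swap pair d_two ZA_mono)

namespace Pool.Agent.Work.MP_ea8963_ag.G5

namespace I_RYX

/-- the values of a derivation at six coordinates -/
def gJ (y : Y) (J : Fin 6 → Fin 4 × Fin 9) : D →ₗ[ℂ] (Fin 6 → ℂ) where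
  toFun δ := fun k => δ (y (J k).1 (J k).2)
  map_add' a b := by ext i; simp
  map_smul' c a := by ext i; simp

lemma kill {s : T3} {y : Y} (hy : CfgY s y) {δ : D} (h1 : δ ∈ ZS s)
    (h2 : δ ∈ ZB (pOf y) (om s y 0)) (i : Fin 4) (j : Fin 9) : δ (y i j) = 0 := by
  have h3 : dE δ (laOf y i) = 0 := Cfg.dlam hy h1 h2 i
  rw [mem_ZB] at h2
  have hp : ∀ k : Fin 6, δ (y i (Fin.castAdd 3 k)) = 0 := fun k => congrFun (h2.1 i) k
  have hl : ∀ k : Fin 3, δ (y i (Fin.natAdd 6 k)) = 0 := fun k => congrFun h3 k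
  fin_cases j
  · exact hp 0
  · exact hp 1
  · exact hp 2
  · exact hp 3
  · exact hp 4
  · exact hp 5
  · exact hl 0
  · exact hl 1
  · exact hl 2

end I_RYX

theorem RYX_pf : RYX := by
  intro s hs y hy A hA J hJ
  have h1 := rn_le (I_RYX.gJ y J) (evB (pOf y) (om s y 0)) (ZA A)
  have h2 : (ZA A).map (I_RYX.gJ y J) = ⊤ := by
    rw [eq_top_iff]
    intro v _
    obtain ⟨δ, hδ, hv⟩ := hJ v
    exact ⟨δ, hδ, funext hv⟩
  have h3 : ((ZA A ⊓ LinearMap.ker (evB (pOf y) (om s y 0))).map (I_RYX.gJ y J) :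
      Submodule ℂ (Fin 6 → ℂ)) = ⊥ := by
    rw [eq_bot_iff]
    rintro _ ⟨δ, ⟨hδ, hk⟩, rfl⟩
    rw [Submodule.mem_bot]
    funext k
    exact I_RYX.kill hy (ZA_ent hA hδ) hk _ _
  rw [h2, h3, finrank_top, finrank_bot] at h1
  simpa using h1

end Pool.Agent.Work.MP_ea8963_ag.G5
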