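import Pool.Agent.Work.MP_ea8963_ag.G5.Stmts

/-!
Block [ea8963 G5], item SMX: the surface is smooth.  Author helper5.
-/

set_option linter.style.longLine false

noncomputable section

open Module
open Pool.Agent.Work.MP_ea8963_ag.G4 (D rn_prod rn_le)

namespace Pool.Agent.Work.MP_ea8963_ag.G5

lemma SMX_ind1 {m : ℕ} {x : Fin m → ℂ} (hx : x ≠ 0) : LinearIndependent ℂ ![x] := by
  rw [Fintype.linearIndependent_iff]
  intro g hg k
  rw [Fin.sum_univ_one] at hg
  have hg' : g 0 • x = 0 := hg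
  rcases smul_eq_zero.1 hg' with h | h
  · rw [Subsingleton.elim k 0]; exact h
  · exact absurd h hx

lemma SMX_dim {m : ℕ} (W : Submodule ℂ D) {x : Fin m → ℂ} {j : Fin m} (hj : x j = 1) :
    finrank ℂ (W.map (evE x)) + 1 ≤ m := by
  have h0 : (Pi.single j 1 : Fin m → ℂ) ≠ 0 := by
    intro h
    have := congrFun h j
    simp at this
  refine finrank_le_of_ann (SMX_ind1 h0) ?_
  rintro _ ⟨δ, -, rfl⟩ k
  rw [Subsingleton.elim k 0]
  change Pi.single j 1 ⬝ᵥ dE δ x = 0
  have : dE δ x j = 0 := by simp [dE, hj]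
  rw [single_dotProduct, this, mul_zero]

lemma SMX_core (hGK : GKP) {s : T3} (hs : Gen s) {q : E} {j : Fin 6} (hj : q j = 1)
    {a : La} {k : Fin 3} (hk : a k = 1) (h1 : ∀ b : La, tri s b q q = 0)
    (h2 : cov s a q = 0) : False := by
  have hq : q ≠ 0 := by
    rintro rfl
    simp at hj
  have ha : a ≠ 0 := by
    rintro rfl
    simp at hk
  have c1 := rn_prod (evE q) (evE a) ⊤
  have d1 := SMX_dim ⊤ hj
  have d2 := SMX_dim (⊤ ⊓ LinearMap.ker (evE q)) hk
  have c2 : finrank ℂ ((⊤ ⊓ LinearMap.ker ((evE q).prod (evE a)) : Submodule ℂ D).map (evT s)) ≤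
      finrank ℂ (K1 ![q] ![a]) := by
    apply Submodule.finrank_mono
    rintro _ ⟨δ, hδ, rfl⟩
    have hδ' : (evE q).prod (evE a) δ = 0 := LinearMap.mem_ker.1 hδ.2
    have hδq : dE δ q = 0 := congrArg Prod.fst hδ'
    have hδa : dE δ a = 0 := congrArg Prod.snd hδ'
    have e1 : cov (dT δ s) a q = 0 := by
      have e := dE_cov δ s a q
      rw [h2, dE_zero, hδq, hδa, cov_zero_left, cov_zero_right, add_zero, add_zero] at e
      exact e.symm
    have e2 : ∀ b : La, tri (dT δ s) b q q = 0 := by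
      intro b
      have e := d_tri δ s b q q
      rw [h1, map_zero, h1, hδq, tri_zero2, tri_zero3, add_zero, add_zero, add_zero] at e
      exact e.symm
    rw [evT_apply]
    refine ⟨dT_mem δ hs.1, fun i v => ?_, fun i b => ?_⟩
    · rw [Subsingleton.elim i 0]
      change cov (dT δ s) a q ⬝ᵥ v = 0
      rw [e1, zero_dotProduct]
    · rw [Subsingleton.elim i 0]
      exact e2 b
  have c3 := hGK 1 ![q] ![a] (SMX_ind1 hq) (fun i => by rw [Subsingleton.elim i 0]; exact ha) ∅
    (fun i k hik => absurd hik (by rw [Subsingleton.elim i k]; exact lt_irrefl k))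
  rw [Finset.card_empty] at c3
  have c5 := rn_le (evT s) ((evE q).prod (evE a)) ⊤
  rw [hs.map_evT] at c5
  omega

/-- ITEM SMX -/
theorem SMX_pf (hGK : GKP) : SMX := by
  intro s hs q hq h1 a h2
  by_contra ha
  have hj : ∃ j, q j ≠ 0 := by
    by_contra h0
    push Not at h0
    exact hq (funext h0)
  have hk : ∃ k, a k ≠ 0 := by
    by_contra h0
    push Not at h0
    exact ha (funext h0)
  obtain ⟨j, hj⟩ := hj
  obtain ⟨k, hk⟩ := hk
  refine SMX_core hGK hs (q := (q j)⁻¹ • q) (j := j) ?_ (a := (a k)⁻¹ • a) (k := k) ?_ ?_ ?_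
  · simp [hj]
  · simp [hk]
  · intro b
    rw [tri_smul2, tri_smul3, h1, mul_zero, mul_zero]
  · rw [cov_smul_left, cov_smul_right, h2, smul_zero, smul_zero]

end Pool.Agent.Work.MP_ea8963_ag.G5

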