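import Pool.Agent.Work.MP_ea8963_ag.G5.Stmts2

/-!
Block [ea8963 G5], item SUX: the partial derivative of the equations is surjective at a
configuration.
-/

set_option linter.style.longLine false
set_option linter.unusedVariables false

noncomputable section

open Module Topology

namespace Pool.Agent.Work.MP_ea8963_ag.G5

namespace I_SUX

/-- the three covectors `s (e_k) (p, .)` -/
def ro (s : T3) (p : E) : Fin 3 → E := fun k => cov s (Pi.single k 1) p

/-- a parameter is the combination of the unit vectors -/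
lemma la_eq (a : La) : a = ∑ k, a k • (Pi.single k 1 : La) := by
  ext i
  fin_cases i <;> simp [Pi.single_apply]

lemma cov_la (s : T3) (a : La) (p : E) : cov s a p = ∑ k, a k • ro s p k := by
  conv_lhs => rw [la_eq a]
  rw [cov_sum_left]
  simp only [cov_smul_left, ro]

lemma tri_la (s : T3) (a : La) (x y : E) : tri s a x y = ∑ k, a k * tri s (Pi.single k 1) x y := by
  conv_lhs => rw [la_eq a]
  rw [tri_sum1]
  simp only [tri_smul1]

lemma ro_ind {s : T3} {p : E} {lam : La} (h : Nd s p lam) : LinearIndependent ℂ (ro s p) := by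
  rw [Fintype.linearIndependent_iff]
  intro g hg i
  rw [← cov_la s g p] at hg
  rw [h.rank g hg]
  rfl

lemma mem_V {s : T3} {p v : E} : v ∈ Ann (ro s p) ↔ ∀ e : La, tri s e p v = 0 := by
  rw [mem_Ann]
  constructor
  · intro h e
    rw [tri_la]
    refine Finset.sum_eq_zero fun k _ => ?_
    have h1 : tri s (Pi.single k 1) p v = 0 := h k
    rw [h1, mul_zero]
  · intro h k
    exact h (Pi.single k 1)

/-- the linear map of the key step -/
def F (s : T3) (p : E) (lam : La) : (Ann (ro s p)) × La →ₗ[ℂ] E :=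
  ((covR s lam).comp (Ann (ro s p)).subtype).coprod (covL s p)

lemma F_apply (s : T3) (p : E) (lam : La) (u : (Ann (ro s p)) × La) :
    F s p lam u = cov s lam (u.1 : E) + cov s u.2 p := rfl

/-- the key step -/
lemma key {s : T3} (hs : s ∈ SymT) {p : E} {lam : La} (h : Nd s p lam) (hp0 : p ≠ 0)
    (hq : ∀ a : La, tri s a p p = 0) {ω : E} (hω : p ⬝ᵥ ω = 0) :
    ∃ (v : E) (c : La), (∀ e : La, tri s e p v = 0) ∧ cov s lam v + cov s c p = ω := by
  have hdom : finrank ℂ ((Ann (ro s p)) × La) = 6 := by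
    have h1 := finrank_Ann (ro_ind h)
    rw [finrank_prod, finrank_fin_fun]
    omega
  have hp1 : p ∈ Ann (ro s p) := mem_V.2 hq
  have hker : finrank ℂ (LinearMap.ker (F s p lam)) ≤ 1 := by
    have hle : LinearMap.ker (F s p lam) ≤
        Submodule.span ℂ {((⟨p, hp1⟩, -lam) : (Ann (ro s p)) × La)} := by
      intro u hu
      rw [LinearMap.mem_ker, F_apply] at hu
      have hu1 := mem_V.1 u.1.2
      obtain ⟨x, hx⟩ := h.ker (u.1 : E) u.2 hu1 hu
      rw [hx, cov_smul_right, ← cov_smul_left, ← cov_add_left] at hu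
      have h2 := h.rank _ hu
      rw [Submodule.mem_span_singleton]
      refine ⟨x, Prod.ext (Subtype.ext hx.symm) ?_⟩
      simp only [Prod.smul_mk]
      rw [smul_neg, neg_eq_iff_add_eq_zero]
      exact h2
    refine (Submodule.finrank_mono hle).trans ?_
    refine (finrank_span_le_card _).trans ?_
    simp
  have hrk := LinearMap.finrank_range_add_finrank_ker (F s p lam)
  have hi : LinearIndependent ℂ (![p] : Fin 1 → E) := by
    rw [linearIndependent_unique_iff]
    simpa using hp0
  have hle : LinearMap.range (F s p lam) ≤ Ann ![p] := by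
    rintro _ ⟨u, rfl⟩
    rw [mem_Ann]
    intro i
    have hi0 : i = 0 := Subsingleton.elim _ _
    subst hi0
    have hu1 := mem_V.1 u.1.2
    rw [F_apply, dotProduct_comm]
    simp only [Matrix.cons_val_zero, add_dotProduct]
    have e1 : cov s lam (u.1 : E) ⬝ᵥ p = 0 := by
      have e2 := tri_comm hs lam (u.1 : E) p
      rw [hu1 lam] at e2
      exact e2
    have e3 : cov s u.2 p ⬝ᵥ p = 0 := hq u.2
    rw [e1, e3, add_zero]
  have hdim : finrank ℂ (Ann ![p] : Submodule ℂ E) ≤
      finrank ℂ (LinearMap.range (F s p lam)) := by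
    have hA : finrank ℂ (Ann ![p] : Submodule ℂ E) + 1 = 6 := finrank_Ann hi
    omega
  have heq : LinearMap.range (F s p lam) = Ann ![p] :=
    Submodule.eq_of_le_of_finrank_le hle hdim
  have hmem : ω ∈ LinearMap.range (F s p lam) := by
    rw [heq, mem_Ann]
    intro i
    have hi0 : i = 0 := Subsingleton.elim _ _
    subst hi0
    exact hω
  obtain ⟨u, hu⟩ := hmem
  exact ⟨u.1, u.2, mem_V.1 u.1.2, by rw [← hu, F_apply]⟩

/-- the key step with prescribed values -/
lemma key' {s : T3} (hs : s ∈ SymT) {p : E} {lam : La} (h : Nd s p lam) (hp0 : p ≠ 0)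
    (hq : ∀ a : La, tri s a p p = 0) (a : Fin 3 → ℂ) {ω : E} (hω : p ⬝ᵥ ω = ∑ k, lam k * a k) :
    ∃ (v : E) (c : La), (∀ k, tri s (Pi.single k 1) p v = a k) ∧
      cov s lam v + cov s c p = ω := by
  obtain ⟨w, hw⟩ := exists_solution (ro_ind h) a
  have hw' : ∀ k, tri s (Pi.single k 1) p w = a k := hw
  have e2 : cov s lam w ⬝ᵥ p = ∑ k, lam k * a k := by
    have e3 := tri_comm hs lam w p
    rw [tri_la s lam p w] at e3
    simp only [hw'] at e3
    exact e3
  obtain ⟨v, c, h1, h3⟩ := key hs h hp0 hq (ω := ω - cov s lam w) (by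
      rw [dotProduct_sub, hω, dotProduct_comm p, e2, sub_self])
  refine ⟨v + w, c, fun k => ?_, ?_⟩
  · rw [tri_add3, h1, hw', zero_add]
  · have h4 : cov s lam v + cov s c p + cov s lam w = ω := by rw [h3]; abel
    rw [cov_add_right, ← h4]
    abel

end I_SUX

open I_SUX in
/-- ITEM SUX -/
theorem SUX_pf : SUX := by
  intro s hs y hy z
  obtain ⟨a, η⟩ := z
  set p := pOf y with hp
  set la := laOf y with hla
  obtain ⟨ω, hω⟩ := exists_solution hy.ind
    (fun i => (∑ k, la i k * (a i k / 2)) + p i ⬝ᵥ (Fin.cons 0 η : Fin 4 → E) i)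
  have hk := fun i : Fin 4 => key' hs (hy.nd i) (hy.ind.ne_zero i) (hy.q0 i) (fun k => a i k / 2)
    (ω := ω - (Fin.cons 0 η : Fin 4 → E) i) (by
      rw [dotProduct_sub, hω i]; ring)
  choose v x h1 h3 using hk
  refine ⟨fun i => (Fin.append (v i) (x i) : Fin (6 + 3) → ℂ), ?_⟩
  set dy : Y := fun i => (Fin.append (v i) (x i) : Fin (6 + 3) → ℂ) with hdy
  have hpd : ∀ i, pOf dy i = v i := by
    intro i
    ext k
    simp only [pOf, hdy]
    exact Fin.append_left _ _ _
  have hld : ∀ i, laOf dy i = x i := by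
    intro i
    ext k
    simp only [laOf, hdy]
    exact Fin.append_right _ _ _
  have hdom : ∀ i, dom s y dy i = ω - (Fin.cons 0 η : Fin 4 → E) i := by
    intro i
    rw [← h3 i, dom, hpd, hld, add_comm]
  refine Prod.ext ?_ ?_
  · funext i k
    simp only [dPhi]
    rw [hpd, tri_comm hs (Pi.single k 1) (v i)]
    have := h1 i k
    rw [← hp, this]; ring
  · funext j
    simp only [dPhi]
    rw [hdom, hdom, Fin.cons_zero, Fin.cons_succ]
    abel

end Pool.Agent.Work.MP_ea8963_ag.G5
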