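import Pool.Agent.Work.MP_ea8963_ag.G5.Stmts3

/-!
Block [ea8963 G5]: item TAU (structure of the functionals which depend only on the restriction to
the plane `P`).
-/

set_option linter.style.longLine false
set_option linter.unusedVariables false

noncomputable section

open Module Topology
open Pool.Agent.Work.MP_ea8963_ag.G4 (D ZA mem_ZA Full cl rn rn_prod rn_le finrank_map_mono
  finrank_map_prod_swap pair d_two ZA_mono)

namespace Pool.Agent.Work.MP_ea8963_ag.G5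

lemma TAU_test {l h f g F : E} (hF : ∀ y ∈ PP l h f g, F ⬝ᵥ y = 0) (e : La) (G : E) :
    sp e F G ∈ KU (PP l h f g) := by
  refine ⟨sp_mem _ _ _, fun a x hx y hy => ?_⟩
  rw [tri_sp, hF x hx, hF y hy]
  ring

lemma TAU_val (p : Fin 4 → E) (lam : Fin 4 → La) (x : XX) (a : Fin 4 → E)
    (ha : ∀ i j, a i ⬝ᵥ p j = if i = j then 1 else 0) (F : E) (e : La) (k : Fin 4) :
    val p lam (sp e F (a k)) x =
      e ⬝ᵥ (∑ i, ((F ⬝ᵥ p i) * (a k ⬝ᵥ x.1 i)) • lam i + (F ⬝ᵥ x.1 k) • lam k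
        + (2 * (F ⬝ᵥ p k)) • x.2 k) := by
  simp only [val, tri_sp, ha, dotProduct_add, dotProduct_sum, dotProduct_smul, smul_eq_mul]
  have h1 : ∀ i : Fin 4, (e ⬝ᵥ lam i * (F ⬝ᵥ p i * a k ⬝ᵥ x.1 i + (if k = i then 1 else 0) * F ⬝ᵥ x.1 i)
      + e ⬝ᵥ x.2 i * (F ⬝ᵥ p i * (if k = i then 1 else 0) + (if k = i then 1 else 0) * F ⬝ᵥ p i)) =
      F ⬝ᵥ p i * a k ⬝ᵥ x.1 i * e ⬝ᵥ lam i +
      (if k = i then F ⬝ᵥ x.1 i * e ⬝ᵥ lam i + 2 * F ⬝ᵥ p i * e ⬝ᵥ x.2 i else 0) := by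
    intro i
    split_ifs <;> ring
  rw [Finset.sum_congr rfl fun i _ => h1 i, Finset.sum_add_distrib, Finset.sum_ite_eq]
  simp only [Finset.mem_univ, if_true]
  ring

lemma TAU_span (p : Fin 4 → E) (l h : E) (hp : LinearIndependent ℂ p) (hlp : ∀ i, l ⬝ᵥ p i = 0)
    (hhp : ∀ i, h ⬝ᵥ p i = 0) (hi : LinearIndependent ℂ ![l, h]) (a : Fin 4 → E)
    (ha : ∀ i j, a i ⬝ᵥ p j = if i = j then 1 else 0) (v : E) (hl : l ⬝ᵥ v = 0) (hh : h ⬝ᵥ v = 0) :
    v = ∑ k, (a k ⬝ᵥ v) • p k := by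
  have h1 : Submodule.span ℂ (Set.range p) ≤ Ann ![l, h] := by
    rw [Submodule.span_le]
    rintro _ ⟨i, rfl⟩
    rw [SetLike.mem_coe, mem_Ann]
    intro j
    fin_cases j
    · exact hlp i
    · exact hhp i
  have h2 : finrank ℂ (Submodule.span ℂ (Set.range p)) = 4 := by
    rw [finrank_span_eq_card hp]; rfl
  have h3 : finrank ℂ (Ann ![l, h]) = 4 := by
    have h6 : finrank ℂ (Ann ![l, h]) + 2 = 6 := finrank_Ann hi
    omega
  have h4 : Submodule.span ℂ (Set.range p) = Ann ![l, h] :=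
    Submodule.eq_of_le_of_finrank_le h1 (by rw [h2]; exact h3.le)
  have h5 : v ∈ Submodule.span ℂ (Set.range p) := by
    rw [h4, mem_Ann]
    intro j
    fin_cases j
    · exact hl
    · exact hh
  obtain ⟨c, rfl⟩ := (Submodule.mem_span_range_iff_exists_fun ℂ).1 h5
  refine Finset.sum_congr rfl fun k _ => ?_
  congr 1
  simp only [dotProduct_sum, dotProduct_smul, smul_eq_mul, ha, mul_ite, mul_one, mul_zero,
    Finset.sum_ite_eq, Finset.mem_univ, if_true]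

theorem TAU_pf : TAU := by
  intro p l lam h f g S ρ hρ x hx
  obtain ⟨hx1, hx2⟩ := hx
  obtain ⟨a, ha⟩ := exists_dual S.ind
  have hlh : LinearIndependent ℂ ![l, h] := by
    have h1 := S.fi.comp ![0, 1] (by decide)
    have e : (![l, h, f, g] : Fin 4 → E) ∘ ![0, 1] = ![l, h] := by
      funext i
      fin_cases i <;> rfl
    rwa [e] at h1
  -- the test equations
  have test : ∀ F : E, (∀ y ∈ PP l h f g, F ⬝ᵥ y = 0) → ∀ k,
      ∑ i, ((F ⬝ᵥ p i) * (a k ⬝ᵥ x.1 i)) • lam i + (F ⬝ᵥ x.1 k) • lam k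
        + (2 * (F ⬝ᵥ p k)) • x.2 k = 0 := by
    intro F hF k
    apply eq_zero_of_dot
    intro e
    rw [← TAU_val p lam x a ha F e k]
    exact hx2 _ (TAU_test hF e (a k))
  have hh : ∀ k, h ⬝ᵥ x.1 k = 0 := by
    intro k
    have h1 := test h (fun y hy => (mem_PP.1 hy).2.1) k
    simp only [S.hp, zero_mul, zero_smul, Finset.sum_const_zero, zero_add, mul_zero, add_zero] at h1
    have h2 := congrFun h1 0
    rw [Pi.smul_apply, S.nrm, smul_eq_mul, mul_one, Pi.zero_apply] at h2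
    exact h2
  have hV : ∀ i, x.1 i = ∑ k, (a k ⬝ᵥ x.1 i) • p k := fun i =>
    TAU_span p l h S.ind S.lp S.hp hlh a ha (x.1 i) (hx1 i) (hh i)
  have hF : ∀ (F : E) k, F ⬝ᵥ x.1 k = ∑ m, (a m ⬝ᵥ x.1 k) * (F ⬝ᵥ p m) := by
    intro F k
    conv_lhs => rw [hV k]
    simp only [dotProduct_sum, dotProduct_smul, smul_eq_mul]
  -- the combined equations
  have comb : ∀ k, ∑ i, (zz f g p i k * (a k ⬝ᵥ x.1 i)) • lam i +
      (∑ m, (a m ⬝ᵥ x.1 k) * zz f g p m k) • lam k = 0 := by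
    intro k
    have h1 := test f (fun y hy => (mem_PP.1 hy).2.2.1) k
    have h2 := test g (fun y hy => (mem_PP.1 hy).2.2.2) k
    rw [hF] at h1 h2
    have h3 : (f ⬝ᵥ p k) • (∑ i, ((g ⬝ᵥ p i) * (a k ⬝ᵥ x.1 i)) • lam i +
        (∑ m, (a m ⬝ᵥ x.1 k) * (g ⬝ᵥ p m)) • lam k + (2 * (g ⬝ᵥ p k)) • x.2 k) -
        (g ⬝ᵥ p k) • (∑ i, ((f ⬝ᵥ p i) * (a k ⬝ᵥ x.1 i)) • lam i +
        (∑ m, (a m ⬝ᵥ x.1 k) * (f ⬝ᵥ p m)) • lam k + (2 * (f ⬝ᵥ p k)) • x.2 k) = 0 := by
      rw [h1, h2, smul_zero, smul_zero, sub_zero]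
    rw [← h3]
    ext j
    simp only [Pi.add_apply, Pi.sub_apply, Pi.smul_apply, smul_eq_mul,
      Fin.sum_univ_four, zz]
    ring
  -- the relation
  have rel : ∀ k, ∃ κ : ℂ, (∀ i, i ≠ k → zz f g p i k * (a k ⬝ᵥ x.1 i) = ρ i * κ) ∧
      ∑ m, (a m ⬝ᵥ x.1 k) * zz f g p m k = ρ k * κ := by
    intro k
    obtain ⟨κ, hκ⟩ := hρ.2.2 (fun i => zz f g p i k * (a k ⬝ᵥ x.1 i) +
      if i = k then ∑ m, (a m ⬝ᵥ x.1 k) * zz f g p m k else 0) (by
        have h1 := comb k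
        simp only [add_smul, Finset.sum_add_distrib, ite_smul, zero_smul, Finset.sum_ite_eq',
          Finset.mem_univ, if_true]
        exact h1)
    refine ⟨κ, fun i hi => ?_, ?_⟩
    · have h1 := congrFun hκ i
      simp only [hi, if_false, add_zero, Pi.smul_apply, smul_eq_mul] at h1
      rw [h1]; ring
    · have h1 := congrFun hκ k
      simp only [if_true, Pi.smul_apply, smul_eq_mul] at h1
      have h2 : zz f g p k k = 0 := by simp only [zz]; ring
      rw [h2, zero_mul, zero_add] at h1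
      rw [h1]; ring
  choose τ hτ1 hτ2 using rel
  refine ⟨fun i k => a k ⬝ᵥ x.1 i, τ, hV, fun i k hik => hτ1 k i hik, ?_, fun h0 => ?_⟩
  · -- the sum of the coefficients
    have h1 := hτ2 0
    rw [Fin.sum_univ_four] at h1
    have z0 : zz f g p 0 0 = 0 := by simp only [zz]; ring
    have e1 : ∀ m, m ≠ 0 → (a m ⬝ᵥ x.1 0) * zz f g p m 0 = -(ρ 0 * τ m) := by
      intro m hm
      rw [← hτ1 m 0 hm.symm]
      simp only [zz]; ring
    rw [z0, mul_zero, e1 1 (by decide), e1 2 (by decide), e1 3 (by decide)] at h1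
    have h2 : ρ 0 * (τ 0 + τ 1 + τ 2 + τ 3) = 0 := by linear_combination -h1
    rw [Fin.sum_univ_four]
    exact (mul_eq_zero.1 h2).resolve_left (hρ.1 0)
  · -- the trivial elements
    have h0' : ∀ i k, i ≠ k → a k ⬝ᵥ x.1 i = 0 := h0
    refine ⟨fun i => a i ⬝ᵥ x.1 i, ?_⟩
    apply Prod.ext
    · funext i
      have h1 := hV i
      rw [Finset.sum_eq_single i (fun k _ hk => by rw [h0' i k hk.symm, zero_smul])
        (fun hi => absurd (Finset.mem_univ i) hi)] at h1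
      exact h1
    · funext k
      have h1 := test f (fun y hy => (mem_PP.1 hy).2.2.1) k
      rw [hF, Finset.sum_eq_single k (fun i _ hi => by
          rw [h0' i k hi, mul_zero, zero_smul]) (fun hi => absurd (Finset.mem_univ k) hi),
        Finset.sum_eq_single k (fun i _ hi => by
          rw [h0' k i hi.symm, zero_mul]) (fun hi => absurd (Finset.mem_univ k) hi)] at h1
      show x.2 k = -((a k ⬝ᵥ x.1 k) • lam k)
      have h2 := S.fp k
      have h3 : (2 * (f ⬝ᵥ p k)) • (x.2 k + (a k ⬝ᵥ x.1 k) • lam k) = 0 := by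
        rw [← h1]
        ext j
        simp only [Pi.add_apply, Pi.smul_apply, smul_eq_mul]
        ring
      have h4 := (smul_eq_zero.1 h3).resolve_left (mul_ne_zero two_ne_zero h2)
      exact eq_neg_of_add_eq_zero_left h4

end Pool.Agent.Work.MP_ea8963_ag.G5
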