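import Pool.Agent.Work.MP_ea8963_ag.G5.Stmts2
import Pool.Agent.Work.MP_ea8963_ag.G4.Stmts2

/-!
Block [ea8963 G5], item TAX (helper35): uniqueness of the type of one configuration, relative to a
countable set `A`.
-/

set_option linter.style.longLine false
set_option linter.unusedVariables false

noncomputable section

open Module Topology
open Pool.Agent.Work.MP_ea8963_ag.G4 (D ZA mem_ZA Full cl rn rn_prod rn_le finrank_map_mono
  finrank_map_prod_swap pair d_two ZA_mono)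

namespace Pool.Agent.Work.MP_ea8963_ag.G5

namespace I_TAX

/-- the entries of a family of points -/
def entP (p : Fin 4 → E) : Set ℂ := {z | ∃ i k, z = p i k}

lemma entP_countable (p : Fin 4 → E) : (entP p).Countable := by
  refine Set.Countable.mono ?_ (Set.countable_iUnion fun i : Fin 4 => Set.countable_range (p i))
  rintro z ⟨i, k, rfl⟩
  exact Set.mem_iUnion.2 ⟨i, k, rfl⟩

lemma mem_ZA_union {A A' : Set ℂ} {δ : D} (h : δ ∈ ZA A) (h' : δ ∈ ZA A') : δ ∈ ZA (A ∪ A') := by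
  rintro a (ha | ha)
  · exact h a ha
  · exact h' a ha

/-- the hypothesis of TAX for one side -/
def Free (A : Set ℂ) (p : Fin 4 → E) (l : E) (lam : Fin 4 → La) : Prop :=
  ∀ x ∈ TP p l, ∀ d : Fin 4 → La, (∀ i, d i 0 = 0) → ∃ δ ∈ ZA A, evC p l lam δ = (x, d)

/-- derivations for the points -/
lemma der1 {A : Set ℂ} {p : Fin 4 → E} {l : E} {lam : Fin 4 → La} (ind : LinearIndependent ℂ p)
    (full : Free A p l lam) (u : Fin 4 × Fin 6 → ℂ) :
    ∃ δ ∈ ZA A, ∀ q : Fin 4 × Fin 6, δ (p q.1 q.2) = u q := by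
  obtain ⟨w, hw⟩ := exists_solution ind (fun i => -(l ⬝ᵥ (fun k => u (i, k) : E)))
  obtain ⟨δ, hδ, h⟩ := full ((fun i k => u (i, k)), w) (by
    intro i
    show w ⬝ᵥ p i + l ⬝ᵥ (fun k => u (i, k) : E) = 0
    rw [dotProduct_comm, hw i]; ring) 0 (fun i => rfl)
  refine ⟨δ, hδ, ?_⟩
  rintro ⟨i, k⟩
  have h1 := congrFun (congrFun (congrArg (fun z => z.1.1) h) i) k
  exact h1

/-- derivations for the covector -/
lemma der2 {A : Set ℂ} {p : Fin 4 → E} {l : E} {lam : Fin 4 → La}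
    (full : Free A p l lam) (u : E) (hu : ∀ i, u ⬝ᵥ p i = 0) :
    ∃ δ ∈ ZA A, (∀ i k, δ (p i k) = 0) ∧ ∀ k, δ (l k) = u k := by
  obtain ⟨δ, hδ, h⟩ := full (0, u) (by
    intro i
    show u ⬝ᵥ p i + l ⬝ᵥ (0 : E) = 0
    rw [hu i, dotProduct_zero, add_zero]) 0 (fun i => rfl)
  refine ⟨δ, hδ, ?_, ?_⟩
  · intro i k
    exact congrFun (congrFun (congrArg (fun z => z.1.1) h) i) k
  · intro k
    exact congrFun (congrArg (fun z => z.1.2) h) k

/-- derivations for the parameters -/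
lemma der3 {A : Set ℂ} {p : Fin 4 → E} {l : E} {lam : Fin 4 → La}
    (full : Free A p l lam) (u : Fin 4 × Fin 2 → ℂ) :
    ∃ δ ∈ ZA A, (∀ i k, δ (p i k) = 0) ∧ (∀ k, δ (l k) = 0) ∧
      ∀ q : Fin 4 × Fin 2, δ (lam q.1 q.2.succ) = u q := by
  obtain ⟨δ, hδ, h⟩ := full 0 (TP p l).zero_mem
    (fun i => (Fin.cons 0 (fun j : Fin 2 => u (i, j)) : La)) (fun i => rfl)
  refine ⟨δ, hδ, ?_, ?_, ?_⟩
  · intro i k
    exact congrFun (congrFun (congrArg (fun z => z.1.1) h) i) k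
  · intro k
    exact congrFun (congrArg (fun z => z.1.2) h) k
  · rintro ⟨i, j⟩
    exact congrFun (congrFun (congrArg (fun z => z.2) h) i) j.succ

end I_TAX

open I_TAX in
theorem TAX_pf (hGLX : G4.GLX) : TAX := by
  intro A hA σ p l lam c m mu ind ind' lp lp' nrm nrm' full full'
  have full1 : Free A p l lam := full
  have full2 : Free (σ '' A) c m mu := full'
  -- step 1
  obtain ⟨σ1, h1, g1⟩ := hGLX (Fin 4 × Fin 6) A hA σ ∅ (by simp) (fun q => p q.1 q.2)
    (fun q => c q.1 q.2) (by simp) (by simp)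
    (fun u _ => der1 ind full1 u) (fun u _ => der1 ind' full2 u)
  have g1' : ∀ i k, σ1 (p i k) = c i k := fun i k => g1 (i, k)
  -- step 2
  obtain ⟨σ2, h2, g2⟩ := hGLX (Fin 6) (A ∪ entP p) (hA.union (entP_countable p)) σ1
    (Set.range p)
    (by
      rintro _ ⟨i, rfl⟩ k
      exact IntermediateField.subset_adjoin ℚ _ (Or.inr ⟨i, k, rfl⟩))
    l m
    (by
      rintro _ ⟨i, rfl⟩
      have := lp i
      rw [dotProduct_comm] at this
      exact this)
    (by
      rintro _ ⟨i, rfl⟩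
      have := lp' i
      rw [dotProduct_comm] at this
      have e : ∀ k, σ1 (p i k) = c i k := g1' i
      simp only [e]
      exact this)
    (by
      intro u hu
      obtain ⟨δ, hδ, e1, e2⟩ := der2 full1 u (by
        intro i
        rw [dotProduct_comm]
        exact hu _ ⟨i, rfl⟩)
      refine ⟨δ, mem_ZA_union hδ ?_, e2⟩
      rintro z ⟨i, k, rfl⟩
      exact e1 i k)
    (by
      intro u hu
      obtain ⟨δ, hδ, e1, e2⟩ := der2 full2 u (by
        intro i
        rw [dotProduct_comm]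
        have h5 := hu _ ⟨i, rfl⟩
        have e : ∀ k, σ1 (p i k) = c i k := g1' i
        simp only [e] at h5
        exact h5)
      refine ⟨δ, ?_, e2⟩
      rintro _ ⟨a, ha | ⟨i, k, rfl⟩, rfl⟩
      · rw [h1 a ha]
        exact hδ _ ⟨a, ha, rfl⟩
      · rw [g1' i k]
        exact e1 i k)
  have h2A : ∀ a ∈ A, σ2 a = σ a := fun a ha => (h2 a (Or.inl ha)).trans (h1 a ha)
  have h2p : ∀ i k, σ2 (p i k) = c i k := fun i k =>
    (h2 _ (Or.inr ⟨i, k, rfl⟩)).trans (g1' i k)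
  -- step 3
  obtain ⟨σ3, h3, g3⟩ := hGLX (Fin 4 × Fin 2) ((A ∪ entP p) ∪ Set.range l)
    ((hA.union (entP_countable p)).union (Set.countable_range l)) σ2 ∅ (by simp)
    (fun q => lam q.1 q.2.succ) (fun q => mu q.1 q.2.succ) (by simp) (by simp)
    (by
      intro u _
      obtain ⟨δ, hδ, e1, e2, e3⟩ := der3 full1 u
      refine ⟨δ, mem_ZA_union (mem_ZA_union hδ ?_) ?_, e3⟩
      · rintro z ⟨i, k, rfl⟩
        exact e1 i k
      · rintro z ⟨k, rfl⟩
        exact e2 k)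
    (by
      intro u _
      obtain ⟨δ, hδ, e1, e2, e3⟩ := der3 full2 u
      refine ⟨δ, ?_, e3⟩
      rintro _ ⟨a, (ha | ⟨i, k, rfl⟩) | ⟨k, rfl⟩, rfl⟩
      · rw [h2A a ha]
        exact hδ _ ⟨a, ha, rfl⟩
      · rw [h2p i k]
        exact e1 i k
      · rw [g2 k]
        exact e2 k)
  refine ⟨σ3, ?_, ?_, ?_, ?_⟩
  · intro a ha
    exact (h3 a (Or.inl (Or.inl ha))).trans (h2A a ha)
  · funext i k
    exact (h3 _ (Or.inl (Or.inr ⟨i, k, rfl⟩))).trans (h2p i k)
  · funext k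
    exact (h3 _ (Or.inr ⟨k, rfl⟩)).trans (g2 k)
  · funext i k
    refine Fin.cases ?_ (fun j => ?_) k
    · show σ3 (lam i 0) = mu i 0
      rw [nrm i, nrm' i, map_one]
    · exact g3 (i, j)

end Pool.Agent.Work.MP_ea8963_ag.G5
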