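import Pool.Agent.Work.MP_ea8963_ag.G5.Stmts2
import Pool.Agent.Work.MP_ea8963_ag.G4.Stmts2

/-!
Block [ea8963 G5], item TUX (helper2): uniqueness of the type.
-/

set_option linter.style.longLine false
set_option linter.unusedVariables false

noncomputable section

open Module Topology
open Pool.Agent.Work.MP_ea8963_ag.G4 (D ZA mem_ZA Full cl rn rn_prod rn_le finrank_map_mono
  finrank_map_prod_swap pair d_two ZA_mono)

namespace Pool.Agent.Work.MP_ea8963_ag.G5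

namespace I_TUX

lemma mem_ZA_union {A A' : Set ℂ} {δ : D} (h : δ ∈ ZA A) (h' : δ ∈ ZA A') : δ ∈ ZA (A ∪ A') := by
  rintro a (ha | ha)
  · exact h a ha
  · exact h' a ha

/-! ### the net -/

/-- triples of indices -/
abbrev I3 : Type := Fin 3 × Fin 6 × Fin 6

/-- a net as a family -/
def flat (t : T3) : I3 → ℂ := fun q => t q.1 q.2.1 q.2.2

/-- rows of the symmetry equations -/
def rS (q q' : I3) : I3 → ℂ := Pi.single q 1 - Pi.single q' 1

/-- row of the equation `t (a) (p, v) = 0` -/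
def rK (a : La) (p v : E) : I3 → ℂ := fun q => a q.1 * p q.2.1 * v q.2.2

lemma sum_rS (q q' : I3) (x : I3 → ℂ) : ∑ r, rS q q' r * x r = x q - x q' := by
  simp [rS, sub_mul, Finset.sum_sub_distrib, Pi.single_apply]

lemma sum_rK (a : La) (p v : E) (t : T3) : ∑ q, rK a p v q * flat t q = tri t a p v := by
  rw [tri_eq, Fintype.sum_prod_type]
  rw [Finset.sum_comm (s := (Finset.univ : Finset (Fin 6))) (t := (Finset.univ : Finset (Fin 3)))]
  refine Finset.sum_congr rfl fun k _ => ?_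
  rw [Fintype.sum_prod_type, Finset.sum_comm]
  refine Finset.sum_congr rfl fun j _ => Finset.sum_congr rfl fun i _ => ?_
  simp only [rK, flat]
  ring

/-- the vector of CRX -/
def crv (l : E) (u w : Fin 6) : E := l u • Pi.single w 1 - l w • Pi.single u 1

/-- the rows -/
def Rows (p : Fin 4 → E) (l : E) (lam : Fin 4 → La) (p' : Fin 4 → E) (l' : E)
    (lam' : Fin 4 → La) : Set (I3 → ℂ) :=
  {r | (∃ k i j, r = rS (k, i, j) (k, j, i)) ∨
    (∃ (i : Fin 4) (u w : Fin 6), r = rK (lam i) (p i) (crv l u w)) ∨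
    (∃ (i : Fin 4) (k : Fin 3), r = rK (Pi.single k 1) (p i) (p i)) ∨
    (∃ (i : Fin 4) (u w : Fin 6), r = rK (lam' i) (p' i) (crv l' u w)) ∨
    ∃ (i : Fin 4) (k : Fin 3), r = rK (Pi.single k 1) (p' i) (p' i)}

lemma rows_iff (hCRX : CRX) {p : Fin 4 → E} {l : E} {lam : Fin 4 → La} {p' : Fin 4 → E} {l' : E}
    {lam' : Fin 4 → La} (hl : l ≠ 0) (hl' : l' ≠ 0) (t : T3) :
    (∀ r ∈ Rows p l lam p' l' lam', ∑ q, r q * flat t q = 0) ↔
      t ∈ KB p l lam ⊓ KB p' l' lam' := by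
  constructor
  · intro h
    have ht : t ∈ SymT := by
      intro k i j
      have := h _ (Or.inl ⟨k, i, j, rfl⟩)
      rw [sum_rS] at this
      exact sub_eq_zero.1 this
    refine ⟨(hCRX p l lam hl t).2 ⟨ht, fun i u w => ?_, fun i k => ?_⟩,
      (hCRX p' l' lam' hl' t).2 ⟨ht, fun i u w => ?_, fun i k => ?_⟩⟩
    · have := h _ (Or.inr (Or.inl ⟨i, u, w, rfl⟩))
      rw [sum_rK] at this
      exact this
    · have := h _ (Or.inr (Or.inr (Or.inl ⟨i, k, rfl⟩)))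
      rw [sum_rK] at this
      exact this
    · have := h _ (Or.inr (Or.inr (Or.inr (Or.inl ⟨i, u, w, rfl⟩))))
      rw [sum_rK] at this
      exact this
    · have := h _ (Or.inr (Or.inr (Or.inr (Or.inr ⟨i, k, rfl⟩))))
      rw [sum_rK] at this
      exact this
  · rintro ⟨h, h'⟩
    obtain ⟨ht, h1, h2⟩ := (hCRX p l lam hl t).1 h
    obtain ⟨-, h3, h4⟩ := (hCRX p' l' lam' hl' t).1 h'
    rintro r (⟨k, i, j, rfl⟩ | ⟨i, u, w, rfl⟩ | ⟨i, k, rfl⟩ | ⟨i, u, w, rfl⟩ | ⟨i, k, rfl⟩)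
    · rw [sum_rS]
      exact sub_eq_zero.2 (ht k i j)
    · rw [sum_rK]
      exact h1 i u w
    · rw [sum_rK]
      exact h2 i k
    · rw [sum_rK]
      exact h3 i u w
    · rw [sum_rK]
      exact h4 i k

/-! ### automorphisms -/

lemma mE_single {n : ℕ} (σ : ℂ ≃+* ℂ) (u : Fin n) :
    mE σ (Pi.single u 1 : Fin n → ℂ) = Pi.single u 1 := by
  funext i
  simp only [mE, Pi.single_apply]
  split_ifs <;> simp

lemma mE_crv (σ : ℂ ≃+* ℂ) (l : E) (u w : Fin 6) :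
    mE σ (crv l u w) = crv (mE σ l) u w := by
  funext i
  simp only [mE, crv, Pi.sub_apply, Pi.smul_apply, smul_eq_mul, Pi.single_apply]
  split_ifs <;> simp

lemma map_rS (σ : ℂ ≃+* ℂ) (q q' r : I3) : σ (rS q q' r) = rS q q' r := by
  simp only [rS, Pi.sub_apply, Pi.single_apply]
  split_ifs <;> simp

lemma map_rK (σ : ℂ ≃+* ℂ) (a : La) (p v : E) (q : I3) :
    σ (rK a p v q) = rK (mE σ a) (mE σ p) (mE σ v) q := by
  simp [rK, mE]

/-- the rows of the image -/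
lemma rows_map (σ : ℂ ≃+* ℂ) {p : Fin 4 → E} {l : E} {lam : Fin 4 → La} {p' : Fin 4 → E} {l' : E}
    {lam' : Fin 4 → La} {c : Fin 4 → E} {m : E} {mu : Fin 4 → La} {c' : Fin 4 → E} {m' : E}
    {mu' : Fin 4 → La} (h1 : mP σ p = c) (h2 : mE σ l = m) (h5 : mP σ lam = mu)
    (h3 : mP σ p' = c') (h4 : mE σ l' = m') (h6 : mP σ lam' = mu') (x : I3 → ℂ) :
    (∀ r ∈ Rows p l lam p' l' lam', ∑ q, σ (r q) * x q = 0) ↔
      ∀ r ∈ Rows c m mu c' m' mu', ∑ q, r q * x q = 0 := by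
  have e1 : ∀ i, mE σ (p i) = c i := fun i => congrFun h1 i
  have e3 : ∀ i, mE σ (p' i) = c' i := fun i => congrFun h3 i
  have e5 : ∀ i, mE σ (lam i) = mu i := fun i => congrFun h5 i
  have e6 : ∀ i, mE σ (lam' i) = mu' i := fun i => congrFun h6 i
  constructor
  · intro h
    rintro r (⟨k, i, j, rfl⟩ | ⟨i, u, w, rfl⟩ | ⟨i, k, rfl⟩ | ⟨i, u, w, rfl⟩ | ⟨i, k, rfl⟩)
    · have := h _ (Or.inl ⟨k, i, j, rfl⟩)
      simpa only [map_rS] using this
    · have := h _ (Or.inr (Or.inl ⟨i, u, w, rfl⟩))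
      simpa only [map_rK, mE_crv, e1, e5, h2] using this
    · have := h _ (Or.inr (Or.inr (Or.inl ⟨i, k, rfl⟩)))
      simpa only [map_rK, mE_single, e1] using this
    · have := h _ (Or.inr (Or.inr (Or.inr (Or.inl ⟨i, u, w, rfl⟩))))
      simpa only [map_rK, mE_crv, e3, e6, h4] using this
    · have := h _ (Or.inr (Or.inr (Or.inr (Or.inr ⟨i, k, rfl⟩))))
      simpa only [map_rK, mE_single, e3] using this
  · intro h
    rintro r (⟨k, i, j, rfl⟩ | ⟨i, u, w, rfl⟩ | ⟨i, k, rfl⟩ | ⟨i, u, w, rfl⟩ | ⟨i, k, rfl⟩)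
    · simp only [map_rS]
      exact h _ (Or.inl ⟨k, i, j, rfl⟩)
    · simp only [map_rK, mE_crv, e1, e5, h2]
      exact h _ (Or.inr (Or.inl ⟨i, u, w, rfl⟩))
    · simp only [map_rK, mE_single, e1]
      exact h _ (Or.inr (Or.inr (Or.inl ⟨i, k, rfl⟩)))
    · simp only [map_rK, mE_crv, e3, e6, h4]
      exact h _ (Or.inr (Or.inr (Or.inr (Or.inl ⟨i, u, w, rfl⟩))))
    · simp only [map_rK, mE_single, e3]
      exact h _ (Or.inr (Or.inr (Or.inr (Or.inr ⟨i, k, rfl⟩))))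

/-! ### the rows are in the field -/

section field

variable (K : IntermediateField ℚ ℂ)

lemma single_memK {n : ℕ} (u k : Fin n) : (Pi.single u 1 : Fin n → ℂ) k ∈ K := by
  rw [Pi.single_apply]
  split_ifs
  · exact K.one_mem
  · exact K.zero_mem

lemma crv_memK {l : E} (hl : ∀ k, l k ∈ K) (u w k : Fin 6) : crv l u w k ∈ K := by
  simp only [crv, Pi.sub_apply, Pi.smul_apply, smul_eq_mul]
  exact K.sub_mem (K.mul_mem (hl _) (single_memK K _ _)) (K.mul_mem (hl _) (single_memK K _ _))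

lemma rK_memK {a : La} {p v : E} (ha : ∀ k, a k ∈ K) (hp : ∀ k, p k ∈ K) (hv : ∀ k, v k ∈ K)
    (q : I3) : rK a p v q ∈ K :=
  K.mul_mem (K.mul_mem (ha _) (hp _)) (hv _)

lemma rS_memK (q q' r : I3) : rS q q' r ∈ K := by
  simp only [rS, Pi.sub_apply, Pi.single_apply]
  refine K.sub_mem ?_ ?_ <;> split_ifs
  · exact K.one_mem
  · exact K.zero_mem
  · exact K.one_mem
  · exact K.zero_mem

lemma rows_memK {p : Fin 4 → E} {l : E} {lam : Fin 4 → La} {p' : Fin 4 → E} {l' : E}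
    {lam' : Fin 4 → La} (hp : ∀ i k, p i k ∈ K) (hl : ∀ k, l k ∈ K) (ha : ∀ i k, lam i k ∈ K)
    (hp' : ∀ i k, p' i k ∈ K) (hl' : ∀ k, l' k ∈ K) (ha' : ∀ i k, lam' i k ∈ K) (r : I3 → ℂ)
    (hr : r ∈ Rows p l lam p' l' lam') (q : I3) : r q ∈ K := by
  rcases hr with ⟨k, i, j, rfl⟩ | ⟨i, u, w, rfl⟩ | ⟨i, k, rfl⟩ | ⟨i, u, w, rfl⟩ | ⟨i, k, rfl⟩
  · exact rS_memK K _ _ _
  · exact rK_memK K (ha i) (hp i) (crv_memK K hl u w) q
  · exact rK_memK K (single_memK K k) (hp i) (hp i) q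
  · exact rK_memK K (ha' i) (hp' i) (crv_memK K hl' u w) q
  · exact rK_memK K (single_memK K k) (hp' i) (hp' i) q

end field

/-! ### the entries of a configuration with parameters -/

/-- the entries of `(p, l, lam)` -/
def entC (p : Fin 4 → E) (l : E) (lam : Fin 4 → La) : Set ℂ :=
  {z | (∃ i j, z = p i j) ∨ (∃ j, z = l j) ∨ ∃ i j, z = lam i j}

lemma entC_countable (p : Fin 4 → E) (l : E) (lam : Fin 4 → La) : (entC p l lam).Countable := by
  refine Set.Countable.mono ?_ (((Set.countable_iUnion fun i : Fin 4 =>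
    Set.countable_range (p i)).union (Set.countable_range l)).union
    (Set.countable_iUnion fun i : Fin 4 => Set.countable_range (lam i)))
  rintro z (⟨i, j, rfl⟩ | ⟨j, rfl⟩ | ⟨i, j, rfl⟩)
  · exact Or.inl (Or.inl (Set.mem_iUnion.2 ⟨i, j, rfl⟩))
  · exact Or.inl (Or.inr ⟨j, rfl⟩)
  · exact Or.inr (Set.mem_iUnion.2 ⟨i, j, rfl⟩)

lemma ZC_le (p : Fin 4 → E) (l : E) (lam : Fin 4 → La) {δ : D} (h : δ ∈ ZC p l lam) :
    δ ∈ ZA (entC p l lam) := by
  rw [mem_ZC] at h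
  rintro z (⟨i, j, rfl⟩ | ⟨j, rfl⟩ | ⟨i, j, rfl⟩)
  · exact congrFun (h.1 i) j
  · exact congrFun h.2.1 j
  · exact congrFun (h.2.2 i) j

lemma image_entC {σ : ℂ ≃+* ℂ} {p : Fin 4 → E} {l : E} {lam : Fin 4 → La} {c : Fin 4 → E} {m : E}
    {mu : Fin 4 → La} (h1 : mP σ p = c) (h2 : mE σ l = m) (h3 : mP σ lam = mu) :
    σ '' entC p l lam = entC c m mu := by
  subst h1 h2 h3
  ext z
  constructor
  · rintro ⟨_, ⟨i, j, rfl⟩ | ⟨j, rfl⟩ | ⟨i, j, rfl⟩, rfl⟩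
    · exact Or.inl ⟨i, j, rfl⟩
    · exact Or.inr (Or.inl ⟨j, rfl⟩)
    · exact Or.inr (Or.inr ⟨i, j, rfl⟩)
  · rintro (⟨i, j, rfl⟩ | ⟨j, rfl⟩ | ⟨i, j, rfl⟩)
    · exact ⟨_, Or.inl ⟨i, j, rfl⟩, rfl⟩
    · exact ⟨_, Or.inr (Or.inl ⟨j, rfl⟩), rfl⟩
    · exact ⟨_, Or.inr (Or.inr ⟨i, j, rfl⟩), rfl⟩

end I_TUX

open I_TUX in
theorem TUX_pf (hGLX : G4.GLX) (hTAX : TAX) (hCRX : CRX) : TUX := by
  intro s p l lam p' l' lam' t c m mu c' m' mu' hs ht
  -- first configuration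
  obtain ⟨σ1, -, h1, h2, h5⟩ := hTAX ∅ Set.countable_empty (RingEquiv.refl ℂ) p l lam c m mu
    hs.ind ht.ind hs.lp ht.lp hs.nrm ht.nrm
    (fun x hx d hd => by
      obtain ⟨δ, hδ⟩ := hs.full1 x hx d hd
      exact ⟨δ, fun a ha => absurd ha (Set.notMem_empty a), hδ⟩)
    (fun x hx d hd => by
      obtain ⟨δ, hδ⟩ := ht.full1 x hx d hd
      refine ⟨δ, ?_, hδ⟩
      rintro _ ⟨a, ha, -⟩
      exact absurd ha (Set.notMem_empty a))
  -- second configuration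
  obtain ⟨σ2, g, h3, h4, h6⟩ := hTAX (entC p l lam) (entC_countable p l lam) σ1 p' l' lam' c' m'
    mu' hs.ind' ht.ind' hs.lp' ht.lp' hs.nrm' ht.nrm'
    (fun x hx d hd => by
      obtain ⟨δ, hδ, e⟩ := hs.full2 x hx d hd
      exact ⟨δ, ZC_le p l lam hδ, e⟩)
    (fun x hx d hd => by
      obtain ⟨δ, hδ, e⟩ := ht.full2 x hx d hd
      refine ⟨δ, ?_, e⟩
      rw [image_entC h1 h2 h5]
      exact ZC_le c m mu hδ)
  have h1' : mP σ2 p = c := by
    rw [← h1]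
    funext i k
    exact g _ (Or.inl ⟨i, k, rfl⟩)
  have h2' : mE σ2 l = m := by
    rw [← h2]
    funext k
    exact g _ (Or.inr (Or.inl ⟨k, rfl⟩))
  have h5' : mP σ2 lam = mu := by
    rw [← h5]
    funext i k
    exact g _ (Or.inr (Or.inr ⟨i, k, rfl⟩))
  -- the net
  have hsub : ∀ z ∈ entC p l lam ∪ entC p' l' lam',
      z ∈ IntermediateField.adjoin ℚ (entC p l lam ∪ entC p' l' lam') :=
    fun z hz => IntermediateField.subset_adjoin ℚ _ hz
  obtain ⟨σ3, g3, h7⟩ := hGLX I3 (entC p l lam ∪ entC p' l' lam')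
    ((entC_countable p l lam).union (entC_countable p' l' lam')) σ2 (Rows p l lam p' l' lam')
    (fun r hr q => rows_memK _ (fun i k => hsub _ (Or.inl (Or.inl ⟨i, k, rfl⟩)))
      (fun k => hsub _ (Or.inl (Or.inr (Or.inl ⟨k, rfl⟩))))
      (fun i k => hsub _ (Or.inl (Or.inr (Or.inr ⟨i, k, rfl⟩))))
      (fun i k => hsub _ (Or.inr (Or.inl ⟨i, k, rfl⟩)))
      (fun k => hsub _ (Or.inr (Or.inr (Or.inl ⟨k, rfl⟩))))
      (fun i k => hsub _ (Or.inr (Or.inr (Or.inr ⟨i, k, rfl⟩)))) r hr q)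
    (flat s) (flat t) ((rows_iff hCRX hs.l0 hs.l0' s).2 hs.sK)
    ((rows_map σ2 h1' h2' h5' h3 h4 h6 (flat t)).2 ((rows_iff hCRX ht.l0 ht.l0' t).2 ht.sK))
    (by
      intro u hu
      have hT : (fun k i j => u (k, i, j) : T3) ∈ KB p l lam ⊓ KB p' l' lam' :=
        (rows_iff hCRX hs.l0 hs.l0' _).1 hu
      obtain ⟨δ, hδ, e⟩ := hs.full3 _ hT
      refine ⟨δ, mem_ZA_union (ZC_le _ _ _ hδ.1) (ZC_le _ _ _ hδ.2), ?_⟩
      rintro ⟨k, i, j⟩
      exact congrFun (congrFun (congrFun e k) i) j)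
    (by
      intro u hu
      have hT : (fun k i j => u (k, i, j) : T3) ∈ KB c m mu ⊓ KB c' m' mu' :=
        (rows_iff hCRX ht.l0 ht.l0' _).1 ((rows_map σ2 h1' h2' h5' h3 h4 h6 u).1 hu)
      obtain ⟨δ, hδ, e⟩ := ht.full3 _ hT
      refine ⟨δ, ?_, ?_⟩
      · rw [Set.image_union, image_entC h1' h2' h5', image_entC h3 h4 h6]
        exact mem_ZA_union (ZC_le _ _ _ hδ.1) (ZC_le _ _ _ hδ.2)
      · rintro ⟨k, i, j⟩
        exact congrFun (congrFun (congrFun e k) i) j)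
  refine ⟨σ3, ?_, ?_, ?_, ?_, ?_⟩
  · funext k i j
    exact h7 (k, i, j)
  · rw [← h1']
    funext i k
    exact g3 _ (Or.inl (Or.inl ⟨i, k, rfl⟩))
  · rw [← h2']
    funext k
    exact g3 _ (Or.inl (Or.inr (Or.inl ⟨k, rfl⟩)))
  · rw [← h3]
    funext i k
    exact g3 _ (Or.inr (Or.inl ⟨i, k, rfl⟩))
  · rw [← h4]
    funext k
    exact g3 _ (Or.inr (Or.inr (Or.inl ⟨k, rfl⟩)))

end Pool.Agent.Work.MP_ea8963_ag.G5
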