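import Pool.Agent.Work.MP_ea8963_ag.G5.Stmts2
import Pool.Agent.Work.MP_ea8963_ag.G4.Stmts2

/-!
Block [ea8963 G5], item TYX (helper59).
-/

set_option linter.style.longLine false

noncomputable section

open Module Topology
open Pool.Agent.Work.MP_ea8963_ag.G4 (D ZA mem_ZA Full cl rn rn_prod rn_le finrank_map_mono
  finrank_map_prod_swap pair d_two ZA_mono FAX FBX FCX FDX FEX FFX CHX EXX)

namespace Pool.Agent.Work.MP_ea8963_ag.G5

namespace I_TYX

/-- conjugation of a derivation by a field automorphism: `σ ∘ δ ∘ σ⁻¹` -/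
def conj (σ : ℂ ≃+* ℂ) (δ : D) : D :=
  Derivation.mk' ((AddMonoidHom.toRatLinearMap
    (σ.toRingHom.toAddMonoidHom.comp
      ((δ : ℂ →ₗ[ℚ] ℂ).toAddMonoidHom.comp σ.symm.toRingHom.toAddMonoidHom)))) (by
    intro a b
    simp [Derivation.leibniz, smul_eq_mul, map_add, map_mul])

lemma conj_apply (σ : ℂ ≃+* ℂ) (δ : D) (x : ℂ) : conj σ δ x = σ (δ (σ.symm x)) := rfl

lemma symm_mem_cl {A : Set ℂ} {σ : ℂ ≃+* ℂ} (hσ : ∀ a ∈ A, σ a = a) {z : ℂ} (hz : z ∈ cl A) :
    σ.symm z ∈ cl A := by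
  intro δ hδ
  have h1 : conj σ δ ∈ ZA A := by
    intro a ha
    have h2 : σ.symm a = a := by
      rw [RingEquiv.symm_apply_eq]; exact (hσ a ha).symm
    rw [conj_apply, h2, hδ a ha, map_zero]
  have h3 := hz _ h1
  rw [conj_apply] at h3
  exact (map_eq_zero_iff σ σ.injective).1 h3

lemma eval_comp (σ : ℂ ≃+* ℂ) (x : E) (p : MvPolynomial (Fin 6) ℂ) :
    MvPolynomial.eval (mE σ x) (MvPolynomial.map σ.toRingHom p) = σ (MvPolynomial.eval x p) := by
  have h := MvPolynomial.map_eval σ.toRingHom x p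
  have e : (mE σ x) = (σ.toRingHom ∘ x) := rfl
  rw [e, ← h]; rfl

end I_TYX

open I_TYX in
theorem TYX_pf : TYX := by
  intro A σ τ l1 l2 hσ hτ h1 h2 H hH
  set H' : MvPolynomial (Fin 6) ℂ := MvPolynomial.map σ.symm.toRingHom H with hH'
  have hmap : MvPolynomial.map σ.toRingHom H' = H := by
    rw [hH', MvPolynomial.map_map]
    have : σ.toRingHom.comp σ.symm.toRingHom = RingHom.id ℂ := by
      ext x; simp
    rw [this, MvPolynomial.map_id]
  have htau : MvPolynomial.map τ.toRingHom H' = H' := by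
    ext m
    rw [MvPolynomial.coeff_map, hH', MvPolynomial.coeff_map]
    exact hτ _ (symm_mem_cl hσ (hH m))
  have e1 : MvPolynomial.eval l1 H = σ (MvPolynomial.eval l1 H') := by
    conv_lhs => rw [← h1, ← hmap]
    exact eval_comp σ l1 H'
  have e2 : MvPolynomial.eval l2 H = σ (τ (MvPolynomial.eval l1 H')) := by
    conv_lhs => rw [← h2, ← hmap]
    rw [eval_comp σ (mE τ l1) H']
    conv_lhs => rw [← htau]
    rw [eval_comp τ l1 H']
  rw [e1, e2]
  simp

end Pool.Agent.Work.MP_ea8963_ag.G5
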