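import Pool.Agent.Work.MP_ea8963_ag.G5.Stmts2
import Pool.Agent.Work.MP_ea8963_ag.G4.Stmts2

/-!
Block [ea8963 G5], item XAX: two generic symmetric nets are conjugate (model: G4/I_XAX).
-/

set_option linter.style.longLine false

noncomputable section

namespace Pool.Agent.Work.MP_ea8963_ag.G5

namespace I_XAX

/-- the rows of the symmetry equations -/
def row (a b : Fin 3 × Fin 6 × Fin 6) : Fin 3 × Fin 6 × Fin 6 → ℂ :=
  Pi.single a 1 - Pi.single b 1

lemma row_sum (a b : Fin 3 × Fin 6 × Fin 6) (u : Fin 3 × Fin 6 × Fin 6 → ℂ) :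
    ∑ q, row a b q * u q = u a - u b := by
  simp [row, sub_mul, Finset.sum_sub_distrib, Pi.single_apply]

/-- the symmetry equations -/
def R : Set (Fin 3 × Fin 6 × Fin 6 → ℂ) :=
  {r | ∃ k i j, r = row (k, i, j) (k, j, i)}

/-- a tensor as a function on triples -/
def fl (s : T3) : Fin 3 × Fin 6 × Fin 6 → ℂ := fun q => s q.1 q.2.1 q.2.2

lemma R_iff (u : Fin 3 × Fin 6 × Fin 6 → ℂ) :
    (∀ r ∈ R, ∑ q, r q * u q = 0) ↔ (fun k i j => u (k, i, j)) ∈ SymT := by
  constructor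
  · intro h k i j
    have h1 := h _ ⟨k, i, j, rfl⟩
    rw [row_sum] at h1
    exact sub_eq_zero.1 h1
  · rintro h r ⟨k, i, j, rfl⟩
    rw [row_sum]
    exact sub_eq_zero.2 (h k i j)

lemma row_mem {K : Type*} [SetLike K ℂ] [SubringClass K ℂ] (F : K)
    (a b q : Fin 3 × Fin 6 × Fin 6) : row a b q ∈ F := by
  simp only [row, Pi.sub_apply, Pi.single_apply]
  refine sub_mem ?_ ?_ <;> split_ifs <;> first | exact one_mem _ | exact zero_mem _

end I_XAX

open I_XAX in
theorem XAX_pf (hGLX : G4.GLX) : XAX := by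
  intro s t hs ht
  have hσ : ∀ r : Fin 3 × Fin 6 × Fin 6 → ℂ, ∀ u : Fin 3 × Fin 6 × Fin 6 → ℂ,
      ∑ q, (RingEquiv.refl ℂ) (r q) * u q = ∑ q, r q * u q := fun r u => rfl
  obtain ⟨σ', -, h2⟩ := hGLX (Fin 3 × Fin 6 × Fin 6) ∅ Set.countable_empty (RingEquiv.refl ℂ) R
    (by
      rintro r ⟨k, i, j, rfl⟩ q
      exact row_mem _ _ _ _)
    (fl s) (fl t) ((R_iff _).2 hs.1)
    (by
      intro r hr
      rw [hσ]
      exact (R_iff _).2 ht.1 r hr)
    (by
      intro u hu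
      obtain ⟨δ, hδ⟩ := hs.2 _ ((R_iff u).1 hu)
      refine ⟨δ, fun a ha => absurd ha (Set.notMem_empty a), fun q => ?_⟩
      exact congrFun (congrFun (congrFun hδ q.1) q.2.1) q.2.2)
    (by
      intro u hu
      obtain ⟨δ, hδ⟩ := ht.2 _ ((R_iff u).1 (fun r hr => by rw [← hσ]; exact hu r hr))
      refine ⟨δ, fun a ha => ?_, fun q => ?_⟩
      · rw [Set.image_empty] at ha
        exact absurd ha (Set.notMem_empty a)
      · exact congrFun (congrFun (congrFun hδ q.1) q.2.1) q.2.2)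
  exact ⟨σ', funext fun i => funext fun j => funext fun k => h2 (i, j, k)⟩

end Pool.Agent.Work.MP_ea8963_ag.G5
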