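import Pool.Agent.Work.MP_ea8963_ag.G5.Stmts2

/-!
Block [ea8963 G5], item XEX: one explicit net of quadrics with a hyperplane section with four nodes.
-/

set_option linter.style.longLine false
set_option linter.unusedVariables false
set_option linter.unusedSimpArgs false

noncomputable section

open Module Topology

namespace Pool.Agent.Work.MP_ea8963_ag.G5

namespace I_XEX

/-- the net -/
def ss : T3 := ![
  ![![0, 0, 0, 0, 0, 1], ![0, 0, 0, 1, 0, 0], ![0, 0, 0, 1, 0, 0], ![0, 1, 1, 0, 0, 0],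
    ![0, 0, 0, 0, 0, 0], ![1, 0, 0, 0, 0, 0]],
  ![![0, 0, -2, 0, -1, 0], ![0, 0, 0, 0, 0, 1], ![-2, 0, 0, -1, -1, 0], ![0, 0, -1, 0, 0, 0],
    ![-1, 0, -1, 0, 0, 0], ![0, 1, 0, 0, 0, 0]],
  ![![0, 1, 0, 0, 0, 0], ![1, 0, 0, -1, 0, 0], ![0, 0, 0, 0, 0, 1], ![0, -1, 0, 0, 0, 1],
    ![0, 0, 0, 0, 0, 0], ![0, 0, 1, 1, 0, 0]]]

lemma ss_mem : ss ∈ SymT := by
  intro k i j
  fin_cases k <;> fin_cases i <;> fin_cases j <;> rfl

/-- the explicit covector -/
def cc (a : La) (x : E) : E := ![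
  a 0 * x 5 + a 1 * (-2 * x 2 - x 4) + a 2 * x 1,
  a 0 * x 3 + a 1 * x 5 + a 2 * (x 0 - x 3),
  a 0 * x 3 + a 1 * (-2 * x 0 - x 3 - x 4) + a 2 * x 5,
  a 0 * (x 1 + x 2) - a 1 * x 2 + a 2 * (x 5 - x 1),
  a 1 * (-x 0 - x 2),
  a 0 * x 0 + a 1 * x 1 + a 2 * (x 2 + x 3)]

lemma cov_ss (a : La) (x : E) : cov ss a x = cc a x := by
  ext j
  fin_cases j <;> simp [cov, ss, cc, Fin.sum_univ_succ] <;> ring

/-- the data -/
def yy : Y := ![![1, 0, 0, 0, 0, 0, 1, 0, 0], ![0, 1, 0, 0, 0, 0, 0, 1, 0],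
  ![0, 0, 1, 0, 0, 0, 0, 0, 1], ![0, 0, 0, 1, 0, 0, 1, 1, 1]]

def q0 : E := ![1, 0, 0, 0, 0, 0]
def q1 : E := ![0, 1, 0, 0, 0, 0]
def q2 : E := ![0, 0, 1, 0, 0, 0]
def q3 : E := ![0, 0, 0, 1, 0, 0]
def m0 : La := ![1, 0, 0]
def m1 : La := ![0, 1, 0]
def m2 : La := ![0, 0, 1]
def m3 : La := ![1, 1, 1]
def ll : E := ![0, 0, 0, 0, 0, 1]

lemma p0 : pOf yy 0 = q0 := by
  ext k; fin_cases k <;> rfl
lemma p1 : pOf yy 1 = q1 := by
  ext k; fin_cases k <;> rfl
lemma p2 : pOf yy 2 = q2 := by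
  ext k; fin_cases k <;> rfl
lemma p3 : pOf yy 3 = q3 := by
  ext k; fin_cases k <;> rfl
lemma l0 : laOf yy 0 = m0 := by
  ext k; fin_cases k <;> rfl
lemma l1 : laOf yy 1 = m1 := by
  ext k; fin_cases k <;> rfl
lemma l2 : laOf yy 2 = m2 := by
  ext k; fin_cases k <;> rfl
lemma l3 : laOf yy 3 = m3 := by
  ext k; fin_cases k <;> rfl

lemma c0 : cov ss m0 q0 = ll := by
  rw [cov_ss]; ext k; fin_cases k <;> simp [cc, q0, m0, ll]
lemma c1 : cov ss m1 q1 = ll := by
  rw [cov_ss]; ext k; fin_cases k <;> simp [cc, q1, m1, ll]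
lemma c2 : cov ss m2 q2 = ll := by
  rw [cov_ss]; ext k; fin_cases k <;> simp [cc, q2, m2, ll]
lemma c3 : cov ss m3 q3 = ll := by
  rw [cov_ss]; ext k; fin_cases k <;> simp [cc, q3, m3, ll]

/-- the value of the form -/
lemma tri_ss (a : La) (x v : E) : tri ss a x v = cc a x 0 * v 0 + cc a x 1 * v 1 + cc a x 2 * v 2
    + cc a x 3 * v 3 + cc a x 4 * v 4 + cc a x 5 * v 5 := by
  rw [tri, cov_ss]
  simp [dotProduct, Fin.sum_univ_succ]
  ring

lemma n0 : Nd ss q0 m0 := by
  constructor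
  · intro c h
    rw [cov_ss] at h
    have h1 := congrFun h 1
    have h4 := congrFun h 4
    have h5 := congrFun h 5
    simp [cc, q0] at h1 h4 h5
    ext k
    fin_cases k
    · exact h5
    · exact h4
    · exact h1
  · intro v c h h'
    have e0 := h ![1, 0, 0]
    have e1 := h ![0, 1, 0]
    have e2 := h ![0, 0, 1]
    rw [tri_ss] at e0 e1 e2
    simp [cc, q0] at e0 e1 e2
    rw [cov_ss, cov_ss] at h'
    have g1 := congrFun h' 1
    have g2 := congrFun h' 2
    have g3 := congrFun h' 3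
    have g4 := congrFun h' 4
    simp [cc, q0, m0] at g1 g2 g3 g4
    have v2 : v 2 = 0 := by linear_combination g3 - e2
    have v3 : v 3 = 0 := by rw [g4] at g2; simpa using g2
    have v4 : v 4 = 0 := by linear_combination -e1 - (2 : ℂ) * v2
    refine ⟨v 0, ?_⟩
    ext k
    fin_cases k
    · simp [q0]
    · simp [q0, e2]
    · simp [q0, v2]
    · simp [q0, v3]
    · simp [q0, v4]
    · simp [q0, e0]

lemma n1 : Nd ss q1 m1 := by
  constructor
  · intro c h
    rw [cov_ss] at h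
    have h0 := congrFun h 0
    have h3 := congrFun h 3
    have h5 := congrFun h 5
    simp [cc, q1] at h0 h3 h5
    rw [h0] at h3
    ext k
    fin_cases k
    · simpa using h3
    · exact h5
    · exact h0
  · intro v c h h'
    have e0 := h ![1, 0, 0]
    have e1 := h ![0, 1, 0]
    have e2 := h ![0, 0, 1]
    rw [tri_ss] at e0 e1 e2
    simp [cc, q1] at e0 e1 e2
    rw [cov_ss, cov_ss] at h'
    have g2 := congrFun h' 2
    have g4 := congrFun h' 4
    simp [cc, q1, m1] at g2 g4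
    have v0 : v 0 = 0 := by linear_combination e2 + e0
    have v4 : v 4 = 0 := by linear_combination -g2 - (2 : ℂ) * v0 - e0
    have v2 : v 2 = 0 := by linear_combination -g4 - v0
    refine ⟨v 1, ?_⟩
    ext k
    fin_cases k
    · simp [q1, v0]
    · simp [q1]
    · simp [q1, v2]
    · simp [q1, e0]
    · simp [q1, v4]
    · simp [q1, e1]

lemma n2 : Nd ss q2 m2 := by
  constructor
  · intro c h
    rw [cov_ss] at h
    have h3 := congrFun h 3
    have h4 := congrFun h 4
    have h5 := congrFun h 5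
    simp [cc, q2] at h3 h4 h5
    rw [h4] at h3
    ext k
    fin_cases k
    · simpa using h3
    · exact h4
    · exact h5
  · intro v c h h'
    have e0 := h ![1, 0, 0]
    have e1 := h ![0, 1, 0]
    have e2 := h ![0, 0, 1]
    rw [tri_ss] at e0 e1 e2
    simp [cc, q2] at e0 e1 e2
    rw [cov_ss, cov_ss] at h'
    have g0 := congrFun h' 0
    have g1 := congrFun h' 1
    have g4 := congrFun h' 4
    simp [cc, q2, m2] at g0 g1 g4
    have v0 : v 0 = 0 := by linear_combination g1 + e0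
    have v4 : v 4 = 0 := by linear_combination -e1 - (2 : ℂ) * v0 - e0
    have v1 : v 1 = 0 := by rw [g4] at g0; simpa using g0
    refine ⟨v 2, ?_⟩
    ext k
    fin_cases k
    · simp [q2, v0]
    · simp [q2, v1]
    · simp [q2]
    · simp [q2, e0]
    · simp [q2, v4]
    · simp [q2, e2]

lemma n3 : Nd ss q3 m3 := by
  constructor
  · intro c h
    rw [cov_ss] at h
    have h1 := congrFun h 1
    have h2 := congrFun h 2
    have h5 := congrFun h 5
    simp [cc, q3] at h1 h2 h5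
    have k0 : c 0 = 0 := by linear_combination h1 + h5
    have k1 : c 1 = 0 := by linear_combination k0 - h2
    ext k
    fin_cases k
    · exact k0
    · exact k1
    · exact h5
  · intro v c h h'
    have e0 := h ![1, 0, 0]
    have e1 := h ![0, 1, 0]
    have e2 := h ![0, 0, 1]
    rw [tri_ss] at e0 e1 e2
    simp [cc, q3] at e0 e1 e2
    rw [cov_ss, cov_ss] at h'
    have g0 := congrFun h' 0
    have g4 := congrFun h' 4
    simp [cc, q3, m3] at g0 g4
    have v1 : v 1 = 0 := by linear_combination e0 - e1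
    have v5 : v 5 = 0 := by linear_combination e2 + v1
    have v4 : v 4 = 0 := by linear_combination -g0 + v5 - (2 : ℂ) * e1 + v1
    have v0 : v 0 = 0 := by linear_combination -g4 - e1
    refine ⟨v 3, ?_⟩
    ext k
    fin_cases k
    · simp [q3, v0]
    · simp [q3, v1]
    · simp [q3, e1]
    · simp [q3]
    · simp [q3, v4]
    · simp [q3, v5]

theorem cfg : CfgY ss yy := by
  have hom : om ss yy 0 = ll := by rw [om, l0, p0, c0]
  rw [CfgY, hom]
  refine ⟨?_, ?_, ?_, ?_, ?_⟩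
  · intro i a
    fin_cases i
    · show tri ss a (pOf yy 0) (pOf yy 0) = 0
      rw [p0, tri_ss]; simp [q0, cc]
    · show tri ss a (pOf yy 1) (pOf yy 1) = 0
      rw [p1, tri_ss]; simp [q1, cc]
    · show tri ss a (pOf yy 2) (pOf yy 2) = 0
      rw [p2, tri_ss]; simp [q2, cc]
    · show tri ss a (pOf yy 3) (pOf yy 3) = 0
      rw [p3, tri_ss]; simp [q3, cc]
  · intro i
    fin_cases i
    · show cov ss (laOf yy 0) (pOf yy 0) = ll
      rw [l0, p0, c0]
    · show cov ss (laOf yy 1) (pOf yy 1) = ll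
      rw [l1, p1, c1]
    · show cov ss (laOf yy 2) (pOf yy 2) = ll
      rw [l2, p2, c2]
    · show cov ss (laOf yy 3) (pOf yy 3) = ll
      rw [l3, p3, c3]
  · rw [Fintype.linearIndependent_iff]
    intro g hg
    rw [Fin.sum_univ_four, p0, p1, p2, p3] at hg
    have h0 := congrFun hg 0
    have h1 := congrFun hg 1
    have h2 := congrFun hg 2
    have h3 := congrFun hg 3
    simp [q0, q1, q2, q3] at h0 h1 h2 h3
    intro i
    fin_cases i
    · exact h0
    · exact h1
    · exact h2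
    · exact h3
  · intro i
    fin_cases i
    · show Nd ss (pOf yy 0) (laOf yy 0)
      rw [l0, p0]; exact n0
    · show Nd ss (pOf yy 1) (laOf yy 1)
      rw [l1, p1]; exact n1
    · show Nd ss (pOf yy 2) (laOf yy 2)
      rw [l2, p2]; exact n2
    · show Nd ss (pOf yy 3) (laOf yy 3)
      rw [l3, p3]; exact n3
  · intro h
    have := congrFun h 5
    simp [ll] at this

end I_XEX

theorem XEX_pf : XEX := ⟨I_XEX.ss, I_XEX.ss_mem, I_XEX.yy, I_XEX.cfg⟩

end Pool.Agent.Work.MP_ea8963_ag.G5
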