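import Pool.Agent.Work.MP_ea8963_ag.G5.Stmts2
import Pool.Agent.Work.MP_ea8963_ag.G4.Stmts2

/-!
Block [ea8963 G5], item XGX: generic nets are dense.
-/

set_option linter.style.longLine false

noncomputable section

open Module Topology

namespace Pool.Agent.Work.MP_ea8963_ag.G5

namespace I_XGX

/-- the index set of the entries -/
abbrev Ix : Type := Fin 3 × Fin 6 × Fin 6

/-- two indices are equivalent when the entries of all symmetric nets agree -/
def rel : Setoid Ix where
  r a b := ∀ s ∈ SymT, s a.1 a.2.1 a.2.2 = s b.1 b.2.1 b.2.2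
  iseqv := ⟨fun _ _ _ => rfl, fun h s hs => (h s hs).symm,
    fun h h' s hs => (h s hs).trans (h' s hs)⟩

/-- classes of indices -/
abbrev Cl : Type := Quotient rel

/-- the class of an index -/
def mk (k : Fin 3) (i j : Fin 6) : Cl := Quotient.mk rel (k, i, j)

instance : Finite Cl := Quotient.finite rel

lemma mk_swap (k : Fin 3) (i j : Fin 6) : mk k i j = mk k j i :=
  Quotient.sound (s := rel) (fun _ hs => hs k i j)

/-- the values of a symmetric net on the classes -/
def bar (s : T3) (q : Cl) : ℂ := s q.out.1 q.out.2.1 q.out.2.2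

lemma bar_mk {s : T3} (hs : s ∈ SymT) (k : Fin 3) (i j : Fin 6) : bar s (mk k i j) = s k i j := by
  have h : rel.r (mk k i j).out (k, i, j) := Quotient.mk_out (s := rel) (k, i, j)
  exact h s hs

/-- the symmetric net with given values -/
def ten (t : Cl → ℂ) : T3 := fun k i j => t (mk k i j)

lemma ten_mem (t : Cl → ℂ) : ten t ∈ SymT := by
  intro k i j
  exact congrArg t (mk_swap k i j)

end I_XGX

open I_XGX in
/-- ITEM XGX -/
theorem XGX_pf (hCHX : G4.CHX) : XGX := by
  intro s hs O hO
  obtain ⟨ε, hε, hball⟩ := Metric.mem_nhds_iff.1 hO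
  obtain ⟨n, ⟨e⟩⟩ := Finite.exists_equiv_fin Cl
  obtain ⟨c', hc', hfull⟩ := hCHX ∅ Set.countable_empty n (fun k => bar s (e.symm k)) ε hε
  refine ⟨ten (fun q => c' (e q)), hball ?_, ten_mem _, ?_⟩
  · rw [Metric.mem_ball, dist_pi_lt_iff hε]
    intro k
    rw [dist_pi_lt_iff hε]
    intro i
    rw [dist_pi_lt_iff hε]
    intro j
    have h1 := hc' (e (mk k i j))
    rw [e.symm_apply_apply, bar_mk hs] at h1
    rw [dist_eq_norm]
    exact h1
  · intro v hv
    obtain ⟨δ, -, hδ⟩ := hfull (fun k => bar v (e.symm k))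
    refine ⟨δ, ?_⟩
    ext k i j
    have h1 := hδ (e (mk k i j))
    rw [e.symm_apply_apply, bar_mk hv] at h1
    exact h1

end Pool.Agent.Work.MP_ea8963_ag.G5
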