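import Pool.Agent.Work.MP_ea8963_ag.G5.Asm2

/-!
Block [ea8963 G5]: the official definitions (in terms of polynomials), the statements of the
translation items, and the final theorem from all items.  helper56.
-/

set_option linter.style.longLine false
set_option linter.unusedVariables false

noncomputable section

open Module Topology MvPolynomial
open Pool.Agent.Work.MP_ea8963_ag.G4 (D ZA mem_ZA Full cl rn rn_prod rn_le finrank_map_mono
  finrank_map_prod_swap pair d_two ZA_mono)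

namespace Pool.Agent.Work.MP_ea8963_ag.G5

/-- the gradient of `f` at `p` -/
def grad (f : MvPolynomial (Fin 6) ℂ) (p : Fin 6 → ℂ) : Fin 6 → ℂ := fun i => eval p (pderiv i f)

/-- the Hessian form of `f` at `p` -/
def hess (f : MvPolynomial (Fin 6) ℂ) (p v w : Fin 6 → ℂ) : ℂ :=
  ∑ i, ∑ j, eval p (pderiv i (pderiv j f)) * v i * w j

/-- `p` represents a singular point of the curve `f 0 = f 1 = f 2 = l = 0` in `P^5` -/
def IsSing (f : Fin 3 → MvPolynomial (Fin 6) ℂ) (l p : Fin 6 → ℂ) : Prop :=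
  p ≠ 0 ∧ (∀ k, eval p (f k) = 0) ∧ l ⬝ᵥ p = 0 ∧
    ¬ LinearIndependent ℂ ![grad (f 0) p, grad (f 1) p, grad (f 2) p, l]

/-- `p` represents a node (ordinary double point) of the curve `f 0 = f 1 = f 2 = l = 0` in `P^5`:
the Jacobian matrix has rank 3, and for the linear relation `a, c` between its rows the second
order form `a 0 Hess (f 0) + a 1 Hess (f 1) + a 2 Hess (f 2)` is non-degenerate on the
(two-dimensional) tangent space at `p`. -/
def IsNode (f : Fin 3 → MvPolynomial (Fin 6) ℂ) (l p : Fin 6 → ℂ) : Prop :=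
  IsSing f l p ∧
  finrank ℂ (Submodule.span ℂ (Set.range ![grad (f 0) p, grad (f 1) p, grad (f 2) p, l])) = 3 ∧
  ∀ (a : Fin 3 → ℂ) (c : ℂ), (a ≠ 0 ∨ c ≠ 0) → ∑ k, a k • grad (f k) p + c • l = 0 →
    ∀ v : Fin 6 → ℂ, (∀ k, grad (f k) p ⬝ᵥ v = 0) → l ⬝ᵥ v = 0 →
    (∀ w : Fin 6 → ℂ, (∀ k, grad (f k) p ⬝ᵥ w = 0) → l ⬝ᵥ w = 0 →
      ∑ k, a k * hess (f k) p v w = 0) →
    ∃ t : ℂ, v = t • p

/-- the Severi curve: the hyperplanes `l = 0` such that the section `f 0 = f 1 = f 2 = l = 0` has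
exactly four singular points, all of them nodes -/
def Sev (f : Fin 3 → MvPolynomial (Fin 6) ℂ) : Set (Fin 6 → ℂ) :=
  {l | l ≠ 0 ∧ ∃ p : Fin 4 → Fin 6 → ℂ, (∀ i, IsNode f l (p i)) ∧
    (∀ i j, i ≠ j → ∀ t : ℂ, p i ≠ t • p j) ∧
    ∀ q, IsSing f l q → ∃ (i : Fin 4) (t : ℂ), q = t • p i}

/-- the net of symmetric matrices of the three quadratic forms: second derivatives divided by 2 -/
def sten (f : Fin 3 → MvPolynomial (Fin 6) ℂ) : T3 := fun k i j =>
  (1 / 2 : ℂ) * eval 0 (pderiv i (pderiv j (f k)))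

/-- ITEM OBX (translation).  `e_k = Pi.single k 1`.
Proof: `pderiv_pderiv_comm` gives symmetry.  A second derivative of a form of degree 2 is constant
(`IsHomogeneous.pderiv`, degree 0).  Euler's identity for `f k` and its first derivatives.
(model: G4/I_OBX.lean) -/
def OBX : Prop := ∀ f : Fin 3 → MvPolynomial (Fin 6) ℂ, (∀ k, (f k).IsHomogeneous 2) →
  sten f ∈ SymT ∧ (∀ k x, eval x (f k) = tri (sten f) (Pi.single k 1) x x) ∧
  (∀ k x, grad (f k) x = (2 : ℂ) • cov (sten f) (Pi.single k 1) x) ∧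
  ∀ k x v w, hess (f k) x v w = 2 * tri (sten f) (Pi.single k 1) v w

/-- ITEM OCX (`OBX → OCX`, and `G4.FBX`).  Proof: `sten f k i j = κ * (f k).coeff (e_i + e_j)` with
`κ = 1` (`i = j`) or `1 / 2` (`i ≠ j`).  `FBX` with `A = ∅` for the (finite, enumerated) family of
coefficients (`IntermediateField.adjoin ℚ ∅ = ⊥`): given `v ∈ SymT` choose `δ` with
`δ ((f k).coeff m) = κ⁻¹ * v k i j`, `m = e_i + e_j` (well defined by the symmetry of `v`).
(model: G4/I_OCX.lean) -/
def OCX : Prop := ∀ f : Fin 3 → MvPolynomial (Fin 6) ℂ, (∀ k, (f k).IsHomogeneous 2) →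
  AlgebraicIndependent ℚ
    (fun x : Fin 3 × {m : Fin 6 →₀ ℕ // m.degree = 2} => (f x.1).coeff x.2.1) →
  Gen (sten f)

/-- ITEM ODX (`SMX → PIX → OBX → ODX`).  Proof: let `p i` be the four nodes of `l`, `s = sten f`.
`tri s a (p i) (p i) = 0` for `a = e_k`, so for all `a`.  By `SMX` the three covectors
`cov s e_k (p i)` are independent, and with `l` they are dependent, so
`l = ∑ k, c k • grad (f k) (p i) = cov s (lam i) (p i)`, `lam i = 2 • c`.  `ind`: `PIX`.  `Nd.rank`:
`SMX`.  `Nd.ker`: given `v, c`, use the node condition with `a = (1 / 2) • lam i` and the number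
`-1`: for `w` in the tangent space `∑ k, a k * hess (f k) (p i) v w = tri s (lam i) v w =
- tri s c (p i) w = 0`.  (model: G4/I_ODX.lean) -/
def ODX : Prop := ∀ f : Fin 3 → MvPolynomial (Fin 6) ℂ, (∀ k, (f k).IsHomogeneous 2) →
  Gen (sten f) → ∀ l ∈ Sev f, ∃ (p : Fin 4 → E) (lam : Fin 4 → La), Cfg (sten f) p l lam

/-- ITEM OEX (`SMX → NFX → OBX → OEX`).  Proof: `s = sten f`.  `IsNode f l (p i)`: the gradients are
independent (`Nd.rank`) and `l = (m i)⁻¹ • cov s (lam i) (p i)` is in their span: rank 3.  If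
`∑ k, a k • grad (f k) p + c • l = 0` then `2 • a + (c / m i) • lam i = 0` (`Nd.rank`), so `c ≠ 0`
and `a` is a non-zero multiple of `lam i`; so the covector `cov s (lam i) v` is killed by the common
kernel of the three covectors `cov s e_k p`, so it is in their span (`mem_span_of_ann`), apply
`Nd.ker`.  A singular point `q`: the three covectors `cov s e_k q` are independent (`SMX`) and with
`l` dependent, so `l = cov s a q`: `NFX`.  The `p i` are pairwise non-proportional by `ind`.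
(model: G4/I_OEX.lean) -/
def OEX : Prop := ∀ f : Fin 3 → MvPolynomial (Fin 6) ℂ, (∀ k, (f k).IsHomogeneous 2) →
  Gen (sten f) → ∀ p l lam m, Opt (sten f) p l lam m → l ∈ Sev f

/-- the final theorem from all items -/
theorem final_of_items (hSM : SMX) (hOP : OPX) (hTR : TRX) (hIC : ICX) (hTU : TUX) (hTY : TYX)
    (hLC : LCX) (hCT : CTX) (hPT : PTX) (hFF : G4.FFX) (hXE : XEX) (hXN : XNX) (hXG : XGX)
    (hXA : XAX) (hOB : OBX) (hOC : OCX) (hOD : ODX) (hOE : OEX)
    (f : Fin 3 → MvPolynomial (Fin 6) ℂ) (hf : ∀ k, (f k).IsHomogeneous 2)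
    (hgen : AlgebraicIndependent ℚ
      (fun x : Fin 3 × {m : Fin 6 →₀ ℕ // m.degree = 2} => (f x.1).coeff x.2.1)) :
    (∀ q : Fin 6 → ℂ, q ≠ 0 → (∀ k, eval q (f k) = 0) →
      LinearIndependent ℂ (fun k => grad (f k) q)) ∧
    (Sev f).Nonempty ∧
    ∀ F G : MvPolynomial (Fin 6) ℂ, (∀ l ∈ Sev f, eval l F * eval l G = 0) →
      (∀ l ∈ Sev f, eval l F = 0) ∨ (∀ l ∈ Sev f, eval l G = 0) := by
  have hs : Gen (sten f) := hOC f hf hgen
  obtain ⟨-, hB1, hB2, -⟩ := hOB f hf
  refine ⟨?_, ?_, ?_⟩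
  · intro q hq h1
    have hz : ∀ a : La, tri (sten f) a q q = 0 := by
      intro a
      have e : a = ∑ k, a k • (Pi.single k 1 : La) := by
        ext i
        simp [Finset.sum_apply, Pi.single_apply]
      rw [e, tri_sum1]
      refine Finset.sum_eq_zero fun k _ => ?_
      rw [tri_smul1, ← hB1 k q, h1 k, mul_zero]
    rw [Fintype.linearIndependent_iff]
    intro c hc i
    have h3 : cov (sten f) (∑ k, (c k * 2) • (Pi.single k 1 : La)) q = 0 := by
      rw [cov_sum_left, ← hc]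
      refine Finset.sum_congr rfl fun k _ => ?_
      rw [cov_smul_left, hB2 k q, smul_smul]
    have h4 := congrFun (hSM (sten f) hs q hq hz _ h3) i
    simpa [Finset.sum_apply, Pi.single_apply] using h4
  · obtain ⟨p, l, lam, m, ho⟩ := exi hOP hCT hPT hXE hXN hXG hXA hs
    exact ⟨l, hOE f hf hs p l lam m ho⟩
  · intro F G hFG
    by_contra hcon
    push Not at hcon
    obtain ⟨⟨l1, hl1, hF⟩, ⟨l2, hl2, hG⟩⟩ := hcon
    obtain ⟨p1, lam1, c1⟩ := hOD f hf hs l1 hl1
    obtain ⟨p2, lam2, c2⟩ := hOD f hf hs l2 hl2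
    obtain ⟨p, l, lam, m, ho, hF', hG'⟩ := irr hOP hTR hIC hTU hTY hLC hCT hPT hFF hs F G
      c1.toCfgY c2.toCfgY (by rw [om_toY c1]; exact hF) (by rw [om_toY c2]; exact hG)
    exact (mul_ne_zero hF' hG') (hFG l (hOE f hf hs p l lam m ho))

end Pool.Agent.Work.MP_ea8963_ag.G5
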