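import Pool.Agent.Work.MP_ea8963_ag.G5.Asm1
import Pool.Agent.Work.MP_ea8963_ag.G5.Off
import Pool.Agent.Work.MP_ea8963_ag.G4.Final
import Pool.Agent.Work.MP_ea8963_ag.G5.I_AKX
import Pool.Agent.Work.MP_ea8963_ag.G5.I_ALX
import Pool.Agent.Work.MP_ea8963_ag.G5.I_CCX
import Pool.Agent.Work.MP_ea8963_ag.G5.I_CFX
import Pool.Agent.Work.MP_ea8963_ag.G5.I_CLX
import Pool.Agent.Work.MP_ea8963_ag.G5.I_CLY
import Pool.Agent.Work.MP_ea8963_ag.G5.I_CNX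
import Pool.Agent.Work.MP_ea8963_ag.G5.I_COX
import Pool.Agent.Work.MP_ea8963_ag.G5.I_CRX
import Pool.Agent.Work.MP_ea8963_ag.G5.I_CTX
import Pool.Agent.Work.MP_ea8963_ag.G5.I_CUX
import Pool.Agent.Work.MP_ea8963_ag.G5.I_DEC
import Pool.Agent.Work.MP_ea8963_ag.G5.I_DKB
import Pool.Agent.Work.MP_ea8963_ag.G5.I_DKX
import Pool.Agent.Work.MP_ea8963_ag.G5.I_DTP
import Pool.Agent.Work.MP_ea8963_ag.G5.I_FLX
import Pool.Agent.Work.MP_ea8963_ag.G5.I_FTX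
import Pool.Agent.Work.MP_ea8963_ag.G5.I_GAL
import Pool.Agent.Work.MP_ea8963_ag.G5.I_GKP
import Pool.Agent.Work.MP_ea8963_ag.G5.I_GOX
import Pool.Agent.Work.MP_ea8963_ag.G5.I_GPX
import Pool.Agent.Work.MP_ea8963_ag.G5.I_HHX
import Pool.Agent.Work.MP_ea8963_ag.G5.I_ICX
import Pool.Agent.Work.MP_ea8963_ag.G5.I_INJ
import Pool.Agent.Work.MP_ea8963_ag.G5.I_JCX
import Pool.Agent.Work.MP_ea8963_ag.G5.I_JDX
import Pool.Agent.Work.MP_ea8963_ag.G5.I_JEX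
import Pool.Agent.Work.MP_ea8963_ag.G5.I_K0X
import Pool.Agent.Work.MP_ea8963_ag.G5.I_LAX
import Pool.Agent.Work.MP_ea8963_ag.G5.I_LBX
import Pool.Agent.Work.MP_ea8963_ag.G5.I_LCX
import Pool.Agent.Work.MP_ea8963_ag.G5.I_LMX
import Pool.Agent.Work.MP_ea8963_ag.G5.I_LNX
import Pool.Agent.Work.MP_ea8963_ag.G5.I_LPX
import Pool.Agent.Work.MP_ea8963_ag.G5.I_N63
import Pool.Agent.Work.MP_ea8963_ag.G5.I_NCX
import Pool.Agent.Work.MP_ea8963_ag.G5.I_NCY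
import Pool.Agent.Work.MP_ea8963_ag.G5.I_NFK
import Pool.Agent.Work.MP_ea8963_ag.G5.I_NFX
import Pool.Agent.Work.MP_ea8963_ag.G5.I_NKA
import Pool.Agent.Work.MP_ea8963_ag.G5.I_NKB
import Pool.Agent.Work.MP_ea8963_ag.G5.I_NLX
import Pool.Agent.Work.MP_ea8963_ag.G5.I_NNX
import Pool.Agent.Work.MP_ea8963_ag.G5.I_NOX
import Pool.Agent.Work.MP_ea8963_ag.G5.I_NPX
import Pool.Agent.Work.MP_ea8963_ag.G5.I_NSX
import Pool.Agent.Work.MP_ea8963_ag.G5.I_OBX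
import Pool.Agent.Work.MP_ea8963_ag.G5.I_OCX
import Pool.Agent.Work.MP_ea8963_ag.G5.I_ODX
import Pool.Agent.Work.MP_ea8963_ag.G5.I_OEX
import Pool.Agent.Work.MP_ea8963_ag.G5.I_PAX
import Pool.Agent.Work.MP_ea8963_ag.G5.I_PAY
import Pool.Agent.Work.MP_ea8963_ag.G5.I_PBX
import Pool.Agent.Work.MP_ea8963_ag.G5.I_PCX
import Pool.Agent.Work.MP_ea8963_ag.G5.I_PDX
import Pool.Agent.Work.MP_ea8963_ag.G5.I_PDY
import Pool.Agent.Work.MP_ea8963_ag.G5.I_PIX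
import Pool.Agent.Work.MP_ea8963_ag.G5.I_PTX
import Pool.Agent.Work.MP_ea8963_ag.G5.I_QXX
import Pool.Agent.Work.MP_ea8963_ag.G5.I_RAS
import Pool.Agent.Work.MP_ea8963_ag.G5.I_RHO
import Pool.Agent.Work.MP_ea8963_ag.G5.I_RHP
import Pool.Agent.Work.MP_ea8963_ag.G5.I_RKF
import Pool.Agent.Work.MP_ea8963_ag.G5.I_RPX
import Pool.Agent.Work.MP_ea8963_ag.G5.I_RYX
import Pool.Agent.Work.MP_ea8963_ag.G5.I_SMX
import Pool.Agent.Work.MP_ea8963_ag.G5.I_STX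
import Pool.Agent.Work.MP_ea8963_ag.G5.I_SUX
import Pool.Agent.Work.MP_ea8963_ag.G5.I_TAU
import Pool.Agent.Work.MP_ea8963_ag.G5.I_TAX
import Pool.Agent.Work.MP_ea8963_ag.G5.I_TUX
import Pool.Agent.Work.MP_ea8963_ag.G5.I_TWX
import Pool.Agent.Work.MP_ea8963_ag.G5.I_TYX
import Pool.Agent.Work.MP_ea8963_ag.G5.I_XAX
import Pool.Agent.Work.MP_ea8963_ag.G5.I_XEX
import Pool.Agent.Work.MP_ea8963_ag.G5.I_XGX
import Pool.Agent.Work.MP_ea8963_ag.G5.I_XNX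

/-!
Block [ea8963 G5]: all items instantiated.  Captain helper99.
-/

noncomputable section

open Module Topology MvPolynomial

namespace Pool.Agent.Work.MP_ea8963_ag.G5

theorem c_AKX : AKX := AKX_pf
theorem c_DEC : DEC := DEC_pf
theorem c_RHO : RHO := RHO_pf
theorem c_ALX : ALX := ALX_pf c_DEC c_RHO
theorem c_CCX : CCX := CCX_pf
theorem c_CFX : CFX := CFX_pf c_CCX
theorem c_DKB : DKB := DKB_pf
theorem c_PAX : PAX := PAX_pf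
theorem c_TAU : TAU := TAU_pf
theorem c_RHP : RHP := RHP_pf
theorem c_INJ : INJ := INJ_pf c_TAU c_RHO c_RHP
theorem c_PBX : PBX := PBX_pf c_INJ
theorem c_PCX : PCX := PCX_pf c_DEC c_RHO
theorem c_PDX : PDX := PDX_pf c_DKB c_AKX c_PAX c_PBX c_PCX
theorem c_CLX : CLX := CLX_pf c_PDX
theorem c_PAY : PAY := PAY_pf
theorem c_PDY : PDY := PDY_pf c_DKB c_AKX c_PAY c_PBX c_PCX
theorem c_CLY : CLY := CLY_pf c_PDY
theorem c_CNX : CNX := CNX_pf c_RHO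
theorem c_NOX : NOX := NOX_pf
theorem c_COX : COX := COX_pf c_NOX
theorem c_CRX : CRX := CRX_pf
theorem c_CTX : CTX := CTX_pf
theorem c_CUX : CUX := CUX_pf c_RHO c_RHP
theorem c_DKX : DKX := DKX_pf
theorem c_DTP : DTP := DTP_pf
theorem c_GKP : GKP := GKP_pf
theorem c_FLX : FLX := FLX_pf c_GKP c_DTP
theorem c_FTX : FTX := FTX_pf c_DKX c_DTP
theorem c_GAL : GAL := GAL_pf
theorem c_N63 : N63 := N63_pf
theorem c_NCY : NCY := NCY_pf c_DEC c_CCX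
theorem c_K0X : K0X := K0X_pf c_RHO
theorem c_RAS : RAS := RAS_pf c_DEC
theorem c_QXX : QXX := QXX_pf c_DKX
theorem c_GOX : GOX := GOX_pf c_N63 c_RHO c_RHP c_CCX c_TAU c_GAL c_NCY c_K0X c_RAS c_QXX
theorem c_GPX : GPX := GPX_pf
theorem c_HHX : HHX := HHX_pf c_RHO
theorem c_JCX : JCX := JCX_pf
theorem c_JDX : JDX := JDX_pf
theorem c_ICX : ICX := ICX_pf G4.c_EXX G4.c_CHX c_JCX c_JDX G4.c_FEX G4.c_FFX
theorem c_JEX : JEX := JEX_pf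
theorem c_LAX : LAX := LAX_pf G4.c_FAX G4.c_FBX G4.c_FCX G4.c_FDX c_JCX
theorem c_LBX : LBX := LBX_pf G4.c_FFX c_LAX
theorem c_LCX : LCX := LCX_pf G4.c_FFX c_LBX
theorem c_LMX : LMX := LMX_pf
theorem c_LNX : LNX := LNX_pf c_LMX
theorem c_RKF : RKF := RKF_pf
theorem c_LPX : LPX := LPX_pf c_GKP c_RKF c_DTP
theorem c_NCX : NCX := NCX_pf
theorem c_NFK : NFK := NFK_pf
theorem c_NFX : NFX := NFX_pf c_NFK
theorem c_NKA : NKA := NKA_pf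
theorem c_NKB : NKB := NKB_pf c_DEC c_RHO
theorem c_NLX : NLX := NLX_pf
theorem c_NNX : NNX := NNX_pf c_DKB c_CUX c_NKA c_NKB
theorem c_NPX : NPX := NPX_pf
theorem c_NSX : NSX := NSX_pf c_DKB
theorem c_OBX : OBX := OBX_pf
theorem c_OCX : OCX := OCX_pf G4.c_FBX c_OBX
theorem c_SMX : SMX := SMX_pf c_GKP
theorem c_PIX : PIX := PIX_pf c_RKF c_NLX c_NPX
theorem c_ODX : ODX := ODX_pf c_SMX c_PIX c_OBX
theorem c_OEX : OEX := OEX_pf c_SMX c_NFX c_OBX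
theorem c_SUX : SUX := SUX_pf
theorem c_STX : STX := STX_pf
theorem c_RYX : RYX := RYX_pf
theorem c_PTX : PTX := PTX_pf c_SUX c_STX G4.c_IFX c_JEX c_COX c_RYX G4.c_CHX
theorem c_RPX : RPX := RPX_pf c_DKB c_RHO c_CCX
theorem c_TAX : TAX := TAX_pf G4.c_GLX
theorem c_TUX : TUX := TUX_pf G4.c_GLX c_TAX c_CRX
theorem c_TWX : TWX := TWX_pf c_LNX c_NCX
theorem c_TYX : TYX := TYX_pf
theorem c_XAX : XAX := XAX_pf G4.c_GLX
theorem c_XEX : XEX := XEX_pf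
theorem c_XGX : XGX := XGX_pf G4.c_CHX
theorem c_XNX : XNX := XNX_pf c_SUX c_STX G4.c_IFX c_COX
theorem c_OPX : OPX := OPX_pf c_LPX c_FLX c_GPX c_NSX c_CFX c_CNX
theorem c_TRX : TRX := TRX_pf c_N63 c_DKB c_TWX c_NNX c_CLX c_CLY c_NCY c_HHX c_QXX c_GOX c_ALX c_RPX
  c_FTX

/-- the final theorem -/
theorem final (f : Fin 3 → MvPolynomial (Fin 6) ℂ) (hf : ∀ k, (f k).IsHomogeneous 2)
    (hgen : AlgebraicIndependent ℚ
      (fun x : Fin 3 × {m : Fin 6 →₀ ℕ // m.degree = 2} => (f x.1).coeff x.2.1)) :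
    (∀ q : Fin 6 → ℂ, q ≠ 0 → (∀ k, eval q (f k) = 0) →
      LinearIndependent ℂ (fun k => grad (f k) q)) ∧
    (Sev f).Nonempty ∧
    ∀ F G : MvPolynomial (Fin 6) ℂ, (∀ l ∈ Sev f, eval l F * eval l G = 0) →
      (∀ l ∈ Sev f, eval l F = 0) ∨ (∀ l ∈ Sev f, eval l G = 0) :=
  final_of_items c_SMX c_OPX c_TRX c_ICX c_TUX c_TYX c_LCX c_CTX c_PTX G4.c_FFX c_XEX c_XNX c_XGX
    c_XAX c_OBX c_OCX c_ODX c_OEX f hf hgen

end Pool.Agent.Work.MP_ea8963_ag.G5
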