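import Pool.Agent.Work.MP_ea8963_ag.G5.Stmts

/-!
Block [ea8963 G5], item CNX: the span of the four nodes meets the surface only in the nodes.
-/

set_option linter.style.longLine false
set_option linter.unusedVariables false

noncomputable section

open Module Topology

namespace Pool.Agent.Work.MP_ea8963_ag.G5

/-- the value of the net on the span of the nodes -/
lemma CNX_sum {s : T3} (hs : s ∈ SymT) (p : Fin 4 → E) (a : La) (x : Fin 4 → ℂ)
    (h0 : ∀ i, tri s a (p i) (p i) = 0) :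
    tri s a (∑ i, x i • p i) (∑ i, x i • p i) = 2 * (x 0 * x 1 * tri s a (p 0) (p 1)
      + x 0 * x 2 * tri s a (p 0) (p 2) + x 0 * x 3 * tri s a (p 0) (p 3)
      + x 1 * x 2 * tri s a (p 1) (p 2) + x 1 * x 3 * tri s a (p 1) (p 3)
      + x 2 * x 3 * tri s a (p 2) (p 3)) := by
  rw [Fin.sum_univ_four]
  simp only [tri_add2, tri_add3, tri_smul2, tri_smul3, h0]
  rw [tri_comm hs a (p 1) (p 0), tri_comm hs a (p 2) (p 0), tri_comm hs a (p 3) (p 0),
    tri_comm hs a (p 2) (p 1), tri_comm hs a (p 3) (p 1), tri_comm hs a (p 3) (p 2)]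
  ring

/-- if at most the coordinate `j` is not zero then the point is a multiple of `p j` -/
lemma CNX_one (p : Fin 4 → E) (x : Fin 4 → ℂ) (j : Fin 4) (h : ∀ i, i ≠ j → x i = 0) :
    ∃ (j : Fin 4) (c : ℂ), ∑ i, x i • p i = c • p j := by
  refine ⟨j, x j, ?_⟩
  rw [Finset.sum_eq_single j]
  · intro i _ hi
    rw [h i hi, zero_smul]
  · intro hj
    exact absurd (Finset.mem_univ j) hj

/-- four numbers with vanishing pairwise products: at most one is not zero -/
lemma CNX_pairs (x : Fin 4 → ℂ) (h : ∀ i k, i ≠ k → x i * x k = 0) :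
    ∃ j : Fin 4, ∀ i, i ≠ j → x i = 0 := by
  by_cases hx : ∃ j, x j ≠ 0
  · obtain ⟨j, hj⟩ := hx
    exact ⟨j, fun i hi => (mul_eq_zero.1 (h i j hi)).resolve_right hj⟩
  · push Not at hx
    exact ⟨0, fun i _ => hx i⟩

theorem CNX_pf (hRH : RHO) : CNX := by
  intro s hs p lam hG h0 hc x hx
  obtain ⟨c, hC, hcn, hPf⟩ := hc
  obtain ⟨ρ, hρ, hrel, -⟩ := hRH lam hG
  -- the equation for all parameters
  have hF : ∀ a : La, x 0 * x 1 * (c 0 1 * dt a (lam 0) (lam 1))
      + x 0 * x 2 * (c 0 2 * dt a (lam 0) (lam 2)) + x 0 * x 3 * (c 0 3 * dt a (lam 0) (lam 3))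
      + x 1 * x 2 * (c 1 2 * dt a (lam 1) (lam 2)) + x 1 * x 3 * (c 1 3 * dt a (lam 1) (lam 3))
      + x 2 * x 3 * (c 2 3 * dt a (lam 2) (lam 3)) = 0 := by
    intro a
    have h1 := hx a
    rw [CNX_sum hs p a x (fun i => h0 i a)] at h1
    simp only [hC.eq] at h1
    exact (mul_eq_zero.1 h1).resolve_left two_ne_zero
  -- the relation between the parameters
  have hD : dt (lam 0) (lam 1) (lam 2) ≠ 0 := hG 0 1 2 (by decide) (by decide) (by decide)
  have hR : ∀ b d : La, ρ 0 * dt b d (lam 0) + ρ 1 * dt b d (lam 1) + ρ 2 * dt b d (lam 2)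
      + ρ 3 * dt b d (lam 3) = 0 := by
    intro b d
    have h1 : dt b d (∑ i, ρ i • lam i) = 0 := by
      rw [hrel]
      simp [dt_def]
    rw [Fin.sum_univ_four] at h1
    simp only [dt_add3, dt_smul3] at h1
    exact h1
  have r01 := hR (lam 0) (lam 1)
  have r02 := hR (lam 0) (lam 2)
  have r12 := hR (lam 1) (lam 2)
  have s010 : dt (lam 0) (lam 1) (lam 0) = 0 := dt_self13 _ _
  have s011 : dt (lam 0) (lam 1) (lam 1) = 0 := dt_self23 _ _
  have s020 : dt (lam 0) (lam 2) (lam 0) = 0 := dt_self13 _ _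
  have s022 : dt (lam 0) (lam 2) (lam 2) = 0 := dt_self23 _ _
  have s021 : dt (lam 0) (lam 2) (lam 1) = -dt (lam 0) (lam 1) (lam 2) := dt_swap23 _ _ _
  have s120 : dt (lam 1) (lam 2) (lam 0) = dt (lam 0) (lam 1) (lam 2) := dt_cyc _ _ _
  have s121 : dt (lam 1) (lam 2) (lam 1) = 0 := dt_self13 _ _
  have s122 : dt (lam 1) (lam 2) (lam 2) = 0 := dt_self23 _ _
  rw [s010, s011] at r01
  rw [s020, s022, s021] at r02
  rw [s120, s121, s122] at r12
  have f0 := hF (lam 0)
  have f1 := hF (lam 1)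
  have f2 := hF (lam 2)
  have t001 : dt (lam 0) (lam 0) (lam 1) = 0 := dt_self12 _ _
  have t002 : dt (lam 0) (lam 0) (lam 2) = 0 := dt_self12 _ _
  have t003 : dt (lam 0) (lam 0) (lam 3) = 0 := dt_self12 _ _
  have t101 : dt (lam 1) (lam 0) (lam 1) = 0 := dt_self13 _ _
  have t102 : dt (lam 1) (lam 0) (lam 2) = -dt (lam 0) (lam 1) (lam 2) := dt_swap12 _ _ _
  have t103 : dt (lam 1) (lam 0) (lam 3) = -dt (lam 0) (lam 1) (lam 3) := dt_swap12 _ _ _
  have t112 : dt (lam 1) (lam 1) (lam 2) = 0 := dt_self12 _ _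
  have t113 : dt (lam 1) (lam 1) (lam 3) = 0 := dt_self12 _ _
  have t201 : dt (lam 2) (lam 0) (lam 1) = dt (lam 0) (lam 1) (lam 2) := by
    simp only [dt_def]; ring
  have t202 : dt (lam 2) (lam 0) (lam 2) = 0 := dt_self13 _ _
  have t203 : dt (lam 2) (lam 0) (lam 3) = -dt (lam 0) (lam 2) (lam 3) := dt_swap12 _ _ _
  have t212 : dt (lam 2) (lam 1) (lam 2) = 0 := dt_self13 _ _
  have t213 : dt (lam 2) (lam 1) (lam 3) = -dt (lam 1) (lam 2) (lam 3) := dt_swap12 _ _ _
  have t223 : dt (lam 2) (lam 2) (lam 3) = 0 := dt_self12 _ _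
  rw [t001, t002, t003] at f0
  rw [t101, t102, t103, t112, t113] at f1
  rw [t201, t202, t203, t212, t213, t223] at f2
  generalize dt (lam 0) (lam 1) (lam 2) = D at *
  generalize dt (lam 0) (lam 1) (lam 3) = D1 at *
  generalize dt (lam 0) (lam 2) (lam 3) = D2 at *
  generalize dt (lam 1) (lam 2) (lam 3) = D3 at *
  have e0 : ρ 3 * (x 1 * x 2 * c 1 2) - ρ 2 * (x 1 * x 3 * c 1 3) + ρ 1 * (x 2 * x 3 * c 2 3) = 0 := by
    refine (mul_eq_zero.1 (?_ : D * _ = 0)).resolve_left hD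
    linear_combination ρ 3 * f0 - (x 1 * x 3 * c 1 3) * r01 - (x 2 * x 3 * c 2 3) * r02
  have e1 : ρ 3 * (x 0 * x 2 * c 0 2) - ρ 2 * (x 0 * x 3 * c 0 3) + ρ 0 * (x 2 * x 3 * c 2 3) = 0 := by
    refine (mul_eq_zero.1 (?_ : D * _ = 0)).resolve_left hD
    linear_combination -ρ 3 * f1 - (x 0 * x 3 * c 0 3) * r01 + (x 2 * x 3 * c 2 3) * r12
  have e2 : ρ 3 * (x 0 * x 1 * c 0 1) - ρ 1 * (x 0 * x 3 * c 0 3) + ρ 0 * (x 1 * x 3 * c 1 3) = 0 := by
    refine (mul_eq_zero.1 (?_ : D * _ = 0)).resolve_left hD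
    linear_combination ρ 3 * f2 + (x 0 * x 3 * c 0 3) * r02 + (x 1 * x 3 * c 1 3) * r12
  have hP : ρ 3 * Pf c * (x 0 * x 1 * x 2 * x 3) = 0 := by
    unfold Pf
    linear_combination (x 2 * x 3 * c 2 3) * e2 - (x 1 * x 3 * c 1 3) * e1 + (x 0 * x 3 * c 0 3) * e0
  have hX : x 0 * x 1 * x 2 * x 3 = 0 :=
    (mul_eq_zero.1 hP).resolve_left (mul_ne_zero (hρ 3) hPf)
  have c01 := hcn 0 1 (by decide)
  have c02 := hcn 0 2 (by decide)
  have c03 := hcn 0 3 (by decide)
  have c12 := hcn 1 2 (by decide)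
  have c13 := hcn 1 3 (by decide)
  have c23 := hcn 2 3 (by decide)
  have key : x 0 * x 1 = 0 ∧ x 0 * x 2 = 0 ∧ x 0 * x 3 = 0 ∧ x 1 * x 2 = 0 ∧ x 1 * x 3 = 0 ∧
      x 2 * x 3 = 0 := by
    have cancel : ∀ r y z : ℂ, r ≠ 0 → z ≠ 0 → r * (y * z) = 0 → y = 0 := by
      intro r y z hr hz h
      exact (mul_eq_zero.1 ((mul_eq_zero.1 h).resolve_left hr)).resolve_right hz
    have hX' : x 0 = 0 ∨ x 1 = 0 ∨ x 2 = 0 ∨ x 3 = 0 := by
      rcases mul_eq_zero.1 hX with h | h
      · rcases mul_eq_zero.1 h with h | h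
        · rcases mul_eq_zero.1 h with h | h
          · exact Or.inl h
          · exact Or.inr (Or.inl h)
        · exact Or.inr (Or.inr (Or.inl h))
      · exact Or.inr (Or.inr (Or.inr h))
    rcases hX' with h | h | h | h
    · have g1 : x 2 * x 3 = 0 := cancel (ρ 0) _ (c 2 3) (hρ 0) c23 (by
        rw [h] at e1; linear_combination e1)
      have g2 : x 1 * x 3 = 0 := cancel (ρ 0) _ (c 1 3) (hρ 0) c13 (by
        rw [h] at e2; linear_combination e2)
      have g3 : x 1 * x 2 = 0 := cancel (ρ 3) _ (c 1 2) (hρ 3) c12 (by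
        rw [g1, g2] at e0; linear_combination e0)
      exact ⟨by rw [h, zero_mul], by rw [h, zero_mul], by rw [h, zero_mul], g3, g2, g1⟩
    · have g1 : x 2 * x 3 = 0 := cancel (ρ 1) _ (c 2 3) (hρ 1) c23 (by
        rw [h] at e0; linear_combination e0)
      have g2 : x 0 * x 3 = 0 := cancel (ρ 1) _ (c 0 3) (hρ 1) c03 (by
        rw [h] at e2; linear_combination -e2)
      have g3 : x 0 * x 2 = 0 := cancel (ρ 3) _ (c 0 2) (hρ 3) c02 (by
        rw [g1, g2] at e1; linear_combination e1)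
      exact ⟨by rw [h, mul_zero], g3, g2, by rw [h, zero_mul], by rw [h, zero_mul], g1⟩
    · have g1 : x 1 * x 3 = 0 := cancel (ρ 2) _ (c 1 3) (hρ 2) c13 (by
        rw [h] at e0; linear_combination -e0)
      have g2 : x 0 * x 3 = 0 := cancel (ρ 2) _ (c 0 3) (hρ 2) c03 (by
        rw [h] at e1; linear_combination -e1)
      have g3 : x 0 * x 1 = 0 := cancel (ρ 3) _ (c 0 1) (hρ 3) c01 (by
        rw [g1, g2] at e2; linear_combination e2)
      exact ⟨g3, by rw [h, mul_zero], g2, by rw [h, mul_zero], g1, by rw [h, zero_mul]⟩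
    · have g1 : x 1 * x 2 = 0 := cancel (ρ 3) _ (c 1 2) (hρ 3) c12 (by
        rw [h] at e0; linear_combination e0)
      have g2 : x 0 * x 2 = 0 := cancel (ρ 3) _ (c 0 2) (hρ 3) c02 (by
        rw [h] at e1; linear_combination e1)
      have g3 : x 0 * x 1 = 0 := cancel (ρ 3) _ (c 0 1) (hρ 3) c01 (by
        rw [h] at e2; linear_combination e2)
      exact ⟨g3, g2, by rw [h, mul_zero], g1, by rw [h, mul_zero], by rw [h, mul_zero]⟩
  obtain ⟨k01, k02, k03, k12, k13, k23⟩ := key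
  obtain ⟨j, hj⟩ := CNX_pairs x (by
    intro i k hik
    fin_cases i <;> fin_cases k <;>
      first
      | exact absurd rfl hik
      | exact k01
      | exact k02
      | exact k03
      | exact k12
      | exact k13
      | exact k23
      | exact (mul_comm _ _).trans k01
      | exact (mul_comm _ _).trans k02
      | exact (mul_comm _ _).trans k03
      | exact (mul_comm _ _).trans k12
      | exact (mul_comm _ _).trans k13
      | exact (mul_comm _ _).trans k23)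
  exact CNX_one p x j hj

end Pool.Agent.Work.MP_ea8963_ag.G5
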