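import Pool.Agent.Work.MP_ea8963_ag.G5.Stmts3

/-!
Block [ea8963 G5], item FTX: two configurations, all derivatives occur.
-/

set_option linter.style.longLine false
set_option linter.unusedVariables false
set_option synthInstance.maxHeartbeats 400000

noncomputable section

open Module Topology
open Pool.Agent.Work.MP_ea8963_ag.G4 (D ZA mem_ZA Full cl rn rn_prod rn_le finrank_map_mono
  finrank_map_prod_swap pair d_two ZA_mono)

namespace Pool.Agent.Work.MP_ea8963_ag.G5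

/-- the first coordinates of four parameters -/
def FTX_c0 : (Fin 4 → La) →ₗ[ℂ] (Fin 4 → ℂ) where
  toFun d := fun i => d i 0
  map_add' x y := rfl
  map_smul' c x := rfl

lemma FTX_c0_surj : Function.Surjective FTX_c0 := fun y => ⟨fun i => fun _ => y i, rfl⟩

/-- the derivatives of normalised parameters -/
def FTX_Z : Submodule ℂ (Fin 4 → La) := LinearMap.ker FTX_c0

lemma FTX_mem {d : Fin 4 → La} : d ∈ FTX_Z ↔ ∀ i, d i 0 = 0 := by
  rw [FTX_Z, LinearMap.mem_ker]
  exact ⟨fun h i => congrFun h i, fun h => funext h⟩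

lemma FTX_finrank : finrank ℂ FTX_Z = 8 := by
  have h1 := LinearMap.finrank_range_add_finrank_ker FTX_c0
  rw [LinearMap.range_eq_top.2 FTX_c0_surj, finrank_top] at h1
  have h2 : finrank ℂ (Fin 4 → La) = 12 := by
    simp [La, finrank_pi_fintype]
  have h3 : finrank ℂ (Fin 4 → ℂ) = 4 := by simp
  rw [h2, h3] at h1
  rw [FTX_Z]
  omega

lemma FTX_prod {V V' : Type*} [AddCommGroup V] [Module ℂ V] [AddCommGroup V'] [Module ℂ V']
    [FiniteDimensional ℂ V] [FiniteDimensional ℂ V'] (A : Submodule ℂ V) (B : Submodule ℂ V') :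
    finrank ℂ (A.prod B) ≤ finrank ℂ A + finrank ℂ B := by
  have h1 := rn_prod (LinearMap.fst ℂ V V') (LinearMap.snd ℂ V V') (A.prod B)
  have h2 : (A.prod B).map ((LinearMap.fst ℂ V V').prod (LinearMap.snd ℂ V V')) = A.prod B := by
    have h3 : (LinearMap.fst ℂ V V').prod (LinearMap.snd ℂ V V') = LinearMap.id :=
      LinearMap.ext fun x => rfl
    rw [h3, Submodule.map_id]
  rw [h2] at h1
  rw [h1]
  refine add_le_add (Submodule.finrank_mono ?_) (Submodule.finrank_mono ?_)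
  · rintro _ ⟨x, hx, rfl⟩
    exact hx.1
  · rintro _ ⟨x, hx, rfl⟩
    exact hx.1.2

theorem FTX_pf (hDKx : DKX) (hDTp : DTP) : FTX := by
  intro s p l lam m p' l' lam' m' h h' H hR
  set W : Submodule ℂ D := ZC p l lam with hW
  have a1 := rn (evT s) (evC p' l' lam') W
  have a2 : finrank ℂ SymT ≤ finrank ℂ (W.map (evT s)) + 28 := H.o.rkS
  have a3 : 6 ≤ finrank ℂ ((W ⊓ LinearMap.ker (evT s)).map (evC p' l' lam') :
      Submodule ℂ (((Fin 4 → E) × E) × (Fin 4 → La))) := by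
    refine H.rk.trans ?_
    have e : (ZS s ⊓ ZB p l).map (evB p' l') = ((ZS s ⊓ ZB p l).map (evC p' l' lam')).map
        (LinearMap.fst ℂ ((Fin 4 → E) × E) (Fin 4 → La)) := by
      rw [← Submodule.map_comp]
      rfl
    rw [e]
    refine (Submodule.finrank_map_le _ _).trans ?_
    exact finrank_map_mono _ H.o.inf_le_ZC
  have b1 : W.map (evC p' l' lam') ≤ (TP p' l').prod FTX_Z := by
    rintro _ ⟨δ, hδ, rfl⟩
    exact ⟨H.o'.ev_mem δ, FTX_mem.2 fun i => H.o'.dlam0 δ i⟩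
  have b2 : finrank ℂ ((TP p' l').prod FTX_Z) ≤ 34 := by
    have := FTX_prod (TP p' l') FTX_Z
    rw [hDTp p' l' H.o'.ind, FTX_finrank] at this
    exact this
  have b3 : finrank ℂ (W.map (evC p' l' lam')) ≤ finrank ℂ ((TP p' l').prod FTX_Z) :=
    Submodule.finrank_mono b1
  have c1 : (W ⊓ LinearMap.ker (evC p' l' lam')).map (evT s) ≤
      KB p l lam ⊓ KB p' l' lam' := by
    rintro _ ⟨δ, hδ, rfl⟩
    exact ⟨H.o.dT_mem_KB H.g.1 hδ.1, H.o'.dT_mem_KB H.g.1 hδ.2⟩
  have c2 := hDKx p l lam p' l' lam' H.o.l0 H.o'.l0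
  have c3 : finrank ℂ ((W ⊓ LinearMap.ker (evC p' l' lam')).map (evT s) : Submodule ℂ T3) ≤
      finrank ℂ (KB p l lam ⊓ KB p' l' lam' : Submodule ℂ T3) := Submodule.finrank_mono c1
  constructor
  · have d1 : W.map (evC p' l' lam') = (TP p' l').prod FTX_Z :=
      Submodule.eq_of_le_of_finrank_le b1 (by omega)
    intro x hx d hd
    have d2 : ((x, d) : ((Fin 4 → E) × E) × (Fin 4 → La)) ∈ W.map (evC p' l' lam') := by
      rw [d1]
      exact ⟨hx, FTX_mem.2 hd⟩
    obtain ⟨δ, hδ, hδ2⟩ := d2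
    exact ⟨δ, hδ, hδ2⟩
  · have d1 : (W ⊓ LinearMap.ker (evC p' l' lam')).map (evT s) = KB p l lam ⊓ KB p' l' lam' :=
      Submodule.eq_of_le_of_finrank_le c1 (by omega)
    intro t ht
    rw [← d1] at ht
    obtain ⟨δ, hδ, hδ2⟩ := ht
    exact ⟨δ, hδ, hδ2⟩

end Pool.Agent.Work.MP_ea8963_ag.G5
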