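import Pool.Agent.Work.MP_ea8963_ag.G5.Stmts3

/-!
Block [ea8963 G5], item NCY: nets of `K_b` which vanish on `P` vanish on `N`.
-/

set_option linter.style.longLine false
set_option linter.unusedVariables false

noncomputable section

open Module Topology

namespace Pool.Agent.Work.MP_ea8963_ag.G5

lemma NCY_two : ∀ i k : Fin 4, i ≠ k → ∃ j1 j2 : Fin 4, j1 ≠ i ∧ j1 ≠ k ∧ j2 ≠ i ∧ j2 ≠ k ∧
    j1 ≠ j2 := by decide

lemma NCY_ind {l h f g : E} (H : LinearIndependent ℂ ![l, h, f, g]) :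
    LinearIndependent ℂ ![l, h] := by
  have h1 := H.comp ![0, 1] (by decide)
  have e : (![l, h, f, g] : Fin 4 → E) ∘ ![0, 1] = ![l, h] := by
    funext i
    fin_cases i <;> rfl
  rwa [e] at h1

/-- the common kernel of `l`, `h` is the span of `p` -/
lemma NCY_span {p : Fin 4 → E} {l h : E} (hp : LinearIndependent ℂ p)
    (hlh : LinearIndependent ℂ ![l, h]) (h1 : ∀ i, l ⬝ᵥ p i = 0) (h2 : ∀ i, h ⬝ᵥ p i = 0) :
    Submodule.span ℂ (Set.range p) = Ann ![l, h] := by
  apply Submodule.eq_of_le_of_finrank_eq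
  · rw [Submodule.span_le]
    rintro _ ⟨i, rfl⟩
    intro j
    fin_cases j
    · exact h1 i
    · exact h2 i
  · have h3 : finrank ℂ (Ann ![l, h]) + 2 = 6 := finrank_Ann hlh
    have h4 : finrank ℂ (Submodule.span ℂ (Set.range p)) = 4 := by
      rw [finrank_span_eq_card hp]; rfl
    have h5 : finrank ℂ (Ann ![l, h]) = 4 := by omega
    rw [h4]
    exact h5.symm

/-- formula for the values at the points -/
lemma NCY_val {l h f g : E} {p : Fin 4 → E} (h1 : ∀ i, l ⬝ᵥ p i = 0) (h2 : ∀ i, h ⬝ᵥ p i = 0)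
    (hf : ∀ i, f ⬝ᵥ p i ≠ 0) {t : T3} {r : Fin 4 → Fin 3 → E}
    (ht : t = ∑ j, pr ((![l, h, f, g] : Fin 4 → E) j) (r j))
    (hd : ∀ i (a : La), tri t a (p i) (p i) = 0) (a : La) :
    ∃ G : Fin 4 → ℂ, ∀ i k, tri t a (p i) (p k) = zz f g p i k * (G i - G k) := by
  have hv : ∀ i k, tri t a (p i) (p k) =
      (f ⬝ᵥ p i) * (con (r 2) a ⬝ᵥ p k) + (con (r 2) a ⬝ᵥ p i) * (f ⬝ᵥ p k)
      + ((g ⬝ᵥ p i) * (con (r 3) a ⬝ᵥ p k) + (con (r 3) a ⬝ᵥ p i) * (g ⬝ᵥ p k)) := by
    intro i k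
    rw [ht, Fin.sum_univ_four]
    simp only [tri_add_tensor, tri_pr, Matrix.cons_val_zero, Matrix.cons_val_one, Matrix.cons_val,
      h1, h2, zero_mul, mul_zero, add_zero, zero_add]
  refine ⟨fun i => -(con (r 3) a ⬝ᵥ p i) / (f ⬝ᵥ p i), fun i k => ?_⟩
  have e1 := hd i a
  have e2 := hd k a
  rw [hv] at e1 e2
  have e1' : (f ⬝ᵥ p i) * (con (r 2) a ⬝ᵥ p i) + (g ⬝ᵥ p i) * (con (r 3) a ⬝ᵥ p i) = 0 := by
    linear_combination (1 / 2 : ℂ) * e1
  have e2' : (f ⬝ᵥ p k) * (con (r 2) a ⬝ᵥ p k) + (g ⬝ᵥ p k) * (con (r 3) a ⬝ᵥ p k) = 0 := by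
    linear_combination (1 / 2 : ℂ) * e2
  rw [hv, zz]
  dsimp only
  have hfi := hf i
  have hfk := hf k
  generalize f ⬝ᵥ p i = fi at *
  generalize f ⬝ᵥ p k = fk at *
  generalize g ⬝ᵥ p i = gi at *
  generalize g ⬝ᵥ p k = gk at *
  generalize con (r 2) a ⬝ᵥ p i = Ai at *
  generalize con (r 2) a ⬝ᵥ p k = Ak at *
  generalize con (r 3) a ⬝ᵥ p i = Bi at *
  generalize con (r 3) a ⬝ᵥ p k = Bk at *
  field_simp
  linear_combination fk ^ 2 * e1' + fi ^ 2 * e2'

theorem NCY_pf (hDEc : DEC) (hCCx : CCX) : NCY := by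
  intro p l lam h f g H hAM t ht
  obtain ⟨htK, htU⟩ := ht
  obtain ⟨r, hr⟩ := hDEc 4 ![l, h, f, g] H.fi t htU
  obtain ⟨c, hc⟩ := hCCx p l lam H.gp H.lp t htK
  have hd : ∀ i (a : La), tri t a (p i) (p i) = 0 := (mem_KB.1 htK).2.2
  have hG := NCY_val H.lp H.hp H.fp hr hd
  choose G hG using hG
  -- the key identity
  have key : ∀ i k a, c i k * dt a (lam i) (lam k) = zz f g p i k * (G a i - G a k) := by
    intro i k a
    rw [← hc.eq, hG]
  have hz : ∀ i k, zz f g p k i = - zz f g p i k := by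
    intro i k
    simp only [zz]; ring
  -- triangles
  have tri0 : ∀ i k j, i ≠ k → i ≠ j → k ≠ j → zz f g p i k ≠ 0 → zz f g p k j ≠ 0 →
      zz f g p j i ≠ 0 → c i k = 0 := by
    intro i k j hik hij hkj z1 z2 z3
    have k1 := key i k (lam j)
    have k2 := key k j (lam j)
    have k3 := key j i (lam j)
    rw [dt_self13, mul_zero] at k2
    rw [dt_self12, mul_zero] at k3
    have k2' := (mul_eq_zero.1 k2.symm).resolve_left z2
    have k3' := (mul_eq_zero.1 k3.symm).resolve_left z3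
    have k4 : G (lam j) i - G (lam j) k = 0 := by linear_combination -k2' - k3'
    rw [k4, mul_zero] at k1
    exact (mul_eq_zero.1 k1).resolve_right (H.gp j i k hij.symm hkj.symm hik)
  have c0 : ∀ i k, i ≠ k → c i k = 0 := by
    intro i k hik
    obtain ⟨j1, j2, a1, a2, b1, b2, hj⟩ := NCY_two i k hik
    by_cases z0 : zz f g p i k = 0
    · have k1 := key i k (lam j1)
      rw [z0, zero_mul] at k1
      exact (mul_eq_zero.1 k1).resolve_right (H.gp j1 i k a1 a2 hik)
    · by_cases w1 : zz f g p k j1 ≠ 0 ∧ zz f g p j1 i ≠ 0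
      · exact tri0 i k j1 hik a1.symm a2.symm z0 w1.1 w1.2
      · have w2 : zz f g p k j2 ≠ 0 ∧ zz f g p j2 i ≠ 0 := by
          rw [not_and_or, not_not, not_not] at w1
          refine ⟨fun u => ?_, fun u => ?_⟩
          · rcases w1 with w | w
            · rcases hAM k j1 k j2 a2.symm b2.symm w u with v | v
              · exact hj v.2
              · exact b2 v.1.symm
            · rcases hAM j1 i k j2 a1 b2.symm w u with v | v
              · exact a2 v.1
              · exact hj v.1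
          · rcases w1 with w | w
            · rcases hAM k j1 j2 i a2.symm b1 w u with v | v
              · exact b2 v.1.symm
              · exact hj v.2
            · rcases hAM j1 i j2 i a1 b1 w u with v | v
              · exact hj v.1
              · exact a1 v.1
        exact tri0 i k j2 hik b1.symm b2.symm z0 w2.1 w2.2
  have t0 : ∀ a i k, tri t a (p i) (p k) = 0 := by
    intro a i k
    by_cases hik : i = k
    · subst hik; exact hd i a
    · rw [hc.eq, c0 i k hik, zero_mul]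
  refine mem_KU.2 ⟨(mem_KU.1 htU).1, fun a x hx y hy => ?_⟩
  rw [← NCY_span H.ind (NCY_ind H.fi) H.lp H.hp, Submodule.mem_span_range_iff_exists_fun] at hx hy
  obtain ⟨u, rfl⟩ := hx
  obtain ⟨v, rfl⟩ := hy
  rw [tri_sum2]
  refine Finset.sum_eq_zero fun i _ => ?_
  rw [tri_sum3]
  refine Finset.sum_eq_zero fun k _ => ?_
  rw [tri_smul2, tri_smul3, t0, mul_zero, mul_zero]

end Pool.Agent.Work.MP_ea8963_ag.G5
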