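import Pool.Agent.Work.MP_ea8963_ag.G5.Off

/-!
Block [ea8963 G5], item OBX: three quadratic forms and their net of symmetric matrices.
-/

set_option linter.style.longLine false
set_option linter.unusedVariables false

noncomputable section

open Module Topology MvPolynomial
open Pool.Agent.Work.MP_ea8963_ag.G4 (D ZA mem_ZA Full cl rn rn_prod rn_le finrank_map_mono
  finrank_map_prod_swap pair d_two ZA_mono)

namespace Pool.Agent.Work.MP_ea8963_ag.G5

namespace I_OBX

lemma pcomm (i j : Fin 6) (f : MvPolynomial (Fin 6) ℂ) :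
    pderiv i (pderiv j f) = pderiv j (pderiv i f) := by
  have h : (⁅(pderiv i : Derivation ℂ (MvPolynomial (Fin 6) ℂ) (MvPolynomial (Fin 6) ℂ)),
      (pderiv j : Derivation ℂ (MvPolynomial (Fin 6) ℂ) (MvPolynomial (Fin 6) ℂ))⁆) = 0 := by
    apply MvPolynomial.derivation_ext
    intro k
    have h1 : ∀ a b : Fin 6, pderiv a (pderiv b (X k : MvPolynomial (Fin 6) ℂ)) = 0 := by
      intro a b
      by_cases hb : k = b
      · subst hb
        rw [pderiv_X_self, pderiv_one]
      · rw [pderiv_X_of_ne hb, map_zero]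
    rw [Derivation.commutator_apply, h1, h1, sub_zero]
    rfl
  have h2 : (⁅(pderiv i : Derivation ℂ (MvPolynomial (Fin 6) ℂ) (MvPolynomial (Fin 6) ℂ)),
      (pderiv j : Derivation ℂ (MvPolynomial (Fin 6) ℂ) (MvPolynomial (Fin 6) ℂ))⁆) f = 0 := by
    rw [h]; rfl
  rw [Derivation.commutator_apply] at h2
  exact sub_eq_zero.1 h2

lemma euler {g : MvPolynomial (Fin 6) ℂ} {n : ℕ} (h : g.IsHomogeneous n) (x : Fin 6 → ℂ) :
    (n : ℂ) * eval x g = ∑ i, x i * eval x (pderiv i g) := by
  have h1 := congrArg (eval x) h.sum_X_mul_pderiv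
  rw [map_sum, nsmul_eq_mul, map_mul, map_natCast] at h1
  rw [← h1]
  refine Finset.sum_congr rfl fun i _ => ?_
  rw [map_mul, eval_X]

lemma const {g : MvPolynomial (Fin 6) ℂ} (h : g.IsHomogeneous 0) (x y : Fin 6 → ℂ) :
    eval x g = eval y g := by
  rw [← totalDegree_zero_iff_isHomogeneous, totalDegree_eq_zero_iff_eq_C] at h
  rw [h, eval_C, eval_C]

lemma second {f : Fin 3 → MvPolynomial (Fin 6) ℂ} (hf : ∀ k, (f k).IsHomogeneous 2)
    (x : Fin 6 → ℂ) (k : Fin 3) (i j : Fin 6) :
    eval x (pderiv i (pderiv j (f k))) = 2 * sten f k i j := by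
  have h1 : (pderiv j (f k)).IsHomogeneous 1 := (hf k).pderiv
  have h2 : (pderiv i (pderiv j (f k))).IsHomogeneous 0 := h1.pderiv
  rw [const h2 x 0, sten]
  ring

lemma cov_e (s : T3) (k : Fin 3) (x : E) (j : Fin 6) :
    cov s (Pi.single k 1) x j = ∑ i, x i * s k i j := by
  simp only [cov]
  rw [Finset.sum_eq_single k]
  · refine Finset.sum_congr rfl fun i _ => ?_
    rw [Pi.single_eq_same, one_mul]
  · intro b _ hb
    refine Finset.sum_eq_zero fun i _ => ?_
    rw [Pi.single_eq_of_ne hb, zero_mul, zero_mul]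
  · intro h
    exact absurd (Finset.mem_univ k) h

lemma first {f : Fin 3 → MvPolynomial (Fin 6) ℂ} (hf : ∀ k, (f k).IsHomogeneous 2)
    (x : Fin 6 → ℂ) (k : Fin 3) (j : Fin 6) :
    eval x (pderiv j (f k)) = 2 * cov (sten f) (Pi.single k 1) x j := by
  have h1 : (pderiv j (f k)).IsHomogeneous 1 := (hf k).pderiv
  have h3 := euler h1 x
  rw [Nat.cast_one, one_mul] at h3
  rw [h3, cov_e, Finset.mul_sum]
  refine Finset.sum_congr rfl fun i _ => ?_
  rw [second hf]
  ring

end I_OBX

open I_OBX in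
theorem OBX_pf : OBX := by
  intro f hf
  refine ⟨?_, ?_, ?_, ?_⟩
  · intro k i j
    simp only [sten]
    rw [pcomm i j]
  · intro k x
    have h1 := euler (hf k) x
    have h2 : ∑ i, x i * eval x (pderiv i (f k)) = 2 * tri (sten f) (Pi.single k 1) x x := by
      rw [tri, dotProduct, Finset.mul_sum]
      refine Finset.sum_congr rfl fun i _ => ?_
      rw [first hf]
      ring
    rw [h2] at h1
    have h3 : ((2 : ℕ) : ℂ) = 2 := by norm_num
    rw [h3] at h1
    exact mul_left_cancel₀ (by norm_num : (2 : ℂ) ≠ 0) h1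
  · intro k x
    ext j
    rw [grad, first hf, Pi.smul_apply, smul_eq_mul]
  · intro k x v w
    rw [hess, tri, dotProduct, Finset.sum_comm, Finset.mul_sum]
    refine Finset.sum_congr rfl fun j _ => ?_
    rw [cov_e, Finset.sum_mul, Finset.mul_sum]
    refine Finset.sum_congr rfl fun i _ => ?_
    rw [second hf]
    ring

end Pool.Agent.Work.MP_ea8963_ag.G5
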