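import Pool.Agent.Work.MP_ea8963_ag.G5.Stmts

set_option autoImplicit false
set_option linter.style.longLine false

noncomputable section

open Module
open Pool.Agent.Work.MP_ea8963_ag.G4 (D ZA mem_ZA Full cl rn rn_prod rn_le finrank_map_mono
  finrank_map_prod_swap pair d_two)

namespace Pool.Agent.Work.MP_ea8963_ag.G5

lemma PIX_pair {p q : E} (hq : q ≠ 0) (h : ∀ c : ℂ, p ≠ c • q) : LinearIndependent ℂ ![p, q] := by
  rw [LinearIndependent.pair_iff]
  intro a b hab
  have ha : a = 0 := by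
    by_contra ha
    refine h (-(a⁻¹ * b)) ?_
    have h2 : a • p = -(b • q) := by rw [eq_neg_iff_add_eq_zero]; exact hab
    calc p = a⁻¹ • (a • p) := by rw [smul_smul, inv_mul_cancel₀ ha, one_smul]
      _ = -(a⁻¹ * b) • q := by rw [h2, smul_neg, smul_smul, neg_smul]
  refine ⟨ha, ?_⟩
  rw [ha, zero_smul, zero_add] at hab
  exact (smul_eq_zero.1 hab).resolve_right hq

/-- the last coefficient of a relation between three of the points vanishes -/
lemma PIX_three (hNL : NLX) {s : T3} (hs : Gen s) (p : Fin 4 → E)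
    (hq : ∀ i a, tri s a (p i) (p i) = 0) (hz : ∀ i, p i ≠ 0)
    (hp : ∀ i j, i ≠ j → ∀ c : ℂ, p i ≠ c • p j) (i j k : Fin 4) (hij : i ≠ j) (hik : i ≠ k)
    (hjk : j ≠ k) (a b c : ℂ) (h : a • p i + b • p j + c • p k = 0) : c = 0 := by
  by_contra hc
  have h1 : c • p k = -(a • p i + b • p j) := by
    rw [eq_neg_iff_add_eq_zero]; rw [← h]; abel
  have ha : a ≠ 0 := by
    intro ha
    refine hp k j hjk.symm (-(c⁻¹ * b)) ?_
    rw [ha, zero_smul, zero_add] at h1
    calc p k = c⁻¹ • (c • p k) := by rw [smul_smul, inv_mul_cancel₀ hc, one_smul]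
      _ = -(c⁻¹ * b) • p j := by rw [h1, smul_neg, smul_smul, neg_smul]
  have hb : b ≠ 0 := by
    intro hb
    refine hp k i hik.symm (-(c⁻¹ * a)) ?_
    rw [hb, zero_smul, add_zero] at h1
    calc p k = c⁻¹ • (c • p k) := by rw [smul_smul, inv_mul_cancel₀ hc, one_smul]
      _ = -(c⁻¹ * a) • p i := by rw [h1, smul_neg, smul_smul, neg_smul]
  refine hNL s hs (p i) (p j) (PIX_pair (hz j) (hp i j hij)) (hq i) ?_ (hq j)
  intro e
  have h2 : tri s e (c • p k) (c • p k) = tri s e (-(a • p i + b • p j)) (-(a • p i + b • p j)) := by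
    rw [h1]
  simp only [tri_neg2, tri_neg3, tri_add2, tri_add3, tri_smul2, tri_smul3, hq] at h2
  rw [tri_comm hs.1 e (p j) (p i)] at h2
  have h3 : (2 * a * b) * tri s e (p i) (p j) = 0 := by linear_combination -h2
  exact (mul_eq_zero.1 h3).resolve_left (mul_ne_zero (mul_ne_zero two_ne_zero ha) hb)

theorem PIX_pf (hRK : RKF) (hNL : NLX) (hNP : NPX) : PIX := by
  intro s hs p l lam hl hq heq hz hp
  have h3 := PIX_three hNL hs p hq hz hp
  -- relations between three of the points are trivial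
  have h3' : ∀ i j k : Fin 4, i ≠ j → i ≠ k → j ≠ k → ∀ a b c : ℂ,
      a • p i + b • p j + c • p k = 0 → a = 0 ∧ b = 0 ∧ c = 0 := by
    intro i j k hij hik hjk a b c h
    exact ⟨h3 j k i hjk hij.symm hik.symm b c a (by rw [← h]; abel),
      h3 i k j hik hij hjk.symm a c b (by rw [← h]; abel), h3 i j k hij hik hjk a b c h⟩
  have hdot : ∀ i x, tri s (lam i) (p i) x = l ⬝ᵥ x := fun i x => by rw [tri, heq i]
  have hlp : ∀ i, l ⬝ᵥ p i = 0 := fun i => by rw [← hdot i, hq]
  have ht1 : ∀ i j, tri s (lam i) (p i) (p j) = 0 := fun i j => by rw [hdot, hlp]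
  have ht2 : ∀ i j, tri s (lam i) (p j) (p i) = 0 := fun i j => by
    rw [tri_comm hs.1, ht1]
  have hlam : ∀ i, lam i ≠ 0 := by
    intro i h0
    apply hl
    rw [← heq i, h0, cov_zero_left]
  by_contra hcon
  rw [Fintype.not_linearIndependent_iff] at hcon
  obtain ⟨g, hg, m, hm⟩ := hcon
  rw [Fin.sum_univ_four] at hg
  have hg0 : g 0 ≠ 0 := by
    intro h0
    rw [h0, zero_smul, zero_add] at hg
    obtain ⟨h1, h2, h4⟩ := h3' 1 2 3 (by decide) (by decide) (by decide) _ _ _ hg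
    apply hm
    fin_cases m <;> assumption
  have hg1 : g 1 ≠ 0 := by
    intro h0
    rw [h0, zero_smul, add_zero] at hg
    obtain ⟨h1, h2, h4⟩ := h3' 0 2 3 (by decide) (by decide) (by decide) _ _ _ hg
    apply hm
    fin_cases m <;> assumption
  have hg2 : g 2 ≠ 0 := by
    intro h0
    rw [h0, zero_smul, add_zero] at hg
    obtain ⟨h1, h2, h4⟩ := h3' 0 1 3 (by decide) (by decide) (by decide) _ _ _ hg
    apply hm
    fin_cases m <;> assumption
  have hrel : g 3 • p 3 = -(g 0 • p 0 + g 1 • p 1 + g 2 • p 2) := by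
    rw [eq_neg_iff_add_eq_zero, add_comm]; exact hg
  have hq3 : ∀ a : La, g 0 * g 1 * tri s a (p 0) (p 1) + g 0 * g 2 * tri s a (p 0) (p 2) +
      g 1 * g 2 * tri s a (p 1) (p 2) = 0 := by
    intro a
    have h2 : tri s a (g 3 • p 3) (g 3 • p 3) = tri s a (-(g 0 • p 0 + g 1 • p 1 + g 2 • p 2))
        (-(g 0 • p 0 + g 1 • p 1 + g 2 • p 2)) := by rw [hrel]
    simp only [tri_neg2, tri_neg3, tri_add2, tri_add3, tri_smul2, tri_smul3, hq] at h2
    rw [tri_comm hs.1 a (p 1) (p 0), tri_comm hs.1 a (p 2) (p 0), tri_comm hs.1 a (p 2) (p 1)] at h2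
    linear_combination (-1 / 2 : ℂ) * h2
  have t12 : tri s (lam 0) (p 1) (p 2) = 0 := by
    have h1 := hq3 (lam 0)
    rw [ht1, ht1, mul_zero, mul_zero, zero_add, zero_add] at h1
    exact (mul_eq_zero.1 h1).resolve_left (mul_ne_zero hg1 hg2)
  have t02 : tri s (lam 1) (p 0) (p 2) = 0 := by
    have h1 := hq3 (lam 1)
    rw [ht1, ht2, mul_zero, mul_zero, zero_add, add_zero] at h1
    exact (mul_eq_zero.1 h1).resolve_left (mul_ne_zero hg0 hg2)
  have t01 : tri s (lam 2) (p 0) (p 1) = 0 := by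
    have h1 := hq3 (lam 2)
    rw [ht2, ht2, mul_zero, mul_zero, add_zero, add_zero] at h1
    exact (mul_eq_zero.1 h1).resolve_left (mul_ne_zero hg0 hg1)
  -- the three forms vanish on the plane
  have u3 : LinearIndependent ℂ ![p 0, p 1, p 2] := by
    rw [Fintype.linearIndependent_iff]
    intro c hc
    rw [Fin.sum_univ_three] at hc
    obtain ⟨h1, h2, h4⟩ := h3' 0 1 2 (by decide) (by decide) (by decide) _ _ _ hc
    intro i
    fin_cases i <;> assumption
  have v0 : ∀ i j : Fin 3, tri s (lam 0) (![p 0, p 1, p 2] i) (![p 0, p 1, p 2] j) = 0 := by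
    intro i j
    fin_cases i <;> fin_cases j
    · exact hq 0 _
    · exact ht1 0 1
    · exact ht1 0 2
    · exact ht2 0 1
    · exact hq 1 _
    · exact t12
    · exact ht2 0 2
    · exact (tri_comm hs.1 _ _ _).trans t12
    · exact hq 2 _
  have v1 : ∀ i j : Fin 3, tri s (lam 1) (![p 0, p 1, p 2] i) (![p 0, p 1, p 2] j) = 0 := by
    intro i j
    fin_cases i <;> fin_cases j
    · exact hq 0 _
    · exact ht2 1 0
    · exact t02
    · exact ht1 1 0
    · exact hq 1 _
    · exact ht1 1 2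
    · exact (tri_comm hs.1 _ _ _).trans t02
    · exact ht2 1 2
    · exact hq 2 _
  have v2 : ∀ i j : Fin 3, tri s (lam 2) (![p 0, p 1, p 2] i) (![p 0, p 1, p 2] j) = 0 := by
    intro i j
    fin_cases i <;> fin_cases j
    · exact hq 0 _
    · exact t01
    · exact ht2 2 0
    · exact (tri_comm hs.1 _ _ _).trans t01
    · exact hq 1 _
    · exact ht2 2 1
    · exact ht1 2 0
    · exact ht1 2 1
    · exact hq 2 _
  -- proportional parameters
  have prop : ∀ a b : La, a ≠ 0 → ¬ LinearIndependent ℂ ![a, b] → ∃ c : ℂ, b = c • a := by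
    intro a b ha h
    by_contra hc
    push Not at hc
    apply h
    rw [LinearIndependent.pair_iff]
    intro x y hxy
    have hy : y = 0 := by
      by_contra hy
      refine hc (-(y⁻¹ * x)) ?_
      have h2 : y • b = -(x • a) := by
        rw [eq_neg_iff_add_eq_zero, add_comm]; exact hxy
      calc b = y⁻¹ • (y • b) := by rw [smul_smul, inv_mul_cancel₀ hy, one_smul]
        _ = -(y⁻¹ * x) • a := by rw [h2, smul_neg, smul_smul, neg_smul]
    rw [hy, zero_smul, add_zero] at hxy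
    exact ⟨(smul_eq_zero.1 hxy).resolve_right ha, hy⟩
  obtain ⟨c, hc⟩ := prop (lam 0) (lam 1) (hlam 0)
    (fun h => hNP s hs ![p 0, p 1, p 2] (lam 0) (lam 1) u3 h v0 v1)
  obtain ⟨d, hd⟩ := prop (lam 0) (lam 2) (hlam 0)
    (fun h => hNP s hs ![p 0, p 1, p 2] (lam 0) (lam 2) u3 h v0 v2)
  have hc0 : c ≠ 0 := by
    intro h0
    rw [h0, zero_smul] at hc
    exact hlam 1 hc
  have hd0 : d ≠ 0 := by
    intro h0
    rw [h0, zero_smul] at hd
    exact hlam 2 hd
  refine hRK s hs (lam 0) (hlam 0) (p 0 - c • p 1) (p 0 - d • p 2) ?_ ?_ ?_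
  · rw [LinearIndependent.pair_iff]
    intro x y hxy
    have h1 : (x + y) • p 0 + (-(x * c)) • p 1 + (-(y * d)) • p 2 = 0 := by
      rw [← hxy]; module
    obtain ⟨-, h2, h4⟩ := h3' 0 1 2 (by decide) (by decide) (by decide) _ _ _ h1
    exact ⟨(mul_eq_zero.1 (neg_eq_zero.1 h2)).resolve_right hc0,
      (mul_eq_zero.1 (neg_eq_zero.1 h4)).resolve_right hd0⟩
  · rw [cov_sub_right, cov_smul_right, ← cov_smul_left, ← hc, heq, heq, sub_self]
  · rw [cov_sub_right, cov_smul_right, ← cov_smul_left, ← hd, heq, heq, sub_self]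

end Pool.Agent.Work.MP_ea8963_ag.G5
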