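import Pool.Agent.Work.MP_ea8963_ag.G5.Stmts2

/-!
Block [ea8963 G5], item STX: strict differentiability of the equations.  Author helper62.
-/

set_option linter.style.longLine false
set_option linter.unusedVariables false

noncomputable section

open Module Topology

namespace Pool.Agent.Work.MP_ea8963_ag.G5

namespace I_STX

lemma pOf_add (y dy : Y) (t : ℂ) (i : Fin 4) : pOf (y + t • dy) i = pOf y i + t • pOf dy i := by
  ext k; simp [pOf]

lemma laOf_add (y dy : Y) (t : ℂ) (i : Fin 4) : laOf (y + t • dy) i = laOf y i + t • laOf dy i := by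
  ext k; simp [laOf]

/-- second coefficient of `om` -/
def o2 (s : T3) (dy : Y) (i : Fin 4) : E := cov s (laOf dy i) (pOf dy i)

lemma om_add (s : T3) (y dy : Y) (t : ℂ) (i : Fin 4) :
    om s (y + t • dy) i = om s y i + t • dom s y dy i + t ^ 2 • o2 s dy i := by
  unfold om dom o2
  rw [pOf_add, laOf_add]
  simp only [cov_add_left, cov_add_right, cov_smul_left, cov_smul_right]
  ext k
  simp only [Pi.add_apply, Pi.smul_apply, smul_eq_mul]
  ring

/-- second coefficient -/
def r2 (s : T3) (dy : Y) : Z30 :=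
  (fun i k => tri s (Pi.single k 1) (pOf dy i) (pOf dy i), fun j => o2 s dy 0 - o2 s dy j.succ)

lemma Phi_add (s : T3) (y dy : Y) (t : ℂ) :
    Phi s (y + t • dy) = Phi s y + t • dPhi s y dy + t ^ 2 • r2 s dy := by
  unfold Phi dPhi r2
  refine Prod.ext ?_ ?_
  · funext i k
    simp only [pOf_add, tri_add2, tri_add3, tri_smul2, tri_smul3, Prod.fst_add,
      Prod.smul_fst, Pi.add_apply, Pi.smul_apply, smul_eq_mul]
    ring
  · funext j k
    simp only [om_add, Pi.sub_apply,
      Prod.snd_add, Prod.smul_snd, Pi.add_apply, Pi.smul_apply, smul_eq_mul]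
    ring

lemma hasDeriv_poly {F : Type} [NormedAddCommGroup F] [NormedSpace ℂ F] (a b c : F) :
    HasDerivAt (fun t : ℂ => a + t • b + t ^ 2 • c) b 0 := by
  have h1 : HasDerivAt (fun t : ℂ => t • b) b 0 := by
    simpa using (hasDerivAt_id (0 : ℂ)).smul_const b
  have h2 : HasDerivAt (fun t : ℂ => t ^ 2 • c) 0 0 := by
    simpa using (hasDerivAt_pow 2 (0 : ℂ)).smul_const c
  have h := (h1.const_add a).add h2
  exact h.congr_deriv (by simp)

lemma hasDeriv_Phi (s : T3) (y dy : Y) :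
    HasDerivAt (fun t : ℂ => Phi s (y + t • dy)) (dPhi s y dy) 0 := by
  have h := hasDeriv_poly (Phi s y) (dPhi s y dy) (r2 s dy)
  have e : (fun t : ℂ => Phi s (y + t • dy)) =
      fun t : ℂ => Phi s y + t • dPhi s y dy + t ^ 2 • r2 s dy :=
    funext fun t => Phi_add s y dy t
  rw [e]; exact h

lemma cd_y (i : Fin 4) (k : Fin 9) : ContDiff ℂ 1 (fun z : T3 × Y => z.2 i k) := by fun_prop

lemma cd_p (i : Fin 4) (k : Fin 6) : ContDiff ℂ 1 (fun z : T3 × Y => pOf z.2 i k) := by
  unfold pOf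
  exact cd_y i _

lemma cd_la (i : Fin 4) (k : Fin 3) : ContDiff ℂ 1 (fun z : T3 × Y => laOf z.2 i k) := by
  unfold laOf
  exact cd_y i _

lemma cd_s (k : Fin 3) (i j : Fin 6) : ContDiff ℂ 1 (fun z : T3 × Y => z.1 k i j) := by fun_prop

/-- `cov` of smooth functions is smooth -/
lemma cd_cov {a : T3 × Y → La} {x : T3 × Y → E} (ha : ∀ k, ContDiff ℂ 1 (fun z => a z k))
    (hx : ∀ i, ContDiff ℂ 1 (fun z => x z i)) :
    ContDiff ℂ 1 (fun z : T3 × Y => cov z.1 (a z) (x z)) := by
  rw [contDiff_pi]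
  intro j
  unfold cov
  exact ContDiff.sum fun k _ => ContDiff.sum fun i _ => ((ha k).mul (hx i)).mul (cd_s k i j)

lemma cd_om (i : Fin 4) : ContDiff ℂ 1 (fun z : T3 × Y => om z.1 z.2 i) :=
  cd_cov (fun k => cd_la i k) (fun k => cd_p i k)

lemma cd_tri (i : Fin 4) (k : Fin 3) :
    ContDiff ℂ 1 (fun z : T3 × Y => tri z.1 (Pi.single k 1) (pOf z.2 i) (pOf z.2 i)) := by
  unfold tri dotProduct
  exact ContDiff.sum fun a _ =>
    ((contDiff_pi.1 (cd_cov (a := fun _ => Pi.single k 1) (x := fun z => pOf z.2 i)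
      (fun _ => contDiff_const) (fun m => cd_p i m))) a).mul (cd_p i a)

lemma cd_Phi : ContDiff ℂ 1 (fun z : T3 × Y => Phi z.1 z.2) := by
  unfold Phi
  exact (contDiff_pi.2 fun i => contDiff_pi.2 fun k => cd_tri i k).prodMk
    (contDiff_pi.2 fun j => (cd_om 0).sub (cd_om j.succ))

end I_STX

open I_STX in
/-- `Phi` is strictly differentiable, with the right partial derivative. -/
theorem STX_pf : STX := by
  intro s y
  have h : HasStrictFDerivAt (fun z : T3 × Y => Phi z.1 z.2)
      (fderiv ℂ (fun z : T3 × Y => Phi z.1 z.2) (s, y)) (s, y) :=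
    (cd_Phi.contDiffAt).hasStrictFDerivAt (by norm_num)
  refine ⟨_, h, fun dy => ?_⟩
  have hl : HasDerivAt (fun t : ℂ => ((s, y + t • dy) : T3 × Y)) (0, dy) 0 := by
    refine (hasDerivAt_const (0 : ℂ) s).prodMk ?_
    simpa using ((hasDerivAt_id (0 : ℂ)).smul_const dy).const_add y
  have hc := (h.hasFDerivAt).comp_hasDerivAt_of_eq (0 : ℂ) hl (by simp)
  exact hc.unique (hasDeriv_Phi s y dy)

end Pool.Agent.Work.MP_ea8963_ag.G5
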