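import Pool.Agent.Work.MP_ea8963_ag.G5.Stmts2
import Pool.Agent.Work.MP_ea8963_ag.G4.Stmts2

/-!
Block [ea8963 G5], item XNX: configurations exist on nearby symmetric nets (helper57).
-/

set_option linter.style.longLine false

noncomputable section

open Module Topology

namespace Pool.Agent.Work.MP_ea8963_ag.G5

namespace I_XNX

/-- the equations hold at a configuration -/
lemma Phi_eq_zero {s : T3} {y : Y} (h : CfgY s y) : Phi s y = 0 := by
  have h1 : (fun (i : Fin 4) (k : Fin 3) => tri s (Pi.single k 1) (pOf y i) (pOf y i)) =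
      (0 : Fin 4 → Fin 3 → ℂ) := funext fun i => funext fun k => h.q0 i _
  have h2 : (fun j : Fin 3 => om s y 0 - om s y j.succ) = (0 : Fin 3 → E) :=
    funext fun j => sub_eq_zero.2 (h.eq j.succ).symm
  exact Prod.ext h1 h2

end I_XNX

/-- ITEM XNX -/
theorem XNX_pf (hSUX : SUX) (hSTX : STX) (hIFX : G4.IFX) (hCOX : COX) : XNX := by
  intro s hs y hy
  have hc := hCOX s y hy
  obtain ⟨g', hg, hg'⟩ := hSTX s y
  rw [nhds_prod_eq] at hc
  obtain ⟨pa, ha, pb, hb, hab⟩ := Filter.eventually_prod_iff.1 hc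
  have h1 := hIFX T3 Y Z30 (fun z => Phi z.1 z.2) g' s y hg
    (fun z => by
      obtain ⟨dy, h⟩ := hSUX s hs y hy z
      exact ⟨dy, (hg' dy).trans h⟩) {y' | pb y'} hb
  filter_upwards [h1, ha] with s' h2 hs' _
  obtain ⟨y', hy', he⟩ := h2
  exact ⟨y', hab hs' hy' (he.trans (I_XNX.Phi_eq_zero hy))⟩

end Pool.Agent.Work.MP_ea8963_ag.G5
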