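import Pool.Agent.Work.MP_ea8963_ag.G5.Basic

/-!
Block [ea8963 G5]: linear algebra tools in `Fin n → ℂ` (all proved).
-/

set_option linter.style.longLine false
set_option linter.unusedSectionVars false

noncomputable section

open Module
open Pool.Agent.Work.MP_ea8963_ag.G4 (D ZA mem_ZA Full cl rn rn_prod rn_le finrank_map_mono
  finrank_map_prod_swap pair d_two)

namespace Pool.Agent.Work.MP_ea8963_ag.G5

variable {n : ℕ}

/-- the common kernel of the covectors `a i` -/
def Ann {ι : Type*} (a : ι → Fin n → ℂ) : Submodule ℂ (Fin n → ℂ) where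
  carrier := {x | ∀ i, a i ⬝ᵥ x = 0}
  zero_mem' := by intro i; simp
  add_mem' := by
    intro x y hx hy i
    have h1 : a i ⬝ᵥ x = 0 := hx i
    have h2 : a i ⬝ᵥ y = 0 := hy i
    simp [dotProduct_add, h1, h2]
  smul_mem' := by
    intro c x hx i
    have h1 : a i ⬝ᵥ x = 0 := hx i
    simp [dotProduct_smul, h1]

lemma mem_Ann {ι : Type*} {a : ι → Fin n → ℂ} {x : Fin n → ℂ} :
    x ∈ Ann a ↔ ∀ i, a i ⬝ᵥ x = 0 := Iff.rfl

/-- `x ↦ (a i ⬝ᵥ x)_i` -/
def dotL {k : ℕ} (a : Fin k → Fin n → ℂ) : (Fin n → ℂ) →ₗ[ℂ] (Fin k → ℂ) :=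
  Matrix.mulVecLin (Matrix.of a)

lemma dotL_apply {k : ℕ} (a : Fin k → Fin n → ℂ) (x : Fin n → ℂ) (i : Fin k) :
    dotL a x i = a i ⬝ᵥ x := rfl

lemma dotL_surjective {k : ℕ} {a : Fin k → Fin n → ℂ} (ha : LinearIndependent ℂ a) :
    Function.Surjective (dotL a) := by
  have h1 : (Matrix.of a).rank = Fintype.card (Fin k) :=
    LinearIndependent.rank_matrix (M := Matrix.of a) ha
  rw [← LinearMap.range_eq_top]
  apply Submodule.eq_top_of_finrank_eq
  rw [Matrix.rank] at h1
  rw [dotL, h1]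
  simp

/-- linear systems with independent rows are solvable -/
lemma exists_solution {k : ℕ} {a : Fin k → Fin n → ℂ} (ha : LinearIndependent ℂ a)
    (y : Fin k → ℂ) : ∃ x : Fin n → ℂ, ∀ i, a i ⬝ᵥ x = y i := by
  obtain ⟨x, hx⟩ := dotL_surjective ha y
  exact ⟨x, fun i => congrFun hx i⟩

lemma finrank_Ann {k : ℕ} {a : Fin k → Fin n → ℂ} (ha : LinearIndependent ℂ a) :
    finrank ℂ (Ann a) + k = n := by
  have h1 := LinearMap.finrank_range_add_finrank_ker (dotL a)
  rw [LinearMap.range_eq_top.2 (dotL_surjective ha)] at h1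
  have h2 : LinearMap.ker (dotL a) = Ann a := by
    ext x
    rw [LinearMap.mem_ker, mem_Ann]
    exact ⟨fun h i => congrFun h i, fun h => funext h⟩
  rw [h2] at h1
  simp at h1
  omega

/-- a submodule killed by `k` independent covectors has dimension at most `n - k` -/
lemma finrank_le_of_ann {k : ℕ} {a : Fin k → Fin n → ℂ} (ha : LinearIndependent ℂ a)
    {U : Submodule ℂ (Fin n → ℂ)} (hU : ∀ x ∈ U, ∀ i, a i ⬝ᵥ x = 0) : finrank ℂ U + k ≤ n := by
  have h1 := finrank_Ann ha
  have h2 : finrank ℂ U ≤ finrank ℂ (Ann a) := Submodule.finrank_mono (fun x hx => hU x hx)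
  omega

/-- double annihilator -/
lemma mem_span_of_ann {k : ℕ} {a : Fin k → Fin n → ℂ} (ha : LinearIndependent ℂ a)
    {c : Fin n → ℂ} (hc : ∀ x : Fin n → ℂ, (∀ i, a i ⬝ᵥ x = 0) → c ⬝ᵥ x = 0) :
    c ∈ Submodule.span ℂ (Set.range a) := by
  by_contra hcon
  have h1 : LinearIndependent ℂ (Fin.cons c a : Fin (k + 1) → Fin n → ℂ) :=
    linearIndependent_finCons.2 ⟨ha, hcon⟩
  obtain ⟨x, hx⟩ := exists_solution h1 (Fin.cons 1 0)
  have h2 : c ⬝ᵥ x = 1 := by simpa using hx 0
  have h3 : c ⬝ᵥ x = 0 := hc x (fun i => by simpa using hx i.succ)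
  rw [h2] at h3
  exact one_ne_zero h3

/-- separation -/
lemma exists_sep {k : ℕ} {a : Fin k → Fin n → ℂ} (ha : LinearIndependent ℂ a) {c : Fin n → ℂ}
    (hc : c ∉ Submodule.span ℂ (Set.range a)) :
    ∃ x : Fin n → ℂ, (∀ i, a i ⬝ᵥ x = 0) ∧ c ⬝ᵥ x = 1 := by
  have h1 : LinearIndependent ℂ (Fin.cons c a : Fin (k + 1) → Fin n → ℂ) :=
    linearIndependent_finCons.2 ⟨ha, hc⟩
  obtain ⟨x, hx⟩ := exists_solution h1 (Fin.cons 1 0)
  exact ⟨x, fun i => by simpa using hx i.succ, by simpa using hx 0⟩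

/-- a dual family -/
lemma exists_dual {k : ℕ} {p : Fin k → Fin n → ℂ} (hp : LinearIndependent ℂ p) :
    ∃ a : Fin k → Fin n → ℂ, ∀ i j, a i ⬝ᵥ p j = if i = j then 1 else 0 := by
  have h := fun i => exists_solution hp (fun j => if i = j then (1 : ℂ) else 0)
  choose a ha using h
  exact ⟨a, fun i j => by rw [dotProduct_comm]; exact ha i j⟩

lemma dot_ext {x y : Fin n → ℂ} (h : ∀ a : Fin n → ℂ, a ⬝ᵥ x = a ⬝ᵥ y) : x = y := by
  ext i
  have := h (Pi.single i 1)
  simpa using this

lemma eq_zero_of_dot {x : Fin n → ℂ} (h : ∀ a : Fin n → ℂ, a ⬝ᵥ x = 0) : x = 0 :=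
  dot_ext (by simpa using h)

/-! ### determinants in `La` -/

/-- three parameters are independent iff their determinant is not zero (one direction: they span) -/
lemma dot_eq_zero_of_dt {a b c : La} (h : dt a b c ≠ 0) {x : La} (ha : x ⬝ᵥ a = 0)
    (hb : x ⬝ᵥ b = 0) (hc : x ⬝ᵥ c = 0) : x = 0 := by
  apply eq_zero_of_dot
  intro d
  have h1 := congrArg (fun y => x ⬝ᵥ y) (dt_cramer a b c d)
  simp only [dotProduct_smul, dotProduct_add, ha, hb, hc, smul_eq_mul, mul_zero, add_zero] at h1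
  rw [dotProduct_comm]
  exact (mul_eq_zero.1 h1).resolve_left h

lemma tri_zero_of_dt {s : T3} {a b c : La} (h : dt a b c ≠ 0) {x y : E} (ha : tri s a x y = 0)
    (hb : tri s b x y = 0) (hc : tri s c x y = 0) (d : La) : tri s d x y = 0 := by
  have h1 := congrArg (fun z => tri s z x y) (dt_cramer a b c d)
  simp only [tri_smul1, tri_add1, ha, hb, hc, mul_zero, add_zero] at h1
  exact (mul_eq_zero.1 h1).resolve_left h

lemma cov_zero_of_dt {s : T3} {a b c : La} (h : dt a b c ≠ 0) {x : E} (ha : cov s a x = 0)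
    (hb : cov s b x = 0) (hc : cov s c x = 0) (d : La) : cov s d x = 0 := by
  have h1 := congrArg (fun z => cov s z x) (dt_cramer a b c d)
  simp only [cov_smul_left, cov_add_left, ha, hb, hc, smul_zero, add_zero] at h1
  exact (smul_eq_zero.1 h1).resolve_left h

lemma dt_ne_of_ind {v : Fin 3 → La} (h : LinearIndependent ℂ v) : dt (v 0) (v 1) (v 2) ≠ 0 := by
  intro h0
  rw [Fintype.linearIndependent_iff] at h
  -- the vectors lie in a plane
  by_cases hc : cr (v 1) (v 2) = 0
  · -- v 1 and v 2 are proportional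
    have h1 := congrFun hc 0
    have h2 := congrFun hc 1
    have h3 := congrFun hc 2
    simp only [cr, Matrix.cons_val_zero, Matrix.cons_val_one, Matrix.cons_val, Pi.zero_apply] at h1 h2 h3
    have key : ∀ i : Fin 3, v 2 i • v 1 - v 1 i • v 2 = 0 := by
      intro i
      ext j
      fin_cases i <;> fin_cases j <;> simp <;> first | ring1 | linear_combination h1 | linear_combination h2 | linear_combination h3 | linear_combination -h1 | linear_combination -h2 | linear_combination -h3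
    have h4 : ∀ i, v 1 i = 0 := by
      intro i
      have := h ![0, v 2 i, -v 1 i] (by
        rw [Fin.sum_univ_three]
        simp only [Matrix.cons_val_zero, Matrix.cons_val_one, Matrix.cons_val, zero_smul, zero_add,
          neg_smul]
        rw [← sub_eq_add_neg]
        exact key i) 2
      simpa using this
    have := h ![0, 1, 0] (by
      rw [Fin.sum_univ_three]
      have : v 1 = 0 := funext h4
      simp [this]) 1
    simp at this
  · obtain ⟨d, hd⟩ : ∃ d : La, dt d (v 1) (v 2) ≠ 0 := by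
      by_contra hcon
      push Not at hcon
      exact hc (eq_zero_of_dot hcon)
    have h1 := dt_cramer (v 0) (v 1) (v 2) d
    rw [h0, zero_smul] at h1
    have := h ![dt d (v 1) (v 2), dt (v 0) d (v 2), dt (v 0) (v 1) d] (by
      rw [Fin.sum_univ_three]
      simp only [Matrix.cons_val_zero, Matrix.cons_val_one, Matrix.cons_val]
      exact h1.symm) 0
    exact hd (by simpa using this)

end Pool.Agent.Work.MP_ea8963_ag.G5
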