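import Pool.Agent.Work.MP_ea8963_ag.G5.Defs

/-!
Block [ea8963 G5]: statements of the items, parts A and B.  Captain helper99.

THEOREM (goal). `X = {f 0 = f 1 = f 2 = 0}` in P^5, three quadratic forms whose 63 coefficients are
algebraically independent over the rationals (the very general K3 surface of genus 5).  The locus of
hyperplane sections with exactly four singular points, all of them nodes, is non-empty and
irreducible.

METHOD.  `D` = derivations of the complex numbers.  A tuple `x` is generic over a field iff all its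
formal derivatives occur.  All dimension counts are the lemmas `rn`, `rn_prod`, `rn_le` (G4/Lin):
  dim f(W) + dim g(W cap ker f) = dim g(W) + dim f(W cap ker g),
  dim (f,g)(W) = dim f(W) + dim g(W cap ker f),  dim f(W) ≤ dim g(W) + dim f(W cap ker g)
for linear maps `f`, `g` on a space `W` of derivations, and `pair` (left and right kernel of a
pairing).  `n` denotes `finrank SymT` (= 63, the value is used only at the end).
-/

set_option linter.style.longLine false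
set_option linter.unusedVariables false

noncomputable section

open Module Topology
open Pool.Agent.Work.MP_ea8963_ag.G4 (D ZA mem_ZA Full cl rn rn_prod rn_le finrank_map_mono
  finrank_map_prod_swap pair d_two ZA_mono)

namespace Pool.Agent.Work.MP_ea8963_ag.G5

/-! ## Linear algebra of nets -/

/-- ITEM DEC (decomposition of nets vanishing on a subspace).
Proof: `exists_dual` gives `w j` with `w i ⬝ᵥ a j = δ i j`.  For every `x`,
`x - ∑ j, (a j ⬝ᵥ x) • w j` is in `Ann a`.  Put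
`r j k = cov t e_k (w j) - (1/2) ∑ m, tri t e_k (w j) (w m) • a m` (`e_k = Pi.single k 1`).  Then for
all `e, x, y` (`tri_pr`, symmetry of `t`)
`∑ j, ((a j ⬝ᵥ x) (con (r j) e ⬝ᵥ y) + (con (r j) e ⬝ᵥ x) (a j ⬝ᵥ y)) = ∑ j, (a j ⬝ᵥ x) tri t e (w j) y
+ ∑ j, (a j ⬝ᵥ y) tri t e x (w j) - ∑ j m, (a j ⬝ᵥ x) (a m ⬝ᵥ y) tri t e (w j) (w m) = tri t e x y`,
the last step by expanding `0 = tri t e (x - ..) (y - ..)`.  `net_ext`. -/
def DEC : Prop := ∀ (k : ℕ) (a : Fin k → E), LinearIndependent ℂ a → ∀ t ∈ KU (Ann a),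
  ∃ r : Fin k → Fin 3 → E, t = ∑ j, pr (a j) (r j)

/-- ITEM N63.  Proof: the linear map `(Fin 3 × {q : Fin 6 × Fin 6 // q.1 ≤ q.2} → ℂ) → SymT`,
`x ↦ (k i j ↦ x (k, (min i j, max i j)))` is injective; the domain has 3 * 21 elements
(`decide` or `rfl` for the cardinality). -/
def N63 : Prop := 63 ≤ finrank ℂ SymT

/-- ITEM GKP: number of conditions, any number of points.
Proof: lemma `pair` with `M = SymT`, `M' = (Fin n → E) × (Fin n → La)` (dimension `9 n`),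
`φ (v, mu) = (t ↦ ∑ i, (tri t (lam i) (p i) (v i) + tri t (mu i) (p i) (p i)))`; the coannihilator
of the range is (isomorphic to) `K1 p lam`.  Kernel of `φ`: let `a` be the dual family of `p`
(`exists_dual`).  Test `t = sp c (a i) g` (`tri_sp`): for all `c`, `g`:
`(c ⬝ᵥ lam i) (g ⬝ᵥ v i) + ∑ j, (c ⬝ᵥ lam j) (a i ⬝ᵥ v j) (g ⬝ᵥ p j) + 2 (c ⬝ᵥ mu i) (g ⬝ᵥ p i) = 0`.
With `g` killing all `p j` : `g ⬝ᵥ v i = 0` (choose `c` with `c ⬝ᵥ lam i ≠ 0`), so (`exists_sep`)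
`v i = ∑ k, w i k • p k`.  Then `g = a k` (`k ≠ i`): `w i k • lam i + w k i • lam k = 0`; `g = a i`:
`2 (w i i • lam i + mu i) = 0`.  So `(v, mu)` is determined by the numbers `w i i` and, for each pair
`i < k` with `lam i` a multiple of `lam k`, by `w i k`; for the other pairs `w i k = w k i = 0`.  So
the kernel has dimension at most `n` + the number of such pairs. -/
def GKP : Prop := ∀ (n : ℕ) (p : Fin n → E) (lam : Fin n → La), LinearIndependent ℂ p →
  (∀ i, lam i ≠ 0) → ∀ S : Finset (Fin n × Fin n),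
  (∀ i k, i < k → (∃ c : ℂ, lam i = c • lam k) → (i, k) ∈ S) →
  finrank ℂ (K1 p lam) + 8 * n ≤ finrank ℂ SymT + S.card

/-- ITEM DKB: the dimension of `K_b`.
Proof: `pair` with `M = SymT`, `M' = RW l` (dimension 20 + 12 = 32, `finrank_Ann` for `![l]`; e.g.
`RW l ≃ (Fin 4 → Ann ![l]) × (Fin 4 → La)`), `φ = valL` restricted.  The coannihilator is
`KB p l lam`.  The kernel is exactly `Tri p lam` (which is contained in `RW l` because
`l ⬝ᵥ p i = 0`), of dimension 4: for the inclusion `⊆` see the proof of GKP (no two of the `lam i` are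
proportional). -/
def DKB : Prop := ∀ (p : Fin 4 → E) (l : E) (lam : Fin 4 → La), LinearIndependent ℂ p → l ≠ 0 →
  (∀ i, l ⬝ᵥ p i = 0) → (∀ i, lam i ≠ 0) → (∀ i k, i ≠ k → ∀ c : ℂ, lam i ≠ c • lam k) →
  finrank ℂ (KB p l lam) + 28 = finrank ℂ SymT ∧
  (∀ x ∈ RW l, (∀ t ∈ SymT, val p lam t x = 0) → x ∈ Tri p lam)

/-! ## Part A: counts for one configuration -/

/-- ITEM SMX (`GKP → SMX`): the surface is smooth.
Proof: suppose `cov s a q = 0`, `a ≠ 0`.  Scale `q` and `a`: `q j = 1`, `a k = 1`.  `rn_le` with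
`f = evT s`, `g = (evE q).prod (evE a)`, `W = ⊤` (`Gen.map_evT`): `n ≤ dim g(⊤) + dim f(ker g)`.
`g(⊤)`: `(δ q) j = 0`, `(δ a) k = 0`: dimension ≤ 5 + 2.  If `δ` kills `q` and `a` then
`t = dT δ s` satisfies `cov t a q = 0` and `tri t e q q = 0` for all `e` (`dE_cov`, `d_tri`), i.e.
`t ∈ K1 ![q] ![a]`, of dimension ≤ n - 8 (`GKP` with `n = 1`, `S = ∅`).  `n ≤ 7 + n - 8` is absurd. -/
def SMX : Prop := ∀ s, Gen s → ∀ q : E, q ≠ 0 → (∀ a : La, tri s a q q = 0) →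
  ∀ a : La, cov s a q = 0 → a = 0

/-- ITEM RKF: every form of the net has rank at least 5.
Proof: a 2x2 minor of `![u, v]` is not zero: replace `u, v` by a basis of the same plane with
`u i = 1, u j = 0, v i = 0, v j = 1`; scale `a k = 1`.  `rn_le` with `f = evT s`, `W = ⊤`,
`g = ((evE u).prod (evE v)).prod (evE a)`: `g(⊤)` has dimension ≤ 4 + 4 + 2.  If `δ` kills `u, v, a`
then `t = dT δ s` satisfies `cov t a u = 0 = cov t a v`; the space of these `t` in `SymT` has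
dimension ≤ n - 11: `pair` with `M' = E × E` (12), `φ (x, y) = (t ↦ tri t a u x + tri t a v y)`,
whose kernel is the line of `(v, -u)` (test nets `sp c f g` with `c ⬝ᵥ a ≠ 0`). -/
def RKF : Prop := ∀ s, Gen s → ∀ a : La, a ≠ 0 → ∀ u v : E, LinearIndependent ℂ ![u, v] →
  cov s a u = 0 → cov s a v = 0 → False

/-- ITEM NLX: there is no line in the surface.
Proof: replace `u, v` by another basis of the same plane with `u i = 1, u j = 0, v i = 0, v j = 1`.
`rn_le` with `f = evT s`, `W = ⊤`, `g = (evE u).prod (evE v)`: `g(⊤)` has dimension ≤ 8.  If `δ` kills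
`u, v`: `t = dT δ s` vanishes on the plane: these `t` in `SymT` have dimension ≤ n - 9 (`pair` with
`M' = La × La × La`, `φ (a, b, c) = tri t a u u + tri t b u v + tri t c v v` injective: test nets
`sp e f g`, `f, g` from the dual family of `![u, v]`). -/
def NLX : Prop := ∀ s, Gen s → ∀ u v : E, LinearIndependent ℂ ![u, v] →
  (∀ a, tri s a u u = 0) → (∀ a, tri s a u v = 0) → (∀ a, tri s a v v = 0) → False

/-- ITEM NPX: there is no plane on which the net has rank at most one.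
Proof: a 3x3 minor of `u` is not zero: replace `u 0, u 1, u 2` by another basis of the same space with
`u i (c j) = δ i j` (three columns `c`); in the same way `a, b` by a basis of the same plane of
parameters with `a i = 1, a j = 0, b i = 0, b j = 1`.  `rn_le` with `f = evT s`, `W = ⊤`,
`g = (evP u).prod ((evE a).prod (evE b))`: dimension of `g(⊤)` ≤ 9 + 2.  If `δ` kills `u, a, b` then
`t = dT δ s` has `tri t a (u i) (u j) = 0 = tri t b (u i) (u j)`: dimension ≤ n - 12 (`pair` with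
`M' = ℂ^6 × ℂ^6`, pairs `i ≤ j`; injective by the test nets `sp e f g`, `f, g` in the dual family of
`u`, `e` in the dual family of `![a, b]`). -/
def NPX : Prop := ∀ s, Gen s → ∀ (u : Fin 3 → E) (a b : La), LinearIndependent ℂ u →
  LinearIndependent ℂ ![a, b] → (∀ i j, tri s a (u i) (u j) = 0) →
  (∀ i j, tri s b (u i) (u j) = 0) → False

/-- ITEM PIX (`RKF → NLX → NPX → PIX`): four singular points of a section are independent.
Proof: `l ⬝ᵥ p i = 0` (as `l = cov s (lam i) (p i)`), `lam i ≠ 0`.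
(1) any three are independent: otherwise (pairwise independent) `p k = α • p i + β • p j`, `α, β ≠ 0`,
so `0 = tri s a (p k) (p k) = 2 α β tri s a (p i) (p j)` for all `a`: `NLX` for `p i, p j`.
(2) suppose `p 3 = ∑ i, c i • p i` (sum over `i < 3`), all `c i ≠ 0` by (1).  For `i < 3` and the other
two indices `j, k < 3`: `tri s (lam i) (p i) x = 0` for `x` in the span, and
`0 = tri s (lam i) (p 3) (p 3) = 2 c j c k tri s (lam i) (p j) (p k)`: so `s (lam i)` vanishes on the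
span of `p 0, p 1, p 2`, for `i < 3`.
(3) if `lam i, lam j` (`i, j < 3`) are independent: `NPX` for `u = p 0, p 1, p 2`.
(4) otherwise `lam 1 = c • lam 0`, `lam 2 = d • lam 0` (`c, d ≠ 0`), then
`cov s (lam 0) (p 0 - c • p 1) = l - l = 0` and `cov s (lam 0) (p 0 - d • p 2) = 0`: `RKF`
(`p 0 - c • p 1`, `p 0 - d • p 2` are independent by (1)). -/
def PIX : Prop := ∀ s, Gen s → ∀ (p : Fin 4 → E) (l : E) (lam : Fin 4 → La), l ≠ 0 →
  (∀ i a, tri s a (p i) (p i) = 0) → (∀ i, cov s (lam i) (p i) = l) → (∀ i, p i ≠ 0) →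
  (∀ i j, i ≠ j → ∀ c : ℂ, p i ≠ c • p j) → LinearIndependent ℂ p

/-- ITEM DTP.  Proof: `TP p l` is the kernel of the linear map `(dp, dl) ↦ (dl ⬝ᵥ p i + l ⬝ᵥ dp i)_i` to
`ℂ^4`, which is onto (take `dp = 0`, `exists_solution`); 30 - 4 = 26. -/
def DTP : Prop := ∀ (p : Fin 4 → E) (l : E), LinearIndependent ℂ p → finrank ℂ (TP p l) = 26

/-- ITEM LPX (`GKP → RKF → DTP → LPX`): no two of the parameters are proportional.
Proof: `lam i ≠ 0` (`l ≠ 0`).  If `lam i = c • lam k = d • lam j` for three different indices then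
`cov s (lam i) (p i - c⁻¹..)`: precisely `cov s (lam k) (p k - c • p i) = l - l = 0` and
`cov s (lam k) (p k - e • p j) = 0` (`lam k = e⁻¹..`, all proportional), two independent vectors:
`RKF`.  So the coinciding pairs are disjoint: there are one or two of them, `S` = the set of pairs
`i < k` with `lam i` a multiple of `lam k`, `|S| = 1` or `2`.  `rn` with `W = ⊤`, `f = evT s`,
`g = evC p l lam`: `n + 6 ≤ dim g(⊤) + dim f (ZC p l lam)` (on `ZS s` the rank of `evC` is at least that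
of `evB`).  `f (ZC) ≤ K1 p lam` (`Cfg.dT_mem_K1`), dimension ≤ n - 32 + |S| (`GKP`).
`g(⊤)` lies in `TP p l ×` (the space of `d : Fin 4 → La` such that `d i - c • d k` is a multiple of
`lam k` for each pair of `S`, because `lam i = c • lam k` and `dE_smul`), dimension ≤ 26 + 12 - 2 |S|.
`n + 6 ≤ 38 - 2 |S| + n - 32 + |S|` is absurd. -/
def LPX : Prop := ∀ s, Gen s → ∀ p l lam, Cfg s p l lam →
  6 ≤ finrank ℂ ((ZS s).map (evB p l)) → ∀ i k, i ≠ k → ∀ c : ℂ, lam i ≠ c • lam k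

/-- ITEM FLX (`GKP → DTP → FLX`).  Proof: `rn` with `W = ⊤`, `f = evT s`, `g = evC p l lam`:
`n + dim g (ZS s) = dim g(⊤) + dim f (ZC)`.  `g (ZS s)` has dimension at least that of
`evB p l (ZS s)` (equal, by `Cfg.dlam`), ≥ 6; `g(⊤)` lies in `TP p l × (Fin 4 → La)` (`Cfg.ev_mem`), of
dimension 26 + 12; `f (ZC) ≤ K1 p lam` (`Cfg.dT_mem_K1`), of dimension ≤ n - 32 (`GKP`, `S = ∅`).  So
all inequalities are equalities. -/
def FLX : Prop := ∀ s, Gen s → ∀ p l lam, Cfg s p l lam →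
  6 ≤ finrank ℂ ((ZS s).map (evB p l)) → (∀ i k, i ≠ k → ∀ c : ℂ, lam i ≠ c • lam k) →
  finrank ℂ ((ZS s).map (evB p l)) = 6 ∧
  (∀ x ∈ TP p l, ∀ d : Fin 4 → La, ∃ δ : D, evC p l lam δ = (x, d)) ∧
  (∀ t ∈ K1 p lam, ∃ δ ∈ ZC p l lam, dT δ s = t)

/-- ITEM GPX.  Proof: if `dt (lam i) (lam j) (lam k) = 0` then for every derivation
`dt (dE δ (lam i)) (lam j) (lam k) + dt (lam i) (dE δ (lam j)) (lam k) + .. = 0` (write out `dt_def`).
Take `x = 0`, `d i = e`, `d = 0` elsewhere, with `dt e (lam j) (lam k) ≠ 0`: such `e` exists because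
`cr (lam j) (lam k) ≠ 0` (otherwise `lam j`, `lam k` are proportional). -/
def GPX : Prop := ∀ p l (lam : Fin 4 → La), (∀ i k, i ≠ k → ∀ c : ℂ, lam i ≠ c • lam k) →
  (∀ x ∈ TP p l, ∀ d : Fin 4 → La, ∃ δ : D, evC p l lam δ = (x, d)) → GP lam

/-- ITEM NSX (`DKB → NSX`): normalised parameters.  `lam1 i = (lam i 0)⁻¹ • lam i`.
Proof: (0) `lam i 0 ≠ 0`: take `δ` with `d i 0 = 1`; if `lam i 0 = 0` then `δ (lam i 0) = 0`.
(1) `fullB`: given `x`, `d` with `d i 0 = 0` take `δ` with `evC p l lam δ = (x, fun i => lam i 0 • d i)`;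
`δ (lam i 0) = 0`, so `dE δ (lam1 i) = (lam i 0)⁻¹ • dE δ (lam i) = d i`.
(2) `fullS`: let `t ∈ KB p l lam1`.  `cov t (lam i) (p i)` kills the hyperplane `l = 0`, so it is
`c i • l`.  Take `δ1` with `evC p l lam δ1 = (0, fun i => - c i • lam i)`, `t1 = dT δ1 s`.  By `Cfg.d_eq`
`cov t1 (lam i) (p i) = c i • l`, by `Cfg.d_q0` `tri t1 a (p i) (p i) = 0`: so `t - t1 ∈ K1 p lam`, take
`δ2 ∈ ZC p l lam` with `dT δ2 s = t - t1`, `δ = δ1 + δ2`: `dE δ (lam i) = - c i • lam i`, so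
`dE δ (lam1 i) = 0`.
(3) the last claim: `KB p l lam1 ≤ (ZC p l lam1).map (evT s)` by (2), and `DKB`. -/
def NSX : Prop := ∀ s ∈ SymT, ∀ p l lam, Cfg s p l lam →
  (∀ i k, i ≠ k → ∀ c : ℂ, lam i ≠ c • lam k) →
  (∀ x ∈ TP p l, ∀ d : Fin 4 → La, ∃ δ : D, evC p l lam δ = (x, d)) →
  (∀ t ∈ K1 p lam, ∃ δ ∈ ZC p l lam, dT δ s = t) →
  (∀ i, lam i 0 ≠ 0) ∧
  (∀ x ∈ TP p l, ∀ d : Fin 4 → La, (∀ i, d i 0 = 0) →
    ∃ δ : D, evC p l (fun i => (lam i 0)⁻¹ • lam i) δ = (x, d)) ∧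
  (∀ t ∈ KB p l (fun i => (lam i 0)⁻¹ • lam i), ∃ δ ∈ ZC p l (fun i => (lam i 0)⁻¹ • lam i),
    dT δ s = t) ∧
  finrank ℂ SymT ≤ finrank ℂ ((ZC p l (fun i => (lam i 0)⁻¹ • lam i)).map (evT s)) + 28

/-- ITEM CCX: existence of the coefficient matrix.
Proof: `a ↦ tri t a (p i) (p k)` vanishes at `lam i` and (symmetry) at `lam k`.  For `i ≠ k` choose
`j` different from both, `c i k = tri t (lam j) (p i) (p k) / dt (lam j) (lam i) (lam k)`: by
`dt_cramer (lam j) (lam i) (lam k) a` and linearity the equation holds for all `a`.  For `i = k` both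
sides are 0 (`c i i = 0`).  `anti`: evaluate at `lam j`, `tri_comm`, `dt_swap23`. -/
def CCX : Prop := ∀ (p : Fin 4 → E) (l : E) (lam : Fin 4 → La), GP lam → (∀ i, l ⬝ᵥ p i = 0) →
  ∀ t ∈ KB p l lam, ∃ c, CC p lam t c

/-- ITEM CFX (`CCX → CFX`).
Proof: `c` from `CCX`.  Let `a` be the dual family of `p` (`exists_dual`), `i ≠ k`, and
`t = sp (cr (lam i) (lam k)) (a i) (a k)`.  `t ∈ KB p l lam` by `tri_sp`: the factor
`cr (lam i) (lam k) ⬝ᵥ lam m` is zero for `m = i, k`, and for other `m`, `a i ⬝ᵥ p m = a k ⬝ᵥ p m = 0`.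
Take `δ ∈ ZC p l lam` with `dT δ s = t`; apply `δ` to
`tri s (lam j) (p i) (p k) = c i k * dt (lam j) (lam i) (lam k)` (`d_tri`; `δ` kills `p`, `lam`):
`δ (c i k) = 1`, so `c i k ≠ 0`; and `δ (c i' k') = 0` for the other pairs (`{i', k'} ≠ {i, k}`).
For `i = 0`, `k = 1`: `δ (Pf c) = c 2 3 ≠ 0`, so `Pf c ≠ 0`. -/
def CFX : Prop := ∀ s ∈ SymT, ∀ p l (lam : Fin 4 → La), LinearIndependent ℂ p → GP lam →
  (∀ i, l ⬝ᵥ p i = 0) → s ∈ KB p l lam → (∀ t ∈ KB p l lam, ∃ δ ∈ ZC p l lam, dT δ s = t) →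
  ∃ c, CC p lam s c ∧ (∀ i k, i ≠ k → c i k ≠ 0) ∧ Pf c ≠ 0

/-- ITEM RHO: the linear relation between four parameters in general position.
Proof: `ρ 0 = dt (lam 1) (lam 2) (lam 3)`, `ρ 1 = - dt (lam 0) (lam 2) (lam 3)`,
`ρ 2 = dt (lam 0) (lam 1) (lam 3)`, `ρ 3 = - dt (lam 0) (lam 1) (lam 2)` (`dt_cramer`).  Uniqueness:
if `∑ x i • lam i = 0` then `x - (x 3 / ρ 3) • ρ` is a relation between `lam 0, lam 1, lam 2`; pair with
`cr (lam 1) (lam 2)` etc. -/
def RHO : Prop := ∀ lam : Fin 4 → La, GP lam → ∃ ρ : Fin 4 → ℂ, (∀ i, ρ i ≠ 0) ∧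
  ∑ i, ρ i • lam i = 0 ∧ ∀ x : Fin 4 → ℂ, ∑ i, x i • lam i = 0 → ∃ κ : ℂ, x = κ • ρ

/-- ITEM RHP: a relation between the cross products of the parameters with one of them.
`Σ w k dt (a, lam i, lam k) = 0` for all `a` means `w k = g ρ k` for `k ≠ i`.
Proof: `∑ k, w k • lam k` (sum over `k ≠ i`) has zero cross product with `lam i`, so it is a multiple of
`lam i`; uniqueness in RHO. -/
def RHP : Prop := ∀ lam : Fin 4 → La, GP lam → ∀ ρ : Fin 4 → ℂ, (∀ i, ρ i ≠ 0) →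
  ∑ i, ρ i • lam i = 0 → (∀ x : Fin 4 → ℂ, ∑ i, x i • lam i = 0 → ∃ κ : ℂ, x = κ • ρ) →
  ∀ (i : Fin 4) (w : Fin 4 → ℂ), (∀ a, ∑ k, w k * dt a (lam i) (lam k) = 0) →
  ∃ g : ℂ, ∀ k, k ≠ i → w k = g * ρ k

/-- ITEM CNX (`RHO → CNX`): the span of the nodes meets the surface only in the nodes.
Proof: `ρ` from RHO.  The hypothesis says (`tri` expanded, `q0`, `CC`)
`∑ i, ∑ k, c i k * x i * x k * dt a (lam i) (lam k) = 0` for all `a`, i.e. twice the sum over `i < k`.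
With the weights `C i k = c i k / (ρ i ρ k)`, `L i = ρ i • lam i` (`∑ L i = 0`, `L 0, L 1, L 2`
independent): eliminate `L 3 = - L 0 - L 1 - L 2`; the coefficients of `cr (L 0) (L 1)`,
`cr (L 0) (L 2)`, `cr (L 1) (L 2)` give, with `e i k = C i k * x i * x k`,
`e 0 1 - e 0 3 + e 1 3 = 0`, `e 0 2 - e 0 3 + e 2 3 = 0`, `e 1 2 - e 1 3 + e 2 3 = 0`.
So `e 0 1 * e 2 3 - e 0 2 * e 1 3 + e 0 3 * e 1 2 = 0` (substitute), that is
`Pf c * x 0 * x 1 * x 2 * x 3 = 0` up to the factor `ρ 0 ρ 1 ρ 2 ρ 3`.  So some `x i = 0`; then the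
three equations give `e j k = 0` for the other indices `j, k`, so `x j x k = 0` for `j, k ≠ i`: at most
one coordinate is not zero. -/
def CNX : Prop := ∀ s ∈ SymT, ∀ (p : Fin 4 → E) (lam : Fin 4 → La), GP lam →
  (∀ i (a : La), tri s a (p i) (p i) = 0) →
  (∃ c, CC p lam s c ∧ (∀ i k, i ≠ k → c i k ≠ 0) ∧ Pf c ≠ 0) →
  ∀ x : Fin 4 → ℂ, (∀ a : La, tri s a (∑ i, x i • p i) (∑ i, x i • p i) = 0) →
    ∃ (j : Fin 4) (c : ℂ), ∑ i, x i • p i = c • p j

/-- the space of nets in `K_b` which are also (exactly) singular at `q` with parameter `a` -/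
def KQ (p : Fin 4 → E) (l : E) (lam : Fin 4 → La) (q : E) (a : La) : Submodule ℂ T3 :=
  KB p l lam ⊓ K1 ![q] ![a]

/-- ITEM NFK: number of conditions for a fifth point.
Proof: `pair` with `M = SymT`, `M' = RW l × (E × La)` (dimension 32 + 9),
`φ (x, v, mu) = (t ↦ val p lam t x + tri t a q v + tri t mu q q)`, coannihilator `KQ p l lam q a`.
Kernel: as in GKP for the five independent points `p, q` with the parameters `lam, a`: the vectors are
`∑` of the five points with coefficients `w`; all off-diagonal coefficients vanish except those of the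
pair `(q, p i)` when `a` is a multiple of `lam i` (at most one `i`).  So the kernel has dimension ≤ 5
(or ≤ 6 in the exceptional case): `dim KQ = n - 41 + 5` (resp. `+ 6`). -/
def NFK : Prop := ∀ (p : Fin 4 → E) (l : E) (lam : Fin 4 → La) (q : E) (a : La),
  LinearIndependent ℂ (Fin.cons q p : Fin 5 → E) → l ≠ 0 → (∀ i, l ⬝ᵥ p i = 0) → l ⬝ᵥ q = 0 →
  (∀ i, lam i ≠ 0) → (∀ i k, i ≠ k → ∀ c : ℂ, lam i ≠ c • lam k) → a ≠ 0 →
  finrank ℂ (KQ p l lam q a) + 35 ≤ finrank ℂ SymT ∧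
  ((∀ i (c : ℂ), a ≠ c • lam i) → finrank ℂ (KQ p l lam q a) + 36 ≤ finrank ℂ SymT)

/-- ITEM NFX (`NFK → NFX`): there is no fifth singular point.
Proof: if `q ∈ span (range p)`: `Opt.con`.  Suppose `q` is not in the span: `Fin.cons q p` is
independent.  `a ≠ 0` (`l ≠ 0`), `l ⬝ᵥ q = tri s a q q = 0`.  Scale: `q j = 1` for some `j` (replace
`q` by `x • q` and `a` by `x⁻¹ • a`).  `rn_le` with `W = ZC p l lam`, `f = evT s`,
`g = (evE q).prod (evE a)`; `n - 28 ≤ dim f(W)` (`Opt.rkS`).  `evE q (W)` is killed by `l` (`δ` kills `l`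
and `l ⬝ᵥ q = 0`) and by `Pi.single j 1` (independent: evaluate at `q`): dimension ≤ 4.  If `δ ∈ W`
kills `q` and `a` then `dT δ s ∈ KQ p l lam q a` (`Opt.dT_mem_KB`, `dE_cov` with `δ l = 0`, `d_tri`).
Case 1: `a` is not a multiple of any `lam i`: `n - 28 ≤ 4 + 3 + n - 36`, absurd.
Case 2: `a = c • lam i`: `dE δ a = δ c • lam i` for `δ ∈ W`, so `n - 28 ≤ 4 + 1 + n - 35`, absurd. -/
def NFX : Prop := ∀ s, Gen s → ∀ p l lam m, Opt s p l lam m → ∀ q : E, q ≠ 0 →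
  (∀ a, tri s a q q = 0) → ∀ a : La, cov s a q = l → ∃ (i : Fin 4) (c : ℂ), q = c • p i

/-! ## Part B: derivations over the field of `s`, two configurations -/

/-- ITEM LMX: if `l` is projectively constant then so are the nodes.
Proof: `Opt.d_eq` with `dT δ s = 0` and `l = (m i)⁻¹ • cov s (lam i) (p i)`:
`cov s (lam i) (dE δ (p i)) + cov s (dE δ (lam i) - κ • lam i) (p i) = 0` for a number `κ`; with
`Opt.tri_dE` apply `Nd.ker`. -/
def LMX : Prop := ∀ s ∈ SymT, ∀ p l lam m, Opt s p l lam m → ∀ δ ∈ ZS s, ∀ c : ℂ,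
  dE δ l = c • l → ∀ i, ∃ c' : ℂ, dE δ (p i) = c' • p i

/-- ITEM LNX (`LMX → LNX`).  Proof: otherwise all of `W.map (evB p l)` lies in the range of the
linear map `(Fin 4 → ℂ) × ℂ → (Fin 4 → E) × E`, `(c, d) ↦ (fun i => c i • p i, d • l)`, of
dimension ≤ 5. -/
def LNX : Prop := ∀ s ∈ SymT, ∀ p l lam m, Opt s p l lam m → ∀ W : Submodule ℂ D, W ≤ ZS s →
  6 ≤ finrank ℂ (W.map (evB p l)) → ∃ δ ∈ W, ∀ c : ℂ, dE δ l ≠ c • l

/-- ITEM NCX.  Proof: suppose `dE δ (p i) = c • p i`.  By `Opt.d_eq` (with `dT δ s = 0`) and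
`cov s (lam i) (p i) = m i • l`: `dE δ l` is `(m i)⁻¹ • cov s ν (p i)` plus a multiple of `l`,
`ν = dE δ (lam i)`.  Pair with `p k`, `k ≠ i`: `Opt.lp` and `Opt.dl_p` give `tri s ν (p i) (p k) = 0`,
so (`Opt.cf`) `dt ν (lam i) (lam k) = 0` for all `k ≠ i`.  Take two such `k`: `ν` is killed by
`cr (lam i) (lam k)`, `cr (lam i) (lam k')`, so it is a multiple of `lam i` (`Opt.gp`); as `ν 0 = 0`
(`Opt.dlam0`) and `lam i 0 = 1`, `ν = 0`.  Then `dE δ l` is a multiple of `l`, contradiction. -/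
def NCX : Prop := ∀ s ∈ SymT, ∀ p l lam m, Opt s p l lam m → ∀ δ ∈ ZS s,
  (∀ c : ℂ, dE δ l ≠ c • l) → ∀ i, ∀ c : ℂ, dE δ (p i) ≠ c • p i

/-- ITEM TWX (`LNX → NCX → TWX`): the nodes of the first section are not on the second hyperplane.
Proof: `LNX` for the second configuration and `W = ZS s ⊓ ZB p l`: `δ ∈ W` with `dE δ l'` not a
multiple of `l'`.  Suppose `l' ⬝ᵥ p i = 0`.  Then `dE δ l' ⬝ᵥ p i = 0` (`dE δ (p i) = 0`).
`l', dE δ l'` are independent and kill `p' 0, .., p' 3` (`Opt.lp`, `Opt.dl_p`), so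
`Ann ![l', dE δ l']` has dimension 4 and is the span of `p'`: `p i = ∑ x j • p' j`.  `Opt.con` (for
`p'`, with `q0`): `p i = c • p' j`, `c ≠ 0` (`p i ≠ 0`), so `p' j = c⁻¹ • p i` and
`dE δ (p' j) = δ (c⁻¹) • p i` is a multiple of `p' j`: contradiction to `NCX`. -/
def TWX : Prop := ∀ s ∈ SymT, ∀ p l lam m p' l' lam' m', Opt s p l lam m →
  Opt s p' l' lam' m' → 6 ≤ finrank ℂ ((ZS s ⊓ ZB p l).map (evB p' l')) →
  ∀ i, l' ⬝ᵥ p i ≠ 0

/-- ITEM CUX (`RHO → RHP → CUX`): a configuration is determined by the restriction of the net to a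
hyperplane `f = 0` through the nodes.
Proof: `U = {f = 0}`, `f ⬝ᵥ p i = 0` and `dE δ f = 0` give `f ⬝ᵥ dE δ (p i) = 0`.
(1) `Opt.d_q0`: `tri s a (p i) (dE δ (p i)) = 0` for all `a` (as `dT δ s` vanishes on `U`).
(2) `Opt.d_eq` paired with `x` in `U`:
`tri s (dE δ (lam i)) (p i) x + tri s (lam i) (dE δ (p i)) x = δ (m i) (l ⬝ᵥ x) + m i (dE δ l ⬝ᵥ x)`.
`x = p i`: by (1), `q0` and `Opt.lp`: `dE δ l ⬝ᵥ p i = 0`, so (`Opt.ev_mem`) `l ⬝ᵥ dE δ (p i) = 0`.
(3) `l, f` are independent and kill the span of `p`, which has dimension 4; so `dE δ l`, which kills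
the `p i`, is `c • l + d • f` (`mem_span_of_ann` for `p` and dimension 2), and `dE δ (p i)`, killed by
`l` and `f`, is `∑ k, w i k • p k`.
(4) (1) with `Opt.cf`: `∑ k, w i k * c i k * dt a (lam i) (lam k) = 0` for all `a`: `RHP`:
`w i k * c i k = g i * ρ k` for `k ≠ i`.
(5) (2) with `x = p k`, `k ≠ i`: `c i k * dt ν (lam i) (lam k) + ∑ m, w i m * c m k * dt (lam i) (lam m) (lam k) = 0`
(`ν = dE δ (lam i)`); multiply by `ρ k / c i k` and sum over `k ≠ i`: the first sum is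
`dt ν (lam i) (- ρ i • lam i) = 0`; substitute `w i m = g i * ρ m / c i m`: the rest is
`g i` times `2 * (± Pf c) / (product of the three c i k)` times non-zero factors (write the six terms
for `i = 0` with `dt (lam 0) (lam m) (lam k)` expressed by `ρ`: `ρ 1 dt(lam 0, lam 1, lam 3) =
- ρ 2 dt (lam 0, lam 2, lam 3)`, etc.).  So `g i = 0`, so `w i k = 0` for `k ≠ i`.
(6) so `dt ν (lam i) (lam k) = 0` for all `k ≠ i`, so `ν` is a multiple of `lam i`, so `ν = 0`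
(`Opt.dlam0`, `nrm`). -/
def CUX : Prop := ∀ s ∈ SymT, ∀ p l lam m, Opt s p l lam m → ∀ f : E, (∀ i, f ⬝ᵥ p i = 0) →
  LinearIndependent ℂ ![l, f] → ∀ δ : D, dE δ f = 0 → dT δ s ∈ KU (Ann ![f]) →
  (∀ i, ∃ c : ℂ, dE δ (p i) = c • p i) ∧ (∀ i, dE δ (lam i) = 0) ∧
  ∃ c d : ℂ, dE δ l = c • l + d • f

/-- ITEM NKA.  Proof: the space `R` of `r : Fin 3 → E` (dimension 18) with
`con r (lam i) ⬝ᵥ p i = 0` for `i = 0, .., 3` has dimension ≥ 14; `r ↦ pr f r` is linear, injective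
(`f ≠ 0`: if `pr f r = 0` then `f i * r k j + r k i * f j = 0`; take `i = j` with `f i ≠ 0`, then
general `j`), and maps `R` into the left side (`tri_pr`, `f ⬝ᵥ p i = 0`). -/
def NKA : Prop := ∀ (p : Fin 4 → E) (l : E) (lam : Fin 4 → La) (f : E), f ≠ 0 →
  (∀ i, f ⬝ᵥ p i = 0) → 14 ≤ finrank ℂ (KB p l lam ⊓ KU (Ann ![f]) : Submodule ℂ T3)

/-- ITEM NKB (`DEC → RHO → NKB`).
Proof: `DEC` with `a = ![f]`: every `t` in the left side is `pr f r`.  `tri t (lam i) (p i) v =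
(con r (lam i) ⬝ᵥ p i) (f ⬝ᵥ v)` for `l ⬝ᵥ v = 0`; there is such `v` with `f ⬝ᵥ v ≠ 0` (`f` is not a
multiple of `l`, because `l ⬝ᵥ p' 0 ≠ 0`), so `con r (lam i) ⬝ᵥ p i = 0`, same for the second
configuration.  The 8 functionals `r ↦ con r (lam i) ⬝ᵥ p i`, `r ↦ con r (lam' i) ⬝ᵥ p' i` on the
18-dimensional space have at most one relation `∑ α i (lam i ⊗ p i) + ∑ α' i (lam' i ⊗ p' i) = 0`:
take `r k = c k • l'`: `∑ α i (l' ⬝ᵥ p i) • lam i = 0`, so `α` is determined up to a factor (`RHO`), and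
if `α = 0` then `α' = 0` (dual family of `p'`).  So the rank is ≥ 7 (use `pair`). -/
def NKB : Prop := ∀ (p : Fin 4 → E) (l : E) (lam : Fin 4 → La) (p' : Fin 4 → E) (l' : E)
  (lam' : Fin 4 → La) (f : E), f ≠ 0 → LinearIndependent ℂ p → LinearIndependent ℂ p' → GP lam →
  GP lam' → (∀ i, lam' i ≠ 0) → (∀ i, f ⬝ᵥ p i = 0) → (∀ i, f ⬝ᵥ p' i = 0) →
  (∀ i, l ⬝ᵥ p i = 0) → (∀ i, l' ⬝ᵥ p' i = 0) → (∀ i, l' ⬝ᵥ p i ≠ 0) → (∀ i, l ⬝ᵥ p' i ≠ 0) →
  finrank ℂ (KB p l lam ⊓ KB p' l' lam' ⊓ KU (Ann ![f]) : Submodule ℂ T3) ≤ 11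

/-- ITEM NNX (`DKB → CUX → NKA → NKB → NNX`): no hyperplane contains all eight nodes.
Proof: scale `f`: `f j = 1`.  `W = ZC p l lam`, `F = (evT s).prod (evC p' l' lam')`.
(1) `rn_prod`: `dim F(W) = dim evT s (W) + dim evC' (W ⊓ ker evT s) ≥ (n - 28) + 6` (`Opt.rkS`;
`ZS s ⊓ ZB p l ≤ W ⊓ ZS s` by `Opt.inf_le_ZC`, and the rank of `evC'` is at least that of `evB'`).
(2) `rn_le`, `g = evE f`: `evE f (W)` is killed by `p 0, .., p 3` and `Pi.single j 1` (as covectors,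
independent): ≤ 1.  `W1 = W ⊓ ZE f`.
(3) `rn_le`, `g = (KU (Ann ![f])).mkQ ∘ evT s`: `g (W1)` lies in the image of `KB p l lam`
(`Opt.dT_mem_KB`), of dimension `dim KB - dim (KB ⊓ KU (Ann ![f])) ≤ (n - 28) - 14` (`DKB`, `NKA`).
`W2 = {δ ∈ W1 | dT δ s ∈ KU (Ann ![f])}`.
(4) `dim F(W2) = dim evC' (W2) + dim evT s (W2 ⊓ ZC')` (`rn_prod`, `finrank_map_prod_swap`); by `CUX`
for the second configuration (`f` is not a multiple of `l'` because `l' ⬝ᵥ p 0 ≠ 0`) `evC' (W2)` lies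
in the space of `((c i • p' i), c • l' + d • f), 0)`: ≤ 6; the second term is ≤ 11 (`NKB`).
`n - 22 ≤ 1 + (n - 42) + 6 + 11` is absurd. -/
def NNX : Prop := ∀ s, Gen s → ∀ p l lam m p' l' lam' m', Opt s p l lam m →
  Opt s p' l' lam' m' → 6 ≤ finrank ℂ ((ZS s ⊓ ZB p l).map (evB p' l')) →
  (∀ i, l' ⬝ᵥ p i ≠ 0) → (∀ i, l ⬝ᵥ p' i ≠ 0) → ∀ f : E, f ≠ 0 → (∀ i, f ⬝ᵥ p i = 0) →
  (∀ i, f ⬝ᵥ p' i = 0) → False

end Pool.Agent.Work.MP_ea8963_ag.G5
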