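import Pool.Agent.Work.MP_ea8963_ag.G5.Stmts

/-!
Block [ea8963 G5]: statements of the items, second half of part B (two configurations in general
position have no relation).  Captain helper99.

`b = (p, l, lam)`, `b' = (p', l', lam')` independent configurations, `N = span p = {l = h = 0}`,
`N' = span p' = {l' = h' = 0}`, `P = N cap N'` = `Ann ![l, h, l', h']`, of dimension 2.
-/

set_option linter.style.longLine false
set_option linter.unusedVariables false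

noncomputable section

open Module Topology
open Pool.Agent.Work.MP_ea8963_ag.G4 (D ZA mem_ZA Full cl rn rn_prod rn_le finrank_map_mono
  finrank_map_prod_swap pair d_two ZA_mono)

namespace Pool.Agent.Work.MP_ea8963_ag.G5

/-! ### Definitions -/

/-- everything we know about two independent configurations before the main count -/
structure Two (s : T3) (p : Fin 4 → E) (l : E) (lam : Fin 4 → La) (m : Fin 4 → ℂ)
    (p' : Fin 4 → E) (l' : E) (lam' : Fin 4 → La) (m' : Fin 4 → ℂ) (h h' : E) : Prop where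
  g : Gen s
  o : Opt s p l lam m
  o' : Opt s p' l' lam' m'
  rk : 6 ≤ finrank ℂ ((ZS s ⊓ ZB p l).map (evB p' l'))
  rk' : 6 ≤ finrank ℂ ((ZS s ⊓ ZB p' l').map (evB p l))
  t : ∀ i, l' ⬝ᵥ p i ≠ 0
  t' : ∀ i, l ⬝ᵥ p' i ≠ 0
  hp : ∀ i, h ⬝ᵥ p i = 0
  hp' : ∀ i, h' ⬝ᵥ p' i = 0
  fi : LinearIndependent ℂ ![l, h, l', h']

/-- one side: `N = span p = {l = h = 0}`, and two more forms `f`, `g` -/
structure Side (p : Fin 4 → E) (l : E) (lam : Fin 4 → La) (h f g : E) : Prop where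
  ind : LinearIndependent ℂ p
  gp : GP lam
  nrm : ∀ i, lam i 0 = 1
  lp : ∀ i, l ⬝ᵥ p i = 0
  hp : ∀ i, h ⬝ᵥ p i = 0
  fp : ∀ i, f ⬝ᵥ p i ≠ 0
  fi : LinearIndependent ℂ ![l, h, f, g]

/-- the plane `P` (of vectors) -/
def PP (l h f g : E) : Submodule ℂ E := Ann ![l, h, f, g]

/-- the Plücker coordinates of the pencil of forms `f`, `g` on `N` -/
def zz (f g : E) (p : Fin 4 → E) (i k : Fin 4) : ℂ := (g ⬝ᵥ p i) * (f ⬝ᵥ p k) - (g ⬝ᵥ p k) * (f ⬝ᵥ p i)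

/-- at most one pair has vanishing coordinate -/
def AM (z : Fin 4 → Fin 4 → ℂ) : Prop := ∀ i k i' k', i ≠ k → i' ≠ k' → z i k = 0 → z i' k' = 0 →
  (i = i' ∧ k = k') ∨ (i = k' ∧ k = i')

/-- `ρ` is the relation between the four parameters -/
def Rel (lam : Fin 4 → La) (ρ : Fin 4 → ℂ) : Prop := (∀ i, ρ i ≠ 0) ∧ ∑ i, ρ i • lam i = 0 ∧
  ∀ x : Fin 4 → ℂ, ∑ i, x i • lam i = 0 → ∃ κ : ℂ, x = κ • ρ

/-- possible derivatives of the parameters -/
def UD (s : T3) (p : Fin 4 → E) (A : Submodule ℂ XX) : Submodule ℂ (Fin 4 → La) where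
  carrier := {d | (∀ i, d i 0 = 0) ∧ ∀ x ∈ A, ∑ i, tri s (d i) (p i) (x.1 i) = 0}
  zero_mem' := ⟨fun i => rfl, fun x _ => by simp [tri_zero1]⟩
  add_mem' := by
    rintro x y ⟨h1, h2⟩ ⟨g1, g2⟩
    refine ⟨fun i => by rw [Pi.add_apply, Pi.add_apply, h1, g1, add_zero], fun z hz => ?_⟩
    simp only [Pi.add_apply, tri_add1, Finset.sum_add_distrib]
    rw [h2 z hz, g2 z hz, add_zero]
  smul_mem' := by
    rintro c x ⟨h1, h2⟩
    refine ⟨fun i => by rw [Pi.smul_apply, Pi.smul_apply, h1, smul_zero], fun z hz => ?_⟩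
    simp only [Pi.smul_apply, tri_smul1, ← Finset.mul_sum]
    rw [h2 z hz, mul_zero]

/-- the nets `t` in `K_b cap K_b'` whose functional `L_(x,t)` vanishes (`x` = the primed part of a
relation) -/
def QQ (p : Fin 4 → E) (l : E) (lam : Fin 4 → La) (p' : Fin 4 → E) (l' : E) (lam' : Fin 4 → La)
    (x : XX) : Submodule ℂ T3 where
  carrier := {t | t ∈ KB p l lam ⊓ KB p' l' lam' ∧ (∀ i a, tri t a (p' i) (x.1 i) = 0) ∧
    ∀ i w, l' ⬝ᵥ w = 0 → tri t (lam' i) (x.1 i) w + 2 * tri t (x.2 i) (p' i) w = 0}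
  zero_mem' := ⟨Submodule.zero_mem _, fun i a => tri_zero_tensor _ _ _, fun i w _ => by
    rw [tri_zero_tensor, tri_zero_tensor, mul_zero, add_zero]⟩
  add_mem' := by
    rintro y z ⟨h1, h2, h3⟩ ⟨g1, g2, g3⟩
    refine ⟨Submodule.add_mem _ h1 g1, fun i a => by rw [tri_add_tensor, h2, g2, add_zero],
      fun i w hw => ?_⟩
    rw [tri_add_tensor, tri_add_tensor]
    linear_combination h3 i w hw + g3 i w hw
  smul_mem' := by
    rintro c y ⟨h1, h2, h3⟩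
    refine ⟨Submodule.smul_mem _ c h1, fun i a => by rw [tri_smul_tensor, h2, mul_zero],
      fun i w hw => ?_⟩
    rw [tri_smul_tensor, tri_smul_tensor]
    linear_combination c * h3 i w hw

/-! ### Easy facts, proved here -/

lemma mem_PP {l h f g x : E} : x ∈ PP l h f g ↔
    l ⬝ᵥ x = 0 ∧ h ⬝ᵥ x = 0 ∧ f ⬝ᵥ x = 0 ∧ g ⬝ᵥ x = 0 := by
  rw [PP, mem_Ann]
  constructor
  · intro H
    exact ⟨H 0, H 1, H 2, H 3⟩
  · rintro ⟨h0, h1, h2, h3⟩ i
    fin_cases i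
    · exact h0
    · exact h1
    · exact h2
    · exact h3

lemma PP_comm (l h f g : E) : PP f g l h = PP l h f g := by
  ext x
  rw [mem_PP, mem_PP]
  tauto

lemma mem_UD {s : T3} {p : Fin 4 → E} {A : Submodule ℂ XX} {d : Fin 4 → La} : d ∈ UD s p A ↔
    (∀ i, d i 0 = 0) ∧ ∀ x ∈ A, ∑ i, tri s (d i) (p i) (x.1 i) = 0 := Iff.rfl

lemma fi_swap {l h f g : E} (H : LinearIndependent ℂ ![l, h, f, g]) :
    LinearIndependent ℂ ![f, g, l, h] := by
  have h1 := H.comp ![2, 3, 0, 1] (by decide)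
  have e : (![l, h, f, g] : Fin 4 → E) ∘ ![2, 3, 0, 1] = ![f, g, l, h] := by
    funext i
    fin_cases i <;> rfl
  rwa [e] at h1

lemma Two.swap {s : T3} {p : Fin 4 → E} {l : E} {lam : Fin 4 → La} {m : Fin 4 → ℂ}
    {p' : Fin 4 → E} {l' : E} {lam' : Fin 4 → La} {m' : Fin 4 → ℂ} {h h' : E}
    (H : Two s p l lam m p' l' lam' m' h h') : Two s p' l' lam' m' p l lam m h' h :=
  { g := H.g, o := H.o', o' := H.o, rk := H.rk', rk' := H.rk, t := H.t', t' := H.t, hp := H.hp',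
    hp' := H.hp, fi := fi_swap H.fi }

lemma Two.side {s : T3} {p : Fin 4 → E} {l : E} {lam : Fin 4 → La} {m : Fin 4 → ℂ}
    {p' : Fin 4 → E} {l' : E} {lam' : Fin 4 → La} {m' : Fin 4 → ℂ} {h h' : E}
    (H : Two s p l lam m p' l' lam' m' h h') : Side p l lam h l' h' :=
  { ind := H.o.ind, gp := H.o.gp, nrm := H.o.nrm, lp := H.o.lp, hp := H.hp, fp := H.t, fi := H.fi }

/-- rank-nullity for the quotient by `K` -/
lemma finrank_map_mkQ (Q K : Submodule ℂ T3) :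
    finrank ℂ (Q.map K.mkQ) + finrank ℂ (Q ⊓ K : Submodule ℂ T3) = finrank ℂ Q := by
  have h1 := LinearMap.finrank_range_add_finrank_ker (K.mkQ.comp Q.subtype)
  have h2 : LinearMap.range (K.mkQ.comp Q.subtype) = Q.map K.mkQ := by
    rw [LinearMap.range_comp, Submodule.range_subtype]
  have h3 : (LinearMap.ker (K.mkQ.comp Q.subtype)).map Q.subtype = Q ⊓ K := by
    ext x
    constructor
    · rintro ⟨⟨y, hy⟩, hyk, rfl⟩
      have : y ∈ K := by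
        have h4 : K.mkQ y = 0 := hyk
        rwa [Submodule.mkQ_apply, Submodule.Quotient.mk_eq_zero] at h4
      exact ⟨hy, this⟩
    · rintro ⟨hx, hk⟩
      refine ⟨⟨x, hx⟩, ?_, rfl⟩
      have : K.mkQ x = 0 := by
        rw [Submodule.mkQ_apply, Submodule.Quotient.mk_eq_zero]; exact hk
      exact this
  have h4 : finrank ℂ ((LinearMap.ker (K.mkQ.comp Q.subtype)).map Q.subtype) =
      finrank ℂ (LinearMap.ker (K.mkQ.comp Q.subtype)) :=
    Submodule.finrank_map_subtype_eq Q _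
  rw [h3] at h4
  rw [h2] at h1
  omega

/-! ## Statements -/

/-- ITEM AKX.  Proof: lemma `pair` with `M = K`, `M' = RW l` (dimension 32, see DKB),
`φ x = (t ↦ val p lam t x)`.  The coannihilator of the range is `K ⊓ KB p l lam` (as a subspace of
`K`; a symmetric `t` with `val p lam t x = 0` for all `x ∈ RW l` is in `KB`, test with the coordinates
of `x`), the kernel is `AK p l lam K`. -/
def AKX : Prop := ∀ (p : Fin 4 → E) (l : E) (lam : Fin 4 → La), l ≠ 0 → ∀ K : Submodule ℂ T3,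
  K ≤ SymT → finrank ℂ (K ⊓ KB p l lam : Submodule ℂ T3) + 32 =
    finrank ℂ K + finrank ℂ (AK p l lam K)

/-- ITEM DKX.  Proof: lemma `pair` with `M = SymT`, `M' = RW l × RW l'` (dimension 32 + 32),
`φ (x, x') = (t ↦ val p lam t x + val p' lam' t x')`; kernel `RelM`, coannihilator
`KB p l lam ⊓ KB p' l' lam'`. -/
def DKX : Prop := ∀ (p : Fin 4 → E) (l : E) (lam : Fin 4 → La) (p' : Fin 4 → E) (l' : E)
  (lam' : Fin 4 → La), l ≠ 0 → l' ≠ 0 →
  finrank ℂ (KB p l lam ⊓ KB p' l' lam' : Submodule ℂ T3) + 64 =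
    finrank ℂ SymT + finrank ℂ (RelM p l lam p' l' lam')

/-- ITEM TAU: structure of the functionals which depend only on the restriction to `P`.
Notation `f_i = f ⬝ᵥ p i` (not zero), `g_i = g ⬝ᵥ p i`, `x = (v, mu)`.
Proof: (1) `v i ∈ span p`: `l ⬝ᵥ v i = 0` (`RW`).  Test `t = sp e h (a k)` (`a` the dual family of `p`),
which is in `KU P` as `h` vanishes on `P`: by `tri_sp`, `0 = (e ⬝ᵥ lam k) (h ⬝ᵥ v k)` for all `e`; so
`h ⬝ᵥ v k = 0` (`lam k 0 = 1`).  `Ann ![l, h]` has dimension 4 and contains the independent `p i`, so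
`v i = ∑ k, V i k • p k`.
(2) Test `t = sp e F (a k)` with `F = f` or `g` (`F_i = F ⬝ᵥ p i`): for all `e`, hence in `La`:
`∑ i ≠ k, (F_i * V i k) • lam i + (∑ i ≠ k, V k i * F_i) • lam k + (2 * F_k) • (mu k + V k k • lam k) = 0`.
(3) Multiply the equation for `g` by `f_k` and subtract `g_k` times the equation for `f`:
`∑ i ≠ k, (z i k * V i k) • lam i + (∑ i ≠ k, V k i * z i k) • lam k = 0`, `z = zz f g p`.  By `Rel`:
there is `τ k` with `z i k * V i k = ρ i * τ k` for `i ≠ k` and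
`∑ i ≠ k, V k i * z i k = ρ k * τ k`.  As `z i k = - z k i` the last sum is `- ∑ i ≠ k, ρ k * τ i`, so
`∑ τ = 0`.
(4) if all `V i k = 0`, `i ≠ k`: the equation for `f` gives `mu k = - V k k • lam k`. -/
def TAU : Prop := ∀ p l lam h f g, Side p l lam h f g → ∀ ρ, Rel lam ρ →
  ∀ x ∈ AS p l lam (PP l h f g), ∃ (V : Fin 4 → Fin 4 → ℂ) (τ : Fin 4 → ℂ),
  (∀ i, x.1 i = ∑ k, V i k • p k) ∧ (∀ i k, i ≠ k → zz f g p i k * V i k = ρ i * τ k) ∧
  ∑ i, τ i = 0 ∧ ((∀ i k, i ≠ k → V i k = 0) → x ∈ Tri p lam)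

/-- ITEM INJ (`TAU → RHO → RHP → INJ`).
Proof: `ρ` from RHO, `V, τ` from TAU, `z = zz f g p`.  The hypothesis and `CC` give (`RHP`)
`V i k * c i k = G i * ρ k` for `k ≠ i` (`∑ k, V i k * c i k * dt a (lam i) (lam k) = 0`).  Multiply
`z i k * V i k = ρ i * τ k` by `c i k`:
(A) `ρ i * τ k * c i k = ρ k * G i * z i k`, and exchanging `i`, `k` (both `c` and `z` are antisymmetric)
(B) `ρ k * τ i * c i k = ρ i * G k * z i k`, for all `i ≠ k`.
Case `τ = 0`: by (A) `G i * z i k = 0`.  If `G i ≠ 0` then `z i k = 0` for all `k`, so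
`g_k = (g_i / f_i) f_k` for all `k`: the form `g - (g_i / f_i) • f` kills the span of `p`, so it is a
combination of `l`, `h`: contradiction to `fi`.  So `G = 0`, `V i k = 0` for `i ≠ k`, and
`x ∈ Tri p lam`.
Case `τ k ≠ 0` for some `k`: by (A) `G i ≠ 0`, `z i k ≠ 0` for all `i ≠ k`; as `∑ τ = 0` there is
`k' ≠ k` with `τ k' ≠ 0`, so also `G k ≠ 0`; by (B) (`z i k ≠ 0`, `G k ≠ 0`) `τ i ≠ 0` for all `i ≠ k`.
So all `τ, G` are not zero, and by (A) all `z i k ≠ 0` (`i ≠ k`).  (A) and (B): `ρ k ^ 2 * G i * τ i = ρ i ^ 2 * G k * τ k`, so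
`G i * τ i = κ * ρ i ^ 2` with the same `κ` for all `i`, and `c i k = κ * ρ i * ρ k * z i k / (τ i * τ k)`.
Then `Pf c = κ ^ 2 * (ρ 0 ρ 1 ρ 2 ρ 3 / (τ 0 τ 1 τ 2 τ 3)) * Pf z` and `Pf z = 0` (`zz` unfolded, ring):
contradiction. -/
def INJ : Prop := ∀ p l lam h f g, Side p l lam h f g → ∀ s c, CC p lam s c →
  (∀ i k, i ≠ k → c i k ≠ 0) → Pf c ≠ 0 → ∀ x ∈ AS p l lam (PP l h f g),
  (∀ i a, tri s a (p i) (x.1 i) = 0) → x ∈ Tri p lam

/-- ITEM PBX (`INJ → PBX`).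
Proof: `A = AS p l lam P`.  `pair` with `M = (Fin 4 → La)` (dimension 12), `M' = A`,
`φ x = (d ↦ ∑ i, tri s (d i) (p i) (x.1 i))`.  Kernel of `φ`: (take `d = Pi.single i a`) the `x` with
`tri s a (p i) (x.1 i) = 0` for all `i, a`; by `INJ` contained in `Tri p lam`, dimension ≤ 4.  So the
coannihilator `C` has dimension ≤ 16 - dim A.  `C` contains `UD` and the 4-dimensional space of
`(c i • lam i)_i` (`tri s (lam i) (p i) (x.1 i) = 0` because `l ⬝ᵥ x.1 i = 0`), which meet only in 0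
(`lam i 0 = 1`).  So `dim UD + 4 ≤ 16 - dim A`. -/
def PBX : Prop := ∀ p l lam h f g, Side p l lam h f g → ∀ s c, CC p lam s c →
  (∀ i k, i ≠ k → c i k ≠ 0) → Pf c ≠ 0 →
  (∀ i v, l ⬝ᵥ v = 0 → tri s (lam i) (p i) v = 0) →
  finrank ℂ (UD s p (AS p l lam (PP l h f g))) + finrank ℂ (AS p l lam (PP l h f g)) ≤ 12

/-- ITEM PAX.  Proof: `rn_le` with `f = evB p l`, `g = evE l`.  `evE l (W)` is killed by `u1, u2` (as
covectors: `l ⬝ᵥ u1 = 0`, `δ` kills `u1`): ≤ 4.  For `δ ∈ W` which kills `l` the vector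
`evB p l δ = (dp, 0)` satisfies `l ⬝ᵥ dp i = 0` (derivative of `l ⬝ᵥ p i = 0`), and, with
`u1 = ∑ z i • p i`, `u2 = ∑ w i • p i` (`u1, u2` are in `Ann ![l, h]` = span of `p`), applying `h` to
`0 = δ u1 = ∑ δ (z i) • p i + ∑ z i • dp i`: `∑ z i * (h ⬝ᵥ dp i) = 0`, `∑ w i * (h ⬝ᵥ dp i) = 0`.
These are 4 + 2 independent conditions on `dp` (24 dimensions; `l, h` are independent, so are `z, w`):
≤ 18.  Total 22. -/
def PAX : Prop := ∀ (p : Fin 4 → E) (l h u1 u2 : E), LinearIndependent ℂ p →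
  (∀ i, l ⬝ᵥ p i = 0) → (∀ i, h ⬝ᵥ p i = 0) → LinearIndependent ℂ ![l, h] →
  LinearIndependent ℂ ![u1, u2] → l ⬝ᵥ u1 = 0 → h ⬝ᵥ u1 = 0 → l ⬝ᵥ u2 = 0 → h ⬝ᵥ u2 = 0 →
  ∀ W : Submodule ℂ D, W ≤ ZE u1 ⊓ ZE u2 → finrank ℂ (W.map (evB p l)) ≤ 22

/-- ITEM PAY.  Proof: as PAX, with one more condition.  The vectors `u1, u2, p c, p d` span a space of
dimension ≤ 3 (relation `a • p c + b • p d = x • u1 + y • u2`, `a ≠ 0`), so there is a form `F` which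
kills them but not all `p i` (`exists_sep` etc.); `l, h, F` are independent.  For `δ ∈ W`:
`δ (a • p c + b • p d) = δ x • u1 + δ y • u2`; apply `F`: `a * (F ⬝ᵥ dp c) + b * (F ⬝ᵥ dp d) = 0`.  So
4 + 2 + 1 independent conditions on `dp`: ≤ 17, total 21. -/
def PAY : Prop := ∀ (p : Fin 4 → E) (l h u1 u2 : E), LinearIndependent ℂ p →
  (∀ i, l ⬝ᵥ p i = 0) → (∀ i, h ⬝ᵥ p i = 0) → LinearIndependent ℂ ![l, h] →
  LinearIndependent ℂ ![u1, u2] → l ⬝ᵥ u1 = 0 → h ⬝ᵥ u1 = 0 → l ⬝ᵥ u2 = 0 → h ⬝ᵥ u2 = 0 →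
  ∀ (c d : Fin 4) (a b x y : ℂ), c ≠ d → a ≠ 0 → a • p c + b • p d = x • u1 + y • u2 →
  ∀ W : Submodule ℂ D, W ≤ ZE u1 ⊓ ZE u2 → finrank ℂ (W.map (evB p l)) ≤ 21

/-- ITEM PCX (`DEC → RHO → PCX`).  Let `R = AK p' l' lam' (KB p l lam ⊓ KU P)`, `A = AS p' l' lam' P`
(`A ≤ R`).
Proof: (1) for `x = (v, mu) ∈ R` put `α i = h' ⬝ᵥ v i`.  For `e ∈ La` the net `sp e l h'` is in
`KB p l lam ⊓ KU P` (`tri_sp`, `l ⬝ᵥ p i = 0`; `l` vanishes on `P`); `val = 0` gives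
`∑ (e ⬝ᵥ lam' i) (l ⬝ᵥ p' i) α i = 0`, so `((l ⬝ᵥ p' i) * α i)_i` is a relation between the `lam' i`
(`RHO`): `x ↦ α 0` is a linear functional on `R` whose vanishing implies `α = 0`.
(2) if `α = 0` then `x ∈ A`.  Let `t ∈ KU P`.  `DEC` for `![l, h, l', h']`:
`t = pr l r1 + pr h r2 + pr l' r3 + pr h' r4`.  `val p' lam' (pr l' r3) x = 0 = val .. (pr h' r4) x`
because `l'`, `h'` kill all `p' i` and `v i`.  `pr l r1 ∈ KB p l lam ⊓ KU P`, so its value is 0.  For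
`pr h r2`: `pr h r ∈ KB p l lam` as soon as `con r (lam i) ⬝ᵥ p i = 0` for all `i`; take
`r k = r2 k + a k • l' + b k • h'`, `a, b ∈ La` with
`(a ⬝ᵥ lam i) (l' ⬝ᵥ p i) + (b ⬝ᵥ lam i) (h' ⬝ᵥ p i) = - con r2 (lam i) ⬝ᵥ p i`, `i = 0, .., 3`.  This
system is solvable: the four vectors `((l' ⬝ᵥ p i) • lam i, (h' ⬝ᵥ p i) • lam i)` of `ℂ^6` are
independent, because a relation `x` gives two relations `(x i (l' ⬝ᵥ p i))`, `(x i (h' ⬝ᵥ p i))`
between the `lam i`, so (`RHO`) `κ ρ i`, `κ' ρ i`; if `κ ≠ 0` the form `h' - (κ'/κ) • l'` kills `p`,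
so it is a combination of `l`, `h` (`Ann ![l, h]` = span of `p`): contradiction to `fi`; so `κ = 0`,
`x = 0`.  The change `sp a h l' + sp b h h'` has value 0 on `x` (`l'`, `h'` kill `p' i`, `v i`).  So
`val p' lam' t x = 0`.
Hence `dim R ≤ dim A + 1`. -/
def PCX : Prop := ∀ s p l lam m p' l' lam' m' h h', Two s p l lam m p' l' lam' m' h h' →
  finrank ℂ (AK p' l' lam' (KB p l lam ⊓ KU (PP l h l' h'))) ≤
    finrank ℂ (AS p' l' lam' (PP l h l' h')) + 1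

/-- ITEM PDX (`DKB → AKX → PAX → PBX → PCX → PDX`): `P` moves in at least three dimensions.
Proof: `W = ZC p l lam`, `F = (evT s).prod (evC p' l' lam')`, `P = PP l h l' h' = PP l' h' l h`
(`PP_comm`), `A = AS p' l' lam' P`, `K = KB p l lam ⊓ KU P`.
(1) `dim F(W) ≥ (n - 28) + 6`, as in NNX.
(2) `rn_le` with `g = evP ![u1, u2]`: `dim F(W) ≤ dim g(W) + dim F(W1)`, `W1 = W ⊓ ker g`.
(3) `rn_le` with `g = (KU P).mkQ ∘ evT s`: `dim g(W1) ≤ dim (KB p l lam).map mkQ = (n - 28) - dim K`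
(`Opt.dT_mem_KB`, `finrank_map_mkQ`, `DKB`).  `W2 = {δ ∈ W1 | dT δ s ∈ KU P}`.
(4) `dim F(W2) = dim evC' (W2) + dim evT s (W2 ⊓ ZC')`, the second term is
≤ dim (K ⊓ KB p' l' lam') = dim K + dim (AK p' l' lam' K) - 32 ≤ dim K + dim A + 1 - 32
(`AKX`, `PCX`).
(5) `dim evC' (W2) ≤ dim evB p' l' (W2) + dim evP lam' (W2 ⊓ ZB p' l')` ≤ 22 + (12 - dim A): `PAX` for
the second configuration, and for `δ ∈ W2 ⊓ ZB p' l'` the family `d i = dE δ (lam' i)` is in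
`UD s p' A`: `d i 0 = 0` (`Opt.dlam0`); for `x ∈ A`: `val p' lam' (dT δ s) x = 0` as `dT δ s ∈ KU P`, where
`tri (dT δ s) a (p' i) (p' i) = 0` (`Opt.d_q0`, `δ` kills `p'`) and by `Opt.d_eq` (paired with `x.1 i`,
`l' ⬝ᵥ x.1 i = 0`) `tri (dT δ s) (lam' i) (p' i) (x.1 i) = - tri s (d i) (p' i) (x.1 i)`.  `PBX`.
Sum: `n - 22 ≤ dim g(W) + (n - 28 - dim K) + 34 - dim A + dim K + dim A - 31`, i.e. `3 ≤ dim g(W)`. -/
def PDX : Prop := ∀ s p l lam m p' l' lam' m' h h', Two s p l lam m p' l' lam' m' h h' →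
  ∀ u1 u2 : E, LinearIndependent ℂ ![u1, u2] → u1 ∈ PP l h l' h' → u2 ∈ PP l h l' h' →
  3 ≤ finrank ℂ ((ZC p l lam).map (evP ![u1, u2]))

/-- ITEM PDY (`DKB → AKX → PAY → PBX → PCX → PDY`).
Proof: exactly as PDX, with `PAY` in place of `PAX` (21 in place of 22): the vector
`(l ⬝ᵥ p' d) • p' c - (l ⬝ᵥ p' c) • p' d` is killed by `l`, `h` (this is `zz l h p' c d = 0`), `l'`,
`h'`, so it is in `P`, which has dimension 2 and is spanned by `u1, u2`. -/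
def PDY : Prop := ∀ s p l lam m p' l' lam' m' h h', Two s p l lam m p' l' lam' m' h h' →
  ∀ u1 u2 : E, LinearIndependent ℂ ![u1, u2] → u1 ∈ PP l h l' h' → u2 ∈ PP l h l' h' →
  ∀ c d, c ≠ d → zz l h p' c d = 0 → 4 ≤ finrank ℂ ((ZC p l lam).map (evP ![u1, u2]))

/-- ITEM CLX (`PDX → CLX`): at most one Plücker coordinate vanishes.
Proof: otherwise two different pairs `{i, k}`, `{i', k'}`.  `u1 = p i - x • p k`,
`x = (l' ⬝ᵥ p i) / (l' ⬝ᵥ p k)`, is in `P` (`zz = 0`), same for `u2 = p i' - y • p k'`; `x, y ≠ 0` and the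
pairs are different, so `u1, u2` are independent.  `δ ∈ ZC p l lam` kills `p`, so `δ u1 = - δ x • p k`,
`δ u2 = - δ y • p k'`: rank ≤ 2, contradiction to `PDX`. -/
def CLX : Prop := ∀ s p l lam m p' l' lam' m' h h', Two s p l lam m p' l' lam' m' h h' →
  AM (zz l' h' p)

/-- ITEM CLY (`PDY → CLY`).
Proof: `u1 = p i - x • p k ∈ P` as in CLX.  `P` has dimension 2 (`finrank_Ann`): there is `u2 ∈ P`,
independent of `u1`; it is in the span of `p`: `u2 = ∑ w j • p j`; subtract a multiple of `u1`: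
`w i = 0`; scale: `w j = 1` for some `j ≠ i`.  For `δ ∈ ZC p l lam`: `δ u1 = - δ x • p k`,
`δ u2 = ∑ δ (w j') • p j'` with `δ (w i) = δ (w j) = 0`: rank ≤ 1 + 2, contradiction to `PDY`. -/
def CLY : Prop := ∀ s p l lam m p' l' lam' m' h h', Two s p l lam m p' l' lam' m' h h' →
  ∀ i k c d, i ≠ k → c ≠ d → zz l' h' p i k = 0 → zz l h p' c d = 0 → False

/-- ITEM NCY (`DEC → CCX → NCY`): nets of `K_b` which vanish on `P` vanish on `N`.
Proof: `t ∈ KB p l lam ⊓ KU P`; `DEC` for `![l, h, f, g]`: `t = pr l r1 + pr h r2 + pr f r3 + pr g r4`.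
With `f_i = f ⬝ᵥ p i`, `g_i = g ⬝ᵥ p i`, `A_i = con r3 a ⬝ᵥ p i`, `B_i = con r4 a ⬝ᵥ p i`:
`tri t a (p i) (p k) = f_i A_k + f_k A_i + g_i B_k + g_k B_i`.  `i = k`: `f_i A_i + g_i B_i = 0`; put
`G_i = - B_i / f_i`: `B_i = - f_i G_i`, `A_i = g_i G_i`, so
`tri t a (p i) (p k) = z i k (G_i - G_k)`, `z = zz f g p`.  By `CCX` this is
`c i k * dt a (lam i) (lam k)`.  For three indices `i, k, j` with `z i k, z k j, z j i` not zero:
`(c i k / z i k) dt a (lam i) (lam k) + (c k j / z k j) dt a (lam k) (lam j) + (c j i / z j i) dt a (lam j) (lam i) = 0`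
for all `a`; `a = lam j` gives `c i k = 0`, etc.  For the exceptional pair `z i k = 0`: `c i k = 0`
directly.  Every other pair is in a triangle with all three coordinates non-zero.  So `c = 0`, and
`Ann ![l, h]` is the span of `p`. -/
def NCY : Prop := ∀ p l lam h f g, Side p l lam h f g → AM (zz f g p) →
  KB p l lam ⊓ KU (PP l h f g) ≤ KU (Ann ![l, h])

/-- ITEM K0X (`RHO → K0X`).
Proof: dual basis: `e1, e2, e3, e4` with `(l, h, l', h')` taking the values of the unit vectors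
(`exists_solution` with `fi`).  `e1, e2 ∈ N' = Ann ![l', h']`, `e3, e4 ∈ N = Ann ![l, h]`.  A net `t`
vanishing on `N` and `N'` is determined by `tri t a (e i) (e j)`, `i ∈ {1, 2}`, `j ∈ {3, 4}`
(every vector is `n + n'`; for `x ∈ P`, `tri t a x y = 0` for all `y`).
`t ∈ KB p l lam`, `v = e2` (`l ⬝ᵥ e2 = 0`): `p i = (l' ⬝ᵥ p i) • e3 + (h' ⬝ᵥ p i) • e4 +` (element of `P`), so
`(l' ⬝ᵥ p i) tri t (lam i) e2 e3 + (h' ⬝ᵥ p i) tri t (lam i) e2 e4 = 0`; in the same way from `KB'`: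
`(l ⬝ᵥ p' i) tri t (lam' i) e1 e4 + (h ⬝ᵥ p' i) tri t (lam' i) e2 e4 = 0`.
So the linear map `t ↦ (a ↦ tri t a e1 e3, a ↦ tri t a e2 e4)` to `ℂ^3 × ℂ^3` is injective
(`l' ⬝ᵥ p i ≠ 0` and the `lam i` span).  With `ρ` from RHO: `∑ ρ i tri t (lam i) e2 e3 = 0`, so
`tri t ζ e2 e4 = 0` for `ζ = ∑ (ρ i (h' ⬝ᵥ p i) / (l' ⬝ᵥ p i)) • lam i`; `ζ ≠ 0` (otherwise, by RHO,
`(h' ⬝ᵥ p i) / (l' ⬝ᵥ p i)` is constant, contradiction to `fi` as in PCX).  So the image has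
dimension ≤ 3 + 2. -/
def K0X : Prop := ∀ s p l lam m p' l' lam' m' h h', Two s p l lam m p' l' lam' m' h h' →
  finrank ℂ (KB p l lam ⊓ KB p' l' lam' ⊓ KU (Ann ![l, h]) ⊓ KU (Ann ![l', h']) :
    Submodule ℂ T3) ≤ 5

/-- ITEM RAS (`DEC → RAS`).
Proof: let `t ∈ KU P`; `DEC` for `![l, h, l', h']`: `t = t1 + t2`, `t1 = pr l r1 + pr h r2`,
`t2 = pr l' r3 + pr h' r4`.  `val p lam t1 x.1 = 0` (`l`, `h` kill `p i` and `x.1.1 i`),
`val p' lam' t2 x.2 = 0`.  So `val p' lam' t x.2 = val p' lam' t1 x.2 = - val p lam t1 x.1 = 0` and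
`val p lam t x.1 = val p lam t2 x.1 = - val p' lam' t2 x.2 = 0`. -/
def RAS : Prop := ∀ s p l lam m p' l' lam' m' h h', Two s p l lam m p' l' lam' m' h h' →
  ∀ x ∈ RelM p l lam p' l' lam', (∀ i, h ⬝ᵥ x.1.1 i = 0) → (∀ i, h' ⬝ᵥ x.2.1 i = 0) →
  x.1 ∈ AS p l lam (PP l h l' h') ∧ x.2 ∈ AS p' l' lam' (PP l h l' h')

/-- ITEM HHX (`RHO → HHX`).
Proof: `α i = h ⬝ᵥ x.1.1 i`.  Test nets `sp e l' h` and `sp e h' h`: the primed terms vanish
(`l'`, `h'` kill `p' i` and `x.2.1 i`), and one gets `∑ ((l' ⬝ᵥ p i) * α i) • lam i = 0`,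
`∑ ((h' ⬝ᵥ p i) * α i) • lam i = 0` (`tri_sp`, `h ⬝ᵥ p i = 0`).  By RHO these are `κ ρ i`, `κ' ρ i`; if
`κ ≠ 0` the form `h' - (κ'/κ) • l'` kills all `p i`, so it is a combination of `l, h`
(`Ann ![l, h]` = span of `p`, `mem_span_of_ann`): contradiction to `fi`.  So `κ = 0`, `α = 0`. -/
def HHX : Prop := ∀ s p l lam m p' l' lam' m' h h', Two s p l lam m p' l' lam' m' h h' →
  ∀ x ∈ RelM p l lam p' l' lam', (∀ i, h' ⬝ᵥ x.2.1 i = 0) → ∀ i, h ⬝ᵥ x.1.1 i = 0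

/-- ITEM QXX (`DKX → QXX`).
Proof: `W = ZC p l lam`, `M = KB p l lam ⊓ KB p' l' lam'`, `j = finrank RelM`, `dim M = n - 64 + j`
(`DKX`).  (1) `dim evT s (W) + dim evC' (W ⊓ ZS s) = dim evC' (W) + dim evT s (W ⊓ ZC')` (`rn`), so
`(n - 28) + 6 ≤ dim evC' (W) + (n - 64 + j)` (see NNX (1); `Opt.dT_mem_KB`), and
`dim evC' (W) ≤ 6 + dim G (W')`, `W' = W ⊓ ZE l'`, `G = (evP p').prod (evP lam')` (`rn_le` with
`g = evE l'`).  So `dim G (W') ≥ 36 - j`.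
(2) `G (W')` lies in `T0` = the space of `(dp, d)` with `l' ⬝ᵥ dp i = 0`, `d i 0 = 0`, of dimension
`20 + 8 = 28`.
(3) For `t ∈ M`, `x = (x1, x2) ∈ RelM`, `x2 = (v, mu)` and `δ ∈ W'` with `G δ = (dp, d)`:
`L t (dp, d) := ∑ i, (tri t (d i) (p' i) (v i) + tri t (lam' i) (dp i) (v i) + 2 tri t (mu i) (p' i) (dp i)) = 0`:
apply `δ` to `val p lam t x1 + val p' lam' t x2 = 0` (`d_tri`); the terms with `dT δ t` cancel by the
relation for the net `dT δ t ∈ SymT`; `δ` kills `p, l, lam, l'`; `tri t (lam i) (p i) (δ (v1 i)) = 0`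
because `l ⬝ᵥ δ (v1 i) = 0` and `t ∈ KB`, `tri t (δ ..) (p i) (p i) = 0`, same for the primed terms.
(4) Consider the pairing `L` of `M` with `T0`.  `dim {t ∈ M | L t = 0 on T0} ≥ dim M - (28 - dim G (W'))
≥ n - 64 + j - 28 + 36 - j = n - 56`.  And such `t` are in `QQ`: take `(dp, d) = (Pi.single i w, 0)`
(`tri_comm`), and `(0, Pi.single i a)` with `a 0 = 0`; for general `a` write
`a = a 0 • lam' i + (a - a 0 • lam' i)` and use `tri t (lam' i) (p' i) (v i) = 0` (`l' ⬝ᵥ v i = 0`). -/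
def QXX : Prop := ∀ s p l lam m p' l' lam' m' h h', Two s p l lam m p' l' lam' m' h h' →
  ∀ x ∈ RelM p l lam p' l' lam',
  finrank ℂ SymT ≤ finrank ℂ (QQ p l lam p' l' lam' x.2) + 56

/-- ITEM GAL (pure algebra; `z i k = g i * f k - g k * f i`).
Proof: (A) `ρ i * τ k * c i k = ρ k * G i * z i k` and (B) `ρ k * τ i * c i k = ρ i * G k * z i k` for
`i ≠ k` (multiply the hypothesis on `V` by `c i k`; antisymmetry of `c` and `z`).
Case 1: `τ i ≠ 0` for all `i`.  Take a pair `a, b` with `z a b ≠ 0` (there is one, even in every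
triangle).  If `c a b = 0`: `G a = 0` by (A), `G b = 0` by (B).  If `G i = 0` and `z i k ≠ 0` then
`c i k = 0` (A) and `G k = 0` (B).  The graph of non-vanishing `z` is connected (at most one pair is
missing), so `G = 0`, so `c = 0` by (A).
Case 2: exactly one `τ a = 0`.  Then all `z i k ≠ 0` (if `z i k = 0` then `ρ i * τ k = 0 = ρ k * τ i`, two
zeros).  Take any `b ≠ a`.  If `c a b = 0`: (A) `G a = 0`; (B) for `i = a`: `G k = 0` for all `k ≠ a`.  So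
`c i k = 0` whenever `τ k ≠ 0` or `τ i ≠ 0`: always.
Case 3: `τ a = τ b = 0`, the other two `τ j = - τ k ≠ 0`.  (`z a j, z a k, z b j, z b k, z j k ≠ 0` as in
case 2.)  If `c a b = 0`: the hypothesis for `(a, b)` gives `ρ b * G a = 0`, `G a = 0`, same `G b = 0`;
(B) for `i = a`, `k = j`: `0 = ρ a * G j * z a j`, so `G j = 0`, same `G k = 0`.  Then (A), (B) give
`c = 0` for all pairs except `{a, b}`. -/
def GAL : Prop := ∀ (ρ f g τ : Fin 4 → ℂ) (V : Fin 4 → Fin 4 → ℂ), (∀ i, ρ i ≠ 0) →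
  (∀ i, f i ≠ 0) → ∑ i, τ i = 0 → (∃ i, τ i ≠ 0) →
  (∀ i k, i ≠ k → (g i * f k - g k * f i) * V i k = ρ i * τ k) →
  AM (fun i k => g i * f k - g k * f i) →
  ∃ a b : Fin 4, ∀ c : Fin 4 → Fin 4 → ℂ, (∀ i k, c k i = -c i k) →
    (∃ G : Fin 4 → ℂ, ∀ i k, i ≠ k → c i k * V i k = ρ k * G i) → c a b = 0 → ∀ i k, c i k = 0

/-- ITEM GOX (`N63 → RHO → RHP → CCX → TAU → GAL → NCY → K0X → RAS → QXX → GOX`).
Proof: `x.2 ∈ AS p' l' lam' P` (`RAS`), `TAU` for `Two.swap.side` (`PP_comm`) and `ρ` of RHO for `lam'`: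
`V, τ`, `z = zz l h p'`.  If `τ = 0`: if all `z i k ≠ 0` then `V i k = 0` for `i ≠ k` and
`x.2 ∈ Tri p' lam'`.  Suppose `τ ≠ 0`.  `GAL` (with `f i = l ⬝ᵥ p' i`, `g i = h ⬝ᵥ p' i`) gives `a, b`.
For `t ∈ Q = QQ p l lam p' l' lam' x.2` let `c` be its matrix (`CCX` for the second configuration);
`tri t a (p' i) (x.2.1 i) = 0` gives with `RHP` `V i k * c i k = G i * ρ k`.  Let `j` be an index
different from `a, b`; the linear functional `t ↦ tri t (lam' j) (p' a) (p' b)` on `Q` vanishes at `t`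
iff `c a b = 0` (`a ≠ b`; if `a = b` the functional is 0 and `GAL` says `c = 0` always), and then
`c = 0`, so `t ∈ KU (Ann ![l', h'])` (the span of `p'`), so `t ∈ KU P`, so `t ∈ KU (Ann ![l, h])` by
`NCY` for the first configuration: `t` is in the space of `K0X`.  So `dim Q ≤ 1 + 5`, contradiction to
`QXX` and `N63`. -/
def GOX : Prop := ∀ s p l lam m p' l' lam' m' h h', Two s p l lam m p' l' lam' m' h h' →
  AM (zz l' h' p) → AM (zz l h p') → ∀ x ∈ RelM p l lam p' l' lam', (∀ i, h ⬝ᵥ x.1.1 i = 0) →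
  (∀ i, h' ⬝ᵥ x.2.1 i = 0) → x.2 ∈ Tri p' lam' ∨ ∃ i k, i ≠ k ∧ zz l h p' i k = 0

/-- ITEM ALX (`DEC → RHO → ALX`).
Proof: `α i = h' ⬝ᵥ x.2.1 i`.  Test net `sp e l h'` in the relation: `∑ ((l ⬝ᵥ p' i) * α i) • lam' i = 0`
(all other terms vanish), so by RHO (some `α i ≠ 0`) all `α i ≠ 0`.  Let `e` be a vector with
`l' ⬝ᵥ e = 0`, `h' ⬝ᵥ e = 1`.  `v i = x.2.1 i = α i • e + n i`, `n i ∈ Ann ![l', h']`.
Let `t ∈ QQ`, `t ∈ KU (Ann ![l', h'])` (= KU of the span of `p'`).  First condition of `QQ`: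
`α i tri t a (p' i) e = 0`, so `tri t a n e = 0` for all `n ∈ Ann ![l', h']`.  Second condition with
`w = e`: `α i tri t (lam' i) e e + tri t (lam' i) (n i) e + 2 tri t (mu i) (p' i) e = 0`, so
`tri t (lam' i) e e = 0` for all `i`, so for all parameters (`tri_zero_of_dt`).  So
`t ∈ KU (Ann ![l'])`, `t = pr l' r` (`DEC`).  `t ∈ KB p l lam`: `0 = tri t a (p i) (p i) =
2 (l' ⬝ᵥ p i) (con r a ⬝ᵥ p i)`, and for `l ⬝ᵥ v = 0`: `0 = tri t (lam i) (p i) v = (l' ⬝ᵥ p i) (con r (lam i) ⬝ᵥ v)`,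
so `con r a ⬝ᵥ v = 0` for all `a` (the `lam i` span): `r k = c k • l` (`mem_span_of_ann`).  So `t` is in
the image of `c ↦ pr l' (fun k => c k • l)`, of dimension ≤ 3. -/
def ALX : Prop := ∀ s p l lam m p' l' lam' m' h h', Two s p l lam m p' l' lam' m' h h' →
  ∀ x ∈ RelM p l lam p' l' lam', (∃ i, h' ⬝ᵥ x.2.1 i ≠ 0) →
  finrank ℂ (QQ p l lam p' l' lam' x.2 ⊓ KU (Ann ![l', h']) : Submodule ℂ T3) ≤ 3

/-- ITEM RPX (`DKB → RHO → CCX → RPX`).
Proof: `u1, u2` a basis of `P` (`finrank_Ann`: dimension 2).  `R : T3 → ℂ^9`,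
`R t = (tri t e_k u1 u1, tri t e_k u1 u2, tri t e_k u2 u2)_k`.  (1) `R` maps `SymT` onto `ℂ^9` (test nets
`sp e f g` with `f, g` in the dual family of `![u1, u2]`), and `SymT ⊓ ker R = KU P`.
(2) `dim R (KB p l lam) ≤ 6`: by `CCX` and `u1, u2 ∈ Ann ![l, h]` = span of `p`, `R t` is a linear
function of the six numbers `c i k`, `i < k`, of `t` (each a fixed multiple of
`tri t (lam j) (p i) (p k)`); same for the second configuration.
(3) `R (KB p l lam) + R (KB p' l' lam') = ℂ^9`: otherwise a functional `φ ≠ 0` on `ℂ^9` kills both.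
The functional `φ ∘ R` on `SymT` kills `KB p l lam`, which is the coannihilator (in `SymT`) of the
functionals `val p lam . x`, `x ∈ RW l`; in finite dimension (double annihilator,
`Subspace.dualCoannihilator_dualAnnihilator_eq` or similar) there is `x1 ∈ RW l` with
`φ (R t) = val p lam t x1` for `t ∈ SymT`, in the same way `φ (R t) = val p' lam' t x2`, `x2 ∈ RW l'`.
So `(x1, - x2) ∈ RelM`; as both functionals vanish on `KU P`, `h ⬝ᵥ x1.1 i = 0` (test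
`sp e h (a i) ∈ KU P`, `a` dual family of `p`, see TAU (1)), `h' ⬝ᵥ x2.1 i = 0`.  By hypothesis
`x1 ∈ Tri p lam`, so `φ (R t) = 0` for all `t ∈ SymT`, `φ = 0` by (1).
(4) so `dim (R (KB) ∩ R (KB')) ≤ 6 + 6 - 9 = 3`, and `R (Q)` lies in it; `Q ⊓ ker R = Q ⊓ KU P`. -/
def RPX : Prop := ∀ s p l lam m p' l' lam' m' h h', Two s p l lam m p' l' lam' m' h h' →
  (∀ x ∈ RelM p l lam p' l' lam', (∀ i, h ⬝ᵥ x.1.1 i = 0) → (∀ i, h' ⬝ᵥ x.2.1 i = 0) →
    x.1 ∈ Tri p lam) →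
  ∀ Q : Submodule ℂ T3, Q ≤ KB p l lam ⊓ KB p' l' lam' →
  finrank ℂ Q ≤ finrank ℂ (Q ⊓ KU (PP l h l' h') : Submodule ℂ T3) + 3

/-- ITEM FTX (`DKX → DTP → FTX`).
Proof: as FLX.  `rn` with `W = ZC p l lam`, `f = evT s`, `g = evC p' l' lam'`: the left side is
≥ (n - 28) + 6 (see NNX (1)); `g (W)` lies in `TP p' l' ×` (the `d` with `d i 0 = 0`), dimension ≤ 26 + 8
(`Opt.ev_mem`, `Opt.dlam0`, `DTP`); `evT s (W ⊓ ZC')` lies in `KB p l lam ⊓ KB p' l' lam'`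
(`Opt.dT_mem_KB`), of dimension ≤ n - 64 + 8 (`DKX`).  All are equalities. -/
def FTX : Prop := ∀ s p l lam m p' l' lam' m' h h', Two s p l lam m p' l' lam' m' h h' →
  finrank ℂ (RelM p l lam p' l' lam') ≤ 8 →
  (∀ x ∈ TP p' l', ∀ d : Fin 4 → La, (∀ i, d i 0 = 0) →
    ∃ δ ∈ ZC p l lam, evC p' l' lam' δ = (x, d)) ∧
  (∀ t ∈ KB p l lam ⊓ KB p' l' lam', ∃ δ ∈ ZC p l lam ⊓ ZC p' l' lam', dT δ s = t)

end Pool.Agent.Work.MP_ea8963_ag.G5
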